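import Pool.Agent.CHP.Defs
import Pool.Agent.CHV.Par

/-!
# CHP / AsA: where the expected number of independent sets of size `a` is between `n^(1/2)` and `n`

Notation: `B = -log (1-p) ∈ (0, 2]`, `b = 1/(1-p) = exp B`, `L = LL p n`, `ℒ = log n = B L`, `μ = mu p n a = C(n,a) (1-p)^C(a,2)`.
PROOF of `a_range`.  `a ≤ n` (else `μ = 0`).  `a ≥ 2`: `μ = 1` for `a = 0` (`1 < n^(1/2)`), `μ = n` for `a = 1` (excluded by `μ < n`).
`(n/a)^a ≤ C(n,a) ≤ (exp 1 * n/a)^a` (`Nat.pow_le_choose`-like or by induction; `C(n,a) ≤ n^a/a!`, `a^a/a! ≤ exp a`), `C(a,2) = a (a-1)/2`, so with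
`ψ = log (n/a) - B (a-1)/2`: `a ψ ≤ log μ ≤ a (ψ + 1)`.
* `a ≤ 5`: `ψ ≥ ℒ - log 5 - 4`, `a ψ ≥ 2 (ℒ - log 5 - 4) > ℒ` for large `n`: contradiction with `μ < n`.
* `5 ≤ a < (3/2) L`: `ψ ≥ ℒ - log (2 L) - (3/4) ℒ = ℒ/4 - log (2 L) > 0`, so `a ψ ≥ 5 (ℒ/4 - log (2L)) > ℒ` for large `n`: contradiction.
So `a ≥ (3/2) L`.  `a ψ < ℒ = B L ≤ (2/3) B a` gives `ψ ≤ 4/3`, i.e. `B (a-1)/2 ≥ log (n/a) - 4/3`, `b^(a-1) ≥ (n/a)^2 exp (-8/3) ≥ (n/a)^2/16`
(`exp (8/3) ≤ 16`: `exp 8 < 2981 < 4096 = 16^3`; use `Real.exp_one_lt_d9`).  `a (ψ + 1) ≥ log μ ≥ 0` gives `ψ ≥ -1`, `b^(a-1) ≤ (n/a)^2 exp 2 ≤ 9 (n/a)^2`.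
`(a-1) B ≤ 2 ℒ + log 9 - 2 log a` and `a ≥ (3/2) L → ∞` give `a ≤ 2 L + 1 + (log 9 - 2 log a)/B ≤ 2 L` for large `n`.
-/

set_option autoImplicit false

namespace Pool.Agent.CHP

open Finset Filter Pool.Agent.CHV

/-- The expected number of independent sets of size `a`. -/
noncomputable def mu (p : ℝ) (n a : ℕ) : ℝ := (n.choose a : ℝ) * (1 - p) ^ (a.choose 2)

private theorem choose_lower (n a : ℕ) (ha : a ≤ n) :
    ((n : ℝ) / a) ^ a ≤ (n.choose a : ℝ) := by
  induction n generalizing a with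
  | zero =>
    have : a = 0 := Nat.le_zero.1 ha
    subst this
    simp
  | succ n ih =>
    rcases a with _ | a
    · simp
    · have ha' : a ≤ n := Nat.succ_le_succ_iff.1 ha
      have h1 := ih a ha'
      have h2 : ((n + 1 : ℕ) : ℝ) * (n.choose a : ℝ) = ((n + 1).choose (a + 1) : ℝ) * ((a + 1 : ℕ) : ℝ) := by
        exact_mod_cast Nat.add_one_mul_choose_eq n a
      have ha0 : (0 : ℝ) < ((a + 1 : ℕ) : ℝ) := by positivity
      have h3 : ((n + 1).choose (a + 1) : ℝ) = ((n + 1 : ℕ) : ℝ) / ((a + 1 : ℕ) : ℝ) * (n.choose a : ℝ) := by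
        field_simp
        linarith
      rw [h3, pow_succ, mul_comm]
      have h4 : (((n + 1 : ℕ) : ℝ) / ((a + 1 : ℕ) : ℝ)) ^ a ≤ ((n : ℝ) / a) ^ a := by
        rcases Nat.eq_zero_or_pos a with h0 | h0
        · subst h0
          simp
        · refine pow_le_pow_left₀ (by positivity) ?_ a
          have h5 : (0 : ℝ) < a := by exact_mod_cast h0
          rw [div_le_div_iff₀ ha0 h5]
          push_cast
          have h6 : (a : ℝ) ≤ n := by exact_mod_cast ha'
          nlinarith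
      exact mul_le_mul_of_nonneg_left (h4.trans h1) (by positivity)

private theorem choose_upper (n a : ℕ) (ha : 1 ≤ a) :
    (n.choose a : ℝ) ≤ ((n : ℝ) / a) ^ a * Real.exp a := by
  have h1 : (n.choose a : ℝ) ≤ (n : ℝ) ^ a / (a.factorial : ℝ) := Nat.choose_le_pow_div a n
  have h2 : (a : ℝ) ^ a / (a.factorial : ℝ) ≤ Real.exp a :=
    Real.pow_div_factorial_le_exp _ (Nat.cast_nonneg a) a
  have ha0 : (0 : ℝ) < a := by exact_mod_cast ha
  have h3 : (n : ℝ) ^ a / (a.factorial : ℝ) = ((n : ℝ) / a) ^ a * ((a : ℝ) ^ a / (a.factorial : ℝ)) := by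
    rw [div_pow]
    have : (a : ℝ) ^ a ≠ 0 := (pow_pos ha0 a).ne'
    field_simp
  rw [h3] at h1
  exact h1.trans (mul_le_mul_of_nonneg_left h2 (by positivity))

private theorem exp_two_lt : Real.exp 2 < 739 / 100 := by
  have h1 := Real.exp_one_lt_d9
  have h2 : Real.exp 2 = Real.exp 1 ^ 2 := by
    rw [← Real.exp_nat_mul]
    norm_num
  rw [h2]
  have h3 := Real.exp_pos 1
  nlinarith

private theorem exp_eight_three : Real.exp (8 / 3) ≤ 16 := by
  have h1 := exp_two_lt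
  have h2 : Real.exp (8 / 3) ^ 3 = Real.exp 2 ^ 4 := by
    rw [← Real.exp_nat_mul, ← Real.exp_nat_mul]
    norm_num
  have h3 : Real.exp 2 ^ 4 ≤ (739 / 100) ^ 4 := pow_le_pow_left₀ (Real.exp_pos 2).le h1.le 4
  by_contra h4
  push Not at h4
  have h5 : (16 : ℝ) ^ 3 < Real.exp (8 / 3) ^ 3 := pow_lt_pow_left₀ h4 (by norm_num) (by norm_num)
  rw [h2] at h5
  norm_num at h3 h5
  linarith

theorem a_range {p : ℝ} (h0 : 0 < p) (h1 : p < 1) (hB : -Real.log (1 - p) ≤ 2) :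
    ∀ᶠ n : ℕ in atTop, ∀ a : ℕ, (n : ℝ) ^ (1 / 2 : ℝ) ≤ mu p n a → mu p n a < n →
      3 / 2 * LL p n ≤ a ∧ (a : ℝ) ≤ 2 * LL p n ∧
        (n : ℝ) ^ 2 / (16 * (a : ℝ) ^ 2) ≤ (1 / (1 - p)) ^ (a - 1) ∧
        (1 / (1 - p)) ^ (a - 1) ≤ 9 * (n : ℝ) ^ 2 / (a : ℝ) ^ 2 := by
  have hl := ell_pos h0 h1
  set B : ℝ := -Real.log (1 - p) with hBdef
  have hp : 0 < 1 - p := by linarith
  have hlogt : Tendsto (fun n : ℕ => Real.log (n : ℝ)) atTop atTop :=
    Real.tendsto_log_atTop.comp tendsto_natCast_atTop_atTop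
  filter_upwards [hlogt.eventually_ge_atTop 40, (tendsto_LL h0 h1).eventually_ge_atTop 6,
    log_LL_le h0 h1 (ε := B / 40) (by positivity), eventually_ge_atTop 2] with n hn40 hL6 hLlog hn2 a hlo hup
  set Lg : ℝ := Real.log (n : ℝ) with hLg
  set L : ℝ := LL p n with hLdef
  have hBL : B * L = Lg := by
    rw [hLdef]
    unfold LL
    rw [← hBdef, mul_div_cancel₀ _ hl.ne']
  have hn1 : (1 : ℝ) < n := by exact_mod_cast (by omega : 1 < n)
  have hn0 : (0 : ℝ) < n := by linarith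
  have hmu0 : 0 < mu p n a := lt_of_lt_of_le (Real.rpow_pos_of_pos hn0 _) hlo
  have han : a ≤ n := by
    by_contra hc
    push Not at hc
    unfold mu at hmu0
    rw [Nat.choose_eq_zero_of_lt hc] at hmu0
    simp at hmu0
  have ha0 : a ≠ 0 := by
    rintro rfl
    unfold mu at hlo
    simp only [Nat.choose_zero_right, Nat.cast_one, one_mul, Nat.choose_zero_succ, pow_zero] at hlo
    have : (1 : ℝ) < (n : ℝ) ^ (1 / 2 : ℝ) := Real.one_lt_rpow hn1 (by norm_num)
    linarith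
  have ha1 : a ≠ 1 := by
    rintro rfl
    unfold mu at hup
    simp at hup
  have ha2 : 2 ≤ a := by omega
  have haR : (2 : ℝ) ≤ a := by exact_mod_cast ha2
  have haR0 : (0 : ℝ) < a := by linarith
  set Λ : ℝ := Real.log ((n : ℝ) / a) with hΛ
  have hΛ' : Λ = Lg - Real.log a := by
    rw [hΛ, Real.log_div hn0.ne' haR0.ne']
  have hna : 0 < (n : ℝ) / a := by positivity
  have hc0 : (0 : ℝ) < (n.choose a : ℝ) := by exact_mod_cast Nat.choose_pos han
  have hlogmu : Real.log (mu p n a) = Real.log (n.choose a : ℝ) - B * ((a : ℝ) * (a - 1) / 2) := by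
    unfold mu
    rw [Real.log_mul hc0.ne' (pow_pos hp _).ne', Real.log_pow, Nat.cast_choose_two, hBdef]
    ring
  have hC1 : (a : ℝ) * Λ ≤ Real.log (n.choose a : ℝ) := by
    rw [hΛ, ← Real.log_pow]
    exact Real.log_le_log (pow_pos hna a) (choose_lower n a han)
  have hC2 : Real.log (n.choose a : ℝ) ≤ (a : ℝ) * (Λ + 1) := by
    have h2 := Real.log_le_log hc0 (choose_upper n a (by omega))
    rw [Real.log_mul (pow_pos hna a).ne' (Real.exp_pos _).ne', Real.log_pow, Real.log_exp] at h2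
    rw [hΛ]
    linarith
  set ψ : ℝ := Λ - B * ((a : ℝ) - 1) / 2 with hψ
  have hm1 : (a : ℝ) * ψ ≤ Real.log (mu p n a) := by
    rw [hlogmu, hψ]
    have : (a : ℝ) * (Λ - B * ((a : ℝ) - 1) / 2) = a * Λ - B * ((a : ℝ) * (a - 1) / 2) := by ring
    rw [this]
    linarith
  have hm2 : Real.log (mu p n a) ≤ (a : ℝ) * (ψ + 1) := by
    rw [hlogmu, hψ]
    have : (a : ℝ) * (Λ - B * ((a : ℝ) - 1) / 2 + 1) = a * (Λ + 1) - B * ((a : ℝ) * (a - 1) / 2) := by
      ring
    rw [this]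
    linarith
  have hup' : Real.log (mu p n a) < Lg := Real.log_lt_log hmu0 hup
  have hlo' : 0 < Real.log (mu p n a) := by
    refine Real.log_pos (lt_of_lt_of_le ?_ hlo)
    exact Real.one_lt_rpow hn1 (by norm_num)
  have hL0 : 0 < L := by linarith
  -- first claim
  have c1 : 3 / 2 * L ≤ a := by
    by_contra hc
    push Not at hc
    rcases le_or_gt a 5 with h5 | h5
    · have h5' : (a : ℝ) ≤ 5 := by exact_mod_cast h5
      have h6 : Real.log a ≤ 4 := by
        have := Real.log_le_sub_one_of_pos haR0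
        linarith
      have h7 : B * ((a : ℝ) - 1) / 2 ≤ 4 := by nlinarith
      have h8 : Lg - 8 ≤ ψ := by
        rw [hψ, hΛ']
        linarith
      have h9 : 2 * (Lg - 8) ≤ a * ψ := by
        have h10 : 0 ≤ ψ := by linarith
        nlinarith
      linarith
    · have h5' : (5 : ℝ) ≤ a := by exact_mod_cast h5.le
      have h6 : Real.log a ≤ Real.log (2 * L) := Real.log_le_log haR0 (by linarith)
      rw [Real.log_mul (by norm_num) hL0.ne'] at h6
      have h7 : Real.log 2 ≤ 1 := by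
        have := Real.log_le_sub_one_of_pos (by norm_num : (0 : ℝ) < 2)
        linarith
      have h8 : Real.log L ≤ Lg / 40 := by
        have : B / 40 * L = Lg / 40 := by rw [← hBL]; ring
        linarith
      have h9 : B * ((a : ℝ) - 1) / 2 ≤ 3 / 4 * Lg := by
        rw [← hBL]
        nlinarith
      have h10 : Lg / 4 - 1 - Lg / 40 ≤ ψ := by
        rw [hψ, hΛ']
        linarith
      have h11 : Lg / 5 ≤ ψ := by linarith
      have h12 : 5 * (Lg / 5) ≤ a * ψ := by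
        have h13 : 0 ≤ ψ := by linarith
        nlinarith
      linarith
  have hψ1 : ψ ≤ 4 / 3 := by
    have h2 : (a : ℝ) * ψ < 4 / 3 * a := by
      have h3 : Lg ≤ 2 / 3 * B * a := by
        rw [← hBL]
        nlinarith
      nlinarith
    by_contra hc
    push Not at hc
    nlinarith
  have hψ2 : -1 ≤ ψ := by
    by_contra hc
    push Not at hc
    nlinarith
  have hpow : (1 / (1 - p)) ^ (a - 1) = Real.exp (((a : ℝ) - 1) * B) := by
    have h2 : 1 / (1 - p) = Real.exp B := by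
      rw [hBdef, Real.exp_neg, Real.exp_log hp, one_div]
    rw [h2, ← Real.exp_nat_mul]
    congr 1
    rw [Nat.cast_sub (by omega)]
    push_cast
    ring
  have hsq : Real.exp (2 * Λ) = (n : ℝ) ^ 2 / (a : ℝ) ^ 2 := by
    have h2 : Real.exp (2 * Λ) = Real.exp Λ ^ 2 := by
      rw [← Real.exp_nat_mul]
      norm_num
    rw [h2, hΛ, Real.exp_log hna, div_pow]
  refine ⟨c1, ?_, ?_, ?_⟩
  · have h9 : (9 : ℝ) ≤ a := by linarith
    have hloga : 2 ≤ Real.log a := by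
      rw [Real.le_log_iff_exp_le haR0]
      linarith [exp_two_lt]
    have h2 : B * ((a : ℝ) - 1) ≤ 2 * Lg - B := by
      have : B * ((a : ℝ) - 1) / 2 ≤ Λ + 1 := by
        rw [hψ] at hψ2
        linarith
      rw [hΛ'] at this
      linarith
    have h3 : B * (a : ℝ) ≤ B * (2 * L) := by
      have : B * (2 * L) = 2 * Lg := by rw [← hBL]; ring
      linarith
    exact le_of_mul_le_mul_left h3 hl
  · rw [hpow]
    have h2 : 2 * Λ - 8 / 3 ≤ ((a : ℝ) - 1) * B := by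
      rw [hψ] at hψ1
      linarith
    have h3 : (n : ℝ) ^ 2 / (16 * (a : ℝ) ^ 2) = Real.exp (2 * Λ) / 16 := by
      rw [hsq]
      field_simp
    rw [h3]
    refine le_trans ?_ (Real.exp_le_exp.2 h2)
    rw [Real.exp_sub]
    exact div_le_div_of_nonneg_left (Real.exp_pos _).le (Real.exp_pos _) exp_eight_three
  · rw [hpow]
    have h2 : ((a : ℝ) - 1) * B ≤ 2 * Λ + 2 := by
      rw [hψ] at hψ2
      linarith
    refine (Real.exp_le_exp.2 h2).trans ?_
    rw [Real.exp_add, hsq]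
    have h3 : Real.exp 2 ≤ 9 := by linarith [exp_two_lt]
    have h4 : 9 * (n : ℝ) ^ 2 / (a : ℝ) ^ 2 = (n : ℝ) ^ 2 / (a : ℝ) ^ 2 * 9 := by ring
    rw [h4]
    exact mul_le_mul_of_nonneg_left h3 (by positivity)

end Pool.Agent.CHP
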