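import Pool.Agent.CHP.Stl

/-!
# CHP / EZb: the logarithm of the expected number of packings

PROOFS.  `NN_pos`: clear (`0 < n`, `p < 1`).  `log EZ = ∑ v ∈ range (S+1), (κ v log NN_v - log (κ v)!) + log ((n)_s / n^s)`
(`Real.log_mul`, `Real.log_prod`, `Real.log_div`, `Real.log_pow`; all factors are positive since `sz S κ ≤ n`).
`logEZ_le`: `log (κ v)! ≥ κ v log (κ v) - κ v` (`log_fact_ge`), `κ v log NN - κ v log κ v + κ v = κ v (log (NN/κ v) + 1)` (both `0` for `κ v = 0`), and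
`log_desc_le`.
`logEZ_ge`: `log (κ v)! ≤ κ v log (κ v) - κ v + log (κ v + 1) + 1`, `κ v ≤ n`, there are `S + 1` values of `v`, and `log_desc_ge`.
-/

set_option autoImplicit false

namespace Pool.Agent.CHP

open Finset

theorem NN_pos {p : ℝ} (h1 : p < 1) {n : ℕ} (hn : 0 < n) (u : ℕ) : 0 < NN p n u := by
  unfold NN
  have hn' : (0 : ℝ) < n := by exact_mod_cast hn
  have h1' : 0 < 1 - p := by linarith
  have hf : (0 : ℝ) < (u.factorial : ℝ) := by exact_mod_cast Nat.factorial_pos u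
  positivity

private theorem logEZ_eq {p : ℝ} (h1 : p < 1) {n S : ℕ} (hn : 0 < n) {κ : ℕ → ℕ}
    (hs : sz S κ ≤ n) :
    Real.log (EZ p n S κ) = ∑ v ∈ range (S + 1), ((κ v : ℝ) * Real.log (NN p n v) -
      Real.log ((κ v).factorial : ℝ)) +
      Real.log ((n.descFactorial (sz S κ) : ℝ) / (n : ℝ) ^ (sz S κ)) := by
  have hn' : (0 : ℝ) < n := by exact_mod_cast hn
  have hterm : ∀ v ∈ range (S + 1), NN p n v ^ κ v / ((κ v).factorial : ℝ) ≠ 0 := by
    intro v _
    have h2 := NN_pos (p := p) h1 hn v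
    have hf : (0 : ℝ) < ((κ v).factorial : ℝ) := by exact_mod_cast Nat.factorial_pos (κ v)
    exact ne_of_gt (div_pos (pow_pos h2 _) hf)
  have hd : ((n.descFactorial (sz S κ) : ℝ) / (n : ℝ) ^ (sz S κ)) ≠ 0 := by
    have h3 : (0 : ℝ) < (n.descFactorial (sz S κ) : ℝ) := by
      exact_mod_cast Nat.descFactorial_pos.2 hs
    exact ne_of_gt (div_pos h3 (pow_pos hn' _))
  unfold EZ
  rw [Real.log_mul (Finset.prod_ne_zero_iff.2 hterm) hd, Real.log_prod hterm]
  congr 1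
  refine Finset.sum_congr rfl fun v _ => ?_
  have h2 := NN_pos (p := p) h1 hn v
  have hf : (0 : ℝ) < ((κ v).factorial : ℝ) := by exact_mod_cast Nat.factorial_pos (κ v)
  rw [Real.log_div (pow_pos h2 _).ne' hf.ne', Real.log_pow]

private theorem term_eq {x : ℝ} (hx : 0 < x) (k : ℕ) :
    (k : ℝ) * Real.log x - ((k : ℝ) * Real.log k - k) = (k : ℝ) * (Real.log (x / k) + 1) := by
  rcases Nat.eq_zero_or_pos k with rfl | hk
  · simp
  · have hk' : (0 : ℝ) < k := by exact_mod_cast hk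
    rw [Real.log_div hx.ne' hk'.ne']
    ring

theorem logEZ_le {p : ℝ} (h1 : p < 1) {n S : ℕ} (hn : 0 < n) {κ : ℕ → ℕ} (hs : sz S κ ≤ n) :
    Real.log (EZ p n S κ) ≤
      ∑ v ∈ range (S + 1), (κ v : ℝ) * (Real.log (NN p n v / κ v) + 1) - sz S κ +
        ((n : ℝ) - sz S κ) * Real.log (n / ((n : ℝ) - sz S κ)) + (Real.log ((n : ℝ) + 1) + 1) := by
  rw [logEZ_eq h1 hn hs]
  have hA : ∑ v ∈ range (S + 1), ((κ v : ℝ) * Real.log (NN p n v) -
      Real.log ((κ v).factorial : ℝ)) ≤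
      ∑ v ∈ range (S + 1), (κ v : ℝ) * (Real.log (NN p n v / κ v) + 1) := by
    refine Finset.sum_le_sum fun v _ => ?_
    have h2 := term_eq (NN_pos (p := p) h1 hn v) (κ v)
    have h3 := log_fact_ge (κ v)
    linarith
  have hB := log_desc_le hn hs
  linarith

theorem logEZ_ge {p : ℝ} (h1 : p < 1) {n S : ℕ} (hn : 0 < n) {κ : ℕ → ℕ} (hs : sz S κ ≤ n)
    (hκ : ∀ v ≤ S, κ v ≤ n) :
    ∑ v ∈ range (S + 1), (κ v : ℝ) * (Real.log (NN p n v / κ v) + 1) - sz S κ +
        ((n : ℝ) - sz S κ) * Real.log (n / ((n : ℝ) - sz S κ)) -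
          (S + 2) * (Real.log ((n : ℝ) + 1) + 1) ≤ Real.log (EZ p n S κ) := by
  rw [logEZ_eq h1 hn hs]
  have hA : ∑ v ∈ range (S + 1), ((κ v : ℝ) * (Real.log (NN p n v / κ v) + 1) -
      (Real.log ((n : ℝ) + 1) + 1)) ≤ ∑ v ∈ range (S + 1), ((κ v : ℝ) * Real.log (NN p n v) -
      Real.log ((κ v).factorial : ℝ)) := by
    refine Finset.sum_le_sum fun v hv => ?_
    have h2 := term_eq (NN_pos (p := p) h1 hn v) (κ v)
    have h3 := log_fact_le (κ v)
    have h4 : Real.log ((κ v : ℝ) + 1) ≤ Real.log ((n : ℝ) + 1) := by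
      apply Real.log_le_log (by positivity)
      have h5 := hκ v (by have := Finset.mem_range.1 hv; omega)
      have h6 : (κ v : ℝ) ≤ n := by exact_mod_cast h5
      linarith
    linarith
  rw [Finset.sum_sub_distrib, Finset.sum_const, Finset.card_range, nsmul_eq_mul] at hA
  have hB := log_desc_ge hn hs
  push_cast at hA
  linarith

end Pool.Agent.CHP
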