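import Pool.Agent.CHP.AsA
import Pool.Agent.CHP.EZb

/-!
# CHP / AsB: the sizes `N_u` near and below `a`

Notation: `B = -log (1-p) ∈ (0,2]`, `b = 1/(1-p) = exp B > 1`, `L = LL p n`, `ℒ = log n = B L`, `S = SS p K n`, `N_u = NN p n u > 0`, `a` as in `a_range`;
`N_{u+1} = N_u * n/((u+1) b^u)` (`Nat.choose_succ`: `(u+1).choose 2 = u.choose 2 + u`).
PROOFS.
`a_loc`: `(a-1) B = 2 ℒ - 2 log a + O(1)` by `a_range` (`O(1)` between `-log 16` and `log 9`), `log a = log L + O(1)` (`(3/2) L ≤ a ≤ 2 L`), divide by `B`.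
`mu_NN`: `N_a/μ = n^a/n.descFactorial a ≥ 1`, and `n.descFactorial a ≥ (n-a)^a = n^a (1-a/n)^a ≥ n^a (1 - a^2/n) ≥ n^a/2` (Bernoulli; `a ≤ 2 L`).
`NN_t`: `N_a = N_{a-1} n/(a b^(a-1))`, so `N_{a-1} = N_a a b^(a-1)/n`, and the bounds for `b^(a-1)`.
`N_facts`, for `a ≤ S`, `S ≤ a + C`:
 * `a ≤ u ≤ S`: for `j ≥ a` `n/((j+1) b^j) ≤ n/b^(a-1) ≤ 16 a^2/n ≤ 1`, so `N_u ≤ N_a`; and `n/((j+1) b^j) ≥ n/(2 L n^2) ≥ n^(-2)` for `j + 1 ≤ S ≤ 2 L`
   (`b^(2L) = n^2`, `SS_le`), `N_a ≥ μ ≥ 1`, so `N_u ≥ n^(-2 (u-a)) ≥ n^(-2 C)`.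
 * `lm p n < u ≤ a - 1`: the ratios `N_{j+1}/N_j = n/((j+1) b^j)` decrease with `j`.  If `n/((u+1) b^u) ≤ 1`... precisely: if the ratio at `j = u` is `≤ 1` all later
   ratios are `≤ 1` and `N_{a-1} ≤ N_u`.  If it is `> 1` all earlier ratios are `> 1` and `N_u ≥ N_{l}` with `l = lm p n + 1`; and
   `N_l ≥ (n/l)^l (1-p)^(l (l-1)/2) = (n exp (-B (l-1)/2)/l)^l ≥ (n^(1 - 1/32)/(L/16 + 1))^l ≥ (n^(1/2))^l ≥ n^3` for large `n` (`l ≥ 6`,
   `B (l-1)/2 ≤ B L/32 = ℒ/32`), while `N_{a-1} ≤ N_a 9 n/a ≤ 2 n * 9 n ≤ n^3`.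
-/

set_option autoImplicit false

namespace Pool.Agent.CHP

open Finset Filter Pool.Agent.CHV

private theorem NN_succ (p : ℝ) (n u : ℕ) :
    NN p n (u + 1) = NN p n u * ((n : ℝ) * (1 - p) ^ u / (u + 1)) := by
  unfold NN
  have e1 : (u + 1).choose 2 = u + u.choose 2 := by
    rw [Nat.choose_succ_succ' u 1, Nat.choose_one_right]
  have hf : ((u.factorial : ℕ) : ℝ) ≠ 0 := by exact_mod_cast (Nat.factorial_pos u).ne'
  have hu : ((u : ℝ) + 1) ≠ 0 := by positivity
  rw [e1, Nat.factorial_succ]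
  push_cast
  field_simp
  ring

private theorem rat_anti {p : ℝ} (h0 : 0 < p) (h1 : p < 1) (n : ℕ) {j k : ℕ} (hjk : j ≤ k) :
    (n : ℝ) * (1 - p) ^ k / (k + 1) ≤ (n : ℝ) * (1 - p) ^ j / (j + 1) := by
  have hq : 0 < 1 - p := by linarith
  have h2 : (1 - p) ^ k ≤ (1 - p) ^ j := pow_le_pow_of_le_one hq.le (by linarith) hjk
  have h3 : (j : ℝ) ≤ k := by exact_mod_cast hjk
  gcongr

private theorem NN_le_of {p : ℝ} (h1 : p < 1) {n : ℕ} (hn : 0 < n) {u v : ℕ} (huv : u ≤ v)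
    (h : ∀ j, u ≤ j → j < v → (n : ℝ) * (1 - p) ^ j / (j + 1) ≤ 1) : NN p n v ≤ NN p n u := by
  induction v, huv using Nat.le_induction with
  | base => exact le_rfl
  | succ v hv ih =>
    have h2 := ih fun j hj hj2 => h j hj (by omega)
    refine le_trans ?_ h2
    rw [NN_succ]
    have h3 := h v hv (by omega)
    have h4 := (NN_pos h1 hn v).le
    nlinarith

private theorem NN_ge_of {p : ℝ} (h1 : p < 1) {n : ℕ} (hn : 0 < n) {u v : ℕ} (huv : u ≤ v)
    {ρ : ℝ} (hρ : 0 ≤ ρ)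
    (h : ∀ j, u ≤ j → j < v → ρ ≤ (n : ℝ) * (1 - p) ^ j / (j + 1)) :
    ρ ^ (v - u) * NN p n u ≤ NN p n v := by
  induction v, huv using Nat.le_induction with
  | base => simp
  | succ v hv ih =>
    have h2 := ih fun j hj hj2 => h j hj (by omega)
    have e1 : v + 1 - u = (v - u) + 1 := by omega
    rw [e1, pow_succ, NN_succ]
    have h3 := h v hv (by omega)
    have h4 := (NN_pos h1 hn v).le
    calc ρ ^ (v - u) * ρ * NN p n u = (ρ ^ (v - u) * NN p n u) * ρ := by ring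
      _ ≤ NN p n v * ρ := mul_le_mul_of_nonneg_right h2 hρ
      _ ≤ NN p n v * ((n : ℝ) * (1 - p) ^ v / (v + 1)) := mul_le_mul_of_nonneg_left h3 h4

private theorem log_n_eq {p : ℝ} (h0 : 0 < p) (h1 : p < 1) (n : ℕ) :
    Real.log n = (-Real.log (1 - p)) * LL p n := by
  have h := ell_pos h0 h1
  unfold LL
  rw [mul_comm]
  exact (div_mul_cancel₀ _ h.ne').symm

theorem a_loc {p : ℝ} (h0 : 0 < p) (h1 : p < 1) (hB : -Real.log (1 - p) ≤ 2) :
    ∃ C1 : ℝ, 0 < C1 ∧ ∀ᶠ n : ℕ in atTop, ∀ a : ℕ, (n : ℝ) ^ (1 / 2 : ℝ) ≤ mu p n a →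
      mu p n a < n →
      |(a : ℝ) - (2 * LL p n - 2 * (Real.log (LL p n) / (-Real.log (1 - p))))| ≤ C1 := by
  have hB0 := ell_pos h0 h1
  set B : ℝ := -Real.log (1 - p) with hBdef
  have hl9 : 0 < Real.log 9 := Real.log_pos (by norm_num)
  have hl16 : 0 < Real.log 16 := Real.log_pos (by norm_num)
  have hl2 : 0 < Real.log 2 := Real.log_pos (by norm_num)
  refine ⟨1 + (Real.log 16 + 2 * Real.log 2 + Real.log 9) / B, by positivity, ?_⟩
  filter_upwards [a_range h0 h1 hB, (tendsto_LL h0 h1).eventually_ge_atTop 1,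
    eventually_ge_atTop 1] with n hn hL hn1 a ha1 ha2
  obtain ⟨h2, h3, h4, h5⟩ := hn a ha1 ha2
  have hn0 : (0 : ℝ) < n := by exact_mod_cast hn1
  have hL0 : 0 < LL p n := by linarith
  have ha0 : (0 : ℝ) < a := by linarith
  have ha1' : 1 ≤ a := by exact_mod_cast (by linarith : (1 : ℝ) ≤ a)
  have hq : 0 < 1 - p := by linarith
  have hlog : Real.log ((1 / (1 - p)) ^ (a - 1)) = ((a : ℝ) - 1) * B := by
    rw [Real.log_pow, one_div, Real.log_inv, Nat.cast_sub ha1']
    push_cast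
    ring
  have h6 : 2 * Real.log n - Real.log 16 - 2 * Real.log a ≤ ((a : ℝ) - 1) * B := by
    rw [← hlog]
    refine le_trans (le_of_eq ?_) (Real.log_le_log (by positivity) h4)
    rw [Real.log_div (by positivity) (by positivity), Real.log_mul (by norm_num) (by positivity),
      Real.log_pow, Real.log_pow]
    push_cast
    ring
  have h7 : ((a : ℝ) - 1) * B ≤ 2 * Real.log n + Real.log 9 - 2 * Real.log a := by
    rw [← hlog]
    refine le_trans (Real.log_le_log (by positivity) h5) (le_of_eq ?_)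
    rw [Real.log_div (by positivity) (by positivity), Real.log_mul (by norm_num) (by positivity),
      Real.log_pow, Real.log_pow]
    push_cast
    ring
  have h8 : Real.log (LL p n) ≤ Real.log a := Real.log_le_log hL0 (by linarith)
  have h9 : Real.log a ≤ Real.log 2 + Real.log (LL p n) := by
    rw [← Real.log_mul (by norm_num) hL0.ne']
    exact Real.log_le_log ha0 h3
  have h10 : Real.log n = B * LL p n := log_n_eq h0 h1 n
  have e1 : (a : ℝ) - (2 * LL p n - 2 * (Real.log (LL p n) / B)) =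
      (((a : ℝ) - 1) * B - 2 * Real.log n + 2 * Real.log (LL p n)) / B + 1 := by
    rw [h10]
    field_simp
    ring
  rw [e1]
  have h11 : |(((a : ℝ) - 1) * B - 2 * Real.log n + 2 * Real.log (LL p n)) / B| ≤
      (Real.log 16 + 2 * Real.log 2 + Real.log 9) / B := by
    rw [abs_div, abs_of_pos hB0]
    apply div_le_div_of_nonneg_right _ hB0.le
    rw [abs_le]
    constructor <;> linarith
  calc |(((a : ℝ) - 1) * B - 2 * Real.log n + 2 * Real.log (LL p n)) / B + 1|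
      ≤ |(((a : ℝ) - 1) * B - 2 * Real.log n + 2 * Real.log (LL p n)) / B| + |(1 : ℝ)| :=
        abs_add_le _ _
    _ ≤ 1 + (Real.log 16 + 2 * Real.log 2 + Real.log 9) / B := by
        rw [abs_one]
        linarith

theorem mu_NN {p : ℝ} (h0 : 0 < p) (h1 : p < 1) (hB : -Real.log (1 - p) ≤ 2) :
    ∀ᶠ n : ℕ in atTop, ∀ a : ℕ, (n : ℝ) ^ (1 / 2 : ℝ) ≤ mu p n a → mu p n a < n →
      mu p n a ≤ NN p n a ∧ NN p n a ≤ 2 * mu p n a := by
  filter_upwards [a_range h0 h1 hB, (tendsto_LL h0 h1).eventually_ge_atTop 1,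
    eventually_ge_atTop 1, LL_pow_le h0 h1 2 8 (c := 1) (by norm_num)] with n hn hL hn1 hLp a ha1 ha2
  obtain ⟨h2, h3, -, -⟩ := hn a ha1 ha2
  rw [Real.rpow_one] at hLp
  have hn0 : (0 : ℝ) < n := by exact_mod_cast hn1
  have hq : 0 < 1 - p := by linarith
  have hf : (0 : ℝ) < (a.factorial : ℝ) := by exact_mod_cast Nat.factorial_pos a
  have ha0 : (0 : ℝ) ≤ a := Nat.cast_nonneg a
  have haa : (a : ℝ) * a ≤ n / 2 := by nlinarith
  have han : (a : ℝ) ≤ n := by nlinarith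
  have han' : a ≤ n := by exact_mod_cast han
  unfold mu NN
  constructor
  · have h4 : (n.choose a : ℝ) ≤ (n : ℝ) ^ a / (a.factorial : ℝ) := Nat.choose_le_pow_div a n
    calc (n.choose a : ℝ) * (1 - p) ^ a.choose 2
        ≤ ((n : ℝ) ^ a / (a.factorial : ℝ)) * (1 - p) ^ a.choose 2 :=
          mul_le_mul_of_nonneg_right h4 (by positivity)
      _ = (n : ℝ) ^ a * (1 - p) ^ a.choose 2 / (a.factorial : ℝ) := by ring
  · have h5 : (n : ℝ) ^ a ≤ 2 * (n.descFactorial a : ℝ) := by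
      have h6 : ((n + 1 - a) ^ a : ℕ) ≤ n.descFactorial a := Nat.pow_sub_le_descFactorial n a
      have h7 : ((n + 1 - a : ℕ) : ℝ) ^ a ≤ (n.descFactorial a : ℝ) := by exact_mod_cast h6
      have h8 : (n : ℝ) * (1 - a / n) ≤ ((n + 1 - a : ℕ) : ℝ) := by
        rw [Nat.cast_sub (by omega)]
        push_cast
        have : (n : ℝ) * (1 - a / n) = n - a := by field_simp
        rw [this]
        linarith
      have h9 : 0 ≤ 1 - (a : ℝ) / n := by
        rw [sub_nonneg, div_le_one hn0]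
        exact han
      have h10 : 1 + (a : ℝ) * (-((a : ℝ) / n)) ≤ (1 + -((a : ℝ) / n)) ^ a :=
        one_add_mul_le_pow (by linarith) a
      have h11 : (1 : ℝ) / 2 ≤ (1 - (a : ℝ) / n) ^ a := by
        have e : (1 - (a : ℝ) / n) = 1 + -((a : ℝ) / n) := by ring
        rw [e]
        refine le_trans ?_ h10
        have h12 : (a : ℝ) * (a / n) ≤ 1 / 2 := by
          rw [← mul_div_assoc, div_le_iff₀ hn0]
          linarith
        linarith
      calc (n : ℝ) ^ a = 2 * ((n : ℝ) ^ a * (1 / 2)) := by ring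
        _ ≤ 2 * ((n : ℝ) ^ a * (1 - (a : ℝ) / n) ^ a) := by gcongr
        _ = 2 * ((n : ℝ) * (1 - a / n)) ^ a := by rw [mul_pow]
        _ ≤ 2 * ((n + 1 - a : ℕ) : ℝ) ^ a := by gcongr
        _ ≤ 2 * (n.descFactorial a : ℝ) := by linarith
    have h6 : (n.descFactorial a : ℝ) = (a.factorial : ℝ) * (n.choose a : ℝ) := by
      exact_mod_cast Nat.descFactorial_eq_factorial_mul_choose n a
    rw [h6] at h5
    rw [div_le_iff₀ hf]
    have h7 : 0 ≤ (1 - p) ^ a.choose 2 := by positivity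
    nlinarith [mul_le_mul_of_nonneg_right h5 h7]

theorem NN_t {p : ℝ} (h0 : 0 < p) (h1 : p < 1) (hB : -Real.log (1 - p) ≤ 2) :
    ∀ᶠ n : ℕ in atTop, ∀ a : ℕ, (n : ℝ) ^ (1 / 2 : ℝ) ≤ mu p n a → mu p n a < n →
      NN p n a * (n / (16 * a)) ≤ NN p n (a - 1) ∧
        NN p n (a - 1) ≤ NN p n a * (9 * n / a) := by
  filter_upwards [a_range h0 h1 hB, (tendsto_LL h0 h1).eventually_ge_atTop 1,
    eventually_ge_atTop 1] with n hn hL hn1 a ha1 ha2
  obtain ⟨h2, h3, h4, h5⟩ := hn a ha1 ha2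
  have hn0 : (0 : ℝ) < n := by exact_mod_cast hn1
  have hL0 : 0 < LL p n := by linarith
  have ha0 : (0 : ℝ) < a := by linarith
  have ha1' : 1 ≤ a := by exact_mod_cast (by linarith : (1 : ℝ) ≤ a)
  have hq : 0 < 1 - p := by linarith
  obtain ⟨u, rfl⟩ : ∃ u, a = u + 1 := ⟨a - 1, by omega⟩
  rw [Nat.add_sub_cancel] at h4 h5 ⊢
  push_cast at ha0 h4 h5 ⊢
  have hN := NN_pos h1 hn1 u
  set b : ℝ := (1 / (1 - p)) ^ u with hb
  have hb0 : 0 < b := by positivity
  have hbq : (1 - p) ^ u = 1 / b := by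
    rw [hb, one_div_pow, one_div_one_div]
  rw [NN_succ, hbq]
  rw [div_le_iff₀ (by positivity)] at h4
  rw [le_div_iff₀ (by positivity)] at h5
  constructor
  · have e1 : NN p n u * ((n : ℝ) * (1 / b) / (u + 1)) * (n / (16 * ((u : ℝ) + 1))) =
        NN p n u * ((n : ℝ) ^ 2 / (b * (16 * ((u : ℝ) + 1) ^ 2))) := by
      field_simp
    rw [e1]
    have h6 : (n : ℝ) ^ 2 / (b * (16 * ((u : ℝ) + 1) ^ 2)) ≤ 1 := by
      rw [div_le_one (by positivity)]
      exact h4
    nlinarith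
  · have e1 : NN p n u * ((n : ℝ) * (1 / b) / (u + 1)) * (9 * n / ((u : ℝ) + 1)) =
        NN p n u * (9 * (n : ℝ) ^ 2 / (b * ((u : ℝ) + 1) ^ 2)) := by
      field_simp
    rw [e1]
    have h6 : 1 ≤ 9 * (n : ℝ) ^ 2 / (b * ((u : ℝ) + 1) ^ 2) := by
      rw [le_div_iff₀ (by positivity), one_mul]
      exact h5
    nlinarith

theorem N_facts {p : ℝ} (h0 : 0 < p) (h1 : p < 1) (hB : -Real.log (1 - p) ≤ 2) (K : ℕ) (C : ℝ) :
    ∀ᶠ n : ℕ in atTop, ∀ a : ℕ, (n : ℝ) ^ (1 / 2 : ℝ) ≤ mu p n a → mu p n a < n →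
      (SS p K n : ℝ) ≤ a + C →
      (∀ u, a ≤ u → u ≤ SS p K n → (n : ℝ) ^ (-(2 * C)) ≤ NN p n u ∧ NN p n u ≤ NN p n a) ∧
      (∀ u, lm p n < u → u ≤ a - 1 → NN p n (a - 1) ≤ NN p n u) := by
  have hB0 := ell_pos h0 h1
  have hlogL : ∀ᶠ n : ℕ in atTop, Real.log (LL p n) ≤ (-Real.log (1 - p)) / 32 * LL p n :=
    log_LL_le h0 h1 (by positivity)
  filter_upwards [a_range h0 h1 hB, (tendsto_LL h0 h1).eventually_ge_atTop 100,
    eventually_ge_atTop 18, LL_pow_le h0 h1 2 64 (c := 1) (by norm_num), mu_NN h0 h1 hB,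
    NN_t h0 h1 hB, SS_le h0 h1 K, lm_up h0 h1, lm_low h0 h1, hlogL] with n hn hL hn1 hLp hmu hNt hSS
    hlu hll hlogL a ha1 ha2 haS
  obtain ⟨h2, h3, h4, h5⟩ := hn a ha1 ha2
  obtain ⟨hm1, hm2⟩ := hmu a ha1 ha2
  obtain ⟨ht1, ht2⟩ := hNt a ha1 ha2
  rw [Real.rpow_one] at hLp
  set B : ℝ := -Real.log (1 - p) with hBdef
  have hn1' : (18 : ℝ) ≤ n := by exact_mod_cast hn1
  have hn0 : (0 : ℝ) < n := by linarith
  have hnpos : 0 < n := by omega
  have hL0 : 0 < LL p n := by linarith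
  have ha0 : (0 : ℝ) < a := by linarith
  have ha1' : 1 ≤ a := by exact_mod_cast (by linarith : (1 : ℝ) ≤ a)
  have hq : 0 < 1 - p := by linarith
  have h10 : Real.log n = B * LL p n := log_n_eq h0 h1 n
  have hNa1 : 1 ≤ NN p n a := by
    refine le_trans ?_ hm1
    refine le_trans ?_ ha1
    exact Real.one_le_rpow (by linarith) (by norm_num)
  constructor
  · intro u hau huS
    have huS' : (u : ℝ) ≤ SS p K n := by exact_mod_cast huS
    constructor
    · have h6 : ∀ j, a ≤ j → j < u → ((n : ℝ) ^ 2)⁻¹ ≤ (n : ℝ) * (1 - p) ^ j / (j + 1) := by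
        intro j _ hj
        have hj1 : ((j : ℝ) + 1) ≤ u := by exact_mod_cast hj
        have hj2 : ((j : ℝ) + 1) ≤ 2 * LL p n := by linarith
        have h7 : ((n : ℝ) ^ 2)⁻¹ ≤ (1 - p) ^ j := by
          rw [← Real.log_le_log_iff (by positivity) (by positivity), Real.log_inv, Real.log_pow,
            Real.log_pow, h10]
          push_cast
          have e : Real.log (1 - p) = -B := by rw [hBdef]; ring
          rw [e]
          nlinarith
        have hjn : ((j : ℝ) + 1) ≤ n := by nlinarith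
        rw [le_div_iff₀ (by positivity)]
        calc ((n : ℝ) ^ 2)⁻¹ * ((j : ℝ) + 1) ≤ (1 - p) ^ j * n := by
              gcongr
          _ = (n : ℝ) * (1 - p) ^ j := by ring
      have h7 := NN_ge_of h1 hnpos hau (ρ := ((n : ℝ) ^ 2)⁻¹) (by positivity) h6
      refine le_trans ?_ h7
      have h8 : (n : ℝ) ^ (-(2 * C)) ≤ (((n : ℝ) ^ 2)⁻¹) ^ (u - a) := by
        have e1 : (((n : ℝ) ^ 2)⁻¹) ^ (u - a) = (n : ℝ) ^ (-(2 * ((u - a : ℕ) : ℝ))) := by
          rw [Real.rpow_neg hn0.le, Real.rpow_mul hn0.le, Real.rpow_natCast, inv_pow]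
          norm_cast
        rw [e1]
        apply Real.rpow_le_rpow_of_exponent_le (by linarith)
        rw [Nat.cast_sub hau]
        linarith
      have h9 : 0 ≤ (((n : ℝ) ^ 2)⁻¹) ^ (u - a) := by positivity
      nlinarith
    · refine NN_le_of h1 hnpos hau fun j hj _ => ?_
      refine le_trans (rat_anti h0 h1 n (show a - 1 ≤ j by omega)) ?_
      have hcast : (((a - 1 : ℕ) : ℝ) + 1) = a := by
        rw [Nat.cast_sub ha1']
        push_cast
        ring
      rw [hcast]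
      set b : ℝ := (1 / (1 - p)) ^ (a - 1) with hb
      have hb0 : 0 < b := by positivity
      have hbq : (1 - p) ^ (a - 1) = 1 / b := by
        rw [hb, one_div_pow, one_div_one_div]
      rw [hbq, div_le_one ha0, mul_one_div, div_le_iff₀ hb0]
      have h6 : (n : ℝ) ≤ n ^ 2 / (16 * (a : ℝ) ^ 2) := by
        rw [le_div_iff₀ (by positivity)]
        have h8 : (a : ℝ) ^ 2 ≤ (2 * LL p n) ^ 2 := pow_le_pow_left₀ ha0.le h3 2
        have h9 : 16 * (a : ℝ) ^ 2 ≤ n := by nlinarith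
        calc (n : ℝ) * (16 * (a : ℝ) ^ 2) ≤ n * n := mul_le_mul_of_nonneg_left h9 hn0.le
          _ = (n : ℝ) ^ 2 := by ring
      have h7 : (1 : ℝ) ≤ a := by exact_mod_cast ha1'
      nlinarith
  · intro u hlu' hua
    rcases le_or_gt ((n : ℝ) * (1 - p) ^ u / (u + 1)) 1 with hr | hr
    · exact NN_le_of h1 hnpos hua fun j hj _ => (rat_anti h0 h1 n hj).trans hr
    · have h6 : NN p n (lm p n + 1) ≤ NN p n u := by
        have h7 := NN_ge_of h1 hnpos (u := lm p n + 1) (v := u) (by omega) (ρ := 1) zero_le_one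
          fun j _ hj => hr.le.trans (rat_anti h0 h1 n hj.le)
        rwa [one_pow, one_mul] at h7
      refine le_trans ?_ h6
      have h7 : NN p n (a - 1) ≤ (n : ℝ) ^ 3 := by
        refine ht2.trans ?_
        have h8 : NN p n a ≤ 2 * n := by linarith
        have h9 : 9 * (n : ℝ) / a ≤ 9 * n := by
          rw [div_le_iff₀ ha0]
          have h7 : (1 : ℝ) ≤ a := by exact_mod_cast ha1'
          nlinarith
        calc NN p n a * (9 * n / a) ≤ (2 * n) * (9 * n) := by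
              apply mul_le_mul h8 h9 (by positivity) (by positivity)
          _ = 18 * (n : ℝ) ^ 2 := by ring
          _ ≤ (n : ℝ) ^ 3 := by nlinarith [sq_nonneg (n : ℝ)]
      refine h7.trans ?_
      obtain ⟨l, hl⟩ : ∃ l, l = lm p n + 1 := ⟨_, rfl⟩
      rw [← hl]
      have hlR : (l : ℝ) = lm p n + 1 := by
        rw [hl]
        push_cast
        ring
      have hl6 : (6 : ℝ) ≤ l := by
        have h8 : (100 : ℝ) / 17 ≤ lm p n := by linarith
        have h9 : (5 : ℝ) < lm p n := by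
          refine lt_of_lt_of_le ?_ h8
          norm_num
        have h10 : 5 < lm p n := by exact_mod_cast h9
        have h11 : 6 ≤ l := by omega
        exact_mod_cast h11
      have hl0 : (0 : ℝ) < l := by linarith
      have hfl : (0 : ℝ) < (l.factorial : ℝ) := by exact_mod_cast Nat.factorial_pos l
      have hfl2 : (l.factorial : ℝ) ≤ (l : ℝ) ^ l := by exact_mod_cast Nat.factorial_le_pow l
      rw [← Real.log_le_log_iff (by positivity) (NN_pos h1 hnpos l)]
      have e1 : Real.log (NN p n l) =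
          l * Real.log n - B * (l.choose 2 : ℕ) - Real.log (l.factorial : ℝ) := by
        unfold NN
        rw [Real.log_div (by positivity) hfl.ne', Real.log_mul (by positivity) (by positivity),
          Real.log_pow, Real.log_pow, hBdef]
        ring
      have e2 : ((l.choose 2 : ℕ) : ℝ) = l * (l - 1) / 2 := Nat.cast_choose_two ℝ l
      have e3 : Real.log (l.factorial : ℝ) ≤ l * Real.log l := by
        rw [← Real.log_pow]
        exact Real.log_le_log hfl hfl2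
      have e4 : Real.log l ≤ B / 32 * LL p n := by
        refine le_trans (Real.log_le_log hl0 ?_) hlogL
        linarith
      rw [e1, e2, Real.log_pow, h10]
      push_cast
      have e5 : (l : ℝ) - 1 ≤ LL p n / 16 := by linarith
      have e6 : B * (l * (l - 1) / 2) ≤ l * (B / 32 * LL p n) := by
        have : B * (l * (l - 1) / 2) = (B * l / 2) * ((l : ℝ) - 1) := by ring
        rw [this]
        have h8 : (B * l / 2) * ((l : ℝ) - 1) ≤ (B * l / 2) * (LL p n / 16) :=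
          mul_le_mul_of_nonneg_left e5 (by positivity)
        linarith
      have e7 : (l : ℝ) * Real.log l ≤ l * (B / 32 * LL p n) :=
        mul_le_mul_of_nonneg_left e4 hl0.le
      have e8 : 0 < B * LL p n := by positivity
      nlinarith

end Pool.Agent.CHP
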