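import Pool.Agent.CHP.Defs
import Pool.Agent.CHV.Grf
import Pool.Agent.CHV.Glu

/-!
# CHP / Azu: Azuma's inequality for vertex exposure

PROOFS.  `V j = (pre n j).sym2`, `V 0 = ∅` (`CE_empty`), `V n = univ` (`CE_univ`: every element of `Sym2 (Fin n)` is in `(pre n n).sym2`).
1. Hoeffding: if `|h y - m| ≤ 1` for all `y` and `Ex h = m` then `Ex exp (θ (h - m)) ≤ exp (θ^2/2)`: for `|v| ≤ 1`,
`exp (θ v) ≤ cosh θ + v sinh θ` (convexity of `exp`: `θ v = ((1+v)/2) θ + ((1-v)/2)(-θ)`), take the mean value, `Real.cosh_le_exp_half_sq`.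
2. Step: `Ex exp (θ CE (V (j+1)) F) ≤ exp (θ^2/2) Ex exp (θ CE (V j) F)` for `j < n`.  Put `g = CE p (V (j+1)) F`.  `Ex_glue` for `V j`:
`Ex exp (θ g) = Ex_x Ex_y exp (θ g (glue (V j) x y))`.  Fix `x`; `h y = g (glue (V j) x y)` has mean `CE p (V j) g x = CE p (V j) F x =: m`
(`CE_CE`), and `|h y - h y'| ≤ 1` for all `y, y'`: `h y = Ex_z F (glue (V (j+1)) (glue (V j) x y) z)`, and the two configurations
`glue (V (j+1)) (glue (V j) x y) z`, `glue (V (j+1)) (glue (V j) x y') z` agree except on `V (j+1) \ V j`, whose elements contain the vertex `j`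
(`mem_nw` or directly: an element of `(pre n (j+1)).sym2` not containing `j` is in `(pre n j).sym2`); use `hF ⟨j, _⟩` and average over `z`.
So `|h y - m| ≤ 1` (`m` is the mean of `h`), and 1. gives `Ex_y exp (θ h) ≤ exp (θ m + θ^2/2)`.
3. By induction `Ex exp (θ F) ≤ exp (n θ^2/2) exp (θ Ex F)`.
`tail_low`: for `s ≥ 0`, `θ = -s/n`: `ind (F x ≤ Ex F - s) ≤ exp (θ (F x - Ex F) + θ s)`... i.e. Markov:
`ind ≤ exp (-(s/n)(F x - Ex F) - s^2/n)`, expectation `≤ exp (s^2/(2n) - s^2/n)`.  `tail_up`: the same with `θ = s/n`.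
-/

set_option autoImplicit false

namespace Pool.Agent.CHP

open Finset Pool.Agent.CHV

variable {n : ℕ} {p : ℝ}

private lemma hoeff99 {ι : Type} [Fintype ι] [DecidableEq ι] (h0 : 0 ≤ p) (h1 : p ≤ 1)
    (h : (ι → Bool) → ℝ) (m : ℝ) (hm : Ex p h = m) (hb : ∀ y, |h y - m| ≤ 1) (θ : ℝ) :
    Ex p (fun y => Real.exp (θ * (h y - m))) ≤ Real.exp (θ ^ 2 / 2) := by
  have hpt : ∀ y, Real.exp (θ * (h y - m)) ≤ Real.cosh θ + Real.sinh θ * (h y - m) := by
    intro y
    have hv := abs_le.1 (hb y)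
    have hc := convexOn_exp.2 (Set.mem_univ θ) (Set.mem_univ (-θ))
      (show 0 ≤ (1 + (h y - m)) / 2 by linarith) (show 0 ≤ (1 - (h y - m)) / 2 by linarith)
      (by ring)
    simp only [smul_eq_mul] at hc
    have e1 : (1 + (h y - m)) / 2 * θ + (1 - (h y - m)) / 2 * -θ = θ * (h y - m) := by ring
    rw [e1] at hc
    refine hc.trans (le_of_eq ?_)
    rw [Real.cosh_eq, Real.sinh_eq]
    ring
  refine (Ex_mono h0 h1 hpt).trans ?_
  have e2 : Ex p (fun y => Real.cosh θ + Real.sinh θ * (h y - m)) = Real.cosh θ := by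
    rw [Ex_add, Ex_const, Ex_smul, Ex_sub, Ex_const]
    have : Ex p (fun x => h x) = m := hm
    rw [this]
    ring
  rw [e2]
  exact Real.cosh_le_exp_half_sq θ

private lemma step99 (h0 : 0 ≤ p) (h1 : p ≤ 1) (F : Cf n → ℝ)
    (hF : ∀ (v : Fin n) (x y : Cf n), (∀ e : Sym2 (Fin n), v ∉ e → x e = y e) →
      |F x - F y| ≤ 1) (θ : ℝ) {j : ℕ} (hj : j < n) (E : ℝ) :
    Ex p (fun x => Real.exp (θ * (CE p (pre n (j + 1)).sym2 F x - E))) ≤
      Real.exp (θ ^ 2 / 2) * Ex p (fun x => Real.exp (θ * (CE p (pre n j).sym2 F x - E))) := by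
  rw [← Ex_glue (pre n j).sym2 (fun u => Real.exp (θ * (CE p (pre n (j + 1)).sym2 F u - E))),
    ← Ex_smul]
  refine Ex_mono h0 h1 fun x => ?_
  have hsub : (pre n j).sym2 ⊆ (pre n (j + 1)).sym2 :=
    Finset.sym2_mono (pre_mono (Nat.le_succ j))
  have hm : Ex p (fun y => CE p (pre n (j + 1)).sym2 F (glue (pre n j).sym2 x y)) =
      CE p (pre n j).sym2 F x := CE_CE hsub F x
  have hdiff : ∀ y y', CE p (pre n (j + 1)).sym2 F (glue (pre n j).sym2 x y) -
      CE p (pre n (j + 1)).sym2 F (glue (pre n j).sym2 x y') ≤ 1 := by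
    intro y y'
    unfold CE
    rw [← Ex_sub]
    refine Ex_le_const h0 h1 fun z => ?_
    refine (le_abs_self _).trans (hF ⟨j, hj⟩ _ _ fun e he => ?_)
    unfold glue
    by_cases h2 : e ∈ (pre n (j + 1)).sym2
    · have h3 : e ∈ (pre n j).sym2 := by
        by_contra h4
        have h5 : e ∈ nw n j := Finset.mem_sdiff.2 ⟨h2, h4⟩
        obtain ⟨u, -, hu⟩ := (mem_nw hj).1 h5
        exact he (hu ▸ Sym2.mem_mk_right u ⟨j, hj⟩)
      simp only [if_pos h2, if_pos h3]
    · simp only [if_neg h2]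
  have hb : ∀ y, |CE p (pre n (j + 1)).sym2 F (glue (pre n j).sym2 x y) -
      CE p (pre n j).sym2 F x| ≤ 1 := by
    intro y
    rw [abs_le]
    constructor
    · rw [← hm]
      have h3 : Ex p (fun y' => CE p (pre n (j + 1)).sym2 F (glue (pre n j).sym2 x y')) ≤
          CE p (pre n (j + 1)).sym2 F (glue (pre n j).sym2 x y) + 1 := by
        refine Ex_le_const h0 h1 fun y' => ?_
        have := hdiff y' y
        linarith
      linarith
    · rw [← hm]
      have h3 : CE p (pre n (j + 1)).sym2 F (glue (pre n j).sym2 x y) - 1 ≤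
          Ex p (fun y' => CE p (pre n (j + 1)).sym2 F (glue (pre n j).sym2 x y')) := by
        rw [← Ex_const (ι := Sym2 (Fin n)) (p := p)
          (CE p (pre n (j + 1)).sym2 F (glue (pre n j).sym2 x y) - 1)]
        refine Ex_mono h0 h1 fun y' => ?_
        have := hdiff y y'
        linarith
      linarith
  have hH := hoeff99 h0 h1 _ _ hm hb θ
  have e1 : (fun y => Real.exp (θ * (CE p (pre n (j + 1)).sym2 F (glue (pre n j).sym2 x y) - E)))
      = fun y => Real.exp (θ * (CE p (pre n j).sym2 F x - E)) *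
        Real.exp (θ * (CE p (pre n (j + 1)).sym2 F (glue (pre n j).sym2 x y) -
          CE p (pre n j).sym2 F x)) := by
    funext y
    rw [← Real.exp_add]
    congr 1
    ring
  rw [e1, Ex_smul, mul_comm (Real.exp (θ ^ 2 / 2))]
  exact mul_le_mul_of_nonneg_left hH (Real.exp_pos _).le

private lemma ind99 (h0 : 0 ≤ p) (h1 : p ≤ 1) (F : Cf n → ℝ)
    (hF : ∀ (v : Fin n) (x y : Cf n), (∀ e : Sym2 (Fin n), v ∉ e → x e = y e) →
      |F x - F y| ≤ 1) (θ : ℝ) : ∀ j : ℕ, j ≤ n →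
    Ex p (fun x => Real.exp (θ * (CE p (pre n j).sym2 F x - Ex p F))) ≤
      Real.exp (j * θ ^ 2 / 2) := by
  intro j
  induction j with
  | zero =>
    intro _
    have hV : (pre n 0).sym2 = (∅ : Finset (Sym2 (Fin n))) := by
      have : pre n 0 = ∅ := by
        ext v
        rw [mem_pre]
        simp
      rw [this]
      exact Finset.sym2_empty
    rw [hV]
    simp only [CE_empty, sub_self, mul_zero, Real.exp_zero, Ex_const]
    simp
  | succ j ih =>
    intro hj
    refine (step99 h0 h1 F hF θ (by omega) (Ex p F)).trans ?_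
    refine (mul_le_mul_of_nonneg_left (ih (by omega)) (Real.exp_pos _).le).trans (le_of_eq ?_)
    rw [← Real.exp_add]
    congr 1
    push_cast
    ring

theorem mgf (h0 : 0 ≤ p) (h1 : p ≤ 1) (F : Cf n → ℝ)
    (hF : ∀ (v : Fin n) (x y : Cf n), (∀ e : Sym2 (Fin n), v ∉ e → x e = y e) →
      |F x - F y| ≤ 1) (θ : ℝ) :
    Ex p (fun x => Real.exp (θ * (F x - Ex p F))) ≤ Real.exp (n * θ ^ 2 / 2) := by
  have h := ind99 h0 h1 F hF θ n le_rfl
  have hV : (pre n n).sym2 = (Finset.univ : Finset (Sym2 (Fin n))) := by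
    have : pre n n = Finset.univ := by
      ext v
      rw [mem_pre]
      simp
    rw [this]
    exact Finset.sym2_univ
  rw [hV] at h
  simp only [CE_univ] at h
  exact h

theorem tail_low (h0 : 0 ≤ p) (h1 : p ≤ 1) (hn : 0 < n) (F : Cf n → ℝ)
    (hF : ∀ (v : Fin n) (x y : Cf n), (∀ e : Sym2 (Fin n), v ∉ e → x e = y e) →
      |F x - F y| ≤ 1) {s : ℝ} (hs : 0 ≤ s) :
    Ex p (fun x => ind (F x ≤ Ex p F - s)) ≤ Real.exp (-(s ^ 2 / (2 * n))) := by
  have hn' : (0 : ℝ) < n := by exact_mod_cast hn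
  have h2 := mgf h0 h1 F hF (-(s / n))
  have h3 : ∀ x, ind (F x ≤ Ex p F - s) ≤
      Real.exp (-(s ^ 2 / n)) * Real.exp (-(s / n) * (F x - Ex p F)) := by
    intro x
    by_cases hx : F x ≤ Ex p F - s
    · rw [ind_true hx, ← Real.exp_add]
      apply Real.one_le_exp
      have h4 : (s / n) * s ≤ (s / n) * (Ex p F - F x) :=
        mul_le_mul_of_nonneg_left (by linarith) (by positivity)
      have e : s ^ 2 / n = (s / n) * s := by ring
      rw [e]
      linarith
    · rw [ind_false hx]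
      positivity
  refine (Ex_mono h0 h1 h3).trans ?_
  rw [Ex_smul]
  refine (mul_le_mul_of_nonneg_left h2 (Real.exp_pos _).le).trans (le_of_eq ?_)
  rw [← Real.exp_add]
  congr 1
  field_simp
  ring

theorem tail_up (h0 : 0 ≤ p) (h1 : p ≤ 1) (hn : 0 < n) (F : Cf n → ℝ)
    (hF : ∀ (v : Fin n) (x y : Cf n), (∀ e : Sym2 (Fin n), v ∉ e → x e = y e) →
      |F x - F y| ≤ 1) {s : ℝ} (hs : 0 ≤ s) :
    Ex p (fun x => ind (Ex p F + s ≤ F x)) ≤ Real.exp (-(s ^ 2 / (2 * n))) := by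
  have hn' : (0 : ℝ) < n := by exact_mod_cast hn
  have h2 := mgf h0 h1 F hF (s / n)
  have h3 : ∀ x, ind (Ex p F + s ≤ F x) ≤
      Real.exp (-(s ^ 2 / n)) * Real.exp (s / n * (F x - Ex p F)) := by
    intro x
    by_cases hx : Ex p F + s ≤ F x
    · rw [ind_true hx, ← Real.exp_add]
      apply Real.one_le_exp
      have h4 : (s / n) * s ≤ (s / n) * (F x - Ex p F) :=
        mul_le_mul_of_nonneg_left (by linarith) (by positivity)
      have e : s ^ 2 / n = (s / n) * s := by ring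
      rw [e]
      linarith
    · rw [ind_false hx]
      positivity
  refine (Ex_mono h0 h1 h3).trans ?_
  rw [Ex_smul]
  refine (mul_le_mul_of_nonneg_left h2 (Real.exp_pos _).le).trans (le_of_eq ?_)
  rw [← Real.exp_add]
  congr 1
  field_simp
  ring

end Pool.Agent.CHP
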