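import Pool.Agent.CHP.Defs

/-!
# CHP / DmC: subfamilies with a given profile; factorials and fibres

PROOFS.  `card_dom_le`: map `D` to the family `v : Fin (S+1) ↦ D.filter (fun i => u i = v)`, an element of
`Fintype.piFinset (fun v : Fin (S+1) => (univ.filter (fun i => u i = v)).powersetCard (σ v))`, injective since `u i ≤ S` for all `i`
(`i ∈ D ↔ i ∈` the part `u i`).  `Fintype.card_piFinset`, `Finset.card_powersetCard`, `Finset.prod_range` (`∏ v : Fin (S+1)` versus
`∏ v ∈ range (S+1)`).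
`prD_le`: `Finset.card_le_card`, `Finset.filter_subset_filter`.
`num_prD`, `sz_prD`: `Finset.card_eq_sum_card_fiberwise`, `Finset.sum_fiberwise_of_maps_to` (`u i ∈ range (S+1)`).
`bin_le`: Vandermonde: `∏_{v ∈ s} C(κ v, σ v) ≤ C(∑ κ v, ∑ σ v)` by induction on the finset (`Nat.add_choose_eq`:
`C(m+n, k) = ∑_{(i,j) ∈ antidiagonal k} C(m,i) C(n,j)`, `Finset.single_le_sum`).
`prod_fib`: `Finset.prod_fiberwise_of_maps_to`/`Finset.prod_comp`: `∏ i, f (u i) = ∏ v ∈ range (S+1), f v ^ cnt u v`;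
`sum_fib` the same for sums.
-/

set_option autoImplicit false

namespace Pool.Agent.CHP

open Finset Pool.Agent.CHV

variable {ι : Type} [Fintype ι] [DecidableEq ι]

open Classical in
theorem card_dom_le {S : ℕ} (u : ι → ℕ) (hu : ∀ i, u i ≤ S) (σ : ℕ → ℕ) :
    ((univ : Finset (Finset ι)).filter (fun D => ∀ v ≤ S, prD u D v = σ v)).card ≤
      bin S (cnt u) σ := by
  have hbin : bin S (cnt u) σ =
      (Fintype.piFinset (fun v : Fin (S + 1) =>
        ((univ : Finset ι).filter (fun i => u i = (v : ℕ))).powersetCard (σ v))).card := by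
    rw [Fintype.card_piFinset]
    unfold bin cnt
    rw [Finset.prod_range]
    refine Finset.prod_congr rfl (fun v _ => ?_)
    rw [Finset.card_powersetCard]
  rw [hbin]
  refine Finset.card_le_card_of_injOn
    (fun D => fun v : Fin (S + 1) => D.filter (fun i => u i = (v : ℕ))) ?_ ?_
  · intro D hD
    have hD' : ∀ v ≤ S, prD u D v = σ v := (Finset.mem_filter.mp hD).2
    refine Fintype.mem_piFinset.mpr (fun v => ?_)
    rw [Finset.mem_powersetCard]
    exact ⟨Finset.filter_subset_filter _ (Finset.subset_univ _),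
      hD' v (Nat.lt_succ_iff.mp v.2)⟩
  · intro D _ E _ hDE
    ext i
    have h := congrFun hDE (⟨u i, Nat.lt_succ_iff.mpr (hu i)⟩ : Fin (S + 1))
    have h2 : i ∈ D.filter (fun j => u j = u i) ↔ i ∈ E.filter (fun j => u j = u i) := by
      have h3 : D.filter (fun j => u j = u i) = E.filter (fun j => u j = u i) := h
      rw [h3]
    simpa using h2

theorem prD_le (u : ι → ℕ) (D : Finset ι) (v : ℕ) : prD u D v ≤ cnt u v := by
  unfold prD cnt
  exact Finset.card_le_card (Finset.filter_subset_filter _ (Finset.subset_univ _))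

theorem num_prD {S : ℕ} (u : ι → ℕ) (hu : ∀ i, u i ≤ S) (D : Finset ι) :
    num S (prD u D) = D.card := by
  unfold num prD
  exact (Finset.card_eq_sum_card_fiberwise (s := D) (t := range (S + 1)) (f := u)
    (fun i _ => Finset.mem_coe.mpr (Finset.mem_range.mpr (Nat.lt_succ_iff.mpr (hu i))))).symm

theorem sz_prD {S : ℕ} (u : ι → ℕ) (hu : ∀ i, u i ≤ S) (D : Finset ι) :
    sz S (prD u D) = ∑ i ∈ D, u i := by
  unfold sz prD
  rw [← Finset.sum_fiberwise_of_maps_to (s := D) (t := range (S + 1)) (g := u)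
    (fun i _ => Finset.mem_range.mpr (Nat.lt_succ_iff.mpr (hu i))) (fun i => u i)]
  refine Finset.sum_congr rfl (fun v _ => ?_)
  rw [Finset.sum_congr rfl (fun i hi => (Finset.mem_filter.mp hi).2), Finset.sum_const,
    smul_eq_mul, mul_comm]

private theorem prD_univ (u : ι → ℕ) : prD u univ = cnt u := rfl

theorem sz_cnt {S : ℕ} (u : ι → ℕ) (hu : ∀ i, u i ≤ S) : sz S (cnt u) = ∑ i, u i := by
  rw [← prD_univ, sz_prD u hu]

theorem num_cnt {S : ℕ} (u : ι → ℕ) (hu : ∀ i, u i ≤ S) : num S (cnt u) = Fintype.card ι := by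
  rw [← prD_univ, num_prD u hu, Finset.card_univ]

private theorem choose_mul_le (m n i j : ℕ) :
    m.choose i * n.choose j ≤ (m + n).choose (i + j) := by
  rw [Nat.add_choose_eq]
  have hmem : ((i, j) : ℕ × ℕ) ∈ Finset.HasAntidiagonal.antidiagonal (i + j) := by simp
  exact Finset.single_le_sum (f := fun q : ℕ × ℕ => m.choose q.1 * n.choose q.2)
    (fun _ _ => Nat.zero_le _) hmem

theorem bin_le (S : ℕ) (κ σ : ℕ → ℕ) : bin S κ σ ≤ (num S κ).choose (num S σ) := by
  unfold bin num
  induction S with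
  | zero => simp
  | succ S ih =>
    rw [Finset.prod_range_succ, Finset.sum_range_succ (fun v => κ v) (S + 1),
      Finset.sum_range_succ (fun v => σ v) (S + 1)]
    exact (Nat.mul_le_mul_right _ ih).trans (choose_mul_le _ _ _ _)

theorem prod_fib {S : ℕ} (u : ι → ℕ) (hu : ∀ i, u i ≤ S) (f : ℕ → ℝ) :
    ∏ i, f (u i) = ∏ v ∈ range (S + 1), f v ^ cnt u v := by
  rw [← Finset.prod_fiberwise_of_maps_to (s := univ) (t := range (S + 1)) (g := u)
    (fun i _ => Finset.mem_range.mpr (Nat.lt_succ_iff.mpr (hu i))) (fun i => f (u i))]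
  refine Finset.prod_congr rfl (fun v _ => ?_)
  rw [Finset.prod_congr rfl (fun i hi => by rw [(Finset.mem_filter.mp hi).2]),
    Finset.prod_const]
  rfl

theorem sum_fib {S : ℕ} (u : ι → ℕ) (hu : ∀ i, u i ≤ S) (f : ℕ → ℕ) :
    ∑ i, f (u i) = ∑ v ∈ range (S + 1), f v * cnt u v := by
  rw [← Finset.sum_fiberwise_of_maps_to (s := univ) (t := range (S + 1)) (g := u)
    (fun i _ => Finset.mem_range.mpr (Nat.lt_succ_iff.mpr (hu i))) (fun i => f (u i))]
  refine Finset.sum_congr rfl (fun v _ => ?_)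
  rw [Finset.sum_congr rfl (fun i hi => by rw [(Finset.mem_filter.mp hi).2]),
    Finset.sum_const, smul_eq_mul, mul_comm]
  rfl

end Pool.Agent.CHP
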