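import Pool.Agent.CHP.Defs

/-!
# CHP / Lss: the log-sum inequality and relative entropy

PROOFS.  `log_sum`: for `x ≥ 0`, `y > 0`, `c > 0`: `x log (x/y) ≥ x log c + x - c y` (from `log r ≥ 1 - 1/r` for `r = x/(c y)`, `x > 0`; trivial for `x = 0`).
Sum with `c = (∑ τ)/(∑ q)`: `∑ x - c ∑ y = 0`.
`dv`: `log_sum` for `q u exp (f u)`: `τ log (τ/(q exp f)) = τ log (τ/q) - τ f` (also for `τ = 0`), and
`(∑ τ) log ((∑ τ)/(∑ q e^f)) = - (∑ τ) log ((∑ q e^f)/(∑ τ))` (`Real.log_inv`, `inv_div`).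
`kl_term`: `c = 1` in the first inequality.
`xb`: put `φ = log (κ/ko)`.  For `0 ≤ τ ≤ κ`: if `φ ≤ 2`, `τ φ ≤ 2 τ ≤ 2 τ + 2 (κ φ - κ + ko)` (`kl_term`); if `φ > 2`, `τ φ ≤ κ φ ≤ 2 (κ φ - κ + ko)` as
`κ φ - κ ≥ κ φ/2`.  Sum.  (`κ = 0`: `τ = 0`.)
`xb'`: `τ log (τ/ko) ≤ τ log (κ/ko)` (`0 < τ ≤ κ`; trivial for `τ = 0`).
`hel`: `x log (x/y) - x + y ≥ (√x - √y)^2`: the difference is `2 x (r - 1 - log r)` with `r = √(y/x)` (`x > 0`; for `x = 0` it is `y - y = 0`).  Then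
`∑ |κ - ko| = ∑ |√κ - √ko| (√κ + √ko) ≤ √(∑ (√κ - √ko)^2) √(∑ (√κ + √ko)^2)` (`Finset.sum_mul_le_sqrt_mul_sqrt` or Cauchy-Schwarz
`Finset.sum_mul_sq_le_sq_mul_sq`) and `(√κ + √ko)^2 ≤ 2 (κ + ko)`.
-/

set_option autoImplicit false

namespace Pool.Agent.CHP

open Finset

private theorem base_ineq {x y c : ℝ} (hx : 0 ≤ x) (hy : 0 < y) (hc : 0 < c) :
    x * Real.log c + x - c * y ≤ x * Real.log (x / y) := by
  rcases hx.eq_or_lt with h | h
  · rw [← h]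
    have := mul_pos hc hy
    simp only [zero_mul, zero_add, zero_sub]
    linarith
  · have hr : 0 < x / (c * y) := div_pos h (mul_pos hc hy)
    have h1 := Real.one_sub_inv_le_log_of_pos hr
    have h2 : Real.log (x / y) = Real.log c + Real.log (x / (c * y)) := by
      rw [← Real.log_mul hc.ne' hr.ne']
      congr 1
      field_simp
    have h3 : x * (x / (c * y))⁻¹ = c * y := by
      field_simp
    rw [h2, mul_add]
    have h4 := mul_le_mul_of_nonneg_left h1 h.le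
    rw [mul_sub, h3] at h4
    linarith

theorem log_sum (s : Finset ℕ) (τ q : ℕ → ℝ) (hτ : ∀ u ∈ s, 0 ≤ τ u) (hq : ∀ u ∈ s, 0 < q u)
    (hM : 0 < ∑ u ∈ s, τ u) :
    (∑ u ∈ s, τ u) * Real.log ((∑ u ∈ s, τ u) / ∑ u ∈ s, q u) ≤
      ∑ u ∈ s, τ u * Real.log (τ u / q u) := by
  have hne : s.Nonempty := by
    by_contra h
    rw [Finset.not_nonempty_iff_eq_empty] at h
    rw [h, Finset.sum_empty] at hM
    exact lt_irrefl _ hM
  have hQ : 0 < ∑ u ∈ s, q u := Finset.sum_pos hq hne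
  have hc : 0 < (∑ u ∈ s, τ u) / ∑ u ∈ s, q u := div_pos hM hQ
  have h1 : ∑ u ∈ s, (τ u * Real.log ((∑ u ∈ s, τ u) / ∑ u ∈ s, q u) + τ u -
      ((∑ u ∈ s, τ u) / ∑ u ∈ s, q u) * q u) ≤ ∑ u ∈ s, τ u * Real.log (τ u / q u) :=
    Finset.sum_le_sum fun u hu => base_ineq (hτ u hu) (hq u hu) hc
  rw [Finset.sum_sub_distrib, Finset.sum_add_distrib, ← Finset.sum_mul, ← Finset.mul_sum,
    div_mul_cancel₀ _ hQ.ne'] at h1
  linarith

theorem dv (s : Finset ℕ) (τ q f : ℕ → ℝ) (hτ : ∀ u ∈ s, 0 ≤ τ u) (hq : ∀ u ∈ s, 0 < q u)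
    (hM : 0 < ∑ u ∈ s, τ u) :
    ∑ u ∈ s, τ u * f u ≤ ∑ u ∈ s, τ u * Real.log (τ u / q u) +
      (∑ u ∈ s, τ u) * Real.log ((∑ u ∈ s, q u * Real.exp (f u)) / ∑ u ∈ s, τ u) := by
  have h1 := log_sum s τ (fun u => q u * Real.exp (f u)) hτ
    (fun u hu => mul_pos (hq u hu) (Real.exp_pos _)) hM
  have h2 : ∑ u ∈ s, τ u * Real.log (τ u / (q u * Real.exp (f u))) =
      ∑ u ∈ s, τ u * Real.log (τ u / q u) - ∑ u ∈ s, τ u * f u := by
    rw [← Finset.sum_sub_distrib]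
    refine Finset.sum_congr rfl fun u hu => ?_
    rcases (hτ u hu).eq_or_lt with h | h
    · rw [← h]; simp
    · rw [← div_div, Real.log_div (div_pos h (hq u hu)).ne' (Real.exp_pos _).ne', Real.log_exp]
      ring
  have h3 : Real.log ((∑ u ∈ s, q u * Real.exp (f u)) / ∑ u ∈ s, τ u) =
      -Real.log ((∑ u ∈ s, τ u) / ∑ u ∈ s, q u * Real.exp (f u)) := by
    rw [← Real.log_inv, inv_div]
  rw [h2] at h1
  rw [h3]
  linarith

theorem kl_term {x y : ℝ} (hx : 0 ≤ x) (hy : 0 < y) : 0 ≤ x * Real.log (x / y) - x + y := by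
  have h1 := base_ineq hx hy one_pos
  rw [Real.log_one] at h1
  linarith

theorem kl_nonneg (t : ℕ) (ko κ : ℕ → ℝ) (hko : ∀ u ≤ t, 0 < ko u) (hκ : ∀ u ≤ t, 0 ≤ κ u) :
    0 ≤ KL t ko κ := by
  unfold KL
  refine Finset.sum_nonneg fun u hu => ?_
  have hu' : u ≤ t := by
    rw [Finset.mem_range] at hu
    omega
  exact kl_term (hκ u hu') (hko u hu')

theorem xb (t : ℕ) (ko κ τ : ℕ → ℝ) (hko : ∀ u ≤ t, 0 < ko u)
    (hτ : ∀ u ≤ t, 0 ≤ τ u ∧ τ u ≤ κ u) :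
    ∑ u ∈ range (t + 1), τ u * Real.log (κ u / ko u) ≤
      2 * ∑ u ∈ range (t + 1), τ u + 2 * KL t ko κ := by
  unfold KL
  rw [Finset.mul_sum, Finset.mul_sum, ← Finset.sum_add_distrib]
  refine Finset.sum_le_sum fun u hu => ?_
  have hu' : u ≤ t := by
    rw [Finset.mem_range] at hu
    omega
  obtain ⟨h0, h1⟩ := hτ u hu'
  have h2 := hko u hu'
  have hk : 0 ≤ κ u := h0.trans h1
  have h3 := kl_term hk h2
  rcases le_or_gt (Real.log (κ u / ko u)) 2 with h4 | h4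
  · have h5 := mul_le_mul_of_nonneg_left h4 h0
    linarith
  · have h5 : τ u * Real.log (κ u / ko u) ≤ κ u * Real.log (κ u / ko u) :=
      mul_le_mul_of_nonneg_right h1 (by linarith)
    have h6 : κ u * 2 ≤ κ u * Real.log (κ u / ko u) := mul_le_mul_of_nonneg_left h4.le hk
    linarith

theorem xb' (t : ℕ) (ko κ τ : ℕ → ℝ) (hko : ∀ u ≤ t, 0 < ko u)
    (hτ : ∀ u ≤ t, 0 ≤ τ u ∧ τ u ≤ κ u) :
    ∑ u ∈ range (t + 1), τ u * Real.log (τ u / ko u) ≤
      ∑ u ∈ range (t + 1), τ u * Real.log (κ u / ko u) := by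
  refine Finset.sum_le_sum fun u hu => ?_
  have hu' : u ≤ t := by
    rw [Finset.mem_range] at hu
    omega
  obtain ⟨h0, h1⟩ := hτ u hu'
  have h2 := hko u hu'
  rcases h0.eq_or_lt with h | h
  · rw [← h]; simp
  · refine mul_le_mul_of_nonneg_left ?_ h0
    refine Real.log_le_log (div_pos h h2) ?_
    exact div_le_div_of_nonneg_right h1 h2.le

private theorem hel_term {x y : ℝ} (hx : 0 ≤ x) (hy : 0 < y) :
    (Real.sqrt x - Real.sqrt y) ^ 2 ≤ x * Real.log (x / y) - x + y := by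
  rcases hx.eq_or_lt with h | h
  · rw [← h]
    simp [Real.sq_sqrt hy.le]
  · have hsx : 0 < Real.sqrt x := Real.sqrt_pos.2 h
    have hsy : 0 < Real.sqrt y := Real.sqrt_pos.2 hy
    have hxx : Real.sqrt x ^ 2 = x := Real.sq_sqrt hx
    have hyy : Real.sqrt y ^ 2 = y := Real.sq_sqrt hy.le
    have h1 := Real.log_le_sub_one_of_pos (div_pos hsy hsx)
    have h2 : Real.log (x / y) = -2 * Real.log (Real.sqrt y / Real.sqrt x) := by
      rw [Real.log_div hsy.ne' hsx.ne', Real.log_sqrt hy.le, Real.log_sqrt hx,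
        Real.log_div h.ne' hy.ne']
      ring
    have h3 : x * (Real.sqrt y / Real.sqrt x) = Real.sqrt x * Real.sqrt y := by
      nth_rewrite 1 [← hxx]
      field_simp
    have h4 := mul_le_mul_of_nonneg_left h1 hx
    rw [mul_sub, h3] at h4
    rw [h2]
    nlinarith [h4, hxx, hyy]

theorem hel (t : ℕ) (ko κ : ℕ → ℝ) (hko : ∀ u ≤ t, 0 < ko u) (hκ : ∀ u ≤ t, 0 ≤ κ u) :
    ∑ u ∈ range (t + 1), |κ u - ko u| ≤
      Real.sqrt (KL t ko κ) *
        Real.sqrt (2 * (∑ u ∈ range (t + 1), κ u + ∑ u ∈ range (t + 1), ko u)) := by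
  have hmem : ∀ u ∈ range (t + 1), u ≤ t := by
    intro u hu
    rw [Finset.mem_range] at hu
    omega
  have e1 : ∑ u ∈ range (t + 1), |κ u - ko u| =
      ∑ u ∈ range (t + 1), |Real.sqrt (κ u) - Real.sqrt (ko u)| *
        (Real.sqrt (κ u) + Real.sqrt (ko u)) := by
    refine Finset.sum_congr rfl fun u hu => ?_
    have h1 := hκ u (hmem u hu)
    have h2 := hko u (hmem u hu)
    have h3 : κ u - ko u = (Real.sqrt (κ u) - Real.sqrt (ko u)) *
        (Real.sqrt (κ u) + Real.sqrt (ko u)) := by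
      nlinarith [Real.sq_sqrt h1, Real.sq_sqrt h2.le]
    rw [h3, abs_mul, abs_of_nonneg (add_nonneg (Real.sqrt_nonneg _) (Real.sqrt_nonneg _))]
  rw [e1]
  refine (Real.sum_mul_le_sqrt_mul_sqrt _ _ _).trans ?_
  refine mul_le_mul (Real.sqrt_le_sqrt ?_) (Real.sqrt_le_sqrt ?_) (Real.sqrt_nonneg _)
    (Real.sqrt_nonneg _)
  · unfold KL
    refine Finset.sum_le_sum fun u hu => ?_
    rw [sq_abs]
    exact hel_term (hκ u (hmem u hu)) (hko u (hmem u hu))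
  · rw [mul_add, Finset.mul_sum, Finset.mul_sum, ← Finset.sum_add_distrib]
    refine Finset.sum_le_sum fun u hu => ?_
    have h1 := Real.sq_sqrt (hκ u (hmem u hu))
    have h2 := Real.sq_sqrt (hko u (hmem u hu)).le
    nlinarith [sq_nonneg (Real.sqrt (κ u) - Real.sqrt (ko u))]

end Pool.Agent.CHP
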