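import Pool.Agent.CHP.Str
import Pool.Agent.CHP.Lss
import Pool.Agent.CHP.DmC

/-!
# CHP / Bnb: number of subprofiles; exponential moments

Notation: `ℒ = log n`, `τ u = κ u - σ u`, `M = ∑_{u ≤ t} τ u` (a natural number), `k = num S κ`.
PROOFS.  `num_le`: `A (k - ks) ≤ 4 Λ ≤ 4 n` and `A + 1 = (1+G) n/ks` (`gib.ent`) and `G ≥ ℒ/2`, so
`A ks ≥ (1 + ℒ/2) n - ks ≥ 4 n` for large `n` (`ks ≤ n/(0.9 ℒ) ≤ n`), hence `A (k - ks) ≤ 4 n ≤ A ks` and `k ≤ 2 ks`.
`log_bin_le`: `bin S κ σ = ∏_{v ≤ t} C(κ v, κ v - σ v) * ∏_{t < v ≤ S} C(κ v, σ v)` (`Nat.choose_symm`), the second product is `≤ 2^κ_>`, of logarithm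
`≤ κ_> ≤ Λ` (`big`, `ℒ ≥ 1`); the first one is `≤ C(k', M)`, `k' = ∑_{v≤t} κ v ≤ k` (`bin_le` applied with `S := t`), and
`C(k', M) ≤ k'^M / M! ≤ (exp 1 * k'/M)^M` (`M ≥ 1`; `M^M/M! ≤ exp M`), logarithm `≤ M (1 + log (k'/M)) ≤ M (1 + log 2 + log (ks/M))`.
`dvb`: if `M > 0`, `dv` with `q = ko`, `f u = 16 (t - u)`, and `xb'`, `xb`:
`16 ∑ τ u (t - u) ≤ ∑ τ log (τ/ko) + M log ((∑ ko e^f)/M) ≤ 2 M + 2 Λ + M log (C0 ks/M)` (`mg`, `kl`), and `n/ks - u ≤ t - u`, as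
`n = ∑ u ko u ≤ t ks` (`gib.sum`).  `log (C0 ks/M) ≤ log |C0| + log (ks/M)`; note `C0 > 0` because of `mg` (`ko, ks > 0`).
If `M = 0` both sides are `0 ≤ 2 Λ`.
-/

set_option autoImplicit false

namespace Pool.Agent.CHP

open Finset Filter

private theorem par_A_pos {p g C0 cT : ℝ} {n S t lam : ℕ} {G A : ℝ} {ko : ℕ → ℝ}
    (hP : Par p g C0 cT n S t lam G A ko) : 0 < A := by
  refine lt_of_lt_of_le ?_ hP.A0
  have h1 : (0 : ℝ) < lam := by exact_mod_cast hP.lam0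
  have h2 : 0 ≤ Real.log (n : ℝ) := Real.log_natCast_nonneg n
  positivity

private theorem par_ks_pos {p g C0 cT : ℝ} {n S t lam : ℕ} {G A : ℝ} {ko : ℕ → ℝ}
    (hP : Par p g C0 cT n S t lam G A ko) : 0 < ks t ko := by
  unfold ks
  refine Finset.sum_pos (fun u hu => hP.pos u ?_) ⟨0, by simp⟩
  rw [Finset.mem_range] at hu
  omega

private theorem num_le_aux {p g C0 cT : ℝ} {n S t lam : ℕ} {G A : ℝ} {ko : ℕ → ℝ}
    (hn : 8 ≤ Real.log (n : ℝ)) (hP : Par p g C0 cT n S t lam G A ko) {Λ : ℝ} (hΛ : Λ ≤ n)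
    {κ : ℕ → ℕ} (hN : Near n S t lam A ko Λ κ) : (num S κ : ℝ) ≤ 2 * ks t ko := by
  have hA := par_A_pos hP
  have hk := par_ks_pos hP
  have h1 := hP.gib.ent
  have h2 := hP.G0
  have h3 := hP.ub
  have h4 := hN.up
  have hn0 : (0 : ℝ) ≤ n := Nat.cast_nonneg n
  have h5 : ks t ko ≤ n := by nlinarith
  have h6 : 4 * (n : ℝ) ≤ A * ks t ko := by nlinarith
  have h7 : A * ((num S κ : ℝ) - ks t ko) ≤ A * ks t ko := by linarith
  have h8 := le_of_mul_le_mul_left h7 hA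
  linarith

theorem num_le {p g : ℝ} (h0 : 0 < p) (h1 : p < 1) (C0 cT : ℝ) :
    ∀ᶠ n : ℕ in atTop, ∀ (S t lam : ℕ) (G A : ℝ) (ko : ℕ → ℝ),
      Par p g C0 cT n S t lam G A ko → ∀ Λ : ℝ, Λ ≤ n →
      ∀ κ : ℕ → ℕ, Near n S t lam A ko Λ κ → (num S κ : ℝ) ≤ 2 * ks t ko := by
  have hl : ∀ᶠ n : ℕ in atTop, 8 ≤ Real.log (n : ℝ) :=
    (Real.tendsto_log_atTop.comp tendsto_natCast_atTop_atTop).eventually_ge_atTop 8
  filter_upwards [hl] with n hn S t lam G A ko hP Λ hΛ κ hN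
  exact num_le_aux hn hP hΛ hN

/-- `log C(k, M) ≤ M (1 + log (k / M))`. -/
private theorem log_choose_le {k M : ℕ} (hM : 1 ≤ M) (hk : M ≤ k) :
    Real.log ((k.choose M : ℕ) : ℝ) ≤ (M : ℝ) * (1 + Real.log ((k : ℝ) / M)) := by
  have hM' : (0 : ℝ) < M := by exact_mod_cast hM
  have hk' : (0 : ℝ) < k := by exact_mod_cast (lt_of_lt_of_le hM hk)
  have hc : (0 : ℝ) < ((k.choose M : ℕ) : ℝ) := by exact_mod_cast Nat.choose_pos hk
  have h1 : ((k.choose M : ℕ) : ℝ) ≤ (k : ℝ) ^ M / (M.factorial : ℝ) := Nat.choose_le_pow_div M k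
  have h2 : (M : ℝ) ^ M / (M.factorial : ℝ) ≤ Real.exp M :=
    Real.pow_div_factorial_le_exp (M : ℝ) hM'.le M
  have h3 : (k : ℝ) ^ M / (M.factorial : ℝ) = ((k : ℝ) / M) ^ M * ((M : ℝ) ^ M / (M.factorial : ℝ)) := by
    rw [div_pow]
    field_simp
  have h4 : ((k.choose M : ℕ) : ℝ) ≤ ((k : ℝ) / M) ^ M * Real.exp M := by
    rw [h3] at h1
    exact h1.trans (mul_le_mul_of_nonneg_left h2 (by positivity))
  have h5 := Real.log_le_log hc h4
  rw [Real.log_mul (by positivity) (Real.exp_pos _).ne', Real.log_pow, Real.log_exp] at h5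
  linarith

private theorem split_range {t S : ℕ} (h : t < S) :
    range (S + 1) = range (t + 1) ∪ Ioc t S := by
  ext v
  simp only [mem_union, mem_range, mem_Ioc]
  omega

private theorem disj_range {t S : ℕ} : Disjoint (range (t + 1)) (Ioc t S) := by
  rw [Finset.disjoint_left]
  intro v hv hv'
  rw [mem_range] at hv
  rw [mem_Ioc] at hv'
  omega

private theorem log_le_aux {t S : ℕ} (κ σ : ℕ → ℕ) (hσ : ∀ v ≤ S, σ v ≤ κ v) (ht : t < S) :
    Real.log (bin S κ σ : ℝ) ≤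
      Real.log (((num t κ).choose (num t (fun v => κ v - σ v)) : ℕ) : ℝ) +
        ((∑ v ∈ Ioc t S, κ v : ℕ) : ℝ) := by
  have hb : bin S κ σ = bin t κ (fun v => κ v - σ v) * ∏ v ∈ Ioc t S, (κ v).choose (σ v) := by
    unfold bin
    rw [split_range ht, Finset.prod_union disj_range]
    congr 1
    refine Finset.prod_congr rfl fun v hv => ?_
    rw [mem_range] at hv
    exact (Nat.choose_symm (hσ v (by omega))).symm
  have hp1 : 0 < bin t κ (fun v => κ v - σ v) := by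
    unfold bin
    refine Finset.prod_pos fun v hv => Nat.choose_pos (Nat.sub_le _ _)
  have hp2 : 0 < ∏ v ∈ Ioc t S, (κ v).choose (σ v) := by
    refine Finset.prod_pos fun v hv => Nat.choose_pos (hσ v (mem_Ioc.1 hv).2)
  have hq1 : (bin t κ (fun v => κ v - σ v) : ℝ) ≤
      (((num t κ).choose (num t (fun v => κ v - σ v)) : ℕ) : ℝ) := by
    exact_mod_cast bin_le t κ (fun v => κ v - σ v)
  have hq2 : ∏ v ∈ Ioc t S, (κ v).choose (σ v) ≤ 2 ^ (∑ v ∈ Ioc t S, κ v) := by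
    rw [← Finset.prod_pow_eq_pow_sum]
    exact Finset.prod_le_prod (fun _ _ => Nat.zero_le _) fun v _ => Nat.choose_le_two_pow _ _
  have hl1 : Real.log (bin t κ (fun v => κ v - σ v) : ℝ) ≤
      Real.log (((num t κ).choose (num t (fun v => κ v - σ v)) : ℕ) : ℝ) :=
    Real.log_le_log (by exact_mod_cast hp1) hq1
  have hl2 : Real.log ((∏ v ∈ Ioc t S, (κ v).choose (σ v) : ℕ) : ℝ) ≤
      ((∑ v ∈ Ioc t S, κ v : ℕ) : ℝ) := by
    have h1 : ((∏ v ∈ Ioc t S, (κ v).choose (σ v) : ℕ) : ℝ) ≤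
        (2 : ℝ) ^ (∑ v ∈ Ioc t S, κ v) := by exact_mod_cast hq2
    have h2 := Real.log_le_log (by exact_mod_cast hp2) h1
    rw [Real.log_pow] at h2
    have h3 : Real.log 2 ≤ 1 := by
      have := Real.log_two_lt_d9
      linarith
    have h4 : (0 : ℝ) ≤ ((∑ v ∈ Ioc t S, κ v : ℕ) : ℝ) := Nat.cast_nonneg _
    nlinarith
  rw [hb]
  push_cast [-Finset.sum_apply]
  rw [Real.log_mul (by exact_mod_cast hp1.ne') (by exact_mod_cast hp2.ne')]
  push_cast at hl1 hl2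
  linarith

theorem log_bin_le {p g : ℝ} (h0 : 0 < p) (h1 : p < 1) (C0 cT : ℝ) :
    ∀ᶠ n : ℕ in atTop, ∀ (S t lam : ℕ) (G A : ℝ) (ko : ℕ → ℝ),
      Par p g C0 cT n S t lam G A ko → ∀ Λ : ℝ, Λ ≤ n →
      ∀ κ : ℕ → ℕ, Near n S t lam A ko Λ κ → ∀ σ : ℕ → ℕ, (∀ v ≤ S, σ v ≤ κ v) →
        Real.log (bin S κ σ : ℝ) ≤
          (∑ u ∈ range (t + 1), ((κ u : ℝ) - σ u)) *
            (Real.log (ks t ko / ∑ u ∈ range (t + 1), ((κ u : ℝ) - σ u)) + 2) + Λ := by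
  have hl : ∀ᶠ n : ℕ in atTop, 8 ≤ Real.log (n : ℝ) :=
    (Real.tendsto_log_atTop.comp tendsto_natCast_atTop_atTop).eventually_ge_atTop 8
  filter_upwards [hl] with n hn S t lam G A ko hP Λ hΛ κ hN σ hσ
  have hks := par_ks_pos hP
  have ht := hP.lt
  have hM : (∑ u ∈ range (t + 1), ((κ u : ℝ) - σ u)) =
      ((num t (fun v => κ v - σ v) : ℕ) : ℝ) := by
    unfold num
    push_cast
    refine Finset.sum_congr rfl fun v hv => ?_
    rw [mem_range] at hv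
    rw [Nat.cast_sub (hσ v (by omega))]
  have hbig : ((∑ v ∈ Ioc t S, κ v : ℕ) : ℝ) ≤ Λ := by
    refine le_trans ?_ hN.big
    have h4 : (0 : ℝ) ≤ ((∑ v ∈ Ioc t S, κ v : ℕ) : ℝ) := Nat.cast_nonneg _
    have h5 : (1 : ℝ) ≤ Real.log (n : ℝ) ^ 3 := one_le_pow₀ (by linarith)
    exact le_mul_of_one_le_right h4 h5
  have hmain := log_le_aux κ σ hσ ht
  rw [hM]
  have hkk : ((num t κ : ℕ) : ℝ) ≤ 2 * ks t ko := by
    refine le_trans ?_ (num_le_aux hn hP hΛ hN)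
    have : num t κ ≤ num S κ := by
      unfold num
      refine Finset.sum_le_sum_of_subset ?_
      intro v hv
      rw [mem_range] at hv ⊢
      omega
    exact_mod_cast this
  have hMk : num t (fun v => κ v - σ v) ≤ num t κ := by
    unfold num
    exact Finset.sum_le_sum fun v _ => Nat.sub_le _ _
  generalize hMM : num t (fun v => κ v - σ v) = M at *
  rcases Nat.eq_zero_or_pos M with hz | hz
  · subst hz
    simp only [Nat.choose_zero_right, Nat.cast_one, Real.log_one, zero_add] at hmain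
    simp only [Nat.cast_zero, zero_mul, zero_add]
    exact hmain.trans hbig
  · have h2 := log_choose_le hz hMk
    have hM' : (0 : ℝ) < M := by exact_mod_cast hz
    have hk0 : (0 : ℝ) < (num t κ : ℕ) := by exact_mod_cast (lt_of_lt_of_le hz hMk)
    have h3 : Real.log (((num t κ : ℕ) : ℝ) / M) ≤ Real.log 2 + Real.log (ks t ko / M) := by
      rw [← Real.log_mul (by norm_num) (by positivity)]
      refine Real.log_le_log (by positivity) ?_
      rw [← mul_div_assoc]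
      exact div_le_div_of_nonneg_right hkk hM'.le
    have h4 : Real.log 2 ≤ 1 := by
      have := Real.log_two_lt_d9
      linarith
    have h5 : (M : ℝ) * (1 + Real.log (((num t κ : ℕ) : ℝ) / M)) ≤
        (M : ℝ) * (Real.log (ks t ko / M) + 2) := by
      refine mul_le_mul_of_nonneg_left ?_ hM'.le
      linarith
    linarith

theorem dvb {p g : ℝ} {C0 cT : ℝ} {n S t lam : ℕ} {G A : ℝ} {ko : ℕ → ℝ}
    (hP : Par p g C0 cT n S t lam G A ko) {Λ : ℝ} {κ : ℕ → ℕ}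
    (hN : Near n S t lam A ko Λ κ) (σ : ℕ → ℕ) (hσ : ∀ v ≤ S, σ v ≤ κ v) :
    16 * ∑ u ∈ range (t + 1), ((κ u : ℝ) - σ u) * (n / ks t ko - u) ≤
      2 * Λ + (∑ u ∈ range (t + 1), ((κ u : ℝ) - σ u)) * (2 + Real.log C0 +
        Real.log (ks t ko / ∑ u ∈ range (t + 1), ((κ u : ℝ) - σ u))) := by
  have hks := par_ks_pos hP
  have ht := hP.lt
  have hmem : ∀ u ∈ range (t + 1), u ≤ t := by
    intro u hu
    rw [mem_range] at hu
    omega
  have hτ : ∀ u ≤ t, 0 ≤ (κ u : ℝ) - σ u ∧ (κ u : ℝ) - σ u ≤ κ u := by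
    intro u hu
    have h1 : (σ u : ℝ) ≤ κ u := by exact_mod_cast hσ u (by omega)
    have h2 : (0 : ℝ) ≤ σ u := Nat.cast_nonneg _
    constructor <;> linarith
  have hKL : 0 ≤ KL t ko (fun u => (κ u : ℝ)) :=
    kl_nonneg t ko _ hP.pos fun u _ => Nat.cast_nonneg _
  have hΛ : 0 ≤ Λ := hKL.trans hN.kl
  have hM0 : 0 ≤ ∑ u ∈ range (t + 1), ((κ u : ℝ) - σ u) :=
    Finset.sum_nonneg fun u hu => (hτ u (hmem u hu)).1
  have hmt : (n : ℝ) / ks t ko ≤ t := by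
    rw [div_le_iff₀ hks, ← hP.gib.sum]
    unfold ks
    rw [Finset.mul_sum]
    refine Finset.sum_le_sum fun u hu => ?_
    have h1 : (u : ℝ) ≤ t := by exact_mod_cast hmem u hu
    exact mul_le_mul_of_nonneg_right h1 (hP.pos u (hmem u hu)).le
  rcases hM0.eq_or_lt with hz | hz
  · have hall : ∀ u ∈ range (t + 1), (κ u : ℝ) - σ u = 0 :=
      (Finset.sum_eq_zero_iff_of_nonneg fun u hu => (hτ u (hmem u hu)).1).1 hz.symm
    have h1 : ∑ u ∈ range (t + 1), ((κ u : ℝ) - σ u) * (n / ks t ko - u) = 0 :=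
      Finset.sum_eq_zero fun u hu => by rw [hall u hu, zero_mul]
    rw [h1, ← hz]
    simp only [mul_zero, zero_mul, add_zero]
    linarith
  · have h1 := dv (range (t + 1)) (fun u => (κ u : ℝ) - σ u) ko
      (fun u => 16 * ((t : ℝ) - u)) (fun u hu => (hτ u (hmem u hu)).1)
      (fun u hu => hP.pos u (hmem u hu)) hz
    have h2 := xb' t ko (fun u => (κ u : ℝ)) (fun u => (κ u : ℝ) - σ u) hP.pos hτ
    have h3 := xb t ko (fun u => (κ u : ℝ)) (fun u => (κ u : ℝ) - σ u) hP.pos hτ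
    have h4 := hP.mg
    have hs : 0 < ∑ u ∈ range (t + 1), ko u * Real.exp (16 * ((t : ℝ) - u)) := by
      refine Finset.sum_pos (fun u hu => mul_pos (hP.pos u (hmem u hu)) (Real.exp_pos _))
        ⟨0, by simp⟩
    have hC : 0 < C0 := by
      by_contra hc
      have : C0 * ks t ko ≤ 0 := mul_nonpos_of_nonpos_of_nonneg (not_lt.1 hc) hks.le
      linarith
    have h5 : Real.log ((∑ u ∈ range (t + 1), ko u * Real.exp (16 * ((t : ℝ) - u))) /
        ∑ u ∈ range (t + 1), ((κ u : ℝ) - σ u)) ≤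
        Real.log C0 + Real.log (ks t ko / ∑ u ∈ range (t + 1), ((κ u : ℝ) - σ u)) := by
      rw [← Real.log_mul hC.ne' (div_pos hks hz).ne', ← mul_div_assoc]
      refine Real.log_le_log (div_pos hs hz) ?_
      exact div_le_div_of_nonneg_right h4 hz.le
    have h6 := mul_le_mul_of_nonneg_left h5 hz.le
    have h7 : 16 * ∑ u ∈ range (t + 1), ((κ u : ℝ) - σ u) * (n / ks t ko - u) ≤
        ∑ u ∈ range (t + 1), ((κ u : ℝ) - σ u) * (16 * ((t : ℝ) - u)) := by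
      rw [Finset.mul_sum]
      refine Finset.sum_le_sum fun u hu => ?_
      have h8 := mul_le_mul_of_nonneg_left hmt (hτ u (hmem u hu)).1
      nlinarith
    have h9 := hN.kl
    beta_reduce at h1 h2 h3
    linarith

end Pool.Agent.CHP
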