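import Pool.Agent.CHP.OpB

/-!
# CHP / CrB: packings with a prescribed system of cores

PROOF.  If the filter is empty the left side is `0` and the right side is nonnegative.  Otherwise take `J0` in it:
`J0 ∈ OP univ u'` and `Cmp r0 A J0 C`.  Notation: `D = {i | C i ≠ none}`, `C i = (j_i, K_i)` for `i ∈ D`.
* The `K_i` (`i ∈ D`) are pairwise disjoint (subsets of the disjoint `A i`), `r0 < |K_i| ≤ |J0 j_i| = u' j_i ≤ S`; `i ↦ j_i` is
  injective on `D`: if `j_i = j_i'`, `i ≠ i'`, then `K_i ∪ K_i' ⊆ J0 j_i` has at least `2 (r0 + 1) > S` elements.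
* `U = ∪_{i ∈ D} K_i`, `c j = |J0 j ∩ U| = |K_i|` if `j = j_i` and `0` if `j` is not of this form (for every `J` in the filter
  `J j ∩ U = K_i` or `∅`: `K_i ⊆ J j_i` and the `J j` are disjoint; so `c` is the same for all `J`), `∑ j, c j = |U| = ∑_i |K_i| = c0`.
* The map `J ↦ (fun j => J j \ U)` sends the filter injectively (`J j = (J j \ U) ∪ (J j ∩ U)` and `J j ∩ U` does not depend on `J`)
  into `OP Uᶜ (fun j => u' j - c j)`, and `∏ j, ∏ i, om |A i ∩ J j| ≤ ∏ j, ∏ i, om |A i ∩ (J j \ U)|`: if `j = j_i` then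
  `|A i ∩ J j| ≥ |K_i| > r0` and `om = 1 ≤ om(anything)` (`1 ≤ om` because `1 ≤ θ, b`; prove it by `unfold om; split_ifs`);
  if `j` is not `j_i`: `A i ∩ J j ∩ U = ∅` (`J j ∩ U` is `∅` or `K_{i'}` with `i' ≠ i`, a subset of `A i'`), so
  `A i ∩ J j = A i ∩ (J j \ U)`.
  So the left side is `≤ ∑ J' ∈ OP Uᶜ (u' - c), ∏ j, w (J' j) ≤ |OP Uᶜ (u' - c)| * E0` (`hE`, `u' j - c j ≤ S`).
  (`Finset.sum_le_sum_of_injOn`-style: `Finset.sum_le_sum` then `Finset.sum_image` and `Finset.sum_le_sum_of_subset_of_nonneg`.)
* `card_OP_real`: `|OP Uᶜ (u' - c)| = (n - c0).descFactorial (s' - c0) / ∏ (u' j - c j)!`, `|OP univ u'| = n.descFactorial s' / ∏ (u' j)!`,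
  `s' = ∑ u' j`, `n.descFactorial s' = n.descFactorial c0 * (n - c0).descFactorial (s' - c0)`, `(u' j)! = (u' j - c j)! (u' j).descFactorial (c j)`
  (`Nat.factorial_mul_descFactorial`), `n.descFactorial c0 > 0` (`c0 = |U| ≤ n`).  So
  `|OP Uᶜ (u' - c)| = |OP univ u'| ∏ j, (u' j).descFactorial (c j) / n.descFactorial c0`, and
  `∏ j, (u' j).descFactorial (c j) = ∏ i, (C i).elim 1 (fun q => (u' q.1).descFactorial q.2.card)` (the factors with `c j = 0` are `1`;
  `Finset.prod_bij` / `Finset.prod_image` for the injective map `i ↦ j_i` on `D`), `c0 = ∑ i, (C i).elim 0 (fun q => q.2.card)`.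
-/

set_option autoImplicit false

namespace Pool.Agent.CHP

open Finset Pool.Agent.CHV

variable {n : ℕ} {ι ι' : Type} [Fintype ι] [DecidableEq ι] [Fintype ι'] [DecidableEq ι']

private lemma crb_desc_add (m l r : ℕ) :
    m.descFactorial (l + r) = m.descFactorial l * (m - l).descFactorial r := by
  induction r with
  | zero => simp
  | succ r ih =>
    rw [← add_assoc, Nat.descFactorial_succ, ih, Nat.descFactorial_succ, Nat.sub_sub]
    ring

private lemma crb_om_ge {θ b : ℝ} (hθ : 1 ≤ θ) (hb : 1 ≤ b) (r0 r : ℕ) : 1 ≤ om θ b r0 r := by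
  unfold om
  split_ifs
  · exact one_le_mul_of_one_le_of_one_le hθ (one_le_pow₀ hb)
  · exact le_refl 1

/-- the core at the index `i` -/
private def crb_K (C : ι → Option (ι' × Finset (Fin n))) (i : ι) : Finset (Fin n) :=
  (C i).elim ∅ (fun q => q.2)

/-- the core at the index `i` if it is in the class `j` -/
private def crb_L (C : ι → Option (ι' × Finset (Fin n))) (j : ι') (i : ι) : Finset (Fin n) :=
  (C i).elim ∅ (fun q => if q.1 = j then q.2 else ∅)

private def crb_U (C : ι → Option (ι' × Finset (Fin n))) : Finset (Fin n) :=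
  univ.biUnion (crb_K C)

private def crb_W (C : ι → Option (ι' × Finset (Fin n))) (j : ι') : Finset (Fin n) :=
  univ.biUnion (crb_L C j)

private lemma crb_mem_U {C : ι → Option (ι' × Finset (Fin n))} {x : Fin n} :
    x ∈ crb_U C ↔ ∃ i q, C i = some q ∧ x ∈ q.2 := by
  unfold crb_U crb_K
  rw [mem_biUnion]
  constructor
  · rintro ⟨i, -, hi⟩
    rcases h : C i with _ | q
    · rw [h] at hi
      simp at hi
    · rw [h] at hi
      exact ⟨i, q, h, hi⟩
  · rintro ⟨i, q, hq, hx⟩
    refine ⟨i, mem_univ _, ?_⟩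
    rw [hq]
    exact hx

private lemma crb_mem_W {C : ι → Option (ι' × Finset (Fin n))} {j : ι'} {x : Fin n} :
    x ∈ crb_W C j ↔ ∃ i q, C i = some q ∧ q.1 = j ∧ x ∈ q.2 := by
  unfold crb_W crb_L
  rw [mem_biUnion]
  constructor
  · rintro ⟨i, -, hi⟩
    rcases h : C i with _ | q
    · rw [h] at hi
      simp at hi
    · rw [h] at hi
      simp only [Option.elim_some] at hi
      by_cases hj : q.1 = j
      · rw [if_pos hj] at hi
        exact ⟨i, q, h, hj, hi⟩
      · rw [if_neg hj] at hi
        simp at hi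
  · rintro ⟨i, q, hq, hj, hx⟩
    refine ⟨i, mem_univ _, ?_⟩
    rw [hq]
    simp only [Option.elim_some]
    rw [if_pos hj]
    exact hx

private lemma crb_inter {r0 : ℕ} {A : ι → Finset (Fin n)} {u' : ι' → ℕ}
    {J : ι' → Finset (Fin n)} {C : ι → Option (ι' × Finset (Fin n))}
    (hJ : J ∈ OP (univ : Finset (Fin n)) u') (hC : Cmp r0 A J C) (j : ι') :
    J j ∩ crb_U C = crb_W C j := by
  ext x
  rw [mem_inter, crb_mem_U, crb_mem_W]
  constructor
  · rintro ⟨hx, i, q, hq, hxq⟩
    refine ⟨i, q, hq, ?_, hxq⟩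
    by_contra hne
    have h1 := (hC i q hq).2.2 hxq
    exact (disjoint_left.1 ((mem_OP.1 hJ).2 q.1 j hne)) h1 hx
  · rintro ⟨i, q, hq, hj, hxq⟩
    have h1 := (hC i q hq).2.2 hxq
    rw [hj] at h1
    exact ⟨h1, i, q, hq, hxq⟩

open Classical in
theorem cfg_sum {S r0 : ℕ} (hr : S ≤ 2 * r0 + 1) (A : ι → Finset (Fin n))
    (hA : ∀ i j, i ≠ j → Disjoint (A i) (A j)) (u' : ι' → ℕ) (hu' : ∀ j, u' j ≤ S)
    {θ b : ℝ} (hθ : 1 ≤ θ) (hb : 1 ≤ b) (E0 : ℝ) (hE0 : 0 ≤ E0)
    (hE : ∀ (R : Finset (Fin n)) (v : ι' → ℕ), (∀ j, v j ≤ S) →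
      ∑ J ∈ OP R v, ∏ j, ∏ i, om θ b r0 (A i ∩ J j).card ≤ ((OP R v).card : ℝ) * E0)
    (C : ι → Option (ι' × Finset (Fin n))) :
    ∑ J ∈ (OP (univ : Finset (Fin n)) u').filter (fun J => Cmp r0 A J C),
        ∏ j, ∏ i, om θ b r0 (A i ∩ J j).card ≤
      ((OP (univ : Finset (Fin n)) u').card : ℝ) * E0 *
        (∏ i, (C i).elim (1 : ℝ) (fun q => ((u' q.1).descFactorial q.2.card : ℝ))) /
          (n.descFactorial (∑ i, (C i).elim 0 (fun q => q.2.card)) : ℝ) := by
  have hP0 : ∀ i, 0 ≤ (C i).elim (1 : ℝ) (fun q => ((u' q.1).descFactorial q.2.card : ℝ)) := by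
    intro i
    rcases C i with _ | q
    · exact zero_le_one
    · exact Nat.cast_nonneg _
  rcases ((OP (univ : Finset (Fin n)) u').filter (fun J => Cmp r0 A J C)).eq_empty_or_nonempty
    with hemp | ⟨J0, hJ0⟩
  · rw [hemp, sum_empty]
    exact div_nonneg (mul_nonneg (mul_nonneg (Nat.cast_nonneg _) hE0)
      (prod_nonneg fun i _ => hP0 i)) (Nat.cast_nonneg _)
  rw [mem_filter] at hJ0
  obtain ⟨hJ0, hC0⟩ := hJ0
  have hom : ∀ r, 0 ≤ om θ b r0 r := fun r => zero_le_one.trans (crb_om_ge hθ hb r0 r)
  -- disjointness of the cores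
  have hKA : ∀ i, crb_K C i ⊆ A i := by
    intro i
    unfold crb_K
    rcases h : C i with _ | q
    · simp
    · exact (hC0 i q h).1
  have hLK : ∀ j i, crb_L C j i ⊆ crb_K C i := by
    intro j i
    unfold crb_K crb_L
    rcases C i with _ | q
    · simp
    · simp only [Option.elim_some]
      split_ifs
      · exact Subset.refl _
      · exact empty_subset _
  have hcU : (crb_U C).card = ∑ i, (C i).elim 0 (fun q => q.2.card) := by
    unfold crb_U
    rw [card_biUnion]
    · refine sum_congr rfl fun i _ => ?_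
      unfold crb_K
      rcases C i with _ | q
      · simp
      · simp
    · intro i _ i' _ hne
      exact disjoint_of_subset_left (hKA i) (disjoint_of_subset_right (hKA i') (hA i i' hne))
  have hcW : ∀ j, (crb_W C j).card = ∑ i, (C i).elim 0 (fun q => if q.1 = j then q.2.card else 0) := by
    intro j
    unfold crb_W
    rw [card_biUnion]
    · refine sum_congr rfl fun i _ => ?_
      unfold crb_L
      rcases C i with _ | q
      · simp
      · simp only [Option.elim_some]
        split_ifs
        · rfl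
        · simp
    · intro i _ i' _ hne
      exact disjoint_of_subset_left ((hLK j i).trans (hKA i))
        (disjoint_of_subset_right ((hLK j i').trans (hKA i')) (hA i i' hne))
  have hsW : ∑ j, (crb_W C j).card = (crb_U C).card := by
    rw [hcU]
    simp only [hcW]
    rw [sum_comm]
    refine sum_congr rfl fun i _ => ?_
    rcases C i with _ | q
    · simp
    · simp
  have hWle : ∀ j, (crb_W C j).card ≤ u' j := by
    intro j
    rw [← crb_inter hJ0 hC0 j, ← ((mem_OP.1 hJ0).1 j).2]
    exact card_le_card inter_subset_left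
  -- uniqueness of the index of a class
  have huniq : ∀ i i' q q', C i = some q → C i' = some q' → q.1 = q'.1 → i = i' := by
    intro i i' q q' hq hq' hqq
    by_contra hne
    have h1 := hC0 i q hq
    have h2 := hC0 i' q' hq'
    have hd : Disjoint q.2 q'.2 :=
      disjoint_of_subset_left h1.1 (disjoint_of_subset_right h2.1 (hA i i' hne))
    have h3 : (q.2 ∪ q'.2).card ≤ (J0 q.1).card := by
      refine card_le_card (union_subset h1.2.2 ?_)
      rw [hqq]
      exact h2.2.2
    rw [card_union_of_disjoint hd, ((mem_OP.1 hJ0).1 q.1).2] at h3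
    have h4 := hu' q.1
    have h5 := h1.2.1
    have h6 := h2.2.1
    omega
  -- the product of the falling factorials
  have hprod : ∏ j, ((u' j).descFactorial (crb_W C j).card : ℝ)
      = ∏ i, (C i).elim (1 : ℝ) (fun q => ((u' q.1).descFactorial q.2.card : ℝ)) := by
    have hj : ∀ j, ((u' j).descFactorial (crb_W C j).card : ℝ)
        = ∏ i, (C i).elim (1 : ℝ) (fun q =>
            if q.1 = j then ((u' q.1).descFactorial q.2.card : ℝ) else 1) := by
      intro j
      by_cases hex : ∃ i q, C i = some q ∧ q.1 = j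
      · obtain ⟨i, q, hq, hqj⟩ := hex
        rw [prod_eq_single i]
        · rw [hq]
          simp only [Option.elim_some]
          rw [if_pos hqj, hqj]
          congr 2
          rw [hcW, sum_eq_single i]
          · rw [hq]
            simp only [Option.elim_some]
            rw [if_pos hqj]
          · intro i' _ hne
            rcases h : C i' with _ | q'
            · rfl
            · simp only [Option.elim_some]
              rw [if_neg]
              intro h'
              exact hne (huniq i' i q' q h hq (h'.trans hqj.symm))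
          · intro h
            exact absurd (mem_univ i) h
        · intro i' _ hne
          rcases h : C i' with _ | q'
          · rfl
          · simp only [Option.elim_some]
            rw [if_neg]
            intro h'
            exact hne (huniq i' i q' q h hq (h'.trans hqj.symm))
        · intro h
          exact absurd (mem_univ i) h
      · push Not at hex
        rw [prod_eq_one]
        · rw [hcW, sum_eq_zero]
          · simp
          · intro i _
            rcases h : C i with _ | q
            · rfl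
            · simp only [Option.elim_some]
              rw [if_neg (hex i q h)]
        · intro i _
          rcases h : C i with _ | q
          · rfl
          · simp only [Option.elim_some]
            rw [if_neg (hex i q h)]
    rw [prod_congr rfl fun j _ => hj j, prod_comm]
    refine prod_congr rfl fun i _ => ?_
    rcases C i with _ | q
    · simp
    · simp
  -- the number of packings
  have hcard : ((OP (crb_U C)ᶜ (fun j => u' j - (crb_W C j).card)).card : ℝ)
      = ((OP (univ : Finset (Fin n)) u').card : ℝ) *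
        (∏ i, (C i).elim (1 : ℝ) (fun q => ((u' q.1).descFactorial q.2.card : ℝ))) /
          (n.descFactorial (∑ i, (C i).elim 0 (fun q => q.2.card)) : ℝ) := by
    rw [card_OP_real, card_OP_real, ← hprod, ← hcU, card_compl, Fintype.card_fin, card_univ,
      Fintype.card_fin]
    have hs : ∑ j, (u' j - (crb_W C j).card) + (crb_U C).card = ∑ j, u' j := by
      rw [← hsW, ← sum_add_distrib]
      exact sum_congr rfl fun j _ => Nat.sub_add_cancel (hWle j)
    have h1 : n.descFactorial (∑ j, u' j) = n.descFactorial (crb_U C).card *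
        (n - (crb_U C).card).descFactorial (∑ j, (u' j - (crb_W C j).card)) := by
      rw [← hs, add_comm, crb_desc_add]
    have h2 : ∏ j, ((u' j).factorial : ℝ) = (∏ j, ((u' j - (crb_W C j).card).factorial : ℝ)) *
        ∏ j, ((u' j).descFactorial (crb_W C j).card : ℝ) := by
      rw [← prod_mul_distrib]
      refine prod_congr rfl fun j _ => ?_
      rw [← Nat.factorial_mul_descFactorial (hWle j)]
      push_cast
      ring
    have hUn : (crb_U C).card ≤ n := by
      have := card_le_univ (crb_U C)
      rwa [Fintype.card_fin] at this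
    have hd0 : (n.descFactorial (crb_U C).card : ℝ) ≠ 0 := by
      have : n.descFactorial (crb_U C).card ≠ 0 := by
        rw [Ne, Nat.descFactorial_eq_zero_iff_lt]
        omega
      exact_mod_cast this
    have hp0 : (∏ j, ((u' j).descFactorial (crb_W C j).card : ℝ)) ≠ 0 := by
      refine prod_ne_zero_iff.2 fun j _ => ?_
      have : (u' j).descFactorial (crb_W C j).card ≠ 0 := by
        rw [Ne, Nat.descFactorial_eq_zero_iff_lt]
        have := hWle j
        omega
      exact_mod_cast this
    have hv0 : (∏ j, ((u' j - (crb_W C j).card).factorial : ℝ)) ≠ 0 :=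
      prod_ne_zero_iff.2 fun j _ => by exact_mod_cast (Nat.factorial_pos _).ne'
    rw [h1, h2]
    push_cast
    field_simp
  -- the sum
  have hF0 : ∀ J : ι' → Finset (Fin n), 0 ≤ ∏ j, ∏ i, om θ b r0 (A i ∩ J j).card :=
    fun J => prod_nonneg fun j _ => prod_nonneg fun i _ => hom _
  have hle : ∑ J ∈ (OP (univ : Finset (Fin n)) u').filter (fun J => Cmp r0 A J C),
        ∏ j, ∏ i, om θ b r0 (A i ∩ J j).card ≤
      ∑ J ∈ OP (crb_U C)ᶜ (fun j => u' j - (crb_W C j).card),
        ∏ j, ∏ i, om θ b r0 (A i ∩ J j).card := by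
    have step1 : ∑ J ∈ (OP (univ : Finset (Fin n)) u').filter (fun J => Cmp r0 A J C),
        ∏ j, ∏ i, om θ b r0 (A i ∩ J j).card ≤
      ∑ J ∈ (OP (univ : Finset (Fin n)) u').filter (fun J => Cmp r0 A J C),
        ∏ j, ∏ i, om θ b r0 (A i ∩ (fun j => J j \ crb_U C) j).card := by
      refine sum_le_sum fun J hJ => ?_
      rw [mem_filter] at hJ
      obtain ⟨hJ1, hJ2⟩ := hJ
      refine prod_le_prod (fun j _ => prod_nonneg fun i _ => hom _) fun j _ => ?_
      refine prod_le_prod (fun i _ => hom _) fun i _ => ?_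
      by_cases hx : ∃ x, x ∈ A i ∩ J j ∧ x ∈ crb_U C
      · obtain ⟨x, hx1, hx2⟩ := hx
        rw [mem_inter] at hx1
        have hxW : x ∈ crb_W C j := by
          rw [← crb_inter hJ1 hJ2 j, mem_inter]
          exact ⟨hx1.2, hx2⟩
        obtain ⟨i', q, hq, hqj, hxq⟩ := crb_mem_W.1 hxW
        have h1 := hJ2 i' q hq
        have hi : i' = i := by
          by_contra hne
          exact (disjoint_left.1 (hA i' i hne)) (h1.1 hxq) hx1.1
        rw [hi, hqj] at h1
        have h2 : q.2.card ≤ (A i ∩ J j).card := card_le_card (subset_inter h1.1 h1.2.2)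
        have h3 : om θ b r0 (A i ∩ J j).card = 1 := by
          unfold om
          rw [if_neg]
          have := h1.2.1
          omega
        rw [h3]
        exact crb_om_ge hθ hb r0 _
      · push Not at hx
        have h1 : A i ∩ J j = A i ∩ (J j \ crb_U C) := by
          ext x
          rw [mem_inter, mem_inter, mem_sdiff]
          constructor
          · rintro ⟨h1, h2⟩
            exact ⟨h1, h2, hx x (mem_inter.2 ⟨h1, h2⟩)⟩
          · rintro ⟨h1, h2, -⟩
            exact ⟨h1, h2⟩
        show om θ b r0 (A i ∩ J j).card ≤ om θ b r0 (A i ∩ (J j \ crb_U C)).card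
        rw [← h1]
    refine step1.trans ?_
    rw [← sum_image (f := fun J' : ι' → Finset (Fin n) => ∏ j, ∏ i, om θ b r0 (A i ∩ J' j).card)
      (g := fun (J : ι' → Finset (Fin n)) j => J j \ crb_U C)
      (s := (OP (univ : Finset (Fin n)) u').filter (fun J => Cmp r0 A J C))]
    · refine sum_le_sum_of_subset_of_nonneg ?_ fun J _ _ => hF0 J
      intro J' hJ'
      rw [mem_image] at hJ'
      obtain ⟨J, hJ, rfl⟩ := hJ'
      rw [mem_filter] at hJ
      obtain ⟨hJ1, hJ2⟩ := hJ
      rw [mem_OP]
      refine ⟨fun j => ⟨?_, ?_⟩, fun j j' hne => ?_⟩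
      · intro x hx
        rw [mem_sdiff] at hx
        exact mem_compl.2 hx.2
      · have h1 := card_sdiff_add_card_inter (J j) (crb_U C)
        rw [crb_inter hJ1 hJ2 j, ((mem_OP.1 hJ1).1 j).2] at h1
        exact (Nat.sub_eq_of_eq_add h1.symm).symm
      · exact disjoint_of_subset_left sdiff_subset
          (disjoint_of_subset_right sdiff_subset ((mem_OP.1 hJ1).2 j j' hne))
    · intro J hJ J' hJ' hJJ
      have hJ1 := mem_filter.1 (mem_coe.1 hJ)
      have hJ2 := mem_filter.1 (mem_coe.1 hJ')
      funext j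
      have h1 : J j \ crb_U C = J' j \ crb_U C := congrFun hJJ j
      rw [← sdiff_union_inter (J j) (crb_U C), ← sdiff_union_inter (J' j) (crb_U C), h1,
        crb_inter hJ1.1 hJ1.2 j, crb_inter hJ2.1 hJ2.2 j]
  refine hle.trans ((hE _ _ fun j => (Nat.sub_le _ _).trans (hu' j)).trans (le_of_eq ?_))
  rw [hcard]
  ring

end Pool.Agent.CHP
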