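import Pool.Agent.CHP.Defs

/-!
# CHP / CrC: the number of systems of cores with given labels

PROOF.  Let `X` be the filter.  For `C ∈ X`: `(C i).isSome ↔ i ∈ dom L`, and for `i ∈ dom L`, `C i = some (j, K)`: `u' j = lv (L i)`
(`u' j ≤ S`, so `Fin.ofNat (S+1) (u' j)` has value `u' j`: `Fin.val_ofNat`/`Nat.mod_eq_of_lt`), `K ⊆ A i`, so `|K| ≤ S` and
`|K| = lc (L i)`.
Map `C` to the pair (`K`-part, `j`-part):
* `K`-part: `fun i => (C i).elim ∅ (fun q => q.2)`, an element of
  `Fintype.piFinset (fun i => if i ∈ dom L then (A i).powersetCard (lc (L i)) else {∅})`, of cardinality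
  `∏ i ∈ dom L, C(|A i|, lc (L i))` (`Fintype.card_piFinset`, `Finset.prod_ite`);
* `j`-part: for `v : Fin (S + 1)` the embedding of `{i // i ∈ dom L ∧ lv (L i) = v}` into `{j // u' j = v}` given by the first component;
  it is an embedding by the injectivity condition.  The number of such families of embeddings is
  `∏ v : Fin (S + 1), (cnt u' v).descFactorial (pr2 L v)` (`Fintype.card_pi`, `Fintype.card_embedding_eq`, `Fintype.card_subtype`),
  and `∏ v : Fin (S + 1) = ∏ v ∈ range (S + 1)` (`Finset.prod_range`).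
The map is injective on `X` (`C i` is determined by its two parts).  `Finset.card_le_card_of_injOn` into a product, `Finset.card_product`.
An alternative for the `j`-part: induction on a finset `D ⊆ dom L` for the number of functions `g : ι → Option ι'` with `(g i).isSome ↔ i ∈ D`,
injective on `D`, `u' (g i) = lv (L i)`: adding an index `i0` with `lv (L i0) = v` multiplies the number by at most
`cnt u' v - #{i ∈ D | lv (L i) = v}`.
-/

set_option autoImplicit false

namespace Pool.Agent.CHP

open Finset Pool.Agent.CHV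

variable {n : ℕ} {ι ι' : Type} [Fintype ι] [DecidableEq ι] [Fintype ι'] [DecidableEq ι']

open Classical in
theorem count_cfg {S : ℕ} (u' : ι' → ℕ) (hu' : ∀ j, u' j ≤ S) (A : ι → Finset (Fin n))
    (hA : ∀ i, (A i).card ≤ S) (L : ι → Lb S) :
    ((univ : Finset (ι → Option (ι' × Finset (Fin n)))).filter (fun C =>
      lab S u' C = L ∧ (∀ i q, C i = some q → q.2 ⊆ A i) ∧
        (∀ i i' q q', C i = some q → C i' = some q' → q.1 = q'.1 → i = i'))).card ≤
      (∏ v ∈ range (S + 1), (cnt u' v).descFactorial (pr2 L v)) *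
        ∏ i ∈ dom L, (A i).card.choose (lc (L i)) := by
  have hlv : ∀ i, lv (L i) < S + 1 := by
    intro i
    unfold lv
    cases L i with
    | none => exact Nat.succ_pos S
    | some q => exact q.1.2
  let E : Type := ∀ v : Fin (S + 1), {i : ι // i ∈ dom L ∧ lv (L i) = (v : ℕ)} ↪
    {j : ι' // u' j = (v : ℕ)}
  let Ks : Finset (ι → Finset (Fin n)) :=
    Fintype.piFinset (fun i => if i ∈ dom L then (A i).powersetCard (lc (L i)) else {∅})
  let g : (ι → Finset (Fin n)) × E → (ι → Option (ι' × Finset (Fin n))) := fun P i =>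
    if h : i ∈ dom L then
      some ((P.2 ⟨lv (L i), hlv i⟩ ⟨i, h, rfl⟩ : {j : ι' // u' j = lv (L i)}).1, P.1 i)
    else none
  have hsub : ((univ : Finset (ι → Option (ι' × Finset (Fin n)))).filter (fun C =>
      lab S u' C = L ∧ (∀ i q, C i = some q → q.2 ⊆ A i) ∧
        (∀ i i' q q', C i = some q → C i' = some q' → q.1 = q'.1 → i = i'))) ⊆
      (Ks ×ˢ (univ : Finset E)).image g := by
    intro C hC
    obtain ⟨-, hL, hKA, hinj⟩ := Finset.mem_filter.1 hC
    have hLi : ∀ i, L i = (C i).map
        (fun q => (Fin.ofNat (S + 1) (u' q.1), Fin.ofNat (S + 1) q.2.card)) := by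
      intro i
      rw [← hL]
      rfl
    have hq : ∀ i, i ∈ dom L → ∃ q, C i = some q ∧ u' q.1 = lv (L i) ∧
        q.2.card = lc (L i) ∧ q.2 ⊆ A i := by
      intro i hi
      have h1 : (L i).isSome = true := (Finset.mem_filter.1 hi).2
      rw [hLi i, Option.isSome_map] at h1
      obtain ⟨q, hq⟩ := Option.isSome_iff_exists.1 h1
      have hsubA := hKA i q hq
      refine ⟨q, hq, ?_, ?_, hsubA⟩
      · rw [hLi i, hq]
        show u' q.1 = ((Fin.ofNat (S + 1) (u' q.1) : Fin (S + 1)) : ℕ)
        rw [Fin.val_ofNat, Nat.mod_eq_of_lt (Nat.lt_succ_of_le (hu' q.1))]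
      · rw [hLi i, hq]
        show q.2.card = ((Fin.ofNat (S + 1) q.2.card : Fin (S + 1)) : ℕ)
        have h2 : q.2.card ≤ S := le_trans (Finset.card_le_card hsubA) (hA i)
        rw [Fin.val_ofNat, Nat.mod_eq_of_lt (Nat.lt_succ_of_le h2)]
    choose q hq1 hq2 hq3 hq4 using hq
    rw [Finset.mem_image]
    refine ⟨((fun i => if h : i ∈ dom L then (q i h).2 else ∅), fun v =>
      ⟨fun x => ⟨(q x.1 x.2.1).1, by rw [hq2]; exact x.2.2⟩, ?_⟩), ?_, ?_⟩
    · intro x y hxy
      have h1 : (q x.1 x.2.1).1 = (q y.1 y.2.1).1 := congrArg Subtype.val hxy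
      exact Subtype.ext (hinj _ _ _ _ (hq1 _ x.2.1) (hq1 _ y.2.1) h1)
    · rw [Finset.mem_product]
      refine ⟨?_, Finset.mem_univ _⟩
      rw [Fintype.mem_piFinset]
      intro i
      by_cases h : i ∈ dom L
      · simp only [dif_pos h, if_pos h, Finset.mem_powersetCard]
        exact ⟨hq4 i h, hq3 i h⟩
      · simp only [dif_neg h, if_neg h, Finset.mem_singleton]
    · funext i
      by_cases h : i ∈ dom L
      · simp only [g, dif_pos h]
        exact (hq1 i h).symm
      · simp only [g, dif_neg h]
        cases hCi : C i with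
        | none => rfl
        | some r =>
          exfalso
          apply h
          unfold dom
          rw [Finset.mem_filter]
          refine ⟨Finset.mem_univ _, ?_⟩
          rw [hLi i, hCi]
          rfl
  have hcK : Ks.card = ∏ i ∈ dom L, (A i).card.choose (lc (L i)) := by
    show (Fintype.piFinset _).card = _
    rw [Fintype.card_piFinset, ← Finset.prod_filter_mul_prod_filter_not univ (fun i => i ∈ dom L)]
    have h1 : ∏ x ∈ univ.filter (fun i => ¬ i ∈ dom L),
        (if x ∈ dom L then (A x).powersetCard (lc (L x)) else {∅}).card = 1 := by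
      refine Finset.prod_eq_one fun i hi => ?_
      rw [if_neg (Finset.mem_filter.1 hi).2, Finset.card_singleton]
    have h2 : univ.filter (fun i => i ∈ dom L) = dom L := by
      ext i
      simp only [Finset.mem_filter, Finset.mem_univ, true_and]
    rw [h1, mul_one, h2]
    refine Finset.prod_congr rfl fun i hi => ?_
    rw [if_pos hi, Finset.card_powersetCard]
  have hcE : (univ : Finset E).card =
      ∏ v ∈ range (S + 1), (cnt u' v).descFactorial (pr2 L v) := by
    show Fintype.card (∀ v : Fin (S + 1), {i : ι // i ∈ dom L ∧ lv (L i) = (v : ℕ)} ↪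
      {j : ι' // u' j = (v : ℕ)}) = _
    rw [Fintype.card_pi, Finset.prod_range]
    refine Finset.prod_congr rfl fun v _ => ?_
    rw [Fintype.card_embedding_eq]
    congr 1
    · exact Fintype.card_of_subtype _ fun j => by
        simp only [Finset.mem_filter, Finset.mem_univ, true_and]
    · exact Fintype.card_of_subtype _ fun j => by
        simp only [Finset.mem_filter]
  calc _ ≤ ((Ks ×ˢ (univ : Finset E)).image g).card := Finset.card_le_card hsub
    _ ≤ (Ks ×ˢ (univ : Finset E)).card := Finset.card_image_le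
    _ = _ := by rw [Finset.card_product, hcK, hcE, mul_comm]

end Pool.Agent.CHP
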