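import Pool.Agent.CHP.CrA
import Pool.Agent.CHP.CrB
import Pool.Agent.CHP.CrC

/-!
# CHP / Cor: the sum over the second packing

PROOF.  For `J ∈ OP univ u'` with `x ≤ Mg r0 A J` take `C` from `core_exists` (`CrA`).  As all terms are nonnegative
(`ind = 1` iff `x ≤ Mg`, `ind_*` lemmas of CHV/ExB), with `V(C) = ∏ i, (C i).elim 1 (fun q => b ^ (q.2.card.choose 2)) ≥ 0`,
`(∏∏ fw) * ind (x ≤ Mg) ≤ ∑ C with Cmp r0 A J C, x ≤ #{i | (C i).isSome}, V(C) * ∏ j, ∏ i, om (A i ∩ J j).card`
(`Finset.single_le_sum`; `Finset.prod_comm`).  Sum over `J`, exchange the sums (write the condition `Cmp r0 A J C` as `if`), and for each `C`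
use `cfg_sum` (CrB): the total is at most `∑ C, V(C) |OP| E0 ∏ i, (C i).elim 1 (desc) / n.descFactorial c0(C)` over the `C` for which the
filter is not empty (for the other ones the inner sum is `0`) and `x ≤ #{i | (C i).isSome}`.  For these `C`, with `J` in the filter:
`C i = some (j, K)` implies `K ⊆ A i`, `r0 < |K| ≤ |J j| = u' j`, and the first components are injective (`2 (r0+1) > S ≥ |J j|`).
Put `L = lab S u' C`: then `Adm r0 (fun i => (A i).card) L`, `x ≤ (dom L).card`, and the term of `C` is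
`T(L) = |OP| E0 (∏ i ∈ dom L, b^C(lc,2) * (lv (L i)).descFactorial (lc (L i))) / n.descFactorial (csz L)`
(`Finset.prod_filter`/`Finset.prod_subset` to pass from `∏ i, elim 1` to `∏ i ∈ dom L`; `lv (L i) = u' j`, `lc (L i) = |K|`, both `≤ S`).
Group by `L` (`Finset.sum_fiberwise_of_maps_to` or `Finset.sum_comp`): the sum is at most
`∑ L admissible, T(L) * #{C | lab S u' C = L, ..}`, and `count_cfg` (CrC) gives
`T(L) * # ≤ |OP| E0 * WW b n S (cnt u') (fun i => (A i).card) L`.
-/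

set_option autoImplicit false

namespace Pool.Agent.CHP

open Finset Pool.Agent.CHV

variable {n : ℕ} {ι ι' : Type} [Fintype ι] [DecidableEq ι] [Fintype ι'] [DecidableEq ι']

private theorem cor_val {S a : ℕ} (h : a ≤ S) : ((Fin.ofNat (S + 1) a : Fin (S + 1)) : ℕ) = a := by
  rw [Fin.val_ofNat]
  exact Nat.mod_eq_of_lt (Nat.lt_succ_of_le h)

private theorem cor_lab_some {S : ℕ} {u' : ι' → ℕ} {C : ι → Option (ι' × Finset (Fin n))} {i : ι}
    {q : ι' × Finset (Fin n)} (hC : C i = some q) (h1 : u' q.1 ≤ S) (h2 : q.2.card ≤ S) :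
    lv (lab S u' C i) = u' q.1 ∧ lc (lab S u' C i) = q.2.card := by
  unfold lv lc lab
  simp only [hC, Option.map_some, Option.elim_some]
  exact ⟨cor_val h1, cor_val h2⟩

private theorem cor_dom {S : ℕ} (u' : ι' → ℕ) (C : ι → Option (ι' × Finset (Fin n))) :
    dom (lab S u' C) = univ.filter (fun i => (C i).isSome = true) := by
  unfold dom lab
  simp only [Option.isSome_map]

private theorem cor_T {S : ℕ} (u' : ι' → ℕ) (C : ι → Option (ι' × Finset (Fin n)))
    (h : ∀ i q, C i = some q → u' q.1 ≤ S ∧ q.2.card ≤ S) (b : ℝ) :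
    (∏ i, (C i).elim (1 : ℝ) (fun q => b ^ (q.2.card.choose 2))) *
      ((∏ i, (C i).elim (1 : ℝ) (fun q => ((u' q.1).descFactorial q.2.card : ℝ))) /
        (n.descFactorial (∑ i, (C i).elim 0 (fun q => q.2.card)) : ℝ)) =
    (∏ i ∈ dom (lab S u' C), (((lv (lab S u' C i)).descFactorial (lc (lab S u' C i)) : ℝ) *
      b ^ ((lc (lab S u' C i)).choose 2))) / (n.descFactorial (csz (lab S u' C)) : ℝ) := by
  have h1 : (∑ i, (C i).elim 0 (fun q => q.2.card)) = csz (lab S u' C) := by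
    unfold csz
    rw [cor_dom, Finset.sum_filter]
    refine Finset.sum_congr rfl fun i _ => ?_
    rcases hC : C i with _ | q
    · simp
    · obtain ⟨h1, h2⟩ := h i q hC
      rw [if_pos (by simp), Option.elim_some, (cor_lab_some hC h1 h2).2]
  rw [h1, ← mul_div_assoc, ← Finset.prod_mul_distrib]
  congr 1
  rw [cor_dom, Finset.prod_filter]
  refine Finset.prod_congr rfl fun i _ => ?_
  rcases hC : C i with _ | q
  · simp
  · obtain ⟨h1, h2⟩ := h i q hC
    rw [if_pos (by simp), Option.elim_some, Option.elim_some, (cor_lab_some hC h1 h2).2,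
      (cor_lab_some hC h1 h2).1]
    ring

open Classical in
theorem core_sum {S r0 : ℕ} (hr : S ≤ 2 * r0 + 1) (A : ι → Finset (Fin n))
    (hA : ∀ i j, i ≠ j → Disjoint (A i) (A j)) (hS : ∀ i, (A i).card ≤ S)
    (u' : ι' → ℕ) (hu' : ∀ j, u' j ≤ S)
    {θ b : ℝ} (hθ : 1 ≤ θ) (hb : 1 ≤ b) (E0 : ℝ) (hE0 : 0 ≤ E0)
    (hE : ∀ (R : Finset (Fin n)) (v : ι' → ℕ), (∀ j, v j ≤ S) →
      ∑ J ∈ OP R v, ∏ j, ∏ i, om θ b r0 (A i ∩ J j).card ≤ ((OP R v).card : ℝ) * E0) (x : ℕ) :
    ∑ J ∈ OP (univ : Finset (Fin n)) u',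
        (∏ i, ∏ j, fw θ b r0 (A i ∩ J j).card) * ind (x ≤ Mg r0 A J) ≤
      ((OP (univ : Finset (Fin n)) u').card : ℝ) * E0 *
        ∑ L ∈ (univ : Finset (ι → Lb S)).filter
          (fun L => Adm r0 (fun i => (A i).card) L ∧ x ≤ (dom L).card),
          WW b n S (cnt u') (fun i => (A i).card) L := by
  have hb0 : (0 : ℝ) ≤ b := by linarith
  have hθ0 : (0 : ℝ) ≤ θ := by linarith
  set F : Finset (ι → Option (ι' × Finset (Fin n))) := univ.filter (fun C =>
    x ≤ (univ.filter (fun i => (C i).isSome = true)).card ∧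
      ∃ J ∈ OP (univ : Finset (Fin n)) u', Cmp r0 A J C) with hF
  set V : (ι → Option (ι' × Finset (Fin n))) → ℝ :=
    fun C => ∏ i, (C i).elim (1 : ℝ) (fun q => b ^ (q.2.card.choose 2)) with hV
  set W : (ι' → Finset (Fin n)) → ℝ := fun J => ∏ j, ∏ i, om θ b r0 (A i ∩ J j).card with hW
  have hV0 : ∀ C, 0 ≤ V C := by
    intro C
    refine Finset.prod_nonneg fun i _ => ?_
    rcases C i with _ | q
    · simp
    · rw [Option.elim_some]
      exact pow_nonneg hb0 _
  have hW0 : ∀ J, 0 ≤ W J := by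
    intro J
    refine Finset.prod_nonneg fun j _ => Finset.prod_nonneg fun i _ => ?_
    unfold om
    split_ifs
    · exact mul_nonneg hθ0 (pow_nonneg hb0 _)
    · exact zero_le_one
  have hfacts : ∀ C ∈ F, (∀ i q, C i = some q → q.2 ⊆ A i ∧ r0 < q.2.card ∧ q.2.card ≤ u' q.1 ∧
      u' q.1 ≤ S) ∧ (∀ i i' q q', C i = some q → C i' = some q' → q.1 = q'.1 → i = i') ∧
      x ≤ (univ.filter (fun i => (C i).isSome = true)).card := by
    intro C hC
    rw [hF, Finset.mem_filter] at hC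
    obtain ⟨_, hx, J, hJ, hCJ⟩ := hC
    obtain ⟨hJ1, hJ2⟩ := mem_OP.1 hJ
    refine ⟨?_, ?_, hx⟩
    · intro i q hq
      obtain ⟨h1, h2, h3⟩ := hCJ i q hq
      refine ⟨h1, h2, ?_, hu' _⟩
      rw [← (hJ1 q.1).2]
      exact Finset.card_le_card h3
    · intro i i' q q' hq hq' he
      by_contra hne
      obtain ⟨h1, h2, h3⟩ := hCJ i q hq
      obtain ⟨h1', h2', h3'⟩ := hCJ i' q' hq'
      rw [← he] at h3'
      have hd : Disjoint q.2 q'.2 := Finset.disjoint_of_subset_left h1
        (Finset.disjoint_of_subset_right h1' (hA i i' hne))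
      have hc : (q.2 ∪ q'.2).card ≤ (J q.1).card :=
        Finset.card_le_card (Finset.union_subset h3 h3')
      rw [Finset.card_union_of_disjoint hd, (hJ1 q.1).2] at hc
      have := hu' q.1
      omega
  have h1 : ∀ J ∈ OP (univ : Finset (Fin n)) u',
      (∏ i, ∏ j, fw θ b r0 (A i ∩ J j).card) * ind (x ≤ Mg r0 A J) ≤
        ∑ C ∈ F, if Cmp r0 A J C then V C * W J else 0 := by
    intro J hJ
    obtain ⟨C, hC1, hC2, hC3⟩ := core_exists hr A hS J (mem_OP.1 hJ).2 θ b
    have hnn : ∀ C ∈ F, 0 ≤ if Cmp r0 A J C then V C * W J else 0 := by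
      intro C _
      split_ifs
      · exact mul_nonneg (hV0 _) (hW0 _)
      · exact le_refl _
    by_cases hx : x ≤ Mg r0 A J
    · have hi : ind (x ≤ Mg r0 A J) = 1 := by
        unfold ind
        rw [if_pos hx]
      rw [hi, mul_one, hC3]
      have hCF : C ∈ F := by
        rw [hF, Finset.mem_filter]
        refine ⟨mem_univ _, ?_, J, hJ, hC1⟩
        rw [hC2]
        exact hx
      refine le_trans (le_of_eq ?_) (Finset.single_le_sum hnn hCF)
      rw [if_pos hC1]
      simp only [hV, hW]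
      congr 1
      exact Finset.prod_comm
    · have hi : ind (x ≤ Mg r0 A J) = 0 := by
        unfold ind
        rw [if_neg hx]
      rw [hi, mul_zero]
      exact Finset.sum_nonneg hnn
  refine le_trans (Finset.sum_le_sum h1) ?_
  rw [Finset.sum_comm]
  set G : ℝ := ((OP (univ : Finset (Fin n)) u').card : ℝ) * E0 with hG
  have hG0 : 0 ≤ G := mul_nonneg (Nat.cast_nonneg _) hE0
  set T : (ι → Lb S) → ℝ := fun L =>
    (∏ i ∈ dom L, (((lv (L i)).descFactorial (lc (L i)) : ℝ) *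
      b ^ ((lc (L i)).choose 2))) / (n.descFactorial (csz L) : ℝ) with hT
  have hT0 : ∀ L, 0 ≤ T L := by
    intro L
    refine div_nonneg (Finset.prod_nonneg fun i _ => ?_) (Nat.cast_nonneg _)
    exact mul_nonneg (Nat.cast_nonneg _) (pow_nonneg hb0 _)
  have h2 : ∀ C ∈ F, (∑ J ∈ OP (univ : Finset (Fin n)) u',
      if Cmp r0 A J C then V C * W J else 0) ≤ G * T (lab S u' C) := by
    intro C hC
    rw [← Finset.sum_filter, ← Finset.mul_sum]
    have hcfg := cfg_sum hr A hA u' hu' hθ hb E0 hE0 hE C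
    refine le_trans (mul_le_mul_of_nonneg_left hcfg (hV0 C)) (le_of_eq ?_)
    have hTC := cor_T (n := n) u' C (fun i q hq => ⟨((hfacts C hC).1 i q hq).2.2.2,
      le_trans ((hfacts C hC).1 i q hq).2.2.1 ((hfacts C hC).1 i q hq).2.2.2⟩) b
    simp only [hT]
    rw [← hTC]
    simp only [hV, hG]
    ring
  refine le_trans (Finset.sum_le_sum h2) ?_
  rw [← Finset.mul_sum]
  refine mul_le_mul_of_nonneg_left ?_ hG0
  have hmap : ∀ C ∈ F, lab S u' C ∈ (univ : Finset (ι → Lb S)).filter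
      (fun L => Adm r0 (fun i => (A i).card) L ∧ x ≤ (dom L).card) := by
    intro C hC
    obtain ⟨hf1, hf2, hf3⟩ := hfacts C hC
    rw [Finset.mem_filter]
    refine ⟨mem_univ _, ?_, ?_⟩
    · intro i hi
      rw [cor_dom, Finset.mem_filter] at hi
      obtain ⟨q, hq⟩ := Option.isSome_iff_exists.1 hi.2
      obtain ⟨g1, g2, g3, g4⟩ := hf1 i q hq
      obtain ⟨e1, e2⟩ := cor_lab_some (S := S) (u' := u') hq g4 (le_trans g3 g4)
      rw [e1, e2]
      exact ⟨g2, Finset.card_le_card g1, g3⟩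
    · rw [cor_dom]
      exact hf3
  rw [← Finset.sum_fiberwise_of_maps_to hmap]
  refine Finset.sum_le_sum fun L _ => ?_
  have h3 : ∑ C ∈ F with lab S u' C = L, T (lab S u' C) =
      ((F.filter (fun C => lab S u' C = L)).card : ℝ) * T L := by
    rw [Finset.sum_congr rfl (g := fun _ => T L), Finset.sum_const, nsmul_eq_mul]
    intro C hC
    rw [(Finset.mem_filter.1 hC).2]
  rw [h3]
  have h4 : (F.filter (fun C => lab S u' C = L)).card ≤
      (∏ v ∈ range (S + 1), (cnt u' v).descFactorial (pr2 L v)) *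
        ∏ i ∈ dom L, (A i).card.choose (lc (L i)) := by
    refine le_trans (Finset.card_le_card ?_) (count_cfg u' hu' A hS L)
    intro C hC
    rw [Finset.mem_filter] at hC
    obtain ⟨hf1, hf2, hf3⟩ := hfacts C hC.1
    rw [Finset.mem_filter]
    exact ⟨mem_univ _, hC.2, fun i q hq => (hf1 i q hq).1, hf2⟩
  have h5 : ((F.filter (fun C => lab S u' C = L)).card : ℝ) ≤
      (∏ v ∈ range (S + 1), ((cnt u' v).descFactorial (pr2 L v) : ℝ)) *
        ∏ i ∈ dom L, ((A i).card.choose (lc (L i)) : ℝ) := by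
    calc ((F.filter (fun C => lab S u' C = L)).card : ℝ) ≤
        (((∏ v ∈ range (S + 1), (cnt u' v).descFactorial (pr2 L v)) *
        ∏ i ∈ dom L, (A i).card.choose (lc (L i)) : ℕ) : ℝ) := by exact_mod_cast h4
      _ = _ := by push_cast; ring
  refine le_trans (mul_le_mul_of_nonneg_right h5 (hT0 L)) (le_of_eq ?_)
  simp only [hT]
  unfold WW
  have h6 : (∏ i ∈ dom L, (((A i).card.choose (lc (L i)) : ℝ) *
      ((lv (L i)).descFactorial (lc (L i)) : ℝ) * b ^ ((lc (L i)).choose 2))) =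
      (∏ i ∈ dom L, ((A i).card.choose (lc (L i)) : ℝ)) *
        ∏ i ∈ dom L, (((lv (L i)).descFactorial (lc (L i)) : ℝ) *
          b ^ ((lc (L i)).choose 2)) := by
    rw [← Finset.prod_mul_distrib]
    refine Finset.prod_congr rfl fun i _ => ?_
    ring
  rw [h6]
  ring

end Pool.Agent.CHP
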