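import Pool.Agent.CHP.Defs
import Pool.Agent.CHV.Par

/-!
# CHP / Rat: the ratio `C(v,c) sqrt (N_v / N_c)` for large cores

`b = 1/(1-p)`, `L = LL p n`, `log n = (log b) L`, i.e. `b^x = n^(x/L)`; `S = SS p K n`, `S ≤ 2 L` (`SS_le`) and
`S ≥ 2 L - 2 log L / log b + K` (`SS_low`), so `b^S ≥ n^2 / L^2`.
PROOF.  `NN (j+1) / NN j = n (1-p)^j / (j+1)` (`Nat.choose_succ`: `(j+1).choose 2 = j.choose 2 + j`), so for `c ≤ v`
`rt p n v c = C(v,c) sqrt (∏_{j=c}^{v-1} n / ((j+1) b^j))` and `C(v,c) = ∏_{j=c}^{v-1} (j+1)/(j+1-c) ≤ ∏_{j=c}^{v-1} (j+1)`.  So by induction on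
`v` (from `c`), `rt p n (v+1) c ≤ rt p n v c * ((v+1) sqrt (n / ((v+1) b^v))) = rt p n v c * sqrt ((v+1) n / b^v)`
(`Nat.succ_mul_choose_eq` or `C(v+1,c) ≤ (v+1) C(v,c)`: `(v+1-c) C(v+1,c) = (v+1) C(v,c)`), `rt p n c c = 1`.
For `j ≥ rz S + 1 > 11 S/20`: `b^j ≥ b^(11 S/20) ≥ (n^2/L^2)^(11/20) = n^(11/10) L^(-11/10)`, so
`sqrt ((j+1) n / b^j) ≤ sqrt (3 L n^(-1/10) L^2) ≤ 1` for large `n` (`LL_pow_le`).  This gives the first claim.
If moreover `19 S ≤ 20 v`, `c < v`, the last factor `j = v - 1 ≥ 19 S/20 - 1` satisfies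
`b^j ≥ b^(19 S/20 - 1) ≥ (n^2/L^2)^(19/20) / b = n^(19/10) L^(-19/10) / b`, so
`sqrt (v n / b^(v-1)) ≤ sqrt (2 L b L^2 n^(-9/10)) ≤ n^(-11/25)` for large `n` (`-9/20 < -11/25`), and the other factors are `≤ 1`.
Work with `exp` and `log` for the real powers of `b`.
-/

set_option autoImplicit false

namespace Pool.Agent.CHP

open Finset Filter Pool.Agent.CHV

private theorem rat_NN_succ {p : ℝ} (n v : ℕ) :
    NN p n (v + 1) = NN p n v * ((n : ℝ) * (1 - p) ^ v / (v + 1)) := by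
  have e : (v + 1).choose 2 = v.choose 2 + v := by
    rw [Nat.choose_succ_succ' v 1, Nat.choose_one_right]
    ring
  have hv : (v : ℝ) + 1 ≠ 0 := by positivity
  have hf : (v.factorial : ℝ) ≠ 0 := by positivity
  unfold NN
  rw [e, pow_add, pow_succ, Nat.factorial_succ]
  push_cast
  field_simp
  ring

private theorem rat_NN_pos {p : ℝ} (h1 : p < 1) {n : ℕ} (hn : 0 < n) (v : ℕ) : 0 < NN p n v := by
  unfold NN
  have h2 : 0 < 1 - p := by linarith
  have h3 : (0 : ℝ) < n := by exact_mod_cast hn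
  positivity

private theorem rat_step {p : ℝ} (h1 : p < 1) {n : ℕ} (hn : 0 < n) {v c : ℕ} (hcv : c ≤ v) :
    rt p n (v + 1) c ≤ rt p n v c * Real.sqrt ((v + 1) * n * (1 - p) ^ v) := by
  have hq : 0 < 1 - p := by linarith
  have hn0 : (0 : ℝ) < n := by exact_mod_cast hn
  have hv : (0 : ℝ) < (v : ℝ) + 1 := by positivity
  have hA : 0 ≤ NN p n v / NN p n c :=
    div_nonneg (rat_NN_pos h1 hn v).le (rat_NN_pos h1 hn c).le
  have hX : 0 ≤ (n : ℝ) * (1 - p) ^ v / (v + 1) := by positivity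
  have e1 : NN p n (v + 1) / NN p n c =
      NN p n v / NN p n c * ((n : ℝ) * (1 - p) ^ v / (v + 1)) := by
    rw [rat_NN_succ, mul_div_right_comm]
  have e2 : Real.sqrt ((v + 1) * n * (1 - p) ^ v) =
      (v + 1) * Real.sqrt ((n : ℝ) * (1 - p) ^ v / (v + 1)) := by
    have e3 : ((v : ℝ) + 1) * n * (1 - p) ^ v =
        ((v : ℝ) + 1) ^ 2 * ((n : ℝ) * (1 - p) ^ v / (v + 1)) := by
      field_simp
    rw [e3, Real.sqrt_mul (by positivity), Real.sqrt_sq hv.le]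
  have e4 : (((v + 1).choose c : ℕ) : ℝ) ≤ (v + 1) * (v.choose c : ℕ) := by
    have h3 := Nat.choose_mul_succ_eq v c
    have h4 : (v + 1).choose c ≤ (v + 1).choose c * (v + 1 - c) :=
      Nat.le_mul_of_pos_right _ (by omega)
    have h5 : (v + 1).choose c ≤ v.choose c * (v + 1) := by
      rw [h3]
      exact h4
    have h6 : (((v + 1).choose c : ℕ) : ℝ) ≤ ((v.choose c * (v + 1) : ℕ) : ℝ) := by
      exact_mod_cast h5
    rw [mul_comm]
    push_cast at h6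
    exact h6
  unfold rt
  rw [e1, Real.sqrt_mul hA, e2]
  have h7 : 0 ≤ Real.sqrt (NN p n v / NN p n c) := Real.sqrt_nonneg _
  have h8 : 0 ≤ Real.sqrt ((n : ℝ) * (1 - p) ^ v / (v + 1)) := Real.sqrt_nonneg _
  calc (((v + 1).choose c : ℕ) : ℝ) * (Real.sqrt (NN p n v / NN p n c) *
        Real.sqrt ((n : ℝ) * (1 - p) ^ v / (v + 1)))
      ≤ ((v + 1) * (v.choose c : ℕ)) * (Real.sqrt (NN p n v / NN p n c) *
        Real.sqrt ((n : ℝ) * (1 - p) ^ v / (v + 1))) :=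
        mul_le_mul_of_nonneg_right e4 (mul_nonneg h7 h8)
    _ = (v.choose c : ℕ) * Real.sqrt (NN p n v / NN p n c) *
        ((v + 1) * Real.sqrt ((n : ℝ) * (1 - p) ^ v / (v + 1))) := by ring

private theorem rat_self {p : ℝ} (h1 : p < 1) {n : ℕ} (hn : 0 < n) (c : ℕ) :
    rt p n c c = 1 := by
  unfold rt
  rw [div_self (rat_NN_pos h1 hn c).ne', Real.sqrt_one, Nat.choose_self]
  norm_num

theorem rt_bound {p : ℝ} (h0 : 0 < p) (h1 : p < 1) (K : ℕ) :
    ∀ᶠ n : ℕ in atTop, ∀ v c : ℕ, c ≤ v → v ≤ SS p K n → rz (SS p K n) < c →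
      rt p n v c ≤ 1 ∧ (c < v → 19 * SS p K n ≤ 20 * v →
        rt p n v c ≤ (n : ℝ) ^ (-(11 / 25) : ℝ)) := by
  have hl : 0 < -Real.log (1 - p) := ell_pos h0 h1
  obtain ⟨b, hb⟩ : ∃ b, b = 1 / (1 - p) := ⟨_, rfl⟩
  have hq : 0 < 1 - p := by linarith
  have hb0 : 0 < b := by rw [hb]; positivity
  have hb1 : 1 ≤ b := by
    rw [hb, le_div_iff₀ hq]; linarith
  have hbe : b = Real.exp (-Real.log (1 - p)) := by
    rw [Real.exp_neg, Real.exp_log hq, hb, one_div]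
  filter_upwards [SS_le h0 h1 K, SS_low h0 h1 K, (tendsto_LL h0 h1).eventually_ge_atTop 2,
    LL_pow_le h0 h1 3 (2 * b) (c := 1 / 50) (by norm_num), eventually_ge_atTop 2]
    with n hSle hSlow hL hL3 hn
  have hn' : 0 < n := by omega
  have hn0 : (0 : ℝ) < n := by positivity
  have hn1 : (1 : ℝ) ≤ n := by exact_mod_cast (show 1 ≤ n by omega)
  have hlog : Real.log n = LL p n * (-Real.log (1 - p)) := by
    unfold LL; rw [div_mul_cancel₀ _ hl.ne']
  have hqe : 1 - p = Real.exp (-(-Real.log (1 - p))) := by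
    rw [neg_neg, Real.exp_log hq]
  obtain ⟨y, hy⟩ : ∃ y, y = (n : ℝ) ^ (1 / 50 : ℝ) := ⟨_, rfl⟩
  obtain ⟨L, hLd⟩ : ∃ L, L = LL p n := ⟨_, rfl⟩
  obtain ⟨l, hld⟩ : ∃ l, l = -Real.log (1 - p) := ⟨_, rfl⟩
  obtain ⟨S, hS⟩ : ∃ S, S = SS p K n := ⟨_, rfl⟩
  rw [← hy] at hL3
  rw [← hLd] at hSle hSlow hL hL3 hlog
  rw [← hld] at hl hbe hlog hSlow hqe
  rw [← hS] at hSle hSlow
  rw [← hS]
  have hL0 : 0 < L := by linarith
  have hyE : y = Real.exp (L * l / 50) := by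
    rw [hy, Real.rpow_def_of_pos hn0, hlog]
    congr 1
    ring
  have hy0 : 0 < y := by rw [hyE]; positivity
  have hyp : ∀ j : ℕ, (n : ℝ) ^ ((j : ℝ) / 50) = y ^ j := by
    intro j
    rw [hy, ← Real.rpow_natCast, ← Real.rpow_mul hn0.le]
    congr 1
    ring
  have hy50 : (n : ℝ) = y ^ 50 := by
    rw [← hyp 50]
    norm_num
  have hgoal : (n : ℝ) ^ (-(11 / 25) : ℝ) = 1 / y ^ 22 := by
    rw [Real.rpow_neg hn0.le, ← hyp 22, one_div]
    norm_num
  have hy1 : 1 ≤ y := by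
    rw [hyE]
    apply Real.one_le_exp
    positivity
  have hlogL : 0 ≤ Real.log L := Real.log_nonneg (by linarith)
  have hK : (0 : ℝ) ≤ K := Nat.cast_nonneg _
  have hSl : 2 * L * l - 2 * Real.log L ≤ S * l := by
    have h3 : 2 * L - 2 * (Real.log L / l) ≤ S := by linarith
    calc 2 * L * l - 2 * Real.log L = (2 * L - 2 * (Real.log L / l)) * l := by
          field_simp
      _ ≤ S * l := by gcongr
  -- powers of `1 - p`
  have hqj : ∀ j : ℕ, (1 - p) ^ j = Real.exp (-(j * l)) := by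
    intro j
    rw [hqe, ← Real.exp_nat_mul]
    congr 1
    ring
  have hpow : ∀ (a : ℕ), Real.exp (-(a * (L * l / 50))) = 1 / y ^ a := by
    intro a
    rw [Real.exp_neg, hyE, ← Real.exp_nat_mul, one_div]
  have hLsq : Real.exp (2 * Real.log L) = L ^ 2 := by
    rw [two_mul, Real.exp_add, Real.exp_log hL0]
    ring
  have hfac : ∀ j : ℕ, 11 * S ≤ 20 * j → j + 1 ≤ S → ((j : ℝ) + 1) * n * (1 - p) ^ j ≤ 1 := by
    intro j hj1 hj2
    have h3 : 11 * (S : ℝ) ≤ 20 * j := by exact_mod_cast hj1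
    have h4 : (j : ℝ) + 1 ≤ S := by exact_mod_cast hj2
    have h5 : (1 - p) ^ j ≤ L ^ 2 * (1 / y ^ 55) := by
      rw [hqj, ← hLsq, ← hpow, ← Real.exp_add]
      apply Real.exp_le_exp.mpr
      push_cast
      have h6 : 11 / 20 * (S * l) ≤ j * l := by nlinarith
      nlinarith
    calc ((j : ℝ) + 1) * n * (1 - p) ^ j ≤ (2 * L) * y ^ 50 * (L ^ 2 * (1 / y ^ 55)) := by
          rw [← hy50]
          gcongr
          linarith
      _ = 2 * L ^ 3 / y ^ 5 := by field_simp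
      _ ≤ y / y ^ 5 := by
          gcongr
          calc 2 * L ^ 3 ≤ 2 * b * L ^ 3 := by
                have : 0 ≤ L ^ 3 := by positivity
                nlinarith
            _ ≤ y := hL3
      _ = 1 / y ^ 4 := by field_simp
      _ ≤ 1 := by
          rw [div_le_one (by positivity)]
          exact one_le_pow₀ hy1
  have hlast : ∀ j : ℕ, 19 * S ≤ 20 * (j + 1) → j + 1 ≤ S →
      ((j : ℝ) + 1) * n * (1 - p) ^ j ≤ 1 / y ^ 44 := by
    intro j hj1 hj2
    have h3 : 19 * (S : ℝ) ≤ 20 * (j + 1) := by exact_mod_cast hj1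
    have h4 : (j : ℝ) + 1 ≤ S := by exact_mod_cast hj2
    have h5 : (1 - p) ^ j ≤ b * (L ^ 2 * (1 / y ^ 95)) := by
      rw [hqj, ← hLsq, ← hpow, ← Real.exp_add, hbe, ← Real.exp_add]
      apply Real.exp_le_exp.mpr
      push_cast
      have h6 : 19 / 20 * (S * l) ≤ (j + 1) * l := by nlinarith
      nlinarith
    calc ((j : ℝ) + 1) * n * (1 - p) ^ j ≤ (2 * L) * y ^ 50 * (b * (L ^ 2 * (1 / y ^ 95))) := by
          rw [← hy50]
          gcongr
          linarith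
      _ = 2 * b * L ^ 3 / y ^ 45 := by field_simp
      _ ≤ y / y ^ 45 := by gcongr
      _ = 1 / y ^ 44 := by field_simp
  have hone : ∀ v c : ℕ, c ≤ v → v ≤ S → rz S < c → rt p n v c ≤ 1 := by
    intro v c hcv
    induction v, hcv using Nat.le_induction with
    | base =>
      intro _ _
      exact (rat_self h1 hn' c).le
    | succ v hcv ih =>
      intro hvS hc
      have h3 := ih (by omega) hc
      have h4 : 11 * S ≤ 20 * v := by
        unfold rz at hc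
        omega
      have h5 := hfac v h4 hvS
      have h6 : Real.sqrt (((v : ℝ) + 1) * n * (1 - p) ^ v) ≤ 1 :=
        (Real.sqrt_le_sqrt h5).trans Real.sqrt_one.le
      have h7 : 0 ≤ rt p n v c := by
        unfold rt
        positivity
      calc rt p n (v + 1) c ≤ rt p n v c * Real.sqrt ((v + 1) * n * (1 - p) ^ v) :=
            rat_step h1 hn' hcv
        _ ≤ 1 * 1 := by gcongr
        _ = 1 := by norm_num
  intro v c hcv hvS hc
  refine ⟨hone v c hcv hvS hc, fun hlt h19 => ?_⟩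
  obtain ⟨w, rfl⟩ : ∃ w, v = w + 1 := ⟨v - 1, by omega⟩
  have h3 := hone w c (by omega) (by omega) hc
  have h5 := hlast w h19 hvS
  have h6 : Real.sqrt (((w : ℝ) + 1) * n * (1 - p) ^ w) ≤ 1 / y ^ 22 := by
    rw [Real.sqrt_le_left (by positivity)]
    calc ((w : ℝ) + 1) * n * (1 - p) ^ w ≤ 1 / y ^ 44 := h5
      _ = (1 / y ^ 22) ^ 2 := by
          rw [div_pow, ← pow_mul]
          norm_num
  have h7 : 0 ≤ rt p n w c := by
    unfold rt
    positivity
  rw [hgoal]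
  calc rt p n (w + 1) c ≤ rt p n w c * Real.sqrt ((w + 1) * n * (1 - p) ^ w) :=
        rat_step h1 hn' (by omega)
    _ ≤ 1 * (1 / y ^ 22) := by gcongr
    _ = 1 / y ^ 22 := by rw [one_mul]

end Pool.Agent.CHP
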