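import Pool.Agent.CHP.Defs

/-!
# CHP / SmA: small overlaps of one set with a family of disjoint sets

PROOF.  Put `m = R.card`, `A' i = A i ∩ R`; for `J ⊆ R`, `A i ∩ J = A' i ∩ J`.  Let `g ∅ = 1`, `g C = θ b^C(|C|,2)` if `2 ≤ |C| ≤ r0` and
`g C = 0` for the other `C`.
1. Pointwise `om θ b r0 (A i ∩ J).card ≤ ∑ C ∈ (A' i).powerset, if C ⊆ J then g C else 0` (the term `C = ∅` is `1`, and if
`2 ≤ |A' i ∩ J| ≤ r0` the term `C = A' i ∩ J` is the value; all terms are nonnegative: `Finset.single_le_sum`).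
2. `∏ i, ∑ C ∈ (A' i).powerset, f i C = ∑ C ∈ Fintype.piFinset (fun i => (A' i).powerset), ∏ i, f i (C i)` (`Finset.prod_univ_sum`).
With `f i C = if C ⊆ J then g C else 0` the product is `if (∀ i, C i ⊆ J) then ∏ g (C i) else 0`.
3. Exchange the sums.  For fixed `C` (pairwise disjoint subsets of `R`), `c = ∑ |C i| = |∪ C i|`: the number of `J ∈ R.powersetCard l`
containing `U = ∪ C i` is `0` if `c > l`, and else `≤ C(m - c, l - c)` (injection `J ↦ J \ U` into `(R \ U).powersetCard (l - c)`), which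
is `≤ C(m, l) (l / m)^c` for `c ≤ l ≤ m` (induction on `c`: `C(m-1, l-1) = C(m,l) l/m`, and `(l-1)/(m-1) ≤ l/m`; or see
`Pool.Agent.CHV.choose_ratio` in CHV/Dlt, whose proof is similar).  If `l > m` the left side is an empty sum.
4. So the left side is `≤ C(m,l) ∑ C ∈ piFinset, ∏ i, g (C i) (l/m)^|C i| = C(m,l) ∏ i, ∑ C ∈ (A' i).powerset, g C (l/m)^|C|`
(`Finset.prod_univ_sum` backwards).
5. `∑ C ∈ (A' i).powerset, g C (l/m)^|C| = 1 + ∑ r ∈ Icc 2 r0, C(|A' i|, r) θ b^C(r,2) (l/m)^r`
(`≤` suffices; group by `|C|`: `Finset.sum_powerset`/`Finset.sum_powerset_apply_card`: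
`∑ C ∈ x.powerset, f C.card = ∑ m ∈ range (x.card + 1), x.card.choose m • f m`), and `C(a, r) ≤ a S^(r-1)` for `a ≤ S`
(`Nat.choose_le_pow`-like: `C(a,r) ≤ a^r`), `(l/m)^r ≤ (S/m)^r`, `S^(r-1) S^r ≤ S^(2r)` (also if `S = 0`), so it is
`≤ 1 + |A' i| θ Σ ≤ exp (|A' i| θ Σ)` with `Σ = ∑ r ∈ Icc 2 r0, (S^2/m)^r b^C(r,2)` (`Real.add_one_le_exp`).
6. `∏ i, exp = exp (∑)` and `∑ i, |A' i| ≤ m` (disjoint subsets of `R`: `Finset.card_biUnion`, `Finset.card_le_card`).
-/

set_option autoImplicit false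

namespace Pool.Agent.CHP

open Finset Pool.Agent.CHV

variable {n : ℕ} {ι : Type} [Fintype ι] [DecidableEq ι]

/-- The weight of a set of the expansion. -/
private noncomputable def sg (θ b : ℝ) (r0 k : ℕ) : ℝ :=
  if k = 0 then 1 else if 2 ≤ k ∧ k ≤ r0 then θ * b ^ (k.choose 2) else 0

private theorem sg_nonneg {θ b : ℝ} (hθ : 1 ≤ θ) (hb : 1 ≤ b) (r0 k : ℕ) : 0 ≤ sg θ b r0 k := by
  unfold sg
  split_ifs
  · norm_num
  · positivity
  · exact le_refl _

private theorem om_le {θ b : ℝ} (hθ : 1 ≤ θ) (hb : 1 ≤ b) (r0 : ℕ) (B R J : Finset (Fin n))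
    (hJ : J ⊆ R) :
    om θ b r0 (B ∩ J).card ≤ ∑ C ∈ (B ∩ R).powerset, if C ⊆ J then sg θ b r0 C.card else 0 := by
  have hnn : ∀ C ∈ (B ∩ R).powerset, 0 ≤ (if C ⊆ J then sg θ b r0 C.card else 0 : ℝ) := by
    intro C _
    split_ifs
    · exact sg_nonneg hθ hb _ _
    · exact le_refl _
  by_cases h : 2 ≤ (B ∩ J).card ∧ (B ∩ J).card ≤ r0
  · have hmem : B ∩ J ∈ (B ∩ R).powerset :=
      Finset.mem_powerset.2 (Finset.inter_subset_inter_left hJ)
    refine le_trans (le_of_eq ?_) (Finset.single_le_sum hnn hmem)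
    rw [if_pos Finset.inter_subset_right]
    unfold om sg
    rw [if_pos h, if_neg (by omega), if_pos h]
  · have hmem : (∅ : Finset (Fin n)) ∈ (B ∩ R).powerset := Finset.empty_mem_powerset _
    refine le_trans (le_of_eq ?_) (Finset.single_le_sum hnn hmem)
    rw [if_pos (Finset.empty_subset _)]
    unfold om sg
    rw [if_neg h, Finset.card_empty, if_pos rfl]

private theorem ch_ratio {m l c : ℕ} (hc : c ≤ l) (hl : l ≤ m) (hm : 0 < m) :
    ((m - c).choose (l - c) : ℝ) ≤ (m.choose l : ℝ) * ((l : ℝ) / m) ^ c := by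
  have hm' : (0 : ℝ) < m := by exact_mod_cast hm
  induction c with
  | zero => simp
  | succ j ih =>
    have ih' := ih (by omega)
    have h2 : (m - j).choose (l - j) * (l - j) = (m - j) * (m - (j + 1)).choose (l - (j + 1)) := by
      have h3 := Nat.add_one_mul_choose_eq (m - (j + 1)) (l - (j + 1))
      have e1 : m - (j + 1) + 1 = m - j := by omega
      have e2 : l - (j + 1) + 1 = l - j := by omega
      rw [e1, e2] at h3
      exact h3.symm
    have hmj : (0 : ℝ) < ((m - j : ℕ) : ℝ) := by exact_mod_cast (by omega : 0 < m - j)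
    have h4 : ((m - (j + 1)).choose (l - (j + 1)) : ℝ) =
        ((m - j).choose (l - j) : ℝ) * (((l - j : ℕ) : ℝ) / ((m - j : ℕ) : ℝ)) := by
      rw [mul_div_assoc', eq_div_iff hmj.ne']
      have : ((m - j).choose (l - j) : ℝ) * ((l - j : ℕ) : ℝ) =
          ((m - j : ℕ) : ℝ) * ((m - (j + 1)).choose (l - (j + 1)) : ℝ) := by exact_mod_cast h2
      rw [this]
      ring
    have h5 : (((l - j : ℕ) : ℝ) / ((m - j : ℕ) : ℝ)) ≤ (l : ℝ) / m := by
      rw [div_le_div_iff₀ hmj hm', Nat.cast_sub (by omega), Nat.cast_sub (by omega)]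
      have h6 : (l : ℝ) ≤ m := by exact_mod_cast hl
      have h7 : (0 : ℝ) ≤ j := Nat.cast_nonneg _
      nlinarith
    rw [h4, pow_succ, ← mul_assoc]
    exact mul_le_mul ih' h5 (by positivity) (by positivity)

private theorem cnt_le (R U : Finset (Fin n)) (hR : 0 < R.card) (l : ℕ) (hl : l ≤ R.card)
    (hU : U ⊆ R) :
    (((R.powersetCard l).filter (fun J => U ⊆ J)).card : ℝ) ≤
      (R.card.choose l : ℝ) * ((l : ℝ) / R.card) ^ U.card := by
  by_cases hc : U.card ≤ l
  · refine le_trans ?_ (ch_ratio hc hl hR)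
    have h1 : ((R.powersetCard l).filter (fun J => U ⊆ J)).card ≤
        ((R \ U).powersetCard (l - U.card)).card := by
      refine Finset.card_le_card_of_injOn (fun J => J \ U) ?_ ?_
      · intro J hJ
        have hJ' := Finset.mem_filter.1 (Finset.mem_coe.1 hJ)
        have hJ1 := Finset.mem_powersetCard.1 hJ'.1
        rw [Finset.mem_coe, Finset.mem_powersetCard]
        exact ⟨Finset.sdiff_subset_sdiff hJ1.1 (Finset.Subset.refl _), by
          rw [Finset.card_sdiff_of_subset hJ'.2, hJ1.2]⟩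
      · intro J hJ J' hJ' he
        have h1 := (Finset.mem_filter.1 (Finset.mem_coe.1 hJ)).2
        have h2 := (Finset.mem_filter.1 (Finset.mem_coe.1 hJ')).2
        have he' : J \ U = J' \ U := he
        rw [← Finset.sdiff_union_of_subset h1, ← Finset.sdiff_union_of_subset h2, he']
    rw [Finset.card_powersetCard, Finset.card_sdiff_of_subset hU] at h1
    exact_mod_cast h1
  · have h1 : (R.powersetCard l).filter (fun J => U ⊆ J) = ∅ := by
      rw [Finset.filter_eq_empty_iff]
      intro J hJ hUJ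
      have hJ1 := Finset.mem_powersetCard.1 hJ
      have h2 := Finset.card_le_card hUJ
      omega
    rw [h1, Finset.card_empty, Nat.cast_zero]
    positivity

private theorem one_le {θ b : ℝ} (hθ : 1 ≤ θ) (hb : 1 ≤ b) (r0 S l m : ℕ) (hl : l ≤ S)
    (hm : 0 < m) (B : Finset (Fin n)) (hB : B.card ≤ S) :
    ∑ C ∈ B.powerset, sg θ b r0 C.card * ((l : ℝ) / m) ^ C.card ≤
      Real.exp ((B.card : ℝ) * (θ * ∑ r ∈ Icc 2 r0, ((S : ℝ) ^ 2 / m) ^ r * b ^ (r.choose 2))) := by
  have hm' : (0 : ℝ) < m := by exact_mod_cast hm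
  refine le_trans ?_ (Real.add_one_le_exp _)
  rw [Finset.sum_powerset_apply_card (fun k => sg θ b r0 k * ((l : ℝ) / m) ^ k)]
  have hpt : ∀ k ∈ Finset.range (B.card + 1),
      (B.card.choose k) • (sg θ b r0 k * ((l : ℝ) / m) ^ k) ≤
        (if k = 0 then 1 else 0) + (if k ∈ Icc 2 r0 then
          (B.card : ℝ) * (θ * (((S : ℝ) ^ 2 / m) ^ k * b ^ (k.choose 2))) else 0) := by
    intro k _
    rw [nsmul_eq_mul]
    by_cases h0 : k = 0
    · subst h0
      simp [sg]
    · by_cases hk : 2 ≤ k ∧ k ≤ r0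
      · rw [if_neg h0, if_pos (Finset.mem_Icc.2 hk), zero_add]
        unfold sg
        rw [if_neg h0, if_pos hk]
        have h1 : ((B.card.choose k : ℕ) : ℝ) * ((l : ℝ) / m) ^ k ≤
            (B.card : ℝ) * ((S : ℝ) ^ 2 / m) ^ k := by
          by_cases hB0 : B.card = 0
          · rw [hB0, Nat.choose_eq_zero_of_lt (by omega)]
            simp
          · have hS : 1 ≤ S := by omega
            have hS' : (1 : ℝ) ≤ S := by exact_mod_cast hS
            have h2 : ((B.card.choose k : ℕ) : ℝ) ≤ (B.card : ℝ) * (S : ℝ) ^ (k - 1) := by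
              have h3 : B.card.choose k ≤ B.card ^ k := Nat.choose_le_pow _ _
              have h4 : B.card ^ k = B.card * B.card ^ (k - 1) := by
                conv_lhs => rw [show k = (k - 1) + 1 by omega]
                rw [pow_succ]
                ring
              have h5 : B.card * B.card ^ (k - 1) ≤ B.card * S ^ (k - 1) :=
                Nat.mul_le_mul_left _ (Nat.pow_le_pow_left hB _)
              have h6 : B.card.choose k ≤ B.card * S ^ (k - 1) := by
                rw [h4] at h3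
                exact h3.trans h5
              exact_mod_cast h6
            have h7 : ((l : ℝ) / m) ^ k ≤ ((S : ℝ) / m) ^ k := by
              refine pow_le_pow_left₀ (by positivity) ?_ k
              exact div_le_div_of_nonneg_right (by exact_mod_cast hl) hm'.le
            calc ((B.card.choose k : ℕ) : ℝ) * ((l : ℝ) / m) ^ k
                ≤ ((B.card : ℝ) * (S : ℝ) ^ (k - 1)) * ((S : ℝ) / m) ^ k :=
                  mul_le_mul h2 h7 (by positivity) (by positivity)
              _ ≤ ((B.card : ℝ) * (S : ℝ) ^ k) * ((S : ℝ) / m) ^ k := by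
                  refine mul_le_mul_of_nonneg_right (mul_le_mul_of_nonneg_left ?_
                    (Nat.cast_nonneg _)) (by positivity)
                  exact pow_le_pow_right₀ hS' (by omega)
              _ = (B.card : ℝ) * ((S : ℝ) ^ 2 / m) ^ k := by
                  rw [mul_assoc, ← mul_pow]
                  congr 2
                  ring
        calc ((B.card.choose k : ℕ) : ℝ) * (θ * b ^ (k.choose 2) * ((l : ℝ) / m) ^ k)
            = (((B.card.choose k : ℕ) : ℝ) * ((l : ℝ) / m) ^ k) * (θ * b ^ (k.choose 2)) := by ring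
          _ ≤ ((B.card : ℝ) * ((S : ℝ) ^ 2 / m) ^ k) * (θ * b ^ (k.choose 2)) :=
              mul_le_mul_of_nonneg_right h1 (by positivity)
          _ = _ := by ring
      · rw [if_neg h0, if_neg (fun h => hk (Finset.mem_Icc.1 h))]
        unfold sg
        rw [if_neg h0, if_neg hk]
        simp
  refine le_trans (Finset.sum_le_sum hpt) ?_
  rw [Finset.sum_add_distrib, add_comm]
  refine add_le_add ?_ ?_
  · rw [← Finset.sum_filter]
    refine le_trans (Finset.sum_le_sum_of_subset_of_nonneg (t := Icc 2 r0) ?_ ?_) ?_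
    · intro k hk
      exact (Finset.mem_filter.1 hk).2
    · intro k _ _
      positivity
    · rw [Finset.mul_sum, Finset.mul_sum]
  · rw [Finset.sum_ite_eq' (Finset.range (B.card + 1)) 0 (fun _ => (1 : ℝ))]
    split_ifs
    · exact le_refl _
    · norm_num

theorem small_sum (A : ι → Finset (Fin n)) (hA : ∀ i j, i ≠ j → Disjoint (A i) (A j))
    (S r0 : ℕ) (hS : ∀ i, (A i).card ≤ S) (θ b : ℝ) (hθ : 1 ≤ θ) (hb : 1 ≤ b)
    (R : Finset (Fin n)) (hR : 0 < R.card) (l : ℕ) (hl : l ≤ S) :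
    ∑ J ∈ R.powersetCard l, ∏ i, om θ b r0 (A i ∩ J).card ≤
      (R.card.choose l : ℝ) * Real.exp (θ * R.card *
        ∑ r ∈ Icc 2 r0, ((S : ℝ) ^ 2 / R.card) ^ r * b ^ (r.choose 2)) := by
  classical
  have hR' : (0 : ℝ) < R.card := by exact_mod_cast hR
  by_cases hlR : l ≤ R.card
  swap
  · rw [Finset.powersetCard_eq_empty.2 (by omega), Finset.sum_empty]
    positivity
  set Sg : ℝ := ∑ r ∈ Icc 2 r0, ((S : ℝ) ^ 2 / R.card) ^ r * b ^ (r.choose 2) with hSg
  have hSg0 : 0 ≤ Sg := Finset.sum_nonneg fun r _ => by positivity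
  have hom0 : ∀ r, 0 ≤ om θ b r0 r := by
    intro r
    unfold om
    split_ifs
    · positivity
    · norm_num
  -- steps 1 and 2
  have h1 : ∀ J ∈ R.powersetCard l, ∏ i, om θ b r0 (A i ∩ J).card ≤
      ∑ C ∈ Fintype.piFinset (fun i => (A i ∩ R).powerset),
        if ∀ i, C i ⊆ J then ∏ i, sg θ b r0 (C i).card else 0 := by
    intro J hJ
    have hJR := (Finset.mem_powersetCard.1 hJ).1
    refine le_trans (Finset.prod_le_prod (fun i _ => hom0 _)
      fun i _ => om_le hθ hb r0 (A i) R J hJR) ?_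
    rw [Finset.prod_univ_sum]
    refine le_of_eq (Finset.sum_congr rfl fun C _ => ?_)
    rw [Finset.prod_ite_zero]
    simp
  refine le_trans (Finset.sum_le_sum h1) ?_
  rw [Finset.sum_comm]
  -- step 3
  have h3 : ∀ C ∈ Fintype.piFinset (fun i => (A i ∩ R).powerset),
      (∑ J ∈ R.powersetCard l, if ∀ i, C i ⊆ J then ∏ i, sg θ b r0 (C i).card else 0) ≤
        (R.card.choose l : ℝ) * ∏ i, (sg θ b r0 (C i).card * ((l : ℝ) / R.card) ^ (C i).card) := by
    intro C hC
    have hC' : ∀ i, C i ⊆ A i ∩ R := fun i => Finset.mem_powerset.1 (Fintype.mem_piFinset.1 hC i)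
    have hg0 : 0 ≤ ∏ i, sg θ b r0 (C i).card := Finset.prod_nonneg fun i _ => sg_nonneg hθ hb _ _
    have hdis : ∀ i ∈ (univ : Finset ι), ∀ j ∈ (univ : Finset ι), i ≠ j →
        Disjoint (C i) (C j) := by
      intro i _ j _ hij
      exact Finset.disjoint_of_subset_left ((hC' i).trans Finset.inter_subset_left)
        (Finset.disjoint_of_subset_right ((hC' j).trans Finset.inter_subset_left) (hA i j hij))
    have hU : (univ.biUnion C).card = ∑ i, (C i).card := Finset.card_biUnion hdis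
    have hUR : univ.biUnion C ⊆ R :=
      Finset.biUnion_subset.2 fun i _ => (hC' i).trans Finset.inter_subset_right
    rw [← Finset.sum_filter, Finset.sum_const, nsmul_eq_mul]
    have hfil : (R.powersetCard l).filter (fun J => ∀ i, C i ⊆ J) =
        (R.powersetCard l).filter (fun J => univ.biUnion C ⊆ J) := by
      refine Finset.filter_congr fun J _ => ?_
      rw [Finset.biUnion_subset]
      simp
    rw [hfil, Finset.prod_mul_distrib, Finset.prod_pow_eq_pow_sum, ← hU]
    have h4 := cnt_le R (univ.biUnion C) hR l hlR hUR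
    calc (((R.powersetCard l).filter (fun J => univ.biUnion C ⊆ J)).card : ℝ) *
          ∏ i, sg θ b r0 (C i).card
        ≤ ((R.card.choose l : ℝ) * ((l : ℝ) / R.card) ^ (univ.biUnion C).card) *
          ∏ i, sg θ b r0 (C i).card := mul_le_mul_of_nonneg_right h4 hg0
      _ = _ := by ring
  refine le_trans (Finset.sum_le_sum h3) ?_
  rw [← Finset.mul_sum]
  refine mul_le_mul_of_nonneg_left ?_ (Nat.cast_nonneg _)
  have h44 := Finset.prod_univ_sum (fun i => (A i ∩ R).powerset)
    (fun (_ : ι) (C : Finset (Fin n)) => sg θ b r0 C.card * ((l : ℝ) / R.card) ^ C.card)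
  rw [← h44]
  -- step 5
  have h5 : ∀ i, ∑ C ∈ (A i ∩ R).powerset, sg θ b r0 C.card * ((l : ℝ) / R.card) ^ C.card ≤
      Real.exp (((A i ∩ R).card : ℝ) * (θ * Sg)) := fun i =>
    one_le hθ hb r0 S l R.card hl hR (A i ∩ R)
      ((Finset.card_le_card Finset.inter_subset_left).trans (hS i))
  refine le_trans (Finset.prod_le_prod (fun i _ => Finset.sum_nonneg fun C _ =>
    mul_nonneg (sg_nonneg hθ hb _ _) (by positivity)) fun i _ => h5 i) ?_
  rw [← Real.exp_sum, ← Finset.sum_mul]
  refine Real.exp_le_exp.2 ?_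
  have h6 : ∑ i, (A i ∩ R).card ≤ R.card := by
    rw [← Finset.card_biUnion (s := univ) (t := fun i => A i ∩ R)]
    · exact Finset.card_le_card (Finset.biUnion_subset.2 fun i _ => Finset.inter_subset_right)
    · intro i _ j _ hij
      exact Finset.disjoint_of_subset_left Finset.inter_subset_left
        (Finset.disjoint_of_subset_right Finset.inter_subset_left (hA i j hij))
  have h7 : (∑ i, ((A i ∩ R).card : ℝ)) ≤ R.card := by exact_mod_cast h6
  have hθ0 : 0 ≤ θ * Sg := mul_nonneg (by linarith) hSg0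
  calc (∑ i, ((A i ∩ R).card : ℝ)) * (θ * Sg) ≤ R.card * (θ * Sg) :=
        mul_le_mul_of_nonneg_right h7 hθ0
    _ = _ := by ring

end Pool.Agent.CHP
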