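import Pool.Agent.CHP.Defs
import Pool.Agent.CHV.Par
import Pool.Agent.CHV.Sml

/-!
# CHP / SmB: crude and asymptotic bounds for the weights of small overlaps

PROOFS.  `om_pow`: for `r ≤ 1` `om = 1 ≤ (θ b^S)^r` (`one_le_pow₀`).  For `r ≥ 2`: `om ≤ θ b^C(r,2)` (or `om = 1 ≤ ` it), `θ ≤ θ^r`,
`b^C(r,2) ≤ b^(S r)` since `C(r,2) ≤ r * r ≤ S r` (`Nat.choose_two_right`), `(θ b^S)^r = θ^r b^(S r)`.
`one_le_om`: both cases.
`om_prod`: `∏ i, om ≤ ∏ i, (θ b^S)^|A i ∩ J| = (θ b^S)^(∑ i, |A i ∩ J|)` and `∑ i, |A i ∩ J| ≤ |J|` (disjoint subsets of `J`).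
`delta_small`: `b = 1/(1-p)`, `S = SS p K n ≤ 2 L`, `L = LL p n`, `log n = (log b) L`, `r0 = rz S = 11 S / 20 + 1`.  Put `X = S^2 / m`,
`n^g ≤ m ≤ n`, `3/5 ≤ g`, so `X ≤ 4 L^2 n^(-3/5)`.  The sum has at most `S` terms (`r0 ≤ S` for large `n`).
  * `2 ≤ r ≤ S / 4`: `b^r ≤ b^(S/4) ≤ n^(1/2)`, so `X b^r ≤ 1` for large `n` (`LL_pow_le`) and `sml_term_le` (CHV/Sml) gives
    `X^r b^C(r,2) ≤ X^2 b`; times `m`: `m X^2 b = S^4 b / m ≤ 16 L^4 b n^(-3/5)`.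
  * `S / 4 < r ≤ r0`: `C(r,2) = r (r-1)/2 ≤ r (11/40) S`, as `r - 1 ≤ 11 S / 20`, so
    `X^r b^C(r,2) = (X b^((r-1)/2))^r ≤ (4 L^2 n^(-3/5) n^(11/20))^r = (4 L^2 n^(-1/20))^r ≤ (n^(-1/40))^r ≤ n^(-r/40)` and for large `n`
    `r > S/4 ≥ L/4 ≥ 80` (`SS_ge`, `tendsto_LL`), so the term is `≤ n^(-2)` and times `m ≤ n` at most `n^(-1)`.
  Sum: `3 (2 L) (16 L^4 b n^(-3/5) + n^(-1)) ≤ n^(-1/2)` for large `n` (`LL_pow_le` for `L^5 ≤ n^(1/40)` etc.).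
  All the large `n` conditions must be independent of `m`: they are, because only `n^(3/5) ≤ m ≤ n` is used (`n^(3/5) ≤ n^g`).
  (Real powers `b^((r-1)/2)`: work with squares or with logarithms: it is convenient to write the term as
  `exp (r log X + C(r,2) log b)`.)
-/

set_option autoImplicit false

namespace Pool.Agent.CHP

open Finset Filter Pool.Agent.CHV

variable {n : ℕ} {ι : Type} [Fintype ι] [DecidableEq ι]

theorem one_le_om {θ b : ℝ} (hθ : 1 ≤ θ) (hb : 1 ≤ b) (r0 r : ℕ) : 1 ≤ om θ b r0 r := by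
  unfold om
  split_ifs
  · exact one_le_mul_of_one_le_of_one_le hθ (one_le_pow₀ hb)
  · exact le_refl _

theorem om_pow {θ b : ℝ} (hθ : 1 ≤ θ) (hb : 1 ≤ b) {S r0 r : ℕ} (hr : r ≤ S) :
    om θ b r0 r ≤ (θ * b ^ S) ^ r := by
  unfold om
  split_ifs with h
  · rw [mul_pow, ← pow_mul]
    have h1 : θ ≤ θ ^ r := le_self_pow₀ hθ (by omega)
    have h2 : b ^ (r.choose 2) ≤ b ^ (S * r) := by
      apply pow_le_pow_right₀ hb
      calc r.choose 2 ≤ r ^ 2 := Nat.choose_le_pow r 2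
        _ = r * r := by ring
        _ ≤ S * r := Nat.mul_le_mul_right r hr
    have h3 : 0 ≤ b ^ (r.choose 2) := by positivity
    have h4 : 0 ≤ θ ^ r := by positivity
    exact mul_le_mul h1 h2 h3 h4
  · apply one_le_pow₀
    exact one_le_mul_of_one_le_of_one_le hθ (one_le_pow₀ hb)

theorem om_prod (A : ι → Finset (Fin n)) (hA : ∀ i j, i ≠ j → Disjoint (A i) (A j))
    {S r0 : ℕ} (hS : ∀ i, (A i).card ≤ S) {θ b : ℝ} (hθ : 1 ≤ θ) (hb : 1 ≤ b)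
    (J : Finset (Fin n)) :
    ∏ i, om θ b r0 (A i ∩ J).card ≤ (θ * b ^ S) ^ J.card := by
  have h1 : ∑ i, (A i ∩ J).card ≤ J.card := by
    rw [← Finset.card_biUnion]
    · apply Finset.card_le_card
      intro x hx
      rw [Finset.mem_biUnion] at hx
      obtain ⟨i, _, hi⟩ := hx
      exact (Finset.mem_inter.mp hi).2
    · intro i _ j _ hij
      exact Finset.disjoint_of_subset_left Finset.inter_subset_left
        (Finset.disjoint_of_subset_right Finset.inter_subset_left (hA i j hij))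
  have h2 : 1 ≤ θ * b ^ S := one_le_mul_of_one_le_of_one_le hθ (one_le_pow₀ hb)
  calc ∏ i, om θ b r0 (A i ∩ J).card ≤ ∏ i, (θ * b ^ S) ^ (A i ∩ J).card := by
        apply Finset.prod_le_prod
        · intro i _
          linarith [one_le_om hθ hb r0 (A i ∩ J).card]
        · intro i _
          exact om_pow hθ hb ((Finset.card_le_card Finset.inter_subset_left).trans (hS i))
    _ = (θ * b ^ S) ^ (∑ i, (A i ∩ J).card) := Finset.prod_pow_eq_pow_sum _ _ _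
    _ ≤ (θ * b ^ S) ^ J.card := pow_le_pow_right₀ h2 h1

private theorem smb_term {b l y L mr : ℝ} {S r : ℕ} (hl : 0 < l) (hb1 : 1 ≤ b)
    (hbe : b = Real.exp l) (hyE : y = Real.exp (L * l / 40)) (hy2 : 2 ≤ y)
    (hL : 320 ≤ L) (hS2 : (S : ℝ) ≤ 2 * L) (hSL : L ≤ S) (hLy : 4 * L ^ 2 ≤ y)
    (hm1 : y ^ 24 ≤ mr) (hm2 : mr ≤ y ^ 40) (h2 : 2 ≤ r) (hr : 20 * r ≤ 11 * S + 20) :
    mr * (((S : ℝ) ^ 2 / mr) ^ r * b ^ (r.choose 2)) ≤ 16 * L ^ 4 * b / y ^ 24 + 1 / y ^ 40 := by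
  have hy0 : 0 < y := by linarith
  have hm0 : 0 < mr := lt_of_lt_of_le (by positivity) hm1
  have hb0 : 0 < b := by linarith
  have hS0 : (0 : ℝ) ≤ S := Nat.cast_nonneg _
  have hX0 : 0 ≤ (S : ℝ) ^ 2 / mr := by positivity
  have hX : (S : ℝ) ^ 2 / mr ≤ y / y ^ 24 := by
    calc (S : ℝ) ^ 2 / mr ≤ (2 * L) ^ 2 / y ^ 24 := by gcongr
      _ = 4 * L ^ 2 / y ^ 24 := by ring
      _ ≤ y / y ^ 24 := by gcongr
  by_cases hc : 4 * r ≤ S
  · -- small overlaps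
    have hcr : 4 * (r : ℝ) ≤ S := by exact_mod_cast hc
    have hbr : b ^ r ≤ y ^ 20 := by
      rw [hbe, hyE, ← Real.exp_nat_mul, ← Real.exp_nat_mul]
      apply Real.exp_le_exp.mpr
      push_cast
      have h3 : (r : ℝ) ≤ L / 2 := by linarith
      calc (r : ℝ) * l ≤ L / 2 * l := by gcongr
        _ = 20 * (L * l / 40) := by ring
    have h3 : (S : ℝ) ^ 2 / mr * b ^ r ≤ 1 := by
      calc (S : ℝ) ^ 2 / mr * b ^ r ≤ y / y ^ 24 * y ^ 20 := by gcongr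
        _ = 1 / y ^ 3 := by field_simp
        _ ≤ 1 := by
          rw [div_le_one (by positivity)]
          exact one_le_pow₀ (by linarith)
    have h4 := sml_term_le hb1 hX0 h2 (le_refl r) h3
    have h5 : mr * (((S : ℝ) ^ 2 / mr) ^ 2 * b) = (S : ℝ) ^ 4 * b / mr := by
      field_simp
    have h6 : (S : ℝ) ^ 4 * b / mr ≤ 16 * L ^ 4 * b / y ^ 24 := by
      calc (S : ℝ) ^ 4 * b / mr ≤ (2 * L) ^ 4 * b / y ^ 24 := by gcongr
        _ = 16 * L ^ 4 * b / y ^ 24 := by ring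
    have h7 : 0 ≤ 1 / y ^ 40 := by positivity
    calc mr * (((S : ℝ) ^ 2 / mr) ^ r * b ^ (r.choose 2)) ≤ mr * (((S : ℝ) ^ 2 / mr) ^ 2 * b) := by
          gcongr
      _ = (S : ℝ) ^ 4 * b / mr := h5
      _ ≤ 16 * L ^ 4 * b / y ^ 24 + 1 / y ^ 40 := by linarith
  · -- large overlaps
    push Not at hc
    have hcr : (S : ℝ) < 4 * r := by exact_mod_cast hc
    have hr80 : 80 ≤ r := by
      have h3 : (80 : ℝ) ≤ r := by linarith
      exact_mod_cast h3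
    have hrr : 20 * (r : ℝ) ≤ 11 * S + 20 := by exact_mod_cast hr
    have hch : ((r.choose 2 : ℕ) : ℝ) ≤ 11 * r * L / 20 := by
      rw [Nat.cast_choose_two]
      have h3 : (r : ℝ) - 1 ≤ 11 * L / 10 := by linarith
      have h4 : (0 : ℝ) ≤ r := Nat.cast_nonneg _
      have h5 : (r : ℝ) * (r - 1) ≤ r * (11 * L / 10) := by gcongr
      linarith
    have hbc : b ^ (r.choose 2) ≤ (y ^ 22) ^ r := by
      rw [← pow_mul, hbe, hyE, ← Real.exp_nat_mul, ← Real.exp_nat_mul]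
      apply Real.exp_le_exp.mpr
      push_cast
      calc ((r.choose 2 : ℕ) : ℝ) * l ≤ 11 * r * L / 20 * l := by gcongr
        _ = 22 * r * (L * l / 40) := by ring
    have h3 : ((S : ℝ) ^ 2 / mr) ^ r * b ^ (r.choose 2) ≤ (1 / y) ^ r := by
      calc ((S : ℝ) ^ 2 / mr) ^ r * b ^ (r.choose 2) ≤ (y / y ^ 24) ^ r * (y ^ 22) ^ r := by
            gcongr
        _ = (1 / y) ^ r := by
          rw [← mul_pow]
          congr 1
          field_simp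
    have h4 : (1 / y) ^ r ≤ (1 / y) ^ 80 := by
      apply pow_le_pow_of_le_one (by positivity) _ hr80
      rw [div_le_one hy0]
      linarith
    have h5 : mr * (1 / y) ^ 80 ≤ 1 / y ^ 40 := by
      calc mr * (1 / y) ^ 80 ≤ y ^ 40 * (1 / y) ^ 80 := by gcongr
        _ = 1 / y ^ 40 := by field_simp
    have h6 : 0 ≤ 16 * L ^ 4 * b / y ^ 24 := by positivity
    calc mr * (((S : ℝ) ^ 2 / mr) ^ r * b ^ (r.choose 2)) ≤ mr * (1 / y) ^ 80 := by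
          apply mul_le_mul_of_nonneg_left (h3.trans h4) hm0.le
      _ ≤ 16 * L ^ 4 * b / y ^ 24 + 1 / y ^ 40 := by linarith

theorem delta_small {p : ℝ} (h0 : 0 < p) (h1 : p < 1) (K : ℕ) {g : ℝ} (hg : 3 / 5 ≤ g) :
    ∀ᶠ n : ℕ in atTop, ∀ m : ℕ, (n : ℝ) ^ g ≤ m → m ≤ n →
      3 * (m : ℝ) * ∑ r ∈ Icc 2 (rz (SS p K n)),
        ((SS p K n : ℝ) ^ 2 / m) ^ r * (1 / (1 - p)) ^ (r.choose 2) ≤
          (n : ℝ) ^ (-(1 / 2) : ℝ) := by
  have hl : 0 < -Real.log (1 - p) := ell_pos h0 h1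
  obtain ⟨b, hb⟩ : ∃ b, b = 1 / (1 - p) := ⟨_, rfl⟩
  have hq : 0 < 1 - p := by linarith
  have hb0 : 0 < b := by rw [hb]; positivity
  have hb1 : 1 ≤ b := by
    rw [hb, le_div_iff₀ hq]; linarith
  have hbe : b = Real.exp (-Real.log (1 - p)) := by
    rw [Real.exp_neg, Real.exp_log hq, hb, one_div]
  filter_upwards [SS_le h0 h1 K, SS_ge h0 h1 K, (tendsto_LL h0 h1).eventually_ge_atTop 320,
    LL_pow_le h0 h1 2 4 (c := 1 / 40) (by norm_num),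
    LL_pow_le h0 h1 5 (96 * b) (c := 1 / 40) (by norm_num),
    LL_pow_le h0 h1 1 6 (c := 1 / 40) (by norm_num),
    LL_pow_le h0 h1 0 2 (c := 1 / 40) (by norm_num), eventually_ge_atTop 2]
    with n hSle hSge hL hL2 hL5 hL1 hL0 hn
  intro m hm hmn
  have hn0 : (0 : ℝ) < n := by positivity
  have hn1 : (1 : ℝ) ≤ n := by exact_mod_cast (show 1 ≤ n by omega)
  have hlog : Real.log n = LL p n * (-Real.log (1 - p)) := by
    unfold LL; rw [div_mul_cancel₀ _ hl.ne']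
  obtain ⟨y, hy⟩ : ∃ y, y = (n : ℝ) ^ (1 / 40 : ℝ) := ⟨_, rfl⟩
  obtain ⟨L, hLd⟩ : ∃ L, L = LL p n := ⟨_, rfl⟩
  obtain ⟨l, hld⟩ : ∃ l, l = -Real.log (1 - p) := ⟨_, rfl⟩
  obtain ⟨S, hS⟩ : ∃ S, S = SS p K n := ⟨_, rfl⟩
  rw [← hy] at hL2 hL5 hL1 hL0
  rw [← hLd] at hSle hSge hL hL2 hL5 hL1 hL0 hlog
  rw [← hld] at hl hbe hlog
  rw [← hS] at hSle hSge
  rw [← hS, ← hb]
  have hyE : y = Real.exp (L * l / 40) := by
    rw [hy, Real.rpow_def_of_pos hn0, hlog]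
    congr 1
    ring
  have hy2 : 2 ≤ y := by
    rw [pow_zero, mul_one] at hL0
    exact hL0
  have hy0 : 0 < y := by linarith
  have hyp : ∀ j : ℕ, (n : ℝ) ^ ((j : ℝ) / 40) = y ^ j := by
    intro j
    rw [hy, ← Real.rpow_natCast, ← Real.rpow_mul hn0.le]
    congr 1
    ring
  have hy40 : y ^ 40 = n := by
    rw [← hyp 40]
    norm_num
  have hm1 : y ^ 24 ≤ m := by
    rw [← hyp 24]
    refine le_trans (Real.rpow_le_rpow_of_exponent_le hn1 ?_) hm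
    push_cast
    linarith
  have hm2 : (m : ℝ) ≤ y ^ 40 := by
    rw [hy40]
    exact_mod_cast hmn
  have hgoal : (n : ℝ) ^ (-(1 / 2) : ℝ) = 1 / y ^ 20 := by
    rw [Real.rpow_neg hn0.le, ← hyp 20, one_div]
    norm_num
  have hterm : ∀ r ∈ Icc 2 (rz S), (m : ℝ) * (((S : ℝ) ^ 2 / m) ^ r * b ^ (r.choose 2)) ≤
      16 * L ^ 4 * b / y ^ 24 + 1 / y ^ 40 := by
    intro r hr
    rw [mem_Icc] at hr
    have h3 : 20 * r ≤ 11 * S + 20 := by
      have h4 := hr.2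
      unfold rz at h4
      omega
    exact smb_term hl hb1 hbe hyE hy2 hL hSle hSge hL2 hm1 hm2 hr.1 h3
  have hB0 : 0 ≤ 16 * L ^ 4 * b / y ^ 24 + 1 / y ^ 40 := by positivity
  have hcard : ((Icc 2 (rz S)).card : ℝ) ≤ 2 * L := by
    have h3 : (Icc 2 (rz S)).card ≤ S := by
      rw [Nat.card_Icc]
      unfold rz
      omega
    have h4 : ((Icc 2 (rz S)).card : ℝ) ≤ S := by exact_mod_cast h3
    linarith
  have hsum : ∑ r ∈ Icc 2 (rz S), (m : ℝ) * (((S : ℝ) ^ 2 / m) ^ r * b ^ (r.choose 2)) ≤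
      2 * L * (16 * L ^ 4 * b / y ^ 24 + 1 / y ^ 40) := by
    refine (Finset.sum_le_card_nsmul _ _ _ hterm).trans ?_
    rw [nsmul_eq_mul]
    exact mul_le_mul_of_nonneg_right hcard hB0
  rw [hgoal, mul_assoc, Finset.mul_sum]
  have hL0' : 0 ≤ L := by linarith
  have e1 : 3 * (2 * L * (16 * L ^ 4 * b / y ^ 24 + 1 / y ^ 40)) =
      96 * b * L ^ 5 / y ^ 24 + 6 * L ^ 1 / y ^ 40 := by ring
  have e2 : 96 * b * L ^ 5 / y ^ 24 ≤ y / y ^ 24 := by gcongr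
  have e3 : 6 * L ^ 1 / y ^ 40 ≤ y / y ^ 40 := by gcongr
  have e4 : y / y ^ 24 = 1 / y ^ 3 * (1 / y ^ 20) := by field_simp
  have e5 : y / y ^ 40 = 1 / y ^ 19 * (1 / y ^ 20) := by field_simp
  have e6 : 1 / y ^ 3 ≤ 1 / 2 := by
    apply one_div_le_one_div_of_le (by norm_num)
    calc (2 : ℝ) ≤ y := hy2
      _ ≤ y ^ 3 := le_self_pow₀ (by linarith) (by norm_num)
  have e7 : 1 / y ^ 19 ≤ 1 / 2 := by
    apply one_div_le_one_div_of_le (by norm_num)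
    calc (2 : ℝ) ≤ y := hy2
      _ ≤ y ^ 19 := le_self_pow₀ (by linarith) (by norm_num)
  have e8 : 0 < 1 / y ^ 20 := by positivity
  have e9 : 1 / y ^ 3 * (1 / y ^ 20) ≤ 1 / 2 * (1 / y ^ 20) := by gcongr
  have e10 : 1 / y ^ 19 * (1 / y ^ 20) ≤ 1 / 2 * (1 / y ^ 20) := by gcongr
  calc 3 * ∑ r ∈ Icc 2 (rz S), (m : ℝ) * (((S : ℝ) ^ 2 / m) ^ r * b ^ (r.choose 2))
      ≤ 3 * (2 * L * (16 * L ^ 4 * b / y ^ 24 + 1 / y ^ 40)) := by gcongr
    _ ≤ 1 / y ^ 20 := by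
      rw [e1]
      linarith

end Pool.Agent.CHP
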