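import Pool.Agent.CHP.Defs

/-!
# CHP / SmL: the sum over the labels for a fixed set of indices

PROOF.  For `L` in the filter, `L i = none` for `i ∉ D` and `L i = some (v, c)` with `r0 < c ≤ a i`, `c ≤ v` for `i ∈ D`.  Put for `i ∈ D`
`f i o = 0` if `o = none`, and for `o = some (v, c)`: `0` unless `r0 < c ≤ a i`, `c ≤ v`; `1` if `v = u i = c`; and
`sqrt (exp 1 k / σ(u i)) R (u i) c R v c` otherwise, where `σ = prD u D`.  For `i ∉ D`, `f i none = 1`, `f i (some _) = 0`.  Then the sum is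
`∑ L, ∏ i, f i (L i) = ∏ i, ∑ o, f i o` (`Finset.prod_univ_sum`, `Fintype.piFinset_univ`) `= ∏ i ∈ D, ∑ o, f i o`.
For `i ∈ D` put `w i = sqrt (exp 1 k/σ(u i))`.  At most one `o` is exact (`v = u i = c`), and only if `u i = c ≤ a i`, i.e. `a i = u i`; every
other admissible `o = some (v,c)` has `c < u i` or (`c = u i < v`) (`c ≤ a i ≤ u i`, `c ≤ v`) so `R (u i) c * R v c ≤ 1` always (`hR1`;
`R ≥ 0`), and if `19 S ≤ 20 u i` it is `≤ ρ`: if `c < u i` by `hR2` for `R (u i) c`; if `c = u i < v` by `hR2` for `R v c`, as `19 S ≤ 20 v`.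
So `∑ o, f i o ≤ ex i + (S+1)^2 w i ρ_i`, with `ex i = 1` if `a i = u i` and `0` otherwise, `ρ_i = ρ` if `19 S ≤ 20 u i` and `1` otherwise.
Hence `∑ o, f i o ≤ Θ^(-[a i < u i]) (1 + Θ (S+1)^2 w i ρ_i)` (`Θ ≥ 1`).
Product over `i ∈ D`: `Θ^(-#{a i < u i})`; the factors with `20 u i < 19 S`: `w i ≤ sqrt (exp 1 * k) ≤ 2 sqrt k` (`σ(u i) ≥ 1`, `exp 1 ≤ 4`), each
`≤ 1 + 2 Θ (S+1)^2 sqrt k`; the other ones: `≤ exp (Θ (S+1)^2 ρ w i)` and
`∑_{i ∈ D} w i = ∑_{v ≤ S} σ v sqrt (exp 1 k/σ v) = ∑_v sqrt (exp 1 k σ v) ≤ (S+1) 2 k` (`σ v ≤ |D| ≤ k`; `Finset.sum_fiberwise_of_maps_to`).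
-/

set_option autoImplicit false

namespace Pool.Agent.CHP

open Finset Pool.Agent.CHV

variable {ι : Type} [Fintype ι] [DecidableEq ι]

/-- the factor of the index `i` -/
private noncomputable def fL {S : ℕ} (r0 : ℕ) (u a : ι → ℕ) (R : ℕ → ℕ → ℝ) (w : ι → ℝ) (D : Finset ι)
    (i : ι) (o : Lb S) : ℝ :=
  if i ∈ D then
    (if o.isSome = true ∧ r0 < lc o ∧ lc o ≤ a i ∧ lc o ≤ lv o then
      (if lv o = u i ∧ lc o = u i then 1 else w i * (R (u i) (lc o) * R (lv o) (lc o))) else 0)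
  else (if o.isSome = true then 0 else 1)

omit [Fintype ι] in
private theorem fL_nonneg {S : ℕ} (r0 : ℕ) (u a : ι → ℕ) (R : ℕ → ℕ → ℝ) (hR0 : ∀ v c, 0 ≤ R v c)
    (w : ι → ℝ) (hw : ∀ i, 0 ≤ w i) (D : Finset ι) (i : ι) (o : Lb S) :
    0 ≤ fL r0 u a R w D i o := by
  unfold fL
  split_ifs
  · exact zero_le_one
  · exact mul_nonneg (hw i) (mul_nonneg (hR0 _ _) (hR0 _ _))
  · exact le_rfl
  · exact le_rfl
  · exact zero_le_one

omit [Fintype ι] in
/-- for one index of `D` -/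
private theorem fL_some_le {S r0 : ℕ} (u a : ι → ℕ) (hau : ∀ i, a i ≤ u i) (hu : ∀ i, u i ≤ S)
    (R : ℕ → ℕ → ℝ) (hR0 : ∀ v c, 0 ≤ R v c) (ρ : ℝ) (hρ : 0 ≤ ρ)
    (hR1 : ∀ v c, c ≤ v → v ≤ S → r0 < c → R v c ≤ 1)
    (hR2 : ∀ v c, c < v → v ≤ S → r0 < c → 19 * S ≤ 20 * v → R v c ≤ ρ) (w : ι → ℝ)
    (hw : ∀ i, 0 ≤ w i) (D : Finset ι) (i : ι) (hi : i ∈ D) (q : Fin (S + 1) × Fin (S + 1)) :
    fL r0 u a R w D i (some q) ≤
      (if ((q.1 : ℕ) = u i ∧ (q.2 : ℕ) = u i) ∧ a i = u i then 1 else 0) +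
        w i * (if 19 * S ≤ 20 * u i then ρ else 1) := by
  have hrhs : 0 ≤ w i * (if 19 * S ≤ 20 * u i then ρ else 1) := by
    apply mul_nonneg (hw i)
    split_ifs
    · exact hρ
    · exact zero_le_one
  have hind : (0 : ℝ) ≤ (if ((q.1 : ℕ) = u i ∧ (q.2 : ℕ) = u i) ∧ a i = u i then 1 else 0) := by
    split_ifs
    · exact zero_le_one
    · exact le_rfl
  have hlv : lv (some q : Lb S) = q.1 := rfl
  have hlc : lc (some q : Lb S) = q.2 := rfl
  have hv : (q.1 : ℕ) ≤ S := Nat.lt_succ_iff.mp q.1.2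
  unfold fL
  rw [if_pos hi, hlv, hlc]
  by_cases h1 : (some q : Lb S).isSome = true ∧ r0 < (q.2 : ℕ) ∧ (q.2 : ℕ) ≤ a i ∧ (q.2 : ℕ) ≤ (q.1 : ℕ)
  · rw [if_pos h1]
    obtain ⟨_, h1a, h1b, h1c⟩ := h1
    by_cases h2 : (q.1 : ℕ) = u i ∧ (q.2 : ℕ) = u i
    · rw [if_pos h2, if_pos ⟨h2, le_antisymm (hau i) (h2.2 ▸ h1b)⟩]
      linarith
    · rw [if_neg h2]
      refine le_trans (mul_le_mul_of_nonneg_left ?_ (hw i)) (le_add_of_nonneg_left hind)
      have hcu : (q.2 : ℕ) ≤ u i := h1b.trans (hau i)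
      have g1 : R (u i) q.2 ≤ 1 := hR1 _ _ hcu (hu i) h1a
      have g2 : R q.1 q.2 ≤ 1 := hR1 _ _ h1c hv h1a
      split_ifs with h3
      · rcases lt_or_eq_of_le hcu with h4 | h4
        · have g3 : R (u i) q.2 ≤ ρ := hR2 _ _ h4 (hu i) h1a h3
          calc R (u i) q.2 * R q.1 q.2 ≤ ρ * 1 := mul_le_mul g3 g2 (hR0 _ _) hρ
            _ = ρ := mul_one _
        · have h5 : (q.2 : ℕ) < q.1 := by
            rcases lt_or_eq_of_le h1c with h6 | h6
            · exact h6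
            · exact absurd ⟨h6 ▸ h4, h4⟩ h2
          have g3 : R q.1 q.2 ≤ ρ := hR2 _ _ h5 hv h1a (by omega)
          calc R (u i) q.2 * R q.1 q.2 ≤ 1 * ρ := mul_le_mul g1 g3 (hR0 _ _) zero_le_one
            _ = ρ := one_mul _
      · calc R (u i) q.2 * R q.1 q.2 ≤ 1 * 1 := mul_le_mul g1 g2 (hR0 _ _) zero_le_one
          _ = 1 := one_mul _
  · rw [if_neg h1]
    linarith

omit [Fintype ι] in
private theorem fL_sum_le {S r0 : ℕ} (u a : ι → ℕ) (hau : ∀ i, a i ≤ u i) (hu : ∀ i, u i ≤ S)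
    (R : ℕ → ℕ → ℝ) (hR0 : ∀ v c, 0 ≤ R v c) (ρ Θ : ℝ) (hρ : 0 ≤ ρ) (hΘ : 1 ≤ Θ)
    (hR1 : ∀ v c, c ≤ v → v ≤ S → r0 < c → R v c ≤ 1)
    (hR2 : ∀ v c, c < v → v ≤ S → r0 < c → 19 * S ≤ 20 * v → R v c ≤ ρ) (w : ι → ℝ)
    (hw : ∀ i, 0 ≤ w i) (D : Finset ι) (i : ι) (hi : i ∈ D) :
    ∑ o : Lb S, fL r0 u a R w D i o ≤
      (if a i < u i then 1 / Θ else 1) *
        (1 + Θ * (((S : ℝ) + 1) ^ 2 * (w i * (if 19 * S ≤ 20 * u i then ρ else 1)))) := by
  have hX : 0 ≤ ((S : ℝ) + 1) ^ 2 * (w i * (if 19 * S ≤ 20 * u i then ρ else 1)) := by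
    apply mul_nonneg (by positivity)
    apply mul_nonneg (hw i)
    split_ifs
    · exact hρ
    · exact zero_le_one
  obtain ⟨X, hXe⟩ : ∃ X, X = ((S : ℝ) + 1) ^ 2 * (w i * (if 19 * S ≤ 20 * u i then ρ else 1)) := ⟨_, rfl⟩
  have h1 : ∑ o : Lb S, fL r0 u a R w D i o ≤ (if a i < u i then 0 else 1) + X := by
    rw [Fintype.sum_option]
    have h0 : fL r0 u a R w D i (none : Lb S) = 0 := by
      unfold fL
      rw [if_pos hi, if_neg]
      simp
    rw [h0, zero_add]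
    refine le_trans (Finset.sum_le_sum (fun q _ =>
      fL_some_le u a hau hu R hR0 ρ hρ hR1 hR2 w hw D i hi q)) ?_
    rw [Finset.sum_add_distrib]
    apply add_le_add
    · split_ifs with h
      · apply le_of_eq
        apply Finset.sum_eq_zero
        intro q _
        rw [if_neg]
        intro h2
        omega
      · rw [← Finset.sum_filter, Finset.sum_const, nsmul_eq_mul, mul_one]
        have hc : (univ.filter (fun q : Fin (S + 1) × Fin (S + 1) =>
            ((q.1 : ℕ) = u i ∧ (q.2 : ℕ) = u i) ∧ a i = u i)).card ≤ 1 := by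
          apply Finset.card_le_one.mpr
          intro x hx y hy
          rw [Finset.mem_filter] at hx hy
          apply Prod.ext
          · apply Fin.ext; omega
          · apply Fin.ext; omega
        exact_mod_cast hc
    · rw [Finset.sum_const, nsmul_eq_mul, hXe]
      apply le_of_eq
      congr 1
      rw [Finset.card_univ, Fintype.card_prod, Fintype.card_fin]
      push_cast
      ring
  refine h1.trans ?_
  rw [← hXe]
  rw [← hXe] at hX
  have hΘ0 : 0 < Θ := lt_of_lt_of_le one_pos hΘ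
  split_ifs with h
  · have : 1 / Θ * (1 + Θ * X) = 1 / Θ + X := by field_simp
    rw [this]
    have : 0 ≤ 1 / Θ := by positivity
    linarith
  · nlinarith

omit [DecidableEq ι] in
private theorem sum_w_le {S : ℕ} (u : ι → ℕ) (hu : ∀ i, u i ≤ S) (k : ℝ)
    (hk : (Fintype.card ι : ℝ) ≤ k) (D : Finset ι) :
    ∑ i ∈ D, Real.sqrt (Real.exp 1 * k / (prD u D (u i) : ℝ)) ≤ 2 * ((S : ℝ) + 1) * k := by
  have hk0 : 0 ≤ k := le_trans (Nat.cast_nonneg _) hk
  have he : Real.exp 1 ≤ 4 := by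
    have := Real.exp_one_lt_d9
    linarith
  rw [← Finset.sum_fiberwise_of_maps_to (s := D) (t := range (S + 1)) (g := u)
    (fun i _ => Finset.mem_range.mpr (Nat.lt_succ_iff.mpr (hu i)))]
  have hb : ∀ v ∈ range (S + 1), ∑ i ∈ D.filter (fun i => u i = v),
      Real.sqrt (Real.exp 1 * k / (prD u D (u i) : ℝ)) ≤ 2 * k := by
    intro v _
    have h1 : ∑ i ∈ D.filter (fun i => u i = v), Real.sqrt (Real.exp 1 * k / (prD u D (u i) : ℝ))
        = ∑ i ∈ D.filter (fun i => u i = v), Real.sqrt (Real.exp 1 * k / (prD u D v : ℝ)) := by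
      apply Finset.sum_congr rfl
      intro i hi
      rw [(Finset.mem_filter.mp hi).2]
    rw [h1, Finset.sum_const, nsmul_eq_mul]
    have h2 : (D.filter (fun i => u i = v)).card = prD u D v := rfl
    rw [h2]
    rcases Nat.eq_zero_or_pos (prD u D v) with h0 | h0
    · rw [h0]; simp; exact hk0
    · have hs : (0 : ℝ) < (prD u D v : ℝ) := by exact_mod_cast h0
      have hsk : (prD u D v : ℝ) ≤ k := by
        refine le_trans ?_ hk
        have : prD u D v ≤ Fintype.card ι := by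
          unfold prD
          exact Finset.card_le_univ _
        exact_mod_cast this
      have h3 : Real.sqrt (Real.exp 1 * k / (prD u D v : ℝ)) ≤ 2 * k / (prD u D v : ℝ) := by
        rw [Real.sqrt_le_iff]
        refine ⟨by positivity, ?_⟩
        rw [div_pow, div_le_div_iff₀ hs (by positivity)]
        have e1 : Real.exp 1 * k * (prD u D v : ℝ) ≤ (2 * k) ^ 2 := by
          have : Real.exp 1 * k * (prD u D v : ℝ) ≤ 4 * k * k := by
            apply mul_le_mul _ hsk hs.le (by positivity)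
            exact mul_le_mul_of_nonneg_right he hk0
          nlinarith
        calc Real.exp 1 * k * (prD u D v : ℝ) ^ 2
            = (Real.exp 1 * k * (prD u D v : ℝ)) * (prD u D v : ℝ) := by ring
          _ ≤ (2 * k) ^ 2 * (prD u D v : ℝ) := mul_le_mul_of_nonneg_right e1 hs.le
      calc (prD u D v : ℝ) * Real.sqrt (Real.exp 1 * k / (prD u D v : ℝ))
          ≤ (prD u D v : ℝ) * (2 * k / (prD u D v : ℝ)) := mul_le_mul_of_nonneg_left h3 hs.le
        _ = 2 * k := by field_simp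
  refine (Finset.sum_le_sum hb).trans (le_of_eq ?_)
  rw [Finset.sum_const, nsmul_eq_mul, Finset.card_range]
  push_cast; ring

private theorem fL_prod {S r0 : ℕ} (u a : ι → ℕ) (R : ℕ → ℕ → ℝ) (w : ι → ℝ) (D : Finset ι)
    (L : ι → Lb S) (hA : Adm r0 a L) (hD : dom L = D) :
    ∏ i ∈ D.filter (fun i => ¬ (lv (L i) = u i ∧ lc (L i) = u i)),
          (w i * (R (u i) (lc (L i)) * R (lv (L i)) (lc (L i)))) = ∏ i, fL r0 u a R w D i (L i) := by
  have h1 : ∏ i, fL r0 u a R w D i (L i) = ∏ i ∈ D, fL r0 u a R w D i (L i) := by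
    symm
    apply Finset.prod_subset (Finset.subset_univ _)
    intro i _ hi
    unfold fL
    rw [if_neg hi, if_neg]
    intro h
    exact hi (hD ▸ (Finset.mem_filter.mpr ⟨Finset.mem_univ _, h⟩))
  rw [h1, Finset.prod_filter]
  apply Finset.prod_congr rfl
  intro i hi
  have hi' : i ∈ dom L := hD ▸ hi
  obtain ⟨a1, a2, a3⟩ := hA i hi'
  have hf : fL r0 u a R w D i (L i) =
      (if lv (L i) = u i ∧ lc (L i) = u i then 1 else w i * (R (u i) (lc (L i)) * R (lv (L i)) (lc (L i)))) := by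
    unfold fL
    rw [if_pos hi, if_pos ⟨(Finset.mem_filter.mp hi').2, a1, a2, a3⟩]
  rw [hf]
  by_cases h : lv (L i) = u i ∧ lc (L i) = u i
  · rw [if_neg (not_not.mpr h), if_pos h]
  · rw [if_pos h, if_neg h]

open Classical in
theorem sum_labels {S r0 : ℕ} (u a : ι → ℕ) (hau : ∀ i, a i ≤ u i) (hu : ∀ i, u i ≤ S)
    (R : ℕ → ℕ → ℝ) (hR0 : ∀ v c, 0 ≤ R v c) (ρ Θ k : ℝ) (hρ : 0 ≤ ρ) (hρ1 : ρ ≤ 1) (hΘ : 1 ≤ Θ)
    (hk : (Fintype.card ι : ℝ) ≤ k)
    (hR1 : ∀ v c, c ≤ v → v ≤ S → r0 < c → R v c ≤ 1)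
    (hR2 : ∀ v c, c < v → v ≤ S → r0 < c → 19 * S ≤ 20 * v → R v c ≤ ρ) (D : Finset ι) :
    ∑ L ∈ (univ : Finset (ι → Lb S)).filter (fun L => Adm r0 a L ∧ dom L = D),
        ∏ i ∈ D.filter (fun i => ¬ (lv (L i) = u i ∧ lc (L i) = u i)),
          (Real.sqrt (Real.exp 1 * k / (prD u D (u i) : ℝ)) *
            (R (u i) (lc (L i)) * R (lv (L i)) (lc (L i)))) ≤
      (1 / Θ) ^ (D.filter (fun i => a i < u i)).card *
        (Real.exp (2 * Θ * (S + 1) ^ 3 * ρ * k) *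
          (1 + 2 * Θ * (S + 1) ^ 2 * Real.sqrt k) ^
            (D.filter (fun i => 20 * u i < 19 * S)).card) := by
  obtain ⟨w, hw⟩ : ∃ w : ι → ℝ, w = fun i => Real.sqrt (Real.exp 1 * k / (prD u D (u i) : ℝ)) :=
    ⟨_, rfl⟩
  have hwi : ∀ i, Real.sqrt (Real.exp 1 * k / (prD u D (u i) : ℝ)) = w i := fun i => by rw [hw]
  have hk0 : 0 ≤ k := le_trans (Nat.cast_nonneg _) hk
  have hw0 : ∀ i, 0 ≤ w i := fun i => by rw [hw]; exact Real.sqrt_nonneg _
  have hΘ0 : 0 < Θ := lt_of_lt_of_le one_pos hΘ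
  simp only [hwi]
  -- step 1
  have s1 : ∑ L ∈ (univ : Finset (ι → Lb S)).filter (fun L => Adm r0 a L ∧ dom L = D),
        ∏ i ∈ D.filter (fun i => ¬ (lv (L i) = u i ∧ lc (L i) = u i)),
          (w i * (R (u i) (lc (L i)) * R (lv (L i)) (lc (L i)))) ≤
        ∑ L : ι → Lb S, ∏ i, fL r0 u a R w D i (L i) := by
    calc _ = ∑ L ∈ (univ : Finset (ι → Lb S)).filter (fun L => Adm r0 a L ∧ dom L = D),
          ∏ i, fL r0 u a R w D i (L i) := by
          apply Finset.sum_congr rfl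
          intro L hL
          obtain ⟨hA, hD⟩ := (Finset.mem_filter.mp hL).2
          exact fL_prod u a R w D L hA hD
      _ ≤ _ := by
          apply Finset.sum_le_sum_of_subset_of_nonneg (Finset.filter_subset _ _)
          intro L _ _
          exact Finset.prod_nonneg (fun i _ => fL_nonneg r0 u a R hR0 w hw0 D i (L i))
  refine s1.trans ?_
  have s2 : ∑ L : ι → Lb S, ∏ i, fL r0 u a R w D i (L i) = ∏ i, ∑ o : Lb S, fL r0 u a R w D i o := by
    rw [Finset.prod_univ_sum, Fintype.piFinset_univ]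
  have s3 : ∏ i, ∑ o : Lb S, fL r0 u a R w D i o = ∏ i ∈ D, ∑ o : Lb S, fL r0 u a R w D i o := by
    symm
    apply Finset.prod_subset (Finset.subset_univ _)
    intro i _ hi
    rw [Fintype.sum_option]
    have h0 : fL r0 u a R w D i (none : Lb S) = 1 := by
      unfold fL
      rw [if_neg hi, if_neg]
      simp
    rw [h0, Finset.sum_eq_zero, add_zero]
    intro q _
    unfold fL
    rw [if_neg hi, if_pos]
    simp
  rw [s2, s3]
  -- step 4
  obtain ⟨B, hB⟩ : ∃ B : ℝ, B = 1 + 2 * Θ * ((S : ℝ) + 1) ^ 2 * Real.sqrt k := ⟨_, rfl⟩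
  have hB1 : 1 ≤ B := by
    rw [hB]
    have : 0 ≤ 2 * Θ * ((S : ℝ) + 1) ^ 2 * Real.sqrt k := by positivity
    linarith
  have he : Real.exp 1 ≤ 4 := by
    have := Real.exp_one_lt_d9
    linarith
  have s4 : ∀ i ∈ D, ∑ o : Lb S, fL r0 u a R w D i o ≤
      (if a i < u i then 1 / Θ else 1) * ((if 20 * u i < 19 * S then B else 1) *
        Real.exp (Θ * ((S : ℝ) + 1) ^ 2 * ρ * w i)) := by
    intro i hi
    refine (fL_sum_le u a hau hu R hR0 ρ Θ hρ hΘ hR1 hR2 w hw0 D i hi).trans ?_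
    apply mul_le_mul_of_nonneg_left
    · by_cases h : 20 * u i < 19 * S
      · rw [if_pos h, if_neg (by omega)]
        have hσ : (1 : ℝ) ≤ (prD u D (u i) : ℝ) := by
          have : 1 ≤ prD u D (u i) := by
            unfold prD
            exact Finset.card_pos.mpr ⟨i, Finset.mem_filter.mpr ⟨hi, rfl⟩⟩
          exact_mod_cast this
        have hw1 : w i ≤ 2 * Real.sqrt k := by
          rw [hw]
          show Real.sqrt (Real.exp 1 * k / (prD u D (u i) : ℝ)) ≤ 2 * Real.sqrt k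
          rw [Real.sqrt_le_iff]
          refine ⟨by positivity, ?_⟩
          rw [mul_pow, Real.sq_sqrt hk0]
          calc Real.exp 1 * k / (prD u D (u i) : ℝ) ≤ Real.exp 1 * k :=
                div_le_self (by positivity) hσ
            _ ≤ 2 ^ 2 * k := by
                apply mul_le_mul_of_nonneg_right _ hk0
                linarith
        have g1 : 1 + Θ * (((S : ℝ) + 1) ^ 2 * (w i * 1)) ≤ B := by
          rw [hB]
          have : Θ * ((S : ℝ) + 1) ^ 2 * w i ≤ Θ * ((S : ℝ) + 1) ^ 2 * (2 * Real.sqrt k) :=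
            mul_le_mul_of_nonneg_left hw1 (by positivity)
          linarith
        refine g1.trans ?_
        have g2 : 1 ≤ Real.exp (Θ * ((S : ℝ) + 1) ^ 2 * ρ * w i) := by
          apply Real.one_le_exp
          have := hw0 i
          positivity
        nlinarith
      · rw [if_neg h, if_pos (by omega), one_mul]
        have := Real.add_one_le_exp (Θ * ((S : ℝ) + 1) ^ 2 * ρ * w i)
        refine le_trans (le_of_eq ?_) this
        ring
    · split_ifs
      · positivity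
      · exact zero_le_one
  refine (Finset.prod_le_prod (fun i _ => Finset.sum_nonneg (fun o _ =>
    fL_nonneg r0 u a R hR0 w hw0 D i o)) s4).trans ?_
  rw [Finset.prod_mul_distrib, Finset.prod_mul_distrib, ← Real.exp_sum]
  have p1 : ∏ i ∈ D, (if a i < u i then 1 / Θ else 1) = (1 / Θ) ^ (D.filter (fun i => a i < u i)).card := by
    rw [← Finset.prod_filter, Finset.prod_const]
  have p2 : ∏ i ∈ D, (if 20 * u i < 19 * S then B else 1) =
      B ^ (D.filter (fun i => 20 * u i < 19 * S)).card := by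
    rw [← Finset.prod_filter, Finset.prod_const]
  rw [p1, p2, hB]
  have p3 : ∑ i ∈ D, Θ * ((S : ℝ) + 1) ^ 2 * ρ * w i ≤ 2 * Θ * (S + 1) ^ 3 * ρ * k := by
    rw [← Finset.mul_sum]
    have h := sum_w_le u hu k hk D
    simp only [hwi] at h
    calc Θ * ((S : ℝ) + 1) ^ 2 * ρ * ∑ i ∈ D, w i
        ≤ Θ * ((S : ℝ) + 1) ^ 2 * ρ * (2 * ((S : ℝ) + 1) * k) :=
          mul_le_mul_of_nonneg_left h (by positivity)
      _ = _ := by ring
  apply mul_le_mul_of_nonneg_left _ (by positivity)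
  rw [mul_comm]
  apply mul_le_mul_of_nonneg_right (Real.exp_le_exp.mpr p3) (by positivity)

end Pool.Agent.CHP
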