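import Pool.Agent.CHP.Wle
import Pool.Agent.CHP.DmC
import Pool.Agent.CHP.SmL

/-!
# CHP / SmD: the sum over all systems of labels

PROOF.  `W(L) := WW (1/(1-p)) n S κ' a L`.  If `pr2 L v > κ' v` for some `v ≤ S`, `W(L) = 0` (`Nat.descFactorial_of_lt`).  Otherwise `WW_le` with
`k = n`, `h1` for `σ = pr2 L` and `√(EZ σ_D EZ σ') = √EZ σ_D √EZ σ'` (`Real.sqrt_mul`, `EZ_pos`; `sz S (pr2 L) ≤ sz S κ' ≤ n`, and
`sz S (prD u D) = ∑_{i ∈ D} u i ≤ n`) give
`W(L) ≤ Y' / √(EZ (prD u (dom L))) * ∏_{non exact} (..)`.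
Group the sum by `D = dom L` (`Finset.sum_fiberwise_of_maps_to`); `x ≤ D.card`.  By `sum_labels` with `R = rt p n` (`rt ≥ 0`: `Real.sqrt_nonneg`),
`k = n`, the sum over the `L` with `dom L = D` is at most `Y' / √(EZ (prD u D)) * (1/Θ)^m(D) * E1`, `m(D) = #{i ∈ D | a i < u i}`,
`E1 = exp (2 Θ (S+1)^3 ρ n) (1 + 2 Θ (S+1)^2 √n)^nb` (`#{i ∈ D | 20 u i < 19 S} ≤ nb`, base `≥ 1`).
* if `sz S (prD u D) ≤ st`: `(1/Θ)^m ≤ 1`;
* if `sz S (prD u D) > st`: `m(D) * S ≥ ∑_{i ∈ D} (u i - a i) ≥ ∑_{i∈D} u i - sT > st - sT`, so `(st - sT)/S ≤ m(D)` (natural division) and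
  `(1/Θ)^m(D) ≤ (1/Θ)^((st - sT)/S)`.
Then group the sum over `D` by the profile `prD u D` restricted to `range (S+1)`: for each `σ : Fin (S+1) → Fin (n+1)` (extended by `0`) the
number of `D` is at most `bin S (cnt u) σ` (`card_dom_le`), there are `(n+1)^(S+1)` such `σ`; only `σ = prD u D ≤ cnt u` (`prD_le`) matter, and
`bin S (cnt u) σ / √(EZ σ) ≤ Y` if `x ≤ num S σ = |D|` and `sz S σ ≤ st` (`h2`), `≤ Y2` in general (`h3`).
(`bin`, `EZ`, `num`, `sz` only depend on the values `σ v`, `v ≤ S`.)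
-/

set_option autoImplicit false

namespace Pool.Agent.CHP

open Finset Pool.Agent.CHV

variable {ι : Type} [Fintype ι] [DecidableEq ι]

private theorem rt_nn (p : ℝ) (n v c : ℕ) : 0 ≤ rt p n v c := by
  unfold rt
  positivity

private theorem EZ_congr (p : ℝ) (n S : ℕ) {κ κ' : ℕ → ℕ} (h : ∀ v ≤ S, κ v = κ' v) :
    EZ p n S κ = EZ p n S κ' := by
  have h1 : sz S κ = sz S κ' := by
    unfold sz
    refine Finset.sum_congr rfl fun v hv => ?_
    rw [h v (by rw [Finset.mem_range] at hv; omega)]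
  unfold EZ
  rw [h1]
  congr 1
  refine Finset.prod_congr rfl fun v hv => ?_
  rw [h v (by rw [Finset.mem_range] at hv; omega)]

private theorem sz_congr (S : ℕ) {κ κ' : ℕ → ℕ} (h : ∀ v ≤ S, κ v = κ' v) :
    sz S κ = sz S κ' := by
  unfold sz
  refine Finset.sum_congr rfl fun v hv => ?_
  rw [h v (by rw [Finset.mem_range] at hv; omega)]

private theorem EZ_prD_pos {p : ℝ} (h1 : p < 1) {n S : ℕ} (hn : 0 < n)
    (u : ι → ℕ) (hu : ∀ i, u i ≤ S) (hsu : ∑ i, u i ≤ n) (D : Finset ι) :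
    0 < EZ p n S (prD u D) := by
  refine EZ_pos h1 hn ?_
  rw [sz_prD u hu]
  exact (Finset.sum_le_sum_of_subset (Finset.subset_univ D)).trans hsu

private theorem WW_bd {p : ℝ} (h0 : 0 ≤ p) (h1 : p < 1) {n S r0 : ℕ} (hn : 0 < n) (κ' : ℕ → ℕ)
    (a u : ι → ℕ) (hau : ∀ i, a i ≤ u i) (hu : ∀ i, u i ≤ S) (hsu : ∑ i, u i ≤ n)
    (hcard : Fintype.card ι ≤ n) (hs : sz S κ' ≤ n) (Y' : ℝ) (hY' : 0 ≤ Y')
    (h'1 : ∀ σ : ℕ → ℕ, (∀ v ≤ S, σ v ≤ κ' v) → (bin S κ' σ : ℝ) ≤ Y' * Real.sqrt (EZ p n S σ))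
    (L : ι → Lb S) (hadm : Adm r0 a L) :
    WW (1 / (1 - p)) n S κ' a L ≤ Y' / Real.sqrt (EZ p n S (prD u (dom L))) *
      ∏ i ∈ (dom L).filter (fun i => ¬ (lv (L i) = u i ∧ lc (L i) = u i)),
          (Real.sqrt (Real.exp 1 * n / (prD u (dom L) (u i) : ℝ)) *
            (rt p n (u i) (lc (L i)) * rt p n (lv (L i)) (lc (L i)))) := by
  have hP : 0 ≤ ∏ i ∈ (dom L).filter (fun i => ¬ (lv (L i) = u i ∧ lc (L i) = u i)),
          (Real.sqrt (Real.exp 1 * n / (prD u (dom L) (u i) : ℝ)) *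
            (rt p n (u i) (lc (L i)) * rt p n (lv (L i)) (lc (L i)))) :=
    Finset.prod_nonneg fun i _ => mul_nonneg (Real.sqrt_nonneg _)
      (mul_nonneg (rt_nn _ _ _ _) (rt_nn _ _ _ _))
  by_cases hk : ∀ v ≤ S, pr2 L v ≤ κ' v
  · have h2 := WW_le h0 h1 hn κ' a u hau hu hsu L hadm hs hk (n : ℝ) (by exact_mod_cast hcard)
    refine h2.trans (mul_le_mul_of_nonneg_right ?_ hP)
    have hE1 := EZ_prD_pos h1 hn u hu hsu (dom L)
    have hE2 : 0 < EZ p n S (pr2 L) := by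
      refine EZ_pos h1 hn (le_trans ?_ hs)
      unfold sz
      refine Finset.sum_le_sum fun v hv => Nat.mul_le_mul_left v (hk v ?_)
      rw [Finset.mem_range] at hv
      omega
    have hA := Real.sqrt_pos.2 hE1
    have hB := Real.sqrt_pos.2 hE2
    rw [Real.sqrt_mul hE1.le, div_le_div_iff₀ (mul_pos hA hB) hA]
    have h3 := mul_le_mul_of_nonneg_right (h'1 (pr2 L) hk) hA.le
    linarith [h3]
  · push Not at hk
    obtain ⟨v, hv, hlt⟩ := hk
    have h3 : WW (1 / (1 - p)) n S κ' a L = 0 := by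
      unfold WW
      rw [Finset.prod_eq_zero (i := v) (Finset.mem_range.2 (by omega)) (by
        rw [Nat.descFactorial_of_lt hlt, Nat.cast_zero]), zero_mul, zero_div]
    rw [h3]
    exact mul_nonneg (div_nonneg hY' (Real.sqrt_nonneg _)) hP

private theorem theta_bd {S : ℕ} (a u : ι → ℕ) (hau : ∀ i, a i ≤ u i) (hu : ∀ i, u i ≤ S)
    (Θ : ℝ) (hΘ : 1 ≤ Θ) (sT st : ℕ) (hsT : ∑ i, a i ≤ sT) (D : Finset ι) :
    (1 / Θ) ^ (D.filter (fun i => a i < u i)).card ≤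
      if sz S (prD u D) ≤ st then 1 else (1 / Θ) ^ ((st - sT) / S) := by
  have hΘ0 : 0 ≤ 1 / Θ := by positivity
  have hΘ1 : 1 / Θ ≤ 1 := by
    rw [div_le_one (by linarith)]
    exact hΘ
  split_ifs with h
  · exact pow_le_one₀ hΘ0 hΘ1
  · refine pow_le_pow_of_le_one hΘ0 hΘ1 ?_
    refine Nat.div_le_of_le_mul ?_
    rw [sz_prD u hu] at h
    have e1 : ∑ i ∈ D, u i ≤ ∑ i ∈ D, a i + ∑ i ∈ D, (if a i < u i then S else 0) := by
      rw [← Finset.sum_add_distrib]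
      refine Finset.sum_le_sum fun i _ => ?_
      have := hu i
      have := hau i
      split_ifs <;> omega
    have e2 : ∑ i ∈ D, (if a i < u i then S else 0) =
        S * (D.filter (fun i => a i < u i)).card := by
      rw [← Finset.sum_filter, Finset.sum_const, smul_eq_mul, mul_comm]
    have e3 : ∑ i ∈ D, a i ≤ ∑ i, a i := Finset.sum_le_sum_of_subset (Finset.subset_univ D)
    omega

open Classical in
private theorem sum_prof {p : ℝ} (h1 : p < 1) {n S : ℕ} (hn : 0 < n)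
    (u : ι → ℕ) (hu : ∀ i, u i ≤ S) (hsu : ∑ i, u i ≤ n) (hcard : Fintype.card ι ≤ n)
    (Y Y2 q : ℝ) (hY : 0 ≤ Y) (hY2 : 0 ≤ Y2) (hq : 0 ≤ q) (x st : ℕ)
    (h'2 : ∀ σ : ℕ → ℕ, (∀ v ≤ S, σ v ≤ cnt u v) → x ≤ num S σ → sz S σ ≤ st →
      (bin S (cnt u) σ : ℝ) ≤ Y * Real.sqrt (EZ p n S σ))
    (h'3 : ∀ σ : ℕ → ℕ, (∀ v ≤ S, σ v ≤ cnt u v) →
      (bin S (cnt u) σ : ℝ) ≤ Y2 * Real.sqrt (EZ p n S σ)) :
    ∑ D ∈ (univ : Finset (Finset ι)).filter (fun D => x ≤ D.card),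
      (1 / Real.sqrt (EZ p n S (prD u D)) * if sz S (prD u D) ≤ st then 1 else q) ≤
      ((n : ℝ) + 1) ^ (S + 1) * (Y + Y2 * q) := by
  obtain ⟨g, hg⟩ : ∃ g : Finset ι → (Fin (S + 1) → Fin (n + 1)),
      ∀ D v, ((g D v : Fin (n + 1)) : ℕ) = prD u D v := by
    refine ⟨fun D v => ⟨prD u D v, ?_⟩, fun D v => rfl⟩
    have h2 : prD u D v ≤ Fintype.card ι := Finset.card_le_univ _
    omega
  rw [← Finset.sum_fiberwise_of_maps_to (fun D _ => Finset.mem_univ (g D))]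
  have hb : 0 ≤ Y + Y2 * q := add_nonneg hY (mul_nonneg hY2 hq)
  have hone : ∀ σ : Fin (S + 1) → Fin (n + 1),
      ∑ D ∈ ((univ : Finset (Finset ι)).filter (fun D => x ≤ D.card)).filter (fun D => g D = σ),
        (1 / Real.sqrt (EZ p n S (prD u D)) * if sz S (prD u D) ≤ st then 1 else q) ≤
        Y + Y2 * q := by
    intro σ
    rcases (((univ : Finset (Finset ι)).filter (fun D => x ≤ D.card)).filter
      (fun D => g D = σ)).eq_empty_or_nonempty with he | ⟨D0, hD0⟩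
    · rw [he, Finset.sum_empty]
      exact hb
    · rw [Finset.mem_filter, Finset.mem_filter] at hD0
      obtain ⟨⟨-, hx⟩, hgD⟩ := hD0
      have hsame : ∀ D ∈ ((univ : Finset (Finset ι)).filter (fun D => x ≤ D.card)).filter
          (fun D => g D = σ), ∀ v ≤ S, prD u D v = prD u D0 v := by
        intro D hD v hv
        rw [Finset.mem_filter] at hD
        have h2 := hg D ⟨v, by omega⟩
        have h3 := hg D0 ⟨v, by omega⟩
        rw [hD.2, ← hgD] at h2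
        rw [← h2, ← h3]
      have hval : ∀ D ∈ ((univ : Finset (Finset ι)).filter (fun D => x ≤ D.card)).filter
          (fun D => g D = σ),
          (1 / Real.sqrt (EZ p n S (prD u D)) * if sz S (prD u D) ≤ st then 1 else q) =
          (1 / Real.sqrt (EZ p n S (prD u D0)) * if sz S (prD u D0) ≤ st then 1 else q) := by
        intro D hD
        rw [EZ_congr p n S (hsame D hD), sz_congr S (hsame D hD)]
      rw [Finset.sum_congr rfl hval, Finset.sum_const, nsmul_eq_mul]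
      have hE := EZ_prD_pos h1 hn u hu hsu D0
      have hA := Real.sqrt_pos.2 hE
      have hle : ∀ v ≤ S, prD u D0 v ≤ cnt u v := fun v _ => prD_le u D0 v
      have hc : (((((univ : Finset (Finset ι)).filter (fun D => x ≤ D.card)).filter
          (fun D => g D = σ)).card : ℕ) : ℝ) ≤ (bin S (cnt u) (prD u D0) : ℝ) := by
        have h4 := card_dom_le u hu (prD u D0)
        refine le_trans ?_ (Nat.cast_le.2 h4)
        refine Nat.cast_le.2 (Finset.card_le_card fun D hD => ?_)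
        rw [Finset.mem_filter]
        exact ⟨Finset.mem_univ _, hsame D hD⟩
      by_cases hst : sz S (prD u D0) ≤ st
      · rw [if_pos hst, mul_one]
        have h5 := h'2 (prD u D0) hle (by rw [num_prD u hu]; exact hx) hst
        calc _ ≤ (Y * Real.sqrt (EZ p n S (prD u D0))) *
              (1 / Real.sqrt (EZ p n S (prD u D0))) :=
              mul_le_mul_of_nonneg_right (hc.trans h5) (by positivity)
          _ = Y := by field_simp
          _ ≤ Y + Y2 * q := le_add_of_nonneg_right (mul_nonneg hY2 hq)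
      · rw [if_neg hst]
        have h5 := h'3 (prD u D0) hle
        calc _ ≤ (Y2 * Real.sqrt (EZ p n S (prD u D0))) *
              (1 / Real.sqrt (EZ p n S (prD u D0)) * q) :=
              mul_le_mul_of_nonneg_right (hc.trans h5) (by positivity)
          _ = Y2 * q := by field_simp
          _ ≤ Y + Y2 * q := le_add_of_nonneg_left hY
  refine (Finset.sum_le_sum fun σ _ => hone σ).trans (le_of_eq ?_)
  rw [Finset.sum_const, Finset.card_univ, Fintype.card_fun, Fintype.card_fin, Fintype.card_fin,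
    nsmul_eq_mul]
  push_cast
  ring

open Classical in
private theorem fib_bd {p : ℝ} (h0 : 0 ≤ p) (h1 : p < 1) {n S r0 : ℕ} (hn : 0 < n)
    (κ' : ℕ → ℕ)
    (a u : ι → ℕ) (hau : ∀ i, a i ≤ u i) (hu : ∀ i, u i ≤ S) (hsu : ∑ i, u i ≤ n)
    (hcard : Fintype.card ι ≤ n) (hs : sz S κ' ≤ n)
    (ρ Θ Y' : ℝ) (hρ : 0 ≤ ρ) (hρ1 : ρ ≤ 1) (hΘ : 1 ≤ Θ) (hY' : 0 ≤ Y')
    (hR1 : ∀ v c, c ≤ v → v ≤ S → r0 < c → rt p n v c ≤ 1)
    (hR2 : ∀ v c, c < v → v ≤ S → r0 < c → 19 * S ≤ 20 * v → rt p n v c ≤ ρ)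
    (sT st : ℕ) (hsT : ∑ i, a i ≤ sT)
    (h'1 : ∀ σ : ℕ → ℕ, (∀ v ≤ S, σ v ≤ κ' v) → (bin S κ' σ : ℝ) ≤ Y' * Real.sqrt (EZ p n S σ))
    (D : Finset ι) :
    ∑ L ∈ (univ : Finset (ι → Lb S)).filter (fun L => Adm r0 a L ∧ dom L = D),
        WW (1 / (1 - p)) n S κ' a L ≤
      (Y' * (Real.exp (2 * Θ * (S + 1) ^ 3 * ρ * n) *
        (1 + 2 * Θ * (S + 1) ^ 2 * Real.sqrt n) ^
          (univ.filter (fun i => 20 * u i < 19 * S)).card)) *
      (1 / Real.sqrt (EZ p n S (prD u D)) *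
        if sz S (prD u D) ≤ st then 1 else (1 / Θ) ^ ((st - sT) / S)) := by
  have hA := Real.sqrt_pos.2 (EZ_prD_pos h1 hn u hu hsu D)
  have hstep : ∑ L ∈ (univ : Finset (ι → Lb S)).filter (fun L => Adm r0 a L ∧ dom L = D),
        WW (1 / (1 - p)) n S κ' a L ≤
      ∑ L ∈ (univ : Finset (ι → Lb S)).filter (fun L => Adm r0 a L ∧ dom L = D),
        Y' / Real.sqrt (EZ p n S (prD u D)) *
        ∏ i ∈ D.filter (fun i => ¬ (lv (L i) = u i ∧ lc (L i) = u i)),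
          (Real.sqrt (Real.exp 1 * n / (prD u D (u i) : ℝ)) *
            (rt p n (u i) (lc (L i)) * rt p n (lv (L i)) (lc (L i)))) := by
    refine Finset.sum_le_sum fun L hL => ?_
    obtain ⟨hadm, hD⟩ := (Finset.mem_filter.1 hL).2
    subst hD
    exact WW_bd h0 h1 hn κ' a u hau hu hsu hcard hs Y' hY' h'1 L hadm
  refine hstep.trans ?_
  rw [← Finset.mul_sum]
  have hlab := sum_labels u a hau hu (rt p n) (fun v c => rt_nn p n v c) ρ Θ (n : ℝ) hρ hρ1 hΘ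
    (by exact_mod_cast hcard) hR1 hR2 D
  refine (mul_le_mul_of_nonneg_left hlab (div_nonneg hY' hA.le)).trans ?_
  have hth := theta_bd (S := S) a u hau hu Θ hΘ sT st hsT D
  have hbase : (1 : ℝ) ≤ 1 + 2 * Θ * (S + 1) ^ 2 * Real.sqrt n :=
    le_add_of_nonneg_right (by positivity)
  have hpow : (1 + 2 * Θ * ((S : ℝ) + 1) ^ 2 * Real.sqrt n) ^
      (D.filter (fun i => 20 * u i < 19 * S)).card ≤
      (1 + 2 * Θ * (S + 1) ^ 2 * Real.sqrt n) ^
          (univ.filter (fun i => 20 * u i < 19 * S)).card :=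
    pow_le_pow_right₀ hbase (Finset.card_le_card
      (Finset.filter_subset_filter _ (Finset.subset_univ D)))
  have hpos : 0 ≤ (1 + 2 * Θ * ((S : ℝ) + 1) ^ 2 * Real.sqrt n) ^
      (D.filter (fun i => 20 * u i < 19 * S)).card := pow_nonneg (by linarith) _
  have hth0 : 0 ≤ (1 / Θ) ^ (D.filter (fun i => a i < u i)).card := pow_nonneg (by positivity) _
  calc Y' / Real.sqrt (EZ p n S (prD u D)) * ((1 / Θ) ^ (D.filter (fun i => a i < u i)).card *
        (Real.exp (2 * Θ * (S + 1) ^ 3 * ρ * n) *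
          (1 + 2 * Θ * (S + 1) ^ 2 * Real.sqrt n) ^
            (D.filter (fun i => 20 * u i < 19 * S)).card))
      ≤ Y' / Real.sqrt (EZ p n S (prD u D)) *
        ((if sz S (prD u D) ≤ st then 1 else (1 / Θ) ^ ((st - sT) / S)) *
        (Real.exp (2 * Θ * (S + 1) ^ 3 * ρ * n) *
          (1 + 2 * Θ * (S + 1) ^ 2 * Real.sqrt n) ^
            (univ.filter (fun i => 20 * u i < 19 * S)).card)) := by
        refine mul_le_mul_of_nonneg_left ?_ (div_nonneg hY' hA.le)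
        refine mul_le_mul hth ?_ (mul_nonneg (Real.exp_pos _).le hpos) (hth0.trans hth)
        exact mul_le_mul_of_nonneg_left hpow (Real.exp_pos _).le
    _ = _ := by ring

open Classical in
theorem sum_WW {p : ℝ} (h0 : 0 ≤ p) (h1 : p < 1) {n S r0 : ℕ} (hn : 0 < n) (κ' : ℕ → ℕ)
    (a u : ι → ℕ) (hau : ∀ i, a i ≤ u i) (hu : ∀ i, u i ≤ S) (hsu : ∑ i, u i ≤ n)
    (hcard : Fintype.card ι ≤ n) (hs : sz S κ' ≤ n)
    (ρ Θ Y Y2 Y' : ℝ) (hρ : 0 ≤ ρ) (hρ1 : ρ ≤ 1) (hΘ : 1 ≤ Θ) (hY : 0 ≤ Y) (hY2 : 0 ≤ Y2)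
    (hY' : 0 ≤ Y')
    (hR1 : ∀ v c, c ≤ v → v ≤ S → r0 < c → rt p n v c ≤ 1)
    (hR2 : ∀ v c, c < v → v ≤ S → r0 < c → 19 * S ≤ 20 * v → rt p n v c ≤ ρ)
    (x sT st : ℕ) (hsT : ∑ i, a i ≤ sT)
    (h'1 : ∀ σ : ℕ → ℕ, (∀ v ≤ S, σ v ≤ κ' v) → (bin S κ' σ : ℝ) ≤ Y' * Real.sqrt (EZ p n S σ))
    (h'2 : ∀ σ : ℕ → ℕ, (∀ v ≤ S, σ v ≤ cnt u v) → x ≤ num S σ → sz S σ ≤ st →
      (bin S (cnt u) σ : ℝ) ≤ Y * Real.sqrt (EZ p n S σ))
    (h'3 : ∀ σ : ℕ → ℕ, (∀ v ≤ S, σ v ≤ cnt u v) →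
      (bin S (cnt u) σ : ℝ) ≤ Y2 * Real.sqrt (EZ p n S σ)) :
    ∑ L ∈ (univ : Finset (ι → Lb S)).filter (fun L => Adm r0 a L ∧ x ≤ (dom L).card),
        WW (1 / (1 - p)) n S κ' a L ≤
      ((n : ℝ) + 1) ^ (S + 1) * (Y' * (Real.exp (2 * Θ * (S + 1) ^ 3 * ρ * n) *
        (1 + 2 * Θ * (S + 1) ^ 2 * Real.sqrt n) ^
          (univ.filter (fun i => 20 * u i < 19 * S)).card)) *
        (Y + Y2 * (1 / Θ) ^ ((st - sT) / S)) := by
  have hmaps : ∀ L ∈ (univ : Finset (ι → Lb S)).filter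
      (fun L => Adm r0 a L ∧ x ≤ (dom L).card),
      dom L ∈ (univ : Finset (Finset ι)).filter (fun D => x ≤ D.card) := by
    intro L hL
    rw [Finset.mem_filter] at hL ⊢
    exact ⟨Finset.mem_univ _, hL.2.2⟩
  rw [← Finset.sum_fiberwise_of_maps_to hmaps]
  have hE0 : 0 ≤ Y' * (Real.exp (2 * Θ * (S + 1) ^ 3 * ρ * n) *
        (1 + 2 * Θ * (S + 1) ^ 2 * Real.sqrt n) ^
          (univ.filter (fun i => 20 * u i < 19 * S)).card) := by positivity
  have hle : ∀ D ∈ (univ : Finset (Finset ι)).filter (fun D => x ≤ D.card),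
      ∑ L ∈ ((univ : Finset (ι → Lb S)).filter
        (fun L => Adm r0 a L ∧ x ≤ (dom L).card)).filter (fun L => dom L = D),
        WW (1 / (1 - p)) n S κ' a L ≤
      (Y' * (Real.exp (2 * Θ * (S + 1) ^ 3 * ρ * n) *
        (1 + 2 * Θ * (S + 1) ^ 2 * Real.sqrt n) ^
          (univ.filter (fun i => 20 * u i < 19 * S)).card)) *
      (1 / Real.sqrt (EZ p n S (prD u D)) *
        if sz S (prD u D) ≤ st then 1 else (1 / Θ) ^ ((st - sT) / S)) := by
    intro D hD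
    have hfil : ((univ : Finset (ι → Lb S)).filter
        (fun L => Adm r0 a L ∧ x ≤ (dom L).card)).filter (fun L => dom L = D) =
        (univ : Finset (ι → Lb S)).filter (fun L => Adm r0 a L ∧ dom L = D) := by
      rw [Finset.filter_filter]
      refine Finset.filter_congr fun L _ => ?_
      rw [Finset.mem_filter] at hD
      constructor
      · rintro ⟨⟨h2, -⟩, h3⟩
        exact ⟨h2, h3⟩
      · rintro ⟨h2, h3⟩
        exact ⟨⟨h2, by rw [h3]; exact hD.2⟩, h3⟩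
    rw [hfil]
    exact fib_bd h0 h1 hn κ' a u hau hu hsu hcard hs ρ Θ Y' hρ hρ1 hΘ hY' hR1 hR2 sT st hsT h'1 D
  refine (Finset.sum_le_sum hle).trans ?_
  rw [← Finset.mul_sum]
  have hfin := sum_prof h1 hn u hu hsu hcard Y Y2 ((1 / Θ) ^ ((st - sT) / S)) hY hY2
    (pow_nonneg (by positivity) _) x st h'2 h'3
  refine (mul_le_mul_of_nonneg_left hfin hE0).trans (le_of_eq ?_)
  ring

end Pool.Agent.CHP
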