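import Pool.Agent.CHP.Seq
import Pool.Agent.CHP.SmA
import Pool.Agent.CHP.SmB
import Pool.Agent.CHP.Cor
import Pool.Agent.CHP.Rat
import Pool.Agent.CHP.SmD

/-!
# CHP / Cr2: the sum over the second packing, final form

Notation: `ℒ = log n`, `b = 1/(1-p) = exp B`, `S = SS p K n ≤ 2 L`, `L = LL p n`, `ℒ = B L`, `r0 = rz S` (`S ≤ 2 r0 + 1`: `omega`), `A i = I i ∩ T` (disjoint, `|A i| ≤ u i ≤ S`).
PROOF.
1. `m0 = ⌈n^g⌉₊`, `δ = n^(-1/2)`, `Q = 3 b^S`, `w J = ∏ i, om 3 b r0 (A i ∩ J).card`.  `seq_bound` with hypotheses: `h1`: for `m0 ≤ |R|` (`≤ n`) `small_sum` (`|R| > 0`) and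
`delta_small` for `m = |R|`; `h2`: `om_prod`.  So `hE` of `core_sum` holds with `E0 = exp (card ι' * δ) Q^m0`.
2. `core_sum` with this `E0`: left side `≤ |OP| E0 ∑_L WW b n S (cnt u') (fun i => (A i).card) L`, the sum over the `L` with `Adm r0 .. L ∧ x ≤ (dom L).card`.
3. `sum_WW` with `a i = (A i).card ≤ u i` (`|I i| = u i`), `sT = |T|` (`∑ |A i| ≤ |T|`, disjoint), `ρ = n^(-11/25)`, `Θ = n^(1/100)`, `rt_bound`, `κ' = cnt u'`,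
`sz S (cnt u') = ∑ u' i ≤ n` (`sz_cnt`), `card ι ≤ ∑ u i ≤ n`.
4. Constants, for large `n` (`nb = #{i | 20 u i < 19 S}`): `card ι' ≤ ∑ u' i ≤ n`, so `exp (card ι' δ) ≤ exp (n^(1/2))`; `b^S ≤ b^(2L) = n^2`, `Q ≤ 3 n^2 ≤ exp (3 ℒ)`,
`m0 ≤ 2 n^g`, `Q^m0 ≤ exp (6 n^g ℒ)`; `(n+1)^(S+1) ≤ exp (2 ℒ (S+1)) ≤ exp (n^g)`; `2 Θ (S+1)^3 ρ n = 2 (S+1)^3 n^(57/100) ≤ n^(3/5) ≤ n^g`;
`1 + 2 Θ (S+1)^2 sqrt n ≤ n`, so its `nb`-th power is `≤ exp (ℒ nb)`; `(1/Θ)^m = exp (-(ℒ/100) m)`.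
Product: `exp (n^(1/2) + 6 n^g ℒ + 2 n^g + ℒ nb) ≤ exp (n^g ℒ^2 + ℒ nb)`.
(`tendsto` facts: `S ≤ 2 L`, `LL_pow_le` of CHV/Par for powers of `L` against powers of `n`; `L = ℒ/B`.)
-/

set_option autoImplicit false

namespace Pool.Agent.CHP

open Finset Filter Pool.Agent.CHV

/-- The analytic inequalities for one large `n`. -/
private structure Big (p : ℝ) (K : ℕ) (g : ℝ) (n : ℕ) : Prop where
  n3 : 3 ≤ n
  L1 : 1 ≤ LL p n
  l7 : 7 ≤ Real.log n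
  SL : (SS p K n : ℝ) ≤ 2 * LL p n
  c : 2 * Real.log n * ((SS p K n : ℝ) + 1) ≤ (n : ℝ) ^ g
  d : 2 * (n : ℝ) ^ (1 / 100 : ℝ) * ((SS p K n : ℝ) + 1) ^ 3 * (n : ℝ) ^ (-(11 / 25) : ℝ) * n ≤ (n : ℝ) ^ g
  e : 1 + 2 * (n : ℝ) ^ (1 / 100 : ℝ) * ((SS p K n : ℝ) + 1) ^ 2 * Real.sqrt n ≤ n

private theorem big {p : ℝ} (h0 : 0 < p) (h1 : p < 1) (K : ℕ) {g : ℝ} (hg : 3 / 5 ≤ g) :
    ∀ᶠ n : ℕ in atTop, Big p K g n := by
  have hB := ell_pos h0 h1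
  have hlog : Tendsto (fun n : ℕ => Real.log n) atTop atTop :=
    Real.tendsto_log_atTop.comp tendsto_natCast_atTop_atTop
  have hg0 : 0 < g := by linarith
  filter_upwards [eventually_ge_atTop 3, (tendsto_LL h0 h1).eventually_ge_atTop 1,
    hlog.eventually_ge_atTop 7, SS_le h0 h1 K,
    LL_pow_le h0 h1 2 (6 * (-Real.log (1 - p))) hg0,
    LL_pow_le h0 h1 3 54 (c := 3 / 100) (by norm_num),
    LL_pow_le h0 h1 2 19 (c := 49 / 100) (by norm_num)] with n n3 L1 l7 SL e1 e2 e3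
  have hn0 : (0 : ℝ) < n := by
    have : 0 < n := by omega
    exact_mod_cast this
  have hn1 : (1 : ℝ) ≤ n := by
    have : 1 ≤ n := by omega
    exact_mod_cast this
  have hS0 : (0 : ℝ) ≤ SS p K n := Nat.cast_nonneg _
  have hS1 : (SS p K n : ℝ) + 1 ≤ 3 * LL p n := by linarith
  have hLe : Real.log n = (-Real.log (1 - p)) * LL p n := by
    unfold LL
    rw [mul_div_cancel₀ _ (ne_of_gt hB)]
  refine ⟨n3, L1, l7, SL, ?_, ?_, ?_⟩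
  · refine le_trans ?_ e1
    rw [hLe]
    have h2 : 0 ≤ 2 * ((-Real.log (1 - p)) * LL p n) := by positivity
    calc 2 * ((-Real.log (1 - p)) * LL p n) * ((SS p K n : ℝ) + 1)
        ≤ 2 * ((-Real.log (1 - p)) * LL p n) * (3 * LL p n) := mul_le_mul_of_nonneg_left hS1 h2
      _ = 6 * (-Real.log (1 - p)) * LL p n ^ 2 := by ring
  · have h3 : ((SS p K n : ℝ) + 1) ^ 3 ≤ 27 * LL p n ^ 3 := by
      calc ((SS p K n : ℝ) + 1) ^ 3 ≤ (3 * LL p n) ^ 3 := pow_le_pow_left₀ (by linarith) hS1 3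
        _ = 27 * LL p n ^ 3 := by ring
    have h4 : (n : ℝ) ^ (1 / 100 : ℝ) * (n : ℝ) ^ (-(11 / 25) : ℝ) * n = (n : ℝ) ^ (57 / 100 : ℝ) := by
      nth_rw 3 [← Real.rpow_one (n : ℝ)]
      rw [← Real.rpow_add hn0, ← Real.rpow_add hn0]
      norm_num
    have h5 : (n : ℝ) ^ (3 / 100 : ℝ) * (n : ℝ) ^ (57 / 100 : ℝ) = (n : ℝ) ^ (3 / 5 : ℝ) := by
      rw [← Real.rpow_add hn0]
      norm_num
    have h6 : (n : ℝ) ^ (3 / 5 : ℝ) ≤ (n : ℝ) ^ g := Real.rpow_le_rpow_of_exponent_le hn1 hg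
    have h7 : (0 : ℝ) ≤ (n : ℝ) ^ (57 / 100 : ℝ) := Real.rpow_nonneg hn0.le _
    calc 2 * (n : ℝ) ^ (1 / 100 : ℝ) * ((SS p K n : ℝ) + 1) ^ 3 * (n : ℝ) ^ (-(11 / 25) : ℝ) * n
        = 2 * ((SS p K n : ℝ) + 1) ^ 3 * ((n : ℝ) ^ (1 / 100 : ℝ) * (n : ℝ) ^ (-(11 / 25) : ℝ) * n) := by ring
      _ = 2 * ((SS p K n : ℝ) + 1) ^ 3 * (n : ℝ) ^ (57 / 100 : ℝ) := by rw [h4]
      _ ≤ (n : ℝ) ^ (3 / 100 : ℝ) * (n : ℝ) ^ (57 / 100 : ℝ) := by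
          apply mul_le_mul_of_nonneg_right _ h7
          linarith
      _ = (n : ℝ) ^ (3 / 5 : ℝ) := h5
      _ ≤ (n : ℝ) ^ g := h6
  · have h3 : ((SS p K n : ℝ) + 1) ^ 2 ≤ 9 * LL p n ^ 2 := by
      calc ((SS p K n : ℝ) + 1) ^ 2 ≤ (3 * LL p n) ^ 2 := pow_le_pow_left₀ (by linarith) hS1 2
        _ = 9 * LL p n ^ 2 := by ring
    have h4 : (n : ℝ) ^ (1 / 100 : ℝ) * Real.sqrt n = (n : ℝ) ^ (51 / 100 : ℝ) := by
      rw [Real.sqrt_eq_rpow, ← Real.rpow_add hn0]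
      norm_num
    have h5 : (n : ℝ) ^ (49 / 100 : ℝ) * (n : ℝ) ^ (51 / 100 : ℝ) = n := by
      rw [← Real.rpow_add hn0]
      norm_num
    have h7 : (1 : ℝ) ≤ (n : ℝ) ^ (51 / 100 : ℝ) := Real.one_le_rpow hn1 (by norm_num)
    have h8 : 1 ≤ LL p n ^ 2 := one_le_pow₀ L1
    calc 1 + 2 * (n : ℝ) ^ (1 / 100 : ℝ) * ((SS p K n : ℝ) + 1) ^ 2 * Real.sqrt n
        = 1 + 2 * ((SS p K n : ℝ) + 1) ^ 2 * ((n : ℝ) ^ (1 / 100 : ℝ) * Real.sqrt n) := by ring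
      _ = 1 + 2 * ((SS p K n : ℝ) + 1) ^ 2 * (n : ℝ) ^ (51 / 100 : ℝ) := by rw [h4]
      _ ≤ 1 + 18 * LL p n ^ 2 * (n : ℝ) ^ (51 / 100 : ℝ) := by
          have : 2 * ((SS p K n : ℝ) + 1) ^ 2 * (n : ℝ) ^ (51 / 100 : ℝ) ≤
              18 * LL p n ^ 2 * (n : ℝ) ^ (51 / 100 : ℝ) :=
            mul_le_mul_of_nonneg_right (by linarith) (by linarith)
          linarith
      _ ≤ 19 * LL p n ^ 2 * (n : ℝ) ^ (51 / 100 : ℝ) := by nlinarith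
      _ ≤ (n : ℝ) ^ (49 / 100 : ℝ) * (n : ℝ) ^ (51 / 100 : ℝ) :=
          mul_le_mul_of_nonneg_right e3 (by linarith)
      _ = n := h5

private theorem q_pow {p : ℝ} (h0 : 0 < p) (h1 : p < 1) {K : ℕ} {g : ℝ} (hg : 3 / 5 ≤ g) {n : ℕ}
    (hb : Big p K g n) :
    (3 * (1 / (1 - p)) ^ (SS p K n)) ^ ⌈(n : ℝ) ^ g⌉₊ ≤ Real.exp (6 * (n : ℝ) ^ g * Real.log n) := by
  have hB := ell_pos h0 h1
  have hn0 : (0 : ℝ) < n := by
    have : 0 < n := by have := hb.n3; omega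
    exact_mod_cast this
  have hn1 : (1 : ℝ) ≤ n := by
    have : 1 ≤ n := by have := hb.n3; omega
    exact_mod_cast this
  have h1p : 0 < 1 - p := by linarith
  have hLe : Real.log n = (-Real.log (1 - p)) * LL p n := by
    unfold LL
    rw [mul_div_cancel₀ _ (ne_of_gt hB)]
  have e1 : (1 / (1 - p)) ^ (SS p K n) ≤ Real.exp (2 * Real.log n) := by
    have e2 : (1 / (1 - p)) = Real.exp (-Real.log (1 - p)) := by
      rw [Real.exp_neg, Real.exp_log h1p, one_div]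
    rw [e2, ← Real.exp_nat_mul]
    apply Real.exp_le_exp.2
    rw [hLe]
    calc (SS p K n : ℝ) * (-Real.log (1 - p)) ≤ (2 * LL p n) * (-Real.log (1 - p)) :=
          mul_le_mul_of_nonneg_right hb.SL hB.le
      _ = _ := by ring
  have e3 : (3 : ℝ) ≤ Real.exp (Real.log n) := by
    rw [Real.exp_log hn0]
    exact_mod_cast hb.n3
  have e4 : 3 * (1 / (1 - p)) ^ (SS p K n) ≤ Real.exp (3 * Real.log n) := by
    calc 3 * (1 / (1 - p)) ^ (SS p K n) ≤ Real.exp (Real.log n) * Real.exp (2 * Real.log n) :=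
          mul_le_mul e3 e1 (by positivity) (Real.exp_pos _).le
      _ = _ := by
          rw [← Real.exp_add]
          congr 1
          ring
  have e5 : (⌈(n : ℝ) ^ g⌉₊ : ℝ) ≤ 2 * (n : ℝ) ^ g := by
    have e6 : (1 : ℝ) ≤ (n : ℝ) ^ g := Real.one_le_rpow hn1 (by linarith)
    have e7 := Nat.ceil_lt_add_one (a := (n : ℝ) ^ g) (by linarith)
    linarith
  have hl := hb.l7
  calc (3 * (1 / (1 - p)) ^ (SS p K n)) ^ ⌈(n : ℝ) ^ g⌉₊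
      ≤ Real.exp (3 * Real.log n) ^ ⌈(n : ℝ) ^ g⌉₊ := pow_le_pow_left₀ (by positivity) e4 _
    _ = Real.exp ((⌈(n : ℝ) ^ g⌉₊ : ℝ) * (3 * Real.log n)) := by rw [Real.exp_nat_mul]
    _ ≤ Real.exp (6 * (n : ℝ) ^ g * Real.log n) := by
        apply Real.exp_le_exp.2
        calc (⌈(n : ℝ) ^ g⌉₊ : ℝ) * (3 * Real.log n) ≤ (2 * (n : ℝ) ^ g) * (3 * Real.log n) :=
              mul_le_mul_of_nonneg_right e5 (by linarith)
          _ = _ := by ring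

/-- The final multiplication of the constants. -/
private theorem consts {p : ℝ} (h0 : 0 < p) (h1 : p < 1) {K : ℕ} {g : ℝ} (hg : 3 / 5 ≤ g) {n : ℕ}
    (hb : Big p K g n) (ci nb m : ℕ) (hci : ci ≤ n) (Y Y2 Y' : ℝ) (hY : 0 ≤ Y) (hY2 : 0 ≤ Y2)
    (hY' : 0 ≤ Y') :
    (Real.exp (ci * (n : ℝ) ^ (-(1 / 2) : ℝ)) * (3 * (1 / (1 - p)) ^ (SS p K n)) ^ ⌈(n : ℝ) ^ g⌉₊) *
      (((n : ℝ) + 1) ^ (SS p K n + 1) * (Y' * (Real.exp (2 * (n : ℝ) ^ (1 / 100 : ℝ) *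
        ((SS p K n : ℝ) + 1) ^ 3 * (n : ℝ) ^ (-(11 / 25) : ℝ) * n) *
        (1 + 2 * (n : ℝ) ^ (1 / 100 : ℝ) * ((SS p K n : ℝ) + 1) ^ 2 * Real.sqrt n) ^ nb)) *
        (Y + Y2 * (1 / (n : ℝ) ^ (1 / 100 : ℝ)) ^ m)) ≤
      Real.exp ((n : ℝ) ^ g * Real.log n ^ 2 + Real.log n * (nb : ℝ)) * Y' *
            (Y + Y2 * Real.exp (-(Real.log n / 100 * ((m : ℕ) : ℝ)))) := by
  have hn0 : (0 : ℝ) < n := by
    have : 0 < n := by have := hb.n3; omega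
    exact_mod_cast this
  have hn1 : (1 : ℝ) ≤ n := by
    have : 1 ≤ n := by have := hb.n3; omega
    exact_mod_cast this
  have hn3 : (3 : ℝ) ≤ n := by exact_mod_cast hb.n3
  have hng : (n : ℝ) ^ (1 / 2 : ℝ) ≤ (n : ℝ) ^ g := Real.rpow_le_rpow_of_exponent_le hn1 (by linarith)
  have hng1 : (1 : ℝ) ≤ (n : ℝ) ^ g := Real.one_le_rpow hn1 (by linarith)
  have a1 : Real.exp (ci * (n : ℝ) ^ (-(1 / 2) : ℝ)) ≤ Real.exp ((n : ℝ) ^ g) := by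
    apply Real.exp_le_exp.2
    refine le_trans ?_ hng
    have : (ci : ℝ) ≤ n := by exact_mod_cast hci
    calc (ci : ℝ) * (n : ℝ) ^ (-(1 / 2) : ℝ) ≤ n * (n : ℝ) ^ (-(1 / 2) : ℝ) :=
          mul_le_mul_of_nonneg_right this (Real.rpow_nonneg hn0.le _)
      _ = (n : ℝ) ^ (1 / 2 : ℝ) := by
          nth_rw 1 [← Real.rpow_one (n : ℝ)]
          rw [← Real.rpow_add hn0]
          norm_num
  have a2 := q_pow h0 h1 hg hb
  have a3 : ((n : ℝ) + 1) ^ (SS p K n + 1) ≤ Real.exp ((n : ℝ) ^ g) := by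
    have e1 : (n : ℝ) + 1 ≤ Real.exp (2 * Real.log n) := by
      rw [two_mul, Real.exp_add, Real.exp_log hn0]
      nlinarith
    calc ((n : ℝ) + 1) ^ (SS p K n + 1) ≤ Real.exp (2 * Real.log n) ^ (SS p K n + 1) :=
          pow_le_pow_left₀ (by linarith) e1 _
      _ = Real.exp (((SS p K n + 1 : ℕ) : ℝ) * (2 * Real.log n)) := by rw [Real.exp_nat_mul]
      _ ≤ Real.exp ((n : ℝ) ^ g) := by
          apply Real.exp_le_exp.2
          refine le_trans (le_of_eq ?_) hb.c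
          push_cast
          ring
  have a4 : Real.exp (2 * (n : ℝ) ^ (1 / 100 : ℝ) * ((SS p K n : ℝ) + 1) ^ 3 *
      (n : ℝ) ^ (-(11 / 25) : ℝ) * n) ≤ Real.exp ((n : ℝ) ^ g) := Real.exp_le_exp.2 hb.d
  have a5 : (1 + 2 * (n : ℝ) ^ (1 / 100 : ℝ) * ((SS p K n : ℝ) + 1) ^ 2 * Real.sqrt n) ^ nb ≤
      Real.exp (Real.log n * nb) := by
    have e1 : 0 ≤ 1 + 2 * (n : ℝ) ^ (1 / 100 : ℝ) * ((SS p K n : ℝ) + 1) ^ 2 * Real.sqrt n := by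
      have := Real.rpow_nonneg hn0.le (1 / 100 : ℝ)
      have := Real.sqrt_nonneg (n : ℝ)
      positivity
    calc _ ≤ (n : ℝ) ^ nb := pow_le_pow_left₀ e1 hb.e _
      _ = Real.exp (Real.log n) ^ nb := by rw [Real.exp_log hn0]
      _ = Real.exp (Real.log n * nb) := by rw [← Real.exp_nat_mul, mul_comm]
  have a6 : (1 / (n : ℝ) ^ (1 / 100 : ℝ)) ^ m = Real.exp (-(Real.log n / 100 * (m : ℝ))) := by
    have e1 : (1 / (n : ℝ) ^ (1 / 100 : ℝ)) = Real.exp (-(Real.log n / 100)) := by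
      rw [Real.rpow_def_of_pos hn0, Real.exp_neg, one_div]
      congr 2
      ring
    rw [e1, ← Real.exp_nat_mul]
    congr 1
    ring
  rw [a6]
  set Z := Y + Y2 * Real.exp (-(Real.log n / 100 * (m : ℝ))) with hZ
  have hZ0 : 0 ≤ Z := by
    have := Real.exp_pos (-(Real.log n / 100 * (m : ℝ)))
    positivity
  have hl := hb.l7
  have b1 : 0 ≤ (3 * (1 / (1 - p)) ^ (SS p K n)) ^ ⌈(n : ℝ) ^ g⌉₊ := by
    have : 0 < 1 - p := by linarith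
    positivity
  have b5 : 0 ≤ (1 + 2 * (n : ℝ) ^ (1 / 100 : ℝ) * ((SS p K n : ℝ) + 1) ^ 2 * Real.sqrt n) ^ nb := by
    have := Real.rpow_nonneg hn0.le (1 / 100 : ℝ)
    have := Real.sqrt_nonneg (n : ℝ)
    positivity
  have c1 : (Real.exp (ci * (n : ℝ) ^ (-(1 / 2) : ℝ)) *
      (3 * (1 / (1 - p)) ^ (SS p K n)) ^ ⌈(n : ℝ) ^ g⌉₊) ≤
      Real.exp ((n : ℝ) ^ g) * Real.exp (6 * (n : ℝ) ^ g * Real.log n) :=
    mul_le_mul a1 a2 b1 (Real.exp_pos _).le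
  have c2 : Real.exp (2 * (n : ℝ) ^ (1 / 100 : ℝ) * ((SS p K n : ℝ) + 1) ^ 3 *
      (n : ℝ) ^ (-(11 / 25) : ℝ) * n) *
        (1 + 2 * (n : ℝ) ^ (1 / 100 : ℝ) * ((SS p K n : ℝ) + 1) ^ 2 * Real.sqrt n) ^ nb ≤
      Real.exp ((n : ℝ) ^ g) * Real.exp (Real.log n * nb) :=
    mul_le_mul a4 a5 b5 (Real.exp_pos _).le
  have c3 : ((n : ℝ) + 1) ^ (SS p K n + 1) * (Y' * (Real.exp (2 * (n : ℝ) ^ (1 / 100 : ℝ) *
        ((SS p K n : ℝ) + 1) ^ 3 * (n : ℝ) ^ (-(11 / 25) : ℝ) * n) *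
        (1 + 2 * (n : ℝ) ^ (1 / 100 : ℝ) * ((SS p K n : ℝ) + 1) ^ 2 * Real.sqrt n) ^ nb)) ≤
      Real.exp ((n : ℝ) ^ g) * (Y' * (Real.exp ((n : ℝ) ^ g) * Real.exp (Real.log n * nb))) :=
    mul_le_mul a3 (mul_le_mul_of_nonneg_left c2 hY')
      (mul_nonneg hY' (mul_nonneg (Real.exp_pos _).le b5)) (Real.exp_pos _).le
  have c4 : 0 ≤ ((n : ℝ) + 1) ^ (SS p K n + 1) * (Y' * (Real.exp (2 * (n : ℝ) ^ (1 / 100 : ℝ) *
        ((SS p K n : ℝ) + 1) ^ 3 * (n : ℝ) ^ (-(11 / 25) : ℝ) * n) *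
        (1 + 2 * (n : ℝ) ^ (1 / 100 : ℝ) * ((SS p K n : ℝ) + 1) ^ 2 * Real.sqrt n) ^ nb)) :=
    mul_nonneg (by positivity) (mul_nonneg hY' (mul_nonneg (Real.exp_pos _).le b5))
  calc (Real.exp (ci * (n : ℝ) ^ (-(1 / 2) : ℝ)) * (3 * (1 / (1 - p)) ^ (SS p K n)) ^ ⌈(n : ℝ) ^ g⌉₊) *
      (((n : ℝ) + 1) ^ (SS p K n + 1) * (Y' * (Real.exp (2 * (n : ℝ) ^ (1 / 100 : ℝ) *
        ((SS p K n : ℝ) + 1) ^ 3 * (n : ℝ) ^ (-(11 / 25) : ℝ) * n) *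
        (1 + 2 * (n : ℝ) ^ (1 / 100 : ℝ) * ((SS p K n : ℝ) + 1) ^ 2 * Real.sqrt n) ^ nb)) * Z)
      ≤ (Real.exp ((n : ℝ) ^ g) * Real.exp (6 * (n : ℝ) ^ g * Real.log n)) *
        ((Real.exp ((n : ℝ) ^ g) * (Y' * (Real.exp ((n : ℝ) ^ g) * Real.exp (Real.log n * nb)))) * Z) :=
        mul_le_mul c1 (mul_le_mul_of_nonneg_right c3 hZ0) (mul_nonneg c4 hZ0)
          (mul_nonneg (Real.exp_pos _).le (Real.exp_pos _).le)
    _ = (Real.exp ((n : ℝ) ^ g) * Real.exp (6 * (n : ℝ) ^ g * Real.log n) *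
        Real.exp ((n : ℝ) ^ g) * Real.exp ((n : ℝ) ^ g) * Real.exp (Real.log n * nb)) * Y' * Z := by ring
    _ = Real.exp ((n : ℝ) ^ g + 6 * (n : ℝ) ^ g * Real.log n + (n : ℝ) ^ g + (n : ℝ) ^ g +
        Real.log n * nb) * Y' * Z := by rw [Real.exp_add, Real.exp_add, Real.exp_add, Real.exp_add]
    _ ≤ Real.exp ((n : ℝ) ^ g * Real.log n ^ 2 + Real.log n * (nb : ℝ)) * Y' * Z := by
        apply mul_le_mul_of_nonneg_right _ hZ0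
        apply mul_le_mul_of_nonneg_right _ hY'
        apply Real.exp_le_exp.2
        have : (3 + 6 * Real.log n) ≤ Real.log n ^ 2 := by nlinarith
        nlinarith [mul_le_mul_of_nonneg_left this (le_trans zero_le_one hng1)]

open Classical in
theorem core_final {p : ℝ} (h0 : 0 < p) (h1 : p < 1) (K : ℕ) {g : ℝ} (hg : 3 / 5 ≤ g)
    (hg1 : g < 1) :
    ∀ᶠ n : ℕ in atTop, ∀ (ι ι' : Type) [Fintype ι] [DecidableEq ι] [Fintype ι'] [DecidableEq ι']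
      (u : ι → ℕ) (u' : ι' → ℕ), (∀ i, 1 ≤ u i) → (∀ i, u i ≤ SS p K n) → ∑ i, u i ≤ n →
      (∀ i, 1 ≤ u' i) → (∀ i, u' i ≤ SS p K n) → ∑ i, u' i ≤ n →
      ∀ I ∈ OP (univ : Finset (Fin n)) u, ∀ (T : Finset (Fin n)) (x st : ℕ) (Y Y2 Y' : ℝ),
      0 ≤ Y → 0 ≤ Y2 → 0 ≤ Y' →
      (∀ σ : ℕ → ℕ, (∀ v ≤ SS p K n, σ v ≤ cnt u' v) →
        (bin (SS p K n) (cnt u') σ : ℝ) ≤ Y' * Real.sqrt (EZ p n (SS p K n) σ)) →
      (∀ σ : ℕ → ℕ, (∀ v ≤ SS p K n, σ v ≤ cnt u v) → x ≤ num (SS p K n) σ →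
        sz (SS p K n) σ ≤ st →
        (bin (SS p K n) (cnt u) σ : ℝ) ≤ Y * Real.sqrt (EZ p n (SS p K n) σ)) →
      (∀ σ : ℕ → ℕ, (∀ v ≤ SS p K n, σ v ≤ cnt u v) →
        (bin (SS p K n) (cnt u) σ : ℝ) ≤ Y2 * Real.sqrt (EZ p n (SS p K n) σ)) →
      ∑ J ∈ OP (univ : Finset (Fin n)) u',
        (∏ i, ∏ j, fw 3 (1 / (1 - p)) (rz (SS p K n)) (I i ∩ T ∩ J j).card) *
          ind (x ≤ Mg (rz (SS p K n)) (fun i => I i ∩ T) J) ≤
        ((OP (univ : Finset (Fin n)) u').card : ℝ) *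
          (Real.exp ((n : ℝ) ^ g * Real.log n ^ 2 + Real.log n *
            ((univ.filter (fun i => 20 * u i < 19 * SS p K n)).card : ℝ)) * Y' *
            (Y + Y2 * Real.exp (-(Real.log n / 100 * (((st - T.card) / SS p K n : ℕ) : ℝ))))) := by
  filter_upwards [big h0 h1 K hg, delta_small h0 h1 K hg, rt_bound h0 h1 K] with n hb hds hrt
  intro ι ι' _ _ _ _ u u' hu1 huS hun hu'1 hu'S hu'n I hI T x st Y Y2 Y' hY hY2 hY' H' HY HY2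
  have hn0 : 0 < n := by have := hb.n3; omega
  have hn0' : (0 : ℝ) < n := by exact_mod_cast hn0
  have hn1 : (1 : ℝ) ≤ n := by exact_mod_cast hn0
  rw [mem_OP] at hI
  have h1p : 0 < 1 - p := by linarith
  have hb1 : (1 : ℝ) ≤ 1 / (1 - p) := by
    rw [le_div_iff₀ h1p]
    linarith
  have hQ1 : (1 : ℝ) ≤ 3 * (1 / (1 - p)) ^ (SS p K n) := by
    have := one_le_pow₀ hb1 (n := SS p K n)
    linarith
  have hAd : ∀ i j, i ≠ j → Disjoint (I i ∩ T) (I j ∩ T) := by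
    intro i j hij
    exact Finset.disjoint_of_subset_left Finset.inter_subset_left
      (Finset.disjoint_of_subset_right Finset.inter_subset_left (hI.2 i j hij))
  have hAu : ∀ i, (I i ∩ T).card ≤ u i := fun i =>
    le_trans (Finset.card_le_card Finset.inter_subset_left) (le_of_eq (hI.1 i).2)
  have hAS : ∀ i, (I i ∩ T).card ≤ SS p K n := fun i => le_trans (hAu i) (huS i)
  have hci : Fintype.card ι ≤ n := by
    refine le_trans ?_ hun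
    have : Fintype.card ι = ∑ _i : ι, 1 := by simp
    rw [this]
    exact Finset.sum_le_sum (fun i _ => hu1 i)
  have hci' : Fintype.card ι' ≤ n := by
    refine le_trans ?_ hu'n
    have : Fintype.card ι' = ∑ _i : ι', 1 := by simp
    rw [this]
    exact Finset.sum_le_sum (fun i _ => hu'1 i)
  have hδ : (0 : ℝ) ≤ (n : ℝ) ^ (-(1 / 2) : ℝ) := Real.rpow_nonneg hn0'.le _
  -- the sequential bound
  have hE : ∀ (R : Finset (Fin n)) (v : ι' → ℕ), (∀ j, v j ≤ SS p K n) →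
      ∑ J ∈ OP R v, ∏ j, ∏ i, om 3 (1 / (1 - p)) (rz (SS p K n)) ((I i ∩ T) ∩ J j).card ≤
        ((OP R v).card : ℝ) * (Real.exp (Fintype.card ι' * (n : ℝ) ^ (-(1 / 2) : ℝ)) *
          (3 * (1 / (1 - p)) ^ (SS p K n)) ^ ⌈(n : ℝ) ^ g⌉₊) := by
    intro R v hv
    refine seq_bound (fun J => ∏ i, om 3 (1 / (1 - p)) (rz (SS p K n)) ((I i ∩ T) ∩ J).card) ?_
      ⌈(n : ℝ) ^ g⌉₊ (SS p K n) ((n : ℝ) ^ (-(1 / 2) : ℝ)) (3 * (1 / (1 - p)) ^ (SS p K n)) hδ hQ1 ?_ ?_ R v hv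
    · intro J
      exact Finset.prod_nonneg (fun i _ => le_trans zero_le_one (one_le_om (by norm_num) hb1 _ _))
    · intro R' hR' l hl
      have hRg : (n : ℝ) ^ g ≤ (R'.card : ℝ) := le_trans (Nat.le_ceil _) (by exact_mod_cast hR')
      have hRn : R'.card ≤ n := by
        have := Finset.card_le_univ R'
        rwa [Fintype.card_fin] at this
      have hR0 : 0 < R'.card := by
        have : (0 : ℝ) < (R'.card : ℝ) := lt_of_lt_of_le (Real.rpow_pos_of_pos hn0' _) hRg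
        exact_mod_cast this
      refine le_trans (small_sum (fun i => I i ∩ T) hAd (SS p K n) (rz (SS p K n)) hAS 3 (1 / (1 - p))
        (by norm_num) hb1 R' hR0 l hl) ?_
      apply mul_le_mul_of_nonneg_left _ (Nat.cast_nonneg _)
      exact Real.exp_le_exp.2 (hds R'.card hRg hRn)
    · intro J
      exact om_prod (fun i => I i ∩ T) hAd hAS (by norm_num) hb1 J
  have hr : SS p K n ≤ 2 * rz (SS p K n) + 1 := by
    unfold rz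
    omega
  have hE0 : 0 ≤ Real.exp (Fintype.card ι' * (n : ℝ) ^ (-(1 / 2) : ℝ)) *
          (3 * (1 / (1 - p)) ^ (SS p K n)) ^ ⌈(n : ℝ) ^ g⌉₊ := by positivity
  have hcore := core_sum hr (fun i => I i ∩ T) hAd hAS u' hu'S (θ := 3) (b := 1 / (1 - p))
    (by norm_num) hb1 _ hE0 hE x
  refine le_trans hcore ?_
  have hsT : ∑ i, (I i ∩ T).card ≤ T.card := by
    rw [← Finset.card_biUnion (fun i _ j _ hij => hAd i j hij)]
    exact Finset.card_le_card (Finset.biUnion_subset.2 (fun i _ => Finset.inter_subset_right))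
  have hρ1 : (n : ℝ) ^ (-(11 / 25) : ℝ) ≤ 1 := Real.rpow_le_one_of_one_le_of_nonpos hn1 (by norm_num)
  have hΘ1 : 1 ≤ (n : ℝ) ^ (1 / 100 : ℝ) := Real.one_le_rpow hn1 (by norm_num)
  have hww := sum_WW (p := p) h0.le h1 (n := n) (S := SS p K n) (r0 := rz (SS p K n)) hn0 (cnt u')
    (fun i => (I i ∩ T).card) u hAu huS hun hci (by rw [sz_cnt u' hu'S]; exact hu'n)
    ((n : ℝ) ^ (-(11 / 25) : ℝ)) ((n : ℝ) ^ (1 / 100 : ℝ)) Y Y2 Y' (Real.rpow_nonneg hn0'.le _) hρ1 hΘ1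
    hY hY2 hY' (fun v c h1 h2 h3 => (hrt v c h1 h2 h3).1)
    (fun v c h1 h2 h3 h4 => (hrt v c h1.le h2 h3).2 h1 h4) x T.card st hsT H' HY HY2
  rw [mul_assoc]
  apply mul_le_mul_of_nonneg_left _ (Nat.cast_nonneg _)
  refine le_trans (mul_le_mul_of_nonneg_left hww hE0) ?_
  exact consts h0 h1 hg hb (Fintype.card ι') _ _ hci' Y Y2 Y' hY hY2 hY'

end Pool.Agent.CHP
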