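import Pool.Agent.CHP.Defs

/-!
# CHP / CrA: the system of cores of two families of disjoint sets

PROOF.  `S ≤ 2 r0 + 1`, so two disjoint subsets with more than `r0` elements of a set with at most `S` elements do not exist.
Hence for every `i` there is at most one `j` with `r0 < |A i ∩ J j|` (the `J j` are disjoint, `|A i| ≤ S`).
`C i = some (j, A i ∩ J j)` if there is such a `j` (use `if h : ∃ j, .. then some (h.choose, A i ∩ J h.choose) else none`) and
`C i = none` otherwise.  `Cmp` and the count (`(C i).isSome ↔ ∃ j, ..`) are clear.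
Product: for fixed `i`, `∏ j, fw θ b r0 |A i ∩ J j| = ((C i).elim 1 fun q => b ^ (q.2.card.choose 2)) * ∏ j, om θ b r0 |A i ∩ J j|`:
for `r ≤ r0` `fw θ b r0 r = om θ b r0 r` (for `r < 2`, `r.choose 2 = 0`), for `r0 < r` `fw = b ^ (r.choose 2)` (as `¬ r ≤ r0`) and
`om = 1`.  If `C i = none` all `|A i ∩ J j| ≤ r0`.  If `C i = some (j0, K)` take the factor `j0` out
(`Finset.mul_prod_erase` or `Finset.prod_eq_mul_prod_diff_singleton`), for the other `j` `|A i ∩ J j| ≤ r0` by uniqueness.
Then `Finset.prod_mul_distrib`.  (No assumption on `θ, b` is needed.)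
-/

set_option autoImplicit false

namespace Pool.Agent.CHP

open Finset Pool.Agent.CHV

variable {n : ℕ} {ι ι' : Type} [Fintype ι] [DecidableEq ι] [Fintype ι'] [DecidableEq ι']

private theorem fw_small {θ b : ℝ} {r0 r : ℕ} (h : r ≤ r0) : fw θ b r0 r = om θ b r0 r := by
  unfold fw om
  by_cases h2 : 2 ≤ r
  · rw [if_pos ⟨h2, h⟩, if_pos ⟨h2, h⟩]
  · rw [if_neg (fun q => h2 q.1), if_neg (fun q => h2 q.1), Nat.choose_eq_zero_of_lt (by omega)]
    simp

private theorem fw_large {θ b : ℝ} {r0 r : ℕ} (h : r0 < r) :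
    fw θ b r0 r = b ^ (r.choose 2) * om θ b r0 r := by
  unfold fw om
  rw [if_neg (fun q => absurd q.2 (by omega)), if_neg (fun q => absurd q.2 (by omega))]
  ring

private theorem uniq_large {S r0 : ℕ} (hr : S ≤ 2 * r0 + 1) (I : Finset (Fin n))
    (hS : I.card ≤ S) (J : ι' → Finset (Fin n)) (hJ : ∀ i j, i ≠ j → Disjoint (J i) (J j))
    {j j' : ι'} (h : r0 < (I ∩ J j).card) (h' : r0 < (I ∩ J j').card) : j = j' := by
  by_contra hne
  have hd : Disjoint (I ∩ J j) (I ∩ J j') :=
    Finset.disjoint_of_subset_left Finset.inter_subset_right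
      (Finset.disjoint_of_subset_right Finset.inter_subset_right (hJ j j' hne))
  have h1 : (I ∩ J j ∪ I ∩ J j').card ≤ I.card :=
    Finset.card_le_card (Finset.union_subset Finset.inter_subset_left Finset.inter_subset_left)
  rw [Finset.card_union_of_disjoint hd] at h1
  omega

theorem core_exists {S r0 : ℕ} (hr : S ≤ 2 * r0 + 1) (A : ι → Finset (Fin n))
    (hS : ∀ i, (A i).card ≤ S) (J : ι' → Finset (Fin n))
    (hJ : ∀ i j, i ≠ j → Disjoint (J i) (J j)) (θ b : ℝ) :
    ∃ C : ι → Option (ι' × Finset (Fin n)), Cmp r0 A J C ∧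
      (univ.filter (fun i => (C i).isSome = true)).card = Mg r0 A J ∧
      ∏ i, ∏ j, fw θ b r0 (A i ∩ J j).card =
        (∏ i, (C i).elim (1 : ℝ) (fun q => b ^ (q.2.card.choose 2))) *
          ∏ i, ∏ j, om θ b r0 (A i ∩ J j).card := by
  classical
  have hex : ∀ i : ι, ∃ c : Option (ι' × Finset (Fin n)),
      (∀ q : ι' × Finset (Fin n), c = some q → q.2 = A i ∩ J q.1 ∧ r0 < (A i ∩ J q.1).card) ∧
      (c.isSome = true ↔ ∃ j, r0 < (A i ∩ J j).card) := by
    intro i
    by_cases h : ∃ j, r0 < (A i ∩ J j).card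
    · obtain ⟨j, hj⟩ := h
      refine ⟨some (j, A i ∩ J j), ?_, ?_⟩
      · intro q hq
        rw [Option.some.injEq] at hq
        subst hq
        exact ⟨rfl, hj⟩
      · exact ⟨fun _ => ⟨j, hj⟩, fun _ => rfl⟩
    · refine ⟨none, ?_, ?_⟩
      · intro q hq
        exact absurd hq (by simp)
      · exact ⟨fun q => absurd q (by simp), fun q => absurd q h⟩
  choose C hC1 hC2 using hex
  refine ⟨C, ?_, ?_, ?_⟩
  · intro i q hq
    obtain ⟨h1, h2⟩ := hC1 i q hq
    rw [h1]
    exact ⟨Finset.inter_subset_left, h2, Finset.inter_subset_right⟩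
  · unfold Mg
    congr 1
    apply Finset.filter_congr
    intro i _
    exact hC2 i
  · rw [← Finset.prod_mul_distrib]
    apply Finset.prod_congr rfl
    intro i _
    rcases hc : C i with _ | q
    · have hno : ¬ ∃ j, r0 < (A i ∩ J j).card := by
        rw [← hC2 i, hc]
        simp
      rw [Option.elim_none, one_mul]
      apply Finset.prod_congr rfl
      intro j _
      apply fw_small
      by_contra h
      exact hno ⟨j, by omega⟩
    · obtain ⟨h1, h2⟩ := hC1 i q hc
      rw [Option.elim_some]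
      rw [← Finset.mul_prod_erase univ (fun j => fw θ b r0 (A i ∩ J j).card) (Finset.mem_univ q.1),
        ← Finset.mul_prod_erase univ (fun j => om θ b r0 (A i ∩ J j).card) (Finset.mem_univ q.1)]
      rw [fw_large h2, h1, mul_assoc]
      congr 2
      apply Finset.prod_congr rfl
      intro j hj
      apply fw_small
      by_contra h
      exact (Finset.mem_erase.1 hj).1
        (uniq_large hr (A i) (hS i) J hJ (by omega) h2)

end Pool.Agent.CHP
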