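import Pool.Agent.CHV.Defs

/-!
# CHP / Defs: a polynomial improvement for the standard deviation of the chromatic number of `G(n,p)`
(MP_5dcc87_pr).  Blueprint: /team-store/chp_blueprint.md

Ordered packings, profiles, expected numbers of packings, cores, the Gibbs profile.
-/

set_option autoImplicit false

namespace Pool.Agent.CHP

open Finset Pool.Agent.CHV

section Packings

variable {n : ℕ} {ι ι' : Type} [Fintype ι] [DecidableEq ι] [Fintype ι'] [DecidableEq ι']

open Classical in
/-- Ordered packings: families of pairwise disjoint subsets of `R` with prescribed sizes. -/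
noncomputable def OP (R : Finset (Fin n)) (u : ι → ℕ) : Finset (ι → Finset (Fin n)) :=
  univ.filter (fun J => (∀ i, J i ⊆ R ∧ (J i).card = u i) ∧ ∀ i j, i ≠ j → Disjoint (J i) (J j))

theorem mem_OP {R : Finset (Fin n)} {u : ι → ℕ} {J : ι → Finset (Fin n)} :
    J ∈ OP R u ↔ (∀ i, J i ⊆ R ∧ (J i).card = u i) ∧ ∀ i j, i ≠ j → Disjoint (J i) (J j) := by
  classical
  unfold OP
  rw [Finset.mem_filter]
  exact ⟨fun h => h.2, fun h => ⟨Finset.mem_univ _, h⟩⟩

/-- The number of indices `i` with `u i = v`. -/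
def cnt (u : ι → ℕ) (v : ℕ) : ℕ := (univ.filter (fun i => u i = v)).card

/-- Weight of a small overlap. -/
noncomputable def om (θ b : ℝ) (r0 r : ℕ) : ℝ := if 2 ≤ r ∧ r ≤ r0 then θ * b ^ (r.choose 2) else 1

/-- Weight of an overlap. -/
noncomputable def fw (θ b : ℝ) (r0 r : ℕ) : ℝ :=
  (if 2 ≤ r ∧ r ≤ r0 then θ else 1) * b ^ (r.choose 2)

/-- The number of sets of the family `A` having a large overlap with a set of the family `J`. -/
noncomputable def Mg (r0 : ℕ) (A : ι → Finset (Fin n)) (J : ι' → Finset (Fin n)) : ℕ :=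
  (univ.filter (fun i => ∃ j, r0 < (A i ∩ J j).card)).card

/-- `C` is a system of cores for the families `A` and `J`: if `C i = (j, K)` then `K` is a subset of
`A i ∩ J j` with more than `r0` elements. -/
def Cmp (r0 : ℕ) (A : ι → Finset (Fin n)) (J : ι' → Finset (Fin n))
    (C : ι → Option (ι' × Finset (Fin n))) : Prop :=
  ∀ i, ∀ q : ι' × Finset (Fin n), C i = some q → q.2 ⊆ A i ∧ r0 < q.2.card ∧ q.2 ⊆ J q.1

/-- The threshold between small and large overlaps. -/
def rz (S : ℕ) : ℕ := 11 * S / 20 + 1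

/-- The number of pairs of sets of the families having a small overlap. -/
noncomputable def Nu (r0 : ℕ) (A : ι → Finset (Fin n)) (J : ι' → Finset (Fin n)) : ℕ :=
  (univ.filter (fun q : ι × ι' => 2 ≤ (A q.1 ∩ J q.2).card ∧ (A q.1 ∩ J q.2).card ≤ r0)).card

end Packings

/-! ## Profiles -/

/-- `n^u q^C(u,2) / u!`. -/
noncomputable def NN (p : ℝ) (n u : ℕ) : ℝ :=
  (n : ℝ) ^ u * (1 - p) ^ (u.choose 2) / (u.factorial : ℝ)

/-- The number of vertices covered by the classes of a profile. -/
def sz (S : ℕ) (κ : ℕ → ℕ) : ℕ := ∑ v ∈ range (S + 1), v * κ v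

/-- The number of classes of a profile. -/
def num (S : ℕ) (κ : ℕ → ℕ) : ℕ := ∑ v ∈ range (S + 1), κ v

/-- The expected number of packings by independent sets with the profile `κ`. -/
noncomputable def EZ (p : ℝ) (n S : ℕ) (κ : ℕ → ℕ) : ℝ :=
  (∏ v ∈ range (S + 1), NN p n v ^ κ v / ((κ v).factorial : ℝ)) *
    ((n.descFactorial (sz S κ) : ℝ) / (n : ℝ) ^ (sz S κ))

/-- The number of choices of a subfamily with profile `σ` in a family with profile `κ`. -/
def bin (S : ℕ) (κ σ : ℕ → ℕ) : ℕ := ∏ v ∈ range (S + 1), (κ v).choose (σ v)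

/-- `log E Z_σ - 2 log (number of choices)`. -/
noncomputable def Hf (p : ℝ) (n S : ℕ) (κ σ : ℕ → ℕ) : ℝ :=
  Real.log (EZ p n S σ) - 2 * Real.log (bin S κ σ)

/-- The number of classes of the packing `P` of size `v`. -/
def prof {n : ℕ} (P : Finset (Finset (Fin n))) (v : ℕ) : ℕ := (P.filter (fun I => I.card = v)).card

open Classical in
/-- The number of classes of `P` having inside `T` a large overlap with a class of `Q`. -/
noncomputable def MgP {n : ℕ} (r0 : ℕ) (T : Finset (Fin n)) (P Q : Finset (Finset (Fin n))) : ℕ :=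
  (P.filter (fun I => ∃ J ∈ Q, r0 < (I ∩ T ∩ J).card)).card

/-- The number of pairs of classes of `P` and `Q` having a small overlap inside `T`. -/
noncomputable def NuP {n : ℕ} (r0 : ℕ) (T : Finset (Fin n)) (P Q : Finset (Finset (Fin n))) : ℕ :=
  ((P ×ˢ Q).filter (fun q => 2 ≤ (q.1 ∩ T ∩ q.2).card ∧ (q.1 ∩ T ∩ q.2).card ≤ r0)).card

/-! ## Labels of cores -/

section Labels

variable {ι : Type} [Fintype ι] [DecidableEq ι]

/-- A label: no core, or a pair (size of the class of the second packing, size of the core). -/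
abbrev Lb (S : ℕ) : Type := Option (Fin (S + 1) × Fin (S + 1))

/-- First component of a label (`0` if there is no core). -/
def lv {S : ℕ} (o : Lb S) : ℕ := o.elim 0 (fun q => (q.1 : ℕ))

/-- Second component of a label (`0` if there is no core). -/
def lc {S : ℕ} (o : Lb S) : ℕ := o.elim 0 (fun q => (q.2 : ℕ))

/-- The labels of a system of cores. -/
def lab {n : ℕ} {ι' : Type} (S : ℕ) (u' : ι' → ℕ) (C : ι → Option (ι' × Finset (Fin n))) :
    ι → Lb S :=
  fun i => (C i).map (fun q => (Fin.ofNat (S + 1) (u' q.1), Fin.ofNat (S + 1) q.2.card))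

/-- The indices with a core. -/
def dom {S : ℕ} (L : ι → Lb S) : Finset ι := univ.filter (fun i => (L i).isSome = true)

/-- The number of indices with a core in a class of size `v` of the second packing. -/
def pr2 {S : ℕ} (L : ι → Lb S) (v : ℕ) : ℕ := ((dom L).filter (fun i => lv (L i) = v)).card

/-- The number of indices of `D` with `u i = v`. -/
def prD (u : ι → ℕ) (D : Finset ι) (v : ℕ) : ℕ := (D.filter (fun i => u i = v)).card

/-- The total size of the cores. -/
def csz {S : ℕ} (L : ι → Lb S) : ℕ := ∑ i ∈ dom L, lc (L i)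

/-- Admissible labels: the core is large and not larger than the two sets. -/
def Adm {S : ℕ} (r0 : ℕ) (a : ι → ℕ) (L : ι → Lb S) : Prop :=
  ∀ i ∈ dom L, r0 < lc (L i) ∧ lc (L i) ≤ a i ∧ lc (L i) ≤ lv (L i)

/-- The weight of a system of labels (`κ'` = profile of the second packing, `a i` = size of the
`i`-th set of the first packing inside `T`). -/
noncomputable def WW (b : ℝ) (n S : ℕ) (κ' : ℕ → ℕ) (a : ι → ℕ) (L : ι → Lb S) : ℝ :=
  (∏ v ∈ range (S + 1), ((κ' v).descFactorial (pr2 L v) : ℝ)) *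
    (∏ i ∈ dom L, (((a i).choose (lc (L i)) : ℝ) * ((lv (L i)).descFactorial (lc (L i)) : ℝ) *
      b ^ ((lc (L i)).choose 2))) / (n.descFactorial (csz L) : ℝ)

end Labels

/-- `C(u,c) sqrt (N_u / N_c)`. -/
noncomputable def rt (p : ℝ) (n u c : ℕ) : ℝ :=
  (u.choose c : ℝ) * Real.sqrt (NN p n u / NN p n c)

/-! ## The Gibbs profile -/

/-- The number of classes of the Gibbs profile. -/
noncomputable def ks (t : ℕ) (ko : ℕ → ℝ) : ℝ := ∑ u ∈ range (t + 1), ko u

/-- Relative entropy of a profile with respect to the Gibbs profile (sizes `≤ t`). -/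
noncomputable def KL (t : ℕ) (ko κ : ℕ → ℝ) : ℝ :=
  ∑ u ∈ range (t + 1), (κ u * Real.log (κ u / ko u) - κ u + ko u)

/-- The Gibbs profile of the packings by sets of size `≤ t`. -/
structure Gib (p : ℝ) (n t : ℕ) (G A : ℝ) (ko : ℕ → ℝ) : Prop where
  eq : ∀ u ≤ t, ko u = NN p n u * Real.exp (G * u - A)
  sum : ∑ u ∈ range (t + 1), (u : ℝ) * ko u = n
  ent : (A + 1) * ks t ko = (1 + G) * n

end Pool.Agent.CHP
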