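import Pool.Agent.CHP.Defs
import Pool.Agent.CHV.Enr
import Pool.Agent.CHV.Piv

/-!
# CHP / EnS: the energy of a step by exchangeability

PROOF.  Put `T = pre n (j+1)`, `V = T.sym2`, `f = ff S lam`, `ε e = Ex p (fun x => CE p V (dd e f) x ^ 2)`.
1. `ε (e.map π) = ε e` for every permutation `π` of `Fin n` with `π '' T = T` (`∀ v, v ∈ T ↔ π v ∈ T`): the bijection `x ↦ (fun e => x (e.map π))` of
the configurations preserves the weights (`Ex_equiv` of CHV/ExR for the equivalence `Sym2` map of `π`: `Sym2.equivCongr`/`Equiv.sym2Congr`), `V` is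
invariant, `glue V (x ∘ map π) (y ∘ map π) = (glue V x y) ∘ map π`, `f (x ∘ map π) = f x` (`ff_perm`), and
`Function.update x (e.map π) b ∘ map π = Function.update (x ∘ map π) e b` (as `map π` is injective), so
`dd (e.map π) f x = dd e f (x ∘ map π)`, and the same for `CE`.
2. Hence `ε` is constant on `prs T`: for `s(a,b), s(c,d) ∈ prs T` there is such a `π` with `π a = c`, `π b = d` (product of two transpositions of
elements of `T`).  Call the value `ε0`.
3. `ener p S lam j = ∑ e ∈ nw n j, ε e`; by `mem_nw` `nw n j = {s(u, j) | u ≤ j}`; for `u = j` `dd = 0` (`dd_ff_diag`), for `u < j`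
`s(u,j) ∈ prs T`.  So `ener = j * ε0`.  `∑ e ∈ prs T, ε e = C(j+1, 2) ε0` (`card_prs`, `|T| = j + 1`).  So
`ener = (2/(j+1)) ∑ e ∈ prs T, ε e` (for `j = 0` both are `0`).
4. `ce_sq_le` (CHV/Piv) for `e ∈ prs T ⊆ V`, sum over `e`, exchange with the expectations (`Ex_sum`), and
`∑ e ∈ prs T, ind (..) = card of the filter` (`Finset.card_filter`, `Finset.sum_boole`-like).
-/

set_option autoImplicit false

namespace Pool.Agent.CHP

open Finset Pool.Agent.CHV

variable {n : ℕ} {p : ℝ}

private theorem dd_equiv {ι : Type} [Fintype ι] [DecidableEq ι] (σ : ι ≃ ι)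
    (F : (ι → Bool) → ℝ) (hF : ∀ x : ι → Bool, F (fun i => x (σ i)) = F x) (e : ι) (x : ι → Bool) :
    dd (σ e) F x = dd e F (fun i => x (σ i)) := by
  have h : ∀ b : Bool, F (Function.update x (σ e) b) = F (Function.update (fun i => x (σ i)) e b) := by
    intro b
    rw [← hF]
    congr 1
    funext i
    by_cases hi : i = e
    · subst hi
      rw [Function.update_self, Function.update_self]
    · rw [Function.update_of_ne hi, Function.update_of_ne (fun h => hi (σ.injective h))]
  unfold dd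
  rw [h, h]

private theorem eps_equiv {ι : Type} [Fintype ι] [DecidableEq ι] (σ : ι ≃ ι) (V : Finset ι)
    (hV : ∀ i, σ i ∈ V ↔ i ∈ V) (F : (ι → Bool) → ℝ)
    (hF : ∀ x : ι → Bool, F (fun i => x (σ i)) = F x) (e : ι) :
    Ex p (fun x => CE p V (dd (σ e) F) x ^ 2) = Ex p (fun x => CE p V (dd e F) x ^ 2) := by
  have h1 : ∀ x : ι → Bool, CE p V (dd (σ e) F) x = CE p V (dd e F) (fun i => x (σ i)) := by
    intro x
    unfold CE
    rw [← Ex_equiv (p := p) σ (fun y => dd e F (glue V (fun i => x (σ i)) y))]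
    congr 1
    funext y
    rw [dd_equiv σ F hF e]
    congr 1
    funext i
    unfold glue
    by_cases hi : i ∈ V
    · rw [if_pos hi, if_pos ((hV i).2 hi)]
    · rw [if_neg hi, if_neg (fun h => hi ((hV i).1 h))]
  simp only [h1]
  exact Ex_equiv (p := p) σ (fun x => CE p V (dd e F) x ^ 2)

/-- the permutation of the pairs -/
private def sg2 (π : Equiv.Perm (Fin n)) : Sym2 (Fin n) ≃ Sym2 (Fin n) where
  toFun := Sym2.map π
  invFun := Sym2.map π.symm
  left_inv e := by
    rw [Sym2.map_map, Equiv.symm_comp_self, Sym2.map_id]; rfl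
  right_inv e := by
    rw [Sym2.map_map, Equiv.self_comp_symm, Sym2.map_id]; rfl

private theorem eps_perm {S lam : ℕ} (T : Finset (Fin n)) (π : Equiv.Perm (Fin n))
    (hT : ∀ v, π v ∈ T ↔ v ∈ T) (e : Sym2 (Fin n)) :
    Ex p (fun x : Cf n => CE p T.sym2 (dd (e.map π) (ff S lam)) x ^ 2) =
      Ex p (fun x : Cf n => CE p T.sym2 (dd e (ff S lam)) x ^ 2) := by
  refine eps_equiv (sg2 π) T.sym2 ?_ (ff S lam) (fun x => ff_perm π x) e
  intro e'
  induction e' using Sym2.ind with
  | _ u v =>
    show Sym2.map π s(u, v) ∈ T.sym2 ↔ _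
    rw [Sym2.map_mk, Finset.mk_mem_sym2_iff, Finset.mk_mem_sym2_iff]
    exact and_congr (hT u) (hT v)

private theorem swap_mem {T : Finset (Fin n)} {a b : Fin n} (ha : a ∈ T) (hb : b ∈ T) (v : Fin n) :
    Equiv.swap a b v ∈ T ↔ v ∈ T := by
  rw [Equiv.swap_apply_def]
  split_ifs with h1 h2
  · subst h1; exact ⟨fun _ => ha, fun _ => hb⟩
  · subst h2; exact ⟨fun _ => hb, fun _ => ha⟩
  · exact Iff.rfl

private theorem eps_const {S lam : ℕ} (T : Finset (Fin n)) (e e' : Sym2 (Fin n)) (he : e ∈ prs T)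
    (he' : e' ∈ prs T) :
    Ex p (fun x : Cf n => CE p T.sym2 (dd e' (ff S lam)) x ^ 2) =
      Ex p (fun x : Cf n => CE p T.sym2 (dd e (ff S lam)) x ^ 2) := by
  induction e using Sym2.ind with
  | _ a b =>
    induction e' using Sym2.ind with
    | _ c d =>
      obtain ⟨ha, hb, hab⟩ := mem_prs.1 he
      obtain ⟨hc, hd, hcd⟩ := mem_prs.1 he'
      have hm : Equiv.swap a c b ∈ T := (swap_mem ha hc b).2 hb
      have hne : c ≠ Equiv.swap a c b := by
        intro h
        apply hab
        have : Equiv.swap a c a = Equiv.swap a c b := by rw [Equiv.swap_apply_left]; exact h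
        exact (Equiv.swap a c).injective this
      have h := eps_perm (p := p) (S := S) (lam := lam) T
        (Equiv.swap (Equiv.swap a c b) d * Equiv.swap a c) (fun v => by
          rw [Equiv.Perm.mul_apply, swap_mem hm hd, swap_mem ha hc]) s(a, b)
      have h2 : Sym2.map (Equiv.swap (Equiv.swap a c b) d * Equiv.swap a c) s(a, b) = s(c, d) := by
        rw [Sym2.map_mk, Equiv.Perm.mul_apply, Equiv.Perm.mul_apply, Equiv.swap_apply_left,
          Equiv.swap_apply_of_ne_of_ne hne hcd, Equiv.swap_apply_left]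
      rw [h2] at h
      exact h

private theorem card_pre {j : ℕ} (hj : j ≤ n) : (pre n j).card = j := by
  have h : pre n j = (Finset.univ : Finset (Fin j)).map (Fin.castLEEmb hj) := by
    ext v
    rw [mem_pre, Finset.mem_map]
    constructor
    · intro hv
      exact ⟨⟨v.val, hv⟩, Finset.mem_univ _, Fin.ext rfl⟩
    · rintro ⟨w, _, rfl⟩
      exact w.isLt
  rw [h, Finset.card_map, Finset.card_univ, Fintype.card_fin]

private theorem nw_nd {j : ℕ} :
    (nw n j).filter (fun e => ¬ e.IsDiag) = prs (pre n (j + 1)) \ prs (pre n j) := by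
  ext e
  unfold nw prs
  rw [Finset.mem_filter, Finset.mem_sdiff, Finset.mem_sdiff, Finset.mem_filter, Finset.mem_filter]
  tauto

private theorem card_nd {j : ℕ} (hj : j < n) :
    ((nw n j).filter (fun e => ¬ e.IsDiag)).card = j := by
  rw [nw_nd, Finset.card_sdiff_of_subset (prs_mono (pre_mono (Nat.le_succ j))), card_prs, card_prs,
    card_pre hj, card_pre hj.le, Nat.choose_succ_succ' j 1, Nat.choose_one_right]
  exact Nat.add_sub_cancel _ _

private theorem ener_eq {S lam j : ℕ} (hj : j < n) :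
    ener p (n := n) S lam j = 2 / ((j : ℝ) + 1) *
      ∑ e ∈ prs (pre n (j + 1)),
        Ex p (fun x : Cf n => CE p (pre n (j + 1)).sym2 (dd e (ff S lam)) x ^ 2) := by
  classical
  obtain ⟨ε0, hε⟩ : ∃ ε0 : ℝ, ∀ e ∈ prs (pre n (j + 1)),
      Ex p (fun x : Cf n => CE p (pre n (j + 1)).sym2 (dd e (ff S lam)) x ^ 2) = ε0 := by
    rcases (prs (pre n (j + 1))).eq_empty_or_nonempty with h | ⟨e0, he0⟩
    · exact ⟨0, fun e he => by rw [h] at he; exact absurd he (Finset.notMem_empty e)⟩
    · exact ⟨_, fun e he => eps_const _ e0 e he0 he⟩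
  have h1 : ener p (n := n) S lam j = j * ε0 := by
    unfold ener
    rw [← Finset.sum_filter_add_sum_filter_not (nw n j) (fun e => ¬ e.IsDiag)]
    have h2 : ∑ e ∈ (nw n j).filter (fun e => ¬ e.IsDiag),
        Ex p (fun x : Cf n => CE p (pre n (j + 1)).sym2 (dd e (ff S lam)) x ^ 2) = j * ε0 := by
      rw [Finset.sum_congr rfl (g := fun _ => ε0), Finset.sum_const, nsmul_eq_mul, card_nd hj]
      intro e he
      rw [nw_nd] at he
      exact hε e (Finset.mem_sdiff.1 he).1
    have h3 : ∑ e ∈ (nw n j).filter (fun e => ¬ ¬ e.IsDiag),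
        Ex p (fun x : Cf n => CE p (pre n (j + 1)).sym2 (dd e (ff S lam)) x ^ 2) = 0 := by
      apply Finset.sum_eq_zero
      intro e he
      have hd := not_not.1 (Finset.mem_filter.1 he).2
      induction e using Sym2.ind with
      | _ a b =>
        rw [Sym2.mk_isDiag_iff] at hd
        subst hd
        have h4 : ∀ x : Cf n, CE p (pre n (j + 1)).sym2 (dd s(a, a) (ff S lam)) x = 0 := by
          intro x
          unfold CE
          simp only [dd_ff_diag]
          exact Ex_const 0
        simp only [h4]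
        have := Ex_const (ι := Sym2 (Fin n)) (p := p) ((0 : ℝ) ^ 2)
        rw [this]; norm_num
    rw [h2, h3, add_zero]
  rw [h1, Finset.sum_congr rfl hε, Finset.sum_const, nsmul_eq_mul, card_prs, card_pre hj,
    Nat.cast_choose_two]
  have : ((j : ℝ) + 1) ≠ 0 := by positivity
  push_cast
  field_simp
  ring

theorem ener_exch (h0 : 0 ≤ p) (h1 : p < 1) {S lam j : ℕ} (hj : j < n) :
    ener p (n := n) S lam j ≤ 2 / ((j + 1) * (1 - p)) *
      Ex p (fun x : Cf n => Ex p (fun y : Cf n => Ex p (fun z : Cf n =>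
        (((prs (pre n (j + 1))).filter (fun e =>
          e ∈ UP (opt S lam (glue (pre n (j + 1)).sym2 x y)) ∧
          e ∈ UP (opt S lam (glue (pre n (j + 1)).sym2 x z)))).card : ℝ)))) := by
  rw [ener_eq hj]
  have h2 : ∀ e ∈ prs (pre n (j + 1)),
      Ex p (fun x : Cf n => CE p (pre n (j + 1)).sym2 (dd e (ff S lam)) x ^ 2) ≤
      1 / (1 - p) * Ex p (fun x : Cf n => Ex p (fun y : Cf n => Ex p (fun z : Cf n =>
        ind (e ∈ UP (opt S lam (glue (pre n (j + 1)).sym2 x y)) ∧
          e ∈ UP (opt S lam (glue (pre n (j + 1)).sym2 x z)))))) := fun e he =>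
    ce_sq_le h0 h1 (Finset.mem_filter.1 he).1
  have h3 := Finset.sum_le_sum h2
  rw [← Finset.mul_sum] at h3
  have h4 : ∑ e ∈ prs (pre n (j + 1)), Ex p (fun x : Cf n => Ex p (fun y : Cf n => Ex p (fun z : Cf n =>
        ind (e ∈ UP (opt S lam (glue (pre n (j + 1)).sym2 x y)) ∧
          e ∈ UP (opt S lam (glue (pre n (j + 1)).sym2 x z)))))) =
      Ex p (fun x : Cf n => Ex p (fun y : Cf n => Ex p (fun z : Cf n =>
        (((prs (pre n (j + 1))).filter (fun e =>
          e ∈ UP (opt S lam (glue (pre n (j + 1)).sym2 x y)) ∧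
          e ∈ UP (opt S lam (glue (pre n (j + 1)).sym2 x z)))).card : ℝ)))) := by
    rw [← Ex_sum]
    congr 1
    funext x
    rw [← Ex_sum]
    congr 1
    funext y
    rw [← Ex_sum]
    congr 1
    funext z
    rw [Finset.card_filter]
    push_cast
    refine Finset.sum_congr rfl fun e _ => ?_
    by_cases he : e ∈ UP (opt S lam (glue (pre n (j + 1)).sym2 x y)) ∧
        e ∈ UP (opt S lam (glue (pre n (j + 1)).sym2 x z))
    · rw [ind_true he, if_pos he]
    · rw [ind_false he, if_neg he]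
  rw [h4] at h3
  have hj0 : (0 : ℝ) < (j : ℝ) + 1 := by positivity
  refine (mul_le_mul_of_nonneg_left h3 (by positivity)).trans (le_of_eq ?_)
  rw [← mul_assoc]
  congr 1
  have : (1 - p) ≠ 0 := by linarith
  field_simp

end Pool.Agent.CHP
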