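import Pool.Agent.CHP.PrB
import Pool.Agent.CHP.EnS

/-!
# CHP / Ene: the energy of one step

Notation: `ℒ = log n`, `S = SS p K n`, `lam = lm p n`, `T = pre n (j+1)`, `|T| = j + 1`, `V = T.sym2`, `r0 = rz S`.
PROOF.  `ener_exch`.  For configurations `x, y, z` let `P = opt S lam (glue V x y)`, `Q = opt S lam (glue V x z)` (packings, `opt_pack`) and `N` the number of `e ∈ prs T` with
`e ∈ UP P`, `e ∈ UP Q`.  Always `N ≤ |prs T| ≤ n^2` (`card_prs`, `j + 1 ≤ n`), and `N ≤ S^2 (MgP r0 T P Q + NuP r0 T P Q)` (`shared_pairs`).  So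
`N ≤ 2 S^2 Λ ℒ^4 + n^2 (ind (¬ Near (prof P)) + ind (¬ Near (prof Q)) + ∑_{(κ, κ')} ind (E_{κ κ'} x y z))`,
where `(κ, κ')` runs over the pairs of functions `Fin (S+1) → Fin (n+1)` (extended by `0`) which are both `Near .. Λ`, and `E_{κ κ'}` is the event of `pair_bad`: if both profiles are near and
`MgP` or `NuP` is `≥ Λ ℒ^4`, then the event holds for `κ = prof P`, `κ' = prof Q` (`prof_le`: values `≤ n`; `near_congr`: `t < S`, `lam ≤ S`).
Expectation: `Ex_x Ex_y ind (¬ Near (prof (opt (glue V x y)))) = Ex ind (¬ Near (prof (opt x))) ≤ 2/n^4` (`Ex_glue` of CHV/Glu; the expectation over `z` of a function of `x, y` is itself: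
`Ex_const`; for `Q` exchange or drop `y`), and every `E_{κ κ'}` has probability `≤ exp (-Λ)` (`pair_bad`, `Λ ℒ^5 ≤ n - |T|`), their number is `≤ (n+1)^(2(S+1)) ≤ exp (n^g)`, and
`n^2 exp (n^g - Λ) ≤ 1` (`Λ ≥ n^g ℒ^2 ≥ 2 n^g`).  So the expectation of `N` is `≤ 2 S^2 Λ ℒ^4 + 5`, and `ener ≤ (2/((j+1)(1-p))) (2 S^2 Λ ℒ^4 + 5) ≤ Λ ℒ^7/(j+1)` for large `n`
(`S ≤ 2 L = (2/B) ℒ`).
-/

set_option autoImplicit false

namespace Pool.Agent.CHP

open Finset Filter Pool.Agent.CHV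

private theorem card_pre {n j : ℕ} (hj : j < n) : (pre n (j + 1)).card = j + 1 := by
  have h1 : (pre n (j + 1)).image Fin.val = range (j + 1) := by
    ext m
    rw [Finset.mem_image, Finset.mem_range]
    constructor
    · rintro ⟨v, hv, rfl⟩
      exact mem_pre.1 hv
    · intro hm
      exact ⟨⟨m, by omega⟩, mem_pre.2 hm, rfl⟩
  rw [← Finset.card_image_of_injective _ Fin.val_injective, h1, Finset.card_range]

private theorem card_filter_le' {n : ℕ} (T : Finset (Fin n)) (D : Sym2 (Fin n) → Prop)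
    [DecidablePred D] : (((prs T).filter D).card : ℝ) ≤ (n : ℝ) ^ 2 := by
  have h1 : ((prs T).filter D).card ≤ n ^ 2 := by
    refine (Finset.card_filter_le _ _).trans ?_
    rw [card_prs, Nat.choose_two_right]
    have h2 : T.card ≤ n := (Finset.card_le_univ _).trans (by rw [Fintype.card_fin])
    calc T.card * (T.card - 1) / 2 ≤ T.card * (T.card - 1) := Nat.div_le_self _ _
      _ ≤ n * n := Nat.mul_le_mul h2 (by omega)
      _ = n ^ 2 := by ring
  exact_mod_cast h1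

private theorem ex_comp {n : ℕ} {p : ℝ} (V : Finset (Sym2 (Fin n))) (g : Cf n → ℝ) {κ : Type}
    (s : Finset κ) (F : κ → Cf n → Cf n → Cf n → ℝ) (c0 c1 : ℝ) :
    Ex p (fun x : Cf n => Ex p (fun y : Cf n => Ex p (fun z : Cf n =>
      c0 + c1 * (g (glue V x y) + g (glue V x z) + ∑ q ∈ s, F q x y z)))) =
    c0 + c1 * (Ex p g + Ex p g + ∑ q ∈ s,
      Ex p (fun x : Cf n => Ex p (fun y : Cf n => Ex p (fun z : Cf n => F q x y z)))) := by
  have hz : ∀ x y : Cf n, Ex p (fun z : Cf n =>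
      c0 + c1 * (g (glue V x y) + g (glue V x z) + ∑ q ∈ s, F q x y z)) =
      c0 + c1 * (g (glue V x y) + Ex p (fun z : Cf n => g (glue V x z)) +
        ∑ q ∈ s, Ex p (fun z : Cf n => F q x y z)) := by
    intro x y
    rw [Ex_add (fun _ => c0) (fun z => c1 * (g (glue V x y) + g (glue V x z) +
      ∑ q ∈ s, F q x y z)), Ex_const,
      Ex_smul c1 (fun z => g (glue V x y) + g (glue V x z) + ∑ q ∈ s, F q x y z),
      Ex_add (fun z => g (glue V x y) + g (glue V x z)) (fun z => ∑ q ∈ s, F q x y z),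
      Ex_add (fun _ => g (glue V x y)) (fun z => g (glue V x z)), Ex_const,
      Ex_sum s (fun q z => F q x y z)]
  have hy : ∀ x : Cf n, Ex p (fun y : Cf n => Ex p (fun z : Cf n =>
      c0 + c1 * (g (glue V x y) + g (glue V x z) + ∑ q ∈ s, F q x y z))) =
      c0 + c1 * (Ex p (fun y : Cf n => g (glue V x y)) + Ex p (fun z : Cf n => g (glue V x z)) +
        ∑ q ∈ s, Ex p (fun y : Cf n => Ex p (fun z : Cf n => F q x y z))) := by
    intro x
    simp_rw [hz x]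
    rw [Ex_add (fun _ => c0) (fun y => c1 * (g (glue V x y) +
      Ex p (fun z : Cf n => g (glue V x z)) + ∑ q ∈ s, Ex p (fun z : Cf n => F q x y z))), Ex_const,
      Ex_smul c1 (fun y => g (glue V x y) + Ex p (fun z : Cf n => g (glue V x z)) +
        ∑ q ∈ s, Ex p (fun z : Cf n => F q x y z)),
      Ex_add (fun y => g (glue V x y) + Ex p (fun z : Cf n => g (glue V x z)))
        (fun y => ∑ q ∈ s, Ex p (fun z : Cf n => F q x y z)),
      Ex_add (fun y => g (glue V x y)) (fun _ => Ex p (fun z : Cf n => g (glue V x z))), Ex_const,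
      Ex_sum s (fun q y => Ex p (fun z : Cf n => F q x y z))]
  simp_rw [hy]
  rw [Ex_add (fun _ => c0) (fun x => c1 * (Ex p (fun y : Cf n => g (glue V x y)) +
      Ex p (fun z : Cf n => g (glue V x z)) +
        ∑ q ∈ s, Ex p (fun y : Cf n => Ex p (fun z : Cf n => F q x y z)))), Ex_const,
      Ex_smul c1 (fun x => Ex p (fun y : Cf n => g (glue V x y)) +
        Ex p (fun z : Cf n => g (glue V x z)) +
        ∑ q ∈ s, Ex p (fun y : Cf n => Ex p (fun z : Cf n => F q x y z))),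
      Ex_add (fun x => Ex p (fun y : Cf n => g (glue V x y)) +
        Ex p (fun z : Cf n => g (glue V x z)))
        (fun x => ∑ q ∈ s, Ex p (fun y : Cf n => Ex p (fun z : Cf n => F q x y z))),
      Ex_add (fun x => Ex p (fun y : Cf n => g (glue V x y)))
        (fun x => Ex p (fun z : Cf n => g (glue V x z))), Ex_glue,
      Ex_sum s (fun q x => Ex p (fun y : Cf n => Ex p (fun z : Cf n => F q x y z)))]

/-- Extension by zero of a profile. -/
private def exz {S n : ℕ} (f : Fin (S + 1) → Fin (n + 1)) (v : ℕ) : ℕ :=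
  if h : v < S + 1 then (f ⟨v, h⟩ : ℕ) else 0

/-- The numerical facts for large `n`. -/
private theorem nums {p c g : ℝ} (h1 : p < 1) (hc : 0 < c) (hg : 0 < g) :
    ∀ᶠ n : ℕ in atTop, 1 ≤ Real.log n ∧
      2 / (1 - p) * (2 * c ^ 2 + 5) ≤ Real.log n ∧ 4 * c + 6 ≤ (n : ℝ) ^ g := by
  have hlog := Real.tendsto_log_atTop.comp (tendsto_natCast_atTop_atTop (R := ℝ))
  have hpow : Tendsto (fun n : ℕ => (n : ℝ) ^ g) atTop atTop :=
    (tendsto_rpow_atTop hg).comp (tendsto_natCast_atTop_atTop (R := ℝ))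
  filter_upwards [hlog.eventually_ge_atTop 1,
    hlog.eventually_ge_atTop (2 / (1 - p) * (2 * c ^ 2 + 5)),
    hpow.eventually_ge_atTop (4 * c + 6)] with n h2 h3 h4
  exact ⟨h2, h3, h4⟩

theorem ener_near {p : ℝ} (h0 : 0 < p) (h1 : p < 1) (K : ℕ) {g : ℝ} (hg : 3 / 5 ≤ g)
    (hg1 : g < 1) (C0 cT : ℝ) (hcT : 0 < cT) (hcT1 : cT ≤ 1) {δ : ℝ} (hδ : 0 < δ) :
    ∀ᶠ n : ℕ in atTop, ∀ (t : ℕ) (G A : ℝ) (ko : ℕ → ℝ),
      Par p g C0 cT n (SS p K n) t (lm p n) G A ko → ∀ Λ : ℝ,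
      (n : ℝ) ^ g * Real.log n ^ 2 ≤ Λ → Λ ≤ (n : ℝ) ^ (1 - δ) →
      Ex p (fun x : Cf n => ind (¬ Near n (SS p K n) t (lm p n) A ko Λ
        (prof (opt (SS p K n) (lm p n) x)))) ≤ 2 / (n : ℝ) ^ 4 →
      ∀ j < n, Λ * Real.log n ^ 5 ≤ (n : ℝ) - ((j : ℝ) + 1) →
      ener p (n := n) (SS p K n) (lm p n) j ≤ Λ * Real.log n ^ 7 / ((j : ℝ) + 1) := by
  have hB : 0 < -Real.log (1 - p) := by
    have := Real.log_neg (show 0 < 1 - p by linarith) (show 1 - p < 1 by linarith)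
    linarith
  obtain ⟨c, hcdef⟩ : ∃ c : ℝ, c = 2 / -Real.log (1 - p) := ⟨_, rfl⟩
  have hc : 0 < c := by rw [hcdef]; positivity
  have hq : 0 < 1 - p := by linarith
  filter_upwards [pair_bad h0 h1 K hg hg1 C0 cT hcT hcT1 hδ,
    nums h1 hc (show 0 < g by linarith), eventually_ge_atTop 3] with n hpb hnum hn3
    t G A ko hP Λ hΛ1 hΛ2 hbad j hj hjT
  obtain ⟨hL1, hL5, hng⟩ := hnum
  have hpb' := hpb t G A ko hP Λ hΛ1 hΛ2
  clear hpb
  obtain ⟨L, hL⟩ : ∃ L : ℝ, L = Real.log n := ⟨_, rfl⟩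
  rw [← hL] at hΛ1 hjT hL1 hL5 hpb' ⊢
  obtain ⟨S, hSdef⟩ : ∃ S, S = SS p K n := ⟨_, rfl⟩
  rw [← hSdef] at hP hbad hpb' ⊢
  obtain ⟨lam, hlam⟩ : ∃ lam, lam = lm p n := ⟨_, rfl⟩
  rw [← hlam] at hP hbad hpb' ⊢
  have hn3' : (3 : ℝ) ≤ n := by exact_mod_cast hn3
  have hn0 : (0 : ℝ) < n := by linarith
  have hL0 : 0 < L := by linarith
  have hL2 : 1 ≤ L ^ 2 := one_le_pow₀ hL1
  have hng1 : 1 ≤ (n : ℝ) ^ g := Real.one_le_rpow (by linarith) (by linarith)
  have hΛ11 : 1 ≤ Λ := by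
    refine le_trans ?_ hΛ1
    nlinarith
  have hΛ0 : 0 ≤ Λ := by linarith
  have hlS : lam ≤ S := by
    have := hP.lamt
    have := hP.lt
    omega
  have hScL : (S : ℝ) ≤ c * L := by
    have h5 := hP.SL
    rw [hcdef, div_mul_eq_mul_div, le_div_iff₀ hB]
    rw [← hL] at h5
    linarith
  obtain ⟨T, hTdef⟩ : ∃ T : Finset (Fin n), T = pre n (j + 1) := ⟨_, rfl⟩
  have hTc : (T.card : ℝ) = (j : ℝ) + 1 := by
    rw [hTdef, card_pre hj]
    push_cast
    ring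
  -- profiles
  classical
  obtain ⟨Fs, hFs⟩ : ∃ Fs : Finset (Fin (S + 1) → Fin (n + 1)),
      Fs = univ.filter (fun f => Near n S t lam A ko Λ (exz f)) := ⟨_, rfl⟩
  have hFsc : (Fs.card : ℝ) ≤ ((n : ℝ) + 1) ^ (S + 1) := by
    have h2 : Fs.card ≤ (n + 1) ^ (S + 1) := by
      rw [hFs]
      refine (Finset.card_filter_le _ _).trans ?_
      rw [Finset.card_univ, Fintype.card_fun, Fintype.card_fin, Fintype.card_fin]
    exact_mod_cast h2
  obtain ⟨g1, hg1def⟩ : ∃ g1 : Cf n → ℝ, g1 = fun w => ind (¬ Near n S t lam A ko Λ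
      (prof (opt S lam w))) := ⟨_, rfl⟩
  obtain ⟨E, hE⟩ : ∃ E : ((Fin (S + 1) → Fin (n + 1)) × (Fin (S + 1) → Fin (n + 1))) →
      Cf n → Cf n → Cf n → ℝ, E = fun q x y z =>
        ind (∃ P Q, Pack S lam (glue T.sym2 x y) P ∧
          Pack S lam (glue T.sym2 x z) Q ∧
          (∀ v ≤ S, prof P v = exz q.1 v) ∧ (∀ v ≤ S, prof Q v = exz q.2 v) ∧
          (Λ * L ^ 4 ≤ (MgP (rz S) T P Q : ℝ) ∨
            Λ * L ^ 4 ≤ (NuP (rz S) T P Q : ℝ))) := ⟨_, rfl⟩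
  have hEb : ∀ q ∈ Fs ×ˢ Fs, Ex p (fun x : Cf n => Ex p (fun y : Cf n => Ex p (fun z : Cf n =>
      E q x y z))) ≤ Real.exp (-Λ) := by
    intro q hq
    rw [Finset.mem_product, hFs, Finset.mem_filter, Finset.mem_filter] at hq
    rw [hE]
    exact hpb' (exz q.1) (exz q.2) hq.1.2 hq.2.2 T (by rw [hTc]; exact hjT)
  have hE0 : ∀ q x y z, 0 ≤ E q x y z := by
    intro q x y z
    rw [hE]
    exact ind_nonneg _
  have hg10 : ∀ w, 0 ≤ g1 w := by
    intro w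
    rw [hg1def]
    exact ind_nonneg _
  have hΛL4 : 0 ≤ Λ * L ^ 4 := by positivity
  -- pointwise bound
  have hpt : ∀ x y z : Cf n, (((prs T).filter (fun e =>
      e ∈ UP (opt S lam (glue T.sym2 x y)) ∧
      e ∈ UP (opt S lam (glue T.sym2 x z)))).card : ℝ) ≤
      2 * (S : ℝ) ^ 2 * (Λ * L ^ 4) + (n : ℝ) ^ 2 * (g1 (glue T.sym2 x y) + g1 (glue T.sym2 x z) +
        ∑ q ∈ Fs ×ˢ Fs, E q x y z) := by
    intro x y z
    have hPk := opt_pack S lam (glue T.sym2 x y)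
    have hQk := opt_pack S lam (glue T.sym2 x z)
    have hg1P : g1 (glue T.sym2 x y) = ind (¬ Near n S t lam A ko Λ
      (prof (opt S lam (glue T.sym2 x y)))) := by rw [hg1def]
    have hg1Q : g1 (glue T.sym2 x z) = ind (¬ Near n S t lam A ko Λ
      (prof (opt S lam (glue T.sym2 x z)))) := by rw [hg1def]
    have hsum0 : 0 ≤ ∑ q ∈ Fs ×ˢ Fs, E q x y z := Finset.sum_nonneg fun q _ => hE0 q x y z
    have hc0 : 0 ≤ 2 * (S : ℝ) ^ 2 * (Λ * L ^ 4) := by positivity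
    have hn2 : 0 ≤ (n : ℝ) ^ 2 := by positivity
    have hcard := card_filter_le' T (fun e => e ∈ UP (opt S lam (glue T.sym2 x y)) ∧
      e ∈ UP (opt S lam (glue T.sym2 x z)))
    have hbig : 1 ≤ g1 (glue T.sym2 x y) + g1 (glue T.sym2 x z) + ∑ q ∈ Fs ×ˢ Fs, E q x y z →
        (((prs T).filter (fun e => e ∈ UP (opt S lam (glue T.sym2 x y)) ∧
          e ∈ UP (opt S lam (glue T.sym2 x z)))).card : ℝ) ≤
        2 * (S : ℝ) ^ 2 * (Λ * L ^ 4) + (n : ℝ) ^ 2 * (g1 (glue T.sym2 x y) +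
          g1 (glue T.sym2 x z) + ∑ q ∈ Fs ×ˢ Fs, E q x y z) := by
      intro h2
      have h3 := mul_le_mul_of_nonneg_left h2 hn2
      linarith
    have hg1P0 := hg10 (glue T.sym2 x y)
    have hg1Q0 := hg10 (glue T.sym2 x z)
    by_cases hNP : Near n S t lam A ko Λ (prof (opt S lam (glue T.sym2 x y)))
    swap
    · apply hbig
      rw [hg1P, ind_true hNP]
      linarith
    by_cases hNQ : Near n S t lam A ko Λ (prof (opt S lam (glue T.sym2 x z)))
    swap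
    · apply hbig
      rw [hg1Q, ind_true hNQ]
      linarith
    by_cases hMN : Λ * L ^ 4 ≤ (MgP (rz S) T (opt S lam (glue T.sym2 x y))
        (opt S lam (glue T.sym2 x z)) : ℝ) ∨
        Λ * L ^ 4 ≤ (NuP (rz S) T (opt S lam (glue T.sym2 x y))
        (opt S lam (glue T.sym2 x z)) : ℝ)
    · apply hbig
      obtain ⟨f, hf⟩ : ∃ f : Fin (S + 1) → Fin (n + 1), f = fun v =>
          ⟨prof (opt S lam (glue T.sym2 x y)) v, Nat.lt_succ_of_le (prof_le hPk v)⟩ := ⟨_, rfl⟩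
      obtain ⟨f', hf'⟩ : ∃ f' : Fin (S + 1) → Fin (n + 1), f' = fun v =>
          ⟨prof (opt S lam (glue T.sym2 x z)) v, Nat.lt_succ_of_le (prof_le hQk v)⟩ := ⟨_, rfl⟩
      have hfe : ∀ v ≤ S, prof (opt S lam (glue T.sym2 x y)) v = exz f v := by
        intro v hv
        unfold exz
        rw [dif_pos (by omega), hf]
      have hfe' : ∀ v ≤ S, prof (opt S lam (glue T.sym2 x z)) v = exz f' v := by
        intro v hv
        unfold exz
        rw [dif_pos (by omega), hf']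
      have hmem : (f, f') ∈ Fs ×ˢ Fs := by
        rw [Finset.mem_product, hFs, Finset.mem_filter, Finset.mem_filter]
        exact ⟨⟨Finset.mem_univ _, near_congr hP.lt hlS hNP hfe⟩,
          ⟨Finset.mem_univ _, near_congr hP.lt hlS hNQ hfe'⟩⟩
      have h2 : E (f, f') x y z = 1 := by
        rw [hE]
        exact ind_true ⟨_, _, hPk, hQk, hfe, hfe', hMN⟩
      have h3 : E (f, f') x y z ≤ ∑ q ∈ Fs ×ˢ Fs, E q x y z :=
        Finset.single_le_sum (f := fun q => E q x y z) (fun q _ => hE0 q x y z) hmem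
      linarith
    · rw [not_or, not_le, not_le] at hMN
      have h2 := shared_pairs (r0 := rz S) T (opt S lam (glue T.sym2 x y))
        (opt S lam (glue T.sym2 x z)) hPk.le
      have h3 : (((prs T).filter (fun e => e ∈ UP (opt S lam (glue T.sym2 x y)) ∧
          e ∈ UP (opt S lam (glue T.sym2 x z)))).card : ℝ) ≤ (S : ℝ) ^ 2 *
          ((MgP (rz S) T (opt S lam (glue T.sym2 x y)) (opt S lam (glue T.sym2 x z)) : ℝ) +
          (NuP (rz S) T (opt S lam (glue T.sym2 x y)) (opt S lam (glue T.sym2 x z)) : ℝ)) := by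
        exact_mod_cast h2
      have h4 : (S : ℝ) ^ 2 *
          ((MgP (rz S) T (opt S lam (glue T.sym2 x y)) (opt S lam (glue T.sym2 x z)) : ℝ) +
          (NuP (rz S) T (opt S lam (glue T.sym2 x y)) (opt S lam (glue T.sym2 x z)) : ℝ)) ≤
          (S : ℝ) ^ 2 * (2 * (Λ * L ^ 4)) :=
        mul_le_mul_of_nonneg_left (by linarith [hMN.1, hMN.2]) (by positivity)
      have h5 : 0 ≤ (n : ℝ) ^ 2 * (g1 (glue T.sym2 x y) + g1 (glue T.sym2 x z) +
          ∑ q ∈ Fs ×ˢ Fs, E q x y z) := mul_nonneg hn2 (by linarith)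
      linarith
  -- expectation
  have hex : Ex p (fun x : Cf n => Ex p (fun y : Cf n => Ex p (fun z : Cf n =>
      (((prs T).filter (fun e => e ∈ UP (opt S lam (glue T.sym2 x y)) ∧
          e ∈ UP (opt S lam (glue T.sym2 x z)))).card : ℝ)))) ≤
      2 * (S : ℝ) ^ 2 * (Λ * L ^ 4) + 5 := by
    have h2 : Ex p (fun x : Cf n => Ex p (fun y : Cf n => Ex p (fun z : Cf n =>
        (((prs T).filter (fun e => e ∈ UP (opt S lam (glue T.sym2 x y)) ∧
          e ∈ UP (opt S lam (glue T.sym2 x z)))).card : ℝ)))) ≤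
        Ex p (fun x : Cf n => Ex p (fun y : Cf n => Ex p (fun z : Cf n =>
        2 * (S : ℝ) ^ 2 * (Λ * L ^ 4) + (n : ℝ) ^ 2 * (g1 (glue T.sym2 x y) +
          g1 (glue T.sym2 x z) + ∑ q ∈ Fs ×ˢ Fs, E q x y z)))) :=
      Ex_mono h0.le h1.le fun x => Ex_mono h0.le h1.le fun y => Ex_mono h0.le h1.le fun z =>
        hpt x y z
    rw [ex_comp T.sym2 g1 (Fs ×ˢ Fs) E] at h2
    have h3 : Ex p g1 ≤ 2 / (n : ℝ) ^ 4 := by rw [hg1def]; exact hbad
    have h4 : ∑ q ∈ Fs ×ˢ Fs, Ex p (fun x : Cf n => Ex p (fun y : Cf n => Ex p (fun z : Cf n =>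
        E q x y z))) ≤ ((n : ℝ) + 1) ^ (2 * (S + 1)) * Real.exp (-Λ) := by
      refine (Finset.sum_le_card_nsmul _ _ _ hEb).trans ?_
      rw [nsmul_eq_mul, Finset.card_product]
      refine mul_le_mul_of_nonneg_right ?_ (Real.exp_pos _).le
      push_cast
      have h5 : ((n : ℝ) + 1) ^ (2 * (S + 1)) = ((n : ℝ) + 1) ^ (S + 1) * ((n : ℝ) + 1) ^ (S + 1) := by
        rw [← pow_add]
        congr 1
        ring
      rw [h5]
      exact mul_le_mul hFsc hFsc (Nat.cast_nonneg _) (by positivity)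
    have h5 : (n : ℝ) ^ 2 * (((n : ℝ) + 1) ^ (2 * (S + 1)) * Real.exp (-Λ)) ≤ 1 := by
      have h6 : (n : ℝ) = Real.exp L := by rw [hL, Real.exp_log hn0]
      have h7 : (n : ℝ) + 1 ≤ Real.exp (2 * L) := by
        have h8 : Real.exp (2 * L) = n * n := by
          rw [two_mul, Real.exp_add, ← h6]
        rw [h8]
        nlinarith
      have h8 : ((n : ℝ) + 1) ^ (2 * (S + 1)) ≤ Real.exp (2 * L) ^ (2 * (S + 1)) :=
        pow_le_pow_left₀ (by positivity) h7 _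
      have h9 : (n : ℝ) ^ 2 * (((n : ℝ) + 1) ^ (2 * (S + 1)) * Real.exp (-Λ)) ≤
          (n : ℝ) ^ 2 * (Real.exp (2 * L) ^ (2 * (S + 1)) * Real.exp (-Λ)) :=
        mul_le_mul_of_nonneg_left (mul_le_mul_of_nonneg_right h8 (Real.exp_pos _).le)
          (by positivity)
      refine h9.trans ?_
      have h10 : (n : ℝ) ^ 2 * (Real.exp (2 * L) ^ (2 * (S + 1)) * Real.exp (-Λ)) =
          Real.exp (2 * L + (2 * (S + 1) : ℝ) * (2 * L) + -Λ) := by
        rw [Real.exp_add, Real.exp_add, ← Real.exp_nat_mul (2 * L) (2 * (S + 1))]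
        have h11 : (n : ℝ) ^ 2 = Real.exp (2 * L) := by
          rw [two_mul, Real.exp_add, ← h6]
          ring
        rw [h11]
        push_cast
        ring
      rw [h10]
      apply Real.exp_le_one_iff.2
      have h11 : (S : ℝ) * L ≤ c * L * L := mul_le_mul_of_nonneg_right hScL hL0.le
      have h12 : (4 * c + 6) * L ^ 2 ≤ (n : ℝ) ^ g * L ^ 2 :=
        mul_le_mul_of_nonneg_right hng (by positivity)
      have h13 : L ≤ L ^ 2 := by nlinarith
      nlinarith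
    have h6 : (n : ℝ) ^ 2 * (2 / (n : ℝ) ^ 4) ≤ 1 := by
      have h7 : (n : ℝ) ^ 2 * (2 / (n : ℝ) ^ 4) = 2 / (n : ℝ) ^ 2 := by
        field_simp
      rw [h7, div_le_one (by positivity)]
      nlinarith
    have h7 : (n : ℝ) ^ 2 * Ex p g1 ≤ (n : ℝ) ^ 2 * (2 / (n : ℝ) ^ 4) :=
      mul_le_mul_of_nonneg_left h3 (by positivity)
    have h8 := mul_le_mul_of_nonneg_left h4 (show 0 ≤ (n : ℝ) ^ 2 by positivity)
    linarith
  have hexch := ener_exch (n := n) h0.le h1 (S := S) (lam := lam) hj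
  rw [← hTdef] at hexch
  have hj0 : (0 : ℝ) < (j : ℝ) + 1 := by positivity
  refine hexch.trans ?_
  have hfac : 0 ≤ 2 / (((j : ℝ) + 1) * (1 - p)) := by positivity
  refine (mul_le_mul_of_nonneg_left hex hfac).trans ?_
  have h2 : 2 / (((j : ℝ) + 1) * (1 - p)) * (2 * (S : ℝ) ^ 2 * (Λ * L ^ 4) + 5) =
      (2 / (1 - p) * (2 * (S : ℝ) ^ 2 * (Λ * L ^ 4) + 5)) / ((j : ℝ) + 1) := by
    field_simp
  rw [h2]
  apply div_le_div_of_nonneg_right _ hj0.le
  have h3 : 2 * (S : ℝ) ^ 2 * (Λ * L ^ 4) + 5 ≤ (2 * c ^ 2 + 5) * (Λ * L ^ 6) := by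
    have h4 : (S : ℝ) ^ 2 ≤ (c * L) ^ 2 := pow_le_pow_left₀ (Nat.cast_nonneg _) hScL 2
    have h5 : 2 * (S : ℝ) ^ 2 * (Λ * L ^ 4) ≤ 2 * (c * L) ^ 2 * (Λ * L ^ 4) :=
      mul_le_mul_of_nonneg_right (by linarith) hΛL4
    have h6 : 2 * (c * L) ^ 2 * (Λ * L ^ 4) = 2 * c ^ 2 * (Λ * L ^ 6) := by ring
    have h7 : 1 ≤ Λ * L ^ 6 := by
      have := one_le_pow₀ hL1 (n := 6)
      nlinarith
    rw [h6] at h5
    linarith
  have h4 : 2 / (1 - p) * (2 * (S : ℝ) ^ 2 * (Λ * L ^ 4) + 5) ≤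
      2 / (1 - p) * ((2 * c ^ 2 + 5) * (Λ * L ^ 6)) :=
    mul_le_mul_of_nonneg_left h3 (by positivity)
  have h5 : 2 / (1 - p) * (2 * c ^ 2 + 5) * (Λ * L ^ 6) ≤ L * (Λ * L ^ 6) :=
    mul_le_mul_of_nonneg_right hL5 (by positivity)
  calc 2 / (1 - p) * (2 * (S : ℝ) ^ 2 * (Λ * L ^ 4) + 5) ≤
      2 / (1 - p) * ((2 * c ^ 2 + 5) * (Λ * L ^ 6)) := h4
    _ = 2 / (1 - p) * (2 * c ^ 2 + 5) * (Λ * L ^ 6) := by ring
    _ ≤ L * (Λ * L ^ 6) := h5
    _ = Λ * L ^ 7 := by ring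

end Pool.Agent.CHP
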