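import Pool.Agent.CHP.Exs

/-!
# CHP / Evt: packings with an improbable profile do not exist

PROOF.  If `P` is a packing, `prof P v ≤ n` for all `v` (`v ≥ 1`: the classes are disjoint and nonempty, so `|P| ≤ n`; `prof P 0 = 0`).  So the event is
contained in the union over the functions `κ : Fin (S+1) → Fin (n+1)` (extended by `0`) with `EZ p n S κ < n^(-3(S+1))` of the events
`∃ P, Pack S lam x P ∧ ∀ v ≤ S, prof P v = κ v` (`EZ` depends only on the values `κ v`, `v ≤ S`: `Finset.prod_congr`, `sz`).  `ind_exists`, `Ex_sum`,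
`ex_profile`: the probability is `≤ (n+1)^(S+1) n^(-3(S+1)) ≤ (2 n)^(S+1) n^(-3(S+1)) = (2/n^2)^(S+1) ≤ (1/n)^(S+1) ≤ 1/n^4` (`n ≥ 2`, `S ≥ 3`).
-/

set_option autoImplicit false

namespace Pool.Agent.CHP

open Finset Pool.Agent.CHV

private theorem evt_prof_le {n S lam : ℕ} {x : Cf n} {P : Finset (Finset (Fin n))}
    (hP : Pack S lam x P) (v : ℕ) : prof P v ≤ n := by
  classical
  have h1 : prof P v ≤ P.card := Finset.card_filter_le _ _
  have h2 : P.card ≤ ∑ I ∈ P, I.card := by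
    rw [Finset.card_eq_sum_ones]
    exact Finset.sum_le_sum fun I hI => by have := hP.gt I hI; omega
  have h3 : (P.biUnion id).card = ∑ I ∈ P, I.card := by
    rw [Finset.card_biUnion]
    · rfl
    · intro I hI J hJ hIJ
      exact hP.disj I hI J hJ hIJ
  have h4 : (P.biUnion id).card ≤ n := by
    have := Finset.card_le_univ (P.biUnion id)
    rwa [Fintype.card_fin] at this
  omega

private theorem evt_EZ_congr (p : ℝ) (n S : ℕ) (κ κ' : ℕ → ℕ) (h : ∀ v ≤ S, κ v = κ' v) :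
    EZ p n S κ = EZ p n S κ' := by
  have h1 : sz S κ = sz S κ' := by
    unfold sz
    refine Finset.sum_congr rfl fun v hv => ?_
    rw [h v (Nat.lt_succ_iff.mp (Finset.mem_range.mp hv))]
  unfold EZ
  rw [h1]
  congr 1
  refine Finset.prod_congr rfl fun v hv => ?_
  rw [h v (Nat.lt_succ_iff.mp (Finset.mem_range.mp hv))]

/-- extension by zero -/
private def evt_ext {n S : ℕ} (κ : Fin (S + 1) → Fin (n + 1)) (v : ℕ) : ℕ :=
  if h : v < S + 1 then ((κ ⟨v, h⟩ : Fin (n + 1)) : ℕ) else 0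

private theorem evt_num {n S : ℕ} (hn : 2 ≤ n) (hS : 3 ≤ S) :
    ((n : ℝ) + 1) ^ (S + 1) * (n : ℝ) ^ (-(3 * ((S : ℝ) + 1))) ≤ 1 / (n : ℝ) ^ 4 := by
  have hn' : (2 : ℝ) ≤ n := by exact_mod_cast hn
  have hn0 : (0 : ℝ) < n := by linarith
  have e1 : (n : ℝ) ^ (-(3 * ((S : ℝ) + 1))) = ((n : ℝ) ^ (3 * (S + 1)))⁻¹ := by
    rw [Real.rpow_neg hn0.le]
    congr 1
    have : (3 * ((S : ℝ) + 1)) = ((3 * (S + 1) : ℕ) : ℝ) := by push_cast; ring
    rw [this, Real.rpow_natCast]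
  have e2 : ((n : ℝ) + 1) ^ (S + 1) ≤ (n : ℝ) ^ (2 * (S + 1)) := by
    rw [pow_mul]
    exact pow_le_pow_left₀ (by linarith) (by nlinarith) _
  have e3 : (n : ℝ) ^ 4 ≤ (n : ℝ) ^ (S + 1) :=
    pow_le_pow_right₀ (by linarith) (by omega)
  rw [e1, ← div_eq_mul_inv, div_le_div_iff₀ (by positivity) (by positivity), one_mul]
  calc ((n : ℝ) + 1) ^ (S + 1) * (n : ℝ) ^ 4 ≤ (n : ℝ) ^ (2 * (S + 1)) * (n : ℝ) ^ (S + 1) :=
        mul_le_mul e2 e3 (by positivity) (by positivity)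
    _ = (n : ℝ) ^ (3 * (S + 1)) := by rw [← pow_add]; congr 1; ring

theorem ez_bad {p : ℝ} (h0 : 0 ≤ p) (h1 : p < 1) {n S : ℕ} (lam : ℕ) (hn : 2 ≤ n) (hS : 3 ≤ S) :
    Ex p (fun x : Cf n => ind (¬ ∀ P, Pack S lam x P →
      (n : ℝ) ^ (-(3 * ((S : ℝ) + 1))) ≤ EZ p n S (prof P))) ≤ 1 / (n : ℝ) ^ 4 := by
  classical
  have hn0 : 0 < n := by omega
  set T : Finset (Fin (S + 1) → Fin (n + 1)) := univ.filter
    (fun κ => EZ p n S (evt_ext κ) < (n : ℝ) ^ (-(3 * ((S : ℝ) + 1)))) with hT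
  have h2 : ∀ x : Cf n, ind (¬ ∀ P, Pack S lam x P →
      (n : ℝ) ^ (-(3 * ((S : ℝ) + 1))) ≤ EZ p n S (prof P)) ≤
      ∑ κ ∈ T, ind (∃ P, Pack S lam x P ∧ ∀ v ≤ S, prof P v = evt_ext κ v) := by
    intro x
    refine le_trans (ind_mono ?_) (ind_exists T
      (fun κ => ∃ P, Pack S lam x P ∧ ∀ v ≤ S, prof P v = evt_ext κ v))
    intro h
    push Not at h
    obtain ⟨P, hP, hlt⟩ := h
    have hv : ∀ v ≤ S, prof P v = evt_ext (n := n) (S := S)
        (fun w => ⟨prof P w, Nat.lt_succ_of_le (evt_prof_le hP w)⟩) v := by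
      intro v hv
      unfold evt_ext
      rw [dif_pos (Nat.lt_succ_of_le hv)]
    refine ⟨fun w => ⟨prof P w, Nat.lt_succ_of_le (evt_prof_le hP w)⟩, ?_, P, hP, hv⟩
    rw [hT, Finset.mem_filter]
    refine ⟨Finset.mem_univ _, ?_⟩
    rw [← evt_EZ_congr p n S _ _ hv]
    exact hlt
  refine (Ex_mono h0 h1.le h2).trans ?_
  rw [Ex_sum T (fun κ (x : Cf n) => ind (∃ P, Pack S lam x P ∧ ∀ v ≤ S, prof P v = evt_ext κ v))]
  have h3 : ∀ κ ∈ T, Ex p (fun x : Cf n =>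
      ind (∃ P, Pack S lam x P ∧ ∀ v ≤ S, prof P v = evt_ext κ v)) ≤
        (n : ℝ) ^ (-(3 * ((S : ℝ) + 1))) := by
    intro κ hκ
    rw [hT, Finset.mem_filter] at hκ
    exact (ex_profile h0 h1 hn0 S lam (evt_ext κ)).trans hκ.2.le
  refine (Finset.sum_le_card_nsmul T _ _ h3).trans ?_
  rw [nsmul_eq_mul]
  refine le_trans (mul_le_mul_of_nonneg_right ?_ (Real.rpow_nonneg (Nat.cast_nonneg _) _))
    (evt_num hn hS)
  have h4 : T.card ≤ (n + 1) ^ (S + 1) := by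
    have := Finset.card_le_univ T
    rwa [Fintype.card_fun, Fintype.card_fin, Fintype.card_fin] at this
  exact_mod_cast h4

end Pool.Agent.CHP
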