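import Pool.Agent.CHP.Defs
import Pool.Agent.CHV.Grf
import Pool.Agent.CHV.Glu

/-!
# CHP / PrT: probability that two families of disjoint sets are independent in two graphs sharing the bits inside `T`

PROOFS (compare `pair_prob` in CHV/PrM, which is the case of one set each; its proof can be copied).  Put `X = univ.biUnion (fun i => prs (I i))`,
`Y = univ.biUnion (fun j => prs (J j))`, `V = T.sym2`.  `(∀ i, Ind x' (I i)) ↔ ∀ e ∈ X, x' e = false`.  So the event is
`(∀ e ∈ (X ∪ Y) ∩ V, x e = false) ∧ (∀ e ∈ X \ V, y e = false) ∧ (∀ e ∈ Y \ V, z e = false)`; the indicator function factorizes and `Ex_false` gives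
`(1-p)^(|(X ∪ Y) ∩ V| + |X \ V| + |Y \ V|)`, exponent `|X| + |Y| - |X ∩ Y ∩ V|`.  `|X| = ∑ i, |prs (I i)| = ∑ i, (I i).card.choose 2`
(`Finset.card_biUnion`: `prs (I i)`, `prs (I j)` are disjoint for disjoint `I i`, `I j`: `prs_inter`, `prs ∅ = ∅`; `card_prs`), the same for `Y`;
`X ∩ Y ∩ V` is the disjoint union over `(i, j)` of `prs (I i ∩ T ∩ J j)` (`mem_prs`, `Finset.mk_mem_sym2_iff`), so its cardinality is
`∑ i, ∑ j, (I i ∩ T ∩ J j).card.choose 2`.  Finally `q^(a - c) = q^a (1/q)^c` for `c ≤ a`, `q = 1 - p > 0`.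
`pair_prob_one`: the same computation for one configuration (`Ex_false` for `X ∪ Y`), with `T = univ`.
`prob_tuple`: `Ex_false` for `X`.
-/

set_option autoImplicit false

namespace Pool.Agent.CHP

open Finset Pool.Agent.CHV

variable {n : ℕ} {ι ι' : Type} [Fintype ι] [DecidableEq ι] [Fintype ι'] [DecidableEq ι'] {p : ℝ}

private theorem prs_empty' : prs (∅ : Finset (Fin n)) = ∅ := by
  rw [← Finset.card_eq_zero, card_prs]
  rfl

omit [DecidableEq ι] in
private theorem ind_fam (x : Cf n) (I : ι → Finset (Fin n)) :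
    (∀ i, Ind x (I i)) ↔ ∀ e ∈ (univ : Finset ι).biUnion (fun i => prs (I i)), x e = false := by
  constructor
  · intro h e he
    obtain ⟨i, -, hi⟩ := Finset.mem_biUnion.1 he
    exact h i e hi
  · intro h i e he
    exact h e (Finset.mem_biUnion.2 ⟨i, Finset.mem_univ _, he⟩)

omit [DecidableEq ι] in
private theorem card_fam (I : ι → Finset (Fin n))
    (hI : ∀ i j, i ≠ j → Disjoint (I i) (I j)) :
    ((univ : Finset ι).biUnion (fun i => prs (I i))).card = ∑ i, (I i).card.choose 2 := by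
  rw [Finset.card_biUnion]
  · exact Finset.sum_congr rfl fun i _ => card_prs _
  · intro i _ j _ hij
    change Disjoint (prs (I i)) (prs (I j))
    rw [Finset.disjoint_iff_inter_eq_empty, prs_inter,
      Finset.disjoint_iff_inter_eq_empty.1 (hI i j hij), prs_empty']

omit [DecidableEq ι] [DecidableEq ι'] in
private theorem inter_fam (T : Finset (Fin n)) (I : ι → Finset (Fin n))
    (J : ι' → Finset (Fin n)) :
    ((univ : Finset ι).biUnion (fun i => prs (I i))) ∩
      ((univ : Finset ι').biUnion (fun j => prs (J j))) ∩ T.sym2 =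
      (univ : Finset (ι × ι')).biUnion (fun q => prs (I q.1 ∩ T ∩ J q.2)) := by
  ext e
  simp only [Finset.mem_inter, Finset.mem_biUnion, Finset.mem_univ, true_and]
  induction e using Sym2.ind with
  | _ a b =>
    constructor
    · rintro ⟨⟨⟨i, hi⟩, ⟨j, hj⟩⟩, ht⟩
      rw [mem_prs] at hi hj
      rw [Finset.mk_mem_sym2_iff] at ht
      refine ⟨(i, j), mem_prs.2 ⟨?_, ?_, hi.2.2⟩⟩
      · exact Finset.mem_inter.2 ⟨Finset.mem_inter.2 ⟨hi.1, ht.1⟩, hj.1⟩
      · exact Finset.mem_inter.2 ⟨Finset.mem_inter.2 ⟨hi.2.1, ht.2⟩, hj.2.1⟩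
    · rintro ⟨⟨i, j⟩, h⟩
      obtain ⟨h1, h2, h3⟩ := mem_prs.1 h
      rw [Finset.mem_inter, Finset.mem_inter] at h1 h2
      exact ⟨⟨⟨i, mem_prs.2 ⟨h1.1.1, h2.1.1, h3⟩⟩, ⟨j, mem_prs.2 ⟨h1.2, h2.2, h3⟩⟩⟩,
        Finset.mk_mem_sym2_iff.2 ⟨h1.1.2, h2.1.2⟩⟩

omit [DecidableEq ι] [DecidableEq ι'] in
private theorem card_inter_fam (T : Finset (Fin n)) (I : ι → Finset (Fin n))
    (hI : ∀ i j, i ≠ j → Disjoint (I i) (I j)) (J : ι' → Finset (Fin n))
    (hJ : ∀ i j, i ≠ j → Disjoint (J i) (J j)) :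
    (((univ : Finset ι).biUnion (fun i => prs (I i))) ∩
      ((univ : Finset ι').biUnion (fun j => prs (J j))) ∩ T.sym2).card =
      ∑ i, ∑ j, (I i ∩ T ∩ J j).card.choose 2 := by
  rw [inter_fam, Finset.card_biUnion]
  · rw [← Fintype.sum_prod_type' (fun i j => (I i ∩ T ∩ J j).card.choose 2)]
    exact Finset.sum_congr rfl fun q _ => card_prs _
  · intro q _ r _ hqr
    change Disjoint (prs (I q.1 ∩ T ∩ J q.2)) (prs (I r.1 ∩ T ∩ J r.2))
    rw [Finset.disjoint_iff_inter_eq_empty, prs_inter]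
    have h1 : (I q.1 ∩ T ∩ J q.2) ∩ (I r.1 ∩ T ∩ J r.2) = ∅ := by
      rw [Finset.eq_empty_iff_forall_notMem]
      intro a ha
      simp only [Finset.mem_inter] at ha
      by_cases h : q.1 = r.1
      · have h2 : q.2 ≠ r.2 := fun h' => hqr (Prod.ext h h')
        exact (Finset.disjoint_left.1 (hJ _ _ h2)) ha.1.2 ha.2.2
      · exact (Finset.disjoint_left.1 (hI _ _ h)) ha.1.1.1 ha.2.1.1
    rw [h1, prs_empty']

private theorem pow_fam {q : ℝ} (hq : 0 < q) {a c m : ℕ} (h : a + c = m) :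
    q ^ a = q ^ m * (1 / q) ^ c := by
  rw [← h, pow_add, mul_assoc, ← mul_pow, mul_one_div_cancel hq.ne', one_pow, mul_one]

private theorem glue_fam (V X Y : Finset (Sym2 (Fin n))) (x y z : Cf n) :
    ((∀ e ∈ X, glue V x y e = false) ∧ ∀ e ∈ Y, glue V x z e = false) ↔
      ((∀ e ∈ (X ∪ Y) ∩ V, x e = false) ∧ (∀ e ∈ X \ V, y e = false)) ∧
        (∀ e ∈ Y \ V, z e = false) := by
  unfold glue
  constructor
  · rintro ⟨h1, h2⟩
    refine ⟨⟨?_, ?_⟩, ?_⟩
    · intro e he
      rw [Finset.mem_inter, Finset.mem_union] at he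
      rcases he.1 with h | h
      · have := h1 e h
        rwa [if_pos he.2] at this
      · have := h2 e h
        rwa [if_pos he.2] at this
    · intro e he
      rw [Finset.mem_sdiff] at he
      have := h1 e he.1
      rwa [if_neg he.2] at this
    · intro e he
      rw [Finset.mem_sdiff] at he
      have := h2 e he.1
      rwa [if_neg he.2] at this
  · rintro ⟨⟨h1, h2⟩, h3⟩
    constructor
    · intro e he
      by_cases hT : e ∈ V
      · rw [if_pos hT]
        exact h1 e (Finset.mem_inter.2 ⟨Finset.mem_union_left _ he, hT⟩)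
      · rw [if_neg hT]
        exact h2 e (Finset.mem_sdiff.2 ⟨he, hT⟩)
    · intro e he
      by_cases hT : e ∈ V
      · rw [if_pos hT]
        exact h1 e (Finset.mem_inter.2 ⟨Finset.mem_union_right _ he, hT⟩)
      · rw [if_neg hT]
        exact h3 e (Finset.mem_sdiff.2 ⟨he, hT⟩)

private theorem ind_and' (P Q : Prop) : ind (P ∧ Q) = ind P * ind Q := by
  by_cases hP : P
  · by_cases hQ : Q
    · rw [ind_true ⟨hP, hQ⟩, ind_true hP, ind_true hQ, one_mul]
    · rw [ind_false (fun h => hQ h.2), ind_false hQ, mul_zero]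
  · rw [ind_false (fun h => hP h.1), ind_false hP, zero_mul]

private theorem Ex_fam (V X Y : Finset (Sym2 (Fin n))) :
    Ex p (fun x : Cf n => Ex p (fun y : Cf n => Ex p (fun z : Cf n =>
      ind ((∀ e ∈ X, glue V x y e = false) ∧ ∀ e ∈ Y, glue V x z e = false)))) =
      (1 - p) ^ (((X ∪ Y) ∩ V).card + (X \ V).card + (Y \ V).card) := by
  have h1 : ∀ x y z : Cf n, ind ((∀ e ∈ X, glue V x y e = false) ∧
      ∀ e ∈ Y, glue V x z e = false) =
      (ind (∀ e ∈ (X ∪ Y) ∩ V, x e = false) *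
        ind (∀ e ∈ X \ V, y e = false)) * ind (∀ e ∈ Y \ V, z e = false) := by
    intro x y z
    rw [← ind_and', ← ind_and']
    exact congrArg ind (propext (glue_fam V X Y x y z))
  simp only [h1]
  have h2 : ∀ x y : Cf n, Ex p (fun z : Cf n =>
      (ind (∀ e ∈ (X ∪ Y) ∩ V, x e = false) *
        ind (∀ e ∈ X \ V, y e = false)) * ind (∀ e ∈ Y \ V, z e = false)) =
      ((1 - p) ^ (Y \ V).card * ind (∀ e ∈ (X ∪ Y) ∩ V, x e = false)) *
        ind (∀ e ∈ X \ V, y e = false) := by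
    intro x y
    rw [Ex_smul, Ex_false]
    ring
  simp only [h2]
  have h3 : ∀ x : Cf n, Ex p (fun y : Cf n =>
      ((1 - p) ^ (Y \ V).card * ind (∀ e ∈ (X ∪ Y) ∩ V, x e = false)) *
        ind (∀ e ∈ X \ V, y e = false)) =
      ((1 - p) ^ (Y \ V).card * (1 - p) ^ (X \ V).card) *
        ind (∀ e ∈ (X ∪ Y) ∩ V, x e = false) := by
    intro x
    rw [Ex_smul, Ex_false]
    ring
  simp only [h3]
  rw [Ex_smul, Ex_false, pow_add, pow_add]
  ring

theorem pair_prob_tuple (h1 : p < 1) (T : Finset (Fin n)) (I : ι → Finset (Fin n))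
    (hI : ∀ i j, i ≠ j → Disjoint (I i) (I j)) (J : ι' → Finset (Fin n))
    (hJ : ∀ i j, i ≠ j → Disjoint (J i) (J j)) :
    Ex p (fun x : Cf n => Ex p (fun y : Cf n => Ex p (fun z : Cf n =>
      ind ((∀ i, Ind (glue T.sym2 x y) (I i)) ∧ ∀ j, Ind (glue T.sym2 x z) (J j))))) =
      (1 - p) ^ (∑ i, (I i).card.choose 2 + ∑ j, (J j).card.choose 2) *
        (1 / (1 - p)) ^ (∑ i, ∑ j, (I i ∩ T ∩ J j).card.choose 2) := by
  have h0 : ∀ x y z : Cf n,
      ind ((∀ i, Ind (glue T.sym2 x y) (I i)) ∧ ∀ j, Ind (glue T.sym2 x z) (J j)) =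
      ind ((∀ e ∈ (univ : Finset ι).biUnion (fun i => prs (I i)), glue T.sym2 x y e = false) ∧
        ∀ e ∈ (univ : Finset ι').biUnion (fun j => prs (J j)), glue T.sym2 x z e = false) := by
    intro x y z
    refine congrArg ind (propext ?_)
    rw [ind_fam, ind_fam]
  simp only [h0]
  rw [Ex_fam]
  refine pow_fam (by linarith) ?_
  rw [← card_inter_fam T I hI J hJ, ← card_fam I hI, ← card_fam J hJ]
  have h1 := Finset.card_union_add_card_inter
    ((univ : Finset ι).biUnion (fun i => prs (I i)) ∩ T.sym2)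
    ((univ : Finset ι').biUnion (fun j => prs (J j)) ∩ T.sym2)
  rw [← Finset.union_inter_distrib_right, ← Finset.inter_inter_distrib_right] at h1
  have h4 := Finset.card_sdiff_add_card_inter ((univ : Finset ι).biUnion (fun i => prs (I i))) T.sym2
  have h5 := Finset.card_sdiff_add_card_inter
    ((univ : Finset ι').biUnion (fun j => prs (J j))) T.sym2
  omega

theorem pair_prob_one (h1 : p < 1) (I : ι → Finset (Fin n))
    (hI : ∀ i j, i ≠ j → Disjoint (I i) (I j)) (J : ι' → Finset (Fin n))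
    (hJ : ∀ i j, i ≠ j → Disjoint (J i) (J j)) :
    Ex p (fun x : Cf n => ind ((∀ i, Ind x (I i)) ∧ ∀ j, Ind x (J j))) =
      (1 - p) ^ (∑ i, (I i).card.choose 2 + ∑ j, (J j).card.choose 2) *
        (1 / (1 - p)) ^ (∑ i, ∑ j, (I i ∩ J j).card.choose 2) := by
  have h0 : ∀ x : Cf n,
      ind ((∀ i, Ind x (I i)) ∧ ∀ j, Ind x (J j)) =
      ind (∀ e ∈ (univ : Finset ι).biUnion (fun i => prs (I i)) ∪
        (univ : Finset ι').biUnion (fun j => prs (J j)), x e = false) := by
    intro x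
    refine congrArg ind (propext ?_)
    rw [ind_fam, ind_fam]
    constructor
    · rintro ⟨h1, h2⟩ e he
      rcases Finset.mem_union.1 he with h | h
      · exact h1 e h
      · exact h2 e h
    · intro h
      exact ⟨fun e he => h e (Finset.mem_union_left _ he),
        fun e he => h e (Finset.mem_union_right _ he)⟩
  simp only [h0]
  rw [Ex_false]
  refine pow_fam (by linarith) ?_
  have h1 := card_inter_fam (univ : Finset (Fin n)) I hI J hJ
  simp only [Finset.inter_univ, Finset.sym2_univ] at h1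
  rw [← h1, ← card_fam I hI, ← card_fam J hJ]
  exact Finset.card_union_add_card_inter _ _

theorem prob_tuple (I : ι → Finset (Fin n)) (hI : ∀ i j, i ≠ j → Disjoint (I i) (I j)) :
    Ex p (fun x : Cf n => ind (∀ i, Ind x (I i))) = (1 - p) ^ (∑ i, (I i).card.choose 2) := by
  have h0 : ∀ x : Cf n, ind (∀ i, Ind x (I i)) =
      ind (∀ e ∈ (univ : Finset ι).biUnion (fun i => prs (I i)), x e = false) := by
    intro x
    exact congrArg ind (propext (ind_fam x I))
  simp only [h0]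
  rw [Ex_false, card_fam I hI]

end Pool.Agent.CHP
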