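import Pool.Agent.CHP.Uno
import Pool.Agent.CHP.PrT

/-!
# CHP / Exs: first and second moment bounds

PROOFS.  `ex_profile`: let `E(x)` be the event.  If some `κ v ≠ 0` with `v = 0`, the event is empty (classes have more than `lam ≥ 0` elements) and
`EZ ≥ 0` (`p ≤ 1`, all factors nonnegative).  Otherwise let `ι = (Σ v : Fin (S+1), Fin (κ v))`, `u q = q.1`, so `cnt u v = κ v` for `v ≤ S` (and the
values of `κ` above `S` do not matter for `EZ`: prove `EZ p n S κ = EZ p n S (cnt u)` by `Finset.prod_congr`), `1 ≤ u q` (as `κ 0 = 0`).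
If `P` is a packing with the profile `κ`, `exists_rep` gives `I0 ∈ OP univ u` (`mem_OP`; disjointness from `Pack.disj` and injectivity) with
`∀ i, Ind x (I0 i)`, and `uno` with `G I = ind (∀ i, Ind x (I i))` (invariant under permutations) gives
`(∏ (cnt u v)!) * ind (E x) ≤ ∑ I ∈ OP univ u, ind (∀ i, Ind x (I i))`.  Take expectations (`Ex_mono`, `Ex_smul`, `Ex_sum`), `prob_tuple`
(`(I i).card = u i`), and `EZ_eq`.
`second_moment`: `Z x = ∑ I ∈ OP univ u, ind (∀ i, Ind x (I i))`.  `Ex Z = |OP| q^e`, `e = ∑ i, (u i).choose 2`, `|OP| > 0` (`OP_nonempty`, `hs`), and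
`Ex Z^2 = ∑ I, ∑ J, q^(2e) (1/q)^(∑∑ (I i ∩ J j).card.choose 2) ≤ |OP|^2 q^(2e) exp D` (`pair_prob_one`, `ind_and`, `hD`).  `Z x = Z x * ind (E x)`,
`E x = ∃ I ∈ OP univ u, ∀ i, Ind x (I i)`.  `Ex_cs` (Cauchy-Schwarz, CHV/ExB): `(Ex Z)^2 ≤ Ex Z^2 * Ex (ind^2) = Ex Z^2 * Ex ind`.  So
`exp (-D) ≤ Ex ind`.
-/

set_option autoImplicit false

namespace Pool.Agent.CHP

open Finset Pool.Agent.CHV

variable {n : ℕ} {p : ℝ}

private theorem exs_cnt (S : ℕ) (κ : ℕ → ℕ) (v : ℕ) (hv : v ≤ S) :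
    cnt (fun q : (Σ v : Fin (S + 1), Fin (κ v)) => (q.1 : ℕ)) v = κ v := by
  classical
  have hv' : v < S + 1 := Nat.lt_succ_of_le hv
  let w : Fin (S + 1) := ⟨v, hv'⟩
  have h1 : (univ.filter (fun q : (Σ v : Fin (S + 1), Fin (κ v)) => (q.1 : ℕ) = v)) =
      (univ : Finset (Fin (κ w))).image
        (fun a => (⟨w, a⟩ : (Σ v : Fin (S + 1), Fin (κ v)))) := by
    ext q
    rw [Finset.mem_filter, Finset.mem_image]
    constructor
    · rintro ⟨-, h⟩
      obtain ⟨w', a⟩ := q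
      have h2 : w' = w := Fin.ext h
      subst h2
      exact ⟨a, Finset.mem_univ _, rfl⟩
    · rintro ⟨a, -, rfl⟩
      exact ⟨Finset.mem_univ _, rfl⟩
  unfold cnt
  rw [h1, Finset.card_image_of_injective _ sigma_mk_injective, Finset.card_univ, Fintype.card_fin]

private theorem exs_EZ_congr (p : ℝ) (n S : ℕ) (κ κ' : ℕ → ℕ) (h : ∀ v ≤ S, κ v = κ' v) :
    EZ p n S κ = EZ p n S κ' := by
  have h1 : sz S κ = sz S κ' := by
    unfold sz
    refine Finset.sum_congr rfl fun v hv => ?_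
    rw [h v (Nat.lt_succ_iff.mp (Finset.mem_range.mp hv))]
  unfold EZ
  rw [h1]
  congr 1
  refine Finset.prod_congr rfl fun v hv => ?_
  rw [h v (Nat.lt_succ_iff.mp (Finset.mem_range.mp hv))]

private theorem exs_EZ_nonneg (h1 : p < 1) (S : ℕ) (κ : ℕ → ℕ) : 0 ≤ EZ p n S κ := by
  have hq : 0 ≤ 1 - p := by linarith
  unfold EZ NN
  refine mul_nonneg (Finset.prod_nonneg fun v _ => ?_) ?_
  · exact div_nonneg (pow_nonneg (div_nonneg (mul_nonneg (pow_nonneg (Nat.cast_nonneg _) _)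
      (pow_nonneg hq _)) (Nat.cast_nonneg _)) _) (Nat.cast_nonneg _)
  · exact div_nonneg (Nat.cast_nonneg _) (pow_nonneg (Nat.cast_nonneg _) _)

private theorem exs_sum {ι : Type} [Fintype ι] [DecidableEq ι] (u : ι → ℕ) :
    Ex p (fun x : Cf n => ∑ I ∈ OP (univ : Finset (Fin n)) u, ind (∀ i, Ind x (I i))) =
      ((OP (univ : Finset (Fin n)) u).card : ℝ) * (1 - p) ^ (∑ i, (u i).choose 2) := by
  rw [Ex_sum (OP (univ : Finset (Fin n)) u) (fun I (x : Cf n) => ind (∀ i, Ind x (I i)))]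
  rw [← nsmul_eq_mul, ← Finset.sum_const]
  refine Finset.sum_congr rfl fun I hI => ?_
  rw [mem_OP] at hI
  rw [prob_tuple I hI.2]
  congr 1
  exact Finset.sum_congr rfl fun i _ => by rw [(hI.1 i).2]

theorem ex_profile (h0 : 0 ≤ p) (h1 : p < 1) (hn : 0 < n) (S lam : ℕ) (κ : ℕ → ℕ) :
    Ex p (fun x : Cf n => ind (∃ P, Pack S lam x P ∧ ∀ v ≤ S, prof P v = κ v)) ≤
      EZ p n S κ := by
  classical
  by_cases hκ : κ 0 = 0
  swap
  · refine (Ex_le_const h0 h1.le (c := 0) fun x => ?_).trans (exs_EZ_nonneg h1 S κ)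
    rw [ind_false]
    rintro ⟨P, hP, hv⟩
    have h2 := hv 0 (Nat.zero_le _)
    have h3 : 0 < prof P 0 := by omega
    unfold prof at h3
    rw [Finset.card_pos] at h3
    obtain ⟨I, hI⟩ := h3
    rw [Finset.mem_filter] at hI
    have := hP.gt I hI.1
    omega
  · let u : (Σ v : Fin (S + 1), Fin (κ v)) → ℕ := fun q => (q.1 : ℕ)
    have hu : ∀ i, u i ≤ S := fun i => Nat.lt_succ_iff.mp i.1.2
    have hu1 : ∀ i, 1 ≤ u i := by
      rintro ⟨w, a⟩
      rcases Nat.eq_zero_or_pos (w : ℕ) with h | h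
      · exfalso
        have ha : (a : ℕ) < κ (w : ℕ) := a.2
        have hw : κ (w : ℕ) = 0 := by rw [h, hκ]
        omega
      · exact h
    have hcnt : ∀ v ≤ S, κ v = cnt u v := fun v hv => (exs_cnt S κ v hv).symm
    rw [exs_EZ_congr p n S κ (cnt u) hcnt, EZ_eq p hn u hu]
    have hc : 0 < ∏ v ∈ range (S + 1), ((cnt u v).factorial : ℝ) :=
      Finset.prod_pos fun v _ => by exact_mod_cast Nat.factorial_pos _
    rw [le_div_iff₀ hc, ← exs_sum, mul_comm, ← Ex_smul]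
    refine Ex_mono h0 h1.le fun x => ?_
    by_cases hE : ∃ P, Pack S lam x P ∧ ∀ v ≤ S, prof P v = κ v
    · obtain ⟨P, hP, hv⟩ := hE
      obtain ⟨I, hinj, himg, hcard⟩ := exists_rep u hu P hP.le
        (fun v hvS => (hv v hvS).trans (hcnt v hvS))
      have hmem : ∀ i, I i ∈ P := fun i => by
        rw [← himg]
        exact Finset.mem_image_of_mem _ (Finset.mem_univ _)
      have hOP : I ∈ OP (univ : Finset (Fin n)) u := by
        rw [mem_OP]
        exact ⟨fun i => ⟨Finset.subset_univ _, hcard i⟩,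
          fun i j hij => hP.disj _ (hmem i) _ (hmem j) fun h => hij (hinj h)⟩
      have h2 := uno u hu1 hu univ I hOP (fun I => ind (∀ i, Ind x (I i)))
        (fun I => ind_nonneg _) (fun π _ => by
          have : (∀ i, Ind x (I (π i))) = (∀ i, Ind x (I i)) := by
            refine propext ⟨fun h i => ?_, fun h i => h _⟩
            have := h (π.symm i)
            rwa [Equiv.apply_symm_apply] at this
          simp only [this])
      refine le_trans (le_of_eq ?_) h2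
      have e1 : ind (∃ P, Pack S lam x P ∧ ∀ v ≤ S, prof P v = κ v) = 1 :=
        ind_true ⟨P, hP, hv⟩
      have e2 : ind (∀ i, Ind x (I i)) = 1 := ind_true fun i => hP.ind _ (hmem i)
      show (∏ v ∈ range (S + 1), ((cnt u v).factorial : ℝ)) * _ =
        (∏ v ∈ range (S + 1), ((cnt u v).factorial : ℝ)) * _
      rw [e1, e2]
    · rw [ind_false hE, mul_zero]
      exact Finset.sum_nonneg fun I _ => ind_nonneg _

private theorem exs_ind_mul (P Q : Prop) : ind P * ind Q = ind (P ∧ Q) := by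
  by_cases hP : P
  · by_cases hQ : Q
    · rw [ind_true hP, ind_true hQ, ind_true ⟨hP, hQ⟩, one_mul]
    · rw [ind_false hQ, ind_false (fun h : P ∧ Q => hQ h.2), mul_zero]
  · rw [ind_false hP, ind_false (fun h : P ∧ Q => hP h.1), zero_mul]

theorem second_moment {ι : Type} [Fintype ι] [DecidableEq ι] (h0 : 0 ≤ p) (h1 : p < 1)
    (u : ι → ℕ) (hs : ∑ i, u i ≤ n) (D : ℝ)
    (hD : ∀ I ∈ OP (univ : Finset (Fin n)) u, ∑ J ∈ OP (univ : Finset (Fin n)) u,
      (1 / (1 - p)) ^ (∑ i, ∑ j, (I i ∩ J j).card.choose 2) ≤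
        ((OP (univ : Finset (Fin n)) u).card : ℝ) * Real.exp D) :
    Real.exp (-D) ≤ Ex p (fun x : Cf n =>
      ind (∃ I ∈ OP (univ : Finset (Fin n)) u, ∀ i, Ind x (I i))) := by
  classical
  set O : Finset (ι → Finset (Fin n)) := OP (univ : Finset (Fin n)) u with hO
  have hq : 0 < 1 - p := by linarith
  have hN : 0 < (O.card : ℝ) := by
    have h2 : O.Nonempty := OP_nonempty _ u (by rw [Finset.card_univ, Fintype.card_fin]; exact hs)
    exact_mod_cast Finset.card_pos.mpr h2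
  let e : ℕ := ∑ i, (u i).choose 2
  let Z : Cf n → ℝ := fun x => ∑ I ∈ O, ind (∀ i, Ind x (I i))
  let E : Cf n → Prop := fun x => ∃ I ∈ O, ∀ i, Ind x (I i)
  have hZ : Ex p Z = (O.card : ℝ) * (1 - p) ^ e := exs_sum u
  have hZE : ∀ x, Z x * ind (E x) = Z x := by
    intro x
    by_cases hE : E x
    · rw [ind_true hE, mul_one]
    · have : Z x = 0 := Finset.sum_eq_zero fun I hI =>
        ind_false fun h => hE ⟨I, hI, h⟩
      rw [this, zero_mul]
  have hsq : ∀ x, ind (E x) ^ 2 = ind (E x) := by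
    intro x
    rw [sq, exs_ind_mul, and_self]
  have hcs := Ex_cs (p := p) h0 h1.le Z (fun x => ind (E x))
  simp only [hZE, hsq] at hcs
  have hcs' : (Ex p Z) ^ 2 ≤ Ex p (fun x => Z x ^ 2) * Ex p (fun x => ind (E x)) := hcs
  have hZ2 : Ex p (fun x => Z x ^ 2) ≤
      (O.card : ℝ) ^ 2 * ((1 - p) ^ e) ^ 2 * Real.exp D := by
    have h2 : (fun x : Cf n => Z x ^ 2) =
        fun x => ∑ I ∈ O, ∑ J ∈ O, ind ((∀ i, Ind x (I i)) ∧ ∀ j, Ind x (J j)) := by
      funext x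
      show (∑ I ∈ O, ind (∀ i, Ind x (I i))) ^ 2 = _
      rw [sq, Finset.sum_mul_sum]
      exact Finset.sum_congr rfl fun I _ => Finset.sum_congr rfl fun J _ => exs_ind_mul _ _
    rw [h2, Ex_sum O (fun I (x : Cf n) =>
      ∑ J ∈ O, ind ((∀ i, Ind x (I i)) ∧ ∀ j, Ind x (J j)))]
    have h3 : ∀ I ∈ O, Ex p (fun x : Cf n =>
        ∑ J ∈ O, ind ((∀ i, Ind x (I i)) ∧ ∀ j, Ind x (J j))) ≤
          ((1 - p) ^ e) ^ 2 * ((O.card : ℝ) * Real.exp D) := by
      intro I hI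
      rw [Ex_sum O (fun J (x : Cf n) => ind ((∀ i, Ind x (I i)) ∧ ∀ j, Ind x (J j)))]
      have hI' := mem_OP.mp hI
      refine le_trans (le_of_eq ?_)
        (mul_le_mul_of_nonneg_left (hD I hI) (pow_nonneg (pow_nonneg hq.le e) 2))
      rw [Finset.mul_sum]
      refine Finset.sum_congr rfl fun J hJ => ?_
      have hJ' := mem_OP.mp hJ
      rw [pair_prob_one h1 I hI'.2 J hJ'.2]
      congr 1
      rw [← pow_mul, mul_comm e 2, two_mul]
      congr 1
      congr 1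
      · exact Finset.sum_congr rfl fun i _ => by rw [(hI'.1 i).2]
      · exact Finset.sum_congr rfl fun i _ => by rw [(hJ'.1 i).2]
    refine (Finset.sum_le_sum h3).trans (le_of_eq ?_)
    rw [Finset.sum_const, nsmul_eq_mul]
    ring
  have hind : 0 ≤ Ex p (fun x : Cf n => ind (E x)) := Ex_nonneg h0 h1.le fun x => ind_nonneg _
  have hpos : 0 < (O.card : ℝ) ^ 2 * ((1 - p) ^ e) ^ 2 :=
    mul_pos (pow_pos hN 2) (pow_pos (pow_pos hq e) 2)
  have h4 : (O.card : ℝ) ^ 2 * ((1 - p) ^ e) ^ 2 ≤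
      (O.card : ℝ) ^ 2 * ((1 - p) ^ e) ^ 2 * (Real.exp D * Ex p (fun x : Cf n => ind (E x))) := by
    calc (O.card : ℝ) ^ 2 * ((1 - p) ^ e) ^ 2 = (Ex p Z) ^ 2 := by rw [hZ]; ring
      _ ≤ Ex p (fun x => Z x ^ 2) * Ex p (fun x => ind (E x)) := hcs'
      _ ≤ ((O.card : ℝ) ^ 2 * ((1 - p) ^ e) ^ 2 * Real.exp D) * Ex p (fun x => ind (E x)) :=
        mul_le_mul_of_nonneg_right hZ2 hind
      _ = _ := by ring
  have h5 : 1 ≤ Real.exp D * Ex p (fun x : Cf n => ind (E x)) := by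
    by_contra hlt
    rw [not_le] at hlt
    have := mul_lt_mul_of_pos_left hlt hpos
    rw [mul_one] at this
    exact absurd h4 (not_le.mpr this)
  have h6 : Real.exp (-D) * 1 ≤ Real.exp (-D) * (Real.exp D * Ex p (fun x : Cf n => ind (E x))) :=
    mul_le_mul_of_nonneg_left h5 (Real.exp_nonneg _)
  rw [← mul_assoc, ← Real.exp_add, neg_add_cancel, Real.exp_zero, one_mul, mul_one] at h6
  exact h6

end Pool.Agent.CHP
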