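import Pool.Agent.CHP.Defs

/-!
# CHP / FcR: ratio of products of factorials of two profiles

PROOF.  Put `e w = #{i ∈ X | u i = w} = #{i ∈ X | v i = w}`, `a w = #{i ∈ D \ X | u i = w}`, `a' w = #{i ∈ D \ X | v i = w}`, so
`prD u D w = e w + a w`, `prD v D w = e w + a' w` and `∑_{w ≤ S} a w = ∑_{w ≤ S} a' w = |D \ X|`
(`Finset.card_eq_sum_card_fiberwise`).
1. `(e + a')! ≤ e! k^a'` when `e + a' ≤ k`: `(e + a')! = e! * (e+1) ⋯ (e+a')` (`Nat.factorial_mul_pow_le_factorial`-like; or
`Nat.factorial_mul_ascFactorial`), each factor `≤ k`; here `e w + a' w ≤ |D| ≤ k`.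
2. `(e + a)! ≥ e! ((e + a)/exp 1)^a`: with `m = e + a`, `m!/(m-a)! ≥ (m/exp 1)^a`.  Induction on `a` in the form
`(m)_a ≥ (m/e)^a` for `a ≤ m`, or: the function `j ↦ 1 - j/m` is decreasing, so `∏_{j<a} (1 - j/m) ≥ (∏_{j<m} (1 - j/m))^(a/m)
= (m!/m^m)^(a/m) ≥ e^(-a)`.  A direct proof: `m.descFactorial a = C(m,a) a!`, `C(m,a) ≥ (m/a)^a` and `a! ≥ (a/e)^a`
(`Nat.pow_le_choose`-like: `(m/a)^a ≤ C(m,a)` as a real inequality is `Nat.pow_le_choose`? or prove it by
`(m - j)/(a - j) ≥ m/a`; `a! ≥ (a/e)^a`: `Nat.factorial_lt`-free, from `exp a ≥ a^a/a!` (`Real.pow_div_factorial_le_exp`)).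
3. So `∏_w (prD v D w)! ≤ ∏ e! k^(a' w) = (∏ e!) k^|D \ X| = ∏_w e! k^(a w)` and
`e! k^(a w) ≤ (prD u D w)! (exp 1 * k / prD u D w)^(a w)` (if `a w = 0` trivial, else `prD u D w > 0`), and
`∏_w (exp 1 k / prD u D w)^(a w) = ∏_{i ∈ D \ X} (exp 1 k / prD u D (u i))` (`Finset.prod_fiberwise_of_maps_to`, `Finset.prod_const`).
-/

set_option autoImplicit false

namespace Pool.Agent.CHP

open Finset Pool.Agent.CHV

variable {ι : Type} [Fintype ι] [DecidableEq ι]

private theorem fact_up (e : ℕ) (k : ℝ) : ∀ a : ℕ, ((e : ℝ) + a ≤ k) →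
    (((e + a).factorial : ℕ) : ℝ) ≤ (e.factorial : ℝ) * k ^ a := by
  intro a
  induction a with
  | zero => intro _; simp
  | succ a ih =>
    intro h
    push_cast at h
    have h1 : (e : ℝ) + a ≤ k := by linarith
    have hk : 0 ≤ k := le_trans (by positivity) h1
    have h2 := ih h1
    have e1 : (((e + (a + 1)).factorial : ℕ) : ℝ) = ((e : ℝ) + a + 1) * ((e + a).factorial : ℝ) := by
      rw [← add_assoc, Nat.factorial_succ]
      push_cast
      ring
    rw [e1]
    calc ((e : ℝ) + a + 1) * ((e + a).factorial : ℝ)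
        ≤ k * ((e.factorial : ℝ) * k ^ a) := by
          apply mul_le_mul (by linarith) h2 (by positivity) hk
      _ = (e.factorial : ℝ) * k ^ (a + 1) := by ring

private theorem pow_succ_le {a m : ℕ} (h : a ≤ m) :
    ((m : ℝ) + 1) ^ a ≤ Real.exp 1 * (m : ℝ) ^ a := by
  rcases Nat.eq_zero_or_pos m with hm | hm
  · subst hm
    have : a = 0 := by omega
    subst this
    simp only [pow_zero, mul_one]
    exact Real.one_le_exp (by norm_num)
  · have hm' : (0 : ℝ) < m := by exact_mod_cast hm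
    have h1 : 1 + 1 / (m : ℝ) ≤ Real.exp (1 / m) := by
      rw [add_comm]; exact Real.add_one_le_exp _
    have h2 : (1 + 1 / (m : ℝ)) ^ a ≤ Real.exp 1 := by
      calc (1 + 1 / (m : ℝ)) ^ a ≤ (Real.exp (1 / m)) ^ a :=
            pow_le_pow_left₀ (by positivity) h1 a
        _ = Real.exp (a * (1 / m)) := (Real.exp_nat_mul _ _).symm
        _ ≤ Real.exp 1 := by
            apply Real.exp_le_exp.2
            rw [mul_one_div, div_le_one hm']
            exact_mod_cast h
    have e1 : (m : ℝ) + 1 = m * (1 + 1 / (m : ℝ)) := by field_simp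
    rw [e1, mul_pow, mul_comm (Real.exp 1)]
    exact mul_le_mul_of_nonneg_left h2 (by positivity)

private theorem fact_down (e : ℕ) : ∀ a : ℕ,
    (e.factorial : ℝ) * (((e : ℝ) + a) / Real.exp 1) ^ a ≤ ((e + a).factorial : ℝ) := by
  intro a
  induction a with
  | zero => simp
  | succ a ih =>
    have hE : 0 < Real.exp 1 := Real.exp_pos 1
    have e1 : (((e + (a + 1)).factorial : ℕ) : ℝ) = ((e : ℝ) + a + 1) * ((e + a).factorial : ℝ) := by
      rw [← add_assoc, Nat.factorial_succ]
      push_cast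
      ring
    rw [e1]
    have h1 := pow_succ_le (Nat.le_add_left a e)
    push_cast at h1
    have h2 : (((e : ℝ) + a + 1) / Real.exp 1) ^ (a + 1)
        ≤ ((e : ℝ) + a + 1) * ((((e : ℝ) + a)) / Real.exp 1) ^ a := by
      rw [pow_succ, div_pow, div_pow]
      have : ((e : ℝ) + a + 1) ^ a / Real.exp 1 ^ a * (((e : ℝ) + a + 1) / Real.exp 1)
          = ((e : ℝ) + a + 1) * (((e : ℝ) + a + 1) ^ a / Real.exp 1) / Real.exp 1 ^ a := by
        field_simp
      rw [this, mul_div_assoc]
      apply mul_le_mul_of_nonneg_left _ (by positivity)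
      apply div_le_div_of_nonneg_right _ (by positivity)
      rw [div_le_iff₀ hE, mul_comm]
      exact h1
    calc (e.factorial : ℝ) * (((e : ℝ) + ((a + 1 : ℕ) : ℝ)) / Real.exp 1) ^ (a + 1)
        = (e.factorial : ℝ) * (((e : ℝ) + a + 1) / Real.exp 1) ^ (a + 1) := by
          push_cast; rw [add_assoc]
      _ ≤ (e.factorial : ℝ) * (((e : ℝ) + a + 1) * ((((e : ℝ) + a)) / Real.exp 1) ^ a) :=
          mul_le_mul_of_nonneg_left h2 (by positivity)
      _ = ((e : ℝ) + a + 1) * ((e.factorial : ℝ) * (((e : ℝ) + a) / Real.exp 1) ^ a) := by ring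
      _ ≤ ((e : ℝ) + a + 1) * ((e + a).factorial : ℝ) :=
          mul_le_mul_of_nonneg_left ih (by positivity)

theorem fact_ratio {S : ℕ} (D X : Finset ι) (hX : X ⊆ D) (u v : ι → ℕ) (hu : ∀ i ∈ D, u i ≤ S)
    (hv : ∀ i ∈ D, v i ≤ S) (huv : ∀ i ∈ X, u i = v i) (k : ℝ) (hk : (D.card : ℝ) ≤ k) :
    (∏ w ∈ range (S + 1), ((prD v D w).factorial : ℝ)) ≤
      (∏ w ∈ range (S + 1), ((prD u D w).factorial : ℝ)) *
        ∏ i ∈ D \ X, (Real.exp 1 * k / (prD u D (u i) : ℝ)) := by
  classical
  have hk0 : (0 : ℝ) ≤ k := le_trans (by positivity) hk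
  have hE : 0 < Real.exp 1 := Real.exp_pos 1
  let e : ℕ → ℕ := fun w => (X.filter (fun i => u i = w)).card
  let a : ℕ → ℕ := fun w => ((D \ X).filter (fun i => u i = w)).card
  let a' : ℕ → ℕ := fun w => ((D \ X).filter (fun i => v i = w)).card
  have hsplit : ∀ (g : ι → ℕ) (w : ℕ), prD g D w
      = (X.filter (fun i => g i = w)).card + ((D \ X).filter (fun i => g i = w)).card := by
    intro g w
    unfold prD
    rw [← Finset.card_union_of_disjoint]
    · rw [← Finset.filter_union, Finset.union_sdiff_of_subset hX]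
    · exact Finset.disjoint_filter_filter (Finset.disjoint_sdiff)
  have hu1 : ∀ w, prD u D w = e w + a w := fun w => hsplit u w
  have hv1 : ∀ w, prD v D w = e w + a' w := by
    intro w
    rw [hsplit v w]
    congr 1
    apply congrArg
    apply Finset.filter_congr
    intro i hi
    rw [huv i hi]
  have hsum : ∀ g : ι → ℕ, (∀ i ∈ D, g i ≤ S) →
      ∑ w ∈ range (S + 1), ((D \ X).filter (fun i => g i = w)).card = (D \ X).card := by
    intro g hg
    symm
    apply Finset.card_eq_sum_card_fiberwise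
    intro i hi
    have hi' : i ∈ D \ X := hi
    rw [Finset.mem_coe, Finset.mem_range]
    exact Nat.lt_succ_of_le (hg i (Finset.mem_sdiff.1 hi').1)
  have hle : ∀ w, ((prD v D w : ℕ) : ℝ) ≤ k := by
    intro w
    refine le_trans ?_ hk
    exact_mod_cast Finset.card_filter_le _ _
  have s1 : (∏ w ∈ range (S + 1), ((prD v D w).factorial : ℝ))
      ≤ ∏ w ∈ range (S + 1), (((e w).factorial : ℝ) * k ^ (a' w)) := by
    apply Finset.prod_le_prod
    · intro w _; positivity
    · intro w _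
      rw [hv1 w]
      apply fact_up
      have := hle w
      rw [hv1 w] at this
      push_cast at this
      exact this
  have s2 : ∏ w ∈ range (S + 1), (((e w).factorial : ℝ) * k ^ (a' w))
      = ∏ w ∈ range (S + 1), (((e w).factorial : ℝ) * k ^ (a w)) := by
    rw [Finset.prod_mul_distrib, Finset.prod_mul_distrib, Finset.prod_pow_eq_pow_sum,
      Finset.prod_pow_eq_pow_sum]
    have h1 := hsum u hu
    have h2 := hsum v hv
    change ∑ w ∈ range (S + 1), a w = _ at h1
    change ∑ w ∈ range (S + 1), a' w = _ at h2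
    rw [h1, h2]
  have s3 : ∏ w ∈ range (S + 1), (((e w).factorial : ℝ) * k ^ (a w))
      ≤ ∏ w ∈ range (S + 1), (((prD u D w).factorial : ℝ) *
        (Real.exp 1 * k / (prD u D w : ℝ)) ^ (a w)) := by
    apply Finset.prod_le_prod
    · intro w _; positivity
    · intro w _
      rw [hu1 w]
      rcases Nat.eq_zero_or_pos (a w) with h0 | h0
      · rw [h0]; simp
      · have hpos : (0 : ℝ) < (e w : ℝ) + a w := by
          have : (0 : ℝ) < a w := by exact_mod_cast h0
          positivity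
        have hd := fact_down (e w) (a w)
        have e1 : ((e w).factorial : ℝ) * k ^ (a w)
            = ((e w).factorial : ℝ) * (((e w : ℝ) + a w) / Real.exp 1) ^ (a w) *
              (Real.exp 1 * k / ((e w : ℝ) + a w)) ^ (a w) := by
          rw [mul_assoc, ← mul_pow]
          congr 2
          field_simp
        rw [e1]
        push_cast
        exact mul_le_mul_of_nonneg_right hd (by positivity)
  have s4 : ∏ w ∈ range (S + 1), (Real.exp 1 * k / (prD u D w : ℝ)) ^ (a w)
      = ∏ i ∈ D \ X, (Real.exp 1 * k / (prD u D (u i) : ℝ)) := by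
    rw [← Finset.prod_fiberwise_of_maps_to (s := D \ X) (t := range (S + 1)) (g := u)]
    · apply Finset.prod_congr rfl
      intro w _
      rw [Finset.prod_congr rfl (g := fun _ => (Real.exp 1 * k / (prD u D w : ℝ)))]
      · rw [Finset.prod_const]
      · intro i hi
        rw [(Finset.mem_filter.1 hi).2]
    · intro i hi
      rw [Finset.mem_range]
      exact Nat.lt_succ_of_le (hu i (Finset.mem_sdiff.1 hi).1)
  calc (∏ w ∈ range (S + 1), ((prD v D w).factorial : ℝ))
      ≤ ∏ w ∈ range (S + 1), (((e w).factorial : ℝ) * k ^ (a' w)) := s1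
    _ = ∏ w ∈ range (S + 1), (((e w).factorial : ℝ) * k ^ (a w)) := s2
    _ ≤ _ := s3
    _ = _ := by rw [Finset.prod_mul_distrib, s4]

end Pool.Agent.CHP
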