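import Pool.Agent.CHP.Str
import Pool.Agent.CHP.Lss

/-!
# CHP / Kha: the rounded Gibbs profile

`κ = kh t η ko`, `κ u = ⌊(1-η) ko u⌋₊` for `u ≤ t`, `0` for `u > t`, `η = n^(g-1) ∈ (0,1)` (`n ≥ 2`).  `ℒ = log n`, `B = -log (1-p)`.
PROOF.  `(1-η) ko u - 1 < κ u ≤ (1-η) ko u ≤ ko u`, so `0 ≤ ko u - κ u ≤ η ko u + 1`.
* `20 v < 19 S`: if `v ≤ t`, `ko v ≤ n^(-3) < 1` (`tail`) and `κ v = 0`.  `zero`: `v ≤ lam`: `20 v ≤ 10 t < 19 S` (`lamt`, `lt`).
* `sz S κ = ∑_{u≤t} u κ u ≤ ∑ u ko u = n`; `n - sz S κ = ∑ u (ko u - κ u) ≤ t (η ks + t + 1) ≤ C n^g + 2 t^2`, because `t ≤ S ≤ (2/B) ℒ`, `ks ≤ n/(0.9 ℒ)`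
(`SL`, `ub`), so `t ks ≤ C n`.
* `kl`: each term `x log (x/y) - x + y ≤ y - x` (`0 ≤ x ≤ y`), so `KL ≤ ∑ (ko - κ) ≤ η ks + t + 1 ≤ n^g + t + 1`.
* `big`: `κ v = 0` for `v > t`.  `up`: `num S κ ≤ ks`, `A ≥ 0`.
* `lo`: `A (ks - num S κ) ≤ A (η ks + t + 1)`, `A ks ≤ (A+1) ks = (1+G) n ≤ 2 ℒ n` (`gib.ent`, `G1`), so `A η ks ≤ 2 n^g ℒ`, `A (t+1) ≤ 40 ℒ t (t+1)` (`A1`).
All are `≤ C n^g ℒ^2` for large `n` (`g > 0`).
Last claim: `lam num S κ ≤ lam ks` and `n - sz S κ ≤ C n^g + 2 t^2`.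
-/

set_option autoImplicit false

namespace Pool.Agent.CHP

open Finset Filter

/-- The rounded Gibbs profile. -/
noncomputable def kh (t : ℕ) (η : ℝ) (ko : ℕ → ℝ) : ℕ → ℕ :=
  fun u => if u ≤ t then ⌊(1 - η) * ko u⌋₊ else 0

private theorem kh_le {t : ℕ} {η : ℝ} {ko : ℕ → ℝ} (hη0 : 0 ≤ η) (hη1 : η ≤ 1)
    (hko : ∀ u ≤ t, 0 < ko u) {u : ℕ} (hu : u ≤ t) : ((kh t η ko u : ℕ) : ℝ) ≤ ko u := by
  have h1 : 0 ≤ (1 - η) * ko u := mul_nonneg (by linarith) (hko u hu).le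
  unfold kh
  rw [if_pos hu]
  refine (Nat.floor_le h1).trans ?_
  nlinarith [hko u hu]

private theorem kh_ge {t : ℕ} {η : ℝ} {ko : ℕ → ℝ} {u : ℕ} (hu : u ≤ t) :
    ko u - ((kh t η ko u : ℕ) : ℝ) ≤ η * ko u + 1 := by
  unfold kh
  rw [if_pos hu]
  have h1 := Nat.lt_floor_add_one ((1 - η) * ko u)
  linarith

private theorem kh_zero {t : ℕ} {η : ℝ} {ko : ℕ → ℝ} {u : ℕ} (hu : ¬ u ≤ t) :
    kh t η ko u = 0 := by
  unfold kh
  rw [if_neg hu]

private theorem kh_num {t S : ℕ} {η : ℝ} {ko : ℕ → ℝ} (hS : t < S) :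
    ((num S (kh t η ko) : ℕ) : ℝ) = ∑ u ∈ range (t + 1), ((kh t η ko u : ℕ) : ℝ) := by
  unfold num
  push_cast
  symm
  apply Finset.sum_subset
  · intro u hu
    rw [Finset.mem_range] at hu ⊢
    omega
  · intro u _ hu
    rw [Finset.mem_range] at hu
    rw [kh_zero (by omega)]
    simp

private theorem kh_sz {t S : ℕ} {η : ℝ} {ko : ℕ → ℝ} (hS : t < S) :
    ((sz S (kh t η ko) : ℕ) : ℝ) = ∑ u ∈ range (t + 1), (u : ℝ) * ((kh t η ko u : ℕ) : ℝ) := by
  unfold sz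
  push_cast
  symm
  apply Finset.sum_subset
  · intro u hu
    rw [Finset.mem_range] at hu ⊢
    omega
  · intro u _ hu
    rw [Finset.mem_range] at hu
    rw [kh_zero (by omega)]
    simp

theorem kh_near {p g : ℝ} (h0 : 0 < p) (h1 : p < 1) (hg : 0 < g) (hg1 : g < 1) (C0 cT : ℝ) :
    ∃ C : ℝ, 0 < C ∧ ∀ᶠ n : ℕ in atTop, ∀ (S t lam : ℕ) (G A : ℝ) (ko : ℕ → ℝ),
      Par p g C0 cT n S t lam G A ko →
      Near n S t lam A ko (C * (n : ℝ) ^ g * Real.log n ^ 2) (kh t ((n : ℝ) ^ (g - 1)) ko) ∧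
      (∀ v, 20 * v < 19 * S → kh t ((n : ℝ) ^ (g - 1)) ko v = 0) ∧
      (lam : ℝ) * num S (kh t ((n : ℝ) ^ (g - 1)) ko) +
        ((n : ℝ) - sz S (kh t ((n : ℝ) ^ (g - 1)) ko)) ≤
          lam * ks t ko + C * (n : ℝ) ^ g * Real.log n := by
  have hB : 0 < -Real.log (1 - p) := by
    have := Real.log_neg (show 0 < 1 - p by linarith) (show 1 - p < 1 by linarith)
    linarith
  set B := -Real.log (1 - p) with hBdef
  set c : ℝ := 2 / B with hc
  have hc0 : 0 < c := by positivity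
  refine ⟨3 + c + 40 * (c ^ 2 + c), by positivity, ?_⟩
  have hlog : ∀ᶠ n : ℕ in atTop, Real.log (n : ℝ) ≤ (n : ℝ) ^ g := by
    have h2 := (isLittleO_log_rpow_atTop hg).comp_tendsto (tendsto_natCast_atTop_atTop (R := ℝ))
    have h3 := h2.bound (show (0 : ℝ) < 1 by norm_num)
    filter_upwards [h3, eventually_ge_atTop 1] with n hn hn1
    simp only [Function.comp_apply, Real.norm_eq_abs, one_mul] at hn
    have h4 : 0 ≤ (n : ℝ) ^ g := by positivity
    rw [abs_of_nonneg h4] at hn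
    exact (le_abs_self _).trans hn
  filter_upwards [hlog, eventually_ge_atTop 3] with n hnlog hn3 S t lam G A ko hP
  have hn3' : (3 : ℝ) ≤ n := by exact_mod_cast hn3
  have hn0 : (0 : ℝ) < n := by linarith
  have hL1 : 1 ≤ Real.log n := by
    have h4 : Real.log (Real.exp 1) ≤ Real.log n := by
      apply Real.log_le_log (Real.exp_pos 1)
      have := Real.exp_one_lt_d9
      linarith
    rwa [Real.log_exp] at h4
  set L := Real.log (n : ℝ) with hL
  set X := (n : ℝ) ^ g with hX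
  have hX1 : 1 ≤ X := hL1.trans hnlog
  set η : ℝ := (n : ℝ) ^ (g - 1) with hη
  have hη0 : 0 ≤ η := by positivity
  have hη1 : η < 1 := by
    apply Real.rpow_lt_one_of_one_lt_of_neg <;> linarith
  have hηn : η * n = X := by
    rw [hη, hX, Real.rpow_sub hn0, Real.rpow_one]
    field_simp
  set κ := kh t η ko with hκ
  -- basic bounds
  have hle : ∀ u ≤ t, ((κ u : ℕ) : ℝ) ≤ ko u := fun u hu => kh_le hη0 hη1.le hP.pos hu
  have hge : ∀ u ≤ t, ko u - ((κ u : ℕ) : ℝ) ≤ η * ko u + 1 := fun u hu => kh_ge hu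
  have hzero : ∀ v, 20 * v < 19 * S → κ v = 0 := by
    intro v hv
    by_cases hvt : v ≤ t
    · have h4 := hP.tail v hv hvt
      have h5 : (n : ℝ) ^ (-3 : ℝ) < 1 := by
        apply Real.rpow_lt_one_of_one_lt_of_neg <;> linarith
      have h6 := hP.pos v hvt
      rw [hκ]
      unfold kh
      rw [if_pos hvt, Nat.floor_eq_zero]
      nlinarith
    · exact kh_zero hvt
  have hT : (t : ℝ) ≤ c * L := by
    have h4 : (t : ℝ) < S := by exact_mod_cast hP.lt
    have h5 := hP.SL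
    have h6 : (S : ℝ) ≤ c * L := by
      rw [hc, div_mul_eq_mul_div, le_div_iff₀ hB]
      linarith
    linarith
  have ht0 : (0 : ℝ) ≤ t := Nat.cast_nonneg t
  have htt : (t : ℝ) * (t + 1) ≤ (c ^ 2 + c) * L ^ 2 := by
    have h4 : (t : ℝ) * (t + 1) ≤ (c * L) * (c * L + 1) := by
      apply mul_le_mul hT (by linarith) (by linarith) (by positivity)
    have h5 : c * L ≤ c * L ^ 2 := by
      apply mul_le_mul_of_nonneg_left _ hc0.le
      nlinarith
    nlinarith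
  have hks0 : 0 ≤ ks t ko := by
    unfold ks
    refine Finset.sum_nonneg fun u hu => (hP.pos u ?_).le
    rw [Finset.mem_range] at hu
    omega
  have hmem : ∀ u ∈ range (t + 1), u ≤ t := by
    intro u hu
    rw [Finset.mem_range] at hu
    omega
  -- number of classes
  have hnum := kh_num (η := η) (ko := ko) hP.lt
  have hsz := kh_sz (η := η) (ko := ko) hP.lt
  rw [← hκ] at hnum hsz
  have hD0 : ((num S κ : ℕ) : ℝ) ≤ ks t ko := by
    rw [hnum]
    unfold ks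
    exact Finset.sum_le_sum fun u hu => hle u (hmem u hu)
  have hD : ks t ko - ((num S κ : ℕ) : ℝ) ≤ η * ks t ko + (t + 1) := by
    rw [hnum]
    unfold ks
    rw [← Finset.sum_sub_distrib, Finset.mul_sum]
    have h4 : ∑ u ∈ range (t + 1), (ko u - ((κ u : ℕ) : ℝ)) ≤
        ∑ u ∈ range (t + 1), (η * ko u + 1) :=
      Finset.sum_le_sum fun u hu => hge u (hmem u hu)
    rw [Finset.sum_add_distrib, Finset.sum_const, Finset.card_range, nsmul_eq_mul, mul_one] at h4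
    push_cast at h4
    exact h4
  have hsz_le : ((sz S κ : ℕ) : ℝ) ≤ n := by
    rw [hsz, ← hP.gib.sum]
    exact Finset.sum_le_sum fun u hu => mul_le_mul_of_nonneg_left (hle u (hmem u hu))
      (Nat.cast_nonneg u)
  have hU : (n : ℝ) - ((sz S κ : ℕ) : ℝ) ≤ X + t * (t + 1) := by
    have h4 : ∑ u ∈ range (t + 1), ((u : ℝ) * ko u - (u : ℝ) * ((κ u : ℕ) : ℝ)) ≤
        ∑ u ∈ range (t + 1), (η * ((u : ℝ) * ko u) + t) := by
      refine Finset.sum_le_sum fun u hu => ?_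
      have h5 := hge u (hmem u hu)
      have h6 : (u : ℝ) ≤ t := by exact_mod_cast hmem u hu
      have h7 : (0 : ℝ) ≤ u := Nat.cast_nonneg u
      have h8 := mul_le_mul_of_nonneg_left h5 h7
      nlinarith
    rw [Finset.sum_sub_distrib, Finset.sum_add_distrib, ← Finset.mul_sum, Finset.sum_const,
      Finset.card_range, nsmul_eq_mul, hP.gib.sum, hηn, ← hsz] at h4
    push_cast at h4
    linarith
  have hηks : η * ks t ko ≤ 2 * X := by
    have h4 := hP.ub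
    have h5 : ks t ko ≤ 2 * n := by nlinarith
    have h6 := mul_le_mul_of_nonneg_left h5 hη0
    nlinarith
  have hlamt : (lam : ℝ) ≤ t := by
    have := hP.lamt
    have h4 : lam ≤ t := by omega
    exact_mod_cast h4
  have hlam0 : (0 : ℝ) ≤ lam := Nat.cast_nonneg lam
  have hA0 : 0 ≤ A := by
    have h4 := hP.A0
    have h5 : 0 ≤ (3 * L + 1) * lam := by positivity
    linarith
  have hAks : A * (η * ks t ko) ≤ 2 * L * X := by
    have h4 := hP.gib.ent
    have h5 : A * ks t ko ≤ 2 * L * n := by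
      have h6 : (1 + G) * n ≤ 2 * L * n := by
        apply mul_le_mul_of_nonneg_right _ hn0.le
        have := hP.G1
        linarith
      nlinarith
    have h7 := mul_le_mul_of_nonneg_left h5 hη0
    have h8 : η * (2 * L * n) = 2 * L * X := by rw [← hηn]; ring
    calc A * (η * ks t ko) = η * (A * ks t ko) := by ring
      _ ≤ η * (2 * L * n) := h7
      _ = 2 * L * X := h8
  have hAt : A * (t + 1) ≤ 40 * (c ^ 2 + c) * L ^ 3 := by
    have h4 : A ≤ 40 * L * t := by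
      have h5 := hP.A1
      have h6 : 40 * L * lam ≤ 40 * L * t := mul_le_mul_of_nonneg_left hlamt (by positivity)
      linarith
    have h7 : A * (t + 1) ≤ 40 * L * t * (t + 1) :=
      mul_le_mul_of_nonneg_right h4 (by linarith)
    have h8 : 40 * L * (t * (t + 1)) ≤ 40 * L * ((c ^ 2 + c) * L ^ 2) :=
      mul_le_mul_of_nonneg_left htt (by positivity)
    nlinarith
  have hL2 : 1 ≤ L ^ 2 := one_le_pow₀ hL1
  have hXL2 : X ≤ X * L ^ 2 := by nlinarith
  have hXL : X * L ≤ X * L ^ 2 := by nlinarith [mul_nonneg (by linarith : (0:ℝ) ≤ X) (by linarith : (0:ℝ) ≤ L)]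
  have hL3 : L ^ 3 ≤ X * L ^ 2 := by nlinarith
  have hc2 : 0 ≤ c ^ 2 + c := by positivity
  have hΛ : (3 + c + 40 * (c ^ 2 + c)) * X * L ^ 2 =
      3 * (X * L ^ 2) + c * (X * L ^ 2) + 40 * ((c ^ 2 + c) * (X * L ^ 2)) := by ring
  have hΛ0 : 0 ≤ X * L ^ 2 := by positivity
  have hcX : 0 ≤ c * (X * L ^ 2) := by positivity
  have hc2X : 0 ≤ (c ^ 2 + c) * (X * L ^ 2) := by positivity
  have hc2L3 : (c ^ 2 + c) * L ^ 3 ≤ (c ^ 2 + c) * (X * L ^ 2) :=
    mul_le_mul_of_nonneg_left hL3 hc2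
  refine ⟨⟨?_, ?_, ?_, ?_, ?_, ?_, ?_⟩, hzero, ?_⟩
  · intro v hv
    apply hzero
    have := hP.lamt
    have := hP.lt
    omega
  · exact_mod_cast hsz_le
  · -- KL
    rw [hΛ]
    have h4 : KL t ko (fun u => ((κ u : ℕ) : ℝ)) ≤ ks t ko - ((num S κ : ℕ) : ℝ) := by
      rw [hnum]
      unfold KL ks
      rw [← Finset.sum_sub_distrib]
      refine Finset.sum_le_sum fun u hu => ?_
      have h5 := hle u (hmem u hu)
      have h6 := hP.pos u (hmem u hu)
      have h7 : ((κ u : ℕ) : ℝ) * Real.log (((κ u : ℕ) : ℝ) / ko u) ≤ 0 := by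
        apply mul_nonpos_of_nonneg_of_nonpos (Nat.cast_nonneg _)
        apply Real.log_nonpos (by positivity)
        rw [div_le_one h6]
        exact h5
      linarith
    have h8 : (t : ℝ) ≤ c * (X * L ^ 2) := by
      refine hT.trans (mul_le_mul_of_nonneg_left ?_ hc0.le)
      linarith
    linarith
  · rw [hΛ]
    have h4 : ((n : ℝ) - ((sz S κ : ℕ) : ℝ)) * L ≤ (X + (c ^ 2 + c) * L ^ 2) * L :=
      mul_le_mul_of_nonneg_right (by linarith) (by linarith)
    have h5 : (X + (c ^ 2 + c) * L ^ 2) * L = X * L + (c ^ 2 + c) * L ^ 3 := by ring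
    linarith
  · have h4 : ∑ v ∈ Ioc t S, κ v = 0 := by
      refine Finset.sum_eq_zero fun v hv => ?_
      rw [Finset.mem_Ioc] at hv
      exact kh_zero (by omega)
    rw [h4]
    simp only [Nat.cast_zero, zero_mul]
    positivity
  · rw [hΛ]
    have h4 : A * (ks t ko - ((num S κ : ℕ) : ℝ)) ≤ A * (η * ks t ko + (t + 1)) :=
      mul_le_mul_of_nonneg_left hD hA0
    have h5 : A * (η * ks t ko + (t + 1)) = A * (η * ks t ko) + A * (t + 1) := by ring
    linarith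
  · have h4 : A * (((num S κ : ℕ) : ℝ) - ks t ko) ≤ 0 :=
      mul_nonpos_of_nonneg_of_nonpos hA0 (by linarith)
    have h5 : 0 ≤ 4 * ((3 + c + 40 * (c ^ 2 + c)) * X * L ^ 2) := by positivity
    linarith
  · have h4 : (lam : ℝ) * ((num S κ : ℕ) : ℝ) ≤ lam * ks t ko :=
      mul_le_mul_of_nonneg_left hD0 hlam0
    have h5 : L ^ 2 ≤ X * L := by nlinarith
    have h6 : (c ^ 2 + c) * L ^ 2 ≤ (c ^ 2 + c) * (X * L) := mul_le_mul_of_nonneg_left h5 hc2
    have h7 : X ≤ X * L := by nlinarith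
    have h8 : (3 + c + 40 * (c ^ 2 + c)) * X * L =
      3 * (X * L) + c * (X * L) + 40 * ((c ^ 2 + c) * (X * L)) := by ring
    have h9 : 0 ≤ c * (X * L) := by positivity
    have h10 : 0 ≤ (c ^ 2 + c) * (X * L) := by positivity
    rw [h8]
    linarith

end Pool.Agent.CHP
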