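import Pool.Agent.CHP.Defs
import Pool.Agent.CHV.Grf

/-!
# CHP / NTc: counting the common pairs of two packings; tuples and finsets

PROOFS.  `shared_pairs`: let `e ∈ prs T`, `e ∈ prs I`, `e ∈ prs J` with `I ∈ P`, `J ∈ Q` (`mem_UP`); then `e ∈ prs (I ∩ T ∩ J)`, so
`2 ≤ |I ∩ T ∩ J|`.  If `|I ∩ T ∩ J| > r0`, `I` is one of the `MgP` classes and `e ∈ prs I`, `|prs I| = C(|I|,2) ≤ S^2` (`card_prs`,
`Nat.choose_two_right`).  Otherwise `(I, J)` is one of the `NuP` pairs and `e ∈ prs I`.  So the set is contained in the union of two `biUnion`s of sets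
of cardinality `≤ S^2` (`Finset.card_biUnion_le_card_mul`).
`MgP_eq`: `I` is injective (disjoint nonempty sets), `Finset.filter_image`, `Finset.card_image_of_injective`; `(∃ J' ∈ univ.image J, ..) ↔ ∃ j, ..`.
`NuP_eq`: `univ.image I ×ˢ univ.image J = univ.image (fun q => (I q.1, J q.2))` (`Finset.product_image`-like / `Finset.card_bij`).
`prod_fw`: `fw θ b r0 r = θ^[2 ≤ r ≤ r0] b^C(r,2)`; `Finset.prod_mul_distrib`, `Finset.prod_pow_eq_pow_sum`,
`∏ i, ∏ j, (if .. then θ else 1) = θ ^ #{(i,j) | ..}` (`Finset.prod_ite`, `Finset.prod_const`, `Fintype.prod_prod_type'`).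
-/

set_option autoImplicit false

namespace Pool.Agent.CHP

open Finset Pool.Agent.CHV

variable {n : ℕ} {ι ι' : Type} [Fintype ι] [DecidableEq ι] [Fintype ι'] [DecidableEq ι']

theorem shared_pairs {S r0 : ℕ} (T : Finset (Fin n)) (P Q : Finset (Finset (Fin n)))
    (hP : ∀ I ∈ P, I.card ≤ S) :
    ((prs T).filter (fun e => e ∈ UP P ∧ e ∈ UP Q)).card ≤ S ^ 2 * (MgP r0 T P Q + NuP r0 T P Q) := by
  classical
  obtain ⟨A, hA⟩ : ∃ A : Finset (Finset (Fin n)),
      A = P.filter (fun I => ∃ J ∈ Q, r0 < (I ∩ T ∩ J).card) := ⟨_, rfl⟩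
  obtain ⟨B, hB⟩ : ∃ B : Finset (Finset (Fin n) × Finset (Fin n)),
      B = (P ×ˢ Q).filter (fun q => 2 ≤ (q.1 ∩ T ∩ q.2).card ∧ (q.1 ∩ T ∩ q.2).card ≤ r0) :=
    ⟨_, rfl⟩
  have hAc : A.card = MgP r0 T P Q := by
    rw [hA]
    unfold MgP
    exact Finset.card_bij (fun a _ => a)
      (fun a ha => by rw [Finset.mem_filter] at ha ⊢; exact ha)
      (fun a _ b _ h => h)
      (fun b hb => ⟨b, by rw [Finset.mem_filter] at hb ⊢; exact hb, rfl⟩)
  have hBc : B.card = NuP r0 T P Q := by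
    rw [hB]
    unfold NuP
    exact Finset.card_bij (fun a _ => a)
      (fun a ha => by rw [Finset.mem_filter] at ha ⊢; exact ha)
      (fun a _ b _ h => h)
      (fun b hb => ⟨b, by rw [Finset.mem_filter] at hb ⊢; exact hb, rfl⟩)
  have hcard : ∀ I ∈ P, (prs I).card ≤ S ^ 2 := by
    intro I hI
    rw [card_prs, Nat.choose_two_right]
    have h1 := hP I hI
    calc I.card * (I.card - 1) / 2 ≤ I.card * (I.card - 1) := Nat.div_le_self _ _
      _ ≤ S * S := Nat.mul_le_mul h1 (by omega)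
      _ = S ^ 2 := by ring
  have hsub : (prs T).filter (fun e => e ∈ UP P ∧ e ∈ UP Q) ⊆
      A.biUnion prs ∪ B.biUnion (fun q => prs q.1) := by
    intro e he
    rw [Finset.mem_filter, mem_UP, mem_UP] at he
    obtain ⟨heT, ⟨I, hI, heI⟩, J, hJ, heJ⟩ := he
    have h1 : e ∈ prs (I ∩ T ∩ J) := by
      rw [← prs_inter, ← prs_inter, Finset.mem_inter, Finset.mem_inter]
      exact ⟨⟨heI, heT⟩, heJ⟩
    have h2 : 2 ≤ (I ∩ T ∩ J).card := by
      have h3 : 0 < (prs (I ∩ T ∩ J)).card := Finset.card_pos.2 ⟨e, h1⟩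
      rw [card_prs] at h3
      by_contra h4
      rw [Nat.choose_eq_zero_of_lt (by omega)] at h3
      omega
    rw [Finset.mem_union, Finset.mem_biUnion, Finset.mem_biUnion]
    by_cases h5 : r0 < (I ∩ T ∩ J).card
    · left
      refine ⟨I, ?_, heI⟩
      rw [hA, Finset.mem_filter]
      exact ⟨hI, J, hJ, h5⟩
    · right
      refine ⟨(I, J), ?_, heI⟩
      rw [hB, Finset.mem_filter, Finset.mem_product]
      exact ⟨⟨hI, hJ⟩, h2, not_lt.1 h5⟩
  calc ((prs T).filter (fun e => e ∈ UP P ∧ e ∈ UP Q)).card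
      ≤ (A.biUnion prs ∪ B.biUnion (fun q => prs q.1)).card := Finset.card_le_card hsub
    _ ≤ (A.biUnion prs).card + (B.biUnion (fun q => prs q.1)).card := Finset.card_union_le _ _
    _ ≤ A.card * S ^ 2 + B.card * S ^ 2 := by
        refine add_le_add ?_ ?_
        · refine Finset.card_biUnion_le_card_mul _ _ _ ?_
          intro I hI
          rw [hA, Finset.mem_filter] at hI
          exact hcard I hI.1
        · refine Finset.card_biUnion_le_card_mul _ _ _ ?_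
          intro q hq
          rw [hB, Finset.mem_filter, Finset.mem_product] at hq
          exact hcard q.1 hq.1.1
    _ = S ^ 2 * (MgP r0 T P Q + NuP r0 T P Q) := by
        rw [hAc, hBc]
        ring

private theorem OP_inj {u : ι → ℕ} (hu : ∀ i, 1 ≤ u i)
    {I : ι → Finset (Fin n)} (hI : I ∈ OP (univ : Finset (Fin n)) u) : Function.Injective I := by
  rw [mem_OP] at hI
  intro i j hij
  by_contra hne
  have h1 := hI.2 i j hne
  rw [hij, disjoint_self] at h1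
  have h2 := (hI.1 j).2
  rw [h1] at h2
  have h3 := hu j
  have h4 : ((⊥ : Finset (Fin n))).card = 0 := Finset.card_empty
  omega

theorem MgP_eq (r0 : ℕ) (T : Finset (Fin n)) (u : ι → ℕ) (hu : ∀ i, 1 ≤ u i)
    (I : ι → Finset (Fin n)) (hI : I ∈ OP (univ : Finset (Fin n)) u) (J : ι' → Finset (Fin n)) :
    MgP r0 T (univ.image I) (univ.image J) = Mg r0 (fun i => I i ∩ T) J := by
  unfold MgP Mg
  symm
  refine Finset.card_bij (fun i _ => I i) ?_ ?_ ?_
  · intro i hi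
    rw [Finset.mem_filter] at hi ⊢
    obtain ⟨_, j, hj⟩ := hi
    exact ⟨Finset.mem_image.2 ⟨i, Finset.mem_univ _, rfl⟩, J j,
      Finset.mem_image.2 ⟨j, Finset.mem_univ _, rfl⟩, hj⟩
  · intro i _ j _ h
    exact OP_inj hu hI h
  · intro K hK
    rw [Finset.mem_filter] at hK
    obtain ⟨h1, K', hK', h2⟩ := hK
    obtain ⟨i, _, rfl⟩ := Finset.mem_image.1 h1
    obtain ⟨j, _, rfl⟩ := Finset.mem_image.1 hK'
    refine ⟨i, ?_, rfl⟩
    rw [Finset.mem_filter]
    exact ⟨Finset.mem_univ _, j, h2⟩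

theorem NuP_eq (r0 : ℕ) (T : Finset (Fin n)) (u : ι → ℕ) (hu : ∀ i, 1 ≤ u i)
    (I : ι → Finset (Fin n)) (hI : I ∈ OP (univ : Finset (Fin n)) u)
    (u' : ι' → ℕ) (hu' : ∀ i, 1 ≤ u' i)
    (J : ι' → Finset (Fin n)) (hJ : J ∈ OP (univ : Finset (Fin n)) u') :
    NuP r0 T (univ.image I) (univ.image J) = Nu r0 (fun i => I i ∩ T) J := by
  unfold NuP Nu
  symm
  refine Finset.card_bij (fun q _ => (I q.1, J q.2)) ?_ ?_ ?_
  · intro q hq
    rw [Finset.mem_filter] at hq ⊢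
    refine ⟨?_, hq.2⟩
    rw [Finset.mem_product]
    exact ⟨Finset.mem_image.2 ⟨q.1, Finset.mem_univ _, rfl⟩,
      Finset.mem_image.2 ⟨q.2, Finset.mem_univ _, rfl⟩⟩
  · intro q _ q' _ h
    have h1 := OP_inj hu hI (congrArg Prod.fst h)
    have h2 := OP_inj hu' hJ (congrArg Prod.snd h)
    exact Prod.ext h1 h2
  · intro K hK
    rw [Finset.mem_filter, Finset.mem_product] at hK
    obtain ⟨⟨h1, h2⟩, h3⟩ := hK
    obtain ⟨i, _, hi⟩ := Finset.mem_image.1 h1
    obtain ⟨j, _, hj⟩ := Finset.mem_image.1 h2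
    refine ⟨(i, j), ?_, Prod.ext hi hj⟩
    rw [Finset.mem_filter]
    rw [← hi, ← hj] at h3
    exact ⟨Finset.mem_univ _, h3⟩

theorem prod_fw (θ b : ℝ) (r0 : ℕ) (A : ι → Finset (Fin n)) (J : ι' → Finset (Fin n)) :
    ∏ i, ∏ j, fw θ b r0 (A i ∩ J j).card =
      θ ^ (Nu r0 A J) * b ^ (∑ i, ∑ j, (A i ∩ J j).card.choose 2) := by
  have h1 : ∏ i, ∏ j, fw θ b r0 (A i ∩ J j).card =
      (∏ i, ∏ j, (if 2 ≤ (A i ∩ J j).card ∧ (A i ∩ J j).card ≤ r0 then θ else 1)) *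
        ∏ i, ∏ j, b ^ ((A i ∩ J j).card.choose 2) := by
    rw [← Finset.prod_mul_distrib]
    refine Finset.prod_congr rfl fun i _ => ?_
    rw [← Finset.prod_mul_distrib]
    rfl
  have h2 : (∏ i, ∏ j, b ^ ((A i ∩ J j).card.choose 2)) =
      b ^ (∑ i, ∑ j, (A i ∩ J j).card.choose 2) := by
    rw [← Finset.prod_pow_eq_pow_sum]
    refine Finset.prod_congr rfl fun i _ => ?_
    rw [← Finset.prod_pow_eq_pow_sum]
  have h3 : (∏ i, ∏ j, (if 2 ≤ (A i ∩ J j).card ∧ (A i ∩ J j).card ≤ r0 then θ else 1)) =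
      θ ^ (Nu r0 A J) := by
    rw [← Fintype.prod_prod_type' (fun i j =>
      if 2 ≤ (A i ∩ J j).card ∧ (A i ∩ J j).card ≤ r0 then θ else 1)]
    rw [Finset.prod_ite, Finset.prod_const, Finset.prod_const_one, mul_one]
    rfl
  rw [h1, h2, h3]

end Pool.Agent.CHP
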