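import Pool.Agent.CHP.Lob
import Pool.Agent.CHP.Bnb

/-!
# CHP / RgB: positivity, middle range

Notation: `ℒ = log n`, `ū = n/ks`, `y = n - sz S σ`, `z = y/n ∈ [z1, 1 - y1]`, `τ u = κ u - σ u`, `M = ∑_{u≤t} τ u ≤ num S κ ≤ 2 ks ≤ 2 n/(0.9 ℒ)`
(`num_le`, `ub`; `Λ ≤ n^(1-δ) ≤ n`), `g(x) = x log (1/x)` (`= Real.negMulLog x`).
PROOF.  By `lower` and `log_bin_le` `Hf ≥ y log (n/y) - (1+G) ∑ τ u (ū - u) - 3 M log (ks/M) - 4 M - (C + 2) Λ`.  `M log (ks/M) ≤ ks/exp 1 ≤ n/ℒ`,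
`4 M ≤ 9 n/ℒ`, `(C+2) Λ ≤ n/ℒ` for large `n`.
* `ω u = min (τ u) (ko u)`; `0 ≤ τ u - ω u ≤ |κ u - ko u|`; `|ū - u| ≤ t` (`0 ≤ ū ≤ t`: `gib.sum`).  Put `R = ∑_{u≤t} |κ u - ko u|`; by `hel`, `kl`:
  `R ≤ sqrt Λ sqrt (2 (2 ks + ks)) ≤ sqrt (6 n^(1-δ) n) ≤ 3 n^(1-δ/2)`.  So `(1+G) ∑ τ u (ū - u) ≤ (1+G) ∑ ω u (ū - u) + (1+G) t R`, and
  `(1+G) t R ≤ n/ℒ` for large `n` (`G ≤ ℒ`, `t ≤ S ≤ (2/B) ℒ`).
* `tame` for `ω' i = ω (t-i)/ks` (reverse the sum: `Finset.sum_range_reflect`; `ū - u = i - (t - ū)` for `u = t - i`):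
  `(1+G) ∑ ω u (ū - u) ≤ (1 - cT) n g(z̃)`, `z̃ = (∑ ω u)/ks`.
* `|z - z̃| ≤ C''/ℒ`: `n z - n z̃ = (n - sz S κ) + ∑_{v ≤ S} v (κ v - σ v) - ū ∑ ω u`, and
  `∑_{v≤t} v τ v - ū ∑ ω u = ∑ v (τ v - ω v) - ∑ ω v (ū - v)`, of absolute value `≤ t R + ∑ ko v |ū - v|`, where
  `∑ ko v |ū - v| ≤ ∑ ko v (t - v) + (t - ū) ks = 2 ∑ ko v (t - v) ≤ 2 C0 ks` (`mg`, `x ≤ exp (16 x)`; `(t - ū) ks = ∑ (t - v) ko v`);
  `n - sz S κ ≤ Λ/ℒ`, `∑_{v>t} v (κ v - σ v) ≤ S κ_> ≤ Λ`.
* `g` is uniformly continuous on `[0, 2]` (`Real.continuous_negMulLog`, `IsCompact.uniformContinuousOn_of_continuous`) and on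
  `[z1, 1 - y1]` it is `≥ m0 := min (g z1) (g (1 - y1)) > 0` (concavity, `Real.concaveOn_negMulLog`; or a compactness argument:
  continuous and positive on `[z1, 1-y1]`).  (If `z1 > 1 - y1` there is nothing to prove.)  So for large `n` `g(z̃) ≤ g(z) + cT m0/4` and
  `Hf/n ≥ g(z) - (1 - cT)(g(z) + cT m0/4) - C'''/ℒ ≥ cT m0 - cT m0/4 - C'''/ℒ ≥ cT m0/2` (`0 < cT ≤ 1`; `y log (n/y) = n g(z)`).
-/

set_option autoImplicit false

namespace Pool.Agent.CHP

open Finset Filter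

section aux

variable {p g C0 cT : ℝ} {n S t lam : ℕ} {G A : ℝ} {ko : ℕ → ℝ}

private theorem rb_ks (hP : Par p g C0 cT n S t lam G A ko) : 0 < ks t ko := by
  unfold ks
  refine Finset.sum_pos (fun u hu => hP.pos u ?_) ⟨0, by simp⟩
  have := mem_range.1 hu
  omega

private theorem rb_u (hP : Par p g C0 cT n S t lam G A ko) : (n : ℝ) ≤ t * ks t ko := by
  rw [← hP.gib.sum]
  unfold ks
  rw [mul_sum]
  refine sum_le_sum fun u hu => ?_
  have hu' : u ≤ t := by have := mem_range.1 hu; omega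
  have h1 : (u : ℝ) ≤ t := by exact_mod_cast hu'
  exact mul_le_mul_of_nonneg_right h1 (hP.pos u hu').le

private theorem rb_C0 (hP : Par p g C0 cT n S t lam G A ko) : 1 ≤ C0 := by
  have h := hP.mg
  have hk := rb_ks hP
  have h2 : ks t ko ≤ ∑ u ∈ range (t + 1), ko u * Real.exp (16 * ((t : ℝ) - u)) := by
    unfold ks
    refine sum_le_sum fun u hu => ?_
    have hu' : u ≤ t := by have := mem_range.1 hu; omega
    have h1 : (u : ℝ) ≤ t := by exact_mod_cast hu'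
    have h3 : 1 ≤ Real.exp (16 * ((t : ℝ) - u)) := Real.one_le_exp (by linarith)
    exact le_mul_of_one_le_right (hP.pos u hu').le h3
  have h4 : 1 * ks t ko ≤ C0 * ks t ko := by rw [one_mul]; exact h2.trans h
  exact le_of_mul_le_mul_right h4 hk

private theorem rb_dev (hP : Par p g C0 cT n S t lam G A ko) :
    ∑ u ∈ range (t + 1), ko u * ((t : ℝ) - u) ≤ C0 * ks t ko := by
  refine le_trans (sum_le_sum fun u hu => ?_) hP.mg
  have hu' : u ≤ t := by have := mem_range.1 hu; omega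
  have h1 : (u : ℝ) ≤ t := by exact_mod_cast hu'
  have h3 := Real.add_one_le_exp (16 * ((t : ℝ) - u))
  exact mul_le_mul_of_nonneg_left (by linarith) (hP.pos u hu').le

private theorem rb_dev2 (hP : Par p g C0 cT n S t lam G A ko) :
    ∑ u ∈ range (t + 1), ko u * |n / ks t ko - u| ≤ 2 * C0 * ks t ko := by
  have hk := rb_ks hP
  have hu0 : n / ks t ko ≤ t := (div_le_iff₀ hk).2 (rb_u hP)
  have h1 : ∑ u ∈ range (t + 1), ko u * |n / ks t ko - u| ≤
      ∑ u ∈ range (t + 1), (ko u * ((t : ℝ) - u) + ko u * (t - n / ks t ko)) := by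
    refine sum_le_sum fun u hu => ?_
    have hu' : u ≤ t := by have := mem_range.1 hu; omega
    have h1 : (u : ℝ) ≤ t := by exact_mod_cast hu'
    rw [← mul_add]
    refine mul_le_mul_of_nonneg_left ?_ (hP.pos u hu').le
    rw [abs_le]
    constructor <;> linarith
  have h2 : ∑ u ∈ range (t + 1), ko u * (t - n / ks t ko) = ∑ u ∈ range (t + 1), ko u * ((t : ℝ) - u) := by
    rw [← sum_mul]
    have e1 : ∑ u ∈ range (t + 1), ko u * ((t : ℝ) - u) = t * ks t ko - n := by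
      rw [← hP.gib.sum]
      unfold ks
      rw [mul_sum, ← sum_sub_distrib]
      exact sum_congr rfl fun u _ => by ring
    rw [e1]
    change ks t ko * _ = _
    field_simp
  have h3 := rb_dev hP
  rw [sum_add_distrib, h2] at h1
  linarith

/-- total variation distance to the Gibbs profile -/
private theorem rb_R (hP : Par p g C0 cT n S t lam G A ko) {Λ : ℝ} {κ : ℕ → ℕ}
    (hN : Near n S t lam A ko Λ κ) (hnum : (num S κ : ℝ) ≤ 2 * ks t ko) (hks : ks t ko ≤ n)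
    {X : ℝ} (hX : 0 ≤ X) (hΛ : Λ * n ≤ X ^ 2) :
    ∑ u ∈ range (t + 1), |(κ u : ℝ) - ko u| ≤ 3 * X := by
  have hk := rb_ks hP
  have h := hel t ko (fun u => (κ u : ℝ)) hP.pos (fun u _ => Nat.cast_nonneg _)
  refine h.trans ?_
  have hKL0 : 0 ≤ KL t ko (fun u => (κ u : ℝ)) := kl_nonneg t ko _ hP.pos (fun u _ => Nat.cast_nonneg _)
  have h2 : ∑ u ∈ range (t + 1), (κ u : ℝ) ≤ num S κ := by
    unfold num
    push_cast
    refine sum_le_sum_of_subset_of_nonneg (range_subset_range.2 (by have := hP.lt; omega)) fun _ _ _ => Nat.cast_nonneg _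
  have h3 : ∑ u ∈ range (t + 1), ko u = ks t ko := rfl
  rw [← Real.sqrt_mul hKL0, Real.sqrt_le_left (by positivity), h3]
  have hKL : KL t ko (fun u => (κ u : ℝ)) ≤ Λ := hN.kl
  have h5 : 2 * (∑ u ∈ range (t + 1), (κ u : ℝ) + ks t ko) ≤ 6 * n := by linarith
  have h6 : 0 ≤ 2 * (∑ u ∈ range (t + 1), (κ u : ℝ) + ks t ko) := by
    have : 0 ≤ ∑ u ∈ range (t + 1), (κ u : ℝ) := sum_nonneg fun _ _ => Nat.cast_nonneg _
    linarith
  calc KL t ko (fun u => (κ u : ℝ)) * (2 * (∑ u ∈ range (t + 1), (κ u : ℝ) + ks t ko))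
      ≤ Λ * (6 * n) := mul_le_mul hKL h5 h6 (hKL0.trans hKL)
    _ ≤ (3 * X) ^ 2 := by nlinarith [sq_nonneg X]

/-- use of `tame` -/
private theorem rb_om (hP : Par p g C0 cT n S t lam G A ko) {κ σ : ℕ → ℕ}
    (hσ : ∀ v ≤ S, σ v ≤ κ v) (hG : 0 ≤ G) {R : ℝ}
    (hR : ∑ u ∈ range (t + 1), |(κ u : ℝ) - ko u| ≤ R) :
    (1 + G) * ∑ u ∈ range (t + 1), ((κ u : ℝ) - σ u) * (n / ks t ko - u) ≤
      (1 - cT) * n * Real.negMulLog ((∑ u ∈ range (t + 1), min ((κ u : ℝ) - σ u) (ko u)) / ks t ko) +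
        (1 + G) * (t * R) := by
  have hk := rb_ks hP
  have hu0 : n / ks t ko ≤ t := (div_le_iff₀ hk).2 (rb_u hP)
  have hu1 : 0 ≤ n / ks t ko := div_nonneg (Nat.cast_nonneg _) hk.le
  have hτ : ∀ u ≤ t, 0 ≤ (κ u : ℝ) - σ u := fun u hu => by
    have h1 : σ u ≤ κ u := hσ u (hu.trans hP.lt.le)
    have h2 : (σ u : ℝ) ≤ κ u := by exact_mod_cast h1
    linarith
  have h1 : ∑ u ∈ range (t + 1), ((κ u : ℝ) - σ u) * (n / ks t ko - u) ≤
      ∑ u ∈ range (t + 1), min ((κ u : ℝ) - σ u) (ko u) * (n / ks t ko - u) + t * R := by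
    have : ∑ u ∈ range (t + 1), ((κ u : ℝ) - σ u) * (n / ks t ko - u) ≤
        ∑ u ∈ range (t + 1), (min ((κ u : ℝ) - σ u) (ko u) * (n / ks t ko - u) +
          t * |(κ u : ℝ) - ko u|) := by
      refine sum_le_sum fun u hu => ?_
      have hu' : u ≤ t := by have := mem_range.1 hu; omega
      have hu1' : (u : ℝ) ≤ t := by exact_mod_cast hu'
      have hu2' : (0 : ℝ) ≤ u := Nat.cast_nonneg _
      have ha : 0 ≤ ((κ u : ℝ) - σ u) - min ((κ u : ℝ) - σ u) (ko u) := sub_nonneg.2 (min_le_left _ _)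
      have hb : ((κ u : ℝ) - σ u) - min ((κ u : ℝ) - σ u) (ko u) ≤ |(κ u : ℝ) - ko u| := by
        rcases le_total ((κ u : ℝ) - σ u) (ko u) with h | h
        · rw [min_eq_left h, sub_self]
          exact abs_nonneg _
        · rw [min_eq_right h]
          have := le_abs_self ((κ u : ℝ) - ko u)
          have h3 : (0 : ℝ) ≤ σ u := Nat.cast_nonneg _
          linarith
      have hc : (((κ u : ℝ) - σ u) - min ((κ u : ℝ) - σ u) (ko u)) * (n / ks t ko - u) ≤
          |(κ u : ℝ) - ko u| * t := by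
        calc (((κ u : ℝ) - σ u) - min ((κ u : ℝ) - σ u) (ko u)) * (n / ks t ko - u)
            ≤ (((κ u : ℝ) - σ u) - min ((κ u : ℝ) - σ u) (ko u)) * t :=
              mul_le_mul_of_nonneg_left (by linarith) ha
          _ ≤ |(κ u : ℝ) - ko u| * t := mul_le_mul_of_nonneg_right hb (Nat.cast_nonneg _)
      linarith
    refine this.trans ?_
    rw [sum_add_distrib, ← mul_sum]
    have := mul_le_mul_of_nonneg_left hR (Nat.cast_nonneg t)
    linarith
  have h2 := hP.tame (fun i => min ((κ (t - i) : ℝ) - σ (t - i)) (ko (t - i)) / ks t ko) (fun i hi => by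
    constructor
    · exact div_nonneg (le_min (hτ _ (Nat.sub_le _ _)) (hP.pos _ (Nat.sub_le _ _)).le) hk.le
    · rw [div_mul_cancel₀ _ hk.ne']
      exact min_le_right _ _)
  have e1 : ∑ i ∈ range (t + 1), min ((κ (t - i) : ℝ) - σ (t - i)) (ko (t - i)) / ks t ko =
      (∑ u ∈ range (t + 1), min ((κ u : ℝ) - σ u) (ko u)) / ks t ko := by
    rw [sum_div]
    have := sum_range_reflect (fun u => min ((κ u : ℝ) - σ u) (ko u) / ks t ko) (t + 1)
    simp only [Nat.add_sub_cancel] at this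
    exact this
  have e2 : ∑ i ∈ range (t + 1), min ((κ (t - i) : ℝ) - σ (t - i)) (ko (t - i)) / ks t ko *
      ((i : ℝ) - (t - n / ks t ko)) =
      (∑ u ∈ range (t + 1), min ((κ u : ℝ) - σ u) (ko u) * (n / ks t ko - u)) / ks t ko := by
    rw [sum_div]
    have := sum_range_reflect (fun u => min ((κ u : ℝ) - σ u) (ko u) * (n / ks t ko - u) / ks t ko) (t + 1)
    rw [← this]
    refine sum_congr rfl fun i hi => ?_
    have hi' : i ≤ t := by have := mem_range.1 hi; omega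
    have e3 : t + 1 - 1 - i = t - i := by omega
    rw [e3, Nat.cast_sub hi']
    ring
  simp only [e1, e2] at h2
  have h3 : (1 + G) * (∑ u ∈ range (t + 1), min ((κ u : ℝ) - σ u) (ko u) * (n / ks t ko - u)) ≤
      (1 - cT) * n * Real.negMulLog ((∑ u ∈ range (t + 1), min ((κ u : ℝ) - σ u) (ko u)) / ks t ko) := by
    have := mul_le_mul_of_nonneg_right h2 hk.le
    rw [Real.negMulLog]
    rw [one_div, Real.log_inv] at this
    calc _ = (1 + G) * ((∑ u ∈ range (t + 1), min ((κ u : ℝ) - σ u) (ko u) * (n / ks t ko - u)) / ks t ko) * ks t ko := by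
          field_simp
      _ ≤ _ := this
      _ = _ := by field_simp
  have h4 := mul_le_mul_of_nonneg_left h1 (by linarith : 0 ≤ 1 + G)
  linarith

private theorem rb_z (hP : Par p g C0 cT n S t lam G A ko) {Λ : ℝ} {κ σ : ℕ → ℕ}
    (hN : Near n S t lam A ko Λ κ) (hσ : ∀ v ≤ S, σ v ≤ κ v) {R : ℝ}
    (hR : ∑ u ∈ range (t + 1), |(κ u : ℝ) - ko u| ≤ R) (hl : 1 ≤ Real.log n) {B : ℝ} (hB : 0 < B)
    (hS : B * S ≤ 2 * Real.log n) :
    |((n : ℝ) - sz S σ) - n * ((∑ u ∈ range (t + 1), min ((κ u : ℝ) - σ u) (ko u)) / ks t ko)| ≤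
      (1 + 2 / B) * Λ + t * R + 2 * C0 * ks t ko := by
  have hk := rb_ks hP
  have hτ : ∀ u ≤ S, 0 ≤ (κ u : ℝ) - σ u := fun u hu => by
    have h1 : σ u ≤ κ u := hσ u hu
    have h2 : (σ u : ℝ) ≤ κ u := by exact_mod_cast h1
    linarith
  have hsplit : ∀ f : ℕ → ℝ, ∑ v ∈ range (S + 1), f v =
      ∑ v ∈ range (t + 1), f v + ∑ v ∈ Ioc t S, f v := by
    intro f
    have hlt := hP.lt
    rw [← sum_union]
    · congr 1
      ext v
      simp only [mem_range, mem_union, mem_Ioc]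
      omega
    · rw [disjoint_left]
      intro v
      simp only [mem_range, mem_Ioc]
      omega
  -- the large classes
  have hbig0 : 0 ≤ ∑ v ∈ Ioc t S, (v : ℝ) * ((κ v : ℝ) - σ v) := sum_nonneg fun v hv =>
    mul_nonneg (Nat.cast_nonneg _) (hτ v (mem_Ioc.1 hv).2)
  have hbig1 : ∑ v ∈ Ioc t S, (v : ℝ) * ((κ v : ℝ) - σ v) ≤ 2 / B * Λ := by
    have h1 : ∑ v ∈ Ioc t S, (v : ℝ) * ((κ v : ℝ) - σ v) ≤ S * ((∑ v ∈ Ioc t S, κ v : ℕ) : ℝ) := by
      push_cast
      rw [mul_sum]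
      refine sum_le_sum fun v hv => ?_
      have h2 : (v : ℝ) ≤ S := by exact_mod_cast (mem_Ioc.1 hv).2
      have h3 : (0 : ℝ) ≤ σ v := Nat.cast_nonneg _
      exact mul_le_mul h2 (by linarith) (hτ v (mem_Ioc.1 hv).2) (Nat.cast_nonneg _)
    have h2 : (S : ℝ) ≤ 2 / B * Real.log n := by
      rw [div_mul_eq_mul_div, le_div_iff₀ hB]
      linarith
    have h3 := hN.big
    set κb : ℝ := ((∑ v ∈ Ioc t S, κ v : ℕ) : ℝ) with hκb
    have h4 : 0 ≤ κb := Nat.cast_nonneg _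
    have h5 : Real.log n ≤ Real.log n ^ 3 := le_self_pow₀ hl (by norm_num)
    have h6 : 0 < 2 / B := by positivity
    calc _ ≤ S * κb := h1
      _ ≤ (2 / B * Real.log n) * κb := mul_le_mul_of_nonneg_right h2 h4
      _ ≤ (2 / B * Real.log n ^ 3) * κb := by gcongr
      _ = 2 / B * (κb * Real.log n ^ 3) := by ring
      _ ≤ 2 / B * Λ := mul_le_mul_of_nonneg_left h3 h6.le
  -- uncovered vertices
  have hle : (sz S κ : ℝ) ≤ n := by exact_mod_cast hN.le
  have hunc : (n : ℝ) - sz S κ ≤ Λ := by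
    refine le_trans ?_ hN.unc
    exact le_mul_of_one_le_right (by linarith) hl
  -- the truncation
  have ht1 : ∑ v ∈ range (t + 1), (v : ℝ) * (((κ v : ℝ) - σ v) - min ((κ v : ℝ) - σ v) (ko v)) ≤ t * R := by
    refine le_trans ?_ (mul_le_mul_of_nonneg_left hR (Nat.cast_nonneg t))
    rw [mul_sum]
    refine sum_le_sum fun u hu => ?_
    have hu' : u ≤ t := by have := mem_range.1 hu; omega
    have hu1' : (u : ℝ) ≤ t := by exact_mod_cast hu'
    have ha : 0 ≤ ((κ u : ℝ) - σ u) - min ((κ u : ℝ) - σ u) (ko u) := sub_nonneg.2 (min_le_left _ _)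
    have hb : ((κ u : ℝ) - σ u) - min ((κ u : ℝ) - σ u) (ko u) ≤ |(κ u : ℝ) - ko u| := by
      rcases le_total ((κ u : ℝ) - σ u) (ko u) with h | h
      · rw [min_eq_left h, sub_self]
        exact abs_nonneg _
      · rw [min_eq_right h]
        have := le_abs_self ((κ u : ℝ) - ko u)
        have h3 : (0 : ℝ) ≤ σ u := Nat.cast_nonneg _
        linarith
    exact mul_le_mul hu1' hb ha (Nat.cast_nonneg _)
  have ht0 : 0 ≤ ∑ v ∈ range (t + 1), (v : ℝ) * (((κ v : ℝ) - σ v) - min ((κ v : ℝ) - σ v) (ko v)) :=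
    sum_nonneg fun u _ => mul_nonneg (Nat.cast_nonneg _) (sub_nonneg.2 (min_le_left _ _))
  have hom : |∑ v ∈ range (t + 1), min ((κ v : ℝ) - σ v) (ko v) * (n / ks t ko - v)| ≤ 2 * C0 * ks t ko := by
    refine (abs_sum_le_sum_abs _ _).trans (le_trans (sum_le_sum fun u hu => ?_) (rb_dev2 hP))
    have hu' : u ≤ t := by have := mem_range.1 hu; omega
    rw [abs_mul, abs_of_nonneg (le_min (hτ u (hu'.trans hP.lt.le)) (hP.pos u hu').le)]
    exact mul_le_mul_of_nonneg_right (min_le_right _ _) (abs_nonneg _)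
  have hszκ : (sz S κ : ℝ) = ∑ v ∈ range (t + 1), (v : ℝ) * κ v + ∑ v ∈ Ioc t S, (v : ℝ) * κ v := by
    rw [← hsplit]
    unfold sz
    push_cast
    rfl
  have hszσ : (sz S σ : ℝ) = ∑ v ∈ range (t + 1), (v : ℝ) * σ v + ∑ v ∈ Ioc t S, (v : ℝ) * σ v := by
    rw [← hsplit]
    unfold sz
    push_cast
    rfl
  have e : ((n : ℝ) - sz S σ) - n * ((∑ u ∈ range (t + 1), min ((κ u : ℝ) - σ u) (ko u)) / ks t ko) =
      ((n : ℝ) - sz S κ) +
      ∑ v ∈ range (t + 1), (v : ℝ) * (((κ v : ℝ) - σ v) - min ((κ v : ℝ) - σ v) (ko v)) -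
      ∑ v ∈ range (t + 1), min ((κ v : ℝ) - σ v) (ko v) * (n / ks t ko - v) +
      ∑ v ∈ Ioc t S, (v : ℝ) * ((κ v : ℝ) - σ v) := by
    have e1 : ∑ v ∈ Ioc t S, (v : ℝ) * ((κ v : ℝ) - σ v) =
        ∑ v ∈ Ioc t S, (v : ℝ) * κ v - ∑ v ∈ Ioc t S, (v : ℝ) * σ v := by
      rw [← sum_sub_distrib]
      exact sum_congr rfl fun _ _ => by ring
    have e2 : ∑ v ∈ range (t + 1), (v : ℝ) * (((κ v : ℝ) - σ v) - min ((κ v : ℝ) - σ v) (ko v)) -
        ∑ v ∈ range (t + 1), min ((κ v : ℝ) - σ v) (ko v) * (n / ks t ko - v) =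
        ∑ v ∈ range (t + 1), (v : ℝ) * κ v - ∑ v ∈ range (t + 1), (v : ℝ) * σ v -
          (∑ v ∈ range (t + 1), min ((κ v : ℝ) - σ v) (ko v)) * (n / ks t ko) := by
      rw [sum_mul, ← sum_sub_distrib, ← sum_sub_distrib, ← sum_sub_distrib]
      exact sum_congr rfl fun _ _ => by ring
    rw [hszκ, hszσ, e1]
    have e3 : n * ((∑ u ∈ range (t + 1), min ((κ u : ℝ) - σ u) (ko u)) / ks t ko) =
        (∑ v ∈ range (t + 1), min ((κ v : ℝ) - σ v) (ko v)) * (n / ks t ko) := by ring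
    rw [e3]
    linarith
  have h5 := abs_le.1 hom
  rw [e, abs_le]
  have hΛ : 0 ≤ Λ := le_trans (by linarith) hunc
  have h6 : 0 ≤ 2 / B * Λ := by positivity
  have h7 : 0 ≤ t * R := ht0.trans ht1
  constructor <;> linarith

end aux

theorem reg2 {p g : ℝ} (h0 : 0 < p) (h1 : p < 1) (hg : 0 < g) (C0 cT : ℝ) (hcT : 0 < cT)
    (hcT1 : cT ≤ 1) {y1 z1 δ : ℝ} (hy1 : 0 < y1) (hz1 : 0 < z1) (hδ : 0 < δ) :
    ∃ c : ℝ, 0 < c ∧ ∀ᶠ n : ℕ in atTop, ∀ (S t lam : ℕ) (G A : ℝ) (ko : ℕ → ℝ),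
      Par p g C0 cT n S t lam G A ko → ∀ Λ : ℝ, (n : ℝ) ^ g * Real.log n ≤ Λ →
      Λ ≤ (n : ℝ) ^ (1 - δ) →
      ∀ κ : ℕ → ℕ, Near n S t lam A ko Λ κ → ∀ σ : ℕ → ℕ, (∀ v ≤ S, σ v ≤ κ v) →
        y1 * n ≤ (sz S σ : ℝ) → z1 * n ≤ (n : ℝ) - sz S σ → c * n ≤ Hf p n S κ σ := by
  obtain ⟨C, hC, hlow⟩ := lower h0 h1 hg C0 cT
  set B : ℝ := -Real.log (1 - p) with hBdef
  have hB : 0 < B := by
    have := Real.log_neg (by linarith : 0 < 1 - p) (by linarith)
    linarith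
  set m0 : ℝ := z1 * y1 with hm0def
  have hm0 : 0 < m0 := by positivity
  set K : ℝ := 3 + 12 / B + C with hKdef
  have hK : 0 < K := by positivity
  -- uniform continuity
  have huc : UniformContinuousOn Real.negMulLog (Set.Icc 0 1) :=
    isCompact_Icc.uniformContinuousOn_of_continuous Real.continuous_negMulLog.continuousOn
  obtain ⟨η, hη, hηc⟩ := Metric.uniformContinuousOn_iff.1 huc (cT * m0 / 4) (by positivity)
  have hlogt : Tendsto (fun n : ℕ => Real.log n) atTop atTop :=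
    Real.tendsto_log_atTop.comp tendsto_natCast_atTop_atTop
  have hXt : ∀ᶠ n : ℕ in atTop, ‖Real.log (n : ℝ) ^ (3 : ℝ)‖ ≤ 1 / K * ‖(n : ℝ) ^ (δ / 2)‖ :=
    tendsto_natCast_atTop_atTop.eventually
      ((isLittleO_log_rpow_rpow_atTop 3 (half_pos hδ)).bound (by positivity : 0 < 1 / K))
  refine ⟨cT * m0 / 2, by positivity, ?_⟩
  filter_upwards [hlow, log_bin_le h0 h1 C0 cT (g := g), num_le h0 h1 C0 cT (g := g),
    hlogt.eventually_ge_atTop 2, hlogt.eventually_ge_atTop (56 / (cT * m0)),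
    hlogt.eventually_gt_atTop ((1 + 3 * |C0|) / η), hXt, eventually_gt_atTop 1] with
    n hlow hbin hnum hL1 hL2 hL3 hX hn
  intro S t lam G A ko hP Λ hΛ1 hΛ2 κ hN σ hσ hy hz
  have hn0 : (0 : ℝ) < n := by positivity
  have hn1 : (1 : ℝ) ≤ n := by exact_mod_cast hn.le
  set L : ℝ := Real.log n with hLdef
  have hL0 : 0 < L := by linarith
  set X : ℝ := (n : ℝ) ^ (1 - δ / 2) with hXdef
  have hX0 : 0 < X := by positivity
  have hKX : K * L ^ 3 * X ≤ n := by
    have e1 : Real.log (n : ℝ) ^ (3 : ℝ) = L ^ 3 := by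
      rw [← hLdef]
      exact_mod_cast Real.rpow_natCast L 3
    rw [e1, Real.norm_of_nonneg (by positivity), Real.norm_of_nonneg (by positivity)] at hX
    have e2 : (n : ℝ) ^ (δ / 2) * X = n := by
      rw [hXdef, ← Real.rpow_add hn0]
      have : δ / 2 + (1 - δ / 2) = 1 := by ring
      rw [this, Real.rpow_one]
    calc K * L ^ 3 * X ≤ K * (1 / K * (n : ℝ) ^ (δ / 2)) * X := by gcongr
      _ = (n : ℝ) ^ (δ / 2) * X := by field_simp
      _ = n := e2
  have hΛX : Λ ≤ X := hΛ2.trans (Real.rpow_le_rpow_of_exponent_le hn1 (by linarith))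
  have hΛn : Λ ≤ n := by
    have : X ≤ (n : ℝ) ^ (1 : ℝ) := Real.rpow_le_rpow_of_exponent_le hn1 (by linarith)
    rw [Real.rpow_one] at this
    exact hΛX.trans this
  have hΛnX : Λ * n ≤ X ^ 2 := by
    have e1 : X ^ 2 = (n : ℝ) ^ (1 - δ) * n := by
      rw [hXdef, ← Real.rpow_natCast, ← Real.rpow_mul hn0.le]
      have : (1 - δ / 2) * ((2 : ℕ) : ℝ) = (1 - δ) + 1 := by push_cast; ring
      rw [this, Real.rpow_add hn0, Real.rpow_one]
    rw [e1]
    exact mul_le_mul_of_nonneg_right hΛ2 hn0.le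
  have hk := rb_ks hP
  have hub := hP.ub
  have hksn : ks t ko ≤ 10 / 9 * (n / L) := by
    have : ks t ko * (9 / 10 * L) ≤ n := by linarith
    have := (le_div_iff₀ (by positivity : 0 < 9 / 10 * L)).2 this
    calc ks t ko ≤ n / (9 / 10 * L) := this
      _ = 10 / 9 * (n / L) := by field_simp
  have hnL0 : 0 < (n : ℝ) / L := by positivity
  have hksn' : ks t ko ≤ n := by
    have h2 : (n : ℝ) / L ≤ n / 2 := div_le_div_of_nonneg_left hn0.le (by norm_num) hL1
    linarith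
  have hR := rb_R hP hN (hnum S t lam G A ko hP Λ hΛn κ hN) hksn' hX0.le hΛnX
  have hnumκ := hnum S t lam G A ko hP Λ hΛn κ hN
  have hG0 : 0 ≤ G := by have := hP.G0; linarith
  have hom := rb_om hP hσ hG0 hR
  have hzz := rb_z hP hN hσ hR (by linarith) hB hP.SL
  have hlow' := hlow S t lam G A ko hP Λ hΛ1 κ hN σ hσ
  have hbin' := hbin S t lam G A ko hP Λ hΛn κ hN σ hσ
  -- sizes
  have hle : sz S σ ≤ n := by
    refine le_trans ?_ hN.le
    unfold sz
    refine sum_le_sum fun v hv => ?_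
    exact Nat.mul_le_mul_left _ (hσ v (by have := mem_range.1 hv; omega))
  have hτ : ∀ u ≤ t, 0 ≤ (κ u : ℝ) - σ u := fun u hu => by
    have h1 : σ u ≤ κ u := hσ u (hu.trans hP.lt.le)
    have h2 : (σ u : ℝ) ≤ κ u := by exact_mod_cast h1
    linarith
  set M : ℝ := ∑ u ∈ range (t + 1), ((κ u : ℝ) - σ u) with hMdef
  set Ω : ℝ := ∑ u ∈ range (t + 1), min ((κ u : ℝ) - σ u) (ko u) with hΩdef
  set Y : ℝ := (n : ℝ) - sz S σ with hYdef
  have hM0 : 0 ≤ M := sum_nonneg fun u hu => hτ u (by have := mem_range.1 hu; omega)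
  have hM1 : M ≤ 2 * ks t ko := by
    refine le_trans ?_ hnumκ
    have h2 : ∑ u ∈ range (t + 1), (κ u : ℝ) ≤ num S κ := by
      unfold num
      push_cast
      refine sum_le_sum_of_subset_of_nonneg (range_subset_range.2 (by have := hP.lt; omega)) fun _ _ _ => Nat.cast_nonneg _
    refine le_trans (sum_le_sum fun u _ => ?_) h2
    have : (0 : ℝ) ≤ σ u := Nat.cast_nonneg _
    linarith
  have hMlog : M * Real.log (ks t ko / M) ≤ ks t ko := by
    rcases hM0.eq_or_lt with h | h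
    · rw [← h, zero_mul]
      exact hk.le
    · have h2 := Real.log_le_sub_one_of_pos (div_pos hk h)
      calc M * Real.log (ks t ko / M) ≤ M * (ks t ko / M) :=
            mul_le_mul_of_nonneg_left (by linarith) hM0
        _ = ks t ko := by field_simp
  have hΩ0 : 0 ≤ Ω := sum_nonneg fun u hu => by
    have hu' : u ≤ t := by have := mem_range.1 hu; omega
    exact le_min (hτ u hu') (hP.pos u hu').le
  have hΩ1 : Ω ≤ ks t ko := by
    rw [hΩdef]
    unfold ks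
    exact sum_le_sum fun u _ => min_le_right _ _
  have hz0 : Y / n ∈ Set.Icc (0 : ℝ) 1 := by
    constructor
    · refine div_nonneg ?_ hn0.le
      have : (sz S σ : ℝ) ≤ n := by exact_mod_cast hle
      linarith
    · rw [div_le_one hn0]
      have : (0 : ℝ) ≤ sz S σ := Nat.cast_nonneg _
      linarith
  have hz1' : Ω / ks t ko ∈ Set.Icc (0 : ℝ) 1 := by
    constructor
    · exact div_nonneg hΩ0 hk.le
    · rw [div_le_one hk]
      exact hΩ1
  have htS : (t : ℝ) ≤ 2 / B * L := by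
    have h1 := hP.SL
    have h2 : (t : ℝ) ≤ S := by exact_mod_cast hP.lt.le
    rw [div_mul_eq_mul_div, le_div_iff₀ hB]
    have : (t : ℝ) * B ≤ S * B := mul_le_mul_of_nonneg_right h2 hB.le
    linarith
  have hLX : L ^ 2 * X * K ≤ n / L := by
    rw [le_div_iff₀ hL0]
    calc _ = K * L ^ 3 * X := by ring
      _ ≤ n := hKX
  have hL2' : 1 ≤ L ^ 2 := one_le_pow₀ (by linarith)
  have hB' : 0 < 1 / B := by positivity
  have hC0 := rb_C0 hP
  have hdist : |Y / n - Ω / ks t ko| ≤ (1 + 3 * C0) / L := by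
    have e1 : Y / n - Ω / ks t ko = (Y - n * (Ω / ks t ko)) / n := by field_simp
    rw [e1, abs_div, abs_of_pos hn0, div_le_iff₀ hn0]
    refine hzz.trans ?_
    have a1 : (1 + 2 / B) * Λ + t * (3 * X) ≤ n / L := by
      calc (1 + 2 / B) * Λ + t * (3 * X) ≤ (1 + 2 / B) * X + (2 / B * L) * (3 * X) := by gcongr
        _ ≤ (1 + 2 / B) * (L ^ 2 * X) + (2 / B * L ^ 2) * (3 * X) := by
            have b1 : X ≤ L ^ 2 * X := le_mul_of_one_le_left hX0.le hL2'
            have b2 : L ≤ L ^ 2 := le_self_pow₀ (by linarith) (by norm_num)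
            gcongr
        _ = L ^ 2 * X * (1 + 8 * (1 / B)) := by ring
        _ ≤ L ^ 2 * X * K := by
            refine mul_le_mul_of_nonneg_left ?_ (by positivity)
            rw [hKdef]
            have : 12 / B = 12 * (1 / B) := by ring
            rw [this]
            linarith
        _ ≤ n / L := hLX
    have a2 : 2 * C0 * ks t ko ≤ 3 * C0 * (n / L) := by
      calc 2 * C0 * ks t ko ≤ 2 * C0 * (10 / 9 * (n / L)) := by gcongr
        _ ≤ 3 * C0 * (n / L) := by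
            have h9 : 0 < C0 * (n / L) := mul_pos (by linarith) hnL0
            have h10 : 2 * C0 * (10 / 9 * (n / L)) = 20 / 9 * (C0 * (n / L)) := by ring
            rw [h10]
            linarith
    have e3 : (1 + 3 * C0) / L * n = n / L + 3 * C0 * (n / L) := by field_simp
    rw [e3]
    linarith
  have hdist' : |Ω / ks t ko - Y / n| < η := by
    rw [abs_sub_comm]
    refine hdist.trans_lt ?_
    rw [div_lt_iff₀ hL0]
    rw [div_lt_iff₀ hη] at hL3
    have : C0 ≤ |C0| := le_abs_self _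
    linarith
  have hgg := hηc _ hz1' _ hz0 (by rw [Real.dist_eq]; exact hdist')
  rw [Real.dist_eq] at hgg
  have hgg' := (abs_lt.1 hgg).2
  have hgz : m0 ≤ Real.negMulLog (Y / n) := by
    have c1 : z1 ≤ Y / n := by rw [le_div_iff₀ hn0]; exact hz
    have c2 : Y / n ≤ 1 - y1 := by
      rw [div_le_iff₀ hn0]
      linarith
    have c3 : 0 < Y / n := by linarith
    have c4 := Real.log_le_sub_one_of_pos c3
    rw [Real.negMulLog, hm0def]
    have c5 : y1 ≤ -Real.log (Y / n) := by linarith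
    calc z1 * y1 ≤ Y / n * (-Real.log (Y / n)) := mul_le_mul c1 c5 hy1.le c3.le
      _ = _ := by ring
  have hYlog : Y * Real.log (n / Y) = n * Real.negMulLog (Y / n) := by
    rw [Real.negMulLog, ← inv_div (Y : ℝ) n, Real.log_inv]
    field_simp
  -- error terms
  have hE1 : (1 + G) * (t * (3 * X)) + (C + 2) * Λ ≤ n / L := by
    have hG1 := hP.G1
    calc (1 + G) * (t * (3 * X)) + (C + 2) * Λ ≤ (2 * L) * ((2 / B * L) * (3 * X)) + (C + 2) * (L ^ 2 * X) := by
          have b1 : X ≤ L ^ 2 * X := le_mul_of_one_le_left hX0.le hL2'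
          have b3 : 1 + G ≤ 2 * L := by linarith
          have b4 : Λ ≤ L ^ 2 * X := hΛX.trans b1
          gcongr
      _ = L ^ 2 * X * (12 * (1 / B) + C + 2) := by ring
      _ ≤ L ^ 2 * X * K := by
          refine mul_le_mul_of_nonneg_left ?_ (by positivity)
          rw [hKdef]
          have : 12 / B = 12 * (1 / B) := by ring
          rw [this]
          linarith
      _ ≤ n / L := hLX
  have hE2 : 3 * (M * Real.log (ks t ko / M)) + 4 * M ≤ 13 * (n / L) := by linarith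
  have hL56 : 14 * (n / L) ≤ cT * m0 / 4 * n := by
    rw [div_le_iff₀ (by positivity)] at hL2
    have : 14 * ((n : ℝ) / L) = 14 * n / L := by ring
    rw [this, div_le_iff₀ hL0]
    have h9 := mul_le_mul_of_nonneg_right hL2 hn0.le
    linarith
  have hbin2 : Real.log (bin S κ σ : ℝ) ≤ M * Real.log (ks t ko / M) + 2 * M + Λ := by
    linarith
  have hfin : cT * m0 / 2 * n ≤ Hf p n S κ σ := by
    unfold Hf
    have d1 : (1 - cT) * n * Real.negMulLog (Ω / ks t ko) ≤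
        (1 - cT) * n * (Real.negMulLog (Y / n) + cT * m0 / 4) :=
      mul_le_mul_of_nonneg_left (by linarith) (mul_nonneg (by linarith) hn0.le)
    have d2 : (1 - cT) * n * (Real.negMulLog (Y / n) + cT * m0 / 4) =
        n * Real.negMulLog (Y / n) - n * (cT * Real.negMulLog (Y / n)) + (1 - cT) * (cT * m0 / 4 * n) := by
      ring
    have d3 : n * (cT * m0) ≤ n * (cT * Real.negMulLog (Y / n)) := by gcongr
    have d4 : (1 - cT) * (cT * m0 / 4 * n) ≤ cT * m0 / 4 * n := by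
      have : 0 ≤ cT * m0 / 4 * n := by positivity
      have h9 := mul_le_mul_of_nonneg_right (by linarith : 1 - cT ≤ 1) this
      rw [one_mul] at h9
      exact h9
    have d5 : 0 < cT * m0 * n := by positivity
    rw [hYlog] at hlow'
    linarith
  exact hfin

end Pool.Agent.CHP
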