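import Pool.Agent.CHP.Lob
import Pool.Agent.CHP.Bnb

/-!
# CHP / RgC: positivity, subprofiles covering almost all vertices

Notation: `ℒ = log n`, `ū = n/ks ≥ 0.9 ℒ` (`ub`), `y = n - sz S σ ≤ z1 n`, `M = ∑_{u≤t} (κ u - σ u)` (a natural number, `≤ 2 ks ≤ 3 n/ℒ`),
`C1 = (2 + log C0)/16 + 1` (may be replaced by `max C1 1`).
PROOF.  `lower`, `log_bin_le`, `dvb`:
`Hf ≥ y log (n/y) - ((1+G)/16) (2 Λ + M (2 + log C0 + log (ks/M))) - 3 M log (ks/M) - 4 M - (C + 2) Λ`
`  ≥ y log (n/y) - (1+G) M (log (ks/M)/15 + C1) - C' Λ ℒ` for large `n` if `log (ks/M) ≥ 0`; `M ≤ 2 ks` only gives `log (ks/M) ≥ - log 2`, and then the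
terms with `log (ks/M)` are `≤ C M`-small changes: use `|..|`: simply replace `log (ks/M)` by `ℓ' = log (ks/M) + 1 ≥ 0` everywhere (it is larger) and
increase `C1`.  (`G ≥ ℒ/2 → ∞`, so `3 ≤ (1+G)(1/15 - 1/16)` for large `n`.)
* `y ≥ ∑_{u≤t} u (κ u - σ u) = ū M - ∑ τ u (ū - u) ≥ ū M - (1/16)(2 Λ + M (2 + log C0 + log (ks/M)))` (`dvb`; `sz S κ ≤ n`), and if `M ≥ 1`
  `log (ks/M) ≤ ℒ`, `(2 + log C0 + ℒ)/16 ≤ ū/8` for large `n`, so `y ≥ (7/8) ū M - Λ/8`, `M ≤ (8/7)(y + Λ/8)/ū`.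
* If `y ≤ Λ`: `M ≤ (9/7) Λ/ū ≤ 2 Λ/ℒ`, so `(1+G) M (ℓ'/15 + C1) ≤ 2 ℒ (2 Λ/ℒ)(ℒ + C) ≤ C'' Λ ℒ`, and `y log (n/y) ≤ Λ ℒ` (if `y ≥ 1`; `y` is an integer), so the
  claim holds with `C` large since `(2/5) y log (n/y) ≤ Λ ℒ`.
* If `y > Λ`: `M ≤ (9/7) y/ū = (9/7) z ks`, `z = y/n ≤ z1`.  `x ↦ x (log (ks/x) + 1)` is increasing on `(0, ks]`, so
  `M ℓ' ≤ (9/7) z ks (log (7/(9 z)) + 1) ≤ (9/7) z ks (log (1/z) + 1)`, and `(1+G) ks ≤ 1.01 n` (`Gu`), so
  `(1+G) M (ℓ'/15 + C1) ≤ 1.3 n z (log (1/z)/15 + 1/15 + C1) ≤ n z (0.1 log (1/z) + 2 C1 + 1) ≤ 0.4 n z log (1/z)` if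
  `0.3 log (1/z1) ≥ 2 C1 + 1`.  So `Hf ≥ 0.6 y log (n/y) - C' Λ ℒ`.
`z1 = min (1/3) (exp (-(10 (2 C1 + 1)/3)))` depends only on `C0`.
-/

set_option autoImplicit false

namespace Pool.Agent.CHP

open Finset Filter

section aux

variable {p g C0 cT : ℝ} {n S t lam : ℕ} {G A : ℝ} {ko : ℕ → ℝ}

private theorem rc_ks (hP : Par p g C0 cT n S t lam G A ko) : 0 < ks t ko := by
  unfold ks
  refine Finset.sum_pos (fun u hu => hP.pos u ?_) ⟨0, by simp⟩
  have := mem_range.1 hu
  omega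

private theorem rc_mono {k M W : ℝ} (hM : 0 < M) (hW : M ≤ W) (hk : W ≤ k) :
    M * (Real.log (k / M) + 1) ≤ W * (Real.log (k / W) + 1) := by
  have hW0 : 0 < W := hM.trans_le hW
  have hk0 : 0 < k := hW0.trans_le hk
  have e : Real.log (k / M) = Real.log (k / W) + Real.log (W / M) := by
    rw [← Real.log_mul (by positivity) (by positivity)]
    congr 1
    field_simp
  have h1 := Real.log_le_sub_one_of_pos (div_pos hW0 hM)
  have h2 : M * Real.log (W / M) ≤ W - M := by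
    calc M * Real.log (W / M) ≤ M * (W / M - 1) := mul_le_mul_of_nonneg_left h1 hM.le
      _ = W - M := by field_simp
  have h3 : 0 ≤ Real.log (k / W) := Real.log_nonneg ((one_le_div hW0).2 hk)
  have h4 : M * Real.log (k / W) ≤ W * Real.log (k / W) := mul_le_mul_of_nonneg_right hW h3
  rw [e]
  linarith

private theorem rc_y (hP : Par p g C0 cT n S t lam G A ko) {Λ : ℝ} {κ σ : ℕ → ℕ}
    (hN : Near n S t lam A ko Λ κ) (hσ : ∀ v ≤ S, σ v ≤ κ v) :
    n / ks t ko * ∑ u ∈ range (t + 1), ((κ u : ℝ) - σ u) -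
      ∑ u ∈ range (t + 1), ((κ u : ℝ) - σ u) * (n / ks t ko - u) ≤ (n : ℝ) - sz S σ := by
  have hle : (sz S κ : ℝ) ≤ n := by exact_mod_cast hN.le
  have hτ : ∀ u ≤ S, 0 ≤ (κ u : ℝ) - σ u := fun u hu => by
    have h1 : σ u ≤ κ u := hσ u hu
    have h2 : (σ u : ℝ) ≤ κ u := by exact_mod_cast h1
    linarith
  have e1 : n / ks t ko * ∑ u ∈ range (t + 1), ((κ u : ℝ) - σ u) -
      ∑ u ∈ range (t + 1), ((κ u : ℝ) - σ u) * (n / ks t ko - u) =
      ∑ u ∈ range (t + 1), ((κ u : ℝ) - σ u) * u := by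
    rw [mul_sum, ← sum_sub_distrib]
    exact sum_congr rfl fun u _ => by ring
  have e2 : (sz S κ : ℝ) - sz S σ = ∑ u ∈ range (S + 1), ((κ u : ℝ) - σ u) * u := by
    unfold sz
    push_cast
    rw [← sum_sub_distrib]
    exact sum_congr rfl fun u _ => by ring
  have h3 : ∑ u ∈ range (t + 1), ((κ u : ℝ) - σ u) * u ≤
      ∑ u ∈ range (S + 1), ((κ u : ℝ) - σ u) * u := by
    refine sum_le_sum_of_subset_of_nonneg (range_subset_range.2 (by have := hP.lt; omega))
      fun u hu _ => mul_nonneg (hτ u (by have := mem_range.1 hu; omega)) (Nat.cast_nonneg _)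
  rw [e1]
  linarith

end aux

theorem reg3 {p g : ℝ} (h0 : 0 < p) (h1 : p < 1) (hg : 0 < g) (C0 cT : ℝ) :
    ∃ z1 : ℝ, 0 < z1 ∧ z1 ≤ 1 / 3 ∧
    ∃ C : ℝ, 0 < C ∧ ∀ᶠ n : ℕ in atTop, ∀ (S t lam : ℕ) (G A : ℝ) (ko : ℕ → ℝ),
      Par p g C0 cT n S t lam G A ko → ∀ Λ : ℝ, (n : ℝ) ^ g * Real.log n ≤ Λ → Λ ≤ n →
      ∀ κ : ℕ → ℕ, Near n S t lam A ko Λ κ → ∀ σ : ℕ → ℕ, (∀ v ≤ S, σ v ≤ κ v) →
        (n : ℝ) - sz S σ ≤ z1 * n →
        2 / 5 * ((n : ℝ) - sz S σ) * Real.log (n / ((n : ℝ) - sz S σ)) - C * Λ * Real.log n ≤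
          Hf p n S κ σ := by
  obtain ⟨C, hC, hlow⟩ := lower h0 h1 hg C0 cT
  set C1 : ℝ := (1 + |Real.log C0|) / 16 + 1 with hC1def
  have hC1 : 1 ≤ C1 := by
    have := abs_nonneg (Real.log C0)
    linarith
  have hlogt : Tendsto (fun n : ℕ => Real.log n) atTop atTop :=
    Real.tendsto_log_atTop.comp tendsto_natCast_atTop_atTop
  refine ⟨min (1 / 3) (Real.exp (-(10 * (2 * C1 + 1) / 3))), lt_min (by norm_num) (Real.exp_pos _),
    min_le_left _ _, C + 3 + (1 + 4 * C1), by positivity, ?_⟩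
  filter_upwards [hlow, log_bin_le h0 h1 C0 cT (g := g), num_le h0 h1 C0 cT (g := g),
    hlogt.eventually_ge_atTop 1440, hlogt.eventually_ge_atTop (2 * (2 + |Real.log C0|)),
    eventually_gt_atTop 1] with n hlow hbin hnum hL1 hL2 hn
  intro S t lam G A ko hP Λ hΛ1 hΛ2 κ hN σ hσ hy
  have hn0 : (0 : ℝ) < n := by positivity
  have hn1 : (1 : ℝ) ≤ n := by exact_mod_cast hn.le
  set L : ℝ := Real.log n with hLdef
  have hL0 : 0 < L := by linarith
  have hΛ0 : 0 ≤ Λ := le_trans (by positivity) hΛ1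
  have hk := rc_ks hP
  have hnL0 : 0 < (n : ℝ) / L := by positivity
  have hub := hP.ub
  have hksn : ks t ko ≤ 10 / 9 * (n / L) := by
    have : ks t ko * (9 / 10 * L) ≤ n := by linarith
    have := (le_div_iff₀ (by positivity : 0 < 9 / 10 * L)).2 this
    calc ks t ko ≤ n / (9 / 10 * L) := this
      _ = 10 / 9 * (n / L) := by field_simp
  have hksn' : ks t ko ≤ n := by
    have h2 : (n : ℝ) / L ≤ n / 2 := div_le_div_of_nonneg_left hn0.le (by norm_num) (by linarith)
    linarith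
  have hnumκ := hnum S t lam G A ko hP Λ hΛ2 κ hN
  have hlow' := hlow S t lam G A ko hP Λ hΛ1 κ hN σ hσ
  have hbin' := hbin S t lam G A ko hP Λ hΛ2 κ hN σ hσ
  have hdvb := dvb hP hN σ hσ
  have hyy := rc_y hP hN hσ
  have hle : sz S σ ≤ n := by
    refine le_trans ?_ hN.le
    unfold sz
    refine sum_le_sum fun v hv => ?_
    exact Nat.mul_le_mul_left _ (hσ v (by have := mem_range.1 hv; omega))
  have hτ : ∀ u ≤ t, 0 ≤ (κ u : ℝ) - σ u := fun u hu => by
    have h1 : σ u ≤ κ u := hσ u (hu.trans hP.lt.le)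
    have h2 : (σ u : ℝ) ≤ κ u := by exact_mod_cast h1
    linarith
  have hMnat : ∑ u ∈ range (t + 1), ((κ u : ℝ) - σ u) = ((∑ u ∈ range (t + 1), (κ u - σ u) : ℕ) : ℝ) := by
    push_cast
    refine sum_congr rfl fun u hu => ?_
    rw [Nat.cast_sub (hσ u (by have := mem_range.1 hu; have := hP.lt; omega))]
  set M : ℝ := ∑ u ∈ range (t + 1), ((κ u : ℝ) - σ u) with hMdef
  set D : ℝ := ∑ u ∈ range (t + 1), ((κ u : ℝ) - σ u) * (n / ks t ko - u) with hDdef
  set Y : ℝ := (n : ℝ) - sz S σ with hYdef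
  set ub : ℝ := n / ks t ko with hubdef
  have hub9 : 9 / 10 * L ≤ ub := by
    rw [hubdef, le_div_iff₀ hk]
    exact hub
  have hub0 : 0 < ub := by linarith
  have hY0 : 0 ≤ Y := by
    have : (sz S σ : ℝ) ≤ n := by exact_mod_cast hle
    linarith
  have hM0 : 0 ≤ M := sum_nonneg fun u hu => hτ u (by have := mem_range.1 hu; omega)
  have hM1 : M ≤ 2 * ks t ko := by
    refine le_trans ?_ hnumκ
    have h2 : ∑ u ∈ range (t + 1), (κ u : ℝ) ≤ num S κ := by
      unfold num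
      push_cast
      refine sum_le_sum_of_subset_of_nonneg (range_subset_range.2 (by have := hP.lt; omega)) fun _ _ _ => Nat.cast_nonneg _
    refine le_trans (sum_le_sum fun u _ => ?_) h2
    have : (0 : ℝ) ≤ σ u := Nat.cast_nonneg _
    linarith
  have hMc : M = 0 ∨ 1 ≤ M := by
    rw [hMnat]
    rcases Nat.eq_zero_or_pos (∑ u ∈ range (t + 1), (κ u - σ u)) with h | h
    · left
      rw [h, Nat.cast_zero]
    · right
      exact_mod_cast h
  -- bounds for M * log (ks / M)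
  have hG0 : 720 ≤ G := by have := hP.G0; linarith
  have hG1 := hP.G1
  have hl1 : M * Real.log (ks t ko / M) ≤ M * L := by
    rcases hMc with h | h
    · rw [h, zero_mul, zero_mul]
    · refine mul_le_mul_of_nonneg_left ?_ hM0
      refine Real.log_le_log (by positivity) ?_
      exact (div_le_self hk.le h).trans hksn'
  have hl2 : 0 ≤ M * (Real.log (ks t ko / M) + 1) := by
    rcases hMc with h | h
    · rw [h, zero_mul]
    · refine mul_nonneg hM0 ?_
      have h5 : 1 / 2 ≤ ks t ko / M := by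
        rw [le_div_iff₀ (by linarith)]
        linarith
      have h6 := Real.log_le_log (by norm_num) h5
      have h7 : Real.log (1 / 2) = -Real.log 2 := by rw [one_div, Real.log_inv]
      have h8 := Real.log_two_lt_d9
      linarith
  have hlC : Real.log C0 ≤ |Real.log C0| := le_abs_self _
  -- first lower bound for Hf
  have hbin2 : Real.log (bin S κ σ : ℝ) ≤ M * Real.log (ks t ko / M) + 2 * M + Λ := by
    linarith
  have hYlog0 : 0 ≤ Y * Real.log (n / Y) := by
    rcases hY0.eq_or_lt with h | h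
    · rw [← h, zero_mul]
    · refine mul_nonneg hY0 (Real.log_nonneg ?_)
      rw [one_le_div h]
      have : (0 : ℝ) ≤ sz S σ := Nat.cast_nonneg _
      linarith
  have hHf : Y * Real.log (n / Y) -
      (1 + G) * (M * (Real.log (ks t ko / M) + 1) / 15 + C1 * M) - (C + 3) * Λ * L ≤ Hf p n S κ σ := by
    unfold Hf
    have a1 : (1 + G) * D ≤ (1 + G) * ((2 * Λ + M * (2 + Real.log C0 + Real.log (ks t ko / M))) / 16) :=
      mul_le_mul_of_nonneg_left (by linarith) (by linarith)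
    have a2 : M * Real.log C0 ≤ M * |Real.log C0| := mul_le_mul_of_nonneg_left hlC hM0
    have a3 : (1 + G) * ((2 * Λ + M * (2 + Real.log C0 + Real.log (ks t ko / M))) / 16) ≤
        (1 + G) * ((2 * Λ + (M * (Real.log (ks t ko / M) + 1) + M * (1 + |Real.log C0|))) / 16) :=
      mul_le_mul_of_nonneg_left (by linarith) (by linarith)
    have a4 : 3 * (M * (Real.log (ks t ko / M) + 1)) ≤
        (1 + G) / 240 * (M * (Real.log (ks t ko / M) + 1)) :=
      mul_le_mul_of_nonneg_right (by linarith) hl2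
    have a5 : M ≤ (1 + G) * M := le_mul_of_one_le_left hM0 (by linarith)
    have a6 : (1 + G) * Λ ≤ 2 * L * Λ := mul_le_mul_of_nonneg_right (by linarith) hΛ0
    have a7 : (C + 2) * Λ ≤ (C + 2) * Λ * L := le_mul_of_one_le_right (by positivity) (by linarith)
    have a8 : 0 ≤ Λ * L := by positivity
    have e1 : (1 + G) * (M * (Real.log (ks t ko / M) + 1) / 15 + C1 * M) =
        (1 + G) * (M * (Real.log (ks t ko / M) + 1)) / 16 + (1 + G) / 240 * (M * (Real.log (ks t ko / M) + 1)) +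
          (1 + G) * (M * (1 + |Real.log C0|)) / 16 + (1 + G) * M := by
      rw [hC1def]
      ring
    rw [e1]
    linarith
  -- bound for M
  have hMY : ub * M ≤ 8 / 7 * (Y + Λ / 8) := by
    have b1 : 16 * D ≤ 2 * Λ + M * (2 + |Real.log C0| + L) := by
      have a2 : M * Real.log C0 ≤ M * |Real.log C0| := mul_le_mul_of_nonneg_left hlC hM0
      linarith
    have b2 : M * (2 + |Real.log C0| + L) ≤ M * (2 * ub) :=
      mul_le_mul_of_nonneg_left (by linarith) hM0
    linarith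
  rcases le_total Y Λ with hYΛ | hYΛ
  · -- few uncovered vertices
    have c1 : ub * M ≤ 9 / 7 * Λ := by linarith
    have c2 : L * M ≤ 2 * Λ := by
      have := mul_le_mul_of_nonneg_right hub9 hM0
      linarith
    have c3 : M * (Real.log (ks t ko / M) + 1) ≤ M * (2 * L) := by linarith [mul_le_mul_of_nonneg_left (by linarith : 1 ≤ L) hM0]
    have c4 : (1 + G) * (M * (Real.log (ks t ko / M) + 1) / 15 + C1 * M) ≤
        (2 * L) * (M * (2 * L) / 15 + C1 * M) := by
      refine mul_le_mul (by linarith) (by linarith) ?_ (by positivity)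
      have : 0 ≤ C1 * M := by positivity
      linarith
    have c5 : (2 * L) * (M * (2 * L) / 15 + C1 * M) = (L * M) * (4 * L / 15 + 2 * C1) := by ring
    have c6 : (L * M) * (4 * L / 15 + 2 * C1) ≤ (2 * Λ) * (4 * L / 15 + 2 * C1) :=
      mul_le_mul_of_nonneg_right c2 (by positivity)
    have c7 : Λ * C1 ≤ Λ * C1 * L := le_mul_of_one_le_right (by positivity) (by linarith)
    have c8 : 0 ≤ Λ * L := by positivity
    linarith
  · -- many uncovered vertices
    have hΛpos : 0 < Λ := lt_of_lt_of_le (by positivity) hΛ1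
    have hYpos : 0 < Y := hΛpos.trans_le hYΛ
    have d1 : ub * M ≤ 9 / 7 * Y := by linarith
    set z : ℝ := Y / n with hzdef
    have hz0 : 0 < z := by positivity
    have hYz : Y = z * n := by rw [hzdef]; field_simp
    have hz1 : z ≤ 1 / 3 := by
      rw [hzdef, div_le_iff₀ hn0]
      exact hy.trans (mul_le_mul_of_nonneg_right (min_le_left _ _) hn0.le)
    have hz2 : z ≤ Real.exp (-(10 * (2 * C1 + 1) / 3)) := by
      rw [hzdef, div_le_iff₀ hn0]
      exact hy.trans (mul_le_mul_of_nonneg_right (min_le_right _ _) hn0.le)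
    have hlz : 10 * (2 * C1 + 1) / 3 ≤ Real.log (1 / z) := by
      have := Real.log_le_log hz0 hz2
      rw [Real.log_exp] at this
      rw [one_div, Real.log_inv]
      linarith
    have hlz0 : 0 ≤ Real.log (1 / z) := le_trans (by positivity) hlz
    have hnY : (n : ℝ) / Y = 1 / z := by rw [hzdef, one_div_div]
    have d2 : M ≤ 9 / 7 * z * ks t ko := by
      have : ub * M = n * M / ks t ko := by rw [hubdef]; ring
      rw [this, div_le_iff₀ hk, hYz] at d1
      have h9 : n * M ≤ n * (9 / 7 * z * ks t ko) := by linarith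
      exact le_of_mul_le_mul_left h9 hn0
    have d3 : M * (Real.log (ks t ko / M) + 1) ≤ 9 / 7 * z * ks t ko * (Real.log (1 / z) + 1) := by
      rcases hM0.eq_or_lt with h | h
      · rw [← h, zero_mul]
        positivity
      · have e1 := rc_mono (k := ks t ko) h d2 (by
          have : 9 / 7 * z * ks t ko ≤ 1 * ks t ko := mul_le_mul_of_nonneg_right (by linarith) hk.le
          linarith)
        refine e1.trans (mul_le_mul_of_nonneg_left ?_ (by positivity))
        have e2 : Real.log (ks t ko / (9 / 7 * z * ks t ko)) ≤ Real.log (1 / z) := by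
          refine Real.log_le_log (by positivity) ?_
          rw [div_le_div_iff₀ (by positivity) hz0]
          have : 0 < z * ks t ko := by positivity
          linarith
        linarith
    have d4 : (1 + G) * (M * (Real.log (ks t ko / M) + 1) / 15 + C1 * M) ≤
        (1 + G) * (9 / 7 * z * ks t ko * (Real.log (1 / z) + 1) / 15 + C1 * (9 / 7 * z * ks t ko)) := by
      refine mul_le_mul_of_nonneg_left ?_ (by linarith)
      have : C1 * M ≤ C1 * (9 / 7 * z * ks t ko) := mul_le_mul_of_nonneg_left d2 (by linarith)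
      linarith
    have hGu := hP.Gu
    have d5 : (1 + G) * (9 / 7 * z * ks t ko * (Real.log (1 / z) + 1) / 15 + C1 * (9 / 7 * z * ks t ko)) =
        ((1 + G) * ks t ko) * (9 / 7 * z * ((Real.log (1 / z) + 1) / 15 + C1)) := by ring
    have d6 : ((1 + G) * ks t ko) * (9 / 7 * z * ((Real.log (1 / z) + 1) / 15 + C1)) ≤
        (101 / 100 * n) * (9 / 7 * z * ((Real.log (1 / z) + 1) / 15 + C1)) :=
      mul_le_mul_of_nonneg_right hGu (by positivity)
    have d7 : (101 / 100 * n) * (9 / 7 * z * ((Real.log (1 / z) + 1) / 15 + C1)) =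
        (z * n) * (909 / 700 * ((Real.log (1 / z) + 1) / 15 + C1)) := by ring
    have d8 : (z * n) * (909 / 700 * ((Real.log (1 / z) + 1) / 15 + C1)) ≤
        (z * n) * (3 / 5 * Real.log (1 / z)) :=
      mul_le_mul_of_nonneg_left (by linarith) (by positivity)
    have d9 : 0 ≤ (1 + 4 * C1) * Λ * L := by positivity
    rw [hnY] at hHf ⊢
    rw [hYz] at hHf ⊢
    linarith

end Pool.Agent.CHP
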