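import Pool.Agent.CHP.RgA
import Pool.Agent.CHP.RgB
import Pool.Agent.CHP.RgC

/-!
# CHP / Pos: positivity

PROOF.  `B = -log (1-p) > 0`, `y1 = B/100`, `z1` from `reg3`, `c0` from `reg2` for `y1, z1, δ`, `C` the largest of the constants, `c = min (1/20) (min (1/5) c0)`;
`ℒ = log n ≥ 1`, `Λ ≥ 0`.  If `sz S σ ≤ y1 n` use `reg1` (`min (a) (e) ≤ a`).  Otherwise, if `n - sz S σ ≤ z1 n` use `reg3`: the main term is `≥ 0`
(`0 ≤ n - sz S σ`, as `sz S σ ≤ sz S κ ≤ n`), and if `sz S σ ≤ n - e/2`, i.e. `y := n - sz S σ ≥ e/2`, `log (n/y) ≥ log (1/z1) ≥ log 3 ≥ 1` (if `y > 0`) so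
`(2/5) y log (n/y) ≥ e/5`.  Otherwise `reg2`: `Hf ≥ c0 n ≥ c0 e ≥ 0`.
-/

set_option autoImplicit false

namespace Pool.Agent.CHP

open Finset Filter

theorem positivity_H {p g : ℝ} (h0 : 0 < p) (h1 : p < 1) (hg : 0 < g) (hg1 : g ≤ 1) (C0 cT : ℝ)
    (hcT : 0 < cT) (hcT1 : cT ≤ 1) {δ : ℝ} (hδ : 0 < δ) :
    ∃ C c : ℝ, 0 < C ∧ 0 < c ∧ ∀ᶠ n : ℕ in atTop, ∀ (S t lam : ℕ) (G A : ℝ) (ko : ℕ → ℝ),
      Par p g C0 cT n S t lam G A ko → ∀ Λ : ℝ, (n : ℝ) ^ g * Real.log n ≤ Λ →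
      Λ ≤ (n : ℝ) ^ (1 - δ) →
      ∀ κ : ℕ → ℕ, Near n S t lam A ko Λ κ → ∀ σ : ℕ → ℕ, (∀ v ≤ S, σ v ≤ κ v) →
        -(C * Λ * Real.log n) ≤ Hf p n S κ σ ∧
        ∀ e : ℝ, 0 ≤ e → e ≤ n → (n : ℝ) ^ g ≤ num S σ → (sz S σ : ℝ) ≤ n - e / 2 →
          c * min ((num S σ : ℝ) * Real.log n) e - C * Λ * Real.log n ≤ Hf p n S κ σ := by
  obtain ⟨C1, hC1, hr1⟩ := reg1 (p := p) (g := g) h0 h1 hg hg1 C0 cT
  obtain ⟨z1, hz1, hz1', C3, hC3, hr3⟩ := reg3 (p := p) (g := g) h0 h1 hg C0 cT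
  have hB : 0 < -Real.log (1 - p) := by
    have : Real.log (1 - p) < 0 := Real.log_neg (by linarith) (by linarith)
    linarith
  obtain ⟨c2, hc2, hr2⟩ := reg2 (p := p) (g := g) h0 h1 hg C0 cT hcT hcT1
    (y1 := -Real.log (1 - p) / 100) (z1 := z1) (δ := δ) (by positivity) hz1 hδ
  refine ⟨max C1 C3, min (1 / 20) (min (1 / 5) c2), lt_max_of_lt_left hC1, by positivity, ?_⟩
  filter_upwards [hr1, hr2, hr3, eventually_ge_atTop 3] with n h1n h2n h3n hn3
  intro S t lam G A ko hP Λ hΛ1 hΛ2 κ hκ σ hσ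
  have hn3' : (3 : ℝ) ≤ n := by exact_mod_cast hn3
  have hn0 : (0 : ℝ) < n := by linarith
  have hlog : 1 ≤ Real.log n := by
    rw [Real.le_log_iff_exp_le hn0]
    have := Real.exp_one_lt_d9
    linarith
  have hΛ0 : 0 ≤ Λ := le_trans (by positivity) hΛ1
  have hΛn : Λ ≤ n := by
    refine hΛ2.trans ?_
    have h5 : (n : ℝ) ^ (1 - δ) ≤ (n : ℝ) ^ (1 : ℝ) :=
      Real.rpow_le_rpow_of_exponent_le (by linarith) (by linarith)
    rwa [Real.rpow_one] at h5
  have hszN : sz S σ ≤ sz S κ := by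
    unfold sz
    refine Finset.sum_le_sum fun v hv => Nat.mul_le_mul_left v (hσ v ?_)
    have := Finset.mem_range.1 hv
    omega
  have hsz : (sz S σ : ℝ) ≤ n := by exact_mod_cast hszN.trans hκ.le
  have hC : 0 < max C1 C3 := lt_max_of_lt_left hC1
  have hΛL : Λ ≤ Λ * Real.log n := le_mul_of_one_le_right hΛ0 hlog
  have hCle1 : C1 * Λ ≤ max C1 C3 * Λ * Real.log n := by
    have a1 : C1 * Λ ≤ C1 * (Λ * Real.log n) := mul_le_mul_of_nonneg_left hΛL hC1.le
    have a2 : C1 * (Λ * Real.log n) ≤ max C1 C3 * (Λ * Real.log n) :=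
      mul_le_mul_of_nonneg_right (le_max_left _ _) (hΛ0.trans hΛL)
    linarith
  have hCle3 : C3 * Λ * Real.log n ≤ max C1 C3 * Λ * Real.log n := by
    have a2 : C3 * (Λ * Real.log n) ≤ max C1 C3 * (Λ * Real.log n) :=
      mul_le_mul_of_nonneg_right (le_max_right _ _) (hΛ0.trans hΛL)
    linarith
  have hCnn : 0 ≤ max C1 C3 * Λ * Real.log n := by positivity
  have hcpos : 0 < min (1 / 20) (min (1 / 5) c2) := by positivity
  have hca : min (1 / 20) (min (1 / 5) c2) ≤ 1 / 20 := min_le_left _ _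
  have hcb : min (1 / 20) (min (1 / 5) c2) ≤ 1 / 5 := (min_le_right _ _).trans (min_le_left _ _)
  have hcc : min (1 / 20) (min (1 / 5) c2) ≤ c2 := (min_le_right _ _).trans (min_le_right _ _)
  generalize min (1 / 20) (min (1 / 5) c2) = c at hcpos hca hcb hcc ⊢
  generalize max C1 C3 = C at hC hCle1 hCle3 hCnn ⊢
  by_cases hI : (sz S σ : ℝ) ≤ -Real.log (1 - p) / 100 * n
  · obtain ⟨hA, hBB⟩ := h1n S t lam G A ko hP Λ hΛ1 κ hκ σ hσ hI
    refine ⟨by linarith, fun e he0 hen hnum hsze => ?_⟩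
    have h6 := hBB hnum
    have h7 : c * min ((num S σ : ℝ) * Real.log n) e ≤ 1 / 20 * ((num S σ : ℝ) * Real.log n) := by
      have a1 : c * min ((num S σ : ℝ) * Real.log n) e ≤ c * ((num S σ : ℝ) * Real.log n) :=
        mul_le_mul_of_nonneg_left (min_le_left _ _) hcpos.le
      have a2 : c * ((num S σ : ℝ) * Real.log n) ≤ 1 / 20 * ((num S σ : ℝ) * Real.log n) :=
        mul_le_mul_of_nonneg_right hca (by positivity)
      linarith
    linarith
  push Not at hI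
  by_cases hII : (n : ℝ) - sz S σ ≤ z1 * n
  · have h6 := h3n S t lam G A ko hP Λ hΛ1 hΛn κ hκ σ hσ hII
    have hy0 : 0 ≤ (n : ℝ) - sz S σ := by linarith
    have hmain : (n : ℝ) - sz S σ ≤ ((n : ℝ) - sz S σ) * Real.log (n / ((n : ℝ) - sz S σ)) := by
      rcases hy0.eq_or_lt with h | h
      · rw [← h]; simp
      · have h7 : 1 ≤ Real.log (n / ((n : ℝ) - sz S σ)) := by
          rw [Real.le_log_iff_exp_le (by positivity)]
          have h8 : 3 ≤ (n : ℝ) / ((n : ℝ) - sz S σ) := by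
            rw [le_div_iff₀ h]
            have h9 : z1 * n ≤ 1 / 3 * n := mul_le_mul_of_nonneg_right hz1' hn0.le
            linarith
          have := Real.exp_one_lt_d9
          linarith
        exact le_mul_of_one_le_right h.le h7
    have h10 : 2 / 5 * ((n : ℝ) - sz S σ) - C * Λ * Real.log n ≤ Hf p n S κ σ := by
      have h11 : 2 / 5 * ((n : ℝ) - sz S σ) * Real.log (n / ((n : ℝ) - sz S σ)) =
        2 / 5 * (((n : ℝ) - sz S σ) * Real.log (n / ((n : ℝ) - sz S σ))) := by ring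
      rw [h11] at h6
      linarith
    refine ⟨by linarith, fun e he0 hen hnum hsze => ?_⟩
    have h7 : c * min ((num S σ : ℝ) * Real.log n) e ≤ 1 / 5 * e := by
      have a1 : c * min ((num S σ : ℝ) * Real.log n) e ≤ c * e :=
        mul_le_mul_of_nonneg_left (min_le_right _ _) hcpos.le
      have a2 : c * e ≤ 1 / 5 * e := mul_le_mul_of_nonneg_right hcb he0
      linarith
    linarith
  · push Not at hII
    have h6 := h2n S t lam G A ko hP Λ hΛ1 hΛ2 κ hκ σ hσ hI.le hII.le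
    have h8 : 0 ≤ c2 * n := by positivity
    refine ⟨by linarith, fun e he0 hen hnum hsze => ?_⟩
    have h7 : c * min ((num S σ : ℝ) * Real.log n) e ≤ c2 * n := by
      have a1 : c * min ((num S σ : ℝ) * Real.log n) e ≤ c * e :=
        mul_le_mul_of_nonneg_left (min_le_right _ _) hcpos.le
      have a2 : c * e ≤ c2 * e := mul_le_mul_of_nonneg_right hcc he0
      have a3 : c2 * e ≤ c2 * n := mul_le_mul_of_nonneg_left hen hc2.le
      linarith
    linarith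

end Pool.Agent.CHP
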