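import Pool.Agent.CHP.Defs

/-!
# CHP / Str: numerical facts about the parameters and near-optimal profiles
-/

set_option autoImplicit false

namespace Pool.Agent.CHP

open Finset

/-- The facts about the parameters used in the analysis (`S` = maximal size of a class, `t` = maximal
size in the Gibbs profile, `lam` = price of a class, `B = -log (1-p)`, `n / ks` = mean size). -/
structure Par (p g C0 cT : ℝ) (n S t lam : ℕ) (G A : ℝ) (ko : ℕ → ℝ) : Prop where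
  gib : Gib p n t G A ko
  pos : ∀ u ≤ t, 0 < ko u
  lt : t < S
  St : (S : ℝ) ≤ t + C0
  SL : -Real.log (1 - p) * S ≤ 2 * Real.log n
  lam0 : 0 < lam
  lamt : 2 * lam ≤ t
  ub : 9 / 10 * Real.log n * ks t ko ≤ n
  G0 : Real.log n / 2 ≤ G
  G1 : G ≤ Real.log n
  Gu : (1 + G) * ks t ko ≤ 101 / 100 * n
  A0 : (3 * Real.log n + 1) * lam ≤ A
  A1 : A ≤ 40 * Real.log n * lam
  At : ∀ u, t ≤ u → u ≤ S → |A - G * u| ≤ C0 * Real.log n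
  Nb0 : ∀ u, t < u → u ≤ S → (n : ℝ) ^ (-C0) ≤ NN p n u
  Nb1 : ∀ u, t < u → u ≤ S → NN p n u ≤ NN p n (t + 1)
  Nb2 : NN p n (t + 1) ≤ n
  Ns : ∀ u, lam < u → u ≤ t → NN p n t ≤ NN p n u
  Nt : (n : ℝ) ^ (52 / 25 : ℝ) ≤ NN p n t * (n : ℝ) ^ g
  mg : ∑ u ∈ range (t + 1), ko u * Real.exp (16 * ((t : ℝ) - u)) ≤ C0 * ks t ko
  tail : ∀ u, 20 * u < 19 * S → u ≤ t → ko u ≤ (n : ℝ) ^ (-3 : ℝ)
  tame : ∀ ω : ℕ → ℝ, (∀ i ≤ t, 0 ≤ ω i ∧ ω i * ks t ko ≤ ko (t - i)) →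
    (1 + G) * ∑ i ∈ range (t + 1), ω i * ((i : ℝ) - (t - n / ks t ko)) ≤
      (1 - cT) * (n / ks t ko) *
        ((∑ i ∈ range (t + 1), ω i) * Real.log (1 / ∑ i ∈ range (t + 1), ω i))

/-- Near-optimal profiles. -/
structure Near (n S t lam : ℕ) (A : ℝ) (ko : ℕ → ℝ) (Λ : ℝ) (κ : ℕ → ℕ) : Prop where
  zero : ∀ v ≤ lam, κ v = 0
  le : sz S κ ≤ n
  kl : KL t ko (fun u => (κ u : ℝ)) ≤ Λ
  unc : ((n : ℝ) - sz S κ) * Real.log n ≤ Λ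
  big : ((∑ v ∈ Ioc t S, κ v : ℕ) : ℝ) * Real.log n ^ 3 ≤ Λ
  lo : A * (ks t ko - num S κ) ≤ 4 * Λ
  up : A * (num S κ - ks t ko) ≤ 4 * Λ

end Pool.Agent.CHP
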