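import Pool.Agent.CHP.Uno
import Pool.Agent.CHP.DmC
import Pool.Agent.CHP.Str

/-!
# CHP / Prf: families of sizes with a given profile; small lemmas

PROOFS.  `exists_fam`: `ι = Σ v : Fin (S+1), Fin (κ v)`, `u q = (q.1 : ℕ)`; `cnt u v = κ v` for `v ≤ S` (`Fintype.card_congr` of the fibre with `Fin (κ v)`, or
`Finset.card_sigma`); `1 ≤ u q` as `κ 0 = 0`.
`bin_exp`: `Hf = log EZ σ - 2 log bin ≥ -X` gives `log bin ≤ X/2 + (1/2) log EZ σ` (if `bin = 0` trivial), exponentiate: `sqrt (EZ) = exp ((1/2) log EZ)`.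
`Near.mono`: clear.  `near_congr`: all the fields depend only on the values `κ v`, `v ≤ S` (`t < S`).
`prof_le`: the classes of a packing are disjoint and nonempty.  `sz_prof`, `num_prof`: group by the size.
`EZ_congr`, `bin_congr`: `Finset.prod_congr`.
-/

set_option autoImplicit false

namespace Pool.Agent.CHP

open Finset Pool.Agent.CHV

theorem exists_fam {S : ℕ} (κ : ℕ → ℕ) (h : κ 0 = 0) :
    ∃ (ι : Type) (_ : Fintype ι) (_ : DecidableEq ι) (u : ι → ℕ), (∀ i, 1 ≤ u i) ∧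
      (∀ i, u i ≤ S) ∧ ∀ v ≤ S, cnt u v = κ v := by
  classical
  refine ⟨(Σ v : Fin (S + 1), Fin (κ v)), inferInstance, inferInstance, fun q => (q.1 : ℕ),
    ?_, ?_, ?_⟩
  · rintro ⟨w, a⟩
    rcases Nat.eq_zero_or_pos (w : ℕ) with h0 | h0
    · exfalso
      have ha : (a : ℕ) < κ (w : ℕ) := a.2
      have hw : κ (w : ℕ) = 0 := by rw [h0, h]
      omega
    · exact h0
  · intro q
    exact Nat.lt_succ_iff.mp q.1.2
  · intro v hv
    let w : Fin (S + 1) := ⟨v, Nat.lt_succ_of_le hv⟩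
    have h1 : (univ.filter (fun q : (Σ v : Fin (S + 1), Fin (κ v)) => (q.1 : ℕ) = v)) =
        (univ : Finset (Fin (κ w))).image
          (fun a => (⟨w, a⟩ : (Σ v : Fin (S + 1), Fin (κ v)))) := by
      ext q
      rw [Finset.mem_filter, Finset.mem_image]
      constructor
      · rintro ⟨-, h⟩
        obtain ⟨w', a⟩ := q
        have h2 : w' = w := Fin.ext h
        subst h2
        exact ⟨a, Finset.mem_univ _, rfl⟩
      · rintro ⟨a, -, rfl⟩
        exact ⟨Finset.mem_univ _, rfl⟩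
    unfold cnt
    rw [h1, Finset.card_image_of_injective _ sigma_mk_injective, Finset.card_univ,
      Fintype.card_fin]

private theorem sz_congr' {S : ℕ} {κ σ : ℕ → ℕ} (h : ∀ v ≤ S, κ v = σ v) : sz S κ = sz S σ := by
  unfold sz
  refine Finset.sum_congr rfl fun v hv => ?_
  rw [h v (Nat.lt_succ_iff.mp (Finset.mem_range.mp hv))]

private theorem num_congr' {S : ℕ} {κ σ : ℕ → ℕ} (h : ∀ v ≤ S, κ v = σ v) :
    num S κ = num S σ := by
  unfold num
  refine Finset.sum_congr rfl fun v hv => ?_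
  rw [h v (Nat.lt_succ_iff.mp (Finset.mem_range.mp hv))]

theorem EZ_congr {p : ℝ} {n S : ℕ} {κ σ : ℕ → ℕ} (h : ∀ v ≤ S, κ v = σ v) :
    EZ p n S κ = EZ p n S σ := by
  unfold EZ
  rw [sz_congr' h]
  congr 1
  refine Finset.prod_congr rfl fun v hv => ?_
  rw [h v (Nat.lt_succ_iff.mp (Finset.mem_range.mp hv))]

theorem bin_congr {S : ℕ} {κ κ' σ : ℕ → ℕ} (h : ∀ v ≤ S, κ v = κ' v) :
    bin S κ σ = bin S κ' σ := by
  unfold bin
  refine Finset.prod_congr rfl fun v hv => ?_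
  rw [h v (Nat.lt_succ_iff.mp (Finset.mem_range.mp hv))]

theorem bin_exp {p : ℝ} {n S : ℕ} {κ σ : ℕ → ℕ} (hE : 0 < EZ p n S σ) {X : ℝ}
    (hX : -X ≤ Hf p n S κ σ) :
    (bin S κ σ : ℝ) ≤ Real.exp (X / 2) * Real.sqrt (EZ p n S σ) := by
  rcases Nat.eq_zero_or_pos (bin S κ σ) with h0 | h0
  · rw [h0, Nat.cast_zero]
    positivity
  · have h1 : (0 : ℝ) < (bin S κ σ : ℝ) := by exact_mod_cast h0
    unfold Hf at hX
    have h2 : Real.log (bin S κ σ : ℝ) ≤ X / 2 + Real.log (EZ p n S σ) * (1 / 2) := by linarith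
    rw [Real.sqrt_eq_rpow, Real.rpow_def_of_pos hE, ← Real.exp_add, ← Real.exp_log h1]
    exact Real.exp_le_exp.mpr h2

theorem Near.mono {n S t lam : ℕ} {A : ℝ} {ko : ℕ → ℝ} {Λ Λ' : ℝ} {κ : ℕ → ℕ}
    (h : Near n S t lam A ko Λ κ) (hΛ : Λ ≤ Λ') : Near n S t lam A ko Λ' κ where
  zero := h.zero
  le := h.le
  kl := h.kl.trans hΛ
  unc := h.unc.trans hΛ
  big := h.big.trans hΛ
  lo := h.lo.trans (by linarith)
  up := h.up.trans (by linarith)

theorem near_congr {n S t lam : ℕ} {A : ℝ} {ko : ℕ → ℝ} {Λ : ℝ} {κ κ' : ℕ → ℕ} (ht : t < S)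
    (hl : lam ≤ S) (h : Near n S t lam A ko Λ κ) (hκ : ∀ v ≤ S, κ v = κ' v) :
    Near n S t lam A ko Λ κ' := by
  have e1 : sz S κ' = sz S κ := (sz_congr' hκ).symm
  have e2 : num S κ' = num S κ := (num_congr' hκ).symm
  have e3 : KL t ko (fun u => (κ' u : ℝ)) = KL t ko (fun u => (κ u : ℝ)) := by
    unfold KL
    refine Finset.sum_congr rfl fun u hu => ?_
    have hu' : u ≤ S := by
      have := Nat.lt_succ_iff.mp (Finset.mem_range.mp hu)
      omega
    simp only [hκ u hu']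
  have e4 : ∑ v ∈ Ioc t S, κ' v = ∑ v ∈ Ioc t S, κ v :=
    Finset.sum_congr rfl fun v hv => (hκ v (Finset.mem_Ioc.mp hv).2).symm
  refine ⟨fun v hv => ?_, ?_, ?_, ?_, ?_, ?_, ?_⟩
  · rw [← hκ v (hv.trans hl)]
    exact h.zero v hv
  · rw [e1]
    exact h.le
  · rw [e3]
    exact h.kl
  · rw [e1]
    exact h.unc
  · rw [e4]
    exact h.big
  · rw [e2]
    exact h.lo
  · rw [e2]
    exact h.up

private theorem pack_sum_le {n S lam : ℕ} {x : Cf n} {P : Finset (Finset (Fin n))}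
    (hP : Pack S lam x P) : ∑ I ∈ P, I.card ≤ n := by
  classical
  have h1 : (P.biUnion id).card = ∑ I ∈ P, I.card := by
    rw [Finset.card_biUnion]
    · rfl
    · intro I hI J hJ hIJ
      exact hP.disj I hI J hJ hIJ
  rw [← h1]
  refine (Finset.card_le_univ _).trans (le_of_eq ?_)
  rw [Fintype.card_fin]

private theorem pack_card_le {n S lam : ℕ} {x : Cf n} {P : Finset (Finset (Fin n))}
    (hP : Pack S lam x P) : P.card ≤ n := by
  refine le_trans ?_ (pack_sum_le hP)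
  rw [Finset.card_eq_sum_ones]
  refine Finset.sum_le_sum fun I hI => ?_
  have := hP.gt I hI
  omega

theorem prof_le {n S lam : ℕ} {x : Cf n} {P : Finset (Finset (Fin n))} (hP : Pack S lam x P)
    (v : ℕ) : prof P v ≤ n := by
  unfold prof
  exact (Finset.card_le_card (Finset.filter_subset _ _)).trans (pack_card_le hP)

theorem sz_prof {n S lam : ℕ} {x : Cf n} {P : Finset (Finset (Fin n))} (hP : Pack S lam x P) :
    sz S (prof P) = ∑ I ∈ P, I.card := by
  unfold sz prof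
  rw [← Finset.sum_fiberwise_of_maps_to (s := P) (t := range (S + 1)) (g := fun I => I.card)
    (fun I hI => Finset.mem_range.mpr (Nat.lt_succ_iff.mpr (hP.le I hI))) (fun I => I.card)]
  refine Finset.sum_congr rfl (fun v _ => ?_)
  rw [Finset.sum_congr rfl (fun i hi => (Finset.mem_filter.mp hi).2), Finset.sum_const,
    smul_eq_mul, mul_comm]

theorem sz_prof_le {n S lam : ℕ} {x : Cf n} {P : Finset (Finset (Fin n))}
    (hP : Pack S lam x P) : sz S (prof P) ≤ n := by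
  rw [sz_prof hP]
  exact pack_sum_le hP

theorem num_prof {n S lam : ℕ} {x : Cf n} {P : Finset (Finset (Fin n))} (hP : Pack S lam x P) :
    num S (prof P) = P.card := by
  unfold num prof
  exact (Finset.card_eq_sum_card_fiberwise (s := P) (t := range (S + 1)) (f := fun I => I.card)
    (fun I hI => Finset.mem_coe.mpr
      (Finset.mem_range.mpr (Nat.lt_succ_iff.mpr (hP.le I hI))))).symm

theorem ff_opt {n S lam : ℕ} (x : Cf n) :
    ff S lam x = (lam : ℝ) * (opt S lam x).card +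
      ((n : ℝ) - ((∑ I ∈ opt S lam x, I.card : ℕ) : ℝ)) := by
  have hP := opt_pack S lam x
  unfold ff CHV.val
  have h1 : ((∑ I ∈ opt S lam x, (I.card - lam) : ℕ) : ℝ) =
      ((∑ I ∈ opt S lam x, I.card : ℕ) : ℝ) - (lam : ℝ) * (opt S lam x).card := by
    rw [Nat.cast_sum, Nat.cast_sum]
    have h2 : ∀ I ∈ opt S lam x, ((I.card - lam : ℕ) : ℝ) = (I.card : ℝ) - lam := fun I hI =>
      Nat.cast_sub (hP.gt I hI).le
    rw [Finset.sum_congr rfl h2, Finset.sum_sub_distrib, Finset.sum_const, nsmul_eq_mul, mul_comm]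
  rw [h1]
  ring

end Pool.Agent.CHP
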