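import Pool.Agent.CHP.Cr2
import Pool.Agent.CHP.Prf
import Pool.Agent.CHP.Pos
import Pool.Agent.CHP.Kha
import Pool.Agent.CHP.Exs
import Pool.Agent.CHP.NTc
import Pool.Agent.CHP.Azu
import Pool.Agent.CHV.PackL

/-!
# CHP / Fst: upper bound for the mean value of `ff`

Notation: `ℒ = log n`, `S = SS p K n`, `lam = lm p n`, `ks = ks t ko`.
PROOF.  `κ = kh t (n^(g-1)) ko`; `kh_near` (constant `C1`, may be enlarged to `C1 ≥ 1` by `Near.mono`): `Near .. Λ κ`, `Λ = C1 n^g ℒ^2`, `n^g ℒ ≤ Λ ≤ n^(1-δ)` for large `n`, with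
`δ = (1-g)/2 > 0`; `κ v = 0` for `20 v < 19 S`, `F̂ := lam num S κ + n - sz S κ ≤ lam ks + C1 n^g ℒ`.
`exists_fam` for `κ` (`κ 0 = 0` by `Near.zero`): `ι, u` with `cnt u v = κ v` for `v ≤ S`; `∑ u i = sz S (cnt u) = sz S κ ≤ n` (`sz_cnt`).
1. For `I ∈ OP univ u`: `∑ J ∈ OP univ u, (1/(1-p))^(∑∑ (I i ∩ J j).card.choose 2) ≤ |OP univ u| exp D` with `D = C2 n^g ℒ^3`: by `prod_fw` (with `A i = I i ∩ univ = I i`, `3^Nu ≥ 1`,
`1/(1-p) ≥ 1`) the left side is `≤ ∑ J (∏∏ fw 3 ..) ind (0 ≤ Mg ..)`, and `core_final` with `T = univ`, `x = 0`, `st = n`, `Y = Y2 = Y' = exp (C3 Λ ℒ/2)`: the three hypotheses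
follow from `positivity_H` (constant `C3`; first claim) for the profile `κ` (`Near`), `bin_exp`, `EZ_pos` (`sz S σ ≤ sz S κ ≤ n`) and `bin_congr`.  The number of `i` with
`20 u i < 19 S` is `0` (it is `∑` of `cnt u v = κ v = 0`).  `(n - n)/S = 0`.  So the bound is `exp (n^g ℒ^2) exp (C3 Λ ℒ) * 2 ≤ exp D`.
2. `second_moment`: `exp (-D) ≤ P(E)`, `E x = ∃ I ∈ OP univ u, ∀ i, Ind x (I i)`.  On `E`: `P = univ.image I` is a packing (`Pack S lam x P`: sizes `u i ≤ S`, and `lam < u i` since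
`κ v = 0` for `v ≤ lam`; disjoint), `I` injective, `val lam P = ∑ (u i - lam)` (`Finset.sum_image`), so `ff S lam x ≤ n - val lam P = lam card ι + n - ∑ u i = F̂` (`opt_max`;
`card ι = num S (cnt u) = num S κ`).  So `exp (-D) ≤ Ex ind (ff ≤ F̂)`.
3. If `Ex ff > F̂`, `s = Ex ff - F̂`, `tail_low` (`ff_vertex` of CHV/PackL): `exp (-D) ≤ exp (-s^2/(2n))`, so `s ≤ sqrt (2 n D) = sqrt (2 C2) n^((1+g)/2) ℒ^(3/2)`.
So `Ex ff ≤ lam ks + C1 n^g ℒ + sqrt (2 C2) n^((1+g)/2) ℒ^(3/2) ≤ lam ks + C n^((1+g)/2) ℒ^3`.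
-/

set_option autoImplicit false

namespace Pool.Agent.CHP

open Finset Filter Pool.Agent.CHV

private theorem sz_mono {S : ℕ} {σ κ : ℕ → ℕ} (h : ∀ v ≤ S, σ v ≤ κ v) : sz S σ ≤ sz S κ := by
  unfold sz
  refine Finset.sum_le_sum fun v hv => Nat.mul_le_mul_left _ (h v ?_)
  rw [Finset.mem_range] at hv
  omega

private theorem sz_congr' {S : ℕ} {σ κ : ℕ → ℕ} (h : ∀ v ≤ S, σ v = κ v) : sz S σ = sz S κ :=
  le_antisymm (sz_mono (fun v hv => (h v hv).le)) (sz_mono (fun v hv => (h v hv).ge))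

private theorem num_congr' {S : ℕ} {σ κ : ℕ → ℕ} (h : ∀ v ≤ S, σ v = κ v) : num S σ = num S κ := by
  unfold num
  refine Finset.sum_congr rfl fun v hv => h v ?_
  rw [Finset.mem_range] at hv
  omega

/-- A family of independent sets gives an upper bound for `ff`. -/
private theorem ff_fam {n S lam : ℕ} {ι : Type} [Fintype ι] [DecidableEq ι] (u : ι → ℕ)
    (hu1 : ∀ i, 1 ≤ u i) (huS : ∀ i, u i ≤ S) (hul : ∀ i, lam < u i) (x : Cf n)
    (I : ι → Finset (Fin n)) (hI : I ∈ OP (univ : Finset (Fin n)) u) (hx : ∀ i, Ind x (I i)) :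
    ff S lam x ≤ (lam : ℝ) * Fintype.card ι + ((n : ℝ) - ((∑ i, u i : ℕ) : ℝ)) := by
  rw [mem_OP] at hI
  have hinj : Function.Injective I := by
    intro i j hij
    by_contra hne
    have h1 := hI.2 i j hne
    rw [hij, Finset.disjoint_self_iff_empty] at h1
    have h2 := (hI.1 j).2
    rw [h1, Finset.card_empty] at h2
    have := hu1 j
    omega
  have hP : Pack S lam x (univ.image I) := by
    refine ⟨?_, ?_, ?_, ?_⟩
    · intro J hJ
      obtain ⟨i, _, rfl⟩ := Finset.mem_image.1 hJ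
      exact hx i
    · intro J hJ
      obtain ⟨i, _, rfl⟩ := Finset.mem_image.1 hJ
      rw [(hI.1 i).2]
      exact huS i
    · intro J hJ
      obtain ⟨i, _, rfl⟩ := Finset.mem_image.1 hJ
      rw [(hI.1 i).2]
      exact hul i
    · intro J hJ J' hJ' hne
      obtain ⟨i, _, rfl⟩ := Finset.mem_image.1 hJ
      obtain ⟨j, _, rfl⟩ := Finset.mem_image.1 hJ'
      exact hI.2 i j (fun h => hne (by rw [h]))
  have hmax := opt_max S lam x hP
  have hval : (val lam (univ.image I) : ℝ) = ((∑ i, u i : ℕ) : ℝ) - lam * Fintype.card ι := by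
    unfold CHV.val
    rw [Finset.sum_image (fun i _ j _ h => hinj h)]
    push_cast
    have e1 : ∀ i ∈ (univ : Finset ι), (((I i).card - lam : ℕ) : ℝ) = (u i : ℝ) - lam := by
      intro i _
      rw [(hI.1 i).2, Nat.cast_sub (hul i).le]
    rw [Finset.sum_congr rfl e1, Finset.sum_sub_distrib, Finset.sum_const, Finset.card_univ, nsmul_eq_mul]
    ring
  unfold ff
  have h2 : (val lam (univ.image I) : ℝ) ≤ (val lam (opt S lam x) : ℝ) := by exact_mod_cast hmax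
  rw [hval] at h2
  linarith

/-- The sum over the second packing for a profile satisfying the positivity bound. -/
private theorem pair_sum {p : ℝ} (h1p : 0 < 1 - p) {n : ℕ} (r0 : ℕ)
    {ι : Type} [Fintype ι] [DecidableEq ι] (u : ι → ℕ) (I : ι → Finset (Fin n)) (D : ℝ)
    (h : ∑ J ∈ OP (univ : Finset (Fin n)) u,
        (∏ i, ∏ j, fw 3 (1 / (1 - p)) r0 (I i ∩ univ ∩ J j).card) *
          ind (0 ≤ Mg r0 (fun i => I i ∩ univ) J) ≤ D) :
    ∑ J ∈ OP (univ : Finset (Fin n)) u,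
      (1 / (1 - p)) ^ (∑ i, ∑ j, (I i ∩ J j).card.choose 2) ≤ D := by
  refine le_trans (Finset.sum_le_sum fun J _ => ?_) h
  rw [ind_true (Nat.zero_le _), mul_one]
  have e := prod_fw 3 (1 / (1 - p)) r0 (fun i => I i ∩ univ) J
  rw [e]
  simp only [Finset.inter_univ]
  have h3 : (1 : ℝ) ≤ 3 ^ (Nu r0 (fun i => I i) J) := one_le_pow₀ (by norm_num)
  exact le_mul_of_one_le_left (by positivity) h3

theorem ef_upper {p : ℝ} (h0 : 0 < p) (h1 : p < 1) (K : ℕ) {g : ℝ} (hg : 3 / 5 ≤ g)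
    (hg1 : g < 1) (C0 cT : ℝ) (hcT : 0 < cT) (hcT1 : cT ≤ 1) :
    ∃ C : ℝ, 0 < C ∧ ∀ᶠ n : ℕ in atTop, ∀ (t : ℕ) (G A : ℝ) (ko : ℕ → ℝ),
      Par p g C0 cT n (SS p K n) t (lm p n) G A ko →
      Ex p (fun x : Cf n => ff (SS p K n) (lm p n) x) ≤
        (lm p n : ℝ) * ks t ko + C * (n : ℝ) ^ ((1 + g) / 2) * Real.log n ^ 3 := by
  have hg0 : 0 < g := by linarith
  have hBl := ell_pos h0 h1
  have h1p : 0 < 1 - p := by linarith
  have hb1 : (1 : ℝ) ≤ 1 / (1 - p) := by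
    rw [le_div_iff₀ h1p]
    linarith
  obtain ⟨C1', hC1', hkh⟩ := kh_near h0 h1 hg0 hg1 C0 cT
  have hδ : 0 < (1 - g) / 2 := by linarith
  obtain ⟨C3, c3, hC3, hc3, hpos⟩ := positivity_H h0 h1 hg0 hg1.le C0 cT hcT hcT1 hδ
  obtain ⟨C1, hC1, hC11, hC1le⟩ : ∃ C1 : ℝ, 0 < C1 ∧ 1 ≤ C1 ∧ C1' ≤ C1 :=
    ⟨max C1' 1, by positivity, le_max_right _ _, le_max_left _ _⟩
  have hC2 : 0 < C3 * C1 + 2 := by positivity
  refine ⟨C1 + 2 * (C3 * C1 + 2) + 1, by positivity, ?_⟩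
  have hlog : Tendsto (fun n : ℕ => Real.log n) atTop atTop :=
    Real.tendsto_log_atTop.comp tendsto_natCast_atTop_atTop
  filter_upwards [hkh, hpos, core_final h0 h1 K hg hg1, eventually_ge_atTop 3,
    hlog.eventually_ge_atTop 1, LL_pow_le h0 h1 2 (C1 * (-Real.log (1 - p)) ^ 2) hδ] with
    n hkh hpos hcf hn3 hl1 hΛup
  intro t G A ko hP
  have hn0 : 0 < n := by omega
  have hn0' : (0 : ℝ) < n := by exact_mod_cast hn0
  have hn1 : (1 : ℝ) ≤ n := by exact_mod_cast hn0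
  obtain ⟨hN0, hsm, hF⟩ := hkh (SS p K n) t (lm p n) G A ko hP
  have hng : (1 : ℝ) ≤ (n : ℝ) ^ g := Real.one_le_rpow hn1 hg0.le
  have hng0 : (0 : ℝ) < (n : ℝ) ^ g := by linarith
  -- the scale
  have hN := hN0.mono (Λ' := C1 * (n : ℝ) ^ g * Real.log n ^ 2) (by gcongr)
  have hΛ1 : (n : ℝ) ^ g * Real.log n ≤ C1 * (n : ℝ) ^ g * Real.log n ^ 2 := by
    have e1 : Real.log n ≤ C1 * Real.log n ^ 2 := by nlinarith [mul_le_mul hC11 (show Real.log n ≤ Real.log n ^ 2 by nlinarith) (by linarith) hC1.le]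
    nlinarith [mul_le_mul_of_nonneg_left e1 hng0.le]
  have hΛ2 : C1 * (n : ℝ) ^ g * Real.log n ^ 2 ≤ (n : ℝ) ^ (1 - (1 - g) / 2) := by
    have hLe : Real.log n = (-Real.log (1 - p)) * LL p n := by
      unfold LL
      rw [mul_div_cancel₀ _ (ne_of_gt hBl)]
    have e1 : (n : ℝ) ^ (1 - (1 - g) / 2) = (n : ℝ) ^ g * (n : ℝ) ^ ((1 - g) / 2) := by
      rw [← Real.rpow_add hn0']
      congr 1
      ring
    rw [e1, hLe]
    calc C1 * (n : ℝ) ^ g * ((-Real.log (1 - p)) * LL p n) ^ 2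
        = (n : ℝ) ^ g * (C1 * (-Real.log (1 - p)) ^ 2 * LL p n ^ 2) := by ring
      _ ≤ (n : ℝ) ^ g * (n : ℝ) ^ ((1 - g) / 2) := mul_le_mul_of_nonneg_left hΛup hng0.le
  generalize kh t ((n : ℝ) ^ (g - 1)) ko = κ at hN0 hsm hF hN
  have hκ0 : κ 0 = 0 := hN.zero 0 (Nat.zero_le _)
  obtain ⟨ι, _, _, u, hu1, huS, hcnt⟩ := exists_fam (S := SS p K n) κ hκ0
  have hszu : sz (SS p K n) (cnt u) = sz (SS p K n) κ := sz_congr' hcnt
  have hnumu : num (SS p K n) (cnt u) = num (SS p K n) κ := num_congr' hcnt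
  have hsu : ∑ i, u i = sz (SS p K n) κ := by rw [← sz_cnt u huS, hszu]
  have hci : Fintype.card ι = num (SS p K n) κ := by rw [← num_cnt u huS, hnumu]
  have hun : ∑ i, u i ≤ n := by rw [hsu]; exact hN.le
  have hul : ∀ i, lm p n < u i := by
    intro i
    by_contra hcon
    have e1 := hN.zero (u i) (by omega)
    rw [← hcnt (u i) (huS i)] at e1
    unfold cnt at e1
    rw [Finset.card_eq_zero] at e1
    have : i ∈ univ.filter (fun j => u j = u i) := by simp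
    rw [e1] at this
    exact absurd this (Finset.notMem_empty _)
  have hnb : (univ.filter (fun i => 20 * u i < 19 * SS p K n)).card = 0 := by
    rw [Finset.card_eq_zero, Finset.filter_eq_empty_iff]
    intro i _ hi
    have e1 := hsm (u i) hi
    rw [← hcnt (u i) (huS i)] at e1
    unfold cnt at e1
    rw [Finset.card_eq_zero] at e1
    have : i ∈ univ.filter (fun j => u j = u i) := by simp
    rw [e1] at this
    exact absurd this (Finset.notMem_empty _)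
  -- the bound for the number of choices
  have hbin : ∀ σ : ℕ → ℕ, (∀ v ≤ SS p K n, σ v ≤ cnt u v) →
      (bin (SS p K n) (cnt u) σ : ℝ) ≤
        Real.exp (C3 * (C1 * (n : ℝ) ^ g * Real.log n ^ 2) * Real.log n / 2) *
          Real.sqrt (EZ p n (SS p K n) σ) := by
    intro σ hσ
    have hσ' : ∀ v ≤ SS p K n, σ v ≤ κ v := fun v hv => by rw [← hcnt v hv]; exact hσ v hv
    rw [bin_congr hcnt]
    have e1 := (hpos (SS p K n) t (lm p n) G A ko hP _ hΛ1 hΛ2 κ hN σ hσ').1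
    exact bin_exp (EZ_pos h1 hn0 (le_trans (sz_mono hσ') hN.le)) e1
  have hY : 0 ≤ Real.exp (C3 * (C1 * (n : ℝ) ^ g * Real.log n ^ 2) * Real.log n / 2) :=
    (Real.exp_pos _).le
  have hD : ∀ I ∈ OP (univ : Finset (Fin n)) u, ∑ J ∈ OP (univ : Finset (Fin n)) u,
      (1 / (1 - p)) ^ (∑ i, ∑ j, (I i ∩ J j).card.choose 2) ≤
        ((OP (univ : Finset (Fin n)) u).card : ℝ) *
          Real.exp ((C3 * C1 + 2) * (n : ℝ) ^ g * Real.log n ^ 3) := by
    intro I hI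
    refine pair_sum h1p (rz (SS p K n)) u I _ ?_
    refine le_trans (hcf ι ι u u hu1 huS hun hu1 huS hun I hI univ 0 n
      (Real.exp (C3 * (C1 * (n : ℝ) ^ g * Real.log n ^ 2) * Real.log n / 2))
      (Real.exp (C3 * (C1 * (n : ℝ) ^ g * Real.log n ^ 2) * Real.log n / 2))
      (Real.exp (C3 * (C1 * (n : ℝ) ^ g * Real.log n ^ 2) * Real.log n / 2)) hY hY hY hbin
      (fun σ h _ _ => hbin σ h) hbin) ?_
    apply mul_le_mul_of_nonneg_left _ (Nat.cast_nonneg _)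
    rw [hnb, Finset.card_univ, Fintype.card_fin, Nat.sub_self, Nat.zero_div, Nat.cast_zero, mul_zero,
      mul_zero, neg_zero, Real.exp_zero, mul_one, add_zero]
    have e1 : ∀ a : ℝ, a + a = 2 * a := fun a => by ring
    rw [e1]
    have e2 : (2 : ℝ) ≤ Real.exp 1 := by
      have := Real.exp_one_gt_d9
      linarith
    calc Real.exp ((n : ℝ) ^ g * Real.log n ^ 2) *
          Real.exp (C3 * (C1 * (n : ℝ) ^ g * Real.log n ^ 2) * Real.log n / 2) *
          (2 * Real.exp (C3 * (C1 * (n : ℝ) ^ g * Real.log n ^ 2) * Real.log n / 2))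
        ≤ Real.exp ((n : ℝ) ^ g * Real.log n ^ 2) *
          Real.exp (C3 * (C1 * (n : ℝ) ^ g * Real.log n ^ 2) * Real.log n / 2) *
          (Real.exp 1 * Real.exp (C3 * (C1 * (n : ℝ) ^ g * Real.log n ^ 2) * Real.log n / 2)) := by
          gcongr
      _ = Real.exp ((n : ℝ) ^ g * Real.log n ^ 2 +
          C3 * (C1 * (n : ℝ) ^ g * Real.log n ^ 2) * Real.log n / 2 + (1 +
          C3 * (C1 * (n : ℝ) ^ g * Real.log n ^ 2) * Real.log n / 2)) := by
          rw [Real.exp_add, Real.exp_add, Real.exp_add]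
      _ ≤ Real.exp ((C3 * C1 + 2) * (n : ℝ) ^ g * Real.log n ^ 3) := by
          apply Real.exp_le_exp.2
          have e3 : (1 : ℝ) ≤ Real.log n ^ 3 := one_le_pow₀ hl1
          have e4 : Real.log n ^ 2 ≤ Real.log n ^ 3 := pow_le_pow_right₀ hl1 (by norm_num)
          have e5 : (n : ℝ) ^ g * Real.log n ^ 2 ≤ (n : ℝ) ^ g * Real.log n ^ 3 :=
            mul_le_mul_of_nonneg_left e4 hng0.le
          have e6 : (1 : ℝ) ≤ (n : ℝ) ^ g * Real.log n ^ 3 := by nlinarith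
          nlinarith
  have hsec := second_moment h0.le h1 u hun _ hD
  -- the event
  have hEv : Real.exp (-((C3 * C1 + 2) * (n : ℝ) ^ g * Real.log n ^ 3)) ≤
      Ex p (fun x : Cf n => ind (ff (SS p K n) (lm p n) x ≤
        (lm p n : ℝ) * ks t ko + C1 * (n : ℝ) ^ g * Real.log n)) := by
    refine le_trans hsec (Ex_mono h0.le h1.le fun x => ind_mono ?_)
    rintro ⟨I, hI, hx⟩
    refine le_trans (ff_fam u hu1 huS hul x I hI hx) ?_
    rw [hci, hsu]
    refine le_trans hF ?_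
    have : C1' * (n : ℝ) ^ g * Real.log n ≤ C1 * (n : ℝ) ^ g * Real.log n := by gcongr
    linarith
  -- conclusion
  set F := Ex p (fun x : Cf n => ff (SS p K n) (lm p n) x) with hFdef
  have hgg : (n : ℝ) ^ g ≤ (n : ℝ) ^ ((1 + g) / 2) := Real.rpow_le_rpow_of_exponent_le hn1 (by linarith)
  have hgp : (0 : ℝ) < (n : ℝ) ^ ((1 + g) / 2) := Real.rpow_pos_of_pos hn0' _
  have hl3 : Real.log n ≤ Real.log n ^ 3 := le_self_pow₀ hl1 (by norm_num)
  have hW0 : 0 ≤ (2 * (C3 * C1 + 2) + 1) * (n : ℝ) ^ ((1 + g) / 2) * Real.log n ^ 3 := by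
    have : (0 : ℝ) ≤ Real.log n := by linarith
    positivity
  have hmain : F - ((lm p n : ℝ) * ks t ko + C1 * (n : ℝ) ^ g * Real.log n) ≤
      (2 * (C3 * C1 + 2) + 1) * (n : ℝ) ^ ((1 + g) / 2) * Real.log n ^ 3 := by
    rcases le_or_gt (F - ((lm p n : ℝ) * ks t ko + C1 * (n : ℝ) ^ g * Real.log n)) 0 with hs | hs
    · exact le_trans hs hW0
    · have htl := tail_low h0.le h1.le hn0 (fun x : Cf n => ff (SS p K n) (lm p n) x)
        (fun v x y h => ff_vertex v h) (s := F - ((lm p n : ℝ) * ks t ko + C1 * (n : ℝ) ^ g * Real.log n)) hs.le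
      have e1 : F - (F - ((lm p n : ℝ) * ks t ko + C1 * (n : ℝ) ^ g * Real.log n)) =
          (lm p n : ℝ) * ks t ko + C1 * (n : ℝ) ^ g * Real.log n := by ring
      rw [← hFdef, e1] at htl
      have e2 := Real.exp_le_exp.1 (le_trans hEv htl)
      set s := F - ((lm p n : ℝ) * ks t ko + C1 * (n : ℝ) ^ g * Real.log n) with hsdef
      have e3 : s ^ 2 / (2 * n) ≤ (C3 * C1 + 2) * (n : ℝ) ^ g * Real.log n ^ 3 := by linarith
      rw [div_le_iff₀ (by positivity)] at e3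
      have e4 : (n : ℝ) ^ g * n = ((n : ℝ) ^ ((1 + g) / 2)) ^ 2 := by
        rw [← Real.rpow_natCast, ← Real.rpow_mul hn0'.le]
        nth_rw 2 [← Real.rpow_one (n : ℝ)]
        rw [← Real.rpow_add hn0']
        congr 1
        push_cast
        ring
      refine abs_le_of_sq_le_sq' ?_ hW0 |>.2
      set M := (n : ℝ) ^ ((1 + g) / 2) with hM
      have e5 : s ^ 2 ≤ 2 * (C3 * C1 + 2) * M ^ 2 * Real.log n ^ 3 := by
        calc s ^ 2 ≤ (C3 * C1 + 2) * (n : ℝ) ^ g * Real.log n ^ 3 * (2 * n) := e3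
          _ = 2 * (C3 * C1 + 2) * ((n : ℝ) ^ g * n) * Real.log n ^ 3 := by ring
          _ = _ := by rw [e4]
      refine le_trans e5 ?_
      have e6 : Real.log n ^ 3 ≤ Real.log n ^ 6 := pow_le_pow_right₀ hl1 (by norm_num)
      have e7 : 2 * (C3 * C1 + 2) ≤ (2 * (C3 * C1 + 2) + 1) ^ 2 := by nlinarith
      calc 2 * (C3 * C1 + 2) * M ^ 2 * Real.log n ^ 3 ≤
            (2 * (C3 * C1 + 2) + 1) ^ 2 * M ^ 2 * Real.log n ^ 6 := by
            have : (0 : ℝ) ≤ Real.log n := by linarith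
            gcongr
        _ = ((2 * (C3 * C1 + 2) + 1) * M * Real.log n ^ 3) ^ 2 := by ring
  have hlast : C1 * (n : ℝ) ^ g * Real.log n ≤ C1 * (n : ℝ) ^ ((1 + g) / 2) * Real.log n ^ 3 := by
    have : (0 : ℝ) ≤ Real.log n := by linarith
    gcongr
  calc F ≤ (lm p n : ℝ) * ks t ko + C1 * (n : ℝ) ^ g * Real.log n +
        (2 * (C3 * C1 + 2) + 1) * (n : ℝ) ^ ((1 + g) / 2) * Real.log n ^ 3 := by linarith
    _ ≤ (lm p n : ℝ) * ks t ko + C1 * (n : ℝ) ^ ((1 + g) / 2) * Real.log n ^ 3 +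
        (2 * (C3 * C1 + 2) + 1) * (n : ℝ) ^ ((1 + g) / 2) * Real.log n ^ 3 := by linarith
    _ = _ := by ring

end Pool.Agent.CHP
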