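import Pool.Agent.CHP.EZb

/-!
# CHP / GbA: the weights of the Gibbs profile (algebra)

`gw b t K i = (t)_i/t^i K^i b^(-C(i,2))`, `(t)_i = t.descFactorial i`.
PROOFS.  `gw_pos`: `t.descFactorial i > 0` for `i ≤ t`.  `gw_zero`: clear.  `gw_succ`: `t.descFactorial (i+1) = (t-i) t.descFactorial i` (`Nat.descFactorial_succ`),
`(i+1).choose 2 = i.choose 2 + i`.  `gw_lc`: with `r_i = gw (i+1)/gw i = ((t-i)/t) K/b^i` (`gw_succ`) the claim is `gw i * (gw i r_i r_{i+1}) ≤ (gw i r_i)^2`, i.e.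
`r_{i+1} ≤ r_i` (`1 ≤ b`).
`NN_sub`: induction on `i` with `NN (u+1) = NN u * n (1-p)^u/(u+1)`: `NN (t-i-1) = NN (t-i) (t-i) b^(t-i-1)/n`, and `gw_succ` for `K = t b^(t-1)/n`:
`((t-i)/t) (t b^(t-1)/n)/b^i = (t-i) b^(t-1-i)/n` (`i + 1 ≤ t`).
`gib_of`: put `m = gm b t K`, `W = gW b t K`, `G = log (R/K)`, `R = t b^(t-1)/n > 0`, `A = (1+G)(t-m) - 1`, `ks0 = n/(t-m)`, `ko u = ks0 * gw (t-u)/W`.
Sum over `u` = sum over `i = t-u` (`Finset.sum_range_reflect`): `∑ ko u = ks0`, `∑ u ko u = ks0 (t - m) = n`.  `(A+1) ks0 = (1+G) n`.  Finally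
`ko u = NN u exp (G u - A)`: for `i = t - u`: `NN u = NN t * gw b t R i` (`NN_sub`), `gw b t R i = gw b t K i (R/K)^i = gw b t K i exp (G i)`, so
`NN u exp (G u - A) = NN t exp (G t - A) gw b t K i`, and `NN t exp (G t - A) = ks0/W` is the equation `heq` after taking logarithms:
`log NN_t + G t - (1+G)(t-m) + 1 = log n - log (t-m) - log W`.
-/

set_option autoImplicit false

namespace Pool.Agent.CHP

open Finset

/-- The weights of the Gibbs profile. -/
noncomputable def gw (b : ℝ) (t : ℕ) (K : ℝ) (i : ℕ) : ℝ :=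
  (t.descFactorial i : ℝ) / (t : ℝ) ^ i * K ^ i / b ^ (i.choose 2)

/-- The partition function. -/
noncomputable def gW (b : ℝ) (t : ℕ) (K : ℝ) : ℝ := ∑ i ∈ range (t + 1), gw b t K i

/-- The mean value. -/
noncomputable def gm (b : ℝ) (t : ℕ) (K : ℝ) : ℝ :=
  (∑ i ∈ range (t + 1), (i : ℝ) * gw b t K i) / gW b t K

theorem gw_pos {b K : ℝ} {t : ℕ} (hb : 1 ≤ b) (hK : 0 < K) (ht : 1 ≤ t) {i : ℕ} (hi : i ≤ t) :
    0 < gw b t K i := by
  unfold gw
  have h1 : (0 : ℝ) < (t.descFactorial i : ℝ) := by exact_mod_cast Nat.descFactorial_pos.2 hi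
  have h2 : (0 : ℝ) < (t : ℝ) := by exact_mod_cast ht
  have h3 : 0 < b := by linarith
  positivity

theorem gw_zero (b : ℝ) (t : ℕ) (K : ℝ) : gw b t K 0 = 1 := by
  unfold gw
  simp

private theorem gba_choose (i : ℕ) : (i + 1).choose 2 = i.choose 2 + i := by
  rw [Nat.choose_succ_succ' i 1, Nat.choose_one_right]
  ring

theorem gw_succ {b K : ℝ} {t : ℕ} (hb : 1 ≤ b) (ht : 1 ≤ t) (i : ℕ) (hi : i ≤ t) :
    gw b t K (i + 1) = gw b t K i * (((t : ℝ) - i) / t * K / b ^ i) := by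
  unfold gw
  have h2 : (t : ℝ) ≠ 0 := by
    have : 0 < t := ht
    exact_mod_cast this.ne'
  have h3 : b ≠ 0 := by
    intro h
    rw [h] at hb
    linarith
  rw [Nat.descFactorial_succ, gba_choose, Nat.cast_mul, Nat.cast_sub hi, pow_add, pow_succ, pow_succ]
  field_simp
  ring

theorem gw_lc {b K : ℝ} {t : ℕ} (hb : 1 ≤ b) (hK : 0 < K) (ht : 1 ≤ t) (i : ℕ) (hi : i + 2 ≤ t) :
    gw b t K i * gw b t K (i + 2) ≤ gw b t K (i + 1) ^ 2 := by
  have hb0 : 0 < b := by linarith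
  have ht0 : (0 : ℝ) < t := by exact_mod_cast ht
  have hg := gw_pos hb hK ht (show i ≤ t by omega)
  have e1 := gw_succ (K := K) hb ht i (by omega)
  have e2 := gw_succ (K := K) hb ht (i + 1) (by omega)
  have hti : ((i : ℝ) + 2) ≤ t := by exact_mod_cast hi
  obtain ⟨r, hr⟩ : ∃ r : ℝ, r = ((t : ℝ) - i) / t * K / b ^ i := ⟨_, rfl⟩
  obtain ⟨r', hr'⟩ : ∃ r' : ℝ, r' = ((t : ℝ) - ((i + 1 : ℕ) : ℝ)) / t * K / b ^ (i + 1) := ⟨_, rfl⟩
  rw [← hr] at e1
  rw [← hr'] at e2
  have hr0 : 0 ≤ r := by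
    rw [hr]
    have : 0 ≤ (t : ℝ) - i := by linarith
    positivity
  have hrr : r' ≤ r := by
    rw [hr, hr']
    have h1 : 0 ≤ (t : ℝ) - i := by linarith
    have h2 : ((t : ℝ) - ((i + 1 : ℕ) : ℝ)) / t * K ≤ ((t : ℝ) - i) / t * K := by
      refine mul_le_mul_of_nonneg_right ?_ hK.le
      refine div_le_div_of_nonneg_right ?_ ht0.le
      push_cast
      linarith
    refine div_le_div₀ (by positivity) h2 (by positivity) ?_
    exact pow_le_pow_right₀ hb (Nat.le_succ i)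
  have e3 : gw b t K (i + 2) = gw b t K i * r * r' := by
    rw [show i + 2 = i + 1 + 1 from rfl, e2, e1]
  rw [e3, e1]
  have h5 : 0 ≤ gw b t K i ^ 2 * r := mul_nonneg (sq_nonneg _) hr0
  have := mul_le_mul_of_nonneg_left hrr h5
  nlinarith [this]

private theorem gba_NN {p : ℝ} (h1 : p < 1) {n : ℕ} (hn : 0 < n) (u : ℕ) :
    NN p n u = NN p n (u + 1) * (((u : ℝ) + 1) * (1 / (1 - p)) ^ u / n) := by
  unfold NN
  have hn' : (n : ℝ) ≠ 0 := by exact_mod_cast hn.ne'
  have hq : (1 - p) ≠ 0 := by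
    intro h
    linarith
  have hf : (u.factorial : ℝ) ≠ 0 := by exact_mod_cast Nat.factorial_ne_zero u
  have hu : (u : ℝ) + 1 ≠ 0 := by positivity
  rw [gba_choose, Nat.factorial_succ, pow_add, pow_succ]
  push_cast
  rw [one_div, inv_pow]
  field_simp
  ring

theorem NN_sub {p : ℝ} (h1 : p < 1) {n t : ℕ} (hn : 0 < n) (ht : 1 ≤ t) {i : ℕ} (hi : i ≤ t) :
    NN p n (t - i) = NN p n t *
      gw (1 / (1 - p)) t ((t : ℝ) * (1 / (1 - p)) ^ (t - 1) / n) i := by
  have hn' : (n : ℝ) ≠ 0 := by exact_mod_cast hn.ne'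
  have hq : 0 < 1 - p := by linarith
  induction i with
  | zero => rw [gw_zero, Nat.sub_zero, mul_one]
  | succ i ih =>
    have ih' := ih (by omega)
    obtain ⟨u, hu⟩ : ∃ u, u = t - (i + 1) := ⟨_, rfl⟩
    have hu1 : t - i = u + 1 := by omega
    have hut : t - 1 = u + i := by omega
    have hcast : (t : ℝ) - i = u + 1 := by
      have : t = u + 1 + i := by omega
      rw [this]
      push_cast
      ring
    rw [hu1] at ih'
    rw [← hu, gba_NN h1 hn u, ih']
    have ht0 : (t : ℝ) ≠ 0 := by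
      have : 0 < t := ht
      exact_mod_cast this.ne'
    have hstep : gw (1 / (1 - p)) t ((t : ℝ) * (1 / (1 - p)) ^ (t - 1) / n) (i + 1) =
        gw (1 / (1 - p)) t ((t : ℝ) * (1 / (1 - p)) ^ (t - 1) / n) i *
          (((u : ℝ) + 1) * (1 / (1 - p)) ^ u / n) := by
      have hgs : ∀ K : ℝ, gw (1 / (1 - p)) t K (i + 1) = gw (1 / (1 - p)) t K i *
          (((t : ℝ) - i) / t * K / (1 / (1 - p)) ^ i) := by
        intro K
        unfold gw
        have h3 : (1 / (1 - p)) ≠ 0 := by positivity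
        rw [Nat.descFactorial_succ, gba_choose, Nat.cast_mul, Nat.cast_sub (by omega : i ≤ t),
          pow_add, pow_succ, pow_succ]
        field_simp
        ring
      rw [hgs, hut, hcast]
      congr 1
      have h3 : (1 / (1 - p)) ^ i ≠ 0 := by positivity
      rw [pow_add]
      field_simp
    rw [hstep]
    ring

theorem gib_of {p : ℝ} (h0 : 0 ≤ p) (h1 : p < 1) {n t : ℕ} (hn : 0 < n) (ht : 1 ≤ t) {K : ℝ}
    (hK : 0 < K) (hm : gm (1 / (1 - p)) t K < t)
    (heq : (1 + Real.log ((t : ℝ) * (1 / (1 - p)) ^ (t - 1) / n / K)) * gm (1 / (1 - p)) t K =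
      (t : ℝ) - 1 - Real.log (NN p n t) + Real.log n - Real.log (gW (1 / (1 - p)) t K) -
        Real.log ((t : ℝ) - gm (1 / (1 - p)) t K)) :
    Gib p n t (Real.log ((t : ℝ) * (1 / (1 - p)) ^ (t - 1) / n / K))
      ((1 + Real.log ((t : ℝ) * (1 / (1 - p)) ^ (t - 1) / n / K)) *
        ((t : ℝ) - gm (1 / (1 - p)) t K) - 1)
      (fun u => n / ((t : ℝ) - gm (1 / (1 - p)) t K) * gw (1 / (1 - p)) t K (t - u) /
        gW (1 / (1 - p)) t K) ∧
    ks t (fun u => n / ((t : ℝ) - gm (1 / (1 - p)) t K) * gw (1 / (1 - p)) t K (t - u) /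
        gW (1 / (1 - p)) t K) = n / ((t : ℝ) - gm (1 / (1 - p)) t K) := by
  have hq : 0 < 1 - p := by linarith
  have hb : 1 ≤ 1 / (1 - p) := by
    rw [le_div_iff₀ hq]
    linarith
  have hn' : (0 : ℝ) < n := by exact_mod_cast hn
  have ht' : (0 : ℝ) < t := by exact_mod_cast ht
  obtain ⟨R, hR⟩ : ∃ R : ℝ, R = (t : ℝ) * (1 / (1 - p)) ^ (t - 1) / n := ⟨_, rfl⟩
  have hR0 : 0 < R := by
    rw [hR]
    have : 0 < 1 / (1 - p) := by linarith
    positivity
  have hNs : ∀ i ≤ t, NN p n (t - i) = NN p n t * gw (1 / (1 - p)) t R i := fun i hi => by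
    rw [hR]
    exact NN_sub h1 hn ht hi
  rw [← hR] at heq ⊢
  obtain ⟨b, hbd⟩ : ∃ b : ℝ, b = 1 / (1 - p) := ⟨_, rfl⟩
  rw [← hbd] at hb hm heq hNs ⊢
  obtain ⟨m, hmd⟩ : ∃ m : ℝ, m = gm b t K := ⟨_, rfl⟩
  obtain ⟨W, hW⟩ : ∃ W : ℝ, W = gW b t K := ⟨_, rfl⟩
  obtain ⟨G, hG⟩ : ∃ G : ℝ, G = Real.log (R / K) := ⟨_, rfl⟩
  have hW0 : 0 < W := by
    rw [hW]
    unfold gW
    exact Finset.sum_pos (fun i hi => gw_pos hb hK ht (Nat.lt_succ_iff.1 (Finset.mem_range.1 hi)))
      ⟨0, by simp⟩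
  have hmW : ∑ i ∈ range (t + 1), (i : ℝ) * gw b t K i = m * W := by
    rw [hmd]
    unfold gm
    rw [← hW, div_mul_cancel₀ _ hW0.ne']
  rw [← hmd] at hm
  rw [← hmd, ← hW, ← hG] at heq
  rw [← hmd, ← hW, ← hG]
  have htm : 0 < (t : ℝ) - m := by linarith
  have hS0 : ∑ u ∈ range (t + 1), gw b t K (t - u) = W := by
    rw [hW]
    unfold gW
    rw [← Finset.sum_range_reflect (fun i => gw b t K i) (t + 1)]
    rfl
  have hS1 : ∑ u ∈ range (t + 1), (u : ℝ) * gw b t K (t - u) = (t - m) * W := by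
    have h2 : ∑ i ∈ range (t + 1), ((t : ℝ) - i) * gw b t K i = (t - m) * W := by
      have h3 : ∀ i : ℕ, ((t : ℝ) - i) * gw b t K i = (t : ℝ) * gw b t K i - i * gw b t K i :=
        fun i => by ring
      rw [Finset.sum_congr rfl (fun i _ => h3 i), Finset.sum_sub_distrib, ← Finset.mul_sum, hmW]
      have h4 : ∑ i ∈ range (t + 1), gw b t K i = W := by
        rw [hW]
        rfl
      rw [h4]
      ring
    rw [← h2, ← Finset.sum_range_reflect (fun i => ((t : ℝ) - i) * gw b t K i) (t + 1)]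
    refine Finset.sum_congr rfl fun u hu => ?_
    have hu' : u ≤ t := Nat.lt_succ_iff.1 (Finset.mem_range.1 hu)
    have h5 : t + 1 - 1 - u = t - u := by omega
    simp only [h5]
    rw [Nat.cast_sub hu']
    ring
  have hks : ks t (fun u => (n : ℝ) / (t - m) * gw b t K (t - u) / W) = n / (t - m) := by
    unfold ks
    rw [← Finset.sum_div, ← Finset.mul_sum, hS0, mul_div_assoc, div_self hW0.ne', mul_one]
  refine ⟨⟨?_, ?_, ?_⟩, hks⟩
  · intro u hu
    obtain ⟨i, hi, hiu⟩ : ∃ i, i ≤ t ∧ t - i = u := ⟨t - u, by omega, by omega⟩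
    have hiu' : t - u = i := by omega
    have hcast : (i : ℝ) + u = t := by
      have : i + u = t := by omega
      exact_mod_cast this
    have hNt := NN_pos (p := p) h1 hn t
    have hgR : gw b t R i = gw b t K i * Real.exp (G * i) := by
      have h6 : Real.exp (G * i) = (R / K) ^ i := by
        rw [mul_comm, Real.exp_nat_mul, hG, Real.exp_log (div_pos hR0 hK)]
      rw [h6]
      unfold gw
      have hb0 : b ≠ 0 := by
        intro h
        rw [h] at hb
        linarith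
      have hK0 : K ≠ 0 := hK.ne'
      rw [div_pow]
      field_simp
    have hX : NN p n t * Real.exp (G * t - ((1 + G) * (t - m) - 1)) = n / (t - m) / W := by
      have hXp : 0 < (n : ℝ) / (t - m) / W := by positivity
      rw [← Real.exp_log hXp, ← Real.exp_log hNt, ← Real.exp_add]
      congr 1
      rw [Real.log_div (div_pos hn' htm).ne' hW0.ne', Real.log_div hn'.ne' htm.ne']
      linarith
    have h7 : NN p n u = NN p n t * gw b t R i := by
      rw [← hiu]
      exact hNs i hi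
    show (n : ℝ) / (t - m) * gw b t K (t - u) / W =
      NN p n u * Real.exp (G * u - ((1 + G) * (t - m) - 1))
    rw [h7, hgR, hiu']
    have h8 : Real.exp (G * t - ((1 + G) * (t - m) - 1)) =
        Real.exp (G * i) * Real.exp (G * u - ((1 + G) * (t - m) - 1)) := by
      rw [← Real.exp_add]
      congr 1
      rw [← hcast]
      ring
    calc (n : ℝ) / (t - m) * gw b t K i / W = gw b t K i * (n / (t - m) / W) := by ring
      _ = gw b t K i * (NN p n t * Real.exp (G * t - ((1 + G) * (t - m) - 1))) := by rw [hX]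
      _ = _ := by
        rw [h8]
        ring
  · have h9 : ∀ u : ℕ, (u : ℝ) * (n / (t - m) * gw b t K (t - u) / W) =
        (n / (t - m) / W) * (u * gw b t K (t - u)) := fun u => by ring
    rw [Finset.sum_congr rfl (fun u _ => h9 u), ← Finset.mul_sum, hS1]
    field_simp
  · rw [hks]
    field_simp
    ring

end Pool.Agent.CHP
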