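import Pool.Agent.CHP.GbA

/-!
# CHP / GbB: the weights of the Gibbs profile (analysis)

`1 < b`.  `gw b t K i ≤ K^i/b^C(i,2)` (as `(t)_i ≤ t^i`), `gW ≥ gw 0 = 1`.
PROOFS.
`gW_cont`, `gm_cont`: finite sums of continuous functions of `K`, quotient with `gW > 0` on `(0, ∞)`.
`gm_small`: for `0 < K ≤ 1` `gm ≤ ∑_{i ≥ 1} i K^i/b^C(i,2) ≤ K ∑_{i≥1} i/b^C(i,2)`, a convergent series (`C(i,2) ≥ 2(i-1) - 1`.. or: `i/b^C(i,2)`, ratio test
`summable_of_ratio_test_tendsto_lt_one`; the partial sums are bounded by a constant `C_b ≥ 1`); take `K1 = min 1 (η/C_b)`.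
`gm_large`: `i0 ≥ 1` a natural number `≥ (3/2) M`, `K2 = 6 b^i0`, `t ≥ 2 i0`: for `i < i0`, `gw (i+1)/gw i = ((t-i)/t) K2/b^i ≥ (1/2) 6 = 3`, so
`gw i ≤ 3^(-(i0-i)) gw i0`, `∑_{i<i0} gw i ≤ gw i0/2 ≤ (1/2) ∑_{i ≥ i0} gw i`, so `∑ i gw i ≥ i0 ∑_{i≥i0} gw i ≥ (2/3) i0 gW ≥ M gW`.
`gw_exp`: `∑ gw i exp (16 i) ≤ ∑ (K2 exp 16)^i/b^C(i,2) ≤ C` (convergent series: ratio `K2 e^16/b^i → 0`), `gW ≥ 1`.
`gW_le`: the same without the exponential.
`gm_nonneg`, `gm_lt`: `gm ≤` const: `i ≤ exp (16 i)`, so `gm ≤ C` by `gw_exp`; stated for `K ≤ K2`.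
-/

set_option autoImplicit false

namespace Pool.Agent.CHP

open Finset Filter

private theorem gw_cont42 (b : ℝ) (t i : ℕ) : Continuous (fun K => gw b t K i) := by
  unfold gw
  exact (continuous_const.mul (continuous_pow i)).div_const _

theorem gW_cont {b : ℝ} (hb : 1 < b) {t : ℕ} (ht : 1 ≤ t) : Continuous (fun K => gW b t K) := by
  have _ := hb
  have _ := ht
  unfold gW
  exact continuous_finsetSum _ fun i _ => gw_cont42 b t i

private theorem gw_nn42 {b K : ℝ} (hb : 1 < b) {t : ℕ} (ht : 1 ≤ t) (hK : 0 < K) {i : ℕ}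
    (hi : i ∈ range (t + 1)) : 0 ≤ gw b t K i := by
  rw [mem_range] at hi
  exact (gw_pos hb.le hK ht (by omega)).le

theorem gW_ge {b K : ℝ} (hb : 1 < b) {t : ℕ} (ht : 1 ≤ t) (hK : 0 < K) : 1 ≤ gW b t K := by
  unfold gW
  rw [← gw_zero b t K]
  exact single_le_sum (f := fun i => gw b t K i) (fun i hi => gw_nn42 hb ht hK hi)
    (mem_range.2 (by omega))

theorem gm_cont {b : ℝ} (hb : 1 < b) {t : ℕ} (ht : 1 ≤ t) :
    ContinuousOn (fun K => gm b t K) (Set.Ioi 0) := by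
  unfold gm
  refine ContinuousOn.div ?_ (gW_cont hb ht).continuousOn ?_
  · exact (continuous_finsetSum _ fun i _ => continuous_const.mul (gw_cont42 b t i)).continuousOn
  · intro K hK
    have := gW_ge hb ht (Set.mem_Ioi.1 hK)
    exact ne_of_gt (by linarith)

theorem gm_pos {b K : ℝ} (hb : 1 < b) {t : ℕ} (ht : 1 ≤ t) (hK : 0 < K) : 0 < gm b t K := by
  unfold gm
  have h1 := gW_ge hb ht hK
  refine div_pos ?_ (by linarith)
  refine sum_pos' (fun i hi => mul_nonneg (Nat.cast_nonneg _) (gw_nn42 hb ht hK hi))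
    ⟨1, mem_range.2 (by omega), ?_⟩
  rw [Nat.cast_one, one_mul]
  exact gw_pos hb.le hK ht ht

private theorem gw_le42 {b K : ℝ} (hb : 1 < b) {t : ℕ} (ht : 1 ≤ t) (hK : 0 < K) (i : ℕ) :
    gw b t K i ≤ K ^ i / b ^ (i.choose 2) := by
  have ht0 : (0 : ℝ) < (t : ℝ) ^ i := by
    have : (0 : ℝ) < t := by exact_mod_cast ht
    positivity
  have h1 : (t.descFactorial i : ℝ) / (t : ℝ) ^ i ≤ 1 := by
    rw [div_le_one ht0]
    exact_mod_cast Nat.descFactorial_le_pow t i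
  have hb0 : (0 : ℝ) < b ^ (i.choose 2) := by positivity
  unfold gw
  rw [div_le_div_iff_of_pos_right hb0]
  calc (t.descFactorial i : ℝ) / (t : ℝ) ^ i * K ^ i ≤ 1 * K ^ i := by
        gcongr
    _ = K ^ i := one_mul _

private theorem summ42 {b : ℝ} (hb : 1 < b) {x : ℝ} (hx : 0 < x) :
    Summable fun i : ℕ => x ^ i / b ^ (i.choose 2) := by
  have hb0 : 0 < b := by linarith
  have hpos : ∀ i : ℕ, 0 < x ^ i / b ^ (i.choose 2) := fun i => by positivity
  refine summable_of_ratio_test_tendsto_lt_one (l := 0) one_pos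
    (Eventually.of_forall fun i => (hpos i).ne') ?_
  have e : ∀ i : ℕ, ‖x ^ (i + 1) / b ^ ((i + 1).choose 2)‖ / ‖x ^ i / b ^ (i.choose 2)‖ =
      x * (b⁻¹) ^ i := by
    intro i
    rw [Real.norm_of_nonneg (hpos _).le, Real.norm_of_nonneg (hpos _).le]
    have h1 : (i + 1).choose 2 = i.choose 2 + i := by
      rw [Nat.choose_succ_succ' i 1, Nat.choose_one_right]; ring
    rw [h1, pow_add b, pow_succ, inv_pow]
    field_simp
  simp_rw [e]
  have h2 : Tendsto (fun i : ℕ => x * (b⁻¹) ^ i) atTop (nhds (x * 0)) :=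
    (tendsto_pow_atTop_nhds_zero_of_lt_one (by positivity) (inv_lt_one_of_one_lt₀ hb)).const_mul x
  rwa [mul_zero] at h2

private theorem part42 {b : ℝ} (hb : 1 < b) {x : ℝ} (hx : 0 < x) (n : ℕ) :
    ∑ i ∈ range n, x ^ i / b ^ (i.choose 2) ≤ ∑' i : ℕ, x ^ i / b ^ (i.choose 2) := by
  have hb0 : 0 < b := by linarith
  exact (summ42 hb hx).sum_le_tsum _ fun i _ => by positivity

private theorem one_le42 {b : ℝ} (hb : 1 < b) {x : ℝ} (hx : 0 < x) :
    1 ≤ ∑' i : ℕ, x ^ i / b ^ (i.choose 2) := by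
  have := part42 hb hx 1
  simpa using this

theorem gm_small {b : ℝ} (hb : 1 < b) {η : ℝ} (hη : 0 < η) :
    ∃ K1 : ℝ, 0 < K1 ∧ K1 ≤ 1 ∧ ∀ t : ℕ, 1 ≤ t → gm b t K1 ≤ η := by
  have hb0 : 0 < b := by linarith
  set C : ℝ := ∑' i : ℕ, (2 : ℝ) ^ i / b ^ (i.choose 2) with hC
  have hC1 : 1 ≤ C := one_le42 hb two_pos
  have hC0 : 0 < C := by linarith
  refine ⟨min 1 (η / C), lt_min one_pos (by positivity), min_le_left _ _, fun t ht => ?_⟩
  set K := min 1 (η / C) with hKdef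
  have hK : 0 < K := lt_min one_pos (by positivity)
  have hK1 : K ≤ 1 := min_le_left _ _
  have hKη : K * C ≤ η := by
    have : K ≤ η / C := min_le_right _ _
    rwa [le_div_iff₀ hC0] at this
  have hW := gW_ge hb ht hK
  have hnum : ∑ i ∈ range (t + 1), (i : ℝ) * gw b t K i ≤ K * C := by
    calc ∑ i ∈ range (t + 1), (i : ℝ) * gw b t K i
        ≤ ∑ i ∈ range (t + 1), K * ((2 : ℝ) ^ i / b ^ (i.choose 2)) := by
          refine sum_le_sum fun i hi => ?_
          have h4 : 0 ≤ gw b t K i := gw_nn42 hb ht hK hi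
          rcases Nat.eq_zero_or_pos i with h0 | h0
          · subst h0
            simp [hK.le]
          · have h1 : gw b t K i ≤ K ^ i / b ^ (i.choose 2) := gw_le42 hb ht hK i
            have h2 : K ^ i ≤ K := by
              calc K ^ i ≤ K ^ 1 := pow_le_pow_of_le_one hK.le hK1 h0
                _ = K := pow_one K
            have h3 : (i : ℝ) ≤ 2 ^ i := by exact_mod_cast (Nat.lt_two_pow_self (n := i)).le
            have hbi : (0 : ℝ) < b ^ (i.choose 2) := by positivity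
            calc (i : ℝ) * gw b t K i ≤ 2 ^ i * (K ^ i / b ^ (i.choose 2)) := by gcongr
              _ ≤ 2 ^ i * (K / b ^ (i.choose 2)) := by gcongr
              _ = K * ((2 : ℝ) ^ i / b ^ (i.choose 2)) := by ring
      _ = K * ∑ i ∈ range (t + 1), ((2 : ℝ) ^ i / b ^ (i.choose 2)) := by rw [mul_sum]
      _ ≤ K * C := by
          have := part42 hb two_pos (t + 1)
          gcongr
  unfold gm
  rw [div_le_iff₀ (by linarith)]
  have : η * 1 ≤ η * gW b t K := by gcongr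
  linarith

theorem gm_large {b : ℝ} (hb : 1 < b) (M : ℝ) :
    ∃ K2 : ℝ, 1 ≤ K2 ∧ ∀ᶠ t : ℕ in atTop, M ≤ gm b t K2 := by
  have hb0 : 0 < b := by linarith
  obtain ⟨i1, hi1⟩ := exists_nat_ge (3 / 2 * M)
  set i0 : ℕ := i1 + 1 with hi0
  have hM : 3 / 2 * M ≤ (i0 : ℝ) := by
    rw [hi0]
    push_cast
    linarith
  have hbi : 1 ≤ b ^ i0 := one_le_pow₀ hb.le
  refine ⟨6 * b ^ i0, by linarith, ?_⟩
  filter_upwards [eventually_ge_atTop (2 * i0)] with t ht
  have ht1 : 1 ≤ t := by omega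
  set K := 6 * b ^ i0 with hKdef
  have hK : 0 < K := by positivity
  have ht0 : (0 : ℝ) < t := by exact_mod_cast ht1
  have hstep : ∀ i < i0, 3 * gw b t K i ≤ gw b t K (i + 1) := by
    intro i hi
    rw [gw_succ hb.le ht1 i (by omega)]
    have hg := gw_pos hb.le hK ht1 (i := i) (by omega)
    have h1 : (1 / 2 : ℝ) ≤ ((t : ℝ) - i) / t := by
      rw [le_div_iff₀ ht0]
      have : 2 * (i : ℝ) ≤ t := by exact_mod_cast (by omega : 2 * i ≤ t)
      linarith
    have h2 : 6 ≤ K / b ^ i := by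
      rw [le_div_iff₀ (by positivity), hKdef]
      have : b ^ i ≤ b ^ i0 := pow_le_pow_right₀ hb.le hi.le
      linarith
    have h3 : 3 ≤ ((t : ℝ) - i) / t * K / b ^ i := by
      calc (3 : ℝ) = 1 / 2 * 6 := by norm_num
        _ ≤ ((t : ℝ) - i) / t * (K / b ^ i) := by gcongr
        _ = ((t : ℝ) - i) / t * K / b ^ i := by ring
    nlinarith
  have hpre : ∀ j ≤ i0, ∑ i ∈ range j, gw b t K i ≤ gw b t K j / 2 := by
    intro j
    induction j with
    | zero =>
      intro _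
      rw [range_zero, sum_empty, gw_zero]
      norm_num
    | succ j ih =>
      intro hj
      rw [sum_range_succ]
      have h1 := ih (by omega)
      have h2 := hstep j (by omega)
      linarith
  have hsplit : ∀ f : ℕ → ℝ, ∑ i ∈ range i0, f i + ∑ i ∈ Ico i0 (t + 1), f i =
      ∑ i ∈ range (t + 1), f i := by
    intro f
    rw [range_eq_Ico, range_eq_Ico]
    exact sum_Ico_consecutive f (Nat.zero_le _) (by omega)
  have hnn : ∀ i ∈ Ico i0 (t + 1), 0 ≤ gw b t K i := fun i hi =>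
    gw_nn42 hb ht1 hK (mem_range.2 (mem_Ico.1 hi).2)
  have hB : gw b t K i0 ≤ ∑ i ∈ Ico i0 (t + 1), gw b t K i :=
    single_le_sum hnn (mem_Ico.2 ⟨le_rfl, by omega⟩)
  have hA := hpre i0 le_rfl
  have hWe : ∑ i ∈ range i0, gw b t K i + ∑ i ∈ Ico i0 (t + 1), gw b t K i = gW b t K :=
    hsplit fun i => gw b t K i
  have hnum : (i0 : ℝ) * ∑ i ∈ Ico i0 (t + 1), gw b t K i ≤
      ∑ i ∈ range (t + 1), (i : ℝ) * gw b t K i := by
    rw [← hsplit, mul_sum]
    have h1 : 0 ≤ ∑ i ∈ range i0, (i : ℝ) * gw b t K i :=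
      sum_nonneg fun i hi => mul_nonneg (Nat.cast_nonneg _)
        (gw_nn42 hb ht1 hK (mem_range.2 (by have := mem_range.1 hi; omega)))
    have h2 : ∑ i ∈ Ico i0 (t + 1), (i0 : ℝ) * gw b t K i ≤
        ∑ i ∈ Ico i0 (t + 1), (i : ℝ) * gw b t K i := by
      refine sum_le_sum fun i hi => ?_
      have h3 : (i0 : ℝ) ≤ i := by exact_mod_cast (mem_Ico.1 hi).1
      exact mul_le_mul_of_nonneg_right h3 (hnn i hi)
    linarith
  have hW := gW_ge hb ht1 hK
  unfold gm
  rw [le_div_iff₀ (by linarith)]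
  have hi0' : (0 : ℝ) ≤ i0 := Nat.cast_nonneg _
  have h5 : gW b t K ≤ 3 / 2 * ∑ i ∈ Ico i0 (t + 1), gw b t K i := by linarith
  have h6 : M * gW b t K ≤ 2 / 3 * i0 * gW b t K := by
    have : M ≤ 2 / 3 * i0 := by linarith
    have hW0 : 0 ≤ gW b t K := by linarith
    exact mul_le_mul_of_nonneg_right this hW0
  have h7 : 2 / 3 * (i0 : ℝ) * gW b t K ≤ 2 / 3 * i0 * (3 / 2 * ∑ i ∈ Ico i0 (t + 1), gw b t K i) := by
    gcongr
  linarith

theorem gw_exp {b : ℝ} (hb : 1 < b) (K2 : ℝ) :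
    ∃ C : ℝ, 0 < C ∧ ∀ t : ℕ, 1 ≤ t → ∀ K : ℝ, 0 < K → K ≤ K2 →
      ∑ i ∈ range (t + 1), gw b t K i * Real.exp (16 * i) ≤ C * gW b t K ∧ gW b t K ≤ C ∧
        gm b t K ≤ C := by
  have hb0 : 0 < b := by linarith
  set x : ℝ := (|K2| + 1) * Real.exp 16 with hx
  have hx0 : 0 < x := by positivity
  set C : ℝ := ∑' i : ℕ, x ^ i / b ^ (i.choose 2) with hC
  have hC1 : 1 ≤ C := one_le42 hb hx0
  refine ⟨C, by linarith, fun t ht K hK hK2 => ?_⟩
  have hW := gW_ge hb ht hK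
  have hKx : K * Real.exp 16 ≤ x := by
    rw [hx]
    have : K ≤ |K2| + 1 := by
      have := le_abs_self K2
      linarith
    gcongr
  have hS : ∑ i ∈ range (t + 1), gw b t K i * Real.exp (16 * i) ≤ C := by
    calc ∑ i ∈ range (t + 1), gw b t K i * Real.exp (16 * i)
        ≤ ∑ i ∈ range (t + 1), x ^ i / b ^ (i.choose 2) := by
          refine sum_le_sum fun i _ => ?_
          have h1 : gw b t K i ≤ K ^ i / b ^ (i.choose 2) := gw_le42 hb ht hK i
          have h2 : Real.exp (16 * i) = Real.exp 16 ^ i := by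
            rw [← Real.exp_nat_mul, mul_comm]
          rw [h2]
          have hbi : (0 : ℝ) < b ^ (i.choose 2) := by positivity
          calc gw b t K i * Real.exp 16 ^ i ≤ K ^ i / b ^ (i.choose 2) * Real.exp 16 ^ i := by
                gcongr
            _ = (K * Real.exp 16) ^ i / b ^ (i.choose 2) := by rw [mul_pow]; ring
            _ ≤ x ^ i / b ^ (i.choose 2) := by gcongr
      _ ≤ C := part42 hb hx0 (t + 1)
  have hexp : ∀ i : ℕ, 1 ≤ Real.exp (16 * i) ∧ (i : ℝ) ≤ Real.exp (16 * i) := by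
    intro i
    have h1 := Real.add_one_le_exp (16 * (i : ℝ))
    have h2 : (0 : ℝ) ≤ i := Nat.cast_nonneg _
    constructor <;> linarith
  refine ⟨?_, ?_, ?_⟩
  · have : C * 1 ≤ C * gW b t K := by gcongr
    linarith
  · refine le_trans ?_ hS
    unfold gW
    refine sum_le_sum fun i hi => ?_
    have h1 := gw_nn42 hb ht hK hi
    nlinarith [(hexp i).1]
  · unfold gm
    have h3 : ∑ i ∈ range (t + 1), (i : ℝ) * gw b t K i ≤ C := by
      refine le_trans (sum_le_sum fun i hi => ?_) hS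
      have h1 := gw_nn42 hb ht hK hi
      nlinarith [(hexp i).2]
    rw [div_le_iff₀ (by linarith)]
    have : C * 1 ≤ C * gW b t K := by gcongr
    linarith

end Pool.Agent.CHP
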