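import Pool.Agent.CHP.AsB
import Pool.Agent.CHP.GbB

/-!
# CHP / GbC: existence of the Gibbs profile with entropy zero; asymptotics

Notation: `B = -log (1-p) ∈ (0,2]`, `b = 1/(1-p) = exp B`, `L = LL p n`, `ℒ = log n = B L`, `t = a - 1`, `R = t b^(t-1)/n`, `m = gm b t K`, `W = gW b t K`.
FACTS for large `n` (`μ ≤ n^(1-ε) < n`):
(F1) `(2/B) ℒ - (2/B) log L - C ≤ t ≤ (2/B) ℒ` (`a_loc`, `a_range`).  (F2) `log N_t ≤ (2-ε) ℒ + 3` and `log N_t ≥ (3/2) ℒ - log (32 L)` (`NN_t`, `mu_NN`, `a_range`).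
(F3) `ℒ - log L - C ≤ log R ≤ ℒ - log (a/9)` (`b^(t-1) = b^(a-1)/b`, `a_range`: `t n/(16 b a^2) ≤ R ≤ 9 n/a`).
(F4) for `0 < K ≤ K2`: `1 ≤ W ≤ C`, `0 < m ≤ C`, so `t - m ≥ 1` (`gW_ge`, `gw_exp`, `gm_pos`).
PROOF of `gibbs_exists`.  `K1` from `gm_small` with `η = ε/4`, `K2` from `gm_large` with `M = 2/B` (`1 ≤ K2`, `K1 ≤ 1`).  Put
`E(K) = (1 + log (R/K)) m - (t - 1 - log N_t + ℒ - log W - log (t - m))`, continuous on `[K1, K2]` (`gW_cont`, `gm_cont`, (F4)).
`E(K1) ≤ (1 + ℒ + log (1/K1)) ε/4 - ((2/B) ℒ - (2/B) log L - C - (2-ε) ℒ - 3 + ℒ - log C - log t) ≤ (ε/4 - (2/B - 1 + ε)) ℒ + C' log L < 0` (`2/B ≥ 1`).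
`E(K2) ≥ (ℒ - log L - C')(2/B) - ((2/B) ℒ - (3/2) ℒ + log (32 L) + ℒ) = ℒ/2 - C'' log L > 0` (`- log W ≤ 0`, `- log (t-m) ≤ 0`).
Intermediate value theorem (`intermediate_value_Icc`).
PROOF of `gib_asym`.  `G = log (R/K) = log R - log K`.  (F3) gives `(1-η) ℒ ≤ G ≤ ℒ` for large `n` (`log (a/9) ≥ log (1/K1)`).  The equation gives
`(1+G) m ≤ t - log N_t + ℒ ≤ (2/B - 1/2) ℒ + log (32 L)`, so `m ≤ 2/B - 1/2 + η` for large `n` (use (F3) with a smaller `η`; `2/B - 1/2 > 0`).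
`t - m ≥ (2/B) ℒ - C' log L ≥ (2/B - η) ℒ`, and `1 + G ≤ 1 + ℒ ≤ (B/2 + η)((2/B) ℒ - C' log L) ≤ (B/2 + η)(t - m)` for large `n`.
-/

set_option autoImplicit false

namespace Pool.Agent.CHP

open Finset Filter Pool.Agent.CHV

private theorem facts {p : ℝ} (h0 : 0 < p) (h1 : p < 1) (hB : -Real.log (1 - p) ≤ 2) {ε : ℝ}
    (hε : 0 < ε) {δ : ℝ} (hδ : 0 < δ) (T : ℝ) :
    ∀ᶠ n : ℕ in atTop, ∀ a : ℕ,
      (n : ℝ) ^ (1 / 2 : ℝ) ≤ mu p n a → mu p n a ≤ (n : ℝ) ^ (1 - ε) →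
      0 < n ∧ 2 ≤ a ∧ T ≤ Real.log n ∧ T ≤ ((a - 1 : ℕ) : ℝ) ∧
      (2 / (-Real.log (1 - p)) - δ) * Real.log n ≤ ((a - 1 : ℕ) : ℝ) ∧
      ((a - 1 : ℕ) : ℝ) ≤ 2 / (-Real.log (1 - p)) * Real.log n ∧
      Real.log (NN p n (a - 1)) ≤ (2 - ε) * Real.log n + 3 ∧
      (3 / 2 - δ) * Real.log n ≤ Real.log (NN p n (a - 1)) ∧
      0 < ((a - 1 : ℕ) : ℝ) * (1 / (1 - p)) ^ (a - 1 - 1) / n ∧
      (1 - δ) * Real.log n ≤ Real.log (((a - 1 : ℕ) : ℝ) * (1 / (1 - p)) ^ (a - 1 - 1) / n) ∧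
      Real.log (((a - 1 : ℕ) : ℝ) * (1 / (1 - p)) ^ (a - 1 - 1) / n) + T ≤ Real.log n ∧
      Real.log ((a - 1 : ℕ) : ℝ) ≤ δ * Real.log n := by
  have hBp : 0 < -Real.log (1 - p) := ell_pos h0 h1
  obtain ⟨C1, hC1, hloc⟩ := a_loc h0 h1 hB
  have hq : 0 < 1 - p := by linarith
  filter_upwards [hloc, mu_NN h0 h1 hB, NN_t h0 h1 hB, a_range h0 h1 hB,
    (tendsto_LL h0 h1).eventually_ge_atTop (2 * (C1 + 1) / (δ * (-Real.log (1 - p)))),
    (tendsto_LL h0 h1).eventually_ge_atTop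
      (2 * (Real.log 64 + (-Real.log (1 - p))) / (δ * (-Real.log (1 - p)))),
    (tendsto_LL h0 h1).eventually_ge_atTop (9 * Real.exp T),
    (tendsto_LL h0 h1).eventually_ge_atTop (T + 2),
    (tendsto_LL h0 h1).eventually_ge_atTop (T / (-Real.log (1 - p))),
    (tendsto_LL h0 h1).eventually_ge_atTop 2,
    log_LL_le h0 h1 (ε := δ * (-Real.log (1 - p)) ^ 2 / 4) (by positivity),
    log_LL_le h0 h1 (ε := δ * (-Real.log (1 - p)) / 2) (by positivity),
    eventually_gt_atTop 1] with n hl hmu hNt hra e1 e2 e3 e4 e5 e6 e7 e8 hn1 a ha1 ha2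
  have hn : (1 : ℝ) < n := by exact_mod_cast hn1
  have hnp : (0 : ℝ) < n := by linarith
  have hlog : 0 < Real.log n := Real.log_pos hn
  have hmulast : mu p n a < n := by
    refine lt_of_le_of_lt ha2 ?_
    have := Real.rpow_lt_rpow_of_exponent_lt hn (show (1 - ε) < 1 by linarith)
    rwa [Real.rpow_one] at this
  have hl := hl a ha1 hmulast
  obtain ⟨hmu1, hmu2⟩ := hmu a ha1 hmulast
  obtain ⟨hNt1, hNt2⟩ := hNt a ha1 hmulast
  obtain ⟨hr1, hr2, hr3, hr4⟩ := hra a ha1 hmulast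
  have hLn : -Real.log (1 - p) * LL p n = Real.log n := by
    unfold LL
    rw [mul_comm, div_mul_cancel₀ _ hBp.ne']
  have hBl : Real.log (1 / (1 - p)) = -Real.log (1 - p) := by
    rw [one_div, Real.log_inv]
  generalize LL p n = L at *
  have hb1 : 0 < 1 / (1 - p) := by positivity
  generalize hBB : -Real.log (1 - p) = B at *
  have hLp : 0 < L := by linarith
  have ha3 : (3 : ℝ) ≤ a := by linarith
  have ha3' : 3 ≤ a := by exact_mod_cast ha3
  have hap : (0 : ℝ) < a := by linarith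
  have hta : ((a - 1 : ℕ) : ℝ) = a - 1 := by
    rw [Nat.cast_sub (by omega), Nat.cast_one]
  have hbpow : (1 / (1 - p)) ^ (a - 1) = (1 / (1 - p)) ^ (a - 1 - 1) * (1 / (1 - p)) := by
    rw [← pow_succ]
    congr 1
    omega
  have hbp : 0 < (1 / (1 - p)) ^ (a - 1 - 1) := by positivity
  -- logs
  have hloga : Real.log a ≤ Real.log 2 + Real.log L := by
    rw [← Real.log_mul (by norm_num) hLp.ne']
    exact Real.log_le_log hap hr2
  have hlogt : Real.log (a - 1) ≤ Real.log a := Real.log_le_log (by linarith) (by linarith)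
  have hlogt' : Real.log a - Real.log 2 ≤ Real.log (a - 1) := by
    rw [← Real.log_div hap.ne' (by norm_num)]
    exact Real.log_le_log (by positivity) (by linarith)
  have h64 : Real.log 64 = 6 * Real.log 2 := by
    rw [show (64 : ℝ) = 2 ^ 6 by norm_num, Real.log_pow]
    norm_num
  have h16 : Real.log 16 = 4 * Real.log 2 := by
    rw [show (16 : ℝ) = 2 ^ 4 by norm_num, Real.log_pow]
    norm_num
  have h2p : 0 < Real.log 2 := Real.log_pos (by norm_num)
  have hlogb1 : Real.log ((1 / (1 - p)) ^ (a - 1)) =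
      Real.log ((1 / (1 - p)) ^ (a - 1 - 1)) + B := by
    rw [hbpow, Real.log_mul hbp.ne' hb1.ne', hBl]
  have hlogb2 : 2 * Real.log n - 4 * Real.log 2 - 2 * Real.log a ≤
      Real.log ((1 / (1 - p)) ^ (a - 1)) := by
    have := Real.log_le_log (by positivity) hr3
    rw [Real.log_div (by positivity) (by positivity), Real.log_mul (by norm_num) (by positivity),
      Real.log_pow (n : ℝ) 2, Real.log_pow (a : ℝ) 2, h16] at this
    push_cast at this
    linarith
  have hlogb3 : Real.log ((1 / (1 - p)) ^ (a - 1)) ≤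
      Real.log 9 + 2 * Real.log n - 2 * Real.log a := by
    have := Real.log_le_log (by positivity) hr4
    rw [Real.log_div (by positivity) (by positivity), Real.log_mul (by norm_num) (by positivity),
      Real.log_pow (n : ℝ) 2, Real.log_pow (a : ℝ) 2] at this
    norm_num at this ⊢
    linarith
  have hR : 0 < ((a - 1 : ℕ) : ℝ) * (1 / (1 - p)) ^ (a - 1 - 1) / n := by
    rw [hta]
    have : (0 : ℝ) < (a : ℝ) - 1 := by linarith
    positivity
  have hlogR : Real.log (((a - 1 : ℕ) : ℝ) * (1 / (1 - p)) ^ (a - 1 - 1) / n) =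
      Real.log (a - 1) + Real.log ((1 / (1 - p)) ^ (a - 1 - 1)) - Real.log n := by
    rw [hta, Real.log_div (mul_pos (by linarith) hbp).ne' hnp.ne',
      Real.log_mul (by linarith) hbp.ne']
  have hc1 : C1 + 1 ≤ δ * B * L / 2 := by
    rw [div_le_iff₀ (by positivity)] at e1
    linarith
  have hc2 : Real.log 64 + B ≤ δ * B * L / 2 := by
    rw [div_le_iff₀ (by positivity)] at e2
    linarith
  have hNa : 0 < NN p n a := by
    have : 0 < (n : ℝ) ^ (1 / 2 : ℝ) := Real.rpow_pos_of_pos hnp _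
    linarith
  have hmup : 0 < mu p n a := by
    have : 0 < (n : ℝ) ^ (1 / 2 : ℝ) := Real.rpow_pos_of_pos hnp _
    linarith
  have hNtp : 0 < NN p n (a - 1) := lt_of_lt_of_le (by positivity) hNt1
  rw [hlogR, hta]
  refine ⟨by omega, by omega, ?_, by linarith, ?_, ?_, ?_, ?_, by rwa [hta] at hR, ?_, ?_, ?_⟩
  · rw [div_le_iff₀ hBp] at e5
    linarith
  · have h3 := (abs_le.1 hl).1
    have h4 : 2 * (Real.log L / B) ≤ δ * B * L / 2 := by
      rw [← mul_div_assoc, div_le_iff₀ hBp]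
      calc 2 * Real.log L ≤ 2 * (δ * B ^ 2 / 4 * L) := by linarith
        _ = δ * B * L / 2 * B := by ring
    have h5 : (2 / B - δ) * Real.log n = 2 * L - δ * B * L := by
      rw [← hLn]
      field_simp
    rw [h5]
    linarith
  · have h5 : 2 / B * Real.log n = 2 * L := by
      rw [← hLn]
      field_simp
    rw [h5]
    linarith
  · have h3 : NN p n (a - 1) ≤ 18 * ((n : ℝ) ^ (1 - ε) * n) := by
      calc NN p n (a - 1) ≤ NN p n a * (9 * n / a) := hNt2
        _ ≤ (2 * (n : ℝ) ^ (1 - ε)) * (9 * n / 1) := by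
          apply mul_le_mul (by linarith) _ (by positivity) (by positivity)
          apply div_le_div_of_nonneg_left (by positivity) (by norm_num) (by linarith)
        _ = 18 * ((n : ℝ) ^ (1 - ε) * n) := by ring
    have h4 := Real.log_le_log hNtp h3
    rw [Real.log_mul (by norm_num) (by positivity), Real.log_mul (by positivity) hnp.ne',
      Real.log_rpow hnp] at h4
    have h5 : Real.log 18 ≤ 3 := by
      rw [Real.log_le_iff_le_exp (by norm_num)]
      have h6 := Real.exp_one_gt_d9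
      have h7 : Real.exp 3 = Real.exp 1 ^ 3 := by
        rw [← Real.exp_nat_mul]
        norm_num
      rw [h7]
      calc (18 : ℝ) ≤ 2.7 ^ 3 := by norm_num
        _ ≤ Real.exp 1 ^ 3 := by
          apply pow_le_pow_left₀ (by norm_num)
          linarith
    linarith
  · have h3 : (n : ℝ) ^ (1 / 2 : ℝ) * n / (16 * a) ≤ NN p n (a - 1) := by
      calc (n : ℝ) ^ (1 / 2 : ℝ) * n / (16 * a) = (n : ℝ) ^ (1 / 2 : ℝ) * (n / (16 * a)) := by ring
        _ ≤ NN p n a * (n / (16 * a)) := by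
          apply mul_le_mul_of_nonneg_right _ (by positivity)
          linarith
        _ ≤ _ := hNt1
    have h4 := Real.log_le_log (by positivity) h3
    rw [Real.log_div (by positivity) (by positivity), Real.log_mul (by positivity) hnp.ne',
      Real.log_rpow hnp, Real.log_mul (by norm_num) hap.ne', h16] at h4
    have h5 : (3 / 2 - δ) * Real.log n = 3 / 2 * Real.log n - δ * B * L := by
      rw [← hLn]
      ring
    rw [h5]
    linarith
  · have h5 : (1 - δ) * Real.log n = Real.log n - δ * B * L := by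
      rw [← hLn]
      ring
    rw [h5]
    linarith
  · have h6 : Real.log 9 + T ≤ Real.log a := by
      have h7 : Real.log (9 * Real.exp T) = Real.log 9 + T := by
        rw [Real.log_mul (by norm_num) (Real.exp_pos T).ne', Real.log_exp]
      rw [← h7]
      apply Real.log_le_log (by positivity)
      linarith
    linarith
  · have h5 : δ * Real.log n = δ * B * L := by
      rw [← hLn]
      ring
    rw [h5]
    linarith

theorem gibbs_exists {p : ℝ} (h0 : 0 < p) (h1 : p < 1) (hB : -Real.log (1 - p) ≤ 2) {ε : ℝ}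
    (hε : 0 < ε) :
    ∃ K1 K2 : ℝ, 0 < K1 ∧ K1 ≤ K2 ∧ ∀ᶠ n : ℕ in atTop, ∀ a : ℕ,
      (n : ℝ) ^ (1 / 2 : ℝ) ≤ mu p n a → mu p n a ≤ (n : ℝ) ^ (1 - ε) →
      ∃ K : ℝ, K1 ≤ K ∧ K ≤ K2 ∧ gm (1 / (1 - p)) (a - 1) K < ((a - 1 : ℕ) : ℝ) ∧
        (1 + Real.log (((a - 1 : ℕ) : ℝ) * (1 / (1 - p)) ^ (a - 1 - 1) / n / K)) *
            gm (1 / (1 - p)) (a - 1) K =
          ((a - 1 : ℕ) : ℝ) - 1 - Real.log (NN p n (a - 1)) + Real.log n -
            Real.log (gW (1 / (1 - p)) (a - 1) K) -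
            Real.log (((a - 1 : ℕ) : ℝ) - gm (1 / (1 - p)) (a - 1) K) := by
  have hBp : 0 < -Real.log (1 - p) := ell_pos h0 h1
  have hq : 0 < 1 - p := by linarith
  have hb : 1 < 1 / (1 - p) := by
    rw [lt_div_iff₀ hq]
    linarith
  obtain ⟨K1, hK1, hK1', hs⟩ := gm_small hb (η := ε / 4) (by positivity)
  obtain ⟨K2, hK2, hl⟩ := gm_large hb (2 / (-Real.log (1 - p)))
  obtain ⟨C, hC, hW⟩ := gw_exp hb K2
  refine ⟨K1, K2, hK1, by linarith, ?_⟩
  obtain ⟨T0, hT0⟩ := eventually_atTop.1 hl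
  have hδ1 : 0 < 1 / (4 * (1 + 2 / (-Real.log (1 - p)))) := by positivity
  have hlK1 : Real.log K1 ≤ 0 := Real.log_nonpos hK1.le hK1'
  have hlK2 : 0 ≤ Real.log K2 := Real.log_nonneg hK2
  filter_upwards [facts h0 h1 hB hε
    (δ := min (ε / 8) (1 / (4 * (1 + 2 / (-Real.log (1 - p))))))
    (lt_min (by positivity) hδ1)
    ((2 / ε) * |(1 - Real.log K1) * ε / 4 + 4 + Real.log C| + 1 +
      8 / (-Real.log (1 - p)) * Real.log K2 + 2 * Real.log K2 + T0 + C)] with n hf a ha1 ha2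
  obtain ⟨hn, ha, f1, f2, f3, f4, f5, f6, f7, f8, f9, f10⟩ := hf a ha1 ha2
  have hd1 : min (ε / 8) (1 / (4 * (1 + 2 / (-Real.log (1 - p))))) ≤ ε / 8 := min_le_left _ _
  have hd2 : min (ε / 8) (1 / (4 * (1 + 2 / (-Real.log (1 - p))))) ≤
    1 / (4 * (1 + 2 / (-Real.log (1 - p)))) := min_le_right _ _
  have hd0 : 0 < min (ε / 8) (1 / (4 * (1 + 2 / (-Real.log (1 - p))))) :=
    lt_min (by positivity) hδ1
  generalize min (ε / 8) (1 / (4 * (1 + 2 / (-Real.log (1 - p))))) = δ at *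
  have hB1 : 1 ≤ 2 / (-Real.log (1 - p)) := by
    rw [le_div_iff₀ hBp]
    linarith
  have hd3 : δ * (1 + 2 / (-Real.log (1 - p))) ≤ 1 / 4 := by
    rw [le_div_iff₀ (by positivity)] at hd2
    linarith
  have hB8 : 8 / (-Real.log (1 - p)) = 4 * (2 / (-Real.log (1 - p))) := by ring
  rw [hB8] at f1 f2 f9
  generalize 2 / (-Real.log (1 - p)) = β at *
  have hn' : (0 : ℝ) < n := by exact_mod_cast hn
  have ht1 : 1 ≤ a - 1 := by omega
  have hT0' : T0 ≤ a - 1 := by
    have h3 : (T0 : ℝ) ≤ ((a - 1 : ℕ) : ℝ) := by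
      have h4 : 0 ≤ (2 / ε) * |(1 - Real.log K1) * ε / 4 + 4 + Real.log C| := by positivity
      have h5 : 0 ≤ 4 * β * Real.log K2 := by positivity
      linarith
    exact_mod_cast h3
  have hm2 := hT0 (a - 1) hT0'
  have hm1 := hs (a - 1) ht1
  have htC : C + 1 ≤ ((a - 1 : ℕ) : ℝ) := by
    have h4 : 0 ≤ (2 / ε) * |(1 - Real.log K1) * ε / 4 + 4 + Real.log C| := by positivity
    have h5 : 0 ≤ 4 * β * Real.log K2 := by positivity
    have h6 : (0 : ℝ) ≤ T0 := Nat.cast_nonneg T0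
    linarith
  have hl1 : (1 - Real.log K1) * ε / 4 + 4 + Real.log C + ε / 2 ≤ ε / 2 * Real.log n := by
    have h5 : 0 ≤ 4 * β * Real.log K2 := by positivity
    have h6 : (0 : ℝ) ≤ T0 := Nat.cast_nonneg T0
    have h7 : (2 / ε) * |(1 - Real.log K1) * ε / 4 + 4 + Real.log C| + 1 ≤ Real.log n := by
      linarith
    have h8 := mul_le_mul_of_nonneg_left h7 (show 0 ≤ ε / 2 by positivity)
    have h9 : ε / 2 * ((2 / ε) * |(1 - Real.log K1) * ε / 4 + 4 + Real.log C| + 1) =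
        |(1 - Real.log K1) * ε / 4 + 4 + Real.log C| + ε / 2 := by
      field_simp
    have h10 := le_abs_self ((1 - Real.log K1) * ε / 4 + 4 + Real.log C)
    linarith
  have hl2 : 4 * β * Real.log K2 ≤ Real.log n ∧ 2 * Real.log K2 ≤ Real.log n ∧
      0 < Real.log n := by
    have h4 : 0 ≤ (2 / ε) * |(1 - Real.log K1) * ε / 4 + 4 + Real.log C| := by positivity
    have h5 : 0 ≤ 4 * β * Real.log K2 := by positivity
    have h6 : (0 : ℝ) ≤ T0 := Nat.cast_nonneg T0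
    refine ⟨by linarith, by linarith, by linarith⟩
  obtain ⟨hl2, hl3, hl4⟩ := hl2
  have hRn : Real.log (((a - 1 : ℕ) : ℝ) * (1 / (1 - p)) ^ (a - 1 - 1) / n) ≤ Real.log n := by
    have h4 : 0 ≤ (2 / ε) * |(1 - Real.log K1) * ε / 4 + 4 + Real.log C| := by positivity
    have h5 : 0 ≤ 4 * β * Real.log K2 := by positivity
    have h6 : (0 : ℝ) ≤ T0 := Nat.cast_nonneg T0
    linarith
  clear f1 f2 f9
  generalize ((a - 1 : ℕ) : ℝ) * (1 / (1 - p)) ^ (a - 1 - 1) / n = R at *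
  have hlogt : ∀ K, 0 < K → K ≤ K2 → 1 ≤ ((a - 1 : ℕ) : ℝ) - gm (1 / (1 - p)) (a - 1) K := by
    intro K hK hKK
    have := (hW (a - 1) ht1 K hK hKK).2.2
    linarith
  have hcont : ContinuousOn (fun K : ℝ => (1 + Real.log (R / K)) * gm (1 / (1 - p)) (a - 1) K -
      (((a - 1 : ℕ) : ℝ) - 1 - Real.log (NN p n (a - 1)) + Real.log n -
            Real.log (gW (1 / (1 - p)) (a - 1) K) -
            Real.log (((a - 1 : ℕ) : ℝ) - gm (1 / (1 - p)) (a - 1) K))) (Set.Icc K1 K2) := by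
    have hpos : ∀ K ∈ Set.Icc K1 K2, 0 < K := fun K hK => lt_of_lt_of_le hK1 hK.1
    have hg : ContinuousOn (fun K => gm (1 / (1 - p)) (a - 1) K) (Set.Icc K1 K2) :=
      (gm_cont hb ht1).mono hpos
    have hg2 : ContinuousOn (fun K : ℝ => Real.log (R / K)) (Set.Icc K1 K2) := by
      apply ContinuousOn.log
      · exact continuousOn_const.div continuousOn_id (fun K hK => (hpos K hK).ne')
      · intro K hK
        exact (div_pos f7 (hpos K hK)).ne'
    have hg3 : ContinuousOn (fun K : ℝ => Real.log (gW (1 / (1 - p)) (a - 1) K))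
        (Set.Icc K1 K2) := by
      apply ContinuousOn.log (gW_cont hb ht1).continuousOn
      intro K hK
      have := gW_ge hb ht1 (hpos K hK)
      linarith
    have hg4 : ContinuousOn (fun K : ℝ =>
        Real.log (((a - 1 : ℕ) : ℝ) - gm (1 / (1 - p)) (a - 1) K)) (Set.Icc K1 K2) := by
      apply ContinuousOn.log (continuousOn_const.sub hg)
      intro K hK h0'
      have := hlogt K (hpos K hK) hK.2
      simp only [Pi.sub_apply] at h0'
      linarith
    exact ((continuousOn_const.add hg2).mul hg).sub (((continuousOn_const).sub hg3).sub hg4)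
  have hE := intermediate_value_Icc (show K1 ≤ K2 by linarith) hcont
  have hG1 : 0 ≤ Real.log (R / K1) := by
    rw [Real.log_div f7.ne' hK1.ne']
    have : 0 ≤ (1 - δ) * Real.log n := by
      apply mul_nonneg _ hl4.le
      nlinarith
    linarith
  have hE1 : (1 + Real.log (R / K1)) * gm (1 / (1 - p)) (a - 1) K1 -
      (((a - 1 : ℕ) : ℝ) - 1 - Real.log (NN p n (a - 1)) + Real.log n -
            Real.log (gW (1 / (1 - p)) (a - 1) K1) -
            Real.log (((a - 1 : ℕ) : ℝ) - gm (1 / (1 - p)) (a - 1) K1)) ≤ 0 := by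
    have hgmpos := gm_pos hb ht1 hK1
    have h3 : (1 + Real.log (R / K1)) * gm (1 / (1 - p)) (a - 1) K1 ≤
        (1 + Real.log n - Real.log K1) * (ε / 4) := by
      apply mul_le_mul _ hm1 hgmpos.le
      · linarith
      · rw [Real.log_div f7.ne' hK1.ne']
        linarith
    have h4 : Real.log (gW (1 / (1 - p)) (a - 1) K1) ≤ Real.log C := by
      apply Real.log_le_log
      · have := gW_ge hb ht1 hK1
        linarith
      · exact (hW (a - 1) ht1 K1 hK1 (by linarith)).2.1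
    have h5 : Real.log (((a - 1 : ℕ) : ℝ) - gm (1 / (1 - p)) (a - 1) K1) ≤ δ * Real.log n := by
      refine le_trans (Real.log_le_log ?_ ?_) f10
      · have := hlogt K1 hK1 (by linarith)
        linarith
      · linarith
    have h6 : Real.log n ≤ β * Real.log n := by nlinarith
    have h7 : δ * Real.log n ≤ ε / 8 * Real.log n := mul_le_mul_of_nonneg_right hd1 hl4.le
    nlinarith
  have hE2 : 0 ≤ (1 + Real.log (R / K2)) * gm (1 / (1 - p)) (a - 1) K2 -
      (((a - 1 : ℕ) : ℝ) - 1 - Real.log (NN p n (a - 1)) + Real.log n -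
            Real.log (gW (1 / (1 - p)) (a - 1) K2) -
            Real.log (((a - 1 : ℕ) : ℝ) - gm (1 / (1 - p)) (a - 1) K2)) := by
    have hK2p : 0 < K2 := by linarith
    have hδ2 : δ ≤ 1 / 4 := by nlinarith
    have h8 : (1 - δ) * Real.log n - Real.log K2 ≤ Real.log (R / K2) := by
      rw [Real.log_div f7.ne' hK2p.ne']
      linarith
    have h9 : 0 ≤ (1 - δ) * Real.log n - Real.log K2 := by nlinarith
    have h3 : (1 + ((1 - δ) * Real.log n - Real.log K2)) * β ≤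
        (1 + Real.log (R / K2)) * gm (1 / (1 - p)) (a - 1) K2 := by
      apply mul_le_mul (by linarith) hm2 (by linarith) (by linarith)
    have h4 : 0 ≤ Real.log (gW (1 / (1 - p)) (a - 1) K2) := Real.log_nonneg (gW_ge hb ht1 hK2p)
    have h5 : 0 ≤ Real.log (((a - 1 : ℕ) : ℝ) - gm (1 / (1 - p)) (a - 1) K2) :=
      Real.log_nonneg (hlogt K2 hK2p le_rfl)
    have h6 : δ * (1 + β) * Real.log n ≤ 1 / 4 * Real.log n :=
      mul_le_mul_of_nonneg_right hd3 hl4.le
    nlinarith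
  obtain ⟨K, hK, hK0⟩ := hE ⟨hE1, hE2⟩
  have hKp : 0 < K := lt_of_lt_of_le hK1 hK.1
  refine ⟨K, hK.1, hK.2, ?_, ?_⟩
  · have := hlogt K hKp hK.2
    linarith
  · simp only at hK0
    linarith

theorem gib_asym {p : ℝ} (h0 : 0 < p) (h1 : p < 1) (hB : -Real.log (1 - p) ≤ 2) {ε : ℝ}
    (hε : 0 < ε) {K1 K2 : ℝ} (hK1 : 0 < K1) (hK2 : K1 ≤ K2) {η : ℝ} (hη : 0 < η) :
    ∀ᶠ n : ℕ in atTop, ∀ a : ℕ,
      (n : ℝ) ^ (1 / 2 : ℝ) ≤ mu p n a → mu p n a ≤ (n : ℝ) ^ (1 - ε) →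
      ∀ K : ℝ, K1 ≤ K → K ≤ K2 →
        (1 + Real.log (((a - 1 : ℕ) : ℝ) * (1 / (1 - p)) ^ (a - 1 - 1) / n / K)) *
            gm (1 / (1 - p)) (a - 1) K =
          ((a - 1 : ℕ) : ℝ) - 1 - Real.log (NN p n (a - 1)) + Real.log n -
            Real.log (gW (1 / (1 - p)) (a - 1) K) -
            Real.log (((a - 1 : ℕ) : ℝ) - gm (1 / (1 - p)) (a - 1) K) →
        gm (1 / (1 - p)) (a - 1) K ≤ 2 / (-Real.log (1 - p)) - 1 / 2 + η ∧
        (1 - η) * Real.log n ≤
          Real.log (((a - 1 : ℕ) : ℝ) * (1 / (1 - p)) ^ (a - 1 - 1) / n / K) ∧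
        Real.log (((a - 1 : ℕ) : ℝ) * (1 / (1 - p)) ^ (a - 1 - 1) / n / K) ≤ Real.log n ∧
        1 + Real.log (((a - 1 : ℕ) : ℝ) * (1 / (1 - p)) ^ (a - 1 - 1) / n / K) ≤
          (-Real.log (1 - p) / 2 + η) * (((a - 1 : ℕ) : ℝ) - gm (1 / (1 - p)) (a - 1) K) ∧
        (2 / (-Real.log (1 - p)) - η) * Real.log n ≤
          ((a - 1 : ℕ) : ℝ) - gm (1 / (1 - p)) (a - 1) K := by
  have hBp : 0 < -Real.log (1 - p) := ell_pos h0 h1
  have hq : 0 < 1 - p := by linarith
  have hb : 1 < 1 / (1 - p) := by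
    rw [lt_div_iff₀ hq]
    linarith
  have hK2p : 0 < K2 := by linarith
  obtain ⟨C, hC, hW⟩ := gw_exp hb K2
  have hδ1 : 0 < η / (4 + 4 / (-Real.log (1 - p)) + 4 * η) := by positivity
  filter_upwards [facts h0 h1 hB hε (δ := η / (4 + 4 / (-Real.log (1 - p)) + 4 * η)) hδ1
    (|Real.log K1| + |Real.log K2| / (η / (4 + 4 / (-Real.log (1 - p)) + 4 * η)) +
      C / (η / (4 + 4 / (-Real.log (1 - p)) + 4 * η)) + 2 / η + C + 1)] with n hf a ha1 ha2 K hKa hKb
      heq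
  obtain ⟨hn, ha, f1, f2, f3, f4, f5, f6, f7, f8, f9, f10⟩ := hf a ha1 ha2
  have hKp : 0 < K := by linarith
  have ht1 : 1 ≤ a - 1 := by omega
  have hd0 : η / (4 + 4 / (-Real.log (1 - p)) + 4 * η) * (4 + 4 / (-Real.log (1 - p)) + 4 * η) =
      η := div_mul_cancel₀ _ (by positivity)
  generalize η / (4 + 4 / (-Real.log (1 - p)) + 4 * η) = δ at *
  have hB1 : 1 ≤ 2 / (-Real.log (1 - p)) := by
    rw [le_div_iff₀ hBp]
    linarith
  have hBβ : -Real.log (1 - p) * (2 / (-Real.log (1 - p))) = 2 := by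
    rw [mul_comm, div_mul_cancel₀ _ hBp.ne']
  have hB4 : 4 / (-Real.log (1 - p)) = 2 * (2 / (-Real.log (1 - p))) := by ring
  rw [hB4] at hd0
  generalize 2 / (-Real.log (1 - p)) = β at *
  generalize -Real.log (1 - p) = B at *
  have g1 : 0 ≤ |Real.log K2| / δ := by positivity
  have g2 : 0 ≤ C / δ := by positivity
  have g3 : 0 ≤ 2 / η := by positivity
  have g4 : 0 ≤ |Real.log K1| := abs_nonneg _
  have htC : C + 1 ≤ ((a - 1 : ℕ) : ℝ) := by linarith
  have hl1 : |Real.log K2| ≤ δ * Real.log n := by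
    have : |Real.log K2| / δ ≤ Real.log n := by linarith
    rwa [div_le_iff₀' hδ1] at this
  have hl2 : C ≤ δ * Real.log n := by
    have : C / δ ≤ Real.log n := by linarith
    rwa [div_le_iff₀' hδ1] at this
  have hl3 : 2 ≤ η * Real.log n := by
    have : 2 / η ≤ Real.log n := by linarith
    rwa [div_le_iff₀' hη] at this
  have hl4 : 0 < Real.log n := by linarith
  have hRn : Real.log (((a - 1 : ℕ) : ℝ) * (1 / (1 - p)) ^ (a - 1 - 1) / n) + |Real.log K1| ≤
      Real.log n := by linarith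
  clear f1 f2 f9
  generalize ((a - 1 : ℕ) : ℝ) * (1 / (1 - p)) ^ (a - 1 - 1) / n = R at *
  have hWK := hW (a - 1) ht1 K hKp hKb
  have hm0 := gm_pos hb ht1 hKp
  have hmC := hWK.2.2
  have hW1 := gW_ge hb ht1 hKp
  have hlK1 : Real.log K1 ≤ Real.log K := Real.log_le_log hK1 hKa
  have hlK2 : Real.log K ≤ Real.log K2 := Real.log_le_log hKp hKb
  have hG : Real.log (R / K) = Real.log R - Real.log K := Real.log_div f7.ne' hKp.ne'
  have hδη : 4 * δ ≤ η := by nlinarith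
  have hδ4 : 4 * δ ≤ 1 := by nlinarith
  have hlogW : 0 ≤ Real.log (gW (1 / (1 - p)) (a - 1) K) := Real.log_nonneg hW1
  have hlogt : 0 ≤ Real.log (((a - 1 : ℕ) : ℝ) - gm (1 / (1 - p)) (a - 1) K) :=
    Real.log_nonneg (by linarith)
  generalize gm (1 / (1 - p)) (a - 1) K = m at *
  generalize Real.log (R / K) = G at *
  have hG1 : (1 - 2 * δ) * Real.log n ≤ G := by
    have := le_abs_self (Real.log K2)
    linarith
  have hG2 : G ≤ Real.log n := by
    have := neg_abs_le (Real.log K1)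
    linarith
  have hηl : 4 * δ * Real.log n ≤ η * Real.log n := mul_le_mul_of_nonneg_right hδη hl4.le
  have htm : (β - 2 * δ) * Real.log n ≤ ((a - 1 : ℕ) : ℝ) - m := by linarith
  refine ⟨?_, by linarith, hG2, ?_, by linarith⟩
  · have h3 : (1 + G) * m ≤ (β - 1 / 2 + δ) * Real.log n := by
      rw [heq]
      linarith
    have h4 : (1 - 2 * δ) * Real.log n * m ≤ (1 + G) * m :=
      mul_le_mul_of_nonneg_right (by linarith) hm0.le
    have h5 : (1 - 2 * δ) * m ≤ β - 1 / 2 + δ := by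
      have h6 : ((1 - 2 * δ) * m) * Real.log n ≤ (β - 1 / 2 + δ) * Real.log n := by
        calc ((1 - 2 * δ) * m) * Real.log n = (1 - 2 * δ) * Real.log n * m := by ring
          _ ≤ _ := h4.trans h3
      exact le_of_mul_le_mul_right h6 hl4
    have h7 : β - 1 / 2 + δ ≤ (1 - 2 * δ) * (β - 1 / 2 + η) := by nlinarith
    exact le_of_mul_le_mul_left (h5.trans h7) (by linarith)
  · have h3 : (B / 2 + η) * ((β - 2 * δ) * Real.log n) ≤
        (B / 2 + η) * (((a - 1 : ℕ) : ℝ) - m) :=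
      mul_le_mul_of_nonneg_left htm (by positivity)
    have h4 : (B / 2 + η) * (β - 2 * δ) = 1 + η * β - δ * (B + 2 * η) := by
      linear_combination hBβ / 2
    have h5 : δ * (B + 2 * η) ≤ η / 2 := by nlinarith
    have h6 : η ≤ η * β := by nlinarith
    have h7 : (1 + η / 2) * Real.log n ≤ (B / 2 + η) * (β - 2 * δ) * Real.log n := by
      apply mul_le_mul_of_nonneg_right _ hl4.le
      rw [h4]
      linarith
    calc 1 + G ≤ 1 + Real.log n := by linarith
      _ ≤ (1 + η / 2) * Real.log n := by linarith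
      _ ≤ (B / 2 + η) * (β - 2 * δ) * Real.log n := h7
      _ = (B / 2 + η) * ((β - 2 * δ) * Real.log n) := by ring
      _ ≤ _ := h3

end Pool.Agent.CHP
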