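import Pool.Agent.CHP.Defs

/-!
# CHP / IfA: log-concave sequences have decreasing mean residual life

`w 0, .., w t > 0` log-concave, `Z j = ∑ i ∈ Icc j t, w i`, `M j = ∑ i ∈ Icc j t, (i - j) w i`.
PROOFS.  `lc_pair`: `w j * w (j+l+m) ≤ w (j+l) * w (j+m)` for `j + l + m ≤ t`: the ratios `w (i+1)/w i` are nonincreasing, so
`w (j+l+m)/w (j+m) ≤ w (j+l)/w j` (induction on `l`).
`ifr_core`: `w j * M j = ∑_{s=1}^{t-j} s w j w (j+s)`, and `Z (j+1) * Z j ≥ ∑_{(l,m), 1 ≤ l, 0 ≤ m, l+m ≤ t-j} w (j+l) w (j+m)`; for every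
`s` there are exactly `s` pairs `(l, m)` with `l + m = s`, `l ≥ 1`, `m ≥ 0`, each contributing at least `w j w (j+s)`.
An alternative by downward induction on `j`: with `m_j = M j/Z j`, `r_j = w j/Z j`: `Z (j+1) = Z j - w j`, `M j = M (j+1) + Z (j+1)`; the claim at
`j` is `w j (M (j+1) + Z (j+1)) ≤ Z (j+1) Z j`, i.e. `w j M (j+1) ≤ Z (j+1)^2`; and `w j * w (j+1+s) ≤ w (j+1) * w (j+s)` etc.
`mrl_le`: `M (j+1) * Z j ≤ M j * Z (j+1)`: `M j Z (j+1) - M (j+1) Z j = (M (j+1) + Z (j+1)) Z (j+1) - M (j+1) (Z (j+1) + w j)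
= Z (j+1)^2 - w j M (j+1) ≥ 0` by `ifr_core` (`w j M j = w j M (j+1) + w j Z (j+1) ≤ Z (j+1) Z j = Z (j+1)^2 + w j Z (j+1)`).
-/

set_option autoImplicit false

namespace Pool.Agent.CHP

open Finset

/-- Tail sums. -/
noncomputable def Zt (w : ℕ → ℝ) (t j : ℕ) : ℝ := ∑ i ∈ Icc j t, w i

/-- First moments of the tails. -/
noncomputable def Mt (w : ℕ → ℝ) (t j : ℕ) : ℝ := ∑ i ∈ Icc j t, ((i : ℝ) - j) * w i

private theorem lc_one {w : ℕ → ℝ} {t : ℕ} (hw : ∀ i ≤ t, 0 < w i)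
    (hlc : ∀ i, i + 2 ≤ t → w i * w (i + 2) ≤ w (i + 1) ^ 2) (j m : ℕ) (h : j + m + 1 ≤ t) :
    w j * w (j + m + 1) ≤ w (j + 1) * w (j + m) := by
  induction m with
  | zero => rw [add_zero, mul_comm]
  | succ m ih =>
    have h1 := ih (by omega)
    have h2 := hlc (j + m) (by omega)
    have p1 := hw (j + m) (by omega)
    have p2 := hw (j + m + 1) (by omega)
    have p3 := hw (j + 1) (by omega)
    have p4 := hw j (by omega)
    have p5 := hw (j + m + 2) (by omega)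
    have e1 : j + (m + 1) + 1 = j + m + 2 := by omega
    have e2 : j + (m + 1) = j + m + 1 := by omega
    rw [e1, e2]
    have h3 : (w j * w (j + m + 1)) * (w (j + m) * w (j + m + 2)) ≤
        (w (j + 1) * w (j + m)) * (w (j + m + 1) ^ 2) :=
      mul_le_mul h1 h2 (mul_pos p1 p5).le (mul_pos p3 p1).le
    have h4 : (w (j + m) * w (j + m + 1)) * (w j * w (j + m + 2)) ≤
        (w (j + m) * w (j + m + 1)) * (w (j + 1) * w (j + m + 1)) := by
      refine le_trans (le_of_eq ?_) (le_trans h3 (le_of_eq ?_)) <;> ring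
    exact le_of_mul_le_mul_left h4 (mul_pos p1 p2)

theorem lc_pair {w : ℕ → ℝ} {t : ℕ} (hw : ∀ i ≤ t, 0 < w i)
    (hlc : ∀ i, i + 2 ≤ t → w i * w (i + 2) ≤ w (i + 1) ^ 2) (j l m : ℕ) (h : j + l + m ≤ t) :
    w j * w (j + l + m) ≤ w (j + l) * w (j + m) := by
  induction l with
  | zero => rw [add_zero]
  | succ l ih =>
    have h1 := ih (by omega)
    have h2 := lc_one hw hlc (j + l) m (by omega)
    have p1 := hw (j + l) (by omega)
    have p2 := hw (j + l + m) (by omega)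
    have p3 := hw (j + l + 1) (by omega)
    have p4 := hw j (by omega)
    have p5 := hw (j + m) (by omega)
    have p6 := hw (j + l + m + 1) (by omega)
    have e1 : j + (l + 1) + m = j + l + m + 1 := by omega
    have e2 : j + (l + 1) = j + l + 1 := by omega
    rw [e1, e2]
    have h3 : (w (j + l) * w (j + l + m + 1)) * (w j * w (j + l + m)) ≤
        (w (j + l + 1) * w (j + l + m)) * (w (j + l) * w (j + m)) :=
      mul_le_mul h2 h1 (mul_pos p4 p2).le (mul_pos p3 p2).le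
    have h4 : (w (j + l) * w (j + l + m)) * (w j * w (j + l + m + 1)) ≤
        (w (j + l) * w (j + l + m)) * (w (j + l + 1) * w (j + m)) := by
      refine le_trans (le_of_eq ?_) (le_trans h3 (le_of_eq ?_)) <;> ring
    exact le_of_mul_le_mul_left h4 (mul_pos p1 p2)

private theorem Icc_ins {t j : ℕ} (hj : j ≤ t) : Icc j t = insert j (Icc (j + 1) t) := by
  ext i
  rw [Finset.mem_insert, Finset.mem_Icc, Finset.mem_Icc]
  omega

private theorem Zt_succ' (w : ℕ → ℝ) {t j : ℕ} (hj : j ≤ t) : Zt w t j = w j + Zt w t (j + 1) := by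
  unfold Zt
  rw [Icc_ins hj, Finset.sum_insert]
  rw [Finset.mem_Icc]
  omega

private theorem Mt_succ' (w : ℕ → ℝ) {t j : ℕ} (hj : j ≤ t) :
    Mt w t j = Mt w t (j + 1) + Zt w t (j + 1) := by
  unfold Zt Mt
  rw [Icc_ins hj, Finset.sum_insert, sub_self, zero_mul, zero_add, ← Finset.sum_add_distrib]
  · refine Finset.sum_congr rfl fun i _ => ?_
    push_cast
    ring
  · rw [Finset.mem_Icc]
    omega

private theorem shift_le {w : ℕ → ℝ} {t : ℕ} (hw : ∀ i ≤ t, 0 < w i)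
    (hlc : ∀ i, i + 2 ≤ t → w i * w (i + 2) ≤ w (i + 1) ^ 2) {j k : ℕ} (hjk : j ≤ k) (hk : k + 1 ≤ t) :
    w j * Zt w t (k + 1) ≤ w (k + 1) * Zt w t j := by
  unfold Zt
  rw [Finset.mul_sum]
  have h1 : ∀ i ∈ Icc (k + 1) t, w j * w i ≤ w (k + 1) * w (i - (k + 1) + j) := by
    intro i hi
    rw [Finset.mem_Icc] at hi
    have h2 := lc_pair hw hlc j (k + 1 - j) (i - (k + 1)) (by omega)
    have e1 : j + (k + 1 - j) + (i - (k + 1)) = i := by omega
    have e2 : j + (k + 1 - j) = k + 1 := by omega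
    have e3 : j + (i - (k + 1)) = i - (k + 1) + j := by omega
    rwa [e1, e2, e3] at h2
  refine le_trans (Finset.sum_le_sum h1) ?_
  rw [← Finset.mul_sum]
  refine mul_le_mul_of_nonneg_left ?_ (hw _ hk).le
  have h3 : ∑ i ∈ Icc (k + 1) t, w (i - (k + 1) + j) =
      ∑ x ∈ (Icc (k + 1) t).image (fun i => i - (k + 1) + j), w x := by
    rw [Finset.sum_image]
    intro x hx y hy hxy
    rw [Finset.mem_coe, Finset.mem_Icc] at hx hy
    simp only at hxy
    omega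
  rw [h3]
  refine Finset.sum_le_sum_of_subset_of_nonneg ?_ ?_
  · intro x hx
    rw [Finset.mem_image] at hx
    obtain ⟨i, hi, rfl⟩ := hx
    rw [Finset.mem_Icc] at hi ⊢
    omega
  · intro x hx _
    rw [Finset.mem_Icc] at hx
    exact (hw x hx.2).le

private theorem core_aux {w : ℕ → ℝ} {t : ℕ} (hw : ∀ i ≤ t, 0 < w i)
    (hlc : ∀ i, i + 2 ≤ t → w i * w (i + 2) ≤ w (i + 1) ^ 2) (j : ℕ) (n : ℕ) :
    ∀ k, k + n = t → j ≤ k → w j * Mt w t k ≤ Zt w t (k + 1) * Zt w t j := by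
  induction n with
  | zero =>
    intro k hk _
    rw [add_zero] at hk
    subst hk
    have e1 : Mt w k k = 0 := by
      unfold Mt
      rw [Finset.Icc_self, Finset.sum_singleton, sub_self, zero_mul]
    have e2 : Zt w k (k + 1) = 0 := by
      unfold Zt
      rw [Finset.Icc_eq_empty (by omega), Finset.sum_empty]
    rw [e1, e2, mul_zero, zero_mul]
  | succ n ih =>
    intro k hk hjk
    have h1 := ih (k + 1) (by omega) (by omega)
    have h2 := shift_le hw hlc hjk (show k + 1 ≤ t by omega)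
    rw [Mt_succ' w (show k ≤ t by omega)]
    have h3 := Zt_succ' w (show k + 1 ≤ t by omega)
    calc w j * (Mt w t (k + 1) + Zt w t (k + 1)) = w j * Mt w t (k + 1) + w j * Zt w t (k + 1) := by ring
      _ ≤ Zt w t (k + 1 + 1) * Zt w t j + w (k + 1) * Zt w t j := add_le_add h1 h2
      _ = (w (k + 1) + Zt w t (k + 1 + 1)) * Zt w t j := by ring
      _ = Zt w t (k + 1) * Zt w t j := by rw [← h3]

theorem ifr_core {w : ℕ → ℝ} {t : ℕ} (hw : ∀ i ≤ t, 0 < w i)
    (hlc : ∀ i, i + 2 ≤ t → w i * w (i + 2) ≤ w (i + 1) ^ 2) (j : ℕ) (hj : j ≤ t) :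
    w j * Mt w t j ≤ Zt w t (j + 1) * Zt w t j := core_aux hw hlc j (t - j) j (by omega) le_rfl

theorem Zt_succ (w : ℕ → ℝ) {t j : ℕ} (hj : j ≤ t) : Zt w t j = w j + Zt w t (j + 1) := Zt_succ' w hj

theorem Mt_succ (w : ℕ → ℝ) {t j : ℕ} (hj : j ≤ t) :
    Mt w t j = Mt w t (j + 1) + Zt w t (j + 1) := Mt_succ' w hj

theorem mrl_le {w : ℕ → ℝ} {t : ℕ} (hw : ∀ i ≤ t, 0 < w i)
    (hlc : ∀ i, i + 2 ≤ t → w i * w (i + 2) ≤ w (i + 1) ^ 2) (j : ℕ) (hj : j ≤ t) :
    Mt w t (j + 1) * Zt w t j ≤ Mt w t j * Zt w t (j + 1) := by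
  have h1 := ifr_core hw hlc j hj
  rw [Mt_succ w hj, Zt_succ w hj] at h1 ⊢
  linarith

end Pool.Agent.CHP
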