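import Pool.Agent.CHP.IfA

/-!
# CHP / IfB: the tail inequality for log-concave distributions

PROOFS.  `x 0, .., x t > 0` is a log-concave probability distribution with mean `m > 0`; `ℓ = log (1 + 1/m) > 0`, `Z = Zt x t`, `M = Mt x t`, so
`Z 0 = 1`, `M 0 = m`.
`ifr_tail` (`j + 1 ≤ t`): put `E j = (∑ i ∈ Icc (j+1) t, x i (i - m)) / Z (j+1) = M (j+1)/Z (j+1) + (j+1) - m`.  Claim `ℓ E j ≤ log (1/Z (j+1))` by
induction on `j`, starting with `j = -1`: `E = 0 = log (1/Z 0)`.  Step: `E j - E (j-1) = M (j+1)/Z (j+1) + 1 - M j/Z j`; put `m_j = M j/Z j`,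
`o = x j/Z (j+1)`, so `Z j = (1 + o) Z (j+1)` (`Zt_succ`) and `m_j = (M (j+1) + Z (j+1))/Z j = (M (j+1)/Z (j+1) + 1)/(1 + o)` (`Mt_succ`), so
`E j - E (j-1) = (1 + o) m_j - m_j = o m_j`.  `ifr_core`: `x j M j ≤ Z (j+1) Z j`, i.e. `o m_j ≤ 1`.  And `m_j ≤ m_0 = m` (`mrl_le`, induction).
`log (1/Z (j+1)) - log (1/Z j) = log (1 + o)`.  To show: `ℓ o m_j ≤ log (1 + o)`.  If `m_j = 0` clear.  Otherwise `o ≤ 1/m_j` and by concavity of
`log (1 + ·)` on `[0, 1/m_j]`: `log (1 + o) ≥ o m_j log (1 + 1/m_j) ≥ o m_j ℓ` (`1/m_j ≥ 1/m`).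
`ifr_sub`: let `0 ≤ ω i ≤ x i` for `i ≤ t`, `z = ∑ ω i ∈ [0, 1]`.  Choose `j ≤ t` with `Z (j+1) ≤ z ≤ Z j` (`Z 0 = 1`, `Z (t+1) = 0`).
`∑ ω i (i - m) - z (j - m) = ∑ ω i (i - j) ≤ ∑_{i > j} x i (i - j) = ∑_{i>j} x i (i - m) - Z (j+1) (j - m)`, so
`∑ ω i (i - m) ≤ V := T (j+1) + (z - Z (j+1)) (j - m)` with `T j = ∑ i ∈ Icc j t, x i (i - m)`, `T j = T (j+1) + x j (j - m)`.  `V` is the linear
interpolation in `z ∈ [Z (j+1), Z j]` between `T (j+1)` at `z = Z (j+1)` and `T j` at `z = Z j` (`Z j - Z (j+1) = x j > 0`), and `ℓ T j ≤ Z j log (1/Z j)` for all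
`j ≤ t + 1` (`ifr_tail`; `j = 0`: both sides `0`; `j = t + 1`: both sides `0`), so `ℓ V ≤` the linear interpolation of `negMulLog` at `Z (j+1)`, `Z j`
`≤ negMulLog z` by concavity (`Real.concaveOn_negMulLog`, `negMulLog z = - z log z = z log (1/z)`).
-/

set_option autoImplicit false

namespace Pool.Agent.CHP

open Finset

private lemma Tt_eq99 (x : ℕ → ℝ) (t j : ℕ) (m : ℝ) :
    ∑ i ∈ Icc j t, x i * ((i : ℝ) - m) = Mt x t j + ((j : ℝ) - m) * Zt x t j := by
  unfold Mt Zt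
  rw [mul_sum, ← sum_add_distrib]
  exact sum_congr rfl fun i _ => by ring

private lemma Zt_pos99 {x : ℕ → ℝ} {t : ℕ} (hx : ∀ i ≤ t, 0 < x i) {j : ℕ} (hj : j ≤ t) :
    0 < Zt x t j := by
  unfold Zt
  exact sum_pos (fun i hi => hx i (mem_Icc.1 hi).2) ⟨t, mem_Icc.2 ⟨hj, le_rfl⟩⟩

private lemma Zt_last99 (x : ℕ → ℝ) (t : ℕ) : Zt x t (t + 1) = 0 := by
  unfold Zt
  rw [Icc_eq_empty (by omega), sum_empty]

private lemma Zt_nonneg99 {x : ℕ → ℝ} {t : ℕ} (hx : ∀ i ≤ t, 0 < x i) (j : ℕ) :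
    0 ≤ Zt x t j := by
  unfold Zt
  exact sum_nonneg (fun i hi => (hx i (mem_Icc.1 hi).2).le)

private lemma Mt_nonneg99 {x : ℕ → ℝ} {t : ℕ} (hx : ∀ i ≤ t, 0 < x i) (j : ℕ) :
    0 ≤ Mt x t j := by
  unfold Mt
  refine sum_nonneg (fun i hi => ?_)
  obtain ⟨h1, h2⟩ := mem_Icc.1 hi
  have h3 : (j : ℝ) ≤ i := by exact_mod_cast h1
  exact mul_nonneg (by linarith) (hx i h2).le

private lemma Zt_zero99 {x : ℕ → ℝ} {t : ℕ} (h1 : ∑ i ∈ range (t + 1), x i = 1) :
    Zt x t 0 = 1 := by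
  unfold Zt
  rw [← h1]
  congr 1
  ext i
  rw [mem_Icc, mem_range]
  omega

private lemma Mt_zero99 {x : ℕ → ℝ} {t : ℕ} {m : ℝ}
    (hm : ∑ i ∈ range (t + 1), (i : ℝ) * x i = m) : Mt x t 0 = m := by
  unfold Mt
  rw [← hm]
  have : Icc 0 t = range (t + 1) := by
    ext i
    rw [mem_Icc, mem_range]
    omega
  rw [this]
  refine sum_congr rfl fun i _ => ?_
  push_cast
  ring

private lemma mrl99 {x : ℕ → ℝ} {t : ℕ} (hx : ∀ i ≤ t, 0 < x i)
    (hlc : ∀ i, i + 2 ≤ t → x i * x (i + 2) ≤ x (i + 1) ^ 2)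
    (h1 : ∑ i ∈ range (t + 1), x i = 1) {m : ℝ} (hm : ∑ i ∈ range (t + 1), (i : ℝ) * x i = m) :
    ∀ j, j ≤ t → Mt x t j / Zt x t j ≤ m := by
  intro j
  induction j with
  | zero =>
    intro _
    rw [Zt_zero99 h1, Mt_zero99 hm, div_one]
  | succ j ih =>
    intro hj
    refine le_trans ?_ (ih (by omega))
    rw [div_le_div_iff₀ (Zt_pos99 hx hj) (Zt_pos99 hx (by omega))]
    exact mrl_le hx hlc j (by omega)

private lemma scal99 {o u m : ℝ} (ho : 0 ≤ o) (hu : 0 ≤ u) (hum : u ≤ m) (hou : o * u ≤ 1) :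
    Real.log (1 + 1 / m) * (o * u) ≤ Real.log (1 + o) := by
  rcases hu.eq_or_lt with h | h
  · rw [← h, mul_zero, mul_zero]
    exact Real.log_nonneg (by linarith)
  · have hm0 : 0 < m := lt_of_lt_of_le h hum
    have h2 : Real.log (1 + 1 / m) ≤ Real.log (1 + 1 / u) := by
      apply Real.log_le_log (by positivity)
      have := one_div_le_one_div_of_le h hum
      linarith
    have hs : 0 ≤ o * u := mul_nonneg ho hu
    have h3 := strictConcaveOn_log_Ioi.concaveOn.2 (x := 1 + 1 / u) (y := 1)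
      (by
        rw [Set.mem_Ioi]
        positivity)
      (by
        rw [Set.mem_Ioi]
        norm_num) hs (show 0 ≤ 1 - o * u by linarith) (by ring)
    simp only [smul_eq_mul, Real.log_one, mul_zero, add_zero] at h3
    have e : o * u * (1 + 1 / u) + (1 - o * u) * 1 = 1 + o := by
      field_simp
      ring
    rw [e] at h3
    calc Real.log (1 + 1 / m) * (o * u) ≤ Real.log (1 + 1 / u) * (o * u) :=
          mul_le_mul_of_nonneg_right h2 hs
      _ = o * u * Real.log (1 + 1 / u) := by ring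
      _ ≤ _ := h3

private lemma claimE99 {x : ℕ → ℝ} {t : ℕ} (hx : ∀ i ≤ t, 0 < x i)
    (hlc : ∀ i, i + 2 ≤ t → x i * x (i + 2) ≤ x (i + 1) ^ 2)
    (h1 : ∑ i ∈ range (t + 1), x i = 1) {m : ℝ} (hm : ∑ i ∈ range (t + 1), (i : ℝ) * x i = m) :
    ∀ j, j ≤ t → Real.log (1 + 1 / m) * (Mt x t j / Zt x t j + ((j : ℝ) - m)) ≤
      - Real.log (Zt x t j) := by
  intro j
  induction j with
  | zero =>
    intro _
    rw [Zt_zero99 h1, Mt_zero99 hm]
    simp
  | succ j ih =>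
    intro hj
    have hZ := Zt_pos99 hx (show j ≤ t by omega)
    have hZ1 := Zt_pos99 hx hj
    have hxj := hx j (by omega)
    have e1 := Zt_succ x (show j ≤ t by omega)
    have e2 := Mt_succ x (show j ≤ t by omega)
    set o := x j / Zt x t (j + 1) with ho
    have ho0 : 0 ≤ o := by positivity
    have e3 : Zt x t j = (1 + o) * Zt x t (j + 1) := by
      rw [e1, ho]
      field_simp
      ring
    set u := Mt x t j / Zt x t j with hu
    have hu0 : 0 ≤ u := div_nonneg (Mt_nonneg99 hx j) hZ.le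
    have hum : u ≤ m := mrl99 hx hlc h1 hm j (by omega)
    have hou : o * u ≤ 1 := by
      rw [ho, hu, div_mul_div_comm, div_le_one (by positivity)]
      exact ifr_core hx hlc j (by omega)
    have key := scal99 ho0 hu0 hum hou
    have e4 : Mt x t (j + 1) / Zt x t (j + 1) + 1 = (1 + o) * u := by
      have h5 : Mt x t (j + 1) / Zt x t (j + 1) + 1 = Mt x t j / Zt x t (j + 1) := by
        rw [e2]
        field_simp
      rw [h5, hu, e3]
      have h6 : (1 + o) ≠ 0 := by positivity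
      field_simp
    have e5 : Real.log (Zt x t j) = Real.log (1 + o) + Real.log (Zt x t (j + 1)) := by
      rw [e3, Real.log_mul (by positivity) hZ1.ne']
    have ih' := ih (by omega)
    have e6 : Mt x t (j + 1) / Zt x t (j + 1) + (((j + 1 : ℕ) : ℝ) - m) =
        (u + ((j : ℝ) - m)) + o * u := by
      push_cast
      have : Mt x t (j + 1) / Zt x t (j + 1) = (1 + o) * u - 1 := by linarith
      rw [this]
      ring
    rw [e6, mul_add]
    linarith

private lemma claimT99 {x : ℕ → ℝ} {t : ℕ} (hx : ∀ i ≤ t, 0 < x i)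
    (hlc : ∀ i, i + 2 ≤ t → x i * x (i + 2) ≤ x (i + 1) ^ 2)
    (h1 : ∑ i ∈ range (t + 1), x i = 1) {m : ℝ} (hm : ∑ i ∈ range (t + 1), (i : ℝ) * x i = m)
    (j : ℕ) (hj : j ≤ t + 1) :
    Real.log (1 + 1 / m) * ∑ i ∈ Icc j t, x i * ((i : ℝ) - m) ≤
      Real.negMulLog (Zt x t j) := by
  by_cases hjt : j = t + 1
  · subst hjt
    rw [Zt_last99, Icc_eq_empty (by omega), sum_empty, mul_zero, Real.negMulLog_zero]
  · have hj' : j ≤ t := by omega
    have hZ := Zt_pos99 hx hj'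
    have h := mul_le_mul_of_nonneg_left (claimE99 hx hlc h1 hm j hj') hZ.le
    rw [Tt_eq99]
    unfold Real.negMulLog
    have e : Zt x t j * (Real.log (1 + 1 / m) * (Mt x t j / Zt x t j + ((j : ℝ) - m))) =
        Real.log (1 + 1 / m) * (Mt x t j + ((j : ℝ) - m) * Zt x t j) := by
      field_simp
    rw [e] at h
    linarith

theorem ifr_tail {x : ℕ → ℝ} {t : ℕ} (hx : ∀ i ≤ t, 0 < x i)
    (hlc : ∀ i, i + 2 ≤ t → x i * x (i + 2) ≤ x (i + 1) ^ 2)
    (h1 : ∑ i ∈ range (t + 1), x i = 1) {m : ℝ} (hm : ∑ i ∈ range (t + 1), (i : ℝ) * x i = m)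
    (hm0 : 0 < m) (j : ℕ) (hj : j + 1 ≤ t) :
    Real.log (1 + 1 / m) * ∑ i ∈ Icc (j + 1) t, x i * ((i : ℝ) - m) ≤
      Zt x t (j + 1) * Real.log (1 / Zt x t (j + 1)) := by
  refine (claimT99 hx hlc h1 hm (j + 1) (by omega)).trans (le_of_eq ?_)
  unfold Real.negMulLog
  rw [one_div, Real.log_inv]
  ring

theorem ifr_sub {x : ℕ → ℝ} {t : ℕ} (hx : ∀ i ≤ t, 0 < x i)
    (hlc : ∀ i, i + 2 ≤ t → x i * x (i + 2) ≤ x (i + 1) ^ 2)
    (h1 : ∑ i ∈ range (t + 1), x i = 1) {m : ℝ} (hm : ∑ i ∈ range (t + 1), (i : ℝ) * x i = m)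
    (hm0 : 0 < m) (ω : ℕ → ℝ) (hω : ∀ i ≤ t, 0 ≤ ω i ∧ ω i ≤ x i) :
    Real.log (1 + 1 / m) * ∑ i ∈ range (t + 1), ω i * ((i : ℝ) - m) ≤
      (∑ i ∈ range (t + 1), ω i) * Real.log (1 / ∑ i ∈ range (t + 1), ω i) := by
  have hl : 0 ≤ Real.log (1 + 1 / m) := Real.log_nonneg (by
    have : 0 < 1 / m := by positivity
    linarith)
  set z := ∑ i ∈ range (t + 1), ω i with hz
  have hz0 : 0 ≤ z := sum_nonneg fun i hi => (hω i (by rw [mem_range] at hi; omega)).1
  have hz1 : z ≤ Zt x t 0 := by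
    rw [Zt_zero99 h1, ← h1]
    exact sum_le_sum fun i hi => (hω i (by rw [mem_range] at hi; omega)).2
  obtain ⟨j, hjt, hj1, hj2⟩ : ∃ j ≤ t, Zt x t (j + 1) ≤ z ∧ z ≤ Zt x t j := by
    by_contra hcon
    push Not at hcon
    have h3 : ∀ j, j ≤ t + 1 → z ≤ Zt x t j := by
      intro j
      induction j with
      | zero => intro _; exact hz1
      | succ j ih =>
        intro hj
        by_contra h4
        push Not at h4
        have h5 := hcon j (by omega) h4.le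
        exact absurd (ih (by omega)) (not_le.2 h5)
    have h4 := h3 (t + 1) le_rfl
    rw [Zt_last99] at h4
    have h5 := hcon t le_rfl (by rw [Zt_last99]; exact hz0)
    have h6 := h3 t (by omega)
    linarith
  have hxj := hx j hjt
  have e1 := Zt_succ x hjt
  -- the bound by `V`
  have hV : ∑ i ∈ range (t + 1), ω i * ((i : ℝ) - m) ≤
      (∑ i ∈ Icc (j + 1) t, x i * ((i : ℝ) - m)) + (z - Zt x t (j + 1)) * ((j : ℝ) - m) := by
    have h3 : ∑ i ∈ range (t + 1), ω i * ((i : ℝ) - m) - z * ((j : ℝ) - m) =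
        ∑ i ∈ range (t + 1), ω i * ((i : ℝ) - j) := by
      rw [hz, sum_mul, ← sum_sub_distrib]
      exact sum_congr rfl fun i _ => by ring
    have h4 : ∑ i ∈ range (t + 1), ω i * ((i : ℝ) - j) ≤
        ∑ i ∈ range (t + 1), if j + 1 ≤ i then x i * ((i : ℝ) - j) else 0 := by
      refine sum_le_sum fun i hi => ?_
      have hi' : i ≤ t := by
        rw [mem_range] at hi
        omega
      split_ifs with h5
      · have h6 : (j : ℝ) ≤ i := by
          have : j ≤ i := by omega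
          exact_mod_cast this
        exact mul_le_mul_of_nonneg_right (hω i hi').2 (by linarith)
      · have h6 : (i : ℝ) ≤ j := by
          have : i ≤ j := by omega
          exact_mod_cast this
        exact mul_nonpos_of_nonneg_of_nonpos (hω i hi').1 (by linarith)
    have h5 : (∑ i ∈ range (t + 1), if j + 1 ≤ i then x i * ((i : ℝ) - j) else 0) =
        ∑ i ∈ Icc (j + 1) t, x i * ((i : ℝ) - j) := by
      rw [← sum_filter]
      refine sum_congr ?_ fun _ _ => rfl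
      ext i
      rw [mem_filter, mem_range, mem_Icc]
      omega
    have h6 : ∑ i ∈ Icc (j + 1) t, x i * ((i : ℝ) - j) =
        (∑ i ∈ Icc (j + 1) t, x i * ((i : ℝ) - m)) - Zt x t (j + 1) * ((j : ℝ) - m) := by
      unfold Zt
      rw [sum_mul, ← sum_sub_distrib]
      exact sum_congr rfl fun i _ => by ring
    rw [h5, h6] at h4
    linarith
  have e2 : ∑ i ∈ Icc j t, x i * ((i : ℝ) - m) =
      x j * ((j : ℝ) - m) + ∑ i ∈ Icc (j + 1) t, x i * ((i : ℝ) - m) := by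
    rw [Tt_eq99, Tt_eq99, Mt_succ x hjt, e1]
    push_cast
    ring
  set s := (z - Zt x t (j + 1)) / x j with hs
  have hs0 : 0 ≤ s := div_nonneg (by linarith) hxj.le
  have hs1 : s ≤ 1 := by
    rw [hs, div_le_one hxj]
    linarith
  have hsx : s * x j = z - Zt x t (j + 1) := by
    rw [hs]
    field_simp
  have c1 := claimT99 hx hlc h1 hm j (by omega)
  have c2 := claimT99 hx hlc h1 hm (j + 1) (by omega)
  have hconc := Real.concaveOn_negMulLog.2 (x := Zt x t j) (y := Zt x t (j + 1))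
    (Zt_nonneg99 hx j) (Zt_nonneg99 hx (j + 1)) hs0 (show 0 ≤ 1 - s by linarith) (by ring)
  simp only [smul_eq_mul] at hconc
  have e3 : s * Zt x t j + (1 - s) * Zt x t (j + 1) = z := by
    rw [e1]
    linear_combination hsx
  rw [e3] at hconc
  have hfin : Real.log (1 + 1 / m) * ∑ i ∈ range (t + 1), ω i * ((i : ℝ) - m) ≤
      Real.negMulLog z := by
    calc Real.log (1 + 1 / m) * ∑ i ∈ range (t + 1), ω i * ((i : ℝ) - m) ≤
          Real.log (1 + 1 / m) * ((∑ i ∈ Icc (j + 1) t, x i * ((i : ℝ) - m)) +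
            (z - Zt x t (j + 1)) * ((j : ℝ) - m)) := mul_le_mul_of_nonneg_left hV hl
      _ = s * (Real.log (1 + 1 / m) * ∑ i ∈ Icc j t, x i * ((i : ℝ) - m)) +
          (1 - s) * (Real.log (1 + 1 / m) * ∑ i ∈ Icc (j + 1) t, x i * ((i : ℝ) - m)) := by
        rw [e2, ← hsx]
        ring
      _ ≤ s * Real.negMulLog (Zt x t j) + (1 - s) * Real.negMulLog (Zt x t (j + 1)) :=
        add_le_add (mul_le_mul_of_nonneg_left c1 hs0)
          (mul_le_mul_of_nonneg_left c2 (by linarith))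
      _ ≤ _ := hconc
  refine hfin.trans (le_of_eq ?_)
  unfold Real.negMulLog
  rw [one_div, Real.log_inv]
  ring

end Pool.Agent.CHP
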