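import Pool.Agent.CHP.Str
import Pool.Agent.CHP.EZb
import Pool.Agent.CHP.Lss

/-!
# CHP / Lob: lower bound for the expected number of packings with a subprofile of a near-optimal profile

Notation: `ℒ = log n`, `B = -log (1-p)`, `ū = n / ks t ko`, `k = num S κ`, `s = sz S σ`, `τ u = κ u - σ u` (`u ≤ t`), `M = ∑_{u ≤ t} τ u`,
`κ_> = ∑ v ∈ Ioc t S, κ v`.  `κ_> ℒ ≤ Λ`, `S κ_> ≤ Λ`, `(A+1) κ_> ≤ Λ` for large `n` (`big`, `S ≤ (2/B) ℒ`, `A ≤ 40 ℒ lam ≤ (80/B) ℒ^2`).
PROOF.  `σ v ≤ κ v ≤ n` (`v ≥ 1`: `κ v ≤ sz S κ ≤ n`; `κ 0 = 0` by `zero`), `s ≤ sz S κ ≤ n`.  By `logEZ_ge`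
`log EZ σ ≥ ∑_{v ≤ S} σ v (log (N_v/σ v) + 1) - s + (n-s) log (n/(n-s)) - (S+2)(log (n+1) + 1)`, the last term is `≤ Λ` for large `n`
(`S ≤ (2/B) ℒ`, `Λ ≥ n^g ℒ`, `g > 0`).
* `v > t`: `σ v (log (N_v/σ v) + 1) ≥ - σ v (C0 + 1) ℒ` (`Nb0`, `σ v ≤ n`), sum `≥ -(C0+1) Λ`.
* `v ≤ t`: `N_v = ko v exp (A - G v)` (`gib.eq`), so `σ v (log (N_v/σ v) + 1) = σ v (A + 1 - G v) - σ v log (σ v/ko v)`, and
  `A + 1 = (1+G) ū` (`gib.ent`), `A + 1 - G v = (1+G)(ū - v) + v`.
Total: `log EZ σ ≥ (1+G) ∑_{v≤t} σ v (ū - v) + (∑_{v≤t} v σ v - s) - ∑_{v≤t} σ v log (σ v/ko v) + (n-s) log (n/(n-s)) - (C0+2) Λ`, and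
`∑_{v≤t} v σ v - s = - ∑_{v>t} v σ v ≥ - S κ_> ≥ - Λ`.
* `(1+G) ∑_{v≤t} σ v (ū - v) = (1+G) ∑_{v≤t} κ v (ū - v) - (1+G) ∑ τ v (ū - v)` and `∑_{v≤t} κ v (ū - v) = ū (k - κ_>) - ∑_{v≤t} v κ v ≥
  ū (k - κ_>) - n = ū (k - ks) - ū κ_>`; times `1 + G`: `(A+1)(k - ks) - (A+1) κ_> ≥ - 8 Λ - Λ` (`lo`; `A ≥ 1`, so `(A+1) ≤ 2A`).
* `- ∑ σ v log (σ v/ko v) ≥ - ∑ σ v log (κ v/ko v)` (`σ ≤ κ`; as in `xb'`) `= - ∑_{v≤t} κ v log (κ v/ko v) + ∑ τ v log (κ v/ko v)`;
  `∑_{v≤t} κ v log (κ v/ko v) = KL + ∑_{v≤t} κ v - ks ≤ Λ + (k - ks) ≤ Λ + 4 Λ` (`kl`, `up`, `A ≥ 1`), and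
  `∑ τ v log (κ v/ko v) ≥ ∑ τ v log (τ v/ko v) ≥ M log (M/ks) = - M log (ks/M)` (`xb'`, `log_sum`; for `M = 0` all `τ v = 0`).
-/

set_option autoImplicit false

namespace Pool.Agent.CHP

open Finset Filter

private theorem lob_split {t S : ℕ} (h : t < S) (f : ℕ → ℝ) :
    ∑ v ∈ range (S + 1), f v = ∑ v ∈ range (t + 1), f v + ∑ v ∈ Ioc t S, f v := by
  have e : Ioc t S = Ico (t + 1) (S + 1) := by
    ext x
    simp only [Finset.mem_Ioc, Finset.mem_Ico]
    omega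
  rw [e, Finset.range_eq_Ico, Finset.range_eq_Ico,
    Finset.sum_Ico_consecutive f (Nat.zero_le _) (by omega)]

private theorem lob_hi {n : ℕ} (C0 N : ℝ) (hN : (n : ℝ) ^ (-C0) ≤ N) (hn : 2 ≤ n)
    {a : ℕ} (ha : a ≤ n) (hL : 1 ≤ Real.log n) :
    -((|C0| + 1) * Real.log n * a) ≤ (a : ℝ) * (Real.log (N / a) + 1) := by
  rcases Nat.eq_zero_or_pos a with h0 | h0
  · subst h0
    simp
  · have hnp : (0 : ℝ) < n := by
      have : 0 < n := by omega
      exact_mod_cast this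
    have hap : (0 : ℝ) < a := by exact_mod_cast h0
    have hrp := Real.rpow_pos_of_pos hnp (-C0)
    have hNp : 0 < N := lt_of_lt_of_le hrp hN
    have e1 : -C0 * Real.log n ≤ Real.log N := by
      rw [← Real.log_rpow hnp]
      exact Real.log_le_log hrp hN
    have e2 : Real.log a ≤ Real.log n := Real.log_le_log hap (by exact_mod_cast ha)
    rw [Real.log_div hNp.ne' hap.ne']
    have e3 : -(|C0| * Real.log n) ≤ -C0 * Real.log n := by
      have := mul_le_mul_of_nonneg_right (le_abs_self C0) (by linarith : 0 ≤ Real.log n)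
      linarith
    have e4 : -((|C0| + 1) * Real.log n) ≤ Real.log N - Real.log a + 1 := by
      linarith
    have := mul_le_mul_of_nonneg_left e4 hap.le
    linarith

private theorem lob_lo {N k x G A v : ℝ} (hk : 0 < k) (hN : k = N * Real.exp (G * v - A))
    (hx : 0 ≤ x) :
    x * (Real.log (N / x) + 1) = x * (A + 1 - G * v) - x * Real.log (x / k) := by
  rcases hx.eq_or_lt with h0 | h0
  · rw [← h0]
    simp
  · have hNp : 0 < N := by
      rw [hN] at hk
      exact (mul_pos_iff_of_pos_right (Real.exp_pos _)).1 hk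
    have e1 : Real.log k = Real.log N + (G * v - A) := by
      rw [hN, Real.log_mul hNp.ne' (Real.exp_pos _).ne', Real.log_exp]
    rw [Real.log_div hNp.ne' h0.ne', Real.log_div h0.ne' hk.ne', e1]
    ring

private theorem lob_M {t : ℕ} (ko τ : ℕ → ℝ) (hko : ∀ u ≤ t, 0 < ko u) (hτ : ∀ u ≤ t, 0 ≤ τ u) :
    -((∑ u ∈ range (t + 1), τ u) *
        Real.log ((∑ u ∈ range (t + 1), ko u) / ∑ u ∈ range (t + 1), τ u)) ≤
      ∑ u ∈ range (t + 1), τ u * Real.log (τ u / ko u) := by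
  have hτ' : ∀ u ∈ range (t + 1), 0 ≤ τ u := fun u hu =>
    hτ u (Nat.lt_succ_iff.1 (Finset.mem_range.1 hu))
  have hko' : ∀ u ∈ range (t + 1), 0 < ko u := fun u hu =>
    hko u (Nat.lt_succ_iff.1 (Finset.mem_range.1 hu))
  rcases (Finset.sum_nonneg hτ').eq_or_lt with h0 | h0
  · have hz := (Finset.sum_eq_zero_iff_of_nonneg hτ').1 h0.symm
    rw [← h0, zero_mul, neg_zero]
    refine Finset.sum_nonneg fun u hu => ?_
    rw [hz u hu, zero_mul]
  · refine le_trans (le_of_eq ?_) (log_sum (range (t + 1)) τ ko hτ' hko' h0)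
    rw [← inv_div, Real.log_inv]
    ring

theorem lower {p g : ℝ} (h0 : 0 < p) (h1 : p < 1) (hg : 0 < g) (C0 cT : ℝ) :
    ∃ C : ℝ, 0 < C ∧ ∀ᶠ n : ℕ in atTop, ∀ (S t lam : ℕ) (G A : ℝ) (ko : ℕ → ℝ),
      Par p g C0 cT n S t lam G A ko → ∀ Λ : ℝ, (n : ℝ) ^ g * Real.log n ≤ Λ →
      ∀ κ : ℕ → ℕ, Near n S t lam A ko Λ κ → ∀ σ : ℕ → ℕ, (∀ v ≤ S, σ v ≤ κ v) →
        ((n : ℝ) - sz S σ) * Real.log (n / ((n : ℝ) - sz S σ)) -
          (1 + G) * ∑ u ∈ range (t + 1), ((κ u : ℝ) - σ u) * (n / ks t ko - u) -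
          (∑ u ∈ range (t + 1), ((κ u : ℝ) - σ u)) *
            Real.log (ks t ko / ∑ u ∈ range (t + 1), ((κ u : ℝ) - σ u)) - C * Λ ≤
        Real.log (EZ p n S σ) := by
  have hB : 0 < -Real.log (1 - p) := by
    have := Real.log_neg (by linarith : 0 < 1 - p) (by linarith)
    linarith
  obtain ⟨B, hBd⟩ : ∃ B : ℝ, B = -Real.log (1 - p) := ⟨_, rfl⟩
  rw [← hBd] at hB
  refine ⟨17 + |C0|, by positivity, ?_⟩
  have hlog : Tendsto (fun n : ℕ => Real.log n) atTop atTop :=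
    Real.tendsto_log_atTop.comp tendsto_natCast_atTop_atTop
  have hev1 : ∀ᶠ n : ℕ in atTop, 40 / B + 1 ≤ Real.log n := hlog.eventually_ge_atTop _
  have hev2 : ∀ᶠ n : ℕ in atTop, (6 / B + 6) * Real.log n ≤ (n : ℝ) ^ g := by
    have hc : (0 : ℝ) < 6 / B + 6 := by positivity
    have h := (isLittleO_log_rpow_atTop hg).bound (c := 1 / (6 / B + 6)) (by positivity)
    have h' := (tendsto_natCast_atTop_atTop (R := ℝ)).eventually h
    filter_upwards [h', eventually_ge_atTop 1] with n hn hn1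
    have hnp : (0 : ℝ) < n := by exact_mod_cast hn1
    rw [Real.norm_eq_abs, Real.norm_eq_abs, abs_of_pos (Real.rpow_pos_of_pos hnp g)] at hn
    have := le_trans (le_abs_self _) hn
    rw [one_div, inv_mul_eq_div, le_div_iff₀ hc] at this
    linarith
  filter_upwards [hev1, hev2, eventually_ge_atTop 2] with n hL hg2 hn2
  intro S t lam G A ko hP Λ hΛ κ hN σ hσ
  have hB40 : 0 < 40 / B := by positivity
  have hL1 : 1 ≤ Real.log n := by linarith
  have hL0 : 0 ≤ Real.log n := by linarith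
  have hnp : (0 : ℝ) < n := by
    have : 0 < n := by omega
    exact_mod_cast this
  have hng : 0 ≤ (n : ℝ) ^ g := (Real.rpow_pos_of_pos hnp g).le
  have hΛ0 : 0 ≤ Λ := le_trans (mul_nonneg hng hL0) hΛ
  have hR : ∀ u ∈ range (t + 1), u ≤ t := fun u hu => Nat.lt_succ_iff.1 (Finset.mem_range.1 hu)
  have htS : ∀ u ≤ t, u ≤ S := fun u hu => le_trans hu hP.lt.le
  have hK : 0 < ks t ko := by
    unfold ks
    exact Finset.sum_pos (fun u hu => hP.pos u (hR u hu)) ⟨0, by simp⟩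
  have hSB : (S : ℝ) ≤ 2 / B * Real.log n := by
    have := hP.SL
    rw [← hBd] at this
    rw [div_mul_eq_mul_div, le_div_iff₀ hB]
    linarith
  have hlam1 : (1 : ℝ) ≤ lam := by exact_mod_cast hP.lam0
  have hA1 : 1 ≤ A := by
    have := hP.A0
    have h2 : 1 ≤ (3 * Real.log n + 1) * lam := by nlinarith
    linarith
  have hAu : A ≤ 40 / B * Real.log n ^ 2 := by
    have h2 : (lam : ℝ) * 2 ≤ S := by
      have : lam * 2 ≤ S := by
        have := hP.lamt
        have := hP.lt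
        omega
      exact_mod_cast this
    have h3 := hP.A1
    have h4 : 40 * Real.log n * lam ≤ 20 * Real.log n * (2 / B * Real.log n) := by nlinarith
    have h5 : 20 * Real.log n * (2 / B * Real.log n) = 40 / B * Real.log n ^ 2 := by ring
    linarith
  obtain ⟨kg, hkg⟩ : ∃ kg : ℝ, kg = ∑ v ∈ Ioc t S, (κ v : ℝ) := ⟨_, rfl⟩
  have hkg0 : 0 ≤ kg := by
    rw [hkg]
    exact Finset.sum_nonneg fun v _ => Nat.cast_nonneg _
  have hbig : kg * Real.log n ^ 3 ≤ Λ := by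
    have := hN.big
    push_cast at this
    rw [hkg]
    exact this
  have hL2 : Real.log n ≤ Real.log n ^ 2 := by nlinarith
  have hL3 : Real.log n ^ 2 ≤ Real.log n ^ 3 := by nlinarith [sq_nonneg (Real.log n)]
  have hb1 : kg * Real.log n ≤ Λ :=
    le_trans (mul_le_mul_of_nonneg_left (le_trans hL2 hL3) hkg0) hbig
  have h2B : 2 / B ≤ 40 / B := by
    rw [div_le_div_iff_of_pos_right hB]
    norm_num
  have hb2 : (S : ℝ) * kg ≤ Λ := by
    have h2 : (S : ℝ) ≤ Real.log n ^ 3 := by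
      have h4 : 2 / B * Real.log n ≤ Real.log n * Real.log n :=
        mul_le_mul_of_nonneg_right (by linarith) hL0
      nlinarith
    have := mul_le_mul_of_nonneg_right h2 hkg0
    linarith
  have hb3 : (A + 1) * kg ≤ Λ := by
    have h2 : A + 1 ≤ Real.log n ^ 3 := by
      have h3 : (40 / B + 1) * Real.log n ^ 2 ≤ Real.log n * Real.log n ^ 2 :=
        mul_le_mul_of_nonneg_right hL (sq_nonneg _)
      nlinarith
    have := mul_le_mul_of_nonneg_right h2 hkg0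
    linarith
  -- sizes
  have hszle : sz S σ ≤ sz S κ := by
    unfold sz
    refine Finset.sum_le_sum fun v hv => Nat.mul_le_mul_left _ (hσ v ?_)
    exact Nat.lt_succ_iff.1 (Finset.mem_range.1 hv)
  have hsz : sz S σ ≤ n := le_trans hszle hN.le
  have hσn : ∀ v ≤ S, σ v ≤ n := by
    intro v hv
    rcases Nat.eq_zero_or_pos v with h0 | h0
    · have := hσ v hv
      have h2 := hN.zero v (by omega)
      omega
    · have h2 : v * κ v ≤ sz S κ := by
        unfold sz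
        exact Finset.single_le_sum (f := fun v => v * κ v) (fun _ _ => Nat.zero_le _)
          (Finset.mem_range.2 (Nat.lt_succ_of_le hv))
      have h3 : κ v ≤ v * κ v := Nat.le_mul_of_pos_left _ h0
      have := hσ v hv
      have := hN.le
      omega
  have hE := logEZ_ge (p := p) h1 (by omega : 0 < n) hsz hσn
  rw [lob_split hP.lt (fun v => (σ v : ℝ) * (Real.log (NN p n v / σ v) + 1))] at hE
  -- the error term
  have herr : ((S : ℝ) + 2) * (Real.log ((n : ℝ) + 1) + 1) ≤ Λ := by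
    have h2 : Real.log ((n : ℝ) + 1) ≤ Real.log n + 1 := by
      have h3 : Real.log ((n : ℝ) + 1) ≤ Real.log (2 * n) := by
        refine Real.log_le_log (by linarith) ?_
        have : (2 : ℝ) ≤ n := by exact_mod_cast hn2
        linarith
      rw [Real.log_mul (by norm_num) hnp.ne'] at h3
      have := Real.log_two_lt_d9
      linarith
    have h2' : Real.log ((n : ℝ) + 1) + 1 ≤ 3 * Real.log n := by linarith
    have h3 : 0 ≤ Real.log ((n : ℝ) + 1) + 1 := by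
      have := Real.log_nonneg (by linarith : (1 : ℝ) ≤ (n : ℝ) + 1)
      linarith
    have h4 : (S : ℝ) + 2 ≤ (2 / B + 2) * Real.log n := by nlinarith
    have h5 : ((S : ℝ) + 2) * (Real.log ((n : ℝ) + 1) + 1) ≤
        ((2 / B + 2) * Real.log n) * (3 * Real.log n) :=
      mul_le_mul h4 h2' h3 (by positivity)
    have h6 : ((2 / B + 2) * Real.log n) * (3 * Real.log n) =
        ((6 / B + 6) * Real.log n) * Real.log n := by ring
    have h7 := mul_le_mul_of_nonneg_right hg2 hL0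
    linarith
  -- the large classes
  have hhi : -((|C0| + 1) * Λ) ≤
      ∑ v ∈ Ioc t S, (σ v : ℝ) * (Real.log (NN p n v / σ v) + 1) := by
    have h2 : ∀ v ∈ Ioc t S, -((|C0| + 1) * Real.log n * κ v) ≤
        (σ v : ℝ) * (Real.log (NN p n v / σ v) + 1) := by
      intro v hv
      rw [Finset.mem_Ioc] at hv
      have h3 := lob_hi C0 (NN p n v) (hP.Nb0 v hv.1 hv.2) hn2 (hσn v hv.2) hL1
      have h4 : (σ v : ℝ) ≤ κ v := by exact_mod_cast hσ v hv.2
      have h5 : 0 ≤ (|C0| + 1) * Real.log n := by positivity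
      have := mul_le_mul_of_nonneg_left h4 h5
      linarith
    refine le_trans ?_ (Finset.sum_le_sum h2)
    rw [Finset.sum_neg_distrib, ← Finset.mul_sum, ← hkg]
    have h5 : 0 ≤ |C0| + 1 := by positivity
    have := mul_le_mul_of_nonneg_left hb1 h5
    linarith
  -- the small classes
  have hAū : A + 1 = (1 + G) * (n / ks t ko) := by
    have := hP.gib.ent
    rw [← mul_div_assoc, eq_div_iff hK.ne']
    exact this
  have hlo : ∑ v ∈ range (t + 1), (σ v : ℝ) * (Real.log (NN p n v / σ v) + 1) =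
      (1 + G) * ∑ v ∈ range (t + 1), (κ v : ℝ) * (n / ks t ko - v) -
      (1 + G) * ∑ v ∈ range (t + 1), ((κ v : ℝ) - σ v) * (n / ks t ko - v) +
      ∑ v ∈ range (t + 1), (v : ℝ) * σ v -
      ∑ v ∈ range (t + 1), (σ v : ℝ) * Real.log (σ v / ko v) := by
    rw [Finset.mul_sum, Finset.mul_sum, ← Finset.sum_sub_distrib, ← Finset.sum_add_distrib,
      ← Finset.sum_sub_distrib]
    refine Finset.sum_congr rfl fun v hv => ?_
    rw [lob_lo (hP.pos v (hR v hv)) (hP.gib.eq v (hR v hv)) (Nat.cast_nonneg (σ v)), hAū]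
    ring
  have hszr : (sz S σ : ℝ) = ∑ v ∈ range (t + 1), (v : ℝ) * σ v +
      ∑ v ∈ Ioc t S, (v : ℝ) * σ v := by
    rw [← lob_split hP.lt (fun v => (v : ℝ) * σ v)]
    unfold sz
    push_cast
    rfl
  have hszh : ∑ v ∈ Ioc t S, (v : ℝ) * σ v ≤ Λ := by
    refine le_trans ?_ hb2
    rw [hkg, Finset.mul_sum]
    refine Finset.sum_le_sum fun v hv => ?_
    rw [Finset.mem_Ioc] at hv
    exact mul_le_mul (by exact_mod_cast hv.2) (by exact_mod_cast hσ v hv.2) (Nat.cast_nonneg _)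
      (Nat.cast_nonneg _)
  have hnum : (num S κ : ℝ) = ∑ v ∈ range (t + 1), (κ v : ℝ) + kg := by
    rw [hkg, ← lob_split hP.lt (fun v => (κ v : ℝ))]
    unfold num
    push_cast
    rfl
  -- part 3
  have hG0 : 0 ≤ 1 + G := by
    have := hP.G0
    linarith
  have hp3 : -(9 * Λ) ≤ (1 + G) * ∑ v ∈ range (t + 1), (κ v : ℝ) * (n / ks t ko - v) := by
    have h2 : ∑ v ∈ range (t + 1), (κ v : ℝ) * (n / ks t ko - v) =
        (n / ks t ko) * (num S κ - kg) - ∑ v ∈ range (t + 1), (v : ℝ) * κ v := by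
      rw [hnum, add_sub_cancel_right, Finset.mul_sum, ← Finset.sum_sub_distrib]
      refine Finset.sum_congr rfl fun v _ => ?_
      ring
    have h3 : ∑ v ∈ range (t + 1), (v : ℝ) * κ v ≤ n := by
      have h4 : (sz S κ : ℝ) = ∑ v ∈ range (t + 1), (v : ℝ) * κ v +
          ∑ v ∈ Ioc t S, (v : ℝ) * κ v := by
        rw [← lob_split hP.lt (fun v => (v : ℝ) * κ v)]
        unfold sz
        push_cast
        rfl
      have h5 : 0 ≤ ∑ v ∈ Ioc t S, (v : ℝ) * κ v :=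
        Finset.sum_nonneg fun v _ => mul_nonneg (Nat.cast_nonneg _) (Nat.cast_nonneg _)
      have h6 : (sz S κ : ℝ) ≤ n := by exact_mod_cast hN.le
      linarith
    have h4 : (n : ℝ) = (n / ks t ko) * ks t ko := by
      rw [div_mul_cancel₀ _ hK.ne']
    have h5 : (n / ks t ko) * (num S κ - ks t ko) - (n / ks t ko) * kg ≤
        ∑ v ∈ range (t + 1), (κ v : ℝ) * (n / ks t ko - v) := by
      rw [h2]
      linarith
    have h6 := mul_le_mul_of_nonneg_left h5 hG0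
    have h7 : (1 + G) * ((n / ks t ko) * (num S κ - ks t ko) - (n / ks t ko) * kg) =
        (A + 1) * (num S κ - ks t ko) - (A + 1) * kg := by
      rw [hAū]
      ring
    rw [h7] at h6
    have h8 : -(8 * Λ) ≤ (A + 1) * (num S κ - ks t ko) := by
      have h9 := hN.lo
      rcases le_total (ks t ko) (num S κ : ℝ) with hc | hc
      · have : 0 ≤ (A + 1) * (num S κ - ks t ko) :=
          mul_nonneg (by linarith) (by linarith)
        linarith
      · have h10 : (A + 1) * (ks t ko - num S κ) ≤ 2 * A * (ks t ko - num S κ) :=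
          mul_le_mul_of_nonneg_right (by linarith) (by linarith)
        linarith
    linarith
  -- part 4
  have hσκ : ∀ u ≤ t, (0 : ℝ) ≤ σ u ∧ (σ u : ℝ) ≤ κ u := fun u hu =>
    ⟨Nat.cast_nonneg _, by exact_mod_cast hσ u (htS u hu)⟩
  have hτκ : ∀ u ≤ t, (0 : ℝ) ≤ (κ u : ℝ) - σ u ∧ (κ u : ℝ) - σ u ≤ κ u := fun u hu =>
    ⟨by linarith [(hσκ u hu).2], by linarith [(hσκ u hu).1]⟩
  have hx1 := xb' t ko (fun u => (κ u : ℝ)) (fun u => (σ u : ℝ)) hP.pos hσκ
  have hx2 := xb' t ko (fun u => (κ u : ℝ)) (fun u => (κ u : ℝ) - σ u) hP.pos hτκ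
  have hx3 := lob_M ko (fun u => (κ u : ℝ) - σ u) hP.pos (fun u hu => (hτκ u hu).1)
  have hx4 : ∑ u ∈ range (t + 1), (σ u : ℝ) * Real.log (κ u / ko u) =
      ∑ u ∈ range (t + 1), (κ u : ℝ) * Real.log (κ u / ko u) -
      ∑ u ∈ range (t + 1), ((κ u : ℝ) - σ u) * Real.log (κ u / ko u) := by
    rw [← Finset.sum_sub_distrib]
    refine Finset.sum_congr rfl fun v _ => ?_
    ring
  have hx5 : ∑ u ∈ range (t + 1), (κ u : ℝ) * Real.log (κ u / ko u) ≤ 5 * Λ := by
    have h2 := hN.kl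
    unfold KL at h2
    rw [Finset.sum_add_distrib, Finset.sum_sub_distrib] at h2
    have h3 : num S κ - ks t ko ≤ 4 * Λ := by
      have h9 := hN.up
      rcases le_total (num S κ : ℝ) (ks t ko) with hc | hc
      · linarith
      · have h10 : 1 * (num S κ - ks t ko) ≤ A * (num S κ - ks t ko) :=
          mul_le_mul_of_nonneg_right hA1 (by linarith)
        linarith
    have h4 : ks t ko = ∑ u ∈ range (t + 1), ko u := rfl
    rw [← h4] at h2
    linarith
  have h4 : ks t ko = ∑ u ∈ range (t + 1), ko u := rfl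
  rw [← h4] at hx3

  rw [hlo, hszr] at hE
  rw [hszr]
  linarith

end Pool.Agent.CHP
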