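import Pool.Agent.CHP.VarC
import Pool.Agent.CHV.Brg

/-!
# CHP / Main: the theorem in the form of the problem
-/

set_option autoImplicit false

open Filter

namespace Pool.Agent.CHP

open Pool.Agent.CHV

theorem main : ∀ p : ℝ, 0 < p → p ≤ 1 - Real.exp (-2) → ∀ ε : ℝ, 0 < ε →
    ∀ E σ : ℕ → ℝ,
      (∀ n : ℕ, E n =
        Finset.sum
          (Finset.powerset
            (Finset.filter (fun e : Sym2 (Fin n) => ¬ e.IsDiag)
              (Finset.univ : Finset (Sym2 (Fin n)))))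
          (fun S : Finset (Sym2 (Fin n)) =>
            p ^ S.card * (1 - p) ^ (Nat.choose n 2 - S.card) *
              ((ENat.toNat (SimpleGraph.chromaticNumber
                (SimpleGraph.fromEdgeSet ((S : Set (Sym2 (Fin n))))))) : ℝ))) →
      (∀ n : ℕ, σ n = Real.sqrt
        (Finset.sum
          (Finset.powerset
            (Finset.filter (fun e : Sym2 (Fin n) => ¬ e.IsDiag)
              (Finset.univ : Finset (Sym2 (Fin n)))))
          (fun S : Finset (Sym2 (Fin n)) =>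
            p ^ S.card * (1 - p) ^ (Nat.choose n 2 - S.card) *
              (((ENat.toNat (SimpleGraph.chromaticNumber
                (SimpleGraph.fromEdgeSet ((S : Set (Sym2 (Fin n))))))) : ℝ) - E n) ^ 2))) →
      ∀ᶠ n : ℕ in atTop, ∀ a : ℕ,
        (n : ℝ) ^ (1 / 2 : ℝ) ≤ (Nat.choose n a : ℝ) * (1 - p) ^ (Nat.choose a 2) →
        (Nat.choose n a : ℝ) * (1 - p) ^ (Nat.choose a 2) ≤ (n : ℝ) ^ (1 - ε) →
          σ n ≤ Real.log (n : ℝ) ^ 8 * ((n : ℝ) ^ (2 / 5 : ℝ) +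
            Real.sqrt ((Nat.choose n a : ℝ) * (1 - p) ^ (Nat.choose a 2))) := by
  intro p h0 hp ε hε E σ hE hσ
  have he : 0 < Real.exp (-2) := Real.exp_pos _
  have h1 : p < 1 := by linarith
  have hB : -Real.log (1 - p) ≤ 2 := by
    have h2 : Real.exp (-2) ≤ 1 - p := by linarith
    have h3 := Real.log_le_log he h2
    rw [Real.log_exp] at h3
    linarith
  filter_upwards [var_chi2 h0 h1 hB hε, eventually_ge_atTop 3] with n hn hn3
  intro a ha1 ha2
  have hmu : (Nat.choose n a : ℝ) * (1 - p) ^ (Nat.choose a 2) = mu p n a := rfl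
  rw [hmu] at ha1 ha2 ⊢
  have hv := hn a ha1 ha2
  have hn' : (0 : ℝ) < n := by exact_mod_cast (by omega : 0 < n)
  have hn1 : (1 : ℝ) < n := by exact_mod_cast (by omega : 1 < n)
  have hlogn : 0 < Real.log n := Real.log_pos hn1
  have hmu0 : 0 ≤ mu p n a := (Real.rpow_nonneg hn'.le _).trans ha1
  have e1 : E n = Ex p (fun x : Cf n => chi x) := by
    rw [hE n]
    exact bridge n (fun G => ((ENat.toNat (SimpleGraph.chromaticNumber G) : ℕ) : ℝ))
  have e2 : σ n = Real.sqrt (Ex p (fun x : Cf n => (chi x - E n) ^ 2)) := by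
    rw [hσ n]
    congr 1
    exact bridge n (fun G => (((ENat.toNat (SimpleGraph.chromaticNumber G) : ℕ) : ℝ) - E n) ^ 2)
  rw [e2, e1]
  refine (Real.sqrt_le_sqrt hv).trans ?_
  rw [Real.sqrt_mul (by positivity)]
  have e3 : Real.sqrt (Real.log n ^ 16) = Real.log n ^ 8 := by
    rw [show Real.log (n : ℝ) ^ 16 = (Real.log n ^ 8) ^ 2 by ring]
    exact Real.sqrt_sq (by positivity)
  rw [e3]
  apply mul_le_mul_of_nonneg_left _ (by positivity)
  have e4 : Real.sqrt ((n : ℝ) ^ (4 / 5 : ℝ) + mu p n a) ≤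
      Real.sqrt ((n : ℝ) ^ (4 / 5 : ℝ)) + Real.sqrt (mu p n a) := by
    rw [Real.sqrt_le_left (by positivity)]
    have h5 := Real.sq_sqrt (Real.rpow_nonneg hn'.le (4 / 5 : ℝ))
    have h6 := Real.sq_sqrt hmu0
    have h7 := Real.sqrt_nonneg ((n : ℝ) ^ (4 / 5 : ℝ))
    have h8 := Real.sqrt_nonneg (mu p n a)
    nlinarith [mul_nonneg h7 h8]
  have e5 : Real.sqrt ((n : ℝ) ^ (4 / 5 : ℝ)) = (n : ℝ) ^ (2 / 5 : ℝ) := by
    rw [Real.sqrt_eq_rpow, ← Real.rpow_mul hn'.le]
    norm_num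
  rw [e5] at e4
  exact e4

end Pool.Agent.CHP
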