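import Pool.Agent.CHP.Str
import Pool.Agent.CHP.EZb
import Pool.Agent.CHP.Lss

/-!
# CHP / Nea: upper bound for the expected number of packings; near-optimal profiles

Notation: `ℒ = log n`, `k = num S κ`, `s = sz S κ ≤ n`, `U = n - s`, `κ_> = ∑ v ∈ Ioc t S, κ v`, `B = -log (1-p)`.
PROOF of `logEZ_up`.  `logEZ_le`: `log EZ κ ≤ ∑_{v ≤ S} κ v (log (N_v/κ v) + 1) - s + U log (n/U) + log (n+1) + 1`.
For `v ≤ t`: `N_v = ko v exp (A - G v)` (`gib.eq`), `κ v (log (N_v/κ v) + 1) = κ v (A - G v) - κ v log (κ v/ko v) + κ v`, so the sum over `v ≤ t` is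
`A k_≤ - G s_≤ - KL + ks` (`k_≤ = ∑_{v≤t} κ v`, `s_≤ = ∑_{v≤t} v κ v`).  For `t < v ≤ S`: `κ v (log (N_v/κ v) + 1) ≤ κ v (log N_v + 1) ≤ 2 ℒ κ v` (`Nb1`, `Nb2`,
`κ v ≥ 1` or `κ v = 0`).  `A k_≤ - G s_≤ = A k - G s - ∑_{v>t} κ v (A - G v) ≤ A k - G s + C0 ℒ κ_>` (`At`).  Finally
`- G s - s = -(G+1) n + (G+1) U = -(A+1) ks + (G+1) U` (`gib.ent`).  Sum: the claim.  (`n ≥ 3`, so `ℒ ≥ 1`.)
`EZ_near`: `A (k - ks) ≤ 4 Λ`, `(G + 1) U ≤ 2 ℒ U ≤ 2 Λ`, `U log (n/U) ≤ U ℒ ≤ Λ` (`U` is a natural number: `U = 0` or `U ≥ 1`), `KL ≥ 0` (`kl_nonneg`),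
`κ_> ℒ ≤ Λ` (`big`, `ℒ ≥ 1`), `log (n+1) + 1 ≤ Λ` for large `n` (`Λ ≥ n^g ℒ`).
`small_near`: `n = ∑ u ko u ≤ t ks` (`gib.sum`), `ub`: so `t ≥ 0.9 ℒ`, `S ≤ t + C0`, hence `20 v < 19 S` implies `v ≤ t` for large `n`.  In
`KL = ∑_{u≤t} (κ u log (κ u/ko u) - κ u + ko u)` all terms are `≥ 0` (`kl_term`), and for `20 u < 19 S`, `κ u ≥ 1`: `log (κ u/ko u) ≥ 3 ℒ` (`tail`), so the
term is `≥ κ u (3 ℒ - 1) ≥ κ u ℒ`.
-/

set_option autoImplicit false

namespace Pool.Agent.CHP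

open Finset Filter

private theorem one_le_log {n : ℕ} (hn : 3 ≤ n) : 1 ≤ Real.log n := by
  have h1 : (3 : ℝ) ≤ n := by exact_mod_cast hn
  have h2 : Real.exp 1 ≤ n := by
    have := Real.exp_one_lt_d9
    linarith
  have h3 := Real.log_le_log (Real.exp_pos 1) h2
  rwa [Real.log_exp] at h3

private theorem split_sum {t S : ℕ} (h : t < S) (f : ℕ → ℝ) :
    ∑ v ∈ range (S + 1), f v = ∑ v ∈ range (t + 1), f v + ∑ v ∈ Ioc t S, f v := by
  have e : Ioc t S = Ico (t + 1) (S + 1) := by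
    ext x
    rw [Finset.mem_Ioc, Finset.mem_Ico]
    omega
  rw [e, Finset.range_eq_Ico, Finset.range_eq_Ico]
  exact (Finset.sum_Ico_consecutive f (Nat.zero_le _) (by omega)).symm

private theorem low_term {p g C0 cT : ℝ} {n S t lam : ℕ} {G A : ℝ} {ko : ℕ → ℝ}
    (hP : Par p g C0 cT n S t lam G A ko) (κ : ℕ → ℕ) {v : ℕ} (hv : v ≤ t) :
    (κ v : ℝ) * (Real.log (NN p n v / κ v) + 1) =
      (κ v : ℝ) * (A - G * v) - ((κ v : ℝ) * Real.log ((κ v : ℝ) / ko v) - κ v + ko v) + ko v := by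
  have hk := hP.pos v hv
  have hN : NN p n v = ko v * Real.exp (A - G * v) := by
    rw [hP.gib.eq v hv, mul_assoc, ← Real.exp_add]
    rw [show G * (v : ℝ) - A + (A - G * v) = 0 by ring, Real.exp_zero, mul_one]
  rcases Nat.eq_zero_or_pos (κ v) with h | h
  · rw [h]
    simp
  · have h' : (0 : ℝ) < κ v := by exact_mod_cast h
    rw [hN, Real.log_div (mul_pos hk (Real.exp_pos _)).ne' h'.ne', Real.log_mul hk.ne' (Real.exp_pos _).ne',
      Real.log_exp, Real.log_div h'.ne' hk.ne']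
    ring

private theorem high_term {p g C0 cT : ℝ} (h1 : p < 1) {n S t lam : ℕ} {G A : ℝ} {ko : ℕ → ℝ}
    (hn : 3 ≤ n) (hP : Par p g C0 cT n S t lam G A ko) (κ : ℕ → ℕ) {v : ℕ} (hv : t < v) (hv' : v ≤ S) :
    (κ v : ℝ) * (Real.log (NN p n v / κ v) + 1) ≤ 2 * Real.log n * κ v := by
  have hL := one_le_log hn
  rcases Nat.eq_zero_or_pos (κ v) with h | h
  · rw [h]
    simp
  · have h' : (1 : ℝ) ≤ κ v := by exact_mod_cast h
    have hN := NN_pos (p := p) h1 (show 0 < n by omega) v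
    have h2 : Real.log (NN p n v / κ v) ≤ Real.log n := by
      refine Real.log_le_log (div_pos hN (by linarith)) ?_
      refine le_trans (div_le_self hN.le h') ?_
      exact le_trans (hP.Nb1 v hv hv') hP.Nb2
    have h3 : Real.log (NN p n v / κ v) + 1 ≤ 2 * Real.log n := by linarith
    calc (κ v : ℝ) * (Real.log (NN p n v / κ v) + 1) ≤ (κ v : ℝ) * (2 * Real.log n) :=
          mul_le_mul_of_nonneg_left h3 (by linarith)
      _ = 2 * Real.log n * κ v := by ring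

theorem logEZ_up {p g C0 cT : ℝ} (h1 : p < 1) {n S t lam : ℕ} {G A : ℝ} {ko : ℕ → ℝ}
    (hn : 3 ≤ n) (hP : Par p g C0 cT n S t lam G A ko) (κ : ℕ → ℕ) (hs : sz S κ ≤ n) :
    Real.log (EZ p n S κ) ≤ A * (num S κ - ks t ko) + (G + 1) * ((n : ℝ) - sz S κ) +
      ((n : ℝ) - sz S κ) * Real.log (n / ((n : ℝ) - sz S κ)) - KL t ko (fun u => (κ u : ℝ)) +
      (C0 + 2) * Real.log n * ((∑ v ∈ Ioc t S, κ v : ℕ) : ℝ) + (Real.log ((n : ℝ) + 1) + 1) := by
  have h0 := logEZ_le h1 (show 0 < n by omega) hs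
  have hL := one_le_log hn
  have e1 : ∑ v ∈ range (t + 1), (κ v : ℝ) * (Real.log (NN p n v / κ v) + 1) =
      ∑ v ∈ range (t + 1), (κ v : ℝ) * (A - G * v) - KL t ko (fun u => (κ u : ℝ)) + ks t ko := by
    unfold KL ks
    rw [← Finset.sum_sub_distrib, ← Finset.sum_add_distrib]
    refine Finset.sum_congr rfl fun v hv => ?_
    rw [Finset.mem_range] at hv
    exact low_term hP κ (by omega)
  have e2 : ∑ v ∈ Ioc t S, (κ v : ℝ) * (Real.log (NN p n v / κ v) + 1) ≤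
      2 * Real.log n * ((∑ v ∈ Ioc t S, κ v : ℕ) : ℝ) := by
    rw [Nat.cast_sum, Finset.mul_sum]
    refine Finset.sum_le_sum fun v hv => ?_
    rw [Finset.mem_Ioc] at hv
    exact high_term h1 hn hP κ hv.1 hv.2
  have e3 : ∑ v ∈ range (S + 1), (κ v : ℝ) * (A - G * v) = A * num S κ - G * sz S κ := by
    unfold num sz
    push_cast
    rw [Finset.mul_sum, Finset.mul_sum, ← Finset.sum_sub_distrib]
    exact Finset.sum_congr rfl fun v _ => by ring
  have e4 : -(C0 * Real.log n * ((∑ v ∈ Ioc t S, κ v : ℕ) : ℝ)) ≤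
      ∑ v ∈ Ioc t S, (κ v : ℝ) * (A - G * v) := by
    rw [Nat.cast_sum, Finset.mul_sum, ← Finset.sum_neg_distrib]
    refine Finset.sum_le_sum fun v hv => ?_
    rw [Finset.mem_Ioc] at hv
    have h2 := (abs_le.1 (hP.At v hv.1.le hv.2)).1
    have h3 : (0 : ℝ) ≤ κ v := Nat.cast_nonneg _
    calc -(C0 * Real.log n * (κ v : ℝ)) = (κ v : ℝ) * (-(C0 * Real.log n)) := by ring
      _ ≤ (κ v : ℝ) * (A - G * v) := mul_le_mul_of_nonneg_left h2 h3
  have e5 := split_sum hP.lt (fun v => (κ v : ℝ) * (A - G * v))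
  have e6 := split_sum hP.lt (fun v => (κ v : ℝ) * (Real.log (NN p n v / κ v) + 1))
  have e7 := hP.gib.ent
  rw [e6, e1] at h0
  rw [e3] at e5
  have e8 : A * (num S κ - ks t ko) + (G + 1) * ((n : ℝ) - sz S κ) =
      A * num S κ - G * sz S κ + ks t ko - sz S κ + ((1 + G) * n - (A + 1) * ks t ko) := by ring
  rw [e8, e7, sub_self]
  have e9 : (C0 + 2) * Real.log n * ((∑ v ∈ Ioc t S, κ v : ℕ) : ℝ) =
      C0 * Real.log n * ((∑ v ∈ Ioc t S, κ v : ℕ) : ℝ) + 2 * Real.log n * ((∑ v ∈ Ioc t S, κ v : ℕ) : ℝ) := by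
    ring
  rw [e9]
  linarith

theorem EZ_near {p g : ℝ} (h0 : 0 < p) (h1 : p < 1) (hg : 0 < g) (C0 cT : ℝ) :
    ∃ C : ℝ, 0 < C ∧ ∀ᶠ n : ℕ in atTop, ∀ (S t lam : ℕ) (G A : ℝ) (ko : ℕ → ℝ),
      Par p g C0 cT n S t lam G A ko → ∀ Λ : ℝ, (n : ℝ) ^ g * Real.log n ≤ Λ →
      ∀ κ : ℕ → ℕ, Near n S t lam A ko Λ κ → Real.log (EZ p n S κ) ≤ C * Λ := by
  refine ⟨|C0| + 10, by positivity, ?_⟩
  have hev : ∀ᶠ n : ℕ in atTop, (3 : ℝ) ≤ (n : ℝ) ^ g :=
    ((tendsto_rpow_atTop hg).comp tendsto_natCast_atTop_atTop).eventually_ge_atTop 3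
  filter_upwards [hev, eventually_ge_atTop 3] with n hng hn S t lam G A ko hP Λ hΛ κ hN
  have hL := one_le_log hn
  have hup := logEZ_up h1 hn hP κ hN.le
  have hn' : (3 : ℝ) ≤ n := by exact_mod_cast hn
  have hC0 : 1 ≤ C0 := by
    have h2 := hP.St
    have h3 : (t : ℝ) + 1 ≤ S := by exact_mod_cast hP.lt
    linarith
  have hU : (0 : ℝ) ≤ (n : ℝ) - sz S κ := by
    have : (sz S κ : ℝ) ≤ n := by exact_mod_cast hN.le
    linarith
  have b1 := hN.up
  have b2 : (G + 1) * ((n : ℝ) - sz S κ) ≤ 2 * Λ := by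
    have h2 : G + 1 ≤ 2 * Real.log n := by linarith [hP.G1]
    calc (G + 1) * ((n : ℝ) - sz S κ) ≤ 2 * Real.log n * ((n : ℝ) - sz S κ) :=
          mul_le_mul_of_nonneg_right h2 hU
      _ = 2 * (((n : ℝ) - sz S κ) * Real.log n) := by ring
      _ ≤ 2 * Λ := by linarith [hN.unc]
  have b3 : ((n : ℝ) - sz S κ) * Real.log (n / ((n : ℝ) - sz S κ)) ≤ Λ := by
    refine le_trans (mul_le_mul_of_nonneg_left ?_ hU) hN.unc
    rcases Nat.eq_zero_or_pos (n - sz S κ) with h | h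
    · have h2 : (n : ℝ) - sz S κ = 0 := by
        have h3 : n = sz S κ := by
          have := hN.le
          omega
        have h4 : (n : ℝ) = sz S κ := by exact_mod_cast h3
        linarith
      rw [h2, div_zero, Real.log_zero]
      linarith
    · have h2 : (1 : ℝ) ≤ (n : ℝ) - sz S κ := by
        rw [← Nat.cast_sub hN.le]
        exact_mod_cast h
      refine Real.log_le_log (by positivity) (div_le_self (by linarith) h2)
  have b4 : 0 ≤ KL t ko (fun u => (κ u : ℝ)) :=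
    kl_nonneg t ko _ hP.pos (fun u _ => Nat.cast_nonneg _)
  have b5 : (C0 + 2) * Real.log n * ((∑ v ∈ Ioc t S, κ v : ℕ) : ℝ) ≤ (|C0| + 2) * Λ := by
    have h2 : Real.log n ≤ Real.log n ^ 3 := by nlinarith [mul_self_nonneg (Real.log n)]
    have h3 : Real.log n * ((∑ v ∈ Ioc t S, κ v : ℕ) : ℝ) ≤ Λ := by
      refine le_trans ?_ hN.big
      rw [mul_comm]
      exact mul_le_mul_of_nonneg_left h2 (Nat.cast_nonneg _)
    have h4 : 0 ≤ Real.log n * ((∑ v ∈ Ioc t S, κ v : ℕ) : ℝ) := by positivity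
    have h5 := le_abs_self C0
    calc (C0 + 2) * Real.log n * ((∑ v ∈ Ioc t S, κ v : ℕ) : ℝ)
        = (C0 + 2) * (Real.log n * ((∑ v ∈ Ioc t S, κ v : ℕ) : ℝ)) := by ring
      _ ≤ (|C0| + 2) * (Real.log n * ((∑ v ∈ Ioc t S, κ v : ℕ) : ℝ)) :=
        mul_le_mul_of_nonneg_right (by linarith) h4
      _ ≤ (|C0| + 2) * Λ := mul_le_mul_of_nonneg_left h3 (by positivity)
  have b6 : Real.log ((n : ℝ) + 1) + 1 ≤ Λ := by
    have h2 : Real.log ((n : ℝ) + 1) ≤ Real.log n + 1 := by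
      have h3 : (n : ℝ) + 1 ≤ n * Real.exp 1 := by
        have := Real.add_one_le_exp (1 : ℝ)
        nlinarith
      have h4 := Real.log_le_log (by linarith) h3
      rwa [Real.log_mul (by linarith) (Real.exp_pos 1).ne', Real.log_exp] at h4
    have h5 : 3 * Real.log n ≤ (n : ℝ) ^ g * Real.log n :=
      mul_le_mul_of_nonneg_right hng (by linarith)
    linarith
  have e : (|C0| + 10) * Λ = 4 * Λ + 2 * Λ + Λ + (|C0| + 2) * Λ + Λ := by ring
  rw [e]
  linarith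

theorem small_near {p g : ℝ} (h0 : 0 < p) (h1 : p < 1) (C0 cT : ℝ) :
    ∀ᶠ n : ℕ in atTop, ∀ (S t lam : ℕ) (G A : ℝ) (ko : ℕ → ℝ),
      Par p g C0 cT n S t lam G A ko → ∀ Λ : ℝ,
      ∀ κ : ℕ → ℕ, Near n S t lam A ko Λ κ →
        ((∑ v ∈ (range (S + 1)).filter (fun v => 20 * v < 19 * S), κ v : ℕ) : ℝ) * Real.log n ≤
          Λ := by
  have hev : ∀ᶠ n : ℕ in atTop, 30 * C0 ≤ Real.log n :=
    (Real.tendsto_log_atTop.comp tendsto_natCast_atTop_atTop).eventually_ge_atTop (30 * C0)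
  filter_upwards [hev, eventually_ge_atTop 3] with n hlog hn S t lam G A ko hP Λ κ hN
  have hL := one_le_log hn
  have hn' : (3 : ℝ) ≤ n := by exact_mod_cast hn
  have hks : (n : ℝ) ≤ t * ks t ko := by
    rw [← hP.gib.sum]
    unfold ks
    rw [Finset.mul_sum]
    refine Finset.sum_le_sum fun u hu => ?_
    rw [Finset.mem_range] at hu
    have h2 : (u : ℝ) ≤ t := by exact_mod_cast (show u ≤ t by omega)
    exact mul_le_mul_of_nonneg_right h2 (hP.pos u (by omega)).le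
  have hks0 : 0 < ks t ko := by
    unfold ks
    refine Finset.sum_pos (fun u hu => ?_) ⟨0, Finset.mem_range.2 (by omega)⟩
    rw [Finset.mem_range] at hu
    exact hP.pos u (by omega)
  have ht : 9 / 10 * Real.log n ≤ t := by
    have h2 := le_trans hP.ub hks
    exact le_of_mul_le_mul_right h2 hks0
  have hvt : ∀ v : ℕ, 20 * v < 19 * S → v ≤ t := by
    intro v hv
    have h2 : 20 * (v : ℝ) < 19 * S := by exact_mod_cast hv
    have h3 := hP.St
    have h4 : (v : ℝ) ≤ t := by linarith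
    exact_mod_cast h4
  have hsub : (range (S + 1)).filter (fun v => 20 * v < 19 * S) ⊆ range (t + 1) := by
    intro v hv
    rw [Finset.mem_filter] at hv
    rw [Finset.mem_range]
    have := hvt v hv.2
    omega
  refine le_trans ?_ hN.kl
  unfold KL
  refine le_trans ?_ (Finset.sum_le_sum_of_subset_of_nonneg hsub ?_)
  · rw [Nat.cast_sum, Finset.sum_mul]
    refine Finset.sum_le_sum fun v hv => ?_
    rw [Finset.mem_filter] at hv
    have hv' := hvt v hv.2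
    have hk := hP.pos v hv'
    rcases Nat.eq_zero_or_pos (κ v) with h | h
    · have e0 : ((κ v : ℕ) : ℝ) = 0 := by rw [h, Nat.cast_zero]
      show ((κ v : ℕ) : ℝ) * Real.log n ≤ (κ v : ℝ) * Real.log ((κ v : ℝ) / ko v) - κ v + ko v
      rw [e0, zero_mul, zero_mul, sub_zero, zero_add]
      exact hk.le
    · have h' : (1 : ℝ) ≤ κ v := by exact_mod_cast h
      have h2 := hP.tail v hv.2 hv'
      have h3 : 3 * Real.log n ≤ Real.log ((κ v : ℝ) / ko v) := by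
        have h4 : Real.log (ko v) ≤ -3 * Real.log n := by
          have h5 := Real.log_le_log hk h2
          rwa [Real.log_rpow (by linarith)] at h5
        rw [Real.log_div (by linarith) hk.ne']
        have h6 := Real.log_nonneg h'
        linarith
      have h4 : (κ v : ℝ) * (3 * Real.log n) ≤ κ v * Real.log ((κ v : ℝ) / ko v) :=
        mul_le_mul_of_nonneg_left h3 (by linarith)
      have h5 : (κ v : ℝ) ≤ κ v * Real.log n := by nlinarith
      show ((κ v : ℕ) : ℝ) * Real.log n ≤ (κ v : ℝ) * Real.log ((κ v : ℝ) / ko v) - κ v + ko v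
      linarith
  · intro v hv _
    rw [Finset.mem_range] at hv
    exact kl_term (Nat.cast_nonneg _) (hP.pos v (by omega))

end Pool.Agent.CHP
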