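import Pool.Agent.CHP.Nea
import Pool.Agent.CHV.Grf

/-!
# CHP / Nod: an optimal packing has a near-optimal profile

Notation: `ℒ = log n`, `κ = prof P`, `k = num S κ = |P|`, `s = sz S κ = ∑_{I ∈ P} |I| ≤ n` (the classes are disjoint and have sizes in `(lam, S]`; group by
the size: `Finset.sum_fiberwise_of_maps_to`), `U = n - s`, `κ_> = ∑ v ∈ Ioc t S, κ v`, `B = -log (1-p)`, `N' = NN p n (t+1)`.
PROOF.
1. `κ v = 0` for `v ≤ lam`.
2. For `t < v ≤ S`, `m = κ v ≥ 1`: apply the hypothesis to `P' = P.filter (card = v)`, with profile `m` at `v` and `0` elsewhere (a packing: `Pack` passes to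
subsets): `n^(-3(S+1)) ≤ EZ = NN_v^m/m! * (n)_{vm}/n^{vm} ≤ NN_v^m/m! ≤ (exp 1 * NN_v/m)^m` (`m^m/m! ≤ exp m`).  If `m ≥ exp 2 * NN_v` the right side is
`≤ exp (-m)`, so `m ≤ 3 (S+1) ℒ`.  So in any case `κ v ≤ 8 NN_v + 3 (S+1) ℒ ≤ 8 N' + 3 (S+1) ℒ` (`exp 2 < 8`, `Nb1`), and
`κ_> ≤ (C0 + 1)(8 N' + 3 (S+1) ℒ)` (`St`), `κ_> ℒ^3 ≤ C ℒ^5 (N' + 1)` for large `n` (`SL`: `S ≤ (2/B) ℒ`).
3. The hypothesis for `P`: `-3 (S+1) ℒ ≤ log EZ κ`, so `logEZ_up` gives
`KL ≤ A (k - ks) + (G+1) U + U log (n/U) + E`, `E = (C0+2) ℒ κ_> + log (n+1) + 1 + 3 (S+1) ℒ ≤ C ℒ^5 (N'+1)` (*)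
4. `lam k + U ≤ lam ks + Γ`: `A (k - ks) ≤ (A/lam)(Γ - U) ≤ 40 ℒ Γ - (3 ℒ + 1) U` (`A0`, `A1`; `lam > 0`; `(A/lam) U ≥ (3ℒ+1) U`, `(A/lam) Γ ≤ 40 ℒ Γ`).
`U log (n/U) ≤ U ℒ` (`U = 0` or `U ≥ 1`), `G ≤ ℒ`.  So (*) gives `KL + U ℒ ≤ 40 ℒ Γ + E`, hence `kl` and `unc` (`KL ≥ 0`, `kl_nonneg`).
5. `up`: `A (k - ks) ≤ 40 ℒ Γ`.  `lo`: from (*) with `KL ≥ 0`: `A (ks - k) ≤ (G + 1 + ℒ) U + E ≤ 3 ℒ U + E ≤ 3 Λ + Λ` (`ℒ ≥ 1`), `Λ = 40 ℒ Γ + E`-like, so
take `C` so large that `C ℒ Γ + C ℒ^5 (N'+1) ≥ 40 ℒ Γ + E` and `≥ κ_> ℒ^3`.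
-/

set_option autoImplicit false

namespace Pool.Agent.CHP

open Finset Filter Pool.Agent.CHV

private theorem sz_prof {n S lam : ℕ} {x : Cf n} {P : Finset (Finset (Fin n))}
    (hP : Pack S lam x P) : sz S (prof P) = ∑ I ∈ P, I.card := by
  have h1 : ∀ I ∈ P, I.card ∈ range (S + 1) := fun I hI => by
    rw [Finset.mem_range]
    have := hP.le I hI
    omega
  rw [← Finset.sum_fiberwise_of_maps_to h1 (fun I => I.card)]
  unfold sz prof
  refine Finset.sum_congr rfl fun v _ => ?_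
  rw [Finset.sum_congr rfl (g := fun _ => v) (fun I hI => (Finset.mem_filter.1 hI).2),
    Finset.sum_const, smul_eq_mul, mul_comm]

private theorem num_prof {n S lam : ℕ} {x : Cf n} {P : Finset (Finset (Fin n))}
    (hP : Pack S lam x P) : num S (prof P) = P.card := by
  have h1 : ∀ I ∈ P, I.card ∈ range (S + 1) := fun I hI => by
    rw [Finset.mem_range]
    have := hP.le I hI
    omega
  rw [Finset.card_eq_sum_card_fiberwise h1]
  rfl

private theorem sum_le_n {n S lam : ℕ} {x : Cf n} {P : Finset (Finset (Fin n))}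
    (h : Pack S lam x P) : ∑ I ∈ P, I.card ≤ n := by
  have h1 : (P.biUnion id).card = ∑ I ∈ P, I.card := Finset.card_biUnion h.disj
  rw [← h1]
  exact (Finset.card_le_univ _).trans (by rw [Fintype.card_fin])

private theorem pack_filter {n S lam : ℕ} {x : Cf n} {P : Finset (Finset (Fin n))}
    (h : Pack S lam x P) (v : ℕ) : Pack S lam x (P.filter (fun I => I.card = v)) := by
  refine ⟨fun I hI => h.ind I (Finset.mem_filter.1 hI).1, fun I hI => h.le I (Finset.mem_filter.1 hI).1,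
    fun I hI => h.gt I (Finset.mem_filter.1 hI).1, fun I hI J hJ => h.disj I (Finset.mem_filter.1 hI).1
      J (Finset.mem_filter.1 hJ).1⟩

private theorem prof_filter {n : ℕ} (P : Finset (Finset (Fin n))) (v u : ℕ) :
    prof (P.filter (fun I => I.card = v)) u = if u = v then prof P v else 0 := by
  unfold prof
  rw [Finset.filter_filter]
  by_cases h : u = v
  · subst h
    rw [if_pos rfl]
    congr 1
    ext I
    simp only [Finset.mem_filter, and_self]
  · rw [if_neg h, Finset.card_eq_zero, Finset.filter_eq_empty_iff]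
    rintro I _ ⟨h1, h2⟩
    exact h (h2.symm.trans h1)

private theorem kap_bound {p : ℝ} (h1 : p < 1) {n S lam v : ℕ} (hn : 0 < n) {x : Cf n}
    {P : Finset (Finset (Fin n))} (hP : Pack S lam x P) (hv : v ≤ S)
    (hyp : (n : ℝ) ^ (-(3 * ((S : ℝ) + 1))) ≤
      EZ p n S (prof (P.filter (fun I => I.card = v)))) :
    ((prof P v : ℕ) : ℝ) ≤ 8 * NN p n v + 3 * ((S : ℝ) + 1) * Real.log n := by
  have hn' : (0 : ℝ) < n := by exact_mod_cast hn
  have hn1 : (1 : ℝ) ≤ n := by exact_mod_cast hn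
  have hL : 0 ≤ Real.log n := Real.log_nonneg hn1
  have hN := NN_pos (p := p) h1 hn v
  set m := prof P v with hm
  have hmf : (0 : ℝ) < (m.factorial : ℝ) := by exact_mod_cast Nat.factorial_pos m
  have hE : EZ p n S (prof (P.filter (fun I => I.card = v))) ≤
      NN p n v ^ m / (m.factorial : ℝ) := by
    unfold EZ
    have h2 : ∏ u ∈ range (S + 1), NN p n u ^ prof (P.filter (fun I => I.card = v)) u /
        ((prof (P.filter (fun I => I.card = v)) u).factorial : ℝ) =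
        NN p n v ^ m / (m.factorial : ℝ) := by
      rw [Finset.prod_eq_single v]
      · rw [prof_filter, if_pos rfl]
      · intro u _ hu
        rw [prof_filter, if_neg hu]
        simp
      · intro h3
        exact absurd (Finset.mem_range.2 (by omega)) h3
    rw [h2]
    have h3 : ((n.descFactorial (sz S (prof (P.filter (fun I => I.card = v)))) : ℝ) /
        (n : ℝ) ^ (sz S (prof (P.filter (fun I => I.card = v))))) ≤ 1 := by
      rw [div_le_one (by positivity)]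
      exact_mod_cast Nat.descFactorial_le_pow n _
    calc NN p n v ^ m / (m.factorial : ℝ) * _ ≤ NN p n v ^ m / (m.factorial : ℝ) * 1 :=
          mul_le_mul_of_nonneg_left h3 (by positivity)
      _ = _ := mul_one _
  rcases le_or_gt (m : ℝ) (8 * NN p n v) with h2 | h2
  · have h3 : 0 ≤ 3 * ((S : ℝ) + 1) * Real.log n := by positivity
    linarith
  · have h3 : NN p n v ≤ (m : ℝ) / 8 := by linarith
    have h4 : NN p n v ^ m / (m.factorial : ℝ) ≤ Real.exp (-(m : ℝ)) := by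
      have h5 : NN p n v ^ m ≤ ((m : ℝ) / 8) ^ m := pow_le_pow_left₀ hN.le h3 m
      have h6 : (m : ℝ) ^ m / (m.factorial : ℝ) ≤ Real.exp m :=
        Real.pow_div_factorial_le_exp _ (Nat.cast_nonneg m) m
      have h7 : Real.exp 2 ≤ 8 := by
        have h8 : Real.exp 2 = Real.exp 1 * Real.exp 1 := by rw [← Real.exp_add]; norm_num
        have h9 := Real.exp_one_lt_d9
        have h10 := Real.exp_pos 1
        rw [h8]
        nlinarith
      have h8 : Real.exp (2 * m) ≤ (8 : ℝ) ^ m := by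
        have h9 : Real.exp (2 * m) = Real.exp 2 ^ m := by rw [← Real.exp_nat_mul, mul_comm]
        rw [h9]
        exact pow_le_pow_left₀ (Real.exp_pos 2).le h7 m
      calc NN p n v ^ m / (m.factorial : ℝ) ≤ ((m : ℝ) / 8) ^ m / (m.factorial : ℝ) := by
            apply div_le_div_of_nonneg_right h5 hmf.le
        _ = ((m : ℝ) ^ m / (m.factorial : ℝ)) / 8 ^ m := by
            rw [div_pow, div_right_comm]
        _ ≤ Real.exp m / 8 ^ m := by
            apply div_le_div_of_nonneg_right h6 (by positivity)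
        _ ≤ Real.exp m / Real.exp (2 * m) := by
            apply div_le_div_of_nonneg_left (Real.exp_pos _).le (Real.exp_pos _) h8
        _ = Real.exp (-(m : ℝ)) := by
            rw [← Real.exp_sub]
            congr 1
            ring
    have h5 : Real.exp (Real.log n * (-(3 * ((S : ℝ) + 1)))) ≤ Real.exp (-(m : ℝ)) := by
      rw [← Real.rpow_def_of_pos hn']
      exact hyp.trans (hE.trans h4)
    rw [Real.exp_le_exp] at h5
    nlinarith [hN]

theorem near_of {p g : ℝ} (h0 : 0 < p) (h1 : p < 1) (C0 cT : ℝ) :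
    ∃ C : ℝ, 0 < C ∧ ∀ᶠ n : ℕ in atTop, ∀ (S t lam : ℕ) (G A : ℝ) (ko : ℕ → ℝ),
      Par p g C0 cT n S t lam G A ko → ∀ (x : Cf n) (P : Finset (Finset (Fin n))),
      Pack S lam x P →
      (∀ P', Pack S lam x P' → (n : ℝ) ^ (-(3 * ((S : ℝ) + 1))) ≤ EZ p n S (prof P')) →
      ∀ Γ : ℝ, 0 ≤ Γ →
      (lam : ℝ) * P.card + ((n : ℝ) - ((∑ I ∈ P, I.card : ℕ) : ℝ)) ≤ lam * ks t ko + Γ →
      Near n S t lam A ko
        (C * Real.log n * Γ + C * Real.log n ^ 5 * (NN p n (t + 1) + 1)) (prof P) := by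
  have hB : 0 < -Real.log (1 - p) := by
    have := Real.log_neg (show 0 < 1 - p by linarith) (show 1 - p < 1 by linarith)
    linarith
  set B := -Real.log (1 - p) with hBdef
  set c : ℝ := 2 / B with hc
  have hc0 : 0 < c := by positivity
  set D : ℝ := |C0| * (8 + 3 * (c + 1)) with hD
  have hD0 : 0 ≤ D := by positivity
  refine ⟨40 + D + ((|C0| + 2) * D + 3 + 3 * (c + 1)), by positivity, ?_⟩
  filter_upwards [eventually_ge_atTop 3] with n hn3 S t lam G A ko hP x P hPk hyp Γ hΓ hval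
  have hn3' : (3 : ℝ) ≤ n := by exact_mod_cast hn3
  have hn0 : (0 : ℝ) < n := by linarith
  have hnpos : 0 < n := by omega
  have hL1 : 1 ≤ Real.log n := by
    have h4 : Real.log (Real.exp 1) ≤ Real.log n := by
      apply Real.log_le_log (Real.exp_pos 1)
      have := Real.exp_one_lt_d9
      linarith
    rwa [Real.log_exp] at h4
  set L := Real.log (n : ℝ) with hL
  have hL0 : 0 < L := by linarith
  set N' := NN p n (t + 1) with hN'
  have hN0 : 0 < N' := NN_pos h1 hnpos _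
  have hC0 : 0 < C0 := by
    have h4 : (t : ℝ) < S := by exact_mod_cast hP.lt
    have h5 := hP.St
    linarith
  have habs : |C0| = C0 := abs_of_pos hC0
  rw [habs] at hD ⊢
  have hS : (S : ℝ) ≤ c * L := by
    have h5 := hP.SL
    rw [hc, div_mul_eq_mul_div, le_div_iff₀ hB]
    linarith
  have hL2 : L ≤ L ^ 2 := by nlinarith
  have hL2' : 1 ≤ L ^ 2 := one_le_pow₀ hL1
  have hL3 : L ^ 3 ≤ L ^ 5 := pow_le_pow_right₀ hL1 (by norm_num)
  have hL25 : L ^ 2 ≤ L ^ 5 := pow_le_pow_right₀ hL1 (by norm_num)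
  have hL15 : L ≤ L ^ 5 := by
    calc L = L ^ 1 := (pow_one L).symm
      _ ≤ L ^ 5 := pow_le_pow_right₀ hL1 (by norm_num)
  have hS1L : 3 * ((S : ℝ) + 1) * L ≤ 3 * (c + 1) * L ^ 2 := by
    have h4 : (S : ℝ) + 1 ≤ (c + 1) * L := by nlinarith
    have h5 := mul_le_mul_of_nonneg_right h4 hL0.le
    nlinarith
  -- sizes
  have hszP := sz_prof hPk
  have hnumP := num_prof hPk
  have hsn := sum_le_n hPk
  set κ := prof P with hκ
  have hszn : sz S κ ≤ n := by rw [hszP]; exact hsn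
  -- large classes
  set kg : ℝ := ((∑ v ∈ Ioc t S, κ v : ℕ) : ℝ) with hkg
  have hkg0 : 0 ≤ kg := Nat.cast_nonneg _
  have hkgle : kg ≤ D * L ^ 2 * (N' + 1) := by
    have h4 : kg ≤ ∑ v ∈ Ioc t S, (8 * N' + 3 * (c + 1) * L ^ 2) := by
      rw [hkg]
      push_cast
      refine Finset.sum_le_sum fun v hv => ?_
      rw [Finset.mem_Ioc] at hv
      have h5 := kap_bound h1 hnpos hPk hv.2 (hyp _ (pack_filter hPk v))
      have h6 := hP.Nb1 v hv.1 hv.2
      rw [← hκ] at h5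
      linarith
    rw [Finset.sum_const, Nat.card_Ioc, nsmul_eq_mul, Nat.cast_sub hP.lt.le] at h4
    have h5 : (S : ℝ) - t ≤ C0 := by have := hP.St; linarith
    have h6 : 0 ≤ 8 * N' + 3 * (c + 1) * L ^ 2 := by positivity
    have h7 : 8 * N' + 3 * (c + 1) * L ^ 2 ≤ (8 + 3 * (c + 1)) * (L ^ 2 * (N' + 1)) := by
      have h8 : N' ≤ L ^ 2 * (N' + 1) := by nlinarith
      have h9 : L ^ 2 ≤ L ^ 2 * (N' + 1) := by nlinarith
      have h10 : 3 * (c + 1) * L ^ 2 ≤ 3 * (c + 1) * (L ^ 2 * (N' + 1)) :=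
        mul_le_mul_of_nonneg_left h9 (by positivity)
      linarith
    calc kg ≤ ((S : ℝ) - t) * (8 * N' + 3 * (c + 1) * L ^ 2) := h4
      _ ≤ C0 * (8 * N' + 3 * (c + 1) * L ^ 2) := mul_le_mul_of_nonneg_right h5 h6
      _ ≤ C0 * ((8 + 3 * (c + 1)) * (L ^ 2 * (N' + 1))) := mul_le_mul_of_nonneg_left h7 hC0.le
      _ = D * L ^ 2 * (N' + 1) := by rw [hD]; ring
  have hbig : kg * L ^ 3 ≤ D * (L ^ 5 * (N' + 1)) := by
    have h4 := mul_le_mul_of_nonneg_right hkgle (show 0 ≤ L ^ 3 by positivity)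
    calc kg * L ^ 3 ≤ D * L ^ 2 * (N' + 1) * L ^ 3 := h4
      _ = D * (L ^ 5 * (N' + 1)) := by ring
  -- the uncovered vertices
  set U : ℝ := (n : ℝ) - ((sz S κ : ℕ) : ℝ) with hU
  have hUnat : U = ((n - sz S κ : ℕ) : ℝ) := by rw [Nat.cast_sub hszn]
  have hU0 : 0 ≤ U := by rw [hUnat]; exact Nat.cast_nonneg _
  have hUlog : U * Real.log (n / U) ≤ U * L := by
    rcases Nat.eq_zero_or_pos (n - sz S κ) with h4 | h4
    · rw [hUnat, h4]
      simp
    · have h5 : 1 ≤ U := by rw [hUnat]; exact_mod_cast h4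
      apply mul_le_mul_of_nonneg_left _ hU0
      apply Real.log_le_log (by positivity)
      rw [div_le_iff₀ (by linarith)]
      nlinarith
  -- entropy inequality
  have hup := logEZ_up h1 hn3 hP κ hszn
  have hEZ := hyp P hPk
  have hlogEZ : -(3 * ((S : ℝ) + 1) * L) ≤ Real.log (EZ p n S κ) := by
    have h4 : Real.log ((n : ℝ) ^ (-(3 * ((S : ℝ) + 1)))) ≤ Real.log (EZ p n S κ) :=
      Real.log_le_log (by positivity) hEZ
    rw [Real.log_rpow hn0] at h4
    linarith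
  have hlogn1 : Real.log ((n : ℝ) + 1) + 1 ≤ 3 * L := by
    have h4 : Real.log ((n : ℝ) + 1) ≤ Real.log (n * Real.exp 1) := by
      apply Real.log_le_log (by linarith)
      have h5 := Real.add_one_le_exp (1 : ℝ)
      nlinarith
    rw [Real.log_mul hn0.ne' (Real.exp_pos 1).ne', Real.log_exp] at h4
    linarith
  have hKL0 : 0 ≤ KL t ko (fun u => ((κ u : ℕ) : ℝ)) :=
    kl_nonneg t ko _ hP.pos (fun u _ => Nat.cast_nonneg _)
  set KLk := KL t ko (fun u => ((κ u : ℕ) : ℝ)) with hKLk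
  set E : ℝ := (C0 + 2) * L * kg + (Real.log ((n : ℝ) + 1) + 1) + 3 * ((S : ℝ) + 1) * L with hE
  have hEle : E ≤ ((C0 + 2) * D + 3 + 3 * (c + 1)) * (L ^ 5 * (N' + 1)) := by
    have hLN : L ^ 5 ≤ L ^ 5 * (N' + 1) := by
      have : 0 ≤ L ^ 5 * N' := by positivity
      nlinarith
    have h4 : (C0 + 2) * L * kg ≤ (C0 + 2) * D * (L ^ 5 * (N' + 1)) := by
      have h5 : L * kg ≤ L * (D * L ^ 2 * (N' + 1)) := mul_le_mul_of_nonneg_left hkgle hL0.le
      have h6 : L * (D * L ^ 2 * (N' + 1)) = D * (L ^ 3 * (N' + 1)) := by ring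
      have h7 : L ^ 3 * (N' + 1) ≤ L ^ 5 * (N' + 1) :=
        mul_le_mul_of_nonneg_right hL3 (by linarith)
      have h8 : D * (L ^ 3 * (N' + 1)) ≤ D * (L ^ 5 * (N' + 1)) :=
        mul_le_mul_of_nonneg_left h7 hD0
      have h9 : L * kg ≤ D * (L ^ 5 * (N' + 1)) := by linarith
      have h10 := mul_le_mul_of_nonneg_left h9 (show 0 ≤ C0 + 2 by linarith)
      calc (C0 + 2) * L * kg = (C0 + 2) * (L * kg) := by ring
        _ ≤ (C0 + 2) * (D * (L ^ 5 * (N' + 1))) := h10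
        _ = _ := by ring
    have h5 : Real.log ((n : ℝ) + 1) + 1 ≤ 3 * (L ^ 5 * (N' + 1)) := by linarith
    have h6 : 3 * ((S : ℝ) + 1) * L ≤ 3 * (c + 1) * (L ^ 5 * (N' + 1)) := by
      refine hS1L.trans (mul_le_mul_of_nonneg_left ?_ (by positivity))
      linarith
    rw [hE]
    have h7 : ((C0 + 2) * D + 3 + 3 * (c + 1)) * (L ^ 5 * (N' + 1)) =
      (C0 + 2) * D * (L ^ 5 * (N' + 1)) + 3 * (L ^ 5 * (N' + 1)) +
        3 * (c + 1) * (L ^ 5 * (N' + 1)) := by ring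
    rw [h7]
    linarith
  have hstar : KLk ≤ A * (((num S κ : ℕ) : ℝ) - ks t ko) + (G + 1) * U + U * L + E := by
    have h4 : 0 ≤ U * L - U * Real.log (n / U) := by linarith
    rw [hE]
    linarith
  -- the price
  have hlam : (0 : ℝ) < lam := by exact_mod_cast hP.lam0
  have hAup : A * (((num S κ : ℕ) : ℝ) - ks t ko) ≤ 40 * L * Γ - (3 * L + 1) * U := by
    have h4 : (lam : ℝ) * (((num S κ : ℕ) : ℝ) - ks t ko) ≤ Γ - U := by
      rw [hnumP, hU, hszP]
      linarith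
    have hA0 := hP.A0
    have hA1 := hP.A1
    have h5 : A * (((num S κ : ℕ) : ℝ) - ks t ko) =
        (A / lam) * ((lam : ℝ) * (((num S κ : ℕ) : ℝ) - ks t ko)) := by
      field_simp
    have h6 : 3 * L + 1 ≤ A / lam := by
      rw [le_div_iff₀ hlam]
      exact hA0
    have h7 : A / lam ≤ 40 * L := by
      rw [div_le_iff₀ hlam]
      exact hA1
    have h8 : 0 ≤ A / lam := by linarith
    rw [h5]
    have h9 := mul_le_mul_of_nonneg_left h4 h8
    have h10 := mul_le_mul_of_nonneg_right h7 hΓ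
    have h11 := mul_le_mul_of_nonneg_right h6 hU0
    nlinarith
  have hGU : (G + 1) * U ≤ (L + 1) * U := by
    apply mul_le_mul_of_nonneg_right _ hU0
    have := hP.G1
    linarith
  have hUL0 : 0 ≤ U * L := mul_nonneg hU0 hL0.le
  have hmain : KLk + U * L ≤ 40 * L * Γ + E := by nlinarith
  have hLΓ : 0 ≤ L * Γ := mul_nonneg hL0.le hΓ
  have hLN0 : 0 ≤ L ^ 5 * (N' + 1) := by positivity
  set Ce : ℝ := (C0 + 2) * D + 3 + 3 * (c + 1) with hCe
  have hCe0 : 0 ≤ Ce := by positivity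
  have hΛ : (40 + D + Ce) * L * Γ + (40 + D + Ce) * L ^ 5 * (N' + 1) =
      40 * L * Γ + Ce * (L ^ 5 * (N' + 1)) + (D * (L * Γ) + Ce * (L * Γ) +
      40 * (L ^ 5 * (N' + 1)) + D * (L ^ 5 * (N' + 1))) := by ring
  have hr1 : 0 ≤ D * (L * Γ) := by positivity
  have hr2 : 0 ≤ Ce * (L * Γ) := by positivity
  have hr3 : 0 ≤ D * (L ^ 5 * (N' + 1)) := by positivity
  have hr4 : 0 ≤ Ce * (L ^ 5 * (N' + 1)) := by positivity
  have hΛ1 : 40 * L * Γ + E ≤ (40 + D + Ce) * L * Γ + (40 + D + Ce) * L ^ 5 * (N' + 1) := by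
    rw [hΛ]
    linarith
  have hE0 : 0 ≤ 40 * L * Γ + E := by linarith
  refine ⟨?_, hszn, ?_, ?_, ?_, ?_, ?_⟩
  · intro v hv
    rw [hκ]
    unfold prof
    rw [Finset.card_eq_zero, Finset.filter_eq_empty_iff]
    intro I hI h4
    have := hPk.gt I hI
    omega
  · exact le_trans (by linarith) hΛ1
  · exact le_trans (by linarith) hΛ1
  · have h4 : kg * L ^ 3 ≤ (40 + D + Ce) * L * Γ + (40 + D + Ce) * L ^ 5 * (N' + 1) := by
      rw [hΛ]
      linarith
    exact h4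
  · have h4 : A * (ks t ko - ((num S κ : ℕ) : ℝ)) = -(A * (((num S κ : ℕ) : ℝ) - ks t ko)) := by
      ring
    have h5 : U ≤ U * L := by nlinarith
    rw [h4]
    nlinarith
  · have h5 : 0 ≤ (3 * L + 1) * U := by positivity
    have h6 : 0 ≤ 40 * L * Γ := by positivity
    rw [hΛ]
    linarith

end Pool.Agent.CHP
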