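import Pool.Agent.CHP.Defs

/-!
# CHP / OpA: sums over ordered packings

PROOFS.  `OP_reindex`: `Finset.sum_bij'` (or `Finset.sum_equiv`) with the maps `J ↦ fun i => J (e i)` and `J ↦ fun k => J (e.symm k)`
(`mem_OP`; the conditions are transported by `e`).
`OP_cons`: `Finset.sum_sigma'` on the right; the bijection is `J ↦ ⟨J 0, fun i => J i.succ⟩` with inverse `⟨J0, J⟩ ↦ Fin.cons J0 J`:
`J ∈ OP R u` iff `J 0 ∈ R.powersetCard (u 0)` and `fun i => J i.succ ∈ OP (R \ J 0) (fun i => u i.succ)` (`Fin.forall_fin_succ`,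
`Finset.subset_sdiff`, `Disjoint.symm`).
-/

set_option autoImplicit false

namespace Pool.Agent.CHP

open Finset Pool.Agent.CHV

variable {n : ℕ}

theorem OP_reindex {ι κ : Type} [Fintype ι] [DecidableEq ι] [Fintype κ] [DecidableEq κ]
    (e : ι ≃ κ) (R : Finset (Fin n)) (u : κ → ℕ) (F : (κ → Finset (Fin n)) → ℝ) :
    ∑ J ∈ OP R u, F J = ∑ J ∈ OP R (fun i => u (e i)), F (fun k => J (e.symm k)) := by
  refine Finset.sum_bij' (fun J _ => fun i => J (e i)) (fun J _ => fun k => J (e.symm k))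
    ?_ ?_ ?_ ?_ ?_
  · intro J hJ
    rw [mem_OP] at hJ ⊢
    exact ⟨fun i => hJ.1 (e i), fun i j hij => hJ.2 _ _ (fun h => hij (e.injective h))⟩
  · intro J hJ
    rw [mem_OP] at hJ ⊢
    refine ⟨fun k => ?_, fun i j hij => hJ.2 _ _ (fun h => hij (e.symm.injective h))⟩
    have h := hJ.1 (e.symm k)
    rw [e.apply_symm_apply] at h
    exact h
  · intro J _
    funext k
    simp only [e.apply_symm_apply]
  · intro J _
    funext i
    simp only [e.symm_apply_apply]
  · intro J _
    congr 1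
    funext k
    simp only [e.apply_symm_apply]

theorem OP_cons {k : ℕ} (R : Finset (Fin n)) (u : Fin (k + 1) → ℕ)
    (F : (Fin (k + 1) → Finset (Fin n)) → ℝ) :
    ∑ J ∈ OP R u, F J = ∑ J0 ∈ R.powersetCard (u 0),
      ∑ J ∈ OP (R \ J0) (fun i : Fin k => u i.succ), F (Fin.cons J0 J) := by
  classical
  rw [Finset.sum_sigma']
  refine Finset.sum_bij'
    (fun J _ => (⟨J 0, fun i => J i.succ⟩ : (_ : Finset (Fin n)) × (Fin k → Finset (Fin n))))
    (fun P _ => Fin.cons P.1 P.2) ?_ ?_ ?_ ?_ ?_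
  · intro J hJ
    rw [mem_OP] at hJ
    rw [mem_sigma, mem_powersetCard, mem_OP]
    refine ⟨hJ.1 0, fun i => ⟨?_, (hJ.1 i.succ).2⟩, fun i j hij => hJ.2 _ _ ?_⟩
    · rw [subset_sdiff]
      exact ⟨(hJ.1 i.succ).1, hJ.2 _ _ (Fin.succ_ne_zero i)⟩
    · exact fun h => hij (Fin.succ_injective _ h)
  · rintro ⟨J0, J⟩ hP
    rw [mem_sigma, mem_powersetCard, mem_OP] at hP
    obtain ⟨⟨h1, h2⟩, h3, h4⟩ := hP
    rw [mem_OP]
    refine ⟨fun i => ?_, fun i j => ?_⟩
    · refine Fin.cases ?_ (fun i => ?_) i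
      · exact ⟨h1, h2⟩
      · have h := h3 i
        rw [subset_sdiff] at h
        exact ⟨h.1.1, h.2⟩
    · refine Fin.cases ?_ (fun i => ?_) i <;> refine Fin.cases ?_ (fun j => ?_) j
      · exact fun h => absurd rfl h
      · intro _
        have h := (h3 j).1
        rw [subset_sdiff] at h
        exact h.2.symm
      · intro _
        have h := (h3 i).1
        rw [subset_sdiff] at h
        exact h.2
      · intro hij
        exact h4 i j (fun h => hij (congrArg _ h))
  · intro J _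
    exact Fin.cons_self_tail J
  · rintro ⟨J0, J⟩ _
    simp only [Fin.cons_zero, Fin.cons_succ]
  · intro J _
    congr 1
    exact (Fin.cons_self_tail J).symm

end Pool.Agent.CHP
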