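import Pool.Agent.CHP.OpA

/-!
# CHP / OpB: the number of ordered packings

PROOFS.  `card_OP`: by `OP_reindex` with `F = 1` and `(Fintype.equivFin ι).symm` (`Equiv.prod_comp`, `Equiv.sum_comp` for the other
two quantities) it is enough to treat `ι = Fin k`.  Induction on `k`, for all `R`, with `OP_cons`, `F = 1`: for
`J0 ∈ R.powersetCard (u 0)` `(R \ J0).card = R.card - u 0`, so
`card * ∏ = C(|R|, u 0) (u 0)! * (|R| - u 0).descFactorial (∑ i, u i.succ)` and `C(m,l) l! = m.descFactorial l`
(`Nat.descFactorial_eq_factorial_mul_choose`), `m.descFactorial l * (m - l).descFactorial r = m.descFactorial (l + r)`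
(`Nat.descFactorial_mul_descFactorial` or a short induction).  `Fin.sum_univ_succ`, `Fin.prod_univ_succ`.
`card_OP_real`: divide.  `OP_nonempty`: from `card_OP`, `Nat.pow_sub_lt_descFactorial`-free: `descFactorial m l > 0` for `l ≤ m`
(`Nat.descFactorial_pos` or `Nat.descFactorial_eq_zero_iff_lt`).
-/

set_option autoImplicit false

namespace Pool.Agent.CHP

open Finset Pool.Agent.CHV

variable {n : ℕ} {ι : Type} [Fintype ι] [DecidableEq ι]

private lemma desc_add99 (m l r : ℕ) :
    m.descFactorial (l + r) = m.descFactorial l * (m - l).descFactorial r := by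
  induction r with
  | zero => simp
  | succ r ih =>
    rw [← add_assoc, Nat.descFactorial_succ, ih, Nat.descFactorial_succ, Nat.sub_sub]
    ring

private lemma card_OP_fin99 : ∀ (k : ℕ) (R : Finset (Fin n)) (u : Fin k → ℕ),
    ((OP R u).card : ℝ) * ∏ i, ((u i).factorial : ℝ) =
      (R.card.descFactorial (∑ i, u i) : ℝ) := by
  intro k
  induction k with
  | zero =>
    intro R u
    have h : OP R u = {fun i => i.elim0} := by
      ext J
      rw [mem_OP, mem_singleton]
      refine ⟨fun _ => Subsingleton.elim _ _, fun _ => ⟨fun i => i.elim0, fun i => i.elim0⟩⟩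
    rw [h]
    simp
  | succ k ih =>
    intro R u
    have h1 := OP_cons R u (fun _ => (1 : ℝ))
    simp only [sum_const, nsmul_eq_mul, mul_one] at h1
    have h2 : ((OP R u).card : ℝ) * ∏ i : Fin k, ((u i.succ).factorial : ℝ) =
        ((R.card.choose (u 0) : ℕ) : ℝ) *
          ((R.card - u 0).descFactorial (∑ i : Fin k, u i.succ) : ℕ) := by
      rw [h1, sum_mul]
      have h3 : ∀ J0 ∈ R.powersetCard (u 0),
          ((OP (R \ J0) (fun i : Fin k => u i.succ)).card : ℝ) *
            ∏ i : Fin k, ((u i.succ).factorial : ℝ) =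
          (((R.card - u 0).descFactorial (∑ i : Fin k, u i.succ) : ℕ) : ℝ) := by
        intro J0 hJ0
        rw [mem_powersetCard] at hJ0
        rw [ih, card_sdiff_of_subset hJ0.1, hJ0.2]
      rw [sum_congr rfl h3, sum_const, card_powersetCard, nsmul_eq_mul]
    rw [Fin.prod_univ_succ, Fin.sum_univ_succ]
    have h4 : (R.card.descFactorial (u 0 + ∑ i : Fin k, u i.succ) : ℝ) =
        ((u 0).factorial : ℝ) * (((R.card.choose (u 0) : ℕ) : ℝ) *
          ((R.card - u 0).descFactorial (∑ i : Fin k, u i.succ) : ℕ)) := by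
      rw [desc_add99, Nat.descFactorial_eq_factorial_mul_choose]
      push_cast
      ring
    rw [h4, ← h2]
    ring

theorem card_OP (R : Finset (Fin n)) (u : ι → ℕ) :
    (OP R u).card * ∏ i, (u i).factorial = R.card.descFactorial (∑ i, u i) := by
  have h1 := OP_reindex (Fintype.equivFin ι).symm R u (fun _ => (1 : ℝ))
  simp only [sum_const, nsmul_eq_mul, mul_one] at h1
  have h2 := card_OP_fin99 (Fintype.card ι) R (fun i => u ((Fintype.equivFin ι).symm i))
  rw [← h1, Equiv.prod_comp (Fintype.equivFin ι).symm (fun i => ((u i).factorial : ℝ)),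
    Equiv.sum_comp (Fintype.equivFin ι).symm u] at h2
  exact_mod_cast h2

theorem card_OP_real (R : Finset (Fin n)) (u : ι → ℕ) :
    ((OP R u).card : ℝ) =
      (R.card.descFactorial (∑ i, u i) : ℝ) / ∏ i, ((u i).factorial : ℝ) := by
  have h := card_OP R u
  have hpos : (∏ i, ((u i).factorial : ℝ)) ≠ 0 :=
    prod_ne_zero_iff.2 fun i _ => by exact_mod_cast (Nat.factorial_pos _).ne'
  rw [eq_div_iff hpos]
  exact_mod_cast h

theorem OP_nonempty (R : Finset (Fin n)) (u : ι → ℕ) (h : ∑ i, u i ≤ R.card) :
    (OP R u).Nonempty := by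
  rw [← card_pos]
  have h1 := card_OP R u
  have h2 : 0 < R.card.descFactorial (∑ i, u i) := Nat.pos_of_ne_zero fun h0 => by
    rw [Nat.descFactorial_eq_zero_iff_lt] at h0
    omega
  rw [← h1] at h2
  exact Nat.pos_of_mul_pos_right h2

end Pool.Agent.CHP
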