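import Pool.Agent.CHP.IfB
import Pool.Agent.CHP.GbB

/-!
# CHP / Tam: tameness

PROOFS.  `ell_ge`: for `0 < β ≤ 1` put `m0 = 1/β - 1/2 > 0`; `1 + 1/m0 = (2+β)/(2-β)`.  `log ((2+β)/(2-β)) ≥ β + β^3/12`: with `x = β/2`,
`log (1+x) - log (1-x) = ∑ 2 x^(2k+1)/(2k+1) ≥ 2 x + (2/3) x^3` (`Real.hasSum_log_sub_log_of_abs_lt_one`), or monotonicity of
`f(β) = log (2+β) - log (2-β) - β - β^3/12`, `f' = 4/(4-β^2) - 1 - β^2/4 ≥ 0`.  `m ↦ log (1+1/m)` is decreasing and continuous at `m0`: choose `η > 0` with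
`log (1 + 1/(m0 + η)) ≥ β + β^3/24` and `η ≤ β^3/96`, and `cT = β^2/100`: `(1-cT)(β + β^3/24) ≥ β + β^3/96 ≥ β + η` (`β^3/24 - β^3/100 - β^5/2400 ≥ β^3/96`).
`tame_of`: `x i = gw b t K i/gW b t K` is positive, log-concave (`gw_lc`), of sum `1` and mean `m > 0` (`gm_pos`).  `z = ∑ ω i ∈ [0,1]`, `X = ∑ ω i (i - m)`, `g(z) = z log (1/z) ≥ 0`.
`ifr_sub`: `log (1+1/m) X ≤ g(z)`.  If `X ≤ 0`, the left side is `≤ 0` (`0 ≤ 1 + G`) and the right side is `≥ 0`.  If `X > 0`:
`(1+G) X ≤ (1-cT) log (1+1/m) (t-m) X ≤ (1-cT)(t-m) g(z)`.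
-/

set_option autoImplicit false

namespace Pool.Agent.CHP

open Finset Filter

private theorem tam_log {β : ℝ} (h0 : 0 < β) (h1 : β ≤ 1) :
    β + β ^ 3 / 12 ≤ Real.log (1 + 1 / (1 / β - 1 / 2)) := by
  have hx : |β / 2| < 1 := by
    rw [abs_lt]
    constructor <;> linarith
  have hs := Real.hasSum_log_sub_log_of_abs_lt_one hx
  have hle := sum_le_hasSum (range 2) (fun i _ => by positivity) hs
  rw [Finset.sum_range_succ, Finset.sum_range_succ, Finset.sum_range_zero] at hle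
  have e1 : Real.log (1 + β / 2) - Real.log (1 - β / 2) =
      Real.log (1 + 1 / (1 / β - 1 / 2)) := by
    rw [← Real.log_div (by linarith) (by linarith)]
    congr 1
    have h2 : (2 - β) ≠ 0 := by linarith
    have h3 : (1 - β / 2) ≠ 0 := by linarith
    have h4 : 1 / β - 1 / 2 = (2 - β) / (2 * β) := by
      field_simp
    rw [h4]
    field_simp
    ring
  rw [e1] at hle
  refine le_trans (le_of_eq ?_) hle
  norm_num
  ring

theorem ell_ge {β : ℝ} (h0 : 0 < β) (h1 : β ≤ 1) :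
    ∃ η cT : ℝ, 0 < η ∧ 0 < cT ∧ cT ≤ 1 / 2 ∧ ∀ m : ℝ, 0 < m → m ≤ 1 / β - 1 / 2 + η →
      β + η ≤ (1 - cT) * Real.log (1 + 1 / m) := by
  have hm0 : 0 < 1 / β - 1 / 2 := by
    have : 1 ≤ 1 / β := by
      rw [le_div_iff₀ h0]
      linarith
    linarith
  have hb3 : 0 < β ^ 3 := by positivity
  have hlog := tam_log h0 h1
  have hcont : ContinuousAt (fun η : ℝ => Real.log (1 + 1 / (1 / β - 1 / 2 + η))) 0 := by
    refine ContinuousAt.log ?_ ?_
    · refine continuousAt_const.add (continuousAt_const.div (continuousAt_const.add continuousAt_id) ?_)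
      simp only [add_zero, id]
      exact hm0.ne'
    · rw [add_zero]
      positivity
  have hlt : β + β ^ 3 / 24 < (fun η : ℝ => Real.log (1 + 1 / (1 / β - 1 / 2 + η))) 0 := by
    simp only [add_zero]
    linarith
  have hev := hcont.eventually (lt_mem_nhds hlt)
  obtain ⟨ε, hε, hball⟩ := Metric.eventually_nhds_iff.mp hev
  refine ⟨min (ε / 2) (β ^ 3 / 96), β ^ 2 / 100, lt_min (by linarith) (by linarith),
    by positivity, ?_, ?_⟩
  · nlinarith
  · intro m hm hmle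
    set η := min (ε / 2) (β ^ 3 / 96) with hη
    have hη0 : 0 < η := lt_min (by linarith) (by linarith)
    have hη1 : η ≤ ε / 2 := min_le_left _ _
    have hη2 : η ≤ β ^ 3 / 96 := min_le_right _ _
    have h2 := hball (y := η) (by
      rw [Real.dist_eq, sub_zero, abs_of_pos hη0]
      linarith)
    have h3 : Real.log (1 + 1 / (1 / β - 1 / 2 + η)) ≤ Real.log (1 + 1 / m) := by
      apply Real.log_le_log (by positivity)
      have := one_div_le_one_div_of_le hm hmle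
      linarith
    have h4 : β + β ^ 3 / 24 ≤ Real.log (1 + 1 / m) := by linarith
    have h5 : 0 ≤ 1 - β ^ 2 / 100 := by nlinarith
    have h6 := mul_le_mul_of_nonneg_left h4 h5
    refine le_trans ?_ h6
    have h7 : β ^ 5 ≤ β ^ 3 := by
      have : β ^ 2 ≤ 1 := by nlinarith
      nlinarith
    have h8 : (1 - β ^ 2 / 100) * (β + β ^ 3 / 24) =
        β + β ^ 3 / 24 - β ^ 3 / 100 - β ^ 5 / 2400 := by ring
    rw [h8]
    linarith

theorem tame_of {b K G cT : ℝ} {t : ℕ} (hb : 1 < b) (hK : 0 < K) (ht : 1 ≤ t) (hG : 0 ≤ 1 + G)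
    (hcT : cT ≤ 1) (hm : gm b t K < t)
    (h : 1 + G ≤ (1 - cT) * Real.log (1 + 1 / gm b t K) * ((t : ℝ) - gm b t K)) (ω : ℕ → ℝ)
    (hω : ∀ i ≤ t, 0 ≤ ω i ∧ ω i ≤ gw b t K i / gW b t K) :
    (1 + G) * ∑ i ∈ range (t + 1), ω i * ((i : ℝ) - gm b t K) ≤
      (1 - cT) * ((t : ℝ) - gm b t K) *
        ((∑ i ∈ range (t + 1), ω i) * Real.log (1 / ∑ i ∈ range (t + 1), ω i)) := by
  have hW : 0 < gW b t K := by
    have := gW_ge hb ht hK
    linarith
  have hx : ∀ i ≤ t, 0 < (fun i => gw b t K i / gW b t K) i := fun i hi =>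
    div_pos (gw_pos hb.le hK ht hi) hW
  have hlc : ∀ i, i + 2 ≤ t → (fun i => gw b t K i / gW b t K) i *
      (fun i => gw b t K i / gW b t K) (i + 2) ≤ (fun i => gw b t K i / gW b t K) (i + 1) ^ 2 := by
    intro i hi
    have h2 := gw_lc hb.le hK ht i hi
    show gw b t K i / gW b t K * (gw b t K (i + 2) / gW b t K) ≤ (gw b t K (i + 1) / gW b t K) ^ 2
    rw [div_mul_div_comm, div_pow, ← sq]
    exact div_le_div_of_nonneg_right h2 (by positivity)
  have h1 : ∑ i ∈ range (t + 1), (fun i => gw b t K i / gW b t K) i = 1 := by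
    rw [← Finset.sum_div]
    exact div_self hW.ne'
  have hmm : ∑ i ∈ range (t + 1), (i : ℝ) * (fun i => gw b t K i / gW b t K) i = gm b t K := by
    unfold gm
    rw [Finset.sum_div]
    exact Finset.sum_congr rfl fun i _ => by
      show (i : ℝ) * (gw b t K i / gW b t K) = _
      ring
  have key := ifr_sub hx hlc h1 hmm (gm_pos hb ht hK) ω hω
  have hz0 : 0 ≤ ∑ i ∈ range (t + 1), ω i :=
    sum_nonneg fun i hi => (hω i (by rw [mem_range] at hi; omega)).1
  have hz1 : ∑ i ∈ range (t + 1), ω i ≤ 1 := by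
    rw [← h1]
    exact sum_le_sum fun i hi => (hω i (by rw [mem_range] at hi; omega)).2
  set z := ∑ i ∈ range (t + 1), ω i with hz
  set X := ∑ i ∈ range (t + 1), ω i * ((i : ℝ) - gm b t K) with hX
  have hg : 0 ≤ z * Real.log (1 / z) := by
    rw [one_div, Real.log_inv]
    have := Real.log_nonpos hz0 hz1
    nlinarith
  have hc : 0 ≤ (1 - cT) * ((t : ℝ) - gm b t K) := mul_nonneg (by linarith) (by linarith)
  rcases le_or_gt X 0 with h2 | h2
  · exact (mul_nonpos_of_nonneg_of_nonpos hG h2).trans (mul_nonneg hc hg)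
  · have h3 := mul_le_mul_of_nonneg_right h h2.le
    have h4 := mul_le_mul_of_nonneg_left key hc
    calc (1 + G) * X ≤ (1 - cT) * Real.log (1 + 1 / gm b t K) * ((t : ℝ) - gm b t K) * X := h3
      _ = (1 - cT) * ((t : ℝ) - gm b t K) * (Real.log (1 + 1 / gm b t K) * X) := by ring
      _ ≤ _ := h4

end Pool.Agent.CHP
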