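import Pool.Agent.CHP.Str
import Pool.Agent.CHP.GbC
import Pool.Agent.CHP.Tam

/-!
# CHP / ParE: the parameters exist

Notation: `B = -log (1-p) ∈ (0,2]`, `β = B/2 ∈ (0,1]`, `b = 1/(1-p) = exp B`, `L = LL p n`, `ℒ = log n = B L`, `S = SS p K n`, `lam = lm p n`, `t = a - 1`.
PROOF.  `C1` from `a_loc`, `K0 = ⌈C1⌉₊ + 1`.  For `K ≥ K0` and large `n`: `a ≤ S` and `S ≤ a + (K + 1 + C1)` (`SS_low`, `SS_up`, `a_loc`), so `t < S ≤ t + C2`,
`C2 = K + C1 + 2`.  `K1, K2` from `gibbs_exists`, `η0, cT` from `ell_ge` for `β`, `η = min η0 (1/100)`, the constant `Cg ≥ 1` of `gw_exp` for `K2`.  For large `n` let `Kk` be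
the solution from `gibbs_exists`, `G, A, ko` as in `gib_of` (`G = log (R/Kk)`, `A = (1+G)(t-m) - 1`, `ks = n/(t-m)`, `m = gm`, `W = gW`), with the bounds of
`gib_asym` for `η`.  `C0 = max` of `C2`, `2 C2 + 4`, `Cg`, `4 + C2`.
Fields: `gib`: `gib_of`.  `pos`: `gw_pos`, `gW ≥ 1`, `t - m > 0`.  `lt`, `St` above.  `SL`: `SS_le` (`B S ≤ 2 B L = 2 ℒ`).  `lam0`: `lm_low`.  `lamt`: `lm_up`, `t ≥ (3/2) L - 1`.
`ub`: `n/ks = t - m ≥ (2/B - η) ℒ ≥ 0.9 ℒ` (`2/B ≥ 1`).  `G0`, `G1`: `gib_asym`.  `Gu`: `(1+G) ks ≤ (β + η) n ≤ 1.01 n`.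
`A0`: `(3 ℒ + 1) lam ≤ (3 ℒ + 1) L/16 ≤ 0.2 L ℒ`, and `A ≥ (0.99 ℒ)((2/B - 0.01) ℒ) - 1 ≥ 0.99 ℒ (2 L - 0.01 ℒ) - 1 ≥ L ℒ`
(`ℒ = B L ≤ 2 L`).  `A1`: `A ≤ (1+ℒ) t ≤ (1+ℒ) 2 L ≤ 2.1 L ℒ ≤ 40 ℒ L/17 ≤ 40 ℒ lam` (`lm_low`).
`At`: `A - G t = log (NN t/ko t)`, `ko t = ks/W ∈ [n/(t Cg), n]`, `NN t ∈ [1, 18 n^2]` (`NN_t`, `mu_NN`, `μ ≤ n`), so `|A - G t| ≤ 3 ℒ`, and `G (u - t) ≤ ℒ C2`.
`Nb0`, `Nb1`: `N_facts` with `C = C2` (`t + 1 = a`).  `Nb2`: `mu_NN`: `N_a ≤ 2 n^(1-ε) ≤ n`.  `Ns`: `N_facts`.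
`Nt`: `N_t ≥ N_a n/(16 a) ≥ n^(3/2)/(32 L) ≥ n^(37/25)` (`1.48`), and `37/25 + 3/5 = 52/25`, `g ≥ 3/5`.
`mg`: `ko u = ks gw (t-u)/W`, reverse the sum (`Finset.sum_range_reflect`), `gw_exp`.
`tail`: `20 u < 19 S`, `i = t - u ≥ S - C2 - 0.95 S = 0.05 S - C2 ≥ L/40` for large `n` (`SS_ge`): `ko u ≤ n K2^i/b^C(i,2)`, `log` of it
`≤ ℒ + i log K2 - B i (i-1)/2 ≤ -3 ℒ` for large `n` (`i ≥ L/40`: `B (i-1)/2 - log K2 ≥ B (i-1)/4` and `B i (i-1)/4 ≥ B L^2/10^4 ≥ 4 B L`; `(t)_i ≤ t^i`, `W ≥ 1`, `ks ≤ n`).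
`tame`: `tame_of` with `cT`: `ω i ks ≤ ko (t-i)` means `ω i ≤ gw i/W` (`i ≤ t`; `t - (t - i) = i`), `n/ks = t - m`, `t - n/ks = m`, and
`1 + G ≤ (β + η)(t - m) ≤ (1 - cT) log (1+1/m) (t-m)` (`ell_ge`, `m ≤ 1/β - 1/2 + η`, as `2/B = 1/β`).
-/

set_option autoImplicit false

namespace Pool.Agent.CHP

open Finset Filter Pool.Agent.CHV

private theorem pe_mg (b K : ℝ) (t : ℕ) {c Cg : ℝ} (hc : 0 ≤ c) (hW : 0 < gW b t K)
    (h : ∑ i ∈ range (t + 1), gw b t K i * Real.exp (16 * i) ≤ Cg * gW b t K) :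
    ∑ u ∈ range (t + 1), (c * gw b t K (t - u) / gW b t K) * Real.exp (16 * ((t : ℝ) - u)) ≤
      Cg * c := by
  have h1 : ∑ u ∈ range (t + 1), (c * gw b t K (t - u) / gW b t K) *
      Real.exp (16 * ((t : ℝ) - u)) =
      c / gW b t K * ∑ i ∈ range (t + 1), gw b t K i * Real.exp (16 * i) := by
    rw [← Finset.sum_range_reflect (fun i : ℕ => gw b t K i * Real.exp (16 * i)) (t + 1),
      Finset.mul_sum]
    refine Finset.sum_congr rfl fun u hu => ?_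
    have h2 : t + 1 - 1 - u = t - u := by omega
    have h3 : u ≤ t := by
      rw [Finset.mem_range] at hu
      omega
    rw [h2, Nat.cast_sub h3]
    ring
  rw [h1]
  calc c / gW b t K * ∑ i ∈ range (t + 1), gw b t K i * Real.exp (16 * i)
      ≤ c / gW b t K * (Cg * gW b t K) := mul_le_mul_of_nonneg_left h (div_nonneg hc hW.le)
    _ = Cg * c := by field_simp

private theorem pe_tail {b K K2 B L : ℝ} {t i : ℕ} (hb : b = Real.exp B) (hB : 0 < B)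
    (ht : 1 ≤ t) (hK : 0 < K) (hK2 : K ≤ K2) (hi : L / 40 ≤ i) (hL1 : 30000 ≤ L)
    (hL2 : 160 * |Real.log K2| / B + 160 ≤ L) :
    gw b t K i ≤ Real.exp (-(4 * (B * L))) := by
  have hK20 : 0 < K2 := lt_of_lt_of_le hK hK2
  have hb0 : 0 < b := by rw [hb]; exact Real.exp_pos _
  have h1 : gw b t K i ≤ K2 ^ i / b ^ (i.choose 2) := by
    have ht0 : (0 : ℝ) < (t : ℝ) ^ i := by
      have : (0 : ℝ) < t := by exact_mod_cast ht
      positivity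
    have h1 : (t.descFactorial i : ℝ) / (t : ℝ) ^ i ≤ 1 := by
      rw [div_le_one ht0]
      exact_mod_cast Nat.descFactorial_le_pow t i
    have hb0 : (0 : ℝ) < b ^ (i.choose 2) := by positivity
    unfold gw
    rw [div_le_div_iff_of_pos_right hb0]
    calc (t.descFactorial i : ℝ) / (t : ℝ) ^ i * K ^ i ≤ 1 * K2 ^ i := by
          gcongr
      _ = K2 ^ i := one_mul _
  have h2 : K2 ^ i / b ^ (i.choose 2) =
      Real.exp (i * Real.log K2 - B * ((i : ℝ) * (i - 1) / 2)) := by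
    have e1 : K2 ^ i = Real.exp (i * Real.log K2) := by
      rw [Real.exp_nat_mul, Real.exp_log hK20]
    have e2 : b ^ (i.choose 2) = Real.exp (B * ((i : ℝ) * (i - 1) / 2)) := by
      rw [hb, ← Real.exp_nat_mul, Nat.cast_choose_two, mul_comm]
    rw [e1, e2, Real.exp_sub]
  rw [h2] at h1
  refine h1.trans (Real.exp_le_exp.2 ?_)
  obtain ⟨x, hx⟩ : ∃ x : ℝ, x = i := ⟨_, rfl⟩
  rw [← hx] at hi ⊢
  have hx1 : 750 ≤ x := by linarith
  have h3 : |Real.log K2| ≤ B * (x - 4) / 4 := by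
    have h4 : 160 * |Real.log K2| / B ≤ 40 * x - 160 := by linarith
    rw [div_le_iff₀ hB] at h4
    linarith
  have h5 : x * Real.log K2 ≤ x * (B * (x - 4) / 4) :=
    mul_le_mul_of_nonneg_left ((le_abs_self _).trans h3) (by linarith)
  have h6 : 16 * L ≤ x * x := by nlinarith
  have h7 : B * (16 * L) ≤ B * (x * x) := mul_le_mul_of_nonneg_left h6 hB.le
  have h8 : 0 ≤ B * x := by positivity
  nlinarith

private theorem pe_NNt {n : ℕ} {a L NA NT : ℝ} (hn : 1 < n) (ha : 0 < a) (haL : a ≤ 2 * L)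
    (h1 : (n : ℝ) ^ (1 / 2 : ℝ) ≤ NA) (h2 : NA * (n / (16 * a)) ≤ NT)
    (h3 : 32 * L ^ 1 ≤ (n : ℝ) ^ (1 / 50 : ℝ)) : (n : ℝ) ^ (37 / 25 : ℝ) ≤ NT := by
  have hn0 : (0 : ℝ) < n := by exact_mod_cast (by omega : 0 < n)
  have h4 : (n : ℝ) ^ (37 / 25 : ℝ) = (n : ℝ) ^ (1 / 2 : ℝ) * (n / (n : ℝ) ^ (1 / 50 : ℝ)) := by
    rw [show (37 / 25 : ℝ) = 1 / 2 + (1 - 1 / 50) by norm_num, Real.rpow_add hn0,
      Real.rpow_sub hn0, Real.rpow_one]
  have h5 : (0 : ℝ) < (n : ℝ) ^ (1 / 50 : ℝ) := Real.rpow_pos_of_pos hn0 _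
  have h6 : (n : ℝ) / (n : ℝ) ^ (1 / 50 : ℝ) ≤ n / (16 * a) := by
    apply div_le_div_of_nonneg_left hn0.le (by positivity)
    rw [pow_one] at h3
    linarith
  rw [h4]
  refine le_trans (mul_le_mul h1 h6 (by positivity) ?_) h2
  exact (Real.rpow_nonneg hn0.le _).trans h1

private theorem pe_At {n : ℕ} {A G t m Nt W Cg L C2 C0 u S : ℝ} (hn : 1 < n)
    (hA : A = (1 + G) * (t - m) - 1)
    (heq : (1 + G) * m = t - 1 - Real.log Nt + Real.log n - Real.log W - Real.log (t - m))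
    (hN1 : 1 ≤ Nt) (hN2 : Nt ≤ 18 * (n : ℝ) ^ 2) (hW1 : 1 ≤ W) (hW2 : W ≤ Cg)
    (hm1 : 1 ≤ t - m) (hm2 : t - m ≤ 2 * L) (hL : Real.log L ≤ Real.log n / 4) (hL0 : 0 < L)
    (hbig : 20 + |Real.log Cg| ≤ Real.log n) (hG0 : 0 ≤ G) (hG1 : G ≤ Real.log n) (htu : t ≤ u)
    (huS : u ≤ S) (hSt : S ≤ t + C2) (hC : 3 + C2 ≤ C0) :
    |A - G * u| ≤ C0 * Real.log n := by
  have hn0 : (0 : ℝ) < n := by exact_mod_cast (by omega : 0 < n)
  have h1 : 0 ≤ Real.log Nt := Real.log_nonneg hN1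
  have h2 : Real.log Nt ≤ 3 + 2 * Real.log n := by
    have h3 := Real.log_le_log (by linarith) hN2
    rw [Real.log_mul (by norm_num) (by positivity), Real.log_pow] at h3
    have h4 : Real.log 18 ≤ 3 := by
      rw [Real.log_le_iff_le_exp (by norm_num)]
      have h5 : (2.7182818283 : ℝ) < Real.exp 1 := Real.exp_one_gt_d9
      have h6 : Real.exp 3 = Real.exp 1 ^ 3 := by
        rw [← Real.exp_nat_mul]
        norm_num
      rw [h6]
      have h7 : (2.7182818283 : ℝ) ^ 3 ≤ Real.exp 1 ^ 3 :=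
        pow_le_pow_left₀ (by norm_num) h5.le 3
      refine le_trans ?_ h7
      norm_num
    push_cast at h3
    linarith
  have h3 : 0 ≤ Real.log W := Real.log_nonneg hW1
  have h4 : Real.log W ≤ |Real.log Cg| :=
    (Real.log_le_log (by linarith) hW2).trans (le_abs_self _)
  have h5 : 0 ≤ Real.log (t - m) := Real.log_nonneg hm1
  have h6 : Real.log (t - m) ≤ 1 + Real.log n / 4 := by
    have h7 := Real.log_le_log (by linarith) hm2
    rw [Real.log_mul (by norm_num) hL0.ne'] at h7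
    have h8 : Real.log 2 ≤ 1 := by
      have := Real.log_le_sub_one_of_pos (by norm_num : (0 : ℝ) < 2)
      linarith
    linarith
  have h7 : A - G * t = Real.log Nt - Real.log n + Real.log W + Real.log (t - m) := by
    rw [hA]
    linarith
  have h8 : 0 ≤ G * (u - t) := mul_nonneg hG0 (by linarith)
  have h9 : G * (u - t) ≤ Real.log n * C2 := by
    apply mul_le_mul hG1 (by linarith) (by linarith)
    linarith [abs_nonneg (Real.log Cg)]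
  have h10 : (3 + C2) * Real.log n ≤ C0 * Real.log n :=
    mul_le_mul_of_nonneg_right hC (by linarith [abs_nonneg (Real.log Cg)])
  have h11 := abs_nonneg (Real.log Cg)
  rw [abs_le]
  constructor
  · nlinarith
  · nlinarith

private theorem pe_A {A G t m Lg L B : ℝ} (hA : A = (1 + G) * (t - m) - 1) (hBL : B * L = Lg)
    (hB0 : 0 < B) (hB : B ≤ 2) (hL : 30000 ≤ L) (hLg : 20 ≤ Lg)
    (hG0 : (1 - 1 / 100) * Lg ≤ G) (hG1 : G ≤ Lg) (hm0 : 0 ≤ m) (ht : t ≤ 2 * L)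
    (hm1 : (2 / B - 1 / 100) * Lg ≤ t - m) {lam : ℝ} (hl0 : L / 17 ≤ lam) (hl1 : lam ≤ L / 16) :
    (3 * Lg + 1) * lam ≤ A ∧ A ≤ 40 * Lg * lam := by
  have h1 : 2 / B * Lg = 2 * L := by
    rw [← hBL]
    field_simp
  have h2 : Lg ≤ 2 * L := by
    rw [← hBL]
    nlinarith
  have h3 : 198 / 100 * L ≤ t - m := by
    have : (2 / B - 1 / 100) * Lg = 2 * L - 1 / 100 * Lg := by rw [sub_mul, h1]
    rw [this] at hm1
    linarith
  constructor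
  · have h4 : (1 + 99 / 100 * Lg) * (198 / 100 * L) ≤ (1 + G) * (t - m) :=
      mul_le_mul (by linarith) h3 (by positivity) (by linarith)
    have h5 : (3 * Lg + 1) * lam ≤ (3 * Lg + 1) * (L / 16) :=
      mul_le_mul_of_nonneg_left hl1 (by linarith)
    have h6 : 0 ≤ Lg * L := by positivity
    rw [hA]
    nlinarith
  · have h4 : (1 + G) * (t - m) ≤ (1 + Lg) * (2 * L) :=
      mul_le_mul (by linarith) (by linarith) (by linarith) (by linarith)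
    have h5 : 40 * Lg * (L / 17) ≤ 40 * Lg * lam :=
      mul_le_mul_of_nonneg_left hl0 (by linarith)
    have h6 : 20 * L ≤ Lg * L := mul_le_mul_of_nonneg_right hLg (by linarith)
    rw [hA]
    nlinarith

private theorem pe_tame {b K G cT m W : ℝ} {t n : ℕ} {ko : ℕ → ℝ} (hb : 1 < b) (hK : 0 < K)
    (ht : 1 ≤ t) (hG : 0 ≤ G) (hcT : cT ≤ 1) (hm : m = gm b t K) (hW : W = gW b t K)
    (hmt : m < t) (hn : (0 : ℝ) < n)
    (hko : ko = fun u => (n : ℝ) / ((t : ℝ) - m) * gw b t K (t - u) / W)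
    (hks : ks t ko = n / ((t : ℝ) - m))
    (h : 1 + G ≤ (1 - cT) * Real.log (1 + 1 / m) * ((t : ℝ) - m)) (ω : ℕ → ℝ)
    (hω : ∀ i ≤ t, 0 ≤ ω i ∧ ω i * ks t ko ≤ ko (t - i)) :
    (1 + G) * ∑ i ∈ range (t + 1), ω i * ((i : ℝ) - (t - n / ks t ko)) ≤
      (1 - cT) * (n / ks t ko) *
        ((∑ i ∈ range (t + 1), ω i) * Real.log (1 / ∑ i ∈ range (t + 1), ω i)) := by
  have htm : 0 < (t : ℝ) - m := by linarith
  have h1 : (n : ℝ) / ks t ko = (t : ℝ) - m := by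
    rw [hks, div_div_eq_mul_div, mul_div_cancel_left₀ _ hn.ne']
  have h2 : (t : ℝ) - ((t : ℝ) - m) = m := by ring
  rw [h1, h2]
  have h3 := tame_of hb hK ht (by linarith : 0 ≤ 1 + G) hcT (by rw [← hm]; exact hmt)
    (by rw [← hm]; exact h) ω
  rw [← hm, ← hW] at h3
  refine h3 fun i hi => ⟨(hω i hi).1, ?_⟩
  have h4 := (hω i hi).2
  rw [hks, hko] at h4
  have h5 : t - (t - i) = i := by omega
  simp only [h5] at h4
  have h6 : 0 < (n : ℝ) / ((t : ℝ) - m) := div_pos hn htm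
  have h7 : ω i * (n / ((t : ℝ) - m)) ≤ (gw b t K i / W) * (n / ((t : ℝ) - m)) := by
    calc ω i * (n / ((t : ℝ) - m)) ≤ n / ((t : ℝ) - m) * gw b t K i / W := h4
      _ = (gw b t K i / W) * (n / ((t : ℝ) - m)) := by ring
  exact le_of_mul_le_mul_right h7 h6

private theorem pe_ntail {b K K2 B L C2 m W : ℝ} {n t u S : ℕ} (hb : b = Real.exp B)
    (hb1 : 1 < b) (hB : 0 < B)
    (ht : 1 ≤ t) (hK : 0 < K) (hK2 : K ≤ K2) (hn : 1 < n) (hBL : B * L = Real.log n)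
    (hL : 30000 + 40 * C2 + (160 * |Real.log K2| / B + 160) ≤ L) (hC2 : 0 ≤ C2)
    (hSL : L ≤ S) (hSt : (S : ℝ) ≤ t + C2) (hm : 1 ≤ (t : ℝ) - m) (hW : 1 ≤ W)
    (hu : 20 * u < 19 * S) (hut : u ≤ t) :
    (n : ℝ) / ((t : ℝ) - m) * gw b t K (t - u) / W ≤ (n : ℝ) ^ (-3 : ℝ) := by
  have hn0 : (0 : ℝ) < n := by exact_mod_cast (by omega : 0 < n)
  have hP : 0 ≤ 160 * |Real.log K2| / B := by positivity
  have hi : L / 40 ≤ ((t - u : ℕ) : ℝ) := by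
    rw [Nat.cast_sub hut]
    have h1 : 20 * (u : ℝ) < 19 * S := by exact_mod_cast hu
    linarith only [h1, hL, hP, hC2, hSL, hSt]
  have h1 := pe_tail (K2 := K2) hb hB ht hK hK2 hi (by linarith only [hL, hP, hC2])
    (by linarith only [hL, hP, hC2])
  have h2 : 0 ≤ gw b t K (t - u) := (gw_pos hb1.le hK ht (Nat.sub_le t u)).le
  have h3 : (n : ℝ) / ((t : ℝ) - m) * gw b t K (t - u) / W ≤ n * gw b t K (t - u) := by
    have h4 : (n : ℝ) / ((t : ℝ) - m) * gw b t K (t - u) / W ≤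
        n / ((t : ℝ) - m) * gw b t K (t - u) := div_le_self (by positivity) hW
    refine h4.trans (mul_le_mul_of_nonneg_right (div_le_self hn0.le hm) h2)
  refine h3.trans ?_
  rw [Real.rpow_def_of_pos hn0, ← hBL]
  calc (n : ℝ) * gw b t K (t - u) ≤ n * Real.exp (-(4 * (B * L))) :=
        mul_le_mul_of_nonneg_left h1 hn0.le
    _ = Real.exp (B * L) * Real.exp (-(4 * (B * L))) := by rw [hBL, Real.exp_log hn0]
    _ = Real.exp (B * L * -3) := by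
        rw [← Real.exp_add]
        congr 1
        ring

private theorem pe_core {p b B L G A K K2 C2 Cg C0 cT g η m W : ℝ} {n S t lam : ℕ}
    {ko : ℕ → ℝ}
    (hBp : B = -Real.log (1 - p)) (hbB : b = Real.exp B) (hb1 : 1 < b)
    (hB0 : 0 < B) (hB2 : B ≤ 2) (hn : 1 < n) (hBL : B * L = Real.log n)
    (hL : 30000 + 40 * C2 + (160 * |Real.log K2| / B + 160) ≤ L)
    (hlogn : 20 + |Real.log Cg| ≤ Real.log n) (hlogL : Real.log L ≤ Real.log n / 4)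
    (hC2 : 2 ≤ C2) (hCg : 0 < Cg) (hC0 : C0 = 2 * C2 + 4 + Cg) (hg : 3 / 5 ≤ g)
    (hcT : cT ≤ 1) (ht : 1 ≤ t) (hK : 0 < K) (hK2 : K ≤ K2)
    (hmd : m = gm b t K) (hWd : W = gW b t K)
    (hkod : ko = fun u => (n : ℝ) / ((t : ℝ) - m) * gw b t K (t - u) / W)
    (heq : (1 + G) * m = t - 1 - Real.log (NN p n t) + Real.log n - Real.log W -
      Real.log (t - m))
    (hgib : Gib p n t G A ko) (hks : ks t ko = n / ((t : ℝ) - m))
    (hA : A = (1 + G) * (t - m) - 1) (hm0 : 0 < m) (hmt : m < t) (hW1 : 1 ≤ W)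
    (w1 : ∑ i ∈ range (t + 1), gw b t K i * Real.exp (16 * i) ≤ Cg * W) (w2 : W ≤ Cg)
    (g2 : (1 - η) * Real.log n ≤ G) (g3 : G ≤ Real.log n)
    (g4 : 1 + G ≤ (B / 2 + η) * ((t : ℝ) - m))
    (g5 : (2 / B - η) * Real.log n ≤ (t : ℝ) - m) (hη : η ≤ 1 / 100)
    (hell : B / 2 + η ≤ (1 - cT) * Real.log (1 + 1 / m))
    (ht1 : 3 / 2 * L ≤ (t : ℝ) + 1) (ht2 : (t : ℝ) + 1 ≤ 2 * L)
    (hst : t < S) (hSt : (S : ℝ) ≤ t + C2) (hSL : (S : ℝ) ≤ 2 * L) (hSL2 : L ≤ S)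
    (hl1 : (lam : ℝ) ≤ L / 16) (hl0 : L / 17 ≤ lam)
    (hNA : NN p n (t + 1) ≤ n) (hNT : (n : ℝ) ^ (37 / 25 : ℝ) ≤ NN p n t)
    (hNT2 : NN p n t ≤ 18 * (n : ℝ) ^ 2)
    (nf1 : ∀ u, t + 1 ≤ u → u ≤ S → (n : ℝ) ^ (-(2 * C2)) ≤ NN p n u ∧
      NN p n u ≤ NN p n (t + 1))
    (nf2 : ∀ u, lam < u → u ≤ t → NN p n t ≤ NN p n u) :
    Par p g C0 cT n S t lam G A ko := by
  have hn1 : (1 : ℝ) < n := by exact_mod_cast hn
  have hn0 : (0 : ℝ) < n := by linarith only [hn1]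
  have hab := abs_nonneg (Real.log Cg)
  have hP : 0 ≤ 160 * |Real.log K2| / B := by positivity
  have hL3 : 30000 ≤ L := by linarith only [hL, hP, hC2]
  have hlg : 20 ≤ Real.log n := by linarith only [hlogn, hab]
  have hlg0 : 0 ≤ Real.log n := by linarith only [hlg]
  have hBi : 1 ≤ 2 / B := by
    rw [le_div_iff₀ hB0]
    linarith only [hB2]
  have hm5 : (2 / B - 1 / 100) * Real.log n ≤ (t : ℝ) - m := by
    refine le_trans (mul_le_mul_of_nonneg_right ?_ hlg0) g5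
    linarith only [hη]
  have hm6 : 99 / 100 * Real.log n ≤ (t : ℝ) - m := by
    refine le_trans (mul_le_mul_of_nonneg_right ?_ hlg0) hm5
    linarith only [hBi]
  have hm7 : 1 ≤ (t : ℝ) - m := by linarith only [hm6, hlg]
  have hG5 : (1 - 1 / 100) * Real.log n ≤ G := by
    refine le_trans (mul_le_mul_of_nonneg_right ?_ hlg0) g2
    linarith only [hη]
  have hG0 : 0 ≤ G := by linarith only [hG5, hlg]
  have htm : 0 < (t : ℝ) - m := by linarith only [hm7]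
  have hW0 : 0 < W := by linarith only [hW1]
  obtain ⟨hA0, hA1⟩ := pe_A hA hBL hB0 hB2 hL3 hlg hG5 g3 hm0.le (by linarith only [ht2]) hm5
    hl0 hl1
  have hNT1 : 1 ≤ NN p n t := (Real.one_le_rpow hn1.le (by norm_num)).trans hNT
  have hcc : 0 < (n : ℝ) / ((t : ℝ) - m) := div_pos hn0 htm
  refine
    { gib := hgib
      pos := ?_
      lt := hst
      St := ?_
      SL := ?_
      lam0 := ?_
      lamt := ?_
      ub := ?_
      G0 := by linarith only [hG5, hlg]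
      G1 := g3
      Gu := ?_
      A0 := hA0
      A1 := hA1
      At := ?_
      Nb0 := ?_
      Nb1 := fun u hu1 hu2 => (nf1 u hu1 hu2).2
      Nb2 := hNA
      Ns := nf2
      Nt := ?_
      mg := ?_
      tail := ?_
      tame := ?_ }
  · intro u hu
    rw [hkod]
    have h1 := gw_pos (i := t - u) hb1.le hK ht (Nat.sub_le t u)
    positivity
  · rw [hC0]
    linarith only [hSt, hC2, hCg]
  · rw [← hBp, ← hBL]
    calc B * S ≤ B * (2 * L) := mul_le_mul_of_nonneg_left hSL hB0.le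
      _ = 2 * (B * L) := by ring
  · have h1 : (0 : ℝ) < lam := by linarith only [hl0, hL3]
    exact_mod_cast h1
  · have h1 : 2 * (lam : ℝ) ≤ t := by linarith only [hl1, hL3, ht1]
    exact_mod_cast h1
  · rw [hks, mul_div_assoc', div_le_iff₀ htm]
    have h1 : 9 / 10 * Real.log n ≤ (t : ℝ) - m := by linarith only [hm6, hlg]
    calc 9 / 10 * Real.log n * n ≤ ((t : ℝ) - m) * n := mul_le_mul_of_nonneg_right h1 hn0.le
      _ = n * ((t : ℝ) - m) := by ring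
  · rw [hks, mul_div_assoc', div_le_iff₀ htm]
    have h1 : 1 + G ≤ 101 / 100 * ((t : ℝ) - m) := by
      refine g4.trans (mul_le_mul_of_nonneg_right ?_ htm.le)
      linarith only [hη, hB2]
    calc (1 + G) * n ≤ 101 / 100 * ((t : ℝ) - m) * n := mul_le_mul_of_nonneg_right h1 hn0.le
      _ = 101 / 100 * n * ((t : ℝ) - m) := by ring
  · intro u hu1 hu2
    exact pe_At (m := m) (t := t) (S := S) (C2 := C2) (L := L) (Cg := Cg) hn hA heq hNT1 hNT2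
      hW1 w2 hm7 (by linarith only [hm0, ht2]) hlogL (by linarith only [hL3]) hlogn hG0 g3
      (by exact_mod_cast hu1) (by exact_mod_cast hu2) hSt (by rw [hC0]; linarith only [hC2, hCg])
  · intro u hu1 hu2
    refine le_trans (Real.rpow_le_rpow_of_exponent_le hn1.le ?_) (nf1 u hu1 hu2).1
    rw [hC0]
    linarith only [hCg]
  · have h1 : (n : ℝ) ^ (52 / 25 : ℝ) ≤ (n : ℝ) ^ (37 / 25 : ℝ) * (n : ℝ) ^ g := by
      rw [← Real.rpow_add hn0]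
      refine Real.rpow_le_rpow_of_exponent_le hn1.le ?_
      linarith only [hg]
    exact h1.trans (mul_le_mul_of_nonneg_right hNT (Real.rpow_nonneg hn0.le _))
  · rw [hks, hkod, hWd]
    rw [hWd] at w1 hW0
    refine (pe_mg b K t hcc.le hW0 w1).trans ?_
    refine mul_le_mul_of_nonneg_right ?_ hcc.le
    rw [hC0]
    linarith only [hC2]
  · intro u hu1 hu2
    rw [hkod]
    exact pe_ntail hbB hb1 hB0 ht hK hK2 hn hBL hL (by linarith only [hC2]) hSL2 hSt hm7 hW1 hu1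
      hu2
  · exact pe_tame hb1 hK ht hG0 hcT hmd hWd hmt hn0 hkod hks
      (g4.trans (mul_le_mul_of_nonneg_right hell htm.le))

theorem par_exists {p : ℝ} (h0 : 0 < p) (h1 : p < 1) (hB : -Real.log (1 - p) ≤ 2) {ε : ℝ}
    (hε : 0 < ε) :
    ∃ K0 : ℕ, ∀ K : ℕ, K0 ≤ K → ∃ C0 cT : ℝ, 0 < cT ∧ cT ≤ 1 ∧ ∀ g : ℝ, 3 / 5 ≤ g →
      ∀ᶠ n : ℕ in atTop, ∀ a : ℕ,
        (n : ℝ) ^ (1 / 2 : ℝ) ≤ mu p n a → mu p n a ≤ (n : ℝ) ^ (1 - ε) →
        ∃ (G A : ℝ) (ko : ℕ → ℝ),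
          Par p g C0 cT n (SS p K n) (a - 1) (lm p n) G A ko := by
  have hl := ell_pos h0 h1
  obtain ⟨C1, hC1, hloc⟩ := a_loc h0 h1 hB
  obtain ⟨K1, K2, hK1, hK12, hgib⟩ := gibbs_exists h0 h1 hB hε
  obtain ⟨η0, cT, hη0, hcT, hcT2, hell⟩ := ell_ge (β := -Real.log (1 - p) / 2) (by linarith)
    (by linarith)
  have hb : 1 < 1 / (1 - p) := by
    rw [lt_div_iff₀ (by linarith)]
    linarith
  obtain ⟨Cg, hCg, hgw⟩ := gw_exp hb K2
  refine ⟨⌈C1⌉₊ + 1, fun K hK => ?_⟩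
  obtain ⟨C2, hC2⟩ : ∃ C2 : ℝ, C2 = K + C1 + 2 := ⟨_, rfl⟩
  have hC2pos : 2 ≤ C2 := by
    rw [hC2]
    have : (0 : ℝ) ≤ K := Nat.cast_nonneg K
    linarith
  have hKC : C1 ≤ K := by
    have h2 := Nat.le_ceil C1
    have h3 : ((⌈C1⌉₊ + 1 : ℕ) : ℝ) ≤ K := by exact_mod_cast hK
    push_cast at h3
    linarith
  refine ⟨2 * C2 + 4 + Cg, cT, hcT, by linarith, fun g hg => ?_⟩
  have hη : 0 < min η0 (1 / 100) := lt_min hη0 (by norm_num)
  have hlogt : Tendsto (fun n : ℕ => Real.log (n : ℝ)) atTop atTop :=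
    Real.tendsto_log_atTop.comp tendsto_natCast_atTop_atTop
  filter_upwards [hloc, hgib, gib_asym h0 h1 hB hε hK1 hK12 hη, a_range h0 h1 hB,
    mu_NN h0 h1 hB, NN_t h0 h1 hB, N_facts h0 h1 hB K C2, SS_low h0 h1 K, SS_up h0 h1 K,
    SS_le h0 h1 K, SS_ge h0 h1 K, lm_up h0 h1, lm_low h0 h1,
    log_LL_le h0 h1 (ε := -Real.log (1 - p) / 4) (by linarith),
    LL_pow_le h0 h1 1 32 (c := 1 / 50) (by norm_num), LL_pow_le h0 h1 0 2 (c := ε) hε,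
    (tendsto_LL h0 h1).eventually_ge_atTop (30000 + 40 * C2 +
      (160 * |Real.log K2| / (-Real.log (1 - p)) + 160)),
    hlogt.eventually_ge_atTop (20 + |Real.log Cg|), eventually_ge_atTop 2]
    with n e1 e2 e3 e4 e5 e6 e7 e8 e9 e10 e11 e12 e13 e14 e15 e16 e17 e18 e19
  intro a hlo hup
  have hn1 : 1 < n := by omega
  have hn1R : (1 : ℝ) < n := by exact_mod_cast hn1
  have hn0 : (0 : ℝ) < n := by linarith
  have hupn : mu p n a < n := by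
    refine lt_of_le_of_lt hup ?_
    have := Real.rpow_lt_rpow_of_exponent_lt hn1R (by linarith : 1 - ε < 1)
    rwa [Real.rpow_one] at this
  have f1 := e1 a hlo hupn
  obtain ⟨Kk, hk1, hk2, hkm, hkeq⟩ := e2 a hlo hup
  obtain ⟨g1, g2, g3, g4, g5⟩ := e3 a hlo hup Kk hk1 hk2 hkeq
  obtain ⟨a1, a2, -, -⟩ := e4 a hlo hupn
  obtain ⟨m1, m2⟩ := e5 a hlo hupn
  obtain ⟨n1, n2⟩ := e6 a hlo hupn
  obtain ⟨B, hBdef⟩ : ∃ B : ℝ, B = -Real.log (1 - p) := ⟨_, rfl⟩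
  obtain ⟨L, hL⟩ : ∃ L : ℝ, L = LL p n := ⟨_, rfl⟩
  have hBL : B * L = Real.log n := by
    rw [hL, hBdef]
    unfold LL
    rw [mul_div_cancel₀ _ hl.ne']
  rw [← hL] at a1 a2 e10 e11 e12 e13 e14 e15 e17 e8 e9 f1
  rw [← hBdef] at g1 g4 g5 e14 e17 hl hB e8 e9 f1 hell
  have hP1 : 0 ≤ 160 * |Real.log K2| / B := by positivity
  have hL3 : 30000 ≤ L := by linarith
  have hlogn : 20 ≤ Real.log n := by linarith [abs_nonneg (Real.log Cg)]
  obtain ⟨t, rfl⟩ : ∃ t, a = t + 1 := by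
    refine ⟨a - 1, ?_⟩
    have : (0 : ℝ) < a := by linarith
    have : 0 < a := by exact_mod_cast this
    omega
  simp only [Nat.add_sub_cancel] at hkm hkeq g1 g2 g3 g4 g5 n1 n2 ⊢
  have htcast : (((t + 1 : ℕ) : ℝ)) = (t : ℝ) + 1 := by push_cast; ring
  rw [htcast] at a1 a2 f1 n1 n2
  have ht1 : 1 ≤ t := by
    have : (1 : ℝ) ≤ t := by linarith
    exact_mod_cast this
  have hKk : 0 < Kk := by linarith
  have hW1 : 1 ≤ gW (1 / (1 - p)) t Kk := gW_ge hb ht1 hKk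
  obtain ⟨w1, w2, w3⟩ := hgw t ht1 Kk hKk hk2
  have hm0 : 0 < gm (1 / (1 - p)) t Kk := gm_pos hb ht1 hKk
  obtain ⟨hG, hks⟩ := gib_of h0.le h1 (by omega : 0 < n) ht1 hKk hkm hkeq
  obtain ⟨G, hGdef⟩ : ∃ G : ℝ, G = Real.log ((t : ℝ) * (1 / (1 - p)) ^ (t - 1) / n / Kk) :=
    ⟨_, rfl⟩
  obtain ⟨m, hmdef⟩ : ∃ m : ℝ, m = gm (1 / (1 - p)) t Kk := ⟨_, rfl⟩
  obtain ⟨W, hWdef⟩ : ∃ W : ℝ, W = gW (1 / (1 - p)) t Kk := ⟨_, rfl⟩
  rw [← hGdef, ← hmdef, ← hWdef] at hG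
  rw [← hGdef, ← hmdef, ← hWdef] at hkeq
  rw [← hmdef, ← hWdef] at hks
  rw [← hGdef] at g2 g3 g4
  rw [← hmdef] at g1 g4 g5 hkm hm0 w3
  rw [← hWdef] at hW1 w1 w2
  have hSt : (SS p K n : ℝ) ≤ t + C2 := by
    have h3 := (abs_le.1 f1).1
    rw [hC2]
    linarith only [h3, e9]
  have haS : (t : ℝ) + 1 ≤ (SS p K n : ℝ) := by
    have h3 := (abs_le.1 f1).2
    linarith only [h3, e8, hKC]
  have haS' : t + 1 ≤ SS p K n := by exact_mod_cast haS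
  obtain ⟨nf1, nf2⟩ := e7 (t + 1) hlo hupn (by rw [htcast]; linarith only [hSt])
  rw [Nat.add_sub_cancel] at nf2
  have hNTlow : (n : ℝ) ^ (37 / 25 : ℝ) ≤ NN p n t :=
    pe_NNt hn1 (by linarith only [a1, hL3]) a2 (hlo.trans m1) n1 e15
  have hNA : NN p n (t + 1) ≤ n := by
    have h2 : 2 * (n : ℝ) ^ (1 - ε) ≤ n := by
      have h3 : (n : ℝ) ^ (1 - ε) * (n : ℝ) ^ ε = n := by
        rw [← Real.rpow_add hn0]
        simp
      rw [pow_zero, mul_one] at e16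
      have h4 : 0 ≤ (n : ℝ) ^ (1 - ε) := Real.rpow_nonneg hn0.le _
      calc 2 * (n : ℝ) ^ (1 - ε) = (n : ℝ) ^ (1 - ε) * 2 := by ring
        _ ≤ (n : ℝ) ^ (1 - ε) * (n : ℝ) ^ ε := mul_le_mul_of_nonneg_left e16 h4
        _ = n := h3
    linarith only [h2, m2, hup]
  have hNT2 : NN p n t ≤ 18 * (n : ℝ) ^ 2 := by
    have ht0 : (0 : ℝ) ≤ t := Nat.cast_nonneg t
    have h2 : 9 * (n : ℝ) / ((t : ℝ) + 1) ≤ 18 * n := by
      rw [div_le_iff₀ (by linarith only [ht0])]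
      have h4 : 0 ≤ (n : ℝ) * t := mul_nonneg hn0.le ht0
      linarith only [h4, hn0]
    have h3 : 0 ≤ 9 * (n : ℝ) / ((t : ℝ) + 1) := by positivity
    calc NN p n t ≤ NN p n (t + 1) * (9 * n / ((t : ℝ) + 1)) := n2
      _ ≤ n * (18 * n) := mul_le_mul hNA h2 h3 hn0.le
      _ = 18 * (n : ℝ) ^ 2 := by ring
  have hlogL : Real.log L ≤ Real.log n / 4 := by
    rw [← hBL]
    linarith only [e14]
  have hbB : 1 / (1 - p) = Real.exp B := by
    rw [hBdef, Real.exp_neg, Real.exp_log (by linarith only [h1]), one_div]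
  refine ⟨G, (1 + G) * ((t : ℝ) - m) - 1,
    fun u => (n : ℝ) / ((t : ℝ) - m) * gw (1 / (1 - p)) t Kk (t - u) / W, ?_⟩
  exact pe_core (K := Kk) (K2 := K2) (C2 := C2) (Cg := Cg) (L := L) (η := min η0 (1 / 100))
    (m := m) (W := W) hBdef hbB hb hl hB hn1 hBL e17 e18 hlogL hC2pos hCg rfl hg
    (by linarith only [hcT2]) ht1 hKk hk2 hmdef hWdef rfl hkeq hG hks rfl hm0 hkm hW1 w1 w2
    g2 g3 g4 g5 (min_le_right _ _)
    (le_trans (by linarith only [min_le_left η0 (1 / 100)]) (hell m hm0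
      (le_trans g1 (by
        have h3 : 1 / (B / 2) = 2 / B := by field_simp
        rw [h3]
        linarith only [min_le_left η0 (1 / 100)]))))
    a1 a2 (by omega) hSt e10 e11 e12 e13 hNA hNTlow hNT2 nf1 nf2

end Pool.Agent.CHP
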