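import Pool.Agent.CHP.Defs
import Pool.Agent.CHV.Mrt

/-!
# CHP / Poi: the variance is at most the sum of the energies

PROOF.  `f = ff S lam`, `V j = (pre n j).sym2`.  `var_tel` (CHV/Mrt): the left side is `∑_{j<n} (Ex (CE (V (j+1)) f)^2 - Ex (CE (V j) f)^2)`.  For every `j < n`
`Ex (CE (V (j+1)) f)^2 - Ex (CE (V j) f)^2 ≤ p (1-p) ∑_{e ∈ nw n j} Ex (CE (V (j+1)) (dd e f))^2 ≤ ener j`: `V (j+1) = V j ∪ nw n j` (`nw n j = V (j+1) \ V j`, `V j ⊆ V (j+1)`: `pre_mono`,
`Finset.sym2_mono`).  Prove by `Finset.induction_on` for the subsets `W` of `nw n j`: `Ex (CE (V j ∪ W) f)^2 - Ex (CE (V j) f)^2 ≤ p (1-p) ∑_{e ∈ W} Ex (CE (V (j+1)) (dd e f))^2`: `CE_step` (CHV/Glu) gives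
`Ex (CE (insert e S) f)^2 - Ex (CE S f)^2 = p (1-p) Ex (CE S (dd e f))^2` for `e ∉ S`, and `Ex (CE S F)^2 ≤ Ex (CE S' F)^2` for `S ⊆ S'` (conditional Jensen: `CE S F = CE S (CE S' F)` by `CE_CE`,
`(CE S H x)^2 ≤ CE S (H^2) x` by `sq_Ex_le`, and `Ex (CE S (H^2)) = Ex H^2` by `Ex_CE`); `0 ≤ p (1-p) ≤ 1`, the energies are nonnegative.
-/

set_option autoImplicit false

namespace Pool.Agent.CHP

open Finset Pool.Agent.CHV

private theorem ce_sq_mono {ι : Type} [Fintype ι] [DecidableEq ι] {p : ℝ} (h0 : 0 ≤ p)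
    (h1 : p ≤ 1) {S T : Finset ι} (h : S ⊆ T) (F : (ι → Bool) → ℝ) :
    Ex p (fun x => CE p S F x ^ 2) ≤ Ex p (fun x => CE p T F x ^ 2) := by
  have e1 : ∀ x, CE p S F x ^ 2 ≤ CE p S (fun y => CE p T F y ^ 2) x := by
    intro x
    rw [← CE_CE h F x]
    unfold CE
    exact sq_Ex_le h0 h1 _
  refine (Ex_mono h0 h1 e1).trans ?_
  have e2 := Ex_CE (p := p) S (fun y => CE p T F y ^ 2)
  exact le_of_eq e2

theorem var_le_ener {p : ℝ} (h0 : 0 ≤ p) (h1 : p ≤ 1) {n S lam : ℕ} :
    Ex p (fun x : Cf n => ff S lam x ^ 2) - Ex p (fun x : Cf n => ff S lam x) ^ 2 ≤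
      ∑ j ∈ range n, ener p (n := n) S lam j := by
  have hpp : 0 ≤ p * (1 - p) := mul_nonneg h0 (by linarith)
  have hpp1 : p * (1 - p) ≤ 1 := by nlinarith
  rw [var_tel (p := p) (fun x : Cf n => ff S lam x)]
  refine Finset.sum_le_sum fun j _ => ?_
  have hST : (pre n j).sym2 ⊆ (pre n (j + 1)).sym2 := Finset.sym2_mono (pre_mono (Nat.le_succ j))
  have key : ∀ W : Finset (Sym2 (Fin n)), W ⊆ nw n j →
      Ex p (fun x : Cf n => CE p ((pre n j).sym2 ∪ W) (ff S lam) x ^ 2) -
        Ex p (fun x : Cf n => CE p (pre n j).sym2 (ff S lam) x ^ 2) ≤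
      ∑ e ∈ W, Ex p (fun x : Cf n => CE p (pre n (j + 1)).sym2 (dd e (ff S lam)) x ^ 2) := by
    intro W
    induction W using Finset.induction_on with
    | empty =>
      intro _
      rw [Finset.union_empty, Finset.sum_empty, sub_self]
    | insert e W he ih =>
      intro hW
      have hW' : W ⊆ nw n j := fun a ha => hW (Finset.mem_insert_of_mem ha)
      have heW : e ∈ nw n j := hW (Finset.mem_insert_self e W)
      have ih' := ih hW'
      have hne : e ∉ (pre n j).sym2 ∪ W := by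
        rw [Finset.mem_union]
        rintro (h | h)
        · unfold nw at heW
          exact (Finset.mem_sdiff.1 heW).2 h
        · exact he h
      have hstep := CE_step (p := p) hne (fun x : Cf n => ff S lam x)
      rw [Finset.union_insert, Finset.sum_insert he]
      have hsub : (pre n j).sym2 ∪ W ⊆ (pre n (j + 1)).sym2 := by
        refine Finset.union_subset hST ?_
        intro a ha
        have := hW' ha
        unfold nw at this
        exact (Finset.mem_sdiff.1 this).1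
      have hmono := ce_sq_mono h0 h1 hsub (dd e (fun x : Cf n => ff S lam x))
      have hnn : 0 ≤ Ex p (fun x : Cf n =>
          CE p ((pre n j).sym2 ∪ W) (dd e (fun x : Cf n => ff S lam x)) x ^ 2) :=
        Ex_nonneg h0 h1 fun x => sq_nonneg _
      have h2 : p * (1 - p) * Ex p (fun x : Cf n =>
          CE p ((pre n j).sym2 ∪ W) (dd e (fun x : Cf n => ff S lam x)) x ^ 2) ≤
          1 * Ex p (fun x : Cf n =>
          CE p ((pre n j).sym2 ∪ W) (dd e (fun x : Cf n => ff S lam x)) x ^ 2) :=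
        mul_le_mul_of_nonneg_right hpp1 hnn
      have h3 : Ex p (fun x : Cf n => CE p (insert e ((pre n j).sym2 ∪ W)) (ff S lam) x ^ 2) -
          Ex p (fun x : Cf n => CE p ((pre n j).sym2 ∪ W) (ff S lam) x ^ 2) ≤
          Ex p (fun x : Cf n => CE p (pre n (j + 1)).sym2 (dd e (ff S lam)) x ^ 2) := by
        refine (le_of_eq hstep).trans ?_
        refine h2.trans ?_
        rw [one_mul]
        exact hmono
      linarith
  have hun : (pre n j).sym2 ∪ nw n j = (pre n (j + 1)).sym2 := by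
    unfold nw
    exact Finset.union_sdiff_of_subset hST
  have h4 := key (nw n j) (Finset.Subset.refl _)
  rw [hun] at h4
  exact h4

end Pool.Agent.CHP
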