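import Pool.Agent.CHP.Uno
import Pool.Agent.CHP.PrT

/-!
# CHP / Prx: existence of a pair of packings with prescribed profiles and a property

PROOF.  Let `E x y z` be the event.  If `E` holds with `P, Q`, `exists_rep` gives `I0 ∈ OP univ u`, `J0 ∈ OP univ u'` with
`univ.image I0 = P`, `univ.image J0 = Q` and all members independent.  Put
`G I J = ind ((∀ i, Ind (glue T.sym2 x y) (I i)) ∧ ∀ j, Ind (glue T.sym2 x z) (J j)) * Ψ (univ.image I) (univ.image J)`; it is invariant under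
permutations of `I` and of `J` (`Finset.image_comp`-like: the image of `fun i => I (π i)` is the image of `I`), `1 ≤ G I0 J0`.  `uno` twice:
`(∏ (cnt u' v)!) G I0 J0 ≤ ∑ J, G I0 J`, and `I ↦ ∑ J, G I J` is invariant too, so
`(∏ (cnt u v)!) (∏ (cnt u' v)!) * ind (E x y z) ≤ ∑ I ∈ OP univ u, ∑ J ∈ OP univ u', G I J`.
Take the three expectations (`Ex_mono`, `Ex_sum`, `Ex_smul`); by `pair_prob_tuple` and `(I i).card = u i`, `(J j).card = u' j`
`Ex Ex Ex G I J = q^(e+e') (1/q)^(∑∑ ..) Ψ (image I) (image J)`, `q = 1-p`.  `hY` bounds the sum over `J` by `q^(e+e') |OP univ u'| Y`; sum over `I`: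
`|OP univ u| |OP univ u'| q^(e+e') Y`, and `EZ_eq` twice.
-/

set_option autoImplicit false

namespace Pool.Agent.CHP

open Finset Pool.Agent.CHV

variable {n : ℕ} {ι ι' : Type} [Fintype ι] [DecidableEq ι] [Fintype ι'] [DecidableEq ι'] {p : ℝ}

private theorem img_perm (I : ι → Finset (Fin n)) (π : Equiv.Perm ι) :
    univ.image (fun i => I (π i)) = univ.image I := by
  ext K
  simp only [Finset.mem_image, Finset.mem_univ, true_and]
  constructor
  · rintro ⟨i, hi⟩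
    exact ⟨π i, hi⟩
  · rintro ⟨i, hi⟩
    exact ⟨π.symm i, by rw [Equiv.apply_symm_apply, hi]⟩

private theorem all_perm (I : ι → Finset (Fin n)) (π : Equiv.Perm ι) (D : Finset (Fin n) → Prop) :
    (∀ i, D (I (π i))) ↔ ∀ i, D (I i) := by
  constructor
  · intro h i
    have := h (π.symm i)
    rwa [Equiv.apply_symm_apply] at this
  · intro h i
    exact h _

/-- The pointwise inequality. -/
private theorem prx_point {S lam : ℕ} (D D' : Finset (Fin n) → Prop)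
    (u : ι → ℕ) (hu1 : ∀ i, 1 ≤ u i) (hu : ∀ i, u i ≤ S)
    (u' : ι' → ℕ) (hu'1 : ∀ i, 1 ≤ u' i) (hu' : ∀ i, u' i ≤ S)
    (Ψ : Finset (Finset (Fin n)) → Finset (Finset (Fin n)) → ℝ) (hΨ : ∀ P Q, 0 ≤ Ψ P Q)
    (x' x'' : Cf n) (hD : ∀ I, D I ↔ Ind x' I) (hD' : ∀ I, D' I ↔ Ind x'' I) :
    (∏ v ∈ range (S + 1), ((cnt u v).factorial : ℝ)) *
      (∏ v ∈ range (S + 1), ((cnt u' v).factorial : ℝ)) *
      ind (∃ P Q, Pack S lam x' P ∧ Pack S lam x'' Q ∧
        (∀ v ≤ S, prof P v = cnt u v) ∧ (∀ v ≤ S, prof Q v = cnt u' v) ∧ 1 ≤ Ψ P Q) ≤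
    ∑ I ∈ OP (univ : Finset (Fin n)) u, ∑ J ∈ OP (univ : Finset (Fin n)) u',
      Ψ (univ.image I) (univ.image J) * ind ((∀ i, D (I i)) ∧ ∀ j, D' (J j)) := by
  obtain ⟨G, hG⟩ : ∃ G : (ι → Finset (Fin n)) → (ι' → Finset (Fin n)) → ℝ,
      G = fun I J => Ψ (univ.image I) (univ.image J) * ind ((∀ i, D (I i)) ∧ ∀ j, D' (J j)) :=
    ⟨_, rfl⟩
  have hGI : ∀ I J, G I J = Ψ (univ.image I) (univ.image J) *
      ind ((∀ i, D (I i)) ∧ ∀ j, D' (J j)) := fun I J => by rw [hG]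
  have hG0 : ∀ I J, 0 ≤ G I J := fun I J => by
    rw [hGI]
    exact mul_nonneg (hΨ _ _) (ind_nonneg _)
  have hsum : ∑ I ∈ OP (univ : Finset (Fin n)) u, ∑ J ∈ OP (univ : Finset (Fin n)) u',
      Ψ (univ.image I) (univ.image J) * ind ((∀ i, D (I i)) ∧ ∀ j, D' (J j)) =
      ∑ I ∈ OP (univ : Finset (Fin n)) u, ∑ J ∈ OP (univ : Finset (Fin n)) u', G I J := by
    refine Finset.sum_congr rfl fun I _ => Finset.sum_congr rfl fun J _ => ?_
    rw [hGI]
  rw [hsum]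
  by_cases hE : ∃ P Q, Pack S lam x' P ∧ Pack S lam x'' Q ∧
      (∀ v ≤ S, prof P v = cnt u v) ∧ (∀ v ≤ S, prof Q v = cnt u' v) ∧ 1 ≤ Ψ P Q
  · rw [ind_true hE, mul_one]
    obtain ⟨P, Q, hP, hQ, hpP, hpQ, hΨ1⟩ := hE
    obtain ⟨I0, hI0i, hI0P, hI0c⟩ := exists_rep u hu P hP.le hpP
    obtain ⟨J0, hJ0i, hJ0Q, hJ0c⟩ := exists_rep u' hu' Q hQ.le hpQ
    have hI0m : ∀ i, I0 i ∈ P := fun i => by
      rw [← hI0P]
      exact Finset.mem_image_of_mem _ (Finset.mem_univ i)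
    have hJ0m : ∀ i, J0 i ∈ Q := fun i => by
      rw [← hJ0Q]
      exact Finset.mem_image_of_mem _ (Finset.mem_univ i)
    have hI0 : I0 ∈ OP (univ : Finset (Fin n)) u := by
      rw [mem_OP]
      exact ⟨fun i => ⟨Finset.subset_univ _, hI0c i⟩, fun i j hij =>
        hP.disj _ (hI0m i) _ (hI0m j) fun h => hij (hI0i h)⟩
    have hJ0 : J0 ∈ OP (univ : Finset (Fin n)) u' := by
      rw [mem_OP]
      exact ⟨fun i => ⟨Finset.subset_univ _, hJ0c i⟩, fun i j hij =>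
        hQ.disj _ (hJ0m i) _ (hJ0m j) fun h => hij (hJ0i h)⟩
    have h1 : 1 ≤ G I0 J0 := by
      rw [hGI, hI0P, hJ0Q, ind_true ⟨fun i => (hD _).2 (hP.ind _ (hI0m i)),
        fun j => (hD' _).2 (hQ.ind _ (hJ0m j))⟩, mul_one]
      exact hΨ1
    have h2 := uno u' hu'1 hu' univ J0 hJ0 (G I0) (hG0 I0) (fun π _ => by
      rw [hGI, hGI, img_perm]
      congr 2
      rw [all_perm J0 π D'])
    have h3 := uno u hu1 hu univ I0 hI0
      (fun I => ∑ J ∈ OP (univ : Finset (Fin n)) u', G I J)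
      (fun I => Finset.sum_nonneg fun J _ => hG0 I J) (fun π _ => by
        refine Finset.sum_congr rfl fun J _ => ?_
        rw [hGI, hGI, img_perm]
        congr 2
        rw [all_perm I0 π D])
    have hC : (0 : ℝ) ≤ ∏ v ∈ range (S + 1), ((cnt u v).factorial : ℝ) :=
      Finset.prod_nonneg fun v _ => Nat.cast_nonneg _
    have hC' : (0 : ℝ) ≤ ∏ v ∈ range (S + 1), ((cnt u' v).factorial : ℝ) :=
      Finset.prod_nonneg fun v _ => Nat.cast_nonneg _
    calc (∏ v ∈ range (S + 1), ((cnt u v).factorial : ℝ)) *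
        (∏ v ∈ range (S + 1), ((cnt u' v).factorial : ℝ))
        = (∏ v ∈ range (S + 1), ((cnt u v).factorial : ℝ)) *
        ((∏ v ∈ range (S + 1), ((cnt u' v).factorial : ℝ)) * 1) := by rw [mul_one]
      _ ≤ (∏ v ∈ range (S + 1), ((cnt u v).factorial : ℝ)) *
        ((∏ v ∈ range (S + 1), ((cnt u' v).factorial : ℝ)) * G I0 J0) :=
          mul_le_mul_of_nonneg_left (mul_le_mul_of_nonneg_left h1 hC') hC
      _ ≤ (∏ v ∈ range (S + 1), ((cnt u v).factorial : ℝ)) *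
        ∑ J ∈ OP (univ : Finset (Fin n)) u', G I0 J := mul_le_mul_of_nonneg_left h2 hC
      _ ≤ _ := h3
  · rw [ind_false hE, mul_zero]
    exact Finset.sum_nonneg fun I _ => Finset.sum_nonneg fun J _ => hG0 I J

theorem pair_exists (h0 : 0 ≤ p) (h1 : p < 1) (hn : 0 < n) {S lam : ℕ} (T : Finset (Fin n))
    (u : ι → ℕ) (hu1 : ∀ i, 1 ≤ u i) (hu : ∀ i, u i ≤ S)
    (u' : ι' → ℕ) (hu'1 : ∀ i, 1 ≤ u' i) (hu' : ∀ i, u' i ≤ S)
    (Ψ : Finset (Finset (Fin n)) → Finset (Finset (Fin n)) → ℝ) (hΨ : ∀ P Q, 0 ≤ Ψ P Q) (Y : ℝ)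
    (hY : ∀ I ∈ OP (univ : Finset (Fin n)) u,
      ∑ J ∈ OP (univ : Finset (Fin n)) u', Ψ (univ.image I) (univ.image J) *
        (1 / (1 - p)) ^ (∑ i, ∑ j, (I i ∩ T ∩ J j).card.choose 2) ≤
          ((OP (univ : Finset (Fin n)) u').card : ℝ) * Y) :
    Ex p (fun x : Cf n => Ex p (fun y : Cf n => Ex p (fun z : Cf n =>
      ind (∃ P Q, Pack S lam (glue T.sym2 x y) P ∧ Pack S lam (glue T.sym2 x z) Q ∧
        (∀ v ≤ S, prof P v = cnt u v) ∧ (∀ v ≤ S, prof Q v = cnt u' v) ∧ 1 ≤ Ψ P Q)))) ≤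
      EZ p n S (cnt u) * EZ p n S (cnt u') * Y := by
  obtain ⟨C, hC⟩ : ∃ C, C = ∏ v ∈ range (S + 1), ((cnt u v).factorial : ℝ) := ⟨_, rfl⟩
  obtain ⟨C', hC'⟩ : ∃ C', C' = ∏ v ∈ range (S + 1), ((cnt u' v).factorial : ℝ) := ⟨_, rfl⟩
  have hCp : 0 < C := by
    rw [hC]
    exact Finset.prod_pos fun v _ => Nat.cast_pos.2 (Nat.factorial_pos _)
  have hCp' : 0 < C' := by
    rw [hC']
    exact Finset.prod_pos fun v _ => Nat.cast_pos.2 (Nat.factorial_pos _)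
  obtain ⟨O, hO⟩ : ∃ O : Finset (ι → Finset (Fin n)), O = OP (univ : Finset (Fin n)) u :=
    ⟨_, rfl⟩
  obtain ⟨O', hO'⟩ : ∃ O' : Finset (ι' → Finset (Fin n)), O' = OP (univ : Finset (Fin n)) u' :=
    ⟨_, rfl⟩
  have hq : 0 < 1 - p := by linarith
  have hp1 : p ≤ 1 := h1.le
  obtain ⟨E, hE⟩ : ∃ E : Cf n → Cf n → Cf n → Prop, E = fun x y z =>
      ∃ P Q, Pack S lam (glue T.sym2 x y) P ∧ Pack S lam (glue T.sym2 x z) Q ∧
        (∀ v ≤ S, prof P v = cnt u v) ∧ (∀ v ≤ S, prof Q v = cnt u' v) ∧ 1 ≤ Ψ P Q := ⟨_, rfl⟩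
  have hgoal : Ex p (fun x : Cf n => Ex p (fun y : Cf n => Ex p (fun z : Cf n =>
      ind (∃ P Q, Pack S lam (glue T.sym2 x y) P ∧ Pack S lam (glue T.sym2 x z) Q ∧
        (∀ v ≤ S, prof P v = cnt u v) ∧ (∀ v ≤ S, prof Q v = cnt u' v) ∧ 1 ≤ Ψ P Q)))) =
      Ex p (fun x : Cf n => Ex p (fun y : Cf n => Ex p (fun z : Cf n => ind (E x y z)))) := by
    rw [hE]
  rw [hgoal]
  have key : C * C' * Ex p (fun x : Cf n => Ex p (fun y : Cf n => Ex p (fun z : Cf n =>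
      ind (E x y z)))) ≤
      ∑ I ∈ O, ∑ J ∈ O', Ψ (univ.image I) (univ.image J) *
        Ex p (fun x : Cf n => Ex p (fun y : Cf n => Ex p (fun z : Cf n =>
          ind ((∀ i, Ind (glue T.sym2 x y) (I i)) ∧ ∀ j, Ind (glue T.sym2 x z) (J j))))) := by
    have e1 : C * C' * Ex p (fun x : Cf n => Ex p (fun y : Cf n => Ex p (fun z : Cf n =>
        ind (E x y z)))) = Ex p (fun x : Cf n => Ex p (fun y : Cf n => Ex p (fun z : Cf n =>
        C * C' * ind (E x y z)))) := by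
      rw [← Ex_smul]
      congr 1
      funext x
      rw [← Ex_smul]
      congr 1
      funext y
      rw [← Ex_smul]
    have e2 : ∑ I ∈ O, ∑ J ∈ O', Ψ (univ.image I) (univ.image J) *
        Ex p (fun x : Cf n => Ex p (fun y : Cf n => Ex p (fun z : Cf n =>
          ind ((∀ i, Ind (glue T.sym2 x y) (I i)) ∧ ∀ j, Ind (glue T.sym2 x z) (J j))))) =
        Ex p (fun x : Cf n => Ex p (fun y : Cf n => Ex p (fun z : Cf n =>
          ∑ I ∈ O, ∑ J ∈ O', Ψ (univ.image I) (univ.image J) *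
          ind ((∀ i, Ind (glue T.sym2 x y) (I i)) ∧ ∀ j, Ind (glue T.sym2 x z) (J j))))) := by
      have f3 : ∀ x y : Cf n, Ex p (fun z : Cf n =>
          ∑ I ∈ O, ∑ J ∈ O', Ψ (univ.image I) (univ.image J) *
          ind ((∀ i, Ind (glue T.sym2 x y) (I i)) ∧ ∀ j, Ind (glue T.sym2 x z) (J j))) =
          ∑ I ∈ O, ∑ J ∈ O', Ψ (univ.image I) (univ.image J) * Ex p (fun z : Cf n =>
          ind ((∀ i, Ind (glue T.sym2 x y) (I i)) ∧ ∀ j, Ind (glue T.sym2 x z) (J j))) := by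
        intro x y
        rw [Ex_sum]
        refine Finset.sum_congr rfl fun I _ => ?_
        rw [Ex_sum]
        refine Finset.sum_congr rfl fun J _ => ?_
        rw [Ex_smul]
      have f2 : ∀ x : Cf n, Ex p (fun y : Cf n => Ex p (fun z : Cf n =>
          ∑ I ∈ O, ∑ J ∈ O', Ψ (univ.image I) (univ.image J) *
          ind ((∀ i, Ind (glue T.sym2 x y) (I i)) ∧ ∀ j, Ind (glue T.sym2 x z) (J j)))) =
          ∑ I ∈ O, ∑ J ∈ O', Ψ (univ.image I) (univ.image J) *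
          Ex p (fun y : Cf n => Ex p (fun z : Cf n =>
          ind ((∀ i, Ind (glue T.sym2 x y) (I i)) ∧ ∀ j, Ind (glue T.sym2 x z) (J j)))) := by
        intro x
        simp only [f3]
        rw [Ex_sum]
        refine Finset.sum_congr rfl fun I _ => ?_
        rw [Ex_sum]
        refine Finset.sum_congr rfl fun J _ => ?_
        rw [Ex_smul]
      simp only [f2]
      rw [Ex_sum]
      refine Finset.sum_congr rfl fun I _ => ?_
      rw [Ex_sum]
      refine Finset.sum_congr rfl fun J _ => ?_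
      rw [Ex_smul]
    rw [e1, e2]
    refine Ex_mono h0 hp1 fun x => Ex_mono h0 hp1 fun y => Ex_mono h0 hp1 fun z => ?_
    rw [hC, hC', hE, hO, hO']
    exact prx_point (Ind (glue T.sym2 x y)) (Ind (glue T.sym2 x z)) u hu1 hu u' hu'1 hu' Ψ hΨ
      (glue T.sym2 x y) (glue T.sym2 x z) (fun I => Iff.rfl) (fun I => Iff.rfl)
  have hB : ∑ I ∈ O, ∑ J ∈ O', Ψ (univ.image I) (univ.image J) *
        Ex p (fun x : Cf n => Ex p (fun y : Cf n => Ex p (fun z : Cf n =>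
          ind ((∀ i, Ind (glue T.sym2 x y) (I i)) ∧ ∀ j, Ind (glue T.sym2 x z) (J j))))) ≤
      (O.card : ℝ) * ((1 - p) ^ (∑ i, (u i).choose 2 + ∑ j, (u' j).choose 2) *
        ((O'.card : ℝ) * Y)) := by
    rw [← nsmul_eq_mul]
    refine Finset.sum_le_card_nsmul _ _ _ fun I hI => ?_
    have hI' := hI
    rw [hO, mem_OP] at hI'
    have hYI := hY I (by rw [← hO]; exact hI)
    rw [← hO'] at hYI
    refine le_trans (le_of_eq ?_) (mul_le_mul_of_nonneg_left hYI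
      (pow_nonneg hq.le (∑ i, (u i).choose 2 + ∑ j, (u' j).choose 2)))
    rw [Finset.mul_sum]
    refine Finset.sum_congr rfl fun J hJ => ?_
    rw [hO', mem_OP] at hJ
    rw [pair_prob_tuple h1 T I hI'.2 J hJ.2]
    have g1 : ∀ i, (I i).card = u i := fun i => (hI'.1 i).2
    have g2 : ∀ i, (J i).card = u' i := fun i => (hJ.1 i).2
    simp only [g1, g2]
    ring
  have hfin := le_trans key hB
  rw [EZ_eq p hn u hu, EZ_eq p hn u' hu', ← hC, ← hC', ← hO, ← hO']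
  have h5 : Ex p (fun x : Cf n => Ex p (fun y : Cf n => Ex p (fun z : Cf n =>
      ind (E x y z)))) ≤ ((O.card : ℝ) * ((1 - p) ^ (∑ i, (u i).choose 2 +
        ∑ j, (u' j).choose 2) * ((O'.card : ℝ) * Y))) / (C * C') := by
    rw [le_div_iff₀ (mul_pos hCp hCp'), mul_comm]
    exact hfin
  refine le_trans h5 (le_of_eq ?_)
  rw [pow_add]
  field_simp

end Pool.Agent.CHP
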