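import Pool.Agent.CHP.Cr2
import Pool.Agent.CHP.Prf
import Pool.Agent.CHP.Pos
import Pool.Agent.CHP.Nea
import Pool.Agent.CHP.Prx
import Pool.Agent.CHP.NTc

/-!
# CHP / PrB: pairs of near-optimal packings with many overlaps do not exist

Notation: `ℒ = log n`, `S = SS p K n`, `lam = lm p n`, `r0 = rz S`, `e = n - |T| ≥ Λ ℒ^5`.
PROOF.  `exists_fam` for `κ` and `κ'` (`κ 0 = κ' 0 = 0`): `ι, u`, `ι', u'`; `∑ u i = sz S κ ≤ n`, `∑ u' i = sz S κ' ≤ n`; `Near` and `Hf`, `EZ`, `bin` only depend on the values up to `S`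
(`near_congr`, `EZ_congr`, `bin_congr`).  The constants: `C1, c1` of `positivity_H` (for `δ`), `C2` of `EZ_near`.  The event is contained in `(a) ∪ (b)` (`ind_or`, `ind_mono`):
(a) with `x ≤ MgP`, `x = ⌈Λ ℒ^4⌉₊`; (b) with `x ≤ NuP`.
(a) `pair_exists` with `Ψ P Q = ind (x ≤ MgP r0 T P Q)`: for `I ∈ OP univ u`, `J ∈ OP univ u'`: `MgP_eq`, and by `prod_fw` `(1/(1-p))^(∑∑ (I i ∩ T ∩ J j).card.choose 2) ≤ ∏∏ fw 3 ..`
(`3^Nu ≥ 1`), so `core_final` bounds the sum, with `st = (n + |T|)/2`, `Y = exp (-(c1 Λ ℒ^5 - C1 Λ ℒ)/2)`, `Y2 = Y' = exp (C1 Λ ℒ/2)`: for `σ` with `x ≤ num S σ`, `sz S σ ≤ st ≤ n - e/2`: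
`positivity_H` (second claim, `n^g ≤ Λ ≤ x ≤ num S σ`, `min (num S σ * ℒ) e ≥ Λ ℒ^5`), `bin_exp`, `EZ_pos`.  `ℒ #{i | 20 u i < 19 S} ≤ Λ` (`small_near`; the cardinality is the sum of the
`cnt u v = κ v` over these `v`).  `(st - |T|)/S ≥ (e/2 - 1)/S - 1 ≥ Λ ℒ^3` for large `n` (`S ≤ 2 L = (2/B) ℒ`).  So the sum is `≤ |OP univ u'| Y0` with
`Y0 = exp (n^g ℒ^2 + Λ) exp (C1 Λ ℒ/2) (exp (-(c1 Λ ℒ^5 - C1 Λ ℒ)/2) + exp (C1 Λ ℒ/2) exp (-(ℒ/100) Λ ℒ^3))`, and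
`EZ κ EZ κ' Y0 ≤ exp (2 C2 Λ) Y0 ≤ (1/2) exp (-Λ)` for large `n` (`n^g ℒ^2 ≤ Λ`; `ℒ → ∞`; `Λ ≥ 1`).
(b) `pair_exists` with `Ψ P Q = 3^(NuP r0 T P Q)/3^x` (`1 ≤ Ψ` iff `x ≤ NuP`): by `NuP_eq`, `prod_fw` `Ψ (image I) (image J) (1/(1-p))^(∑∑ ..) = 3^(-x) ∏∏ fw 3 ..`, and `core_final` with `x := 0`,
`st = n` (any `st ≥ n`, the exponential factor is `≤ 1`), `Y = Y2 = Y' = exp (C1 Λ ℒ/2)`: `Y0 = 3^(-x) exp (n^g ℒ^2 + Λ) exp (C1 Λ ℒ/2) 2 exp (C1 Λ ℒ/2)`, and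
`3^(-x) ≤ exp (-Λ ℒ^4)` (`log 3 ≥ 1`), so `EZ κ EZ κ' Y0 ≤ (1/2) exp (-Λ)`.
-/

set_option autoImplicit false

namespace Pool.Agent.CHP

open Finset Filter Pool.Agent.CHV

private theorem ex3_or {n : ℕ} {p : ℝ} (h0 : 0 ≤ p) (h1 : p ≤ 1)
    (E Ea Eb : Cf n → Cf n → Cf n → Prop)
    (h : ∀ x y z, E x y z → Ea x y z ∨ Eb x y z) :
    Ex p (fun x : Cf n => Ex p (fun y : Cf n => Ex p (fun z : Cf n => ind (E x y z)))) ≤
      Ex p (fun x : Cf n => Ex p (fun y : Cf n => Ex p (fun z : Cf n => ind (Ea x y z)))) +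
      Ex p (fun x : Cf n => Ex p (fun y : Cf n => Ex p (fun z : Cf n => ind (Eb x y z)))) := by
  rw [← Ex_add]
  refine Ex_mono h0 h1 fun x => ?_
  rw [← Ex_add]
  refine Ex_mono h0 h1 fun y => ?_
  rw [← Ex_add]
  refine Ex_mono h0 h1 fun z => ?_
  exact (ind_mono (h x y z)).trans (ind_or _ _)

private theorem card_small {ι : Type} [Fintype ι] [DecidableEq ι] {S : ℕ} (u : ι → ℕ)
    (hu : ∀ i, u i ≤ S) : (univ.filter (fun i => 20 * u i < 19 * S)).card =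
      ∑ v ∈ (range (S + 1)).filter (fun v => 20 * v < 19 * S), cnt u v := by
  have h := sum_fib u hu (fun v => if 20 * v < 19 * S then 1 else 0)
  rw [Finset.card_filter, h, Finset.sum_filter]
  refine Finset.sum_congr rfl fun v _ => ?_
  split_ifs <;> simp

private theorem exp_comb {a b Λ : ℝ} (ha : a ≤ -(3 * Λ)) (hb : b ≤ -(3 * Λ)) (hΛ : 1 ≤ Λ) :
    Real.exp a + Real.exp b ≤ 1 / 2 * Real.exp (-Λ) := by
  have h1 : Real.exp a ≤ Real.exp (-(3 * Λ)) := Real.exp_le_exp.2 ha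
  have h2 : Real.exp b ≤ Real.exp (-(3 * Λ)) := Real.exp_le_exp.2 hb
  have h3 : Real.exp (-(3 * Λ)) = Real.exp (-Λ) * Real.exp (-(2 * Λ)) := by
    rw [← Real.exp_add]
    congr 1
    ring
  have h4 : Real.exp (-(2 * Λ)) ≤ 1 / 4 := by
    have h5 : Real.exp (-(2 * Λ)) ≤ Real.exp (-2) := Real.exp_le_exp.2 (by linarith)
    have h6 : Real.exp (-2) * Real.exp 2 = 1 := by
      rw [← Real.exp_add]
      norm_num
    have h7 : 3 ≤ Real.exp 2 := by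
      have := Real.add_one_le_exp (2 : ℝ)
      linarith
    have h8 : Real.exp 2 = Real.exp 1 * Real.exp 1 := by
      rw [← Real.exp_add]
      norm_num
    have h9 : 2 ≤ Real.exp 1 := by
      have := Real.add_one_le_exp (1 : ℝ)
      linarith
    have h10 : 4 ≤ Real.exp 2 := by
      rw [h8]
      nlinarith
    have h11 := Real.exp_pos (-2)
    nlinarith
  have h5 := Real.exp_pos (-Λ)
  have h6 : Real.exp (-Λ) * Real.exp (-(2 * Λ)) ≤ Real.exp (-Λ) * (1 / 4) :=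
    mul_le_mul_of_nonneg_left h4 h5.le
  linarith

private theorem div_bound {a S : ℕ} {y : ℝ} (hS : 0 < S) (h : (S : ℝ) * (y + 1) ≤ a) :
    y ≤ ((a / S : ℕ) : ℝ) := by
  by_contra hc
  push Not at hc
  have h1 : a < S * (a / S + 1) := Nat.lt_mul_div_succ a hS
  have h2 : (a : ℝ) < (S : ℝ) * (((a / S : ℕ) : ℝ) + 1) := by exact_mod_cast h1
  have h3 : (S : ℝ) * (((a / S : ℕ) : ℝ) + 1) ≤ (S : ℝ) * (y + 1) :=
    mul_le_mul_of_nonneg_left (by linarith) (Nat.cast_nonneg S)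
  linarith

/-- The numerical facts for large `ℒ`. -/
private theorem nums {C1 C2 c1 c L : ℝ} (hC1 : 0 < C1) (hC2 : 0 < C2) (hc1 : 0 < c1)
    (hc : 0 < c)
    (hL : 1 + 2 * (5 + 2 * C2 + C1) / c1 + 100 * (5 + 2 * C2 + C1) + (4 * c + 2) ≤ L) :
    1 ≤ L ∧ 2 * C2 + 5 + C1 * L ≤ c1 * L ^ 5 / 2 ∧ 2 * C2 + 5 + C1 * L ≤ L ^ 4 / 100 ∧
      4 * c + 2 ≤ L := by
  set M := 5 + 2 * C2 + C1 with hM
  have hM0 : 0 < M := by positivity
  have h1 : 0 < 2 * M / c1 := by positivity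
  have hL1 : 1 ≤ L := by linarith
  have h2 : 2 * M / c1 ≤ L := by linarith
  have h3 : 100 * M ≤ L := by linarith
  have h4 : 2 * C2 + 5 + C1 * L ≤ M * L := by
    rw [hM]
    nlinarith
  rw [div_le_iff₀ hc1] at h2
  have hL4 : L ≤ L ^ 4 := by
    calc L = L ^ 1 := (pow_one L).symm
      _ ≤ L ^ 4 := pow_le_pow_right₀ hL1 (by norm_num)
  have hL3 : L ≤ L ^ 3 := by
    calc L = L ^ 1 := (pow_one L).symm
      _ ≤ L ^ 3 := pow_le_pow_right₀ hL1 (by norm_num)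
  refine ⟨hL1, ?_, ?_, by linarith⟩
  · have h5 : M * L ≤ M * L ^ 4 := mul_le_mul_of_nonneg_left hL4 hM0.le
    have h6 : 2 * M * L ^ 4 ≤ L * c1 * L ^ 4 := mul_le_mul_of_nonneg_right h2 (by positivity)
    have h7 : c1 * L ^ 5 / 2 = (L * c1 * L ^ 4) / 2 := by ring
    rw [h7]
    linarith
  · have h5 : M * L ≤ M * L ^ 3 := mul_le_mul_of_nonneg_left hL3 hM0.le
    have h6 : 100 * M * L ^ 3 ≤ L * L ^ 3 := mul_le_mul_of_nonneg_right h3 (by positivity)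
    have h7 : L ^ 4 / 100 = (L * L ^ 3) / 100 := by ring
    rw [h7]
    linarith

theorem pair_bad {p : ℝ} (h0 : 0 < p) (h1 : p < 1) (K : ℕ) {g : ℝ} (hg : 3 / 5 ≤ g)
    (hg1 : g < 1) (C0 cT : ℝ) (hcT : 0 < cT) (hcT1 : cT ≤ 1) {δ : ℝ} (hδ : 0 < δ) :
    ∀ᶠ n : ℕ in atTop, ∀ (t : ℕ) (G A : ℝ) (ko : ℕ → ℝ),
      Par p g C0 cT n (SS p K n) t (lm p n) G A ko → ∀ Λ : ℝ,
      (n : ℝ) ^ g * Real.log n ^ 2 ≤ Λ → Λ ≤ (n : ℝ) ^ (1 - δ) →
      ∀ κ κ' : ℕ → ℕ, Near n (SS p K n) t (lm p n) A ko Λ κ →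
      Near n (SS p K n) t (lm p n) A ko Λ κ' →
      ∀ T : Finset (Fin n), Λ * Real.log n ^ 5 ≤ (n : ℝ) - T.card →
      Ex p (fun x : Cf n => Ex p (fun y : Cf n => Ex p (fun z : Cf n =>
        ind (∃ P Q, Pack (SS p K n) (lm p n) (glue T.sym2 x y) P ∧
          Pack (SS p K n) (lm p n) (glue T.sym2 x z) Q ∧
          (∀ v ≤ SS p K n, prof P v = κ v) ∧ (∀ v ≤ SS p K n, prof Q v = κ' v) ∧
          (Λ * Real.log n ^ 4 ≤ (MgP (rz (SS p K n)) T P Q : ℝ) ∨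
            Λ * Real.log n ^ 4 ≤ (NuP (rz (SS p K n)) T P Q : ℝ)))))) ≤ Real.exp (-Λ) := by
  obtain ⟨C1, c1, hC1, hc1, hpos⟩ := positivity_H (p := p) (g := g) h0 h1 (by linarith) hg1.le
    C0 cT hcT hcT1 hδ
  obtain ⟨C2, hC2, hEZn⟩ := EZ_near (p := p) (g := g) h0 h1 (by linarith) C0 cT
  have hB : 0 < -Real.log (1 - p) := by
    have := Real.log_neg (show 0 < 1 - p by linarith) (show 1 - p < 1 by linarith)
    linarith
  obtain ⟨c, hcdef⟩ : ∃ c : ℝ, c = 2 / -Real.log (1 - p) := ⟨_, rfl⟩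
  have hc : 0 < c := by rw [hcdef]; positivity
  have hLt : ∀ᶠ n : ℕ in atTop,
      1 + 2 * (5 + 2 * C2 + C1) / c1 + 100 * (5 + 2 * C2 + C1) + (4 * c + 2) ≤ Real.log n :=
    (Real.tendsto_log_atTop.comp (tendsto_natCast_atTop_atTop (R := ℝ))).eventually_ge_atTop _
  filter_upwards [hpos, hEZn, small_near (p := p) (g := g) h0 h1 C0 cT,
    core_final h0 h1 K hg hg1, hLt, eventually_ge_atTop 1] with n hposn hEZ hsm hcf hLn hn1
    t G A ko hP Λ hΛ1 hΛ2 κ κ' hκ hκ' T hT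
  obtain ⟨hL1, hf2, hf3, hf4⟩ := nums hC1 hC2 hc1 hc hLn
  clear hLn
  obtain ⟨L, hL⟩ : ∃ L : ℝ, L = Real.log n := ⟨_, rfl⟩
  rw [← hL] at hΛ1 hT hL1 hf2 hf3 hf4 ⊢
  obtain ⟨S, hSdef⟩ : ∃ S, S = SS p K n := ⟨_, rfl⟩
  rw [← hSdef] at hP hκ hκ' ⊢
  obtain ⟨lam, hlam⟩ : ∃ lam, lam = lm p n := ⟨_, rfl⟩
  rw [← hlam] at hP hκ hκ' ⊢
  have hn1' : (1 : ℝ) ≤ n := by exact_mod_cast hn1
  have hn0 : (0 : ℝ) < n := by linarith
  have hL0 : 0 < L := by linarith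
  have hng1 : 1 ≤ (n : ℝ) ^ g := Real.one_le_rpow hn1' (by linarith)
  have hL2 : 1 ≤ L ^ 2 := one_le_pow₀ hL1
  have hΛn : (n : ℝ) ^ g ≤ Λ := by
    refine le_trans ?_ hΛ1
    exact le_mul_of_one_le_right (by linarith) hL2
  have hΛ11 : 1 ≤ Λ := hng1.trans hΛn
  have hΛ0 : 0 ≤ Λ := by linarith
  have hΛL : (n : ℝ) ^ g * L ≤ Λ := by
    refine le_trans (mul_le_mul_of_nonneg_left ?_ (by linarith)) hΛ1
    nlinarith
  have hlS : lam ≤ S := by
    have := hP.lamt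
    have := hP.lt
    omega
  have hSpos : 0 < S := by
    have := hP.lt
    omega
  have hScL : (S : ℝ) ≤ c * L := by
    have h5 := hP.SL
    rw [hcdef, div_mul_eq_mul_div, le_div_iff₀ hB]
    rw [← hL] at h5
    linarith
  -- the families
  obtain ⟨ι, fι, dι, u, hu1, hu, huκ⟩ := exists_fam (S := S) κ (hκ.zero 0 (Nat.zero_le _))
  obtain ⟨ι', fι', dι', u', hu1', hu', huκ'⟩ :=
    exists_fam (S := S) κ' (hκ'.zero 0 (Nat.zero_le _))
  have hN : Near n S t lam A ko Λ (cnt u) :=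
    near_congr hP.lt hlS hκ (fun v hv => (huκ v hv).symm)
  have hN' : Near n S t lam A ko Λ (cnt u') :=
    near_congr hP.lt hlS hκ' (fun v hv => (huκ' v hv).symm)
  have hsu : ∑ i, u i ≤ n := by
    rw [← sz_cnt u hu]
    exact hN.le
  have hsu' : ∑ i, u' i ≤ n := by
    rw [← sz_cnt u' hu']
    exact hN'.le
  -- sizes of sub-profiles
  have hszle : ∀ κ1 : ℕ → ℕ, sz S κ1 ≤ n → ∀ σ : ℕ → ℕ, (∀ v ≤ S, σ v ≤ κ1 v) → sz S σ ≤ n := by
    intro κ1 hκ1 σ hσ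
    refine le_trans ?_ hκ1
    unfold sz
    refine Finset.sum_le_sum fun v hv => Nat.mul_le_mul_left v (hσ v ?_)
    have := Finset.mem_range.1 hv
    omega
  obtain ⟨a, ha⟩ : ∃ a : ℝ, a = C1 * Λ * L := ⟨_, rfl⟩
  have ha0 : 0 ≤ a := by rw [ha]; positivity
  have hbin : ∀ κ1 : ℕ → ℕ, Near n S t lam A ko Λ κ1 → ∀ σ : ℕ → ℕ, (∀ v ≤ S, σ v ≤ κ1 v) →
      (bin S κ1 σ : ℝ) ≤ Real.exp (a / 2) * Real.sqrt (EZ p n S σ) := by
    intro κ1 hκ1 σ hσ
    have h2 := (hposn S t lam G A ko hP Λ (by rw [← hL]; exact hΛL) hΛ2 κ1 hκ1 σ hσ).1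
    rw [← hL, ← ha] at h2
    exact bin_exp (EZ_pos h1 hn1 (hszle κ1 hκ1.le σ hσ)) h2
  -- the bounds for EZ
  have hEu : 0 < EZ p n S (cnt u) := EZ_pos h1 hn1 hN.le
  have hEu' : 0 < EZ p n S (cnt u') := EZ_pos h1 hn1 hN'.le
  have hEle : ∀ κ1 : ℕ → ℕ, Near n S t lam A ko Λ κ1 → 0 < EZ p n S κ1 →
      EZ p n S κ1 ≤ Real.exp (C2 * Λ) := by
    intro κ1 hκ1 hE
    have h2 := hEZ S t lam G A ko hP Λ (by rw [← hL]; exact hΛL) κ1 hκ1
    rwa [Real.log_le_iff_le_exp hE] at h2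
  have hEE : EZ p n S (cnt u) * EZ p n S (cnt u') ≤ Real.exp (C2 * Λ) * Real.exp (C2 * Λ) :=
    mul_le_mul (hEle _ hN hEu) (hEle _ hN' hEu') hEu'.le (Real.exp_pos _).le
  -- the number of small classes
  obtain ⟨Ns, hNs⟩ : ∃ Ns : ℝ, Ns = ((univ.filter (fun i => 20 * u i < 19 * S)).card : ℝ) :=
    ⟨_, rfl⟩
  have hNsle : L * Ns ≤ Λ := by
    have h2 := hsm S t lam G A ko hP Λ (cnt u) hN
    rw [← card_small u hu, ← hNs, ← hL] at h2
    linarith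
  have hNs0 : 0 ≤ Ns := by rw [hNs]; exact Nat.cast_nonneg _
  obtain ⟨W, hW⟩ : ∃ W : ℝ, W = (n : ℝ) ^ g * L ^ 2 + L * Ns := ⟨_, rfl⟩
  have hW2 : W ≤ 2 * Λ := by rw [hW]; linarith
  -- the threshold
  obtain ⟨X, hX⟩ : ∃ X : ℕ, X = ⌈Λ * L ^ 4⌉₊ := ⟨_, rfl⟩
  have hXge : Λ * L ^ 4 ≤ X := by rw [hX]; exact Nat.le_ceil _
  obtain ⟨e, he⟩ : ∃ e : ℝ, e = Λ * L ^ 5 := ⟨_, rfl⟩
  have he0 : 0 ≤ e := by rw [he]; positivity
  have hTe : e ≤ (n : ℝ) - T.card := by rw [he]; exact hT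
  have hT0 : (0 : ℝ) ≤ T.card := Nat.cast_nonneg _
  have hen : e ≤ n := by linarith
  obtain ⟨st, hst⟩ : ∃ st : ℕ, st = ⌊(n : ℝ) - e / 2⌋₊ := ⟨_, rfl⟩
  have hst1 : (st : ℝ) ≤ n - e / 2 := by
    rw [hst]
    exact Nat.floor_le (by linarith)
  have hst2 : (n : ℝ) - e / 2 < st + 1 := by
    rw [hst]
    exact Nat.lt_floor_add_one _
  obtain ⟨Z, hZ⟩ : ∃ Z : ℝ, Z = L / 100 * (((st - T.card) / S : ℕ) : ℝ) := ⟨_, rfl⟩
  have hZge : L / 100 * (Λ * L ^ 3) ≤ Z := by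
    rw [hZ]
    refine mul_le_mul_of_nonneg_left ?_ (by positivity)
    apply div_bound hSpos
    have h2 : (st : ℝ) - T.card ≤ ((st - T.card : ℕ) : ℝ) := by
      rw [sub_le_iff_le_add]
      exact_mod_cast (by omega : st ≤ (st - T.card) + T.card)
    have h3 : (S : ℝ) * (Λ * L ^ 3 + 1) ≤ c * L * (2 * (Λ * L ^ 3)) := by
      have h4 : 1 ≤ Λ * L ^ 3 := by
        have := one_le_pow₀ hL1 (n := 3)
        nlinarith
      exact mul_le_mul hScL (by linarith) (by linarith) (by positivity)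
    have h5 : c * L * (2 * (Λ * L ^ 3)) = 2 * c * (Λ * L ^ 4) := by ring
    have h6 : 1 ≤ Λ * L ^ 4 := by
      have := one_le_pow₀ hL1 (n := 4)
      nlinarith
    have h7 : (4 * c + 2) * (Λ * L ^ 4) ≤ L * (Λ * L ^ 4) :=
      mul_le_mul_of_nonneg_right hf4 (by linarith)
    have h8 : L * (Λ * L ^ 4) = e := by rw [he]; ring
    rw [h5] at h3
    rw [h8] at h7
    linarith
  -- powers of L
  have hLL4 : Λ ≤ Λ * L ^ 4 := le_mul_of_one_le_right hΛ0 (one_le_pow₀ hL1)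
  -- the kernel
  obtain ⟨b, hb⟩ : ∃ b : ℝ, b = 1 / (1 - p) := ⟨_, rfl⟩
  have hbpos : 0 < b := by rw [hb]; exact div_pos one_pos (by linarith)
  -- event (a)
  have hA : Ex p (fun x : Cf n => Ex p (fun y : Cf n => Ex p (fun z : Cf n =>
      ind (∃ P Q, Pack S lam (glue T.sym2 x y) P ∧ Pack S lam (glue T.sym2 x z) Q ∧
        (∀ v ≤ S, prof P v = cnt u v) ∧ (∀ v ≤ S, prof Q v = cnt u' v) ∧
          1 ≤ ind (X ≤ MgP (rz S) T P Q))))) ≤ 1 / 2 * Real.exp (-Λ) := by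
    obtain ⟨b1, hb1⟩ : ∃ b1 : ℝ, b1 = -(c1 * e - a) / 2 := ⟨_, rfl⟩
    have h2 := pair_exists (n := n) h0.le h1 hn1 (S := S) (lam := lam) T u hu1 hu u' hu1' hu'
      (fun P Q => ind (X ≤ MgP (rz S) T P Q)) (fun P Q => ind_nonneg _)
      (Real.exp W * Real.exp (a / 2) * (Real.exp b1 + Real.exp (a / 2) * Real.exp (-Z))) ?_
    · refine h2.trans ?_
      have h3 : EZ p n S (cnt u) * EZ p n S (cnt u') *
          (Real.exp W * Real.exp (a / 2) * (Real.exp b1 + Real.exp (a / 2) * Real.exp (-Z))) ≤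
          Real.exp (C2 * Λ) * Real.exp (C2 * Λ) *
          (Real.exp W * Real.exp (a / 2) * (Real.exp b1 + Real.exp (a / 2) * Real.exp (-Z))) :=
        mul_le_mul_of_nonneg_right hEE (by positivity)
      refine h3.trans ?_
      have h4 : Real.exp (C2 * Λ) * Real.exp (C2 * Λ) *
          (Real.exp W * Real.exp (a / 2) * (Real.exp b1 + Real.exp (a / 2) * Real.exp (-Z))) =
          Real.exp (C2 * Λ + C2 * Λ + W + a / 2 + b1) +
          Real.exp (C2 * Λ + C2 * Λ + W + a / 2 + a / 2 + -Z) := by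
        simp only [Real.exp_add]
        ring
      rw [h4]
      apply exp_comb _ _ hΛ11
      · have h5 : Λ * (2 * C2 + 5 + C1 * L) ≤ Λ * (c1 * L ^ 5 / 2) :=
          mul_le_mul_of_nonneg_left hf2 hΛ0
        rw [hb1, ha, he]
        nlinarith
      · have h5 : Λ * (2 * C2 + 5 + C1 * L) ≤ Λ * (L ^ 4 / 100) :=
          mul_le_mul_of_nonneg_left hf3 hΛ0
        have h6 : L / 100 * (Λ * L ^ 3) = Λ * (L ^ 4 / 100) := by ring
        rw [ha]
        nlinarith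
    · intro I hI
      have h3 := hcf ι ι' u u' hu1 (by rw [← hSdef]; exact hu) hsu hu1'
        (by rw [← hSdef]; exact hu') hsu' I hI T X st (Real.exp b1) (Real.exp (a / 2))
        (Real.exp (a / 2)) (Real.exp_pos _).le (Real.exp_pos _).le (Real.exp_pos _).le
      rw [← hSdef, ← hL] at h3
      have h4 := h3 (fun σ hσ => hbin _ hN' σ hσ) ?_ (fun σ hσ => hbin _ hN σ hσ)
      · rw [← hNs, ← hW, ← hZ] at h4
        refine le_trans (Finset.sum_le_sum fun J hJ => ?_) h4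
        rw [MgP_eq (rz S) T u hu1 I hI J, prod_fw, ← hb]
        rw [mul_comm]
        refine mul_le_mul_of_nonneg_right ?_ (ind_nonneg _)
        have h5 : (1 : ℝ) ≤ 3 ^ Nu (rz S) (fun i => I i ∩ T) J := one_le_pow₀ (by norm_num)
        exact le_mul_of_one_le_left (by positivity) h5
      · intro σ hσ hXσ hstσ
        have h5 : sz S σ ≤ n := hszle _ hN.le σ hσ
        have h6 := (hposn S t lam G A ko hP Λ (by rw [← hL]; exact hΛL) hΛ2 (cnt u) hN σ hσ).2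
          e he0 hen
        have h7 : (X : ℝ) ≤ num S σ := by exact_mod_cast hXσ
        have h8 : (n : ℝ) ^ g ≤ num S σ := by linarith
        have h9 : (sz S σ : ℝ) ≤ n - e / 2 := by
          have : (sz S σ : ℝ) ≤ st := by exact_mod_cast hstσ
          linarith
        have h10 := h6 h8 h9
        rw [← hL, ← ha] at h10
        have h11 : e ≤ min ((num S σ : ℝ) * L) e := by
          refine le_min ?_ le_rfl
          have h12 : Λ * L ^ 4 * L ≤ (num S σ : ℝ) * L :=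
            mul_le_mul_of_nonneg_right (by linarith) hL0.le
          have h13 : Λ * L ^ 4 * L = e := by rw [he]; ring
          linarith
        have h12 : c1 * e ≤ c1 * min ((num S σ : ℝ) * L) e :=
          mul_le_mul_of_nonneg_left h11 hc1.le
        rw [hb1]
        exact bin_exp (EZ_pos h1 hn1 h5) (by linarith)
  -- event (b)
  have hBv : Ex p (fun x : Cf n => Ex p (fun y : Cf n => Ex p (fun z : Cf n =>
      ind (∃ P Q, Pack S lam (glue T.sym2 x y) P ∧ Pack S lam (glue T.sym2 x z) Q ∧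
        (∀ v ≤ S, prof P v = cnt u v) ∧ (∀ v ≤ S, prof Q v = cnt u' v) ∧
          1 ≤ (3 : ℝ) ^ (NuP (rz S) T P Q) / 3 ^ X)))) ≤ 1 / 2 * Real.exp (-Λ) := by
    obtain ⟨Z', hZ'⟩ : ∃ Z' : ℝ, Z' = L / 100 * (((n - T.card) / S : ℕ) : ℝ) := ⟨_, rfl⟩
    have hZ'0 : 0 ≤ Z' := by rw [hZ']; positivity
    have h2 := pair_exists (n := n) h0.le h1 hn1 (S := S) (lam := lam) T u hu1 hu u' hu1' hu'
      (fun P Q => (3 : ℝ) ^ (NuP (rz S) T P Q) / 3 ^ X) (fun P Q => by positivity)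
      (1 / 3 ^ X * (Real.exp W * Real.exp (a / 2) *
        (Real.exp (a / 2) + Real.exp (a / 2) * Real.exp (-Z')))) ?_
    · refine h2.trans ?_
      have h3X : (1 : ℝ) / 3 ^ X ≤ Real.exp (-(Λ * L ^ 4)) := by
        have h5 : Real.exp (Λ * L ^ 4) ≤ 3 ^ X := by
          have h6 : Real.exp 1 ≤ 3 := by
            have := Real.exp_one_lt_d9
            linarith
          calc Real.exp (Λ * L ^ 4) ≤ Real.exp X := Real.exp_le_exp.2 hXge
            _ = Real.exp 1 ^ X := by rw [← Real.exp_nat_mul, mul_one]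
            _ ≤ 3 ^ X := pow_le_pow_left₀ (Real.exp_pos _).le h6 X
        rw [Real.exp_neg, one_div]
        exact inv_anti₀ (Real.exp_pos _) h5
      have h3 : EZ p n S (cnt u) * EZ p n S (cnt u') *
          (1 / 3 ^ X * (Real.exp W * Real.exp (a / 2) *
            (Real.exp (a / 2) + Real.exp (a / 2) * Real.exp (-Z')))) ≤
          Real.exp (C2 * Λ) * Real.exp (C2 * Λ) *
          (Real.exp (-(Λ * L ^ 4)) * (Real.exp W * Real.exp (a / 2) *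
            (Real.exp (a / 2) + Real.exp (a / 2) * Real.exp (-Z')))) := by
        refine mul_le_mul hEE ?_ (by positivity) (by positivity)
        exact mul_le_mul_of_nonneg_right h3X (by positivity)
      refine h3.trans ?_
      have h4 : Real.exp (C2 * Λ) * Real.exp (C2 * Λ) *
          (Real.exp (-(Λ * L ^ 4)) * (Real.exp W * Real.exp (a / 2) *
            (Real.exp (a / 2) + Real.exp (a / 2) * Real.exp (-Z')))) =
          Real.exp (C2 * Λ + C2 * Λ + -(Λ * L ^ 4) + W + a / 2 + a / 2) +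
          Real.exp (C2 * Λ + C2 * Λ + -(Λ * L ^ 4) + W + a / 2 + a / 2 + -Z') := by
        simp only [Real.exp_add]
        ring
      rw [h4]
      have h5 : Λ * (2 * C2 + 5 + C1 * L) ≤ Λ * (L ^ 4 / 100) :=
        mul_le_mul_of_nonneg_left hf3 hΛ0
      have h6 : 0 ≤ Λ * L ^ 4 := by positivity
      have h7 : C2 * Λ + C2 * Λ + -(Λ * L ^ 4) + W + a / 2 + a / 2 ≤ -(3 * Λ) := by
        rw [ha]
        nlinarith
      exact exp_comb h7 (by linarith) hΛ11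
    · intro I hI
      have h3 := hcf ι ι' u u' hu1 (by rw [← hSdef]; exact hu) hsu hu1'
        (by rw [← hSdef]; exact hu') hsu' I hI T 0 n (Real.exp (a / 2)) (Real.exp (a / 2))
        (Real.exp (a / 2)) (Real.exp_pos _).le (Real.exp_pos _).le (Real.exp_pos _).le
      rw [← hSdef, ← hL] at h3
      have h4 := h3 (fun σ hσ => hbin _ hN' σ hσ) (fun σ hσ _ _ => hbin _ hN σ hσ)
        (fun σ hσ => hbin _ hN σ hσ)
      rw [← hNs, ← hW, ← hZ'] at h4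
      have h5 := mul_le_mul_of_nonneg_left h4 (show (0 : ℝ) ≤ 1 / 3 ^ X by positivity)
      rw [Finset.mul_sum] at h5
      refine le_trans (Finset.sum_le_sum fun J hJ => ?_) (h5.trans (le_of_eq ?_))
      · rw [NuP_eq (rz S) T u hu1 I hI u' hu1' J hJ, prod_fw, ← hb,
          ind_true (Nat.zero_le _), mul_one]
        apply le_of_eq
        ring
      · ring
  -- the union
  have hfin := ex3_or (n := n) h0.le h1.le
    (fun x y z => ∃ P Q, Pack S lam (glue T.sym2 x y) P ∧ Pack S lam (glue T.sym2 x z) Q ∧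
          (∀ v ≤ S, prof P v = κ v) ∧ (∀ v ≤ S, prof Q v = κ' v) ∧
          (Λ * L ^ 4 ≤ (MgP (rz S) T P Q : ℝ) ∨ Λ * L ^ 4 ≤ (NuP (rz S) T P Q : ℝ)))
    (fun x y z => ∃ P Q, Pack S lam (glue T.sym2 x y) P ∧ Pack S lam (glue T.sym2 x z) Q ∧
        (∀ v ≤ S, prof P v = cnt u v) ∧ (∀ v ≤ S, prof Q v = cnt u' v) ∧
          1 ≤ ind (X ≤ MgP (rz S) T P Q))
    (fun x y z => ∃ P Q, Pack S lam (glue T.sym2 x y) P ∧ Pack S lam (glue T.sym2 x z) Q ∧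
        (∀ v ≤ S, prof P v = cnt u v) ∧ (∀ v ≤ S, prof Q v = cnt u' v) ∧
          1 ≤ (3 : ℝ) ^ (NuP (rz S) T P Q) / 3 ^ X) ?_
  · exact hfin.trans (by linarith)
  · rintro x y z ⟨P, Q, hPk, hQk, hpP, hpQ, hor⟩
    rcases hor with h2 | h2
    · left
      refine ⟨P, Q, hPk, hQk, fun v hv => (hpP v hv).trans (huκ v hv).symm,
        fun v hv => (hpQ v hv).trans (huκ' v hv).symm, ?_⟩
      rw [ind_true (by rw [hX]; exact Nat.ceil_le.2 h2)]
    · right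
      refine ⟨P, Q, hPk, hQk, fun v hv => (hpP v hv).trans (huκ v hv).symm,
        fun v hv => (hpQ v hv).trans (huκ' v hv).symm, ?_⟩
      have h3 : X ≤ NuP (rz S) T P Q := by rw [hX]; exact Nat.ceil_le.2 h2
      rw [le_div_iff₀ (by positivity), one_mul]
      exact pow_le_pow_right₀ (by norm_num) h3

end Pool.Agent.CHP
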