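import Pool.Agent.CHP.Str
import Pool.Agent.CHP.EZb
import Pool.Agent.CHP.DmC

/-!
# CHP / RgA: positivity, subprofiles covering few vertices

Notation: `ℒ = log n`, `B = -log (1-p)`, `s = sz S σ ≤ (B/100) n`, `M = num S σ` (natural), `κ_> = ∑ v ∈ Ioc t S, κ v`.
PROOF.  `κ v = 0` for `v ≤ lam`, so `M ≤ num S κ ≤ sz S κ ≤ n`, `s ≤ S M`.  If `M = 0`: `σ v = 0` for all `v ≤ S`, `EZ = 1`, `bin = 1`, `Hf = 0`, and
`Λ ≥ 0`.  Let `M ≥ 1`.  `logEZ_ge`: `log EZ σ ≥ ∑_{v≤S} σ v (log (N_v/σ v) + 1) - s + (n-s) log (n/(n-s)) - (S+2)(log (n+1)+1)`, last term `≤ Λ` for large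
`n` (`S ≤ (2/B) ℒ`, `Λ ≥ n^g ℒ`).
* `log (n/(n-s)) = - log (1 - s/n) ≥ s/n`, so `-s + (n-s) log (n/(n-s)) ≥ - s^2/n ≥ - (B/100) s ≥ - (B/100) S M ≥ - M ℒ/50` (`SL`).
* `∑_v σ v log N_v ≥ M log N_t - ∑_{v>t} σ v (log N_t - log N_v)` (`Ns` for `lam < v ≤ t`; `σ v = 0` for `v ≤ lam`) and
  `log N_t = log (ko t) + A - G t ≤ ℒ + C0 ℒ` (`gib.eq`, `At`, `ko t ≤ ∑ u ko u = n`, as `t ≥ 1`), `log N_v ≥ - C0 ℒ` (`Nb0`), so it is
  `≥ M log N_t - (1 + 2 C0) ℒ κ_> ≥ M log N_t - (1 + 2 |C0|) Λ`.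
* `∑ σ v log σ v ≤ M log M` (`σ v ≤ M`).
So `log EZ σ ≥ M (log (N_t/M) + 1) - M ℒ/50 - C' Λ`.
* `bin S κ σ ≤ C(num S κ, M) ≤ (exp 1 * n/M)^M` (`bin_le`), `2 log bin ≤ 2 M (1 + ℒ - log M)`.
So `Hf ≥ M (log N_t + log M - 2 ℒ - ℒ/50 - 1) - C' Λ`.
If `n^g ≤ M`: `log N_t + log M ≥ log (N_t n^g) ≥ 2.08 ℒ` (`Nt`), so `Hf ≥ M (0.06 ℒ - 1) - C' Λ ≥ M ℒ/20 - C' Λ` for large `n`; this also gives the
first claim.  If `M < n^g`: `N_t ≥ n^(2.08 - g) ≥ 1`, so `Hf ≥ - M (3 ℒ) - C' Λ ≥ - 3 n^g ℒ - C' Λ ≥ - (3 + C') Λ`.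
-/

set_option autoImplicit false

namespace Pool.Agent.CHP

open Finset Filter

private theorem rg_ev {B g : ℝ} (hB : 0 < B) (hg : 0 < g) :
    ∀ᶠ n : ℕ in atTop, (2 : ℕ) ≤ n ∧ 100 ≤ Real.log n ∧
      (2 / B * Real.log n + 2) * (Real.log ((n : ℝ) + 1) + 1) ≤ (n : ℝ) ^ g * Real.log n := by
  have hlog : Tendsto (fun n : ℕ => Real.log (n : ℝ)) atTop atTop :=
    Real.tendsto_log_atTop.comp tendsto_natCast_atTop_atTop
  have h1 := hlog.eventually_ge_atTop 100
  have h2 : ∀ᶠ x : ℝ in atTop, Real.log x ≤ (1 / (3 * (2 / B + 2))) * x ^ g := by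
    have h3 := (isLittleO_log_rpow_atTop hg).bound
      (show (0 : ℝ) < 1 / (3 * (2 / B + 2)) by positivity)
    filter_upwards [h3, eventually_ge_atTop (1 : ℝ)] with x hx hx1
    rw [Real.norm_of_nonneg (Real.log_nonneg hx1),
      Real.norm_of_nonneg (Real.rpow_nonneg (by linarith) _)] at hx
    exact hx
  have h3 := tendsto_natCast_atTop_atTop.eventually h2
  filter_upwards [h1, h3, eventually_ge_atTop 2] with n h4 h5 h6
  refine ⟨h6, h4, ?_⟩
  have hn : (2 : ℝ) ≤ n := by exact_mod_cast h6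
  have h7 : Real.log ((n : ℝ) + 1) ≤ Real.log n + 1 := by
    have h8 : Real.log ((n : ℝ) + 1) ≤ Real.log ((n : ℝ) * 2) :=
      Real.log_le_log (by linarith) (by linarith)
    rw [Real.log_mul (by linarith) (by norm_num)] at h8
    have h9 := Real.log_two_lt_d9
    linarith
  have h8 : 3 * (2 / B + 2) * Real.log n ≤ (n : ℝ) ^ g := by
    have h9 : (0 : ℝ) < 3 * (2 / B + 2) := by positivity
    have h10 := mul_le_mul_of_nonneg_left h5 h9.le
    rw [← mul_assoc, mul_one_div, div_self h9.ne', one_mul] at h10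
    exact h10
  have hB2 : 0 < 2 / B := by positivity
  have h9 : 2 / B * Real.log n + 2 ≤ (2 / B + 2) * Real.log n := by nlinarith
  have h10 : Real.log ((n : ℝ) + 1) + 1 ≤ 3 * Real.log n := by linarith
  have h11 : 0 ≤ Real.log ((n : ℝ) + 1) + 1 := by
    have := Real.log_nonneg (by linarith : (1 : ℝ) ≤ (n : ℝ) + 1)
    linarith
  calc (2 / B * Real.log n + 2) * (Real.log ((n : ℝ) + 1) + 1)
      ≤ ((2 / B + 2) * Real.log n) * (3 * Real.log n) :=
        mul_le_mul h9 h10 h11 (by positivity)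
    _ = (3 * (2 / B + 2) * Real.log n) * Real.log n := by ring
    _ ≤ (n : ℝ) ^ g * Real.log n := mul_le_mul_of_nonneg_right h8 (by linarith)

private theorem rg_choose (K M : ℕ) (n : ℕ) (hK : K ≤ n) (hMK : M ≤ K) :
    Real.log (K.choose M : ℝ) ≤ (M : ℝ) * (Real.log n - Real.log M + 1) := by
  by_cases hM : M = 0
  · subst hM
    simp
  · have hM0 : 0 < M := Nat.pos_of_ne_zero hM
    have hK0 : 0 < K := by omega
    have hM' : (0 : ℝ) < M := by exact_mod_cast hM0
    have hK' : (0 : ℝ) < K := by exact_mod_cast hK0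
    have h1 : (K.choose M : ℝ) ≤ (K : ℝ) ^ M / (M.factorial : ℝ) := Nat.choose_le_pow_div M K
    have h2 : (0 : ℝ) < (K.choose M : ℝ) := by exact_mod_cast Nat.choose_pos hMK
    have h3 : (0 : ℝ) < (M.factorial : ℝ) := by exact_mod_cast Nat.factorial_pos M
    have h4 := Real.log_le_log h2 h1
    rw [Real.log_div (by positivity) h3.ne', Real.log_pow] at h4
    have h5 := log_fact_ge M
    have h6 : Real.log K ≤ Real.log n := Real.log_le_log hK' (by exact_mod_cast hK)
    have h7 : (M : ℝ) * Real.log K ≤ M * Real.log n := mul_le_mul_of_nonneg_left h6 hM'.le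
    linarith

private theorem rg_mid {n : ℕ} {s : ℕ} (hn : 0 < n) (hs : s ≤ n) :
    -((s : ℝ) ^ 2 / n) ≤ -(s : ℝ) + ((n : ℝ) - s) * Real.log (n / ((n : ℝ) - s)) := by
  have hn' : (0 : ℝ) < n := by exact_mod_cast hn
  rcases Nat.lt_or_ge s n with h | h
  · have h1 : (0 : ℝ) < (n : ℝ) - s := by
      have : (s : ℝ) < n := by exact_mod_cast h
      linarith
    have h2 : (s : ℝ) / n ≤ Real.log (n / ((n : ℝ) - s)) := by
      have h3 := Real.log_le_sub_one_of_pos (div_pos h1 hn')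
      have h4 : Real.log (n / ((n : ℝ) - s)) = -Real.log (((n : ℝ) - s) / n) := by
        rw [← Real.log_inv, inv_div]
      have h5 : ((n : ℝ) - s) / n - 1 = -(s / n) := by
        field_simp
        ring
      rw [h5] at h3
      rw [h4]
      linarith
    have h3 : ((n : ℝ) - s) * (s / n) ≤ ((n : ℝ) - s) * Real.log (n / ((n : ℝ) - s)) :=
      mul_le_mul_of_nonneg_left h2 h1.le
    have h4 : ((n : ℝ) - s) * (s / n) = s - (s : ℝ) ^ 2 / n := by
      field_simp
    linarith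
  · have h1 : s = n := le_antisymm hs h
    subst h1
    rw [sub_self, zero_mul, add_zero]
    have : (s : ℝ) ^ 2 / s = s := by
      field_simp
    rw [this]

theorem reg1 {p g : ℝ} (h0 : 0 < p) (h1 : p < 1) (hg : 0 < g) (hg1 : g ≤ 1) (C0 cT : ℝ) :
    ∃ C : ℝ, 0 < C ∧ ∀ᶠ n : ℕ in atTop, ∀ (S t lam : ℕ) (G A : ℝ) (ko : ℕ → ℝ),
      Par p g C0 cT n S t lam G A ko → ∀ Λ : ℝ, (n : ℝ) ^ g * Real.log n ≤ Λ →
      ∀ κ : ℕ → ℕ, Near n S t lam A ko Λ κ → ∀ σ : ℕ → ℕ, (∀ v ≤ S, σ v ≤ κ v) →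
        (sz S σ : ℝ) ≤ -Real.log (1 - p) / 100 * n →
        -(C * Λ) ≤ Hf p n S κ σ ∧
          ((n : ℝ) ^ g ≤ num S σ →
            1 / 20 * (num S σ : ℝ) * Real.log n - C * Λ ≤ Hf p n S κ σ) := by
  have hB : 0 < -Real.log (1 - p) := by
    have := Real.log_neg (by linarith : 0 < 1 - p) (by linarith)
    linarith
  refine ⟨4 + 2 * |C0|, by positivity, ?_⟩
  filter_upwards [rg_ev hB hg] with n hn
  obtain ⟨hn2, hL100, hev⟩ := hn
  intro S t lam G A ko hP Λ hΛ κ hN σ hσ hsz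
  set L := Real.log (n : ℝ) with hL
  set B := -Real.log (1 - p) with hBdef
  have hn0 : 0 < n := by omega
  have hn' : (0 : ℝ) < n := by exact_mod_cast hn0
  have hn1 : (1 : ℝ) ≤ n := by exact_mod_cast (by omega : 1 ≤ n)
  have hL0 : 0 < L := by linarith
  have hng : 0 < (n : ℝ) ^ g := Real.rpow_pos_of_pos hn' g
  have hΛ0 : 0 ≤ Λ := le_trans (by positivity) hΛ
  -- sizes
  have hszle : sz S σ ≤ n := by
    refine le_trans ?_ hN.le
    unfold sz
    refine Finset.sum_le_sum fun v hv => Nat.mul_le_mul_left v (hσ v ?_)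
    exact Nat.lt_succ_iff.1 (Finset.mem_range.1 hv)
  have hσz : ∀ v, v ≤ S → v ≤ lam → σ v = 0 := by
    intro v hv hvl
    have h2 := hσ v hv
    rw [hN.zero v hvl] at h2
    omega
  have hnumκ : num S κ ≤ n := by
    refine le_trans ?_ hN.le
    unfold sz num
    refine Finset.sum_le_sum fun v hv => ?_
    rcases Nat.eq_zero_or_pos v with h | h
    · rw [h, hN.zero 0 (Nat.zero_le _)]
    · exact Nat.le_mul_of_pos_left _ h
  have hnumle : num S σ ≤ num S κ := by
    unfold num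
    exact Finset.sum_le_sum fun v hv => hσ v (Nat.lt_succ_iff.1 (Finset.mem_range.1 hv))
  have hszM : sz S σ ≤ S * num S σ := by
    unfold sz num
    rw [Finset.mul_sum]
    exact Finset.sum_le_sum fun v hv =>
      Nat.mul_le_mul_right _ (Nat.lt_succ_iff.1 (Finset.mem_range.1 hv))
  set M : ℝ := (num S σ : ℝ) with hM
  have hM0 : 0 ≤ M := Nat.cast_nonneg _
  have hlogM : 0 ≤ Real.log M := Real.log_natCast_nonneg _
  have hσn : ∀ v ≤ S, σ v ≤ n := by
    intro v hv
    have h2 : σ v ≤ num S σ := by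
      unfold num
      exact Finset.single_le_sum (f := fun v => σ v) (fun _ _ => Nat.zero_le _)
        (Finset.mem_range.2 (Nat.lt_succ_of_le hv))
    omega
  have hσM : ∀ v ≤ S, (σ v : ℝ) ≤ M := by
    intro v hv
    have h2 : σ v ≤ num S σ := by
      unfold num
      exact Finset.single_le_sum (f := fun v => σ v) (fun _ _ => Nat.zero_le _)
        (Finset.mem_range.2 (Nat.lt_succ_of_le hv))
    rw [hM]
    exact_mod_cast h2
  -- parameters
  have ht2 : 2 ≤ t := by
    have h2 := hP.lam0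
    have h3 := hP.lamt
    omega
  have hSB : (S : ℝ) ≤ 2 / B * L := by
    have h2 := hP.SL
    rw [div_mul_eq_mul_div, le_div_iff₀ hB]
    linarith
  have hkot : ko t ≤ n := by
    have h2 := hP.gib.sum
    have h3 : (t : ℝ) * ko t ≤ ∑ u ∈ range (t + 1), ((u : ℕ) : ℝ) * ko u := by
      refine Finset.single_le_sum (f := fun u : ℕ => ((u : ℕ) : ℝ) * ko u) (fun u hu => ?_)
        (Finset.mem_range.2 (Nat.lt_succ_self t))
      have := hP.pos u (Nat.lt_succ_iff.1 (Finset.mem_range.1 hu))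
      positivity
    have h4 : (1 : ℝ) ≤ t := by exact_mod_cast (by omega : 1 ≤ t)
    have h5 := hP.pos t le_rfl
    have h6 : 1 * ko t ≤ (t : ℝ) * ko t := mul_le_mul_of_nonneg_right h4 h5.le
    linarith
  have hNt0 : 0 < NN p n t := NN_pos h1 hn0 t
  have hlogNt : Real.log (NN p n t) ≤ (1 + C0) * L := by
    have h2 := hP.gib.eq t le_rfl
    have h3 : Real.log (ko t) = Real.log (NN p n t) + (G * t - A) := by
      rw [h2, Real.log_mul hNt0.ne' (Real.exp_pos _).ne', Real.log_exp]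
    have h4 : Real.log (ko t) ≤ L := Real.log_le_log (hP.pos t le_rfl) hkot
    have h5 := hP.At t le_rfl hP.lt.le
    have h6 := le_abs_self (A - G * t)
    linarith
  -- the large classes
  set KG : ℝ := ((∑ v ∈ Ioc t S, κ v : ℕ) : ℝ) with hKG
  have hKG0 : 0 ≤ KG := Nat.cast_nonneg _
  have hKGL : L * KG ≤ Λ := by
    have h2 := hN.big
    have h3 : L * KG ≤ KG * L ^ 3 := by
      have h5 : (1 : ℝ) ≤ L := by linarith
      have h4 : L ^ 1 ≤ L ^ 3 := pow_le_pow_right₀ h5 (by norm_num)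
      rw [pow_one] at h4
      have h6 := mul_le_mul_of_nonneg_left h4 hKG0
      linarith
    linarith
  have hsum1 : M * Real.log (NN p n t) - (1 + 2 * |C0|) * Λ ≤
      ∑ v ∈ range (S + 1), (σ v : ℝ) * Real.log (NN p n v) := by
    have hpt : ∀ v ∈ range (S + 1), (σ v : ℝ) * Real.log (NN p n t) -
        (if v ∈ Ioc t S then (σ v : ℝ) * ((1 + 2 * |C0|) * L) else 0) ≤
          (σ v : ℝ) * Real.log (NN p n v) := by
      intro v hv
      have hvS := Nat.lt_succ_iff.1 (Finset.mem_range.1 hv)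
      have hs0 : (0 : ℝ) ≤ σ v := Nat.cast_nonneg _
      by_cases hvt : v ∈ Ioc t S
      · rw [if_pos hvt]
        have h2 := hP.Nb0 v (Finset.mem_Ioc.1 hvt).1 hvS
        have h3 : -C0 * L ≤ Real.log (NN p n v) := by
          have h4 := Real.log_le_log (Real.rpow_pos_of_pos hn' _) h2
          rw [Real.log_rpow hn'] at h4
          exact h4
        have h4 : Real.log (NN p n t) - (1 + 2 * |C0|) * L ≤ Real.log (NN p n v) := by
          have h5 := mul_le_mul_of_nonneg_right (le_abs_self C0) hL0.le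
          linarith
        have h5 := mul_le_mul_of_nonneg_left h4 hs0
        linarith
      · rw [if_neg hvt, sub_zero]
        by_cases hvl : v ≤ lam
        · rw [hσz v hvS hvl]
          simp
        · have hvt' : v ≤ t := by
            by_contra h
            exact hvt (Finset.mem_Ioc.2 ⟨by omega, hvS⟩)
          refine mul_le_mul_of_nonneg_left ?_ hs0
          exact Real.log_le_log hNt0 (hP.Ns v (by omega) hvt')
    refine le_trans ?_ (Finset.sum_le_sum hpt)
    rw [Finset.sum_sub_distrib, ← Finset.sum_mul, ← Finset.sum_filter]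
    have h2 : ∑ v ∈ range (S + 1), (σ v : ℝ) = M := by
      rw [hM]
      unfold num
      push_cast
      rfl
    rw [h2, ← Finset.sum_mul]
    have h3 : ∑ v ∈ range (S + 1) with v ∈ Ioc t S, (σ v : ℝ) ≤ KG := by
      rw [hKG]
      push_cast
      refine le_trans (Finset.sum_le_sum_of_subset_of_nonneg (t := Ioc t S) ?_ ?_)
        (Finset.sum_le_sum fun v hv => ?_)
      · intro v hv
        exact (Finset.mem_filter.1 hv).2
      · intro v _ _
        exact Nat.cast_nonneg _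
      · exact_mod_cast hσ v (Finset.mem_Ioc.1 hv).2
    have h4 : (0 : ℝ) ≤ (1 + 2 * |C0|) * L := by positivity
    have h5 := mul_le_mul_of_nonneg_right h3 h4
    have h6 : KG * ((1 + 2 * |C0|) * L) ≤ (1 + 2 * |C0|) * Λ := by
      have h7 : 0 ≤ 1 + 2 * |C0| := by positivity
      have h8 := mul_le_mul_of_nonneg_left hKGL h7
      linarith
    linarith
  have hsum2 : ∑ v ∈ range (S + 1), (σ v : ℝ) * (Real.log (NN p n v / σ v) + 1) ≥
      M * Real.log (NN p n t) - (1 + 2 * |C0|) * Λ - M * Real.log M + M := by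
    have hpt : ∀ v ∈ range (S + 1), (σ v : ℝ) * Real.log (NN p n v) - (σ v : ℝ) * Real.log M +
        (σ v : ℝ) ≤ (σ v : ℝ) * (Real.log (NN p n v / σ v) + 1) := by
      intro v hv
      have hvS := Nat.lt_succ_iff.1 (Finset.mem_range.1 hv)
      by_cases hz : σ v = 0
      · rw [hz]
        simp
      · have hs0 : (0 : ℝ) < σ v := by exact_mod_cast Nat.pos_of_ne_zero hz
        rw [Real.log_div (NN_pos h1 hn0 v).ne' hs0.ne']
        have h2 : Real.log (σ v : ℝ) ≤ Real.log M := Real.log_le_log hs0 (hσM v hvS)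
        have h3 := mul_le_mul_of_nonneg_left h2 hs0.le
        linarith
    refine le_trans ?_ (Finset.sum_le_sum hpt)
    rw [Finset.sum_add_distrib, Finset.sum_sub_distrib, ← Finset.sum_mul]
    have h2 : ∑ v ∈ range (S + 1), (σ v : ℝ) = M := by
      rw [hM]
      unfold num
      push_cast
      rfl
    rw [h2]
    linarith
  have hmid : -(M * L / 50) ≤ -(sz S σ : ℝ) +
      ((n : ℝ) - sz S σ) * Real.log (n / ((n : ℝ) - sz S σ)) := by
    refine le_trans ?_ (rg_mid hn0 hszle)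
    have h2 : (sz S σ : ℝ) ≤ S * M := by
      rw [hM]
      exact_mod_cast hszM
    have h3 : (sz S σ : ℝ) ^ 2 / n ≤ B / 100 * (sz S σ : ℝ) := by
      rw [div_le_iff₀ hn']
      have h4 : (0 : ℝ) ≤ sz S σ := Nat.cast_nonneg _
      have h5 := mul_le_mul_of_nonneg_left hsz h4
      rw [pow_two]
      linarith
    have h4 : B / 100 * (sz S σ : ℝ) ≤ B / 100 * (S * M) :=
      mul_le_mul_of_nonneg_left h2 (by positivity)
    have h5 : B / 100 * (S * M) ≤ M * L / 50 := by
      have h6 := hP.SL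
      have h7 := mul_le_mul_of_nonneg_right h6 hM0
      have h8 : B * (S : ℝ) * M ≤ 2 * L * M := h7
      linarith
    linarith
  have herr : ((S : ℝ) + 2) * (Real.log ((n : ℝ) + 1) + 1) ≤ Λ := by
    refine le_trans ?_ hΛ
    refine le_trans (mul_le_mul_of_nonneg_right ?_ ?_) hev
    · linarith
    · have := Real.log_nonneg (by linarith : (1 : ℝ) ≤ (n : ℝ) + 1)
      linarith
  have hEZ : M * Real.log (NN p n t) - (1 + 2 * |C0|) * Λ - M * Real.log M + M - M * L / 50 - Λ ≤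
      Real.log (EZ p n S σ) := by
    have h2 := logEZ_ge h1 (S := S) hn0 hszle hσn
    linarith
  have hbin : Real.log (bin S κ σ : ℝ) ≤ M * (L - Real.log M + 1) := by
    have h2 : 0 < bin S κ σ := by
      unfold bin
      exact Finset.prod_pos fun v hv =>
        Nat.choose_pos (hσ v (Nat.lt_succ_iff.1 (Finset.mem_range.1 hv)))
    have h3 : Real.log (bin S κ σ : ℝ) ≤ Real.log (((num S κ).choose (num S σ) : ℕ) : ℝ) :=
      Real.log_le_log (by exact_mod_cast h2) (by exact_mod_cast bin_le S κ σ)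
    exact le_trans h3 (rg_choose _ _ n hnumκ hnumle)
  have hmain : M * (Real.log (NN p n t) + Real.log M - 2 * L - L / 50 - 1) -
      (2 + 2 * |C0|) * Λ ≤ Hf p n S κ σ := by
    unfold Hf
    linarith
  have hNt := hP.Nt
  have hNtlog : 52 / 25 * L ≤ Real.log (NN p n t) + g * L := by
    have h2 := Real.log_le_log (Real.rpow_pos_of_pos hn' _) hNt
    rw [Real.log_rpow hn', Real.log_mul hNt0.ne' hng.ne', Real.log_rpow hn'] at h2
    exact h2
  have hcase : (n : ℝ) ^ g ≤ M →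
      1 / 20 * M * L - (2 + 2 * |C0|) * Λ ≤ Hf p n S κ σ := by
    intro hle
    refine le_trans ?_ hmain
    have h2 : g * L ≤ Real.log M := by
      have h3 := Real.log_le_log hng hle
      rw [Real.log_rpow hn'] at h3
      exact h3
    have h3 : L / 20 ≤ Real.log (NN p n t) + Real.log M - 2 * L - L / 50 - 1 := by linarith
    have h4 := mul_le_mul_of_nonneg_left h3 hM0
    linarith
  have hC0 : 0 ≤ |C0| := abs_nonneg C0
  refine ⟨?_, fun hle => ?_⟩
  · by_cases hle : (n : ℝ) ^ g ≤ M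
    · have h2 := hcase hle
      have h3 : 0 ≤ 1 / 20 * M * L := by positivity
      linarith
    · rw [not_le] at hle
      refine le_trans ?_ hmain
      have h2 : -(2 * L) ≤ Real.log (NN p n t) + Real.log M - 2 * L - L / 50 - 1 := by
        have h3 : g * L ≤ 1 * L := mul_le_mul_of_nonneg_right hg1 hL0.le
        linarith
      have h3 := mul_le_mul_of_nonneg_left h2 hM0
      have h4 : M * L ≤ (n : ℝ) ^ g * L := mul_le_mul_of_nonneg_right hle.le hL0.le
      linarith
  · have h2 := hcase hle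
    linarith

end Pool.Agent.CHP
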