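import Pool.Agent.CHP.OpA

/-!
# CHP / Seq: sums of product weights over ordered packings

PROOF.  By `OP_reindex` (`(Fintype.equivFin ι).symm`; `Equiv.prod_comp`; `F = 1` gives the equality of the cardinalities) we may assume
`ι = Fin k`.  Induction on `k`, for all `R, u`.  `k = 0`: `OP R u` has one element and both sides are `1 ≤ Q ^ m0`.
Step `k → k + 1`.
* Case `m0 ≤ R.card`.  By `OP_cons` (`Fin.prod_univ_succ`, `Fin.cons_zero`, `Fin.cons_succ`) the sum is
`∑ J0 ∈ R.powersetCard (u 0), w J0 * ∑ J ∈ OP (R \ J0) (fun i => u i.succ), ∏ i, w (J i)`, by the induction hypothesis at most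
`∑ J0, w J0 * (OP (R \ J0) _).card * (exp (k δ) Q ^ m0)`.  The cardinality of `OP (R \ J0) _` does not depend on `J0`: apply `OP_cons`
twice?  Simplest: prove first (private lemma, by induction with `OP_cons`, or from `OpB.card_OP`, which may be imported) that
`(OP R u).card = (OP R' u).card` if `R.card = R'.card`.  Call the common value `c0`.  Then the sum is at most
`c0 exp (k δ) Q^m0 ∑ J0 ∈ R.powersetCard (u 0), w J0 ≤ c0 exp (k δ) Q^m0 C(|R|, u 0) exp δ` (`h1`), and `C(|R|, u 0) c0 = (OP R u).card`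
(`OP_cons` with `F = 1`).
* Case `R.card < m0`.  For `J ∈ OP R u`, `∏ i, w (J i) ≤ ∏ i, Q ^ (J i).card = Q ^ (∑ i, (J i).card) ≤ Q ^ R.card ≤ Q ^ m0`
(`∑ i, (J i).card = (univ.biUnion J).card ≤ R.card`, `Finset.card_biUnion`), and `exp (k δ) ≥ 1`.
-/

set_option autoImplicit false

namespace Pool.Agent.CHP

open Finset Pool.Agent.CHV

variable {n : ℕ} {ι : Type} [Fintype ι] [DecidableEq ι]

omit [Fintype ι] [DecidableEq ι] in
private theorem card_cast {κ : Type} [Fintype κ] [DecidableEq κ] (R : Finset (Fin n)) (u : κ → ℕ) :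
    ((OP R u).card : ℝ) = ∑ _J ∈ OP R u, (1 : ℝ) := by
  rw [Finset.sum_const, nsmul_eq_mul, mul_one]

private theorem card_cons {k : ℕ} (R : Finset (Fin n)) (u : Fin (k + 1) → ℕ) :
    ((OP R u).card : ℝ) = ∑ J0 ∈ R.powersetCard (u 0),
      ((OP (R \ J0) (fun i : Fin k => u i.succ)).card : ℝ) := by
  rw [card_cast, OP_cons]
  exact Finset.sum_congr rfl (fun J0 _ => (card_cast _ _).symm)

private theorem card_dep {k : ℕ} : ∀ (u : Fin k → ℕ) (m : ℕ), ∃ c : ℝ, ∀ R : Finset (Fin n),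
    R.card = m → ((OP R u).card : ℝ) = c := by
  induction k with
  | zero =>
    intro u m
    refine ⟨((OP (∅ : Finset (Fin n)) u).card : ℝ), fun R _ => ?_⟩
    have h : OP R u = OP (∅ : Finset (Fin n)) u := by
      ext J
      rw [mem_OP, mem_OP]
      exact ⟨fun _ => ⟨fun i => i.elim0, fun i => i.elim0⟩, fun _ => ⟨fun i => i.elim0, fun i => i.elim0⟩⟩
    rw [h]
  | succ k ih =>
    intro u m
    obtain ⟨c, hc⟩ := ih (fun i : Fin k => u i.succ) (m - u 0)
    refine ⟨(m.choose (u 0) : ℝ) * c, fun R hR => ?_⟩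
    rw [card_cons]
    have h : ∀ J0 ∈ R.powersetCard (u 0), ((OP (R \ J0) (fun i : Fin k => u i.succ)).card : ℝ) = c := by
      intro J0 hJ
      rw [Finset.mem_powersetCard] at hJ
      apply hc
      rw [Finset.card_sdiff_of_subset hJ.1, hR, hJ.2]
    rw [Finset.sum_congr rfl h, Finset.sum_const, nsmul_eq_mul, Finset.card_powersetCard, hR]

omit [Fintype ι] [DecidableEq ι] in
private theorem small {κ : Type} [Fintype κ] [DecidableEq κ] (w : Finset (Fin n) → ℝ) (hw : ∀ J, 0 ≤ w J)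
    (m0 : ℕ) (Q : ℝ) (hQ : 1 ≤ Q) (h2 : ∀ J, w J ≤ Q ^ J.card) (R : Finset (Fin n)) (u : κ → ℕ)
    (hR : R.card ≤ m0) (J : κ → Finset (Fin n)) (hJ : J ∈ OP R u) : ∏ i, w (J i) ≤ Q ^ m0 := by
  rw [mem_OP] at hJ
  calc ∏ i, w (J i) ≤ ∏ i, Q ^ (J i).card := Finset.prod_le_prod (fun i _ => hw _) (fun i _ => h2 _)
    _ = Q ^ (∑ i, (J i).card) := Finset.prod_pow_eq_pow_sum _ _ _
    _ ≤ Q ^ m0 := by
      apply pow_le_pow_right₀ hQ
      rw [← Finset.card_biUnion (fun i _ j _ hij => hJ.2 i j hij)]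
      refine le_trans (Finset.card_le_card ?_) hR
      exact Finset.biUnion_subset.2 (fun i _ => (hJ.1 i).1)

private theorem fin_bound (w : Finset (Fin n) → ℝ) (hw : ∀ J, 0 ≤ w J) (m0 S : ℕ) (δ Q : ℝ)
    (hδ : 0 ≤ δ) (hQ : 1 ≤ Q)
    (h1 : ∀ R : Finset (Fin n), m0 ≤ R.card → ∀ l ≤ S,
      ∑ J ∈ R.powersetCard l, w J ≤ (R.card.choose l : ℝ) * Real.exp δ)
    (h2 : ∀ J, w J ≤ Q ^ J.card) (k : ℕ) : ∀ (R : Finset (Fin n)) (u : Fin k → ℕ), (∀ i, u i ≤ S) →
    ∑ J ∈ OP R u, ∏ i, w (J i) ≤ ((OP R u).card : ℝ) * (Real.exp (k * δ) * Q ^ m0) := by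
  have hQm : (1 : ℝ) ≤ Q ^ m0 := one_le_pow₀ hQ
  have hQ0 : (0 : ℝ) ≤ Q ^ m0 := by linarith
  induction k with
  | zero =>
    intro R u _
    have h : ∀ J ∈ OP R u, ∏ i, w (J i) ≤ Real.exp ((0 : ℕ) * δ) * Q ^ m0 := by
      intro J _
      rw [Finset.univ_eq_empty, Finset.prod_empty]
      simpa using hQm
    have h3 := Finset.sum_le_sum h
    rwa [Finset.sum_const, nsmul_eq_mul] at h3
  | succ k ih =>
    intro R u hu
    by_cases hR : m0 ≤ R.card
    · obtain ⟨c, hc⟩ := card_dep (n := n) (fun i : Fin k => u i.succ) (R.card - u 0)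
      have h : ∀ J0 ∈ R.powersetCard (u 0), ((OP (R \ J0) (fun i : Fin k => u i.succ)).card : ℝ) = c := by
        intro J0 hJ
        rw [Finset.mem_powersetCard] at hJ
        apply hc
        rw [Finset.card_sdiff_of_subset hJ.1, hJ.2]
      have hcard : ((OP R u).card : ℝ) = (R.card.choose (u 0) : ℝ) * c := by
        rw [card_cons, Finset.sum_congr rfl h, Finset.sum_const, nsmul_eq_mul, Finset.card_powersetCard]
      rw [OP_cons, hcard]
      have e1 : ∀ J0 ∈ R.powersetCard (u 0), ∑ J ∈ OP (R \ J0) (fun i : Fin k => u i.succ),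
          ∏ i, w ((Fin.cons J0 J : Fin (k + 1) → Finset (Fin n)) i) ≤
          w J0 * (c * (Real.exp (k * δ) * Q ^ m0)) := by
        intro J0 hJ0
        have e2 : ∑ J ∈ OP (R \ J0) (fun i : Fin k => u i.succ),
            ∏ i, w ((Fin.cons J0 J : Fin (k + 1) → Finset (Fin n)) i) =
            w J0 * ∑ J ∈ OP (R \ J0) (fun i : Fin k => u i.succ), ∏ i, w (J i) := by
          rw [Finset.mul_sum]
          refine Finset.sum_congr rfl (fun J _ => ?_)
          rw [Fin.prod_univ_succ]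
          simp only [Fin.cons_zero, Fin.cons_succ]
        rw [e2]
        refine mul_le_mul_of_nonneg_left ?_ (hw J0)
        have e3 := ih (R \ J0) (fun i : Fin k => u i.succ) (fun i => hu _)
        rwa [h J0 hJ0] at e3
      refine le_trans (Finset.sum_le_sum e1) ?_
      rw [← Finset.sum_mul]
      have e4 := h1 R hR (u 0) (hu 0)
      rcases Finset.eq_empty_or_nonempty (R.powersetCard (u 0)) with he | ⟨J0, hJ0⟩
      · have h0 : R.card.choose (u 0) = 0 := by
          rw [← Finset.card_powersetCard, he, Finset.card_empty]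
        rw [he, Finset.sum_empty, h0]
        simp
      have hc0 : 0 ≤ c := by
        rw [← h J0 hJ0]
        exact Nat.cast_nonneg _
      have e5 : Real.exp (((k + 1 : ℕ) : ℝ) * δ) = Real.exp (k * δ) * Real.exp δ := by
        rw [← Real.exp_add]
        congr 1
        push_cast
        ring
      rw [e5]
      calc (∑ i ∈ R.powersetCard (u 0), w i) * (c * (Real.exp (k * δ) * Q ^ m0))
          ≤ ((R.card.choose (u 0) : ℝ) * Real.exp δ) * (c * (Real.exp (k * δ) * Q ^ m0)) :=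
            mul_le_mul_of_nonneg_right e4 (mul_nonneg hc0 (mul_nonneg (Real.exp_pos _).le hQ0))
        _ = (R.card.choose (u 0) : ℝ) * c * (Real.exp (k * δ) * Real.exp δ * Q ^ m0) := by ring
    · have hR' : R.card ≤ m0 := by omega
      have h3 : ∀ J ∈ OP R u, ∏ i, w (J i) ≤ Real.exp (((k + 1 : ℕ) : ℝ) * δ) * Q ^ m0 := by
        intro J hJ
        refine le_trans (small w hw m0 Q hQ h2 R u hR' J hJ) ?_
        have : (1 : ℝ) ≤ Real.exp (((k + 1 : ℕ) : ℝ) * δ) := Real.one_le_exp (mul_nonneg (Nat.cast_nonneg _) hδ)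
        exact le_mul_of_one_le_left hQ0 this
      have h4 := Finset.sum_le_sum h3
      rwa [Finset.sum_const, nsmul_eq_mul] at h4

theorem seq_bound (w : Finset (Fin n) → ℝ) (hw : ∀ J, 0 ≤ w J) (m0 S : ℕ) (δ Q : ℝ)
    (hδ : 0 ≤ δ) (hQ : 1 ≤ Q)
    (h1 : ∀ R : Finset (Fin n), m0 ≤ R.card → ∀ l ≤ S,
      ∑ J ∈ R.powersetCard l, w J ≤ (R.card.choose l : ℝ) * Real.exp δ)
    (h2 : ∀ J, w J ≤ Q ^ J.card) (R : Finset (Fin n)) (u : ι → ℕ) (hu : ∀ i, u i ≤ S) :
    ∑ J ∈ OP R u, ∏ i, w (J i) ≤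
      ((OP R u).card : ℝ) * (Real.exp (Fintype.card ι * δ) * Q ^ m0) := by
  have key := fin_bound w hw m0 S δ Q hδ hQ h1 h2 (Fintype.card ι) R
    (fun i => u ((Fintype.equivFin ι).symm i)) (fun i => hu _)
  rw [card_cast, OP_reindex (Fintype.equivFin ι).symm R u (fun _ => (1 : ℝ)), ← card_cast,
    OP_reindex (Fintype.equivFin ι).symm R u (fun J => ∏ i, w (J i))]
  refine le_trans (le_of_eq (Finset.sum_congr rfl (fun J _ => ?_))) key
  exact Equiv.prod_comp (Fintype.equivFin ι) (fun i => w (J i))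

end Pool.Agent.CHP
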