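import Pool.Agent.CHP.Defs

/-!
# CHP / Stl: elementary Stirling bounds

PROOFS.  `log_fact_ge`: `m^m / m! ≤ exp m` (`Real.pow_div_factorial_le_exp`) gives `m log m - m ≤ log m!` (for `m = 0` both sides are `0`).
`log_fact_le`: with `φ(m) = m log m - m + log (m+1) + 1`, `φ(0) = 1 ≥ 0`, `φ(1) = log 2 ≥ 0`, and induction from `m = 1` on: for `m ≥ 1`
`φ(m+1) - φ(m) - log (m+1) = m log(1+1/m) - 1 + log((m+2)/(m+1))`, which is `≥ 0`: `m log(1+1/m) ≥ 1 - 1/(2m)` and
`log((m+2)/(m+1)) ≥ 1/(m+2)` settle `m ≥ 2`; `m = 1`: `log 2 - 1 + log (3/2) = log 3 - 1 > 0` (`Real.exp_one_lt_d9`: `exp 1 < 3`).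
(Alternatively Mathlib's `Stirling.stirlingSeq'_antitone`: `m! ≤ stirlingSeq 1 * sqrt (2 m) (m/e)^m = e sqrt m (m/e)^m` for `m ≥ 1`.)
`log_desc_le`, `log_desc_ge`: `(n.descFactorial s) = n!/(n-s)!` (`Nat.factorial_mul_descFactorial`), `log n! - log (n-s)! - s log n`; use the two
bounds for `n` and for `m = n - s`: `n log n - n - (m log m - m) - s log n = -s + m (log n - log m)`, and `m (log n - log m) = m log (n/m)`
(also for `m = 0`); the errors are `log (n+1) + 1` or `log (m+1) + 1 ≤ log (n+1) + 1`.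
-/

set_option autoImplicit false

namespace Pool.Agent.CHP

open Finset

theorem log_fact_ge (m : ℕ) : (m : ℝ) * Real.log m - m ≤ Real.log (m.factorial : ℝ) := by
  have hf : (0 : ℝ) < (m.factorial : ℝ) := by exact_mod_cast m.factorial_pos
  rcases Nat.eq_zero_or_pos m with rfl | hm
  · simp
  · have hm' : (0 : ℝ) < m := by exact_mod_cast hm
    have h1 := Real.pow_div_factorial_le_exp (m : ℝ) hm'.le m
    have h2 : (0 : ℝ) < (m : ℝ) ^ m / (m.factorial : ℝ) := by positivity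
    have h3 := Real.log_le_log h2 h1
    rw [Real.log_exp, Real.log_div (by positivity) hf.ne', Real.log_pow] at h3
    linarith

theorem log_fact_le (m : ℕ) :
    Real.log (m.factorial : ℝ) ≤ (m : ℝ) * Real.log m - m + Real.log ((m : ℝ) + 1) + 1 := by
  rcases m with _ | n
  · simp
  · have h1 : Real.log (Stirling.stirlingSeq (n + 1)) ≤ Real.log (Stirling.stirlingSeq (0 + 1)) :=
      Stirling.log_stirlingSeq'_antitone (Nat.zero_le n)
    rw [Stirling.log_stirlingSeq_formula, zero_add, Stirling.log_stirlingSeq_formula] at h1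
    have hn : (0 : ℝ) < ((n + 1 : ℕ) : ℝ) := by positivity
    rw [Real.log_div hn.ne' (Real.exp_ne_zero 1), Real.log_exp,
      Real.log_mul two_ne_zero hn.ne'] at h1
    have h2 : Real.log ((n + 1 : ℕ) : ℝ) ≤ Real.log (((n + 1 : ℕ) : ℝ) + 1) :=
      Real.log_le_log hn (by linarith)
    have h3 : 0 ≤ Real.log ((n + 1 : ℕ) : ℝ) := by
      apply Real.log_nonneg
      push_cast
      linarith [(Nat.cast_nonneg n : (0 : ℝ) ≤ n)]
    have h4 : Real.log ((1 : ℕ) / Real.exp 1) = -1 := by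
      rw [Nat.cast_one, Real.log_div one_ne_zero (Real.exp_ne_zero 1), Real.log_exp, Real.log_one]
      ring
    rw [h4] at h1
    simp only [Nat.factorial_one, Nat.cast_one, Real.log_one, mul_one, one_mul] at h1
    linarith

private theorem desc_eq {n s : ℕ} (hn : 0 < n) (hs : s ≤ n) :
    Real.log ((n.descFactorial s : ℝ) / (n : ℝ) ^ s) =
      Real.log (n.factorial : ℝ) - Real.log ((n - s).factorial : ℝ) - s * Real.log n := by
  have hn' : (0 : ℝ) < n := by exact_mod_cast hn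
  have h1 : ((n - s).factorial : ℝ) * (n.descFactorial s : ℝ) = (n.factorial : ℝ) := by
    exact_mod_cast Nat.factorial_mul_descFactorial hs
  have h2 : (0 : ℝ) < ((n - s).factorial : ℝ) := by exact_mod_cast (n - s).factorial_pos
  have h3 : (0 : ℝ) < (n.descFactorial s : ℝ) := by
    have : 0 < n.descFactorial s := Nat.descFactorial_pos.2 hs
    exact_mod_cast this
  rw [← h1, Real.log_mul h2.ne' h3.ne', Real.log_div h3.ne' (by positivity), Real.log_pow]
  ring

private theorem ent_eq {n s : ℕ} (hn : 0 < n) (hs : s ≤ n) :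
    ((n : ℝ) - s) * Real.log (n / ((n : ℝ) - s)) =
      ((n : ℝ) - s) * Real.log n - ((n - s : ℕ) : ℝ) * Real.log ((n - s : ℕ) : ℝ) := by
  have hn' : (0 : ℝ) < n := by exact_mod_cast hn
  rw [Nat.cast_sub hs]
  rcases eq_or_lt_of_le (show (s : ℝ) ≤ n by exact_mod_cast hs) with h | h
  · rw [h, sub_self, zero_mul, zero_mul, zero_mul, sub_zero]
  · rw [Real.log_div hn'.ne' (by linarith : (n : ℝ) - s ≠ 0)]
    ring

theorem log_desc_le {n s : ℕ} (hn : 0 < n) (hs : s ≤ n) :
    Real.log ((n.descFactorial s : ℝ) / (n : ℝ) ^ s) ≤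
      -(s : ℝ) + ((n : ℝ) - s) * Real.log (n / ((n : ℝ) - s)) + Real.log ((n : ℝ) + 1) + 1 := by
  rw [desc_eq hn hs, ent_eq hn hs]
  have h1 := log_fact_le n
  have h2 := log_fact_ge (n - s)
  have h3 : ((n - s : ℕ) : ℝ) = (n : ℝ) - s := Nat.cast_sub hs
  linarith

theorem log_desc_ge {n s : ℕ} (hn : 0 < n) (hs : s ≤ n) :
    -(s : ℝ) + ((n : ℝ) - s) * Real.log (n / ((n : ℝ) - s)) - Real.log ((n : ℝ) + 1) - 1 ≤
      Real.log ((n.descFactorial s : ℝ) / (n : ℝ) ^ s) := by
  rw [desc_eq hn hs, ent_eq hn hs]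
  have h1 := log_fact_ge n
  have h2 := log_fact_le (n - s)
  have h3 : ((n - s : ℕ) : ℝ) = (n : ℝ) - s := Nat.cast_sub hs
  have h4 : Real.log (((n - s : ℕ) : ℝ) + 1) ≤ Real.log ((n : ℝ) + 1) := by
    apply Real.log_le_log (by positivity)
    rw [h3]
    linarith [(Nat.cast_nonneg s : (0 : ℝ) ≤ s)]
  linarith

end Pool.Agent.CHP
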