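import Pool.Agent.CHP.OpB

/-!
# CHP / Uno: from packings to ordered packings

PROOFS.  `uno`: for `π : Equiv.Perm ι` with `u (π i) = u i` for all `i` the family `I0 ∘ π` is in `OP R u`, and `π ↦ I0 ∘ π` is injective on
these permutations (`I0` is injective: its members are disjoint and nonempty, `1 ≤ u i`).  The number of these permutations is
`∏ v ∈ range (S+1), (cnt u v)!`: `DomMulAct.stabilizer_card` (`Fintype.card {g : Perm α // f ∘ g = f} = ∏ i, (card {a // f a = i})!` for `f` with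
values in a fintype: apply it to `f i = (⟨u i, _⟩ : Fin (S+1))`).  So `∑_{I ∈ OP R u} G I ≥ ∑_π G (I0 ∘ π) = (∏ (cnt u v)!) G I0`
(`Finset.sum_le_sum_of_subset_of_nonneg` for the image, `Finset.sum_image`).
`exists_rep`: for every `v ≤ S` the fibres `{i // u i = v}` and `{I // I ∈ P ∧ I.card = v}` have the same cardinality, so there is an equivalence
`e : ι ≃ {I // I ∈ P}` with `(e i).card = u i` (glue the equivalences of the fibres: `Equiv.sigmaFiberEquiv`, `Equiv.sigmaCongrRight`,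
`Fintype.equivOfCardEq`; or construct it by `Fintype.card_eq` for each fibre).  `I i = (e i).1`.
`EZ_eq`: `card_OP_real` with `R = univ`: `|OP univ u| = n.descFactorial s / ∏ i, (u i)!`, `s = ∑ u i = sz S (cnt u)`;
`∏ i, f (u i) = ∏ v ∈ range (S+1), f v ^ cnt u v` (`Finset.prod_fiberwise_of_maps_to`, `Finset.prod_const`; a module `DmC` with this lemma is in
work, do not import it), with `f v = v!` and `f v = (1-p)^C(v,2)`: `(1-p)^(∑ i, C(u i,2)) = ∏ i, (1-p)^C(u i,2)`
(`Finset.prod_pow_eq_pow_sum`).  `∏ v, n^(v κ v) = n^s`.  `0 < n`.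
-/

set_option autoImplicit false

namespace Pool.Agent.CHP

open Finset Pool.Agent.CHV

variable {n : ℕ} {ι : Type} [Fintype ι] [DecidableEq ι]

theorem uno {S : ℕ} (u : ι → ℕ) (hu1 : ∀ i, 1 ≤ u i) (hu : ∀ i, u i ≤ S) (R : Finset (Fin n))
    (I0 : ι → Finset (Fin n)) (hI0 : I0 ∈ OP R u) (G : (ι → Finset (Fin n)) → ℝ)
    (hG0 : ∀ I, 0 ≤ G I)
    (hG : ∀ π : Equiv.Perm ι, (∀ i, u (π i) = u i) → G (fun i => I0 (π i)) = G I0) :
    (∏ v ∈ range (S + 1), ((cnt u v).factorial : ℝ)) * G I0 ≤ ∑ I ∈ OP R u, G I := by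
  classical
  obtain ⟨hI1, hI2⟩ := mem_OP.1 hI0
  have hinj : Function.Injective I0 := by
    intro i j hij
    by_contra hne
    have h1 := hI2 i j hne
    rw [hij, Finset.disjoint_self_iff_empty] at h1
    have h2 := (hI1 j).2
    rw [h1, Finset.card_empty] at h2
    have := hu1 j
    omega
  obtain ⟨f, hf⟩ : ∃ f : ι → Fin (S + 1), ∀ i, (f i : ℕ) = u i :=
    ⟨fun i => ⟨u i, by have := hu i; omega⟩, fun i => rfl⟩
  have hcard := DomMulAct.stabilizer_card f
  have hfib : ∀ v : Fin (S + 1), Fintype.card {a // f a = v} = cnt u v := by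
    intro v
    rw [Fintype.card_subtype]
    unfold cnt
    congr 1
    ext a
    rw [Finset.mem_filter, Finset.mem_filter, Fin.ext_iff, hf]
  have hprod : (∏ v ∈ range (S + 1), ((cnt u v).factorial : ℝ)) =
      (Fintype.card {g : Equiv.Perm ι // f ∘ g = f} : ℝ) := by
    rw [hcard, Finset.prod_range]
    push_cast
    exact Finset.prod_congr rfl fun v _ => by rw [hfib v]
  rw [hprod, Fintype.card_subtype]
  obtain ⟨Q, hQ0⟩ : ∃ Q, Q = univ.filter (fun g : Equiv.Perm ι => f ∘ g = f) := ⟨_, rfl⟩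
  rw [← hQ0]
  have hQ : ∀ π ∈ Q, ∀ i, u (π i) = u i := by
    intro π hπ i
    rw [hQ0] at hπ
    have h1 := (Finset.mem_filter.1 hπ).2
    have h2 : f (π i) = f i := congrFun h1 i
    rw [← hf, ← hf, h2]
  calc (Q.card : ℝ) * G I0 = ∑ π ∈ Q, G (fun i => I0 (π i)) := by
        rw [Finset.sum_congr rfl (fun π hπ => hG π (hQ π hπ)), Finset.sum_const, nsmul_eq_mul]
    _ = ∑ I ∈ Q.image (fun π i => I0 (π i)), G I := by
        rw [Finset.sum_image]
        intro π _ π' _ h
        exact Equiv.ext fun i => hinj (congrFun h i)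
    _ ≤ _ := by
        refine Finset.sum_le_sum_of_subset_of_nonneg ?_ (fun I _ _ => hG0 I)
        intro I hI
        obtain ⟨π, hπ, rfl⟩ := Finset.mem_image.1 hI
        rw [mem_OP]
        refine ⟨fun i => ⟨(hI1 (π i)).1, ?_⟩, fun i j hij =>
          hI2 _ _ (fun h => hij (π.injective h))⟩
        rw [(hI1 (π i)).2, hQ π hπ i]

theorem exists_rep {S : ℕ} (u : ι → ℕ) (hu : ∀ i, u i ≤ S) (P : Finset (Finset (Fin n)))
    (hP : ∀ I ∈ P, I.card ≤ S) (h : ∀ v ≤ S, prof P v = cnt u v) :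
    ∃ I : ι → Finset (Fin n), Function.Injective I ∧ univ.image I = P ∧
      ∀ i, (I i).card = u i := by
  classical
  have hE : ∀ v : ℕ, Nonempty ({i // u i = v} ≃ {I : {I // I ∈ P} // I.1.card = v}) := by
    intro v
    refine ⟨Fintype.equivOfCardEq ?_⟩
    have h1 : Fintype.card {i // u i = v} = cnt u v := by
      rw [Fintype.card_subtype]
      rfl
    have h2 : Fintype.card {I : {I // I ∈ P} // I.1.card = v} = prof P v := by
      unfold prof
      rw [← Fintype.card_coe]
      refine Fintype.card_congr ?_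
      exact ⟨fun I => ⟨I.1.1, Finset.mem_filter.2 ⟨I.1.2, I.2⟩⟩,
        fun I => ⟨⟨I.1, (Finset.mem_filter.1 I.2).1⟩, (Finset.mem_filter.1 I.2).2⟩,
        fun _ => rfl, fun _ => rfl⟩
    rw [h1, h2]
    by_cases hv : v ≤ S
    · exact (h v hv).symm
    · have h3 : cnt u v = 0 := by
        unfold cnt
        rw [Finset.card_eq_zero, Finset.filter_eq_empty_iff]
        intro i _ hi
        have := hu i
        omega
      have h4 : prof P v = 0 := by
        unfold prof
        rw [Finset.card_eq_zero, Finset.filter_eq_empty_iff]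
        intro I hI hI2
        have := hP I hI
        omega
      rw [h3, h4]
  obtain ⟨E, -⟩ : ∃ E : ∀ v : ℕ, ({i // u i = v} ≃ {I : {I // I ∈ P} // I.1.card = v}), True :=
    ⟨fun v => Classical.choice (hE v), trivial⟩
  obtain ⟨e, he⟩ : ∃ e : ι ≃ {I // I ∈ P}, ∀ i, (e i).1.card = u i := by
    refine ⟨(Equiv.sigmaFiberEquiv u).symm.trans ((Equiv.sigmaCongrRight E).trans
      (Equiv.sigmaFiberEquiv (fun I : {I // I ∈ P} => I.1.card))), fun i => ?_⟩
    exact (E (u i) ⟨i, rfl⟩).2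
  refine ⟨fun i => (e i).1, fun i j hij => e.injective (Subtype.ext hij), ?_, he⟩
  ext I
  rw [Finset.mem_image]
  constructor
  · rintro ⟨i, -, rfl⟩
    exact (e i).2
  · intro hI
    refine ⟨e.symm ⟨I, hI⟩, Finset.mem_univ _, ?_⟩
    rw [Equiv.apply_symm_apply]

theorem EZ_eq {S : ℕ} (p : ℝ) (hn : 0 < n) (u : ι → ℕ) (hu : ∀ i, u i ≤ S) :
    EZ p n S (cnt u) = ((OP (univ : Finset (Fin n)) u).card : ℝ) *
      (1 - p) ^ (∑ i, (u i).choose 2) / ∏ v ∈ range (S + 1), ((cnt u v).factorial : ℝ) := by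
  have hmaps : ∀ i ∈ (univ : Finset ι), u i ∈ range (S + 1) := by
    intro i _
    have := hu i
    rw [Finset.mem_range]
    omega
  have hs : sz S (cnt u) = ∑ i, u i := by
    unfold sz
    rw [← Finset.sum_fiberwise_of_maps_to hmaps u]
    refine Finset.sum_congr rfl fun v _ => ?_
    rw [Finset.sum_congr rfl (fun i hi => (Finset.mem_filter.1 hi).2), Finset.sum_const,
      smul_eq_mul, mul_comm]
    rfl
  have hN : ∏ v ∈ range (S + 1), NN p n v ^ cnt u v = ∏ i, NN p n (u i) := by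
    rw [← Finset.prod_fiberwise_of_maps_to hmaps (fun i => NN p n (u i))]
    refine Finset.prod_congr rfl fun v _ => ?_
    have h1 : ∀ i ∈ univ.filter (fun i => u i = v), NN p n (u i) = NN p n v := by
      intro i hi
      rw [(Finset.mem_filter.1 hi).2]
    rw [Finset.prod_congr rfl h1, Finset.prod_const]
    rfl
  have hn' : (n : ℝ) ≠ 0 := by
    exact_mod_cast hn.ne'
  have hf1 : ∏ i, ((u i).factorial : ℝ) ≠ 0 :=
    Finset.prod_ne_zero_iff.2 fun i _ => by exact_mod_cast (Nat.factorial_pos _).ne'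
  have hf2 : ∏ v ∈ range (S + 1), ((cnt u v).factorial : ℝ) ≠ 0 :=
    Finset.prod_ne_zero_iff.2 fun i _ => by exact_mod_cast (Nat.factorial_pos _).ne'
  unfold EZ
  rw [hs, Finset.prod_div_distrib, hN, card_OP_real, Finset.card_univ, Fintype.card_fin]
  unfold NN
  rw [Finset.prod_div_distrib, Finset.prod_mul_distrib, Finset.prod_pow_eq_pow_sum,
    Finset.prod_pow_eq_pow_sum]
  have hpn : (n : ℝ) ^ (∑ i, u i) ≠ 0 := pow_ne_zero _ hn'
  field_simp

end Pool.Agent.CHP
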