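import Pool.Agent.CHP.Ene
import Pool.Agent.CHP.Fst
import Pool.Agent.CHP.Nod
import Pool.Agent.CHP.Evt
import Pool.Agent.CHP.ParE
import Pool.Agent.CHP.Poi
import Pool.Agent.CHV.Enr
import Pool.Agent.CHV.Cnt

/-!
# CHP / VFf: the variance of `ff`

Notation: `g = 3/5`, `ℒ = log n`, `B = -log (1-p)`, `S = SS p K n`, `lam = lm p n`, `t = a - 1`, `f = ff S lam`, `μ = mu p n a ∈ [n^(1/2), n^(1-ε)]`, `ks = ks t ko`.
PROOF.  `K0` and (for `K ≥ K0`) `C0, cT` from `par_exists`.  Fix `K`.  For large `n` and `a` in the range take `G, A, ko` with `Par p g C0 cT n S t lam G A ko`.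
1. `Ex f ≤ lam ks + C1 n^(4/5) ℒ^3` (`ef_upper`, `(1+g)/2 = 4/5`; we may take `C1 ≥ 1`).
2. `tail_up` with `s = sqrt (8 n ℒ)` (`ff_vertex` of CHV/PackL): `P(Ex f + s ≤ f) ≤ exp (-4 ℒ) = 1/n^4`.  `ez_bad`: the event `∀ P, Pack S lam x P → n^(-3(S+1)) ≤ EZ (prof P)` fails with
probability `≤ 1/n^4` (`S ≥ 3`).  If neither of the two bad events happens, `P = opt S lam x` satisfies `lam |P| + n - ∑ |I| = f x ≤ Ex f + s ≤ lam ks + Γ` (`ff_opt`), with
`Γ = C1 n^(4/5) ℒ^3 + s ≤ 2 C1 n^(4/5) ℒ^3`, so by `near_of` (constant `C2`) and `Near.mono` `Near .. Λ (prof P)` with `Λ = ℒ^6 (n^(4/5) + μ)`: for large `n`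
`C2 ℒ Γ + C2 ℒ^5 (N_a + 1) ≤ 2 C1 C2 n^(4/5) ℒ^4 + 3 C2 ℒ^5 μ ≤ Λ`, as `N_a ≤ 2 μ` (`mu_NN`; `t + 1 = a`, since `a ≥ 1`), `μ ≥ 1`.
So `Ex ind (¬ Near ..) ≤ 2/n^4` (`ind_or`, `ind_mono`).
3. `n^g ℒ^2 ≤ Λ` and `Λ ≤ n^(1-δ)`, `δ = (min ε (1/5))/2`, for large `n` (`μ ≤ n^(1-ε)`).
4. Energies.  For `j < n` with `Λ ℒ^5 ≤ n - (j+1)`: `ener ≤ Λ ℒ^7/(j+1)` (`ener_near`); the sum over these `j` is `≤ Λ ℒ^7 (1 + log n) ≤ 2 Λ ℒ^8` (harmonic sum: `∑_{j<n} 1/(j+1) ≤ 1 + log n`: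
`harmonic_le_one_add_log` or induction).  For the other at most `Λ ℒ^5 + 1` values of `j < n`: `ener ≤ (1/(1-p)) S` (`ener_le` of CHV/Enr, `count_triv` of CHV/Cnt, `Ex_le_const`), so their
sum is `≤ Λ ℒ^7` for large `n`.  So `∑_j ener ≤ 3 Λ ℒ^8`.
5. `var_le_ener` (Poi), `var_eq` of CHV/ExB (`Ex (f - Ex f)^2 = Ex f^2 - (Ex f)^2`): `Var f ≤ 3 Λ ℒ^8 = 3 ℒ^14 (n^(4/5) + μ) ≤ ℒ^15 (n^(4/5) + μ)`.
-/

set_option autoImplicit false

namespace Pool.Agent.CHP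

open Finset Filter Pool.Agent.CHV

private theorem harm (n : ℕ) : ∑ j ∈ range n, 1 / ((j : ℝ) + 1) ≤ 1 + Real.log n := by
  have h := harmonic_le_one_add_log n
  unfold harmonic at h
  push_cast at h
  refine le_trans (le_of_eq ?_) h
  refine Finset.sum_congr rfl fun j _ => ?_
  rw [one_div]

private theorem few (n : ℕ) {X : ℝ} (hX : 0 ≤ X) :
    (((range n).filter (fun j : ℕ => ¬ X ≤ (n : ℝ) - ((j : ℝ) + 1))).card : ℝ) ≤ X + 1 := by
  have h1 : ((range n).filter (fun j : ℕ => ¬ X ≤ (n : ℝ) - ((j : ℝ) + 1))).card ≤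
      (range ⌈X⌉₊).card := by
    refine Finset.card_le_card_of_injOn (fun j => n - 1 - j) ?_ ?_
    · intro j hj
      rw [Finset.coe_filter, Set.mem_ofPred_eq, Finset.mem_range] at hj
      rw [Finset.coe_range, Set.mem_Iio]
      have h2 : ((n - 1 - j : ℕ) : ℝ) < X := by
        have h3 : j + 1 + (n - 1 - j) = n := by omega
        have h4 : ((j : ℝ) + 1) + ((n - 1 - j : ℕ) : ℝ) = n := by exact_mod_cast h3
        have := hj.2
        push Not at this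
        linarith
      exact_mod_cast lt_of_lt_of_le h2 (Nat.le_ceil X)
    · intro i hi j hj hij
      rw [Finset.coe_filter, Set.mem_ofPred_eq, Finset.mem_range] at hi hj
      simp only at hij
      omega
  rw [Finset.card_range] at h1
  have h2 := Nat.ceil_lt_add_one hX
  have h3 : (((range n).filter (fun j : ℕ => ¬ X ≤ (n : ℝ) - ((j : ℝ) + 1))).card : ℝ) ≤ (⌈X⌉₊ : ℝ) := by
    exact_mod_cast h1
  linarith

private theorem ener_triv {p : ℝ} (h0 : 0 ≤ p) (h1 : p < 1) {n S lam j : ℕ} (hj : j < n) :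
    ener p (n := n) S lam j ≤ 1 / (1 - p) * (S : ℝ) := by
  have h1p : 0 < 1 - p := by linarith
  refine le_trans (ener_le h0 h1 hj) (mul_le_mul_of_nonneg_left ?_ (by positivity))
  refine Ex_le_const h0 h1.le fun x => Ex_le_const h0 h1.le fun y => Ex_le_const h0 h1.le fun z => ?_
  exact_mod_cast count_triv hj (opt_pack S lam _)

private theorem ener_tot {p : ℝ} (h0 : 0 ≤ p) (h1 : p < 1) {n S lam : ℕ} {X W : ℝ} (hX : 0 ≤ X)
    (hW : 0 ≤ W)
    (h : ∀ j < n, X ≤ (n : ℝ) - ((j : ℝ) + 1) → ener p (n := n) S lam j ≤ W / ((j : ℝ) + 1)) :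
    ∑ j ∈ range n, ener p (n := n) S lam j ≤
      W * (1 + Real.log n) + (1 / (1 - p) * (S : ℝ)) * (X + 1) := by
  have h1p : 0 < 1 - p := by linarith
  have hc : 0 ≤ 1 / (1 - p) * (S : ℝ) := by positivity
  rw [← Finset.sum_filter_add_sum_filter_not (range n) (fun j : ℕ => X ≤ (n : ℝ) - ((j : ℝ) + 1))]
  apply add_le_add
  · calc ∑ j ∈ (range n).filter (fun j : ℕ => X ≤ (n : ℝ) - ((j : ℝ) + 1)), ener p (n := n) S lam j
        ≤ ∑ j ∈ (range n).filter (fun j : ℕ => X ≤ (n : ℝ) - ((j : ℝ) + 1)), W * (1 / ((j : ℝ) + 1)) := by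
          refine Finset.sum_le_sum fun j hj => ?_
          rw [Finset.mem_filter, Finset.mem_range] at hj
          rw [mul_one_div]
          exact h j hj.1 hj.2
      _ ≤ ∑ j ∈ range n, W * (1 / ((j : ℝ) + 1)) := by
          refine Finset.sum_le_sum_of_subset_of_nonneg (Finset.filter_subset _ _) fun j _ _ => ?_
          positivity
      _ = W * ∑ j ∈ range n, (1 / ((j : ℝ) + 1)) := by rw [Finset.mul_sum]
      _ ≤ W * (1 + Real.log n) := mul_le_mul_of_nonneg_left (harm n) hW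
  · calc ∑ j ∈ (range n).filter (fun j : ℕ => ¬ X ≤ (n : ℝ) - ((j : ℝ) + 1)), ener p (n := n) S lam j
        ≤ ∑ j ∈ (range n).filter (fun j : ℕ => ¬ X ≤ (n : ℝ) - ((j : ℝ) + 1)), 1 / (1 - p) * (S : ℝ) := by
          refine Finset.sum_le_sum fun j hj => ?_
          rw [Finset.mem_filter, Finset.mem_range] at hj
          exact ener_triv h0 h1 hj.1
      _ = (1 / (1 - p) * (S : ℝ)) *
          (((range n).filter (fun j : ℕ => ¬ X ≤ (n : ℝ) - ((j : ℝ) + 1))).card : ℝ) := by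
          rw [Finset.sum_const, nsmul_eq_mul, mul_comm]
      _ ≤ (1 / (1 - p) * (S : ℝ)) * (X + 1) := mul_le_mul_of_nonneg_left (few n hX) hc

/-- The numerical facts for one large `n`. -/
private structure Num (p : ℝ) (K : ℕ) (ε δ C1 C2 : ℝ) (n : ℕ) : Prop where
  n3 : 3 ≤ n
  S3 : 3 ≤ SS p K n
  l3 : 3 ≤ Real.log n
  lC : 2 * C1 * C2 ≤ Real.log n ^ 2
  lC2 : 3 * C2 ≤ Real.log n
  bS : 1 / (1 - p) * (SS p K n : ℝ) * 2 ≤ Real.log n ^ 2
  up : 2 * Real.log n ^ 6 ≤ (n : ℝ) ^ δ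

private theorem num_ev {p : ℝ} (h0 : 0 < p) (h1 : p < 1) (K : ℕ) (ε : ℝ) {δ : ℝ} (hδ : 0 < δ)
    (C1 C2 : ℝ) : ∀ᶠ n : ℕ in atTop, Num p K ε δ C1 C2 n := by
  have hB := ell_pos h0 h1
  have h1p : 0 < 1 - p := by linarith
  have hlog : Tendsto (fun n : ℕ => Real.log n) atTop atTop :=
    Real.tendsto_log_atTop.comp tendsto_natCast_atTop_atTop
  filter_upwards [eventually_ge_atTop 3, hlog.eventually_ge_atTop (|2 * C1 * C2| + |3 * C2| + 3),
    hlog.eventually_ge_atTop (4 / ((1 - p) * (-Real.log (1 - p)))),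
    (tendsto_LL h0 h1).eventually_ge_atTop 3, SS_le h0 h1 K, SS_ge h0 h1 K,
    LL_pow_le h0 h1 6 (2 * (-Real.log (1 - p)) ^ 6) hδ] with n n3 l1 l2 L3 Su Sl up
  have hLe : Real.log n = (-Real.log (1 - p)) * LL p n := by
    unfold LL
    rw [mul_div_cancel₀ _ (ne_of_gt hB)]
  have e1 := le_abs_self (2 * C1 * C2)
  have e2 := le_abs_self (3 * C2)
  have e3 := abs_nonneg (2 * C1 * C2)
  have e4 := abs_nonneg (3 * C2)
  have hl3 : 3 ≤ Real.log n := by linarith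
  refine ⟨n3, ?_, hl3, ?_, ?_, ?_, ?_⟩
  · have : (3 : ℝ) ≤ SS p K n := le_trans L3 Sl
    exact_mod_cast this
  · have : Real.log n ≤ Real.log n ^ 2 := le_self_pow₀ (by linarith) (by norm_num)
    linarith
  · linarith
  · have hL0 : 0 < LL p n := by linarith
    calc 1 / (1 - p) * (SS p K n : ℝ) * 2 ≤ 1 / (1 - p) * (2 * LL p n) * 2 := by gcongr
      _ = 4 / ((1 - p) * (-Real.log (1 - p))) * ((-Real.log (1 - p)) * LL p n) := by
          have hne : Real.log (1 - p) ≠ 0 := by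
            intro h
            rw [h, neg_zero] at hB
            exact lt_irrefl _ hB
          field_simp
          ring
      _ = 4 / ((1 - p) * (-Real.log (1 - p))) * Real.log n := by rw [hLe]
      _ ≤ Real.log n * Real.log n := mul_le_mul_of_nonneg_right l2 (by linarith)
      _ = Real.log n ^ 2 := by ring
  · rw [hLe]
    calc 2 * ((-Real.log (1 - p)) * LL p n) ^ 6 = 2 * (-Real.log (1 - p)) ^ 6 * LL p n ^ 6 := by ring
      _ ≤ _ := up

theorem var_ff_bound {p : ℝ} (h0 : 0 < p) (h1 : p < 1) (hB : -Real.log (1 - p) ≤ 2) {ε : ℝ}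
    (hε : 0 < ε) :
    ∃ K0 : ℕ, ∀ K : ℕ, K0 ≤ K → ∀ᶠ n : ℕ in atTop, ∀ a : ℕ,
      (n : ℝ) ^ (1 / 2 : ℝ) ≤ mu p n a → mu p n a ≤ (n : ℝ) ^ (1 - ε) →
      Ex p (fun x : Cf n => (ff (SS p K n) (lm p n) x -
        Ex p (fun x : Cf n => ff (SS p K n) (lm p n) x)) ^ 2) ≤
          Real.log n ^ 15 * ((n : ℝ) ^ (4 / 5 : ℝ) + mu p n a) := by
  obtain ⟨K0, hK0⟩ := par_exists h0 h1 hB hε
  refine ⟨K0, fun K hK => ?_⟩
  obtain ⟨C0, cT, hcT, hcT1, hpar⟩ := hK0 K hK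
  have hg : (3 / 5 : ℝ) ≤ 3 / 5 := le_rfl
  have hg1 : (3 / 5 : ℝ) < 1 := by norm_num
  obtain ⟨C1', hC1', hef⟩ := ef_upper h0 h1 K hg hg1 C0 cT hcT hcT1
  obtain ⟨C1, hC1, hC1le⟩ : ∃ C1 : ℝ, 1 ≤ C1 ∧ C1' ≤ C1 :=
    ⟨max C1' 1, le_max_right _ _, le_max_left _ _⟩
  obtain ⟨C2, hC2, hnear⟩ := near_of (g := 3 / 5) h0 h1 C0 cT
  have hδ : 0 < min ε (1 / 5) / 2 := by
    have : 0 < min ε (1 / 5) := lt_min hε (by norm_num)
    linarith
  have hδ1 : 2 * (min ε (1 / 5) / 2) ≤ ε := by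
    have := min_le_left ε (1 / 5)
    linarith
  have hδ2 : 2 * (min ε (1 / 5) / 2) ≤ 1 / 5 := by
    have := min_le_right ε (1 / 5)
    linarith
  have hener := ener_near h0 h1 K hg hg1 C0 cT hcT hcT1 hδ
  generalize min ε (1 / 5) / 2 = δ at hδ hδ1 hδ2 hener
  filter_upwards [hpar (3 / 5) hg, hef, hnear, hener, mu_NN h0 h1 hB, num_ev h0 h1 K ε hδ C1 C2] with
    n hpar hef hnear hener hmuNN hnum
  intro a ha1 ha2
  obtain ⟨G, A, ko, hP⟩ := hpar a ha1 ha2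
  have hn3 := hnum.n3
  have hn0 : 0 < n := by omega
  have hn0' : (0 : ℝ) < n := by exact_mod_cast hn0
  have hn1 : (1 : ℝ) ≤ n := by exact_mod_cast hn0
  have hn1' : (1 : ℝ) < n := by
    have : 1 < n := by omega
    exact_mod_cast this
  have hl3 := hnum.l3
  have hl0 : (0 : ℝ) ≤ Real.log n := by linarith
  have hl1 : (1 : ℝ) ≤ Real.log n := by linarith
  have hmu1 : 1 ≤ mu p n a := le_trans (Real.one_le_rpow hn1 (by norm_num)) ha1
  have hmun : mu p n a < n := by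
    refine lt_of_le_of_lt ha2 ?_
    calc (n : ℝ) ^ (1 - ε) < (n : ℝ) ^ (1 : ℝ) := Real.rpow_lt_rpow_of_exponent_lt hn1' (by linarith)
      _ = n := Real.rpow_one _
  have hNN := (hmuNN a ha1 hmun).2
  have hta : a - 1 + 1 = a := by
    have e1 := hP.lam0
    have e2 := hP.lamt
    omega
  set μ := mu p n a with hμ
  set N45 := (n : ℝ) ^ (4 / 5 : ℝ) with hN45
  have hN1 : 1 ≤ N45 := Real.one_le_rpow hn1 (by norm_num)
  set F := Ex p (fun x : Cf n => ff (SS p K n) (lm p n) x) with hF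
  have hF1 : F ≤ (lm p n : ℝ) * ks (a - 1) ko + C1 * N45 * Real.log n ^ 3 := by
    refine le_trans (hef (a - 1) G A ko hP) ?_
    have e1 : ((1 : ℝ) + 3 / 5) / 2 = 4 / 5 := by norm_num
    rw [e1]
    have : C1' * N45 * Real.log n ^ 3 ≤ C1 * N45 * Real.log n ^ 3 := by gcongr
    linarith
  -- the scale
  obtain ⟨Λ, hΛ⟩ : ∃ Λ : ℝ, Λ = Real.log n ^ 6 * (N45 + μ) := ⟨_, rfl⟩
  have hl6 : 1 ≤ Real.log n ^ 6 := one_le_pow₀ hl1
  have hΛ1 : 1 ≤ Λ := by
    rw [hΛ]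
    nlinarith
  have hΛlow : (n : ℝ) ^ (3 / 5 : ℝ) * Real.log n ^ 2 ≤ Λ := by
    have e1 : (n : ℝ) ^ (3 / 5 : ℝ) ≤ N45 := Real.rpow_le_rpow_of_exponent_le hn1 (by norm_num)
    have e2 : Real.log n ^ 2 ≤ Real.log n ^ 6 := pow_le_pow_right₀ hl1 (by norm_num)
    calc (n : ℝ) ^ (3 / 5 : ℝ) * Real.log n ^ 2 ≤ N45 * Real.log n ^ 6 := by gcongr
      _ ≤ Real.log n ^ 6 * (N45 + μ) := by nlinarith
      _ = Λ := hΛ.symm
  have hΛup : Λ ≤ (n : ℝ) ^ (1 - δ) := by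
    have e1 : N45 ≤ (n : ℝ) ^ (1 - 2 * δ) := Real.rpow_le_rpow_of_exponent_le hn1 (by linarith)
    have e2 : μ ≤ (n : ℝ) ^ (1 - 2 * δ) :=
      le_trans ha2 (Real.rpow_le_rpow_of_exponent_le hn1 (by linarith))
    have e3 : (n : ℝ) ^ (1 - δ) = (n : ℝ) ^ δ * (n : ℝ) ^ (1 - 2 * δ) := by
      rw [← Real.rpow_add hn0']
      congr 1
      ring
    rw [hΛ, e3]
    calc Real.log n ^ 6 * (N45 + μ) ≤ Real.log n ^ 6 * ((n : ℝ) ^ (1 - 2 * δ) + (n : ℝ) ^ (1 - 2 * δ)) := by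
          gcongr
      _ = 2 * Real.log n ^ 6 * (n : ℝ) ^ (1 - 2 * δ) := by ring
      _ ≤ (n : ℝ) ^ δ * (n : ℝ) ^ (1 - 2 * δ) :=
          mul_le_mul_of_nonneg_right hnum.up (Real.rpow_nonneg hn0'.le _)
  -- the deviation
  have hs0 : 0 ≤ Real.sqrt (8 * n * Real.log n) := Real.sqrt_nonneg _
  have hssq : Real.sqrt (8 * n * Real.log n) ^ 2 = 8 * n * Real.log n := Real.sq_sqrt (by positivity)
  have hs1 : Real.sqrt (8 * n * Real.log n) ≤ C1 * N45 * Real.log n ^ 3 := by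
    refine abs_le_of_sq_le_sq' ?_ (by positivity) |>.2
    rw [hssq]
    have e1 : (n : ℝ) ≤ N45 ^ 2 := by
      rw [hN45, ← Real.rpow_natCast, ← Real.rpow_mul hn0'.le]
      calc (n : ℝ) = (n : ℝ) ^ (1 : ℝ) := (Real.rpow_one _).symm
        _ ≤ _ := Real.rpow_le_rpow_of_exponent_le hn1 (by norm_num)
    have e2 : 8 * Real.log n ≤ Real.log n ^ 6 := by
      have : (8 : ℝ) ≤ Real.log n ^ 5 := by
        calc (8 : ℝ) ≤ 3 ^ 5 := by norm_num
          _ ≤ Real.log n ^ 5 := pow_le_pow_left₀ (by norm_num) hl3 5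
      calc 8 * Real.log n ≤ Real.log n ^ 5 * Real.log n := mul_le_mul_of_nonneg_right this hl0
        _ = Real.log n ^ 6 := by ring
    have e3 : 1 ≤ C1 ^ 2 := one_le_pow₀ hC1
    calc 8 * (n : ℝ) * Real.log n = n * (8 * Real.log n) := by ring
      _ ≤ N45 ^ 2 * Real.log n ^ 6 := mul_le_mul e1 e2 (by positivity) (by positivity)
      _ ≤ C1 ^ 2 * (N45 ^ 2 * Real.log n ^ 6) := le_mul_of_one_le_left (by positivity) e3
      _ = (C1 * N45 * Real.log n ^ 3) ^ 2 := by ring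
  -- near-optimality of the optimal packing
  have hNear : ∀ x : Cf n, ¬ Near n (SS p K n) (a - 1) (lm p n) A ko Λ
      (prof (opt (SS p K n) (lm p n) x)) →
      (¬ ∀ P, Pack (SS p K n) (lm p n) x P →
        (n : ℝ) ^ (-(3 * ((SS p K n : ℝ) + 1))) ≤ EZ p n (SS p K n) (prof P)) ∨
      F + Real.sqrt (8 * n * Real.log n) ≤ ff (SS p K n) (lm p n) x := by
    intro x hx
    by_contra hcon
    rw [not_or, not_not, not_le] at hcon
    obtain ⟨hA, hBx⟩ := hcon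
    apply hx
    have e1 : (lm p n : ℝ) * (opt (SS p K n) (lm p n) x).card +
        ((n : ℝ) - ((∑ I ∈ opt (SS p K n) (lm p n) x, I.card : ℕ) : ℝ)) ≤
        (lm p n : ℝ) * ks (a - 1) ko + 2 * C1 * N45 * Real.log n ^ 3 := by
      rw [← ff_opt]
      linarith
    have e2 := hnear (SS p K n) (a - 1) (lm p n) G A ko hP x (opt (SS p K n) (lm p n) x)
      (opt_pack _ _ _) hA (2 * C1 * N45 * Real.log n ^ 3) (by positivity) e1
    refine e2.mono ?_
    rw [hta, hΛ]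
    have e3 : C2 * Real.log n ^ 5 * (NN p n a + 1) ≤ C2 * Real.log n ^ 5 * (3 * μ) := by
      apply mul_le_mul_of_nonneg_left _ (by positivity)
      linarith
    have e4 : C2 * Real.log n ^ 5 * (3 * μ) ≤ Real.log n ^ 6 * μ := by
      calc C2 * Real.log n ^ 5 * (3 * μ) = 3 * C2 * (Real.log n ^ 5 * μ) := by ring
        _ ≤ Real.log n * (Real.log n ^ 5 * μ) := mul_le_mul_of_nonneg_right hnum.lC2 (by positivity)
        _ = _ := by ring
    have e5 : C2 * Real.log n * (2 * C1 * N45 * Real.log n ^ 3) ≤ Real.log n ^ 6 * N45 := by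
      calc C2 * Real.log n * (2 * C1 * N45 * Real.log n ^ 3) =
            2 * C1 * C2 * (N45 * Real.log n ^ 4) := by ring
        _ ≤ Real.log n ^ 2 * (N45 * Real.log n ^ 4) := mul_le_mul_of_nonneg_right hnum.lC (by positivity)
        _ = _ := by ring
    calc _ ≤ Real.log n ^ 6 * N45 + Real.log n ^ 6 * μ := by linarith
      _ = _ := by ring
  have hprob : Ex p (fun x : Cf n => ind (¬ Near n (SS p K n) (a - 1) (lm p n) A ko Λ
      (prof (opt (SS p K n) (lm p n) x)))) ≤ 2 / (n : ℝ) ^ 4 := by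
    have e1 := ez_bad h0.le h1 (lm p n) (show 2 ≤ n by omega) hnum.S3
    have e2 := tail_up h0.le h1.le hn0 (fun x : Cf n => ff (SS p K n) (lm p n) x)
      (fun v x y h => ff_vertex v h) (s := Real.sqrt (8 * n * Real.log n)) hs0
    rw [hssq, ← hF] at e2
    have e3 : Real.exp (-(8 * n * Real.log n / (2 * n))) = 1 / (n : ℝ) ^ 4 := by
      have e4 : 8 * (n : ℝ) * Real.log n / (2 * n) = ((4 : ℕ) : ℝ) * Real.log n := by
        field_simp
        push_cast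
        ring
      rw [e4, Real.exp_neg, Real.exp_nat_mul, Real.exp_log hn0', one_div]
    rw [e3] at e2
    calc _ ≤ Ex p (fun x : Cf n => ind (¬ ∀ P, Pack (SS p K n) (lm p n) x P →
          (n : ℝ) ^ (-(3 * ((SS p K n : ℝ) + 1))) ≤ EZ p n (SS p K n) (prof P)) +
          ind (F + Real.sqrt (8 * n * Real.log n) ≤ ff (SS p K n) (lm p n) x)) :=
          Ex_mono h0.le h1.le fun x => le_trans (ind_mono (hNear x)) (ind_or _ _)
      _ = Ex p (fun x : Cf n => ind (¬ ∀ P, Pack (SS p K n) (lm p n) x P →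
          (n : ℝ) ^ (-(3 * ((SS p K n : ℝ) + 1))) ≤ EZ p n (SS p K n) (prof P))) +
          Ex p (fun x : Cf n => ind (F + Real.sqrt (8 * n * Real.log n) ≤ ff (SS p K n) (lm p n) x)) :=
          Ex_add _ _
      _ ≤ 1 / (n : ℝ) ^ 4 + 1 / (n : ℝ) ^ 4 := add_le_add e1 e2
      _ = 2 / (n : ℝ) ^ 4 := by ring
  -- the energies
  have htot := ener_tot (p := p) h0.le h1 (n := n) (S := SS p K n) (lam := lm p n)
    (X := Λ * Real.log n ^ 5) (W := Λ * Real.log n ^ 7) (by positivity) (by positivity)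
    (fun j hj hX => hener (a - 1) G A ko hP Λ hΛlow hΛup hprob j hj hX)
  have hvar : Ex p (fun x : Cf n => (ff (SS p K n) (lm p n) x - F) ^ 2) ≤
      Λ * Real.log n ^ 7 * (1 + Real.log n) +
        1 / (1 - p) * (SS p K n : ℝ) * (Λ * Real.log n ^ 5 + 1) := by
    rw [hF, var_eq (fun x : Cf n => ff (SS p K n) (lm p n) x)]
    exact le_trans (var_le_ener h0.le h1.le) htot
  refine le_trans hvar ?_
  have e1 : 1 / (1 - p) * (SS p K n : ℝ) * (Λ * Real.log n ^ 5 + 1) ≤ Λ * Real.log n ^ 7 := by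
    have e2 : Λ * Real.log n ^ 5 + 1 ≤ 2 * (Λ * Real.log n ^ 5) := by
      have : 1 ≤ Λ * Real.log n ^ 5 := by
        have : 1 ≤ Real.log n ^ 5 := one_le_pow₀ hl1
        nlinarith
      linarith
    have e3 : 0 ≤ 1 / (1 - p) * (SS p K n : ℝ) := by
      have : 0 < 1 - p := by linarith
      positivity
    calc 1 / (1 - p) * (SS p K n : ℝ) * (Λ * Real.log n ^ 5 + 1)
        ≤ 1 / (1 - p) * (SS p K n : ℝ) * (2 * (Λ * Real.log n ^ 5)) := mul_le_mul_of_nonneg_left e2 e3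
      _ = (1 / (1 - p) * (SS p K n : ℝ) * 2) * (Λ * Real.log n ^ 5) := by ring
      _ ≤ Real.log n ^ 2 * (Λ * Real.log n ^ 5) := mul_le_mul_of_nonneg_right hnum.bS (by positivity)
      _ = _ := by ring
  have e4 : Real.log n ^ 7 * (1 + Real.log n) + Real.log n ^ 7 ≤ Real.log n ^ 9 := by
    have e5 : (1 + Real.log n) + 1 ≤ Real.log n ^ 2 := by nlinarith
    calc Real.log n ^ 7 * (1 + Real.log n) + Real.log n ^ 7 = Real.log n ^ 7 * ((1 + Real.log n) + 1) := by ring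
      _ ≤ Real.log n ^ 7 * Real.log n ^ 2 := mul_le_mul_of_nonneg_left e5 (by positivity)
      _ = _ := by ring
  calc Λ * Real.log n ^ 7 * (1 + Real.log n) +
        1 / (1 - p) * (SS p K n : ℝ) * (Λ * Real.log n ^ 5 + 1)
      ≤ Λ * Real.log n ^ 7 * (1 + Real.log n) + Λ * Real.log n ^ 7 := by linarith
    _ = Λ * (Real.log n ^ 7 * (1 + Real.log n) + Real.log n ^ 7) := by ring
    _ ≤ Λ * Real.log n ^ 9 := mul_le_mul_of_nonneg_left e4 (by linarith)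
    _ = Real.log n ^ 15 * (N45 + μ) := by
        rw [hΛ]
        ring

end Pool.Agent.CHP
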