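import Pool.Agent.CHP.VFf
import Pool.Agent.CHV.Fin2

/-!
# CHP / VarC: the variance of the chromatic number
-/

set_option autoImplicit false

namespace Pool.Agent.CHP

open Finset Filter Pool.Agent.CHV

variable {p : ℝ}

theorem SS_add (p : ℝ) {K K' : ℕ} (h : K ≤ K') (n : ℕ) : SS p K n ≤ SS p K' n := by
  unfold SS
  omega

theorem alpha_mono (h0 : 0 ≤ p) (h1 : p ≤ 1) {K K' : ℕ} (h : K ≤ K') (n : ℕ) :
    Ex p (fun x : Cf n => ind (¬ ∀ I : Finset (Fin n), Ind x I → I.card ≤ SS p K' n)) ≤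
      Ex p (fun x : Cf n => ind (¬ ∀ I : Finset (Fin n), Ind x I → I.card ≤ SS p K n)) := by
  refine Ex_mono h0 h1 fun x => ind_mono ?_
  intro h2 h3
  exact h2 fun I hI => (h3 I hI).trans (SS_add p h n)

theorem var_chi2 (h0 : 0 < p) (h1 : p < 1) (hB : -Real.log (1 - p) ≤ 2) {ε : ℝ} (hε : 0 < ε) :
    ∀ᶠ n : ℕ in atTop, ∀ a : ℕ,
      (n : ℝ) ^ (1 / 2 : ℝ) ≤ mu p n a → mu p n a ≤ (n : ℝ) ^ (1 - ε) →
      Ex p (fun x : Cf n => (chi x - Ex p (fun x : Cf n => chi x)) ^ 2) ≤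
        Real.log n ^ 16 * ((n : ℝ) ^ (4 / 5 : ℝ) + mu p n a) := by
  obtain ⟨K0, hK0⟩ := var_ff_bound h0 h1 hB hε
  obtain ⟨Ka, hKa⟩ := alpha_prob h0 h1
  set K := max K0 Ka with hK
  have hv := hK0 K (le_max_left _ _)
  filter_upwards [hv, hKa, small_ind h0 h1, SS_ge h0 h1 K, lm_low h0 h1, lm_up h0 h1,
    (tendsto_LL h0 h1).eventually_ge_atTop 17, eventually_ge_atTop 2,
    (Real.tendsto_log_atTop.comp tendsto_natCast_atTop_atTop).eventually_ge_atTop 4]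
    with n hvn hKn hSn hS1 hl1 hl2 hL17 hn2 hlog4
  intro a ha1 ha2
  simp only [Function.comp] at hlog4
  have hCn := hvn a ha1 ha2
  have hKn' := (alpha_mono h0.le h1.le (le_max_right K0 Ka) n).trans hKn
  rw [← hK] at hKn'
  set S := SS p K n with hS_def
  set lam := lm p n with hlam_def
  set L := LL p n with hL_def
  have hn' : (0 : ℝ) < n := by exact_mod_cast (by omega : 0 < n)
  have hn1 : (1 : ℝ) < n := by exact_mod_cast (by omega : 1 < n)
  have hL0 : 0 < L := by linarith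
  have hlpos : (1 : ℝ) ≤ lam := by
    have : (17 : ℝ) / 17 ≤ L / 17 := by linarith
    linarith
  have hlpos' : 0 < lam := by
    have : (0 : ℝ) < lam := by linarith
    exact_mod_cast this
  have hlam' : (0 : ℝ) < lam := by linarith
  have hlS : lam < S := by
    have : (lam : ℝ) < S := by linarith
    exact_mod_cast this
  set m := ⌈(n : ℝ) ^ (1 / 4 : ℝ)⌉₊ with hm_def
  have hv := var_le_add (p := p) h0.le h1.le (fun x : Cf n => chi x)
    (fun x : Cf n => ff S lam x / lam)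
  refine hv.trans ?_
  have hG : Ex p (fun x : Cf n => (ff S lam x / lam - Ex p (fun x : Cf n => ff S lam x / lam)) ^ 2)
      = 1 / (lam : ℝ) ^ 2 *
        Ex p (fun x : Cf n => (ff S lam x - Ex p (fun x : Cf n => ff S lam x)) ^ 2) := by
    have e2 : Ex p (fun x : Cf n => ff S lam x / lam) =
        (1 / (lam : ℝ)) * Ex p (fun x : Cf n => ff S lam x) := by
      rw [← Ex_smul]
      congr 1
      funext x
      ring
    rw [e2]
    generalize Ex p (fun x : Cf n => ff S lam x) = μ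
    rw [← Ex_smul]
    congr 1
    funext x
    field_simp
  rw [hG]
  have hmu0 : 0 ≤ mu p n a := (Real.rpow_nonneg hn'.le _).trans ha1
  have hnn : (0 : ℝ) ≤ (n : ℝ) ^ (4 / 5 : ℝ) := Real.rpow_nonneg hn'.le _
  have t1 : 1 / (lam : ℝ) ^ 2 *
        Ex p (fun x : Cf n => (ff S lam x - Ex p (fun x : Cf n => ff S lam x)) ^ 2) ≤
      Real.log n ^ 15 * ((n : ℝ) ^ (4 / 5 : ℝ) + mu p n a) := by
    have e3 : 1 / (lam : ℝ) ^ 2 ≤ 1 := by
      rw [div_le_one (by positivity)]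
      exact one_le_pow₀ hlpos
    have e4 : 0 ≤ Ex p (fun x : Cf n => (ff S lam x - Ex p (fun x : Cf n => ff S lam x)) ^ 2) :=
      Ex_nonneg h0.le h1.le (fun x => sq_nonneg _)
    calc 1 / (lam : ℝ) ^ 2 *
        Ex p (fun x : Cf n => (ff S lam x - Ex p (fun x : Cf n => ff S lam x)) ^ 2)
        ≤ 1 * Ex p (fun x : Cf n => (ff S lam x - Ex p (fun x : Cf n => ff S lam x)) ^ 2) :=
          mul_le_mul_of_nonneg_right e3 e4
      _ ≤ _ := by rw [one_mul]; exact hCn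
  have t2 : Ex p (fun x : Cf n => (chi x - ff S lam x / lam) ^ 2) ≤
      6 * (n : ℝ) ^ (4 / 5 : ℝ) := by
    have e2 : Ex p (fun x : Cf n => (chi x - ff S lam x / lam) ^ 2) ≤
        Ex p (fun x : Cf n => (m : ℝ) ^ 2 + (n : ℝ) ^ 2 *
      (ind (¬ ∀ I : Finset (Fin n), Ind x I → I.card ≤ S) +
        ind (¬ ∀ M : Finset (Fin n), m ≤ M.card → ∃ I ⊆ M, Ind x I ∧ I.card = lam + 1))) :=
      Ex_mono h0.le h1.le (fun x => chi_close x hlS hlpos')
    refine e2.trans ?_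
    rw [Ex_add, Ex_const, Ex_smul, Ex_add]
    have e3 : (n : ℝ) ^ 2 * (Ex p (fun x : Cf n => ind (¬ ∀ I : Finset (Fin n), Ind x I →
        I.card ≤ S)) + Ex p (fun x : Cf n => ind (¬ ∀ M : Finset (Fin n), m ≤ M.card →
          ∃ I ⊆ M, Ind x I ∧ I.card = lam + 1))) ≤ 2 := by
      calc _ ≤ (n : ℝ) ^ 2 * (1 / (n : ℝ) ^ 2 + 1 / (n : ℝ) ^ 2) := by
            apply mul_le_mul_of_nonneg_left _ (by positivity)
            exact add_le_add hKn' hSn
        _ = 2 := by field_simp; norm_num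
    have e4 : (m : ℝ) ^ 2 ≤ 4 * (n : ℝ) ^ (1 / 2 : ℝ) := by
      have e5 : (m : ℝ) ≤ (n : ℝ) ^ (1 / 4 : ℝ) + 1 :=
        (Nat.ceil_lt_add_one (by positivity)).le
      have e6 : (1 : ℝ) ≤ (n : ℝ) ^ (1 / 4 : ℝ) := Real.one_le_rpow hn1.le (by norm_num)
      have e7 : (m : ℝ) ≤ 2 * (n : ℝ) ^ (1 / 4 : ℝ) := by linarith
      calc (m : ℝ) ^ 2 ≤ (2 * (n : ℝ) ^ (1 / 4 : ℝ)) ^ 2 :=
            pow_le_pow_left₀ (Nat.cast_nonneg m) e7 2
        _ = 4 * ((n : ℝ) ^ (1 / 4 : ℝ)) ^ 2 := by ring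
        _ = 4 * (n : ℝ) ^ (1 / 2 : ℝ) := by
            rw [← Real.rpow_natCast, ← Real.rpow_mul hn'.le]
            norm_num
    have e8 : (1 : ℝ) ≤ (n : ℝ) ^ (4 / 5 : ℝ) := Real.one_le_rpow hn1.le (by norm_num)
    have e9 : (n : ℝ) ^ (1 / 2 : ℝ) ≤ (n : ℝ) ^ (4 / 5 : ℝ) :=
      Real.rpow_le_rpow_of_exponent_le hn1.le (by norm_num)
    linarith
  set X := (n : ℝ) ^ (4 / 5 : ℝ) + mu p n a with hX
  have hX0 : 0 ≤ X := by positivity
  have hXn : (n : ℝ) ^ (4 / 5 : ℝ) ≤ X := by linarith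
  have hl15 : (4 : ℝ) ^ 15 ≤ Real.log n ^ 15 := pow_le_pow_left₀ (by norm_num) hlog4 15
  have t3 : 12 * X ≤ Real.log n ^ 15 * X := by
    apply mul_le_mul_of_nonneg_right _ hX0
    refine le_trans (by norm_num) hl15
  have t4 : Real.log n ^ 15 * X * 4 ≤ Real.log n ^ 16 * X := by
    have h15 : 0 ≤ Real.log n ^ 15 := by positivity
    calc Real.log n ^ 15 * X * 4 ≤ Real.log n ^ 15 * X * Real.log n :=
          mul_le_mul_of_nonneg_left hlog4 (by positivity)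
      _ = Real.log n ^ 16 * X := by ring
  have h15X : 0 ≤ Real.log n ^ 15 * X := by positivity
  linarith

end Pool.Agent.CHP
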