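import Pool.Agent.CHP.FcR

/-!
# CHP / Wle: the bound for the weight of one system of labels (geometric mean of the two countings)

PROOF.  Notation: `D = dom L`, `b = 1/(1-p)`, `σ = prD u D`, `σ' = pr2 L` (`= prD (fun i => lv (L i)) D`), `c_i = lc (L i)`,
`v_i = lv (L i)`, `C = csz L = ∑ c_i`, `s = sz S σ = ∑_{i ∈ D} u i`, `s' = sz S σ' = ∑_{i ∈ D} v_i` (`Finset.sum_fiberwise_of_maps_to`),
`C ≤ s ≤ ∑ u i ≤ n`, `C ≤ s' ≤ sz S κ' ≤ n` (`hk`).  `N_c = NN p n c > 0`.
(a) `(κ' w).descFactorial (σ' w) = C(κ' w, σ' w) (σ' w)!` (`Nat.descFactorial_eq_factorial_mul_choose`).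
(b) `v.descFactorial c * b^C(c,2) = C(v,c) * c! * b^C(c,2) = C(v,c) n^c / N_c`.
(c) `C(a_i, c_i) ≤ C(u_i, c_i)` (`Nat.choose_le_choose`).
So `WW ≤ bin S κ' σ' * ∏_w (σ' w)! * ∏_{i ∈ D} [C(u_i,c_i) C(v_i,c_i) / N_{c_i}] * n^C / n.descFactorial C`.
(d) `n^C / n.descFactorial C ≤ n^s / n.descFactorial s` (`= ∏_{j<C} n/(n-j)`, increasing in `C`), the same for `s'`, so it is
`≤ sqrt (n^s / (n)_s) * sqrt (n^s' / (n)_s')`.
(e) `EZ σ = (∏_{i ∈ D} N_{u_i}) / ∏_w (σ w)! * (n)_s / n^s`, `EZ σ' = (∏_{i ∈ D} N_{v_i}) / ∏_w (σ' w)! * (n)_s' / n^s'`.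
So `WW * sqrt (EZ σ * EZ σ') ≤ bin S κ' σ' * sqrt (∏ (σ' w)! / ∏ (σ w)!) * ∏_{i ∈ D} [C(u_i,c_i) C(v_i,c_i) sqrt (N_{u_i} N_{v_i}) / N_{c_i}]
= bin * sqrt (..) * ∏_{i ∈ D} rt p n (u i) c_i * rt p n v_i c_i`; for `i` with `v_i = u_i = c_i` the last factor is `1`
(`Nat.choose_self`, `N_c/N_c = 1`), and `fact_ratio` with `X = {i ∈ D | v_i = u_i ∧ c_i = u_i}` bounds the ratio of the factorials by
`∏_{i ∈ D \ X} exp 1 * k / σ(u i)`; `Real.sqrt` of a product of nonnegative numbers is the product of the square roots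
(`Real.sqrt_prod` or induction).  `EZ σ, EZ σ' > 0`.
-/

set_option autoImplicit false

namespace Pool.Agent.CHP

open Finset Pool.Agent.CHV

variable {ι : Type} [Fintype ι] [DecidableEq ι]

private theorem NN_pos {p : ℝ} (h1 : p < 1) {n : ℕ} (hn : 0 < n) (u : ℕ) : 0 < NN p n u := by
  unfold NN
  have hn' : (0 : ℝ) < n := by exact_mod_cast hn
  have hq : 0 < 1 - p := by linarith
  positivity

private theorem desc_pos {n s : ℕ} (h : s ≤ n) : (0 : ℝ) < (n.descFactorial s : ℝ) := by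
  have : 0 < n.descFactorial s := Nat.pos_of_ne_zero (by
    intro h0
    have := Nat.descFactorial_eq_zero_iff_lt.1 h0
    omega)
  exact_mod_cast this

theorem EZ_pos {p : ℝ} (h1 : p < 1) {n S : ℕ} (hn : 0 < n) {κ : ℕ → ℕ} (hs : sz S κ ≤ n) :
    0 < EZ p n S κ := by
  unfold EZ
  have hn' : (0 : ℝ) < n := by exact_mod_cast hn
  have h2 := desc_pos hs
  refine mul_pos (Finset.prod_pos (fun v _ => ?_)) (by positivity)
  have := NN_pos h1 hn v
  positivity

private theorem ratio_mono {n C s : ℕ} (hn : 0 < n) (hC : C ≤ s) (hs : s ≤ n) :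
    (n : ℝ) ^ C / (n.descFactorial C : ℝ) ≤ (n : ℝ) ^ s / (n.descFactorial s : ℝ) := by
  have h1 := desc_pos (le_trans hC hs)
  have h2 := desc_pos hs
  rw [div_le_div_iff₀ h1 h2]
  have e1 : n.descFactorial s = (n - C).descFactorial (s - C) * n.descFactorial C :=
    (Nat.descFactorial_mul_descFactorial hC).symm
  have e2 : (n - C).descFactorial (s - C) ≤ n ^ (s - C) :=
    le_trans (Nat.descFactorial_le_pow _ _) (Nat.pow_le_pow_left (Nat.sub_le _ _) _)
  have e3 : n ^ C * n.descFactorial s ≤ n ^ s * n.descFactorial C := by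
    rw [e1]
    calc n ^ C * ((n - C).descFactorial (s - C) * n.descFactorial C)
        ≤ n ^ C * (n ^ (s - C) * n.descFactorial C) :=
          Nat.mul_le_mul_left _ (Nat.mul_le_mul_right _ e2)
      _ = n ^ s * n.descFactorial C := by
          rw [← mul_assoc, ← pow_add, Nat.add_sub_cancel' hC]
  exact_mod_cast e3

private theorem lv_le {S : ℕ} (o : Lb S) : lv o ≤ S := by
  unfold lv
  cases o with
  | none => simp
  | some q =>
    simp only [Option.elim_some]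
    have := q.1.2
    omega

omit [Fintype ι] in
private theorem sz_prD {S : ℕ} (D : Finset ι) (u : ι → ℕ) (hu : ∀ i ∈ D, u i ≤ S) :
    sz S (prD u D) = ∑ i ∈ D, u i := by
  unfold sz
  rw [← Finset.sum_fiberwise_of_maps_to (s := D) (t := range (S + 1)) (g := u)]
  · apply Finset.sum_congr rfl
    intro w _
    rw [Finset.sum_congr rfl (g := fun _ => w)]
    · rw [Finset.sum_const, smul_eq_mul, mul_comm]
      rfl
    · intro i hi
      exact (Finset.mem_filter.1 hi).2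
  · intro i hi
    rw [Finset.mem_range]
    exact Nat.lt_succ_of_le (hu i hi)

omit [Fintype ι] in
private theorem prod_prD {S : ℕ} (D : Finset ι) (u : ι → ℕ) (hu : ∀ i ∈ D, u i ≤ S)
    (f : ℕ → ℝ) : ∏ w ∈ range (S + 1), f w ^ (prD u D w) = ∏ i ∈ D, f (u i) := by
  rw [← Finset.prod_fiberwise_of_maps_to (s := D) (t := range (S + 1)) (g := u)]
  · apply Finset.prod_congr rfl
    intro w _
    rw [Finset.prod_congr rfl (g := fun _ => f w)]
    · rw [Finset.prod_const]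
      rfl
    · intro i hi
      rw [(Finset.mem_filter.1 hi).2]
  · intro i hi
    rw [Finset.mem_range]
    exact Nat.lt_succ_of_le (hu i hi)

omit [Fintype ι] in
private theorem EZ_prD {p : ℝ} {n S : ℕ} (D : Finset ι) (u : ι → ℕ) (hu : ∀ i ∈ D, u i ≤ S) :
    EZ p n S (prD u D) = (∏ i ∈ D, NN p n (u i)) /
      (∏ w ∈ range (S + 1), ((prD u D w).factorial : ℝ)) *
      ((n.descFactorial (sz S (prD u D)) : ℝ) / (n : ℝ) ^ (sz S (prD u D))) := by
  unfold EZ
  rw [Finset.prod_div_distrib, prod_prD D u hu]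

private theorem sqrt_prod' {κ : Type} (s : Finset κ) (f : κ → ℝ) (hf : ∀ i ∈ s, 0 ≤ f i) :
    Real.sqrt (∏ i ∈ s, f i) = ∏ i ∈ s, Real.sqrt (f i) := by
  classical
  induction s using Finset.induction_on with
  | empty => simp
  | insert a s ha ih =>
    rw [Finset.prod_insert ha, Finset.prod_insert ha, Real.sqrt_mul (hf a (by simp)),
      ih (fun i hi => hf i (by simp [hi]))]

theorem WW_le {p : ℝ} (h0 : 0 ≤ p) (h1 : p < 1) {n S r0 : ℕ} (hn : 0 < n) (κ' : ℕ → ℕ)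
    (a u : ι → ℕ) (hau : ∀ i, a i ≤ u i) (hu : ∀ i, u i ≤ S) (hsu : ∑ i, u i ≤ n)
    (L : ι → Lb S) (hadm : Adm r0 a L) (hs : sz S κ' ≤ n) (hk : ∀ v ≤ S, pr2 L v ≤ κ' v)
    (k : ℝ) (hkk : (Fintype.card ι : ℝ) ≤ k) :
    WW (1 / (1 - p)) n S κ' a L ≤
      (bin S κ' (pr2 L) : ℝ) / Real.sqrt (EZ p n S (prD u (dom L)) * EZ p n S (pr2 L)) *
        ∏ i ∈ (dom L).filter (fun i => ¬ (lv (L i) = u i ∧ lc (L i) = u i)),
          (Real.sqrt (Real.exp 1 * k / (prD u (dom L) (u i) : ℝ)) *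
            (rt p n (u i) (lc (L i)) * rt p n (lv (L i)) (lc (L i)))) := by
  classical
  have hn' : (0 : ℝ) < n := by exact_mod_cast hn
  have hq : 0 < 1 - p := by linarith
  let D := dom L
  let v : ι → ℕ := fun i => lv (L i)
  let c : ι → ℕ := fun i => lc (L i)
  have hpr : pr2 L = prD v D := rfl
  have huD : ∀ i ∈ D, u i ≤ S := fun i _ => hu i
  have hvD : ∀ i ∈ D, v i ≤ S := fun i _ => lv_le _
  have hcu : ∀ i ∈ D, c i ≤ u i := fun i hi => le_trans (hadm i hi).2.1 (hau i)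
  have hca : ∀ i ∈ D, c i ≤ a i := fun i hi => (hadm i hi).2.1
  have hcv : ∀ i ∈ D, c i ≤ v i := fun i hi => (hadm i hi).2.2
  have hs1 : sz S (prD u D) ≤ n := by
    rw [sz_prD D u huD]
    exact le_trans (Finset.sum_le_univ_sum_of_nonneg (fun _ => Nat.zero_le _)) hsu
  have hs2 : sz S (prD v D) ≤ n := by
    refine le_trans ?_ hs
    unfold sz
    refine Finset.sum_le_sum (fun w hw => Nat.mul_le_mul_left _ ?_)
    rw [← hpr]
    exact hk w (Nat.lt_succ_iff.1 (Finset.mem_range.1 hw))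
  have hC1 : csz L ≤ sz S (prD u D) := by
    rw [sz_prD D u huD]
    exact Finset.sum_le_sum hcu
  have hC2 : csz L ≤ sz S (prD v D) := by
    rw [sz_prD D v hvD]
    exact Finset.sum_le_sum hcv
  have hCn : csz L ≤ n := le_trans hC1 hs1
  -- abbreviations
  obtain ⟨R, hR⟩ : ∃ R : ℝ, R = (n : ℝ) ^ (csz L) / (n.descFactorial (csz L) : ℝ) := ⟨_, rfl⟩
  obtain ⟨R1, hR1⟩ : ∃ R : ℝ, R = (n : ℝ) ^ (sz S (prD u D)) /
    (n.descFactorial (sz S (prD u D)) : ℝ) := ⟨_, rfl⟩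
  obtain ⟨R2, hR2⟩ : ∃ R : ℝ, R = (n : ℝ) ^ (sz S (prD v D)) /
    (n.descFactorial (sz S (prD v D)) : ℝ) := ⟨_, rfl⟩
  have hRR1 : R ≤ R1 := by rw [hR, hR1]; exact ratio_mono hn hC1 hs1
  have hRR2 : R ≤ R2 := by rw [hR, hR2]; exact ratio_mono hn hC2 hs2
  have hRpos : 0 < R := by
    rw [hR]; have := desc_pos hCn; positivity
  have hR1pos : 0 < R1 := lt_of_lt_of_le hRpos hRR1
  have hR2pos : 0 < R2 := lt_of_lt_of_le hRpos hRR2
  obtain ⟨F, hF⟩ : ∃ F : ℝ, F = ∏ w ∈ range (S + 1), ((prD u D w).factorial : ℝ) := ⟨_, rfl⟩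
  obtain ⟨F', hF'⟩ : ∃ F : ℝ, F = ∏ w ∈ range (S + 1), ((prD v D w).factorial : ℝ) := ⟨_, rfl⟩
  have hFpos : 0 < F := by rw [hF]; exact Finset.prod_pos (fun w _ => by positivity)
  have hF'pos : 0 < F' := by rw [hF']; exact Finset.prod_pos (fun w _ => by positivity)
  obtain ⟨Nu, hNu⟩ : ∃ N : ℝ, N = ∏ i ∈ D, NN p n (u i) := ⟨_, rfl⟩
  obtain ⟨Nv, hNv⟩ : ∃ N : ℝ, N = ∏ i ∈ D, NN p n (v i) := ⟨_, rfl⟩
  have hNupos : 0 < Nu := by rw [hNu]; exact Finset.prod_pos (fun i _ => NN_pos h1 hn _)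
  have hNvpos : 0 < Nv := by rw [hNv]; exact Finset.prod_pos (fun i _ => NN_pos h1 hn _)
  have hE1 : EZ p n S (prD u D) = Nu / F / R1 := by
    rw [EZ_prD D u huD, ← hNu, ← hF, hR1, div_div_eq_mul_div, mul_div_assoc]
  have hE2 : EZ p n S (prD v D) = Nv / F' / R2 := by
    rw [EZ_prD D v hvD, ← hNv, ← hF', hR2, div_div_eq_mul_div, mul_div_assoc]
  -- the bound for WW
  have hA : (∏ w ∈ range (S + 1), ((κ' w).descFactorial (pr2 L w) : ℝ))
      = (bin S κ' (pr2 L) : ℝ) * F' := by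
    rw [hF', bin]
    push_cast
    rw [← Finset.prod_mul_distrib]
    refine Finset.prod_congr rfl (fun w _ => ?_)
    rw [Nat.descFactorial_eq_factorial_mul_choose, hpr]
    push_cast
    ring
  obtain ⟨K, hK⟩ : ∃ K : ℝ, K = ∏ i ∈ D, (((u i).choose (c i) : ℝ) * ((v i).choose (c i) : ℝ) /
    NN p n (c i)) := ⟨_, rfl⟩
  have hKnn : 0 ≤ K := by
    rw [hK]
    exact Finset.prod_nonneg (fun i _ => by have := NN_pos h1 hn (c i); positivity)
  have hB : (∏ i ∈ D, (((a i).choose (c i) : ℝ) * ((v i).descFactorial (c i) : ℝ) *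
      (1 / (1 - p)) ^ ((c i).choose 2))) ≤ K * (n : ℝ) ^ (csz L) := by
    have e : (n : ℝ) ^ (csz L) = ∏ i ∈ D, (n : ℝ) ^ (c i) := by
      rw [Finset.prod_pow_eq_pow_sum]; rfl
    rw [hK, e, ← Finset.prod_mul_distrib]
    refine Finset.prod_le_prod (fun i _ => by positivity) (fun i hi => ?_)
    have h3 : ((a i).choose (c i) : ℝ) ≤ ((u i).choose (c i) : ℝ) := by
      exact_mod_cast Nat.choose_le_choose _ (hau i)
    have h4 : ((v i).descFactorial (c i) : ℝ) * (1 / (1 - p)) ^ ((c i).choose 2)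
        = ((v i).choose (c i) : ℝ) / NN p n (c i) * (n : ℝ) ^ (c i) := by
      rw [Nat.descFactorial_eq_factorial_mul_choose]
      unfold NN
      push_cast
      have : (n : ℝ) ^ (c i) ≠ 0 := by positivity
      have : (1 - p) ^ ((c i).choose 2) ≠ 0 := by positivity
      rw [one_div, inv_pow]
      field_simp
    rw [mul_assoc, h4]
    have h5 : 0 ≤ ((v i).choose (c i) : ℝ) / NN p n (c i) * (n : ℝ) ^ (c i) := by
      have := NN_pos h1 hn (c i); positivity
    calc ((a i).choose (c i) : ℝ) * (((v i).choose (c i) : ℝ) / NN p n (c i) * (n : ℝ) ^ (c i))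
        ≤ ((u i).choose (c i) : ℝ) *
          (((v i).choose (c i) : ℝ) / NN p n (c i) * (n : ℝ) ^ (c i)) :=
          mul_le_mul_of_nonneg_right h3 h5
      _ = _ := by ring
  have hbin : (0 : ℝ) ≤ (bin S κ' (pr2 L) : ℝ) := by positivity
  have hWW : WW (1 / (1 - p)) n S κ' a L ≤ (bin S κ' (pr2 L) : ℝ) * F' * K * R := by
    unfold WW
    rw [hA]
    have hd := desc_pos hCn
    calc (bin S κ' (pr2 L) : ℝ) * F' * (∏ i ∈ dom L, (((a i).choose (lc (L i)) : ℝ) *
          ((lv (L i)).descFactorial (lc (L i)) : ℝ) *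
          (1 / (1 - p)) ^ ((lc (L i)).choose 2))) / (n.descFactorial (csz L) : ℝ)
        ≤ (bin S κ' (pr2 L) : ℝ) * F' * (K * (n : ℝ) ^ (csz L)) /
          (n.descFactorial (csz L) : ℝ) := by
          apply div_le_div_of_nonneg_right _ hd.le
          exact mul_le_mul_of_nonneg_left hB (by positivity)
      _ = (bin S κ' (pr2 L) : ℝ) * F' * K * R := by rw [hR]; ring
  -- product of the rt
  obtain ⟨T0, hT0⟩ : ∃ T : ℝ, T = ∏ i ∈ D, (rt p n (u i) (c i) * rt p n (v i) (c i)) := ⟨_, rfl⟩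
  have hrt : K * Real.sqrt (Nu * Nv) = T0 := by
    rw [hK, hNu, hNv, ← Finset.prod_mul_distrib, sqrt_prod' _ _ (fun i _ => by
      have := NN_pos h1 hn (u i); have := NN_pos h1 hn (v i); positivity),
      ← Finset.prod_mul_distrib, hT0]
    refine Finset.prod_congr rfl (fun i _ => ?_)
    unfold rt
    have a1 := NN_pos h1 hn (u i)
    have a2 := NN_pos h1 hn (v i)
    have a3 := NN_pos h1 hn (c i)
    rw [Real.sqrt_mul a1.le, Real.sqrt_div a1.le, Real.sqrt_div a2.le]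
    have hs3 : Real.sqrt (NN p n (c i)) * Real.sqrt (NN p n (c i)) = NN p n (c i) :=
      Real.mul_self_sqrt a3.le
    have hs3' : Real.sqrt (NN p n (c i)) ≠ 0 := (Real.sqrt_pos.2 a3).ne'
    obtain ⟨sc, hsc⟩ : ∃ s, s = Real.sqrt (NN p n (c i)) := ⟨_, rfl⟩
    rw [← hsc] at hs3 hs3' ⊢
    rw [← hs3]
    field_simp
  let Bd := D.filter (fun i => ¬ (lv (L i) = u i ∧ lc (L i) = u i))
  let X := D.filter (fun i => lv (L i) = u i ∧ lc (L i) = u i)
  have hDX : D \ X = Bd := by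
    ext i
    simp only [X, Bd, Finset.mem_sdiff, Finset.mem_filter]
    tauto
  have hT1 : T0 = ∏ i ∈ Bd, (rt p n (u i) (c i) * rt p n (v i) (c i)) := by
    rw [hT0]
    symm
    apply Finset.prod_subset (Finset.filter_subset _ _)
    intro i hi hib
    have hg : lv (L i) = u i ∧ lc (L i) = u i := by
      by_contra hcon
      exact hib (Finset.mem_filter.2 ⟨hi, hcon⟩)
    have e1 : v i = u i := hg.1
    have e2 : c i = u i := hg.2
    rw [e1, e2]
    unfold rt
    rw [Nat.choose_self, div_self (NN_pos h1 hn (u i)).ne', Real.sqrt_one]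
    norm_num
  have hfr : F' ≤ F * ∏ i ∈ Bd, (Real.exp 1 * k / (prD u D (u i) : ℝ)) := by
    rw [hF, hF', ← hDX]
    refine fact_ratio D X (Finset.filter_subset _ _) u v huD hvD ?_ k ?_
    · intro i hi
      exact ((Finset.mem_filter.1 hi).2.1).symm
    · refine le_trans ?_ hkk
      exact_mod_cast Finset.card_le_univ D
  have hk0 : 0 ≤ k := le_trans (by positivity) hkk
  have hterm : ∀ i, 0 ≤ Real.exp 1 * k / (prD u D (u i) : ℝ) := fun i => by positivity
  have hsq : Real.sqrt (F' / F) ≤ ∏ i ∈ Bd, Real.sqrt (Real.exp 1 * k / (prD u D (u i) : ℝ)) := by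
    rw [← sqrt_prod' _ _ (fun i _ => hterm i)]
    apply Real.sqrt_le_sqrt
    rw [div_le_iff₀ hFpos, mul_comm]
    exact hfr
  have hT0nn : 0 ≤ T0 := by
    rw [← hrt]; positivity
  -- final computation
  have hEE : EZ p n S (prD u D) * EZ p n S (prD v D) = (Nu * Nv) / (F * F') / (R1 * R2) := by
    rw [hE1, hE2]
    field_simp
  have hEpos : 0 < EZ p n S (prD u D) * EZ p n S (prD v D) := by
    rw [hEE]; positivity
  have hsE : 0 < Real.sqrt (EZ p n S (prD u D) * EZ p n S (prD v D)) := Real.sqrt_pos.2 hEpos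
  have hgoal : WW (1 / (1 - p)) n S κ' a L *
      Real.sqrt (EZ p n S (prD u D) * EZ p n S (prD v D))
      ≤ (bin S κ' (pr2 L) : ℝ) * (∏ i ∈ Bd, (Real.sqrt (Real.exp 1 * k / (prD u D (u i) : ℝ)) *
            (rt p n (u i) (c i) * rt p n (v i) (c i)))) := by
    have hRs : R ≤ Real.sqrt (R1 * R2) := by
      rw [← Real.sqrt_mul_self hRpos.le]
      exact Real.sqrt_le_sqrt (mul_le_mul hRR1 hRR2 hRpos.le hR1pos.le)
    have e1 : Real.sqrt (EZ p n S (prD u D) * EZ p n S (prD v D))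
        = Real.sqrt (Nu * Nv) / Real.sqrt (F * F') / Real.sqrt (R1 * R2) := by
      rw [hEE, Real.sqrt_div (by positivity), Real.sqrt_div (by positivity)]
    have e2 : F' / Real.sqrt (F * F') = Real.sqrt (F' / F) := by
      rw [Real.sqrt_div hF'pos.le, Real.sqrt_mul hFpos.le]
      have h6 : Real.sqrt F' * Real.sqrt F' = F' := Real.mul_self_sqrt hF'pos.le
      have h7 : Real.sqrt F ≠ 0 := (Real.sqrt_pos.2 hFpos).ne'
      have h8 : Real.sqrt F' ≠ 0 := (Real.sqrt_pos.2 hF'pos).ne'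
      rw [div_eq_div_iff (mul_ne_zero h7 h8) h7]
      calc F' * Real.sqrt F = (Real.sqrt F' * Real.sqrt F') * Real.sqrt F := by rw [h6]
        _ = _ := by ring
    have hRR : 0 < Real.sqrt (R1 * R2) := Real.sqrt_pos.2 (by positivity)
    have hFF : 0 < Real.sqrt (F * F') := Real.sqrt_pos.2 (by positivity)
    calc WW (1 / (1 - p)) n S κ' a L * Real.sqrt (EZ p n S (prD u D) * EZ p n S (prD v D))
        ≤ ((bin S κ' (pr2 L) : ℝ) * F' * K * R) *
          Real.sqrt (EZ p n S (prD u D) * EZ p n S (prD v D)) :=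
          mul_le_mul_of_nonneg_right hWW hsE.le
      _ ≤ ((bin S κ' (pr2 L) : ℝ) * F' * K * Real.sqrt (R1 * R2)) *
          Real.sqrt (EZ p n S (prD u D) * EZ p n S (prD v D)) := by
          apply mul_le_mul_of_nonneg_right _ hsE.le
          exact mul_le_mul_of_nonneg_left hRs (by positivity)
      _ = (bin S κ' (pr2 L) : ℝ) * (F' / Real.sqrt (F * F')) * (K * Real.sqrt (Nu * Nv)) := by
          rw [e1]
          field_simp
      _ = (bin S κ' (pr2 L) : ℝ) * Real.sqrt (F' / F) * T0 := by rw [e2, hrt]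
      _ ≤ (bin S κ' (pr2 L) : ℝ) * (∏ i ∈ Bd, Real.sqrt (Real.exp 1 * k /
          (prD u D (u i) : ℝ))) * T0 := by
          apply mul_le_mul_of_nonneg_right _ hT0nn
          exact mul_le_mul_of_nonneg_left hsq hbin
      _ = _ := by
          rw [hT1]
          simp only [Finset.prod_mul_distrib]
          ring
  have hfin := (le_div_iff₀ hsE).2 hgoal
  rw [mul_div_right_comm] at hfin
  exact hfin

end Pool.Agent.CHP
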